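import Mathlib

set_option autoImplicit false

namespace Pool.Agent.H26.CT

def Gen (σ : Equiv.Perm ℤ) : Prop := ∃ r₁ m₁ r₂ m₂ : ℤ,
          0 ≤ r₁ ∧ r₁ < m₁ ∧ 0 ≤ r₂ ∧ r₂ < m₂ ∧
          (∀ n : ℤ, ¬ (Int.ModEq m₁ n r₁ ∧ Int.ModEq m₂ n r₂)) ∧
          (∀ k : ℤ, σ (r₁ + m₁ * k) = r₂ + m₂ * k ∧ σ (r₂ + m₂ * k) = r₁ + m₁ * k) ∧
          ∀ n : ℤ, ¬ Int.ModEq m₁ n r₁ → ¬ Int.ModEq m₂ n r₂ → σ n = n

def CT : Subgroup (Equiv.Perm ℤ) := Subgroup.closure {σ | Gen σ}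

lemma gen_mem {σ : Equiv.Perm ℤ} (h : Gen σ) : σ ∈ CT := Subgroup.subset_closure h

lemma ais (f : Equiv.Perm ℤ) (x : ℤ) : f (f⁻¹ x) = x := f.apply_symm_apply x

lemma ias (f : Equiv.Perm ℤ) (x : ℤ) : f⁻¹ (f x) = x := f.symm_apply_apply x

lemma modEq_iff {m n r : ℤ} : Int.ModEq m n r ↔ ∃ k, n = r + m * k := by
  rw [Int.modEq_comm, Int.modEq_iff_add_fac]
  
/-- affine along progressions of difference `m` -/
def Aff (m : ℤ) (σ : Equiv.Perm ℤ) : Prop :=
  ∀ x : ℤ, ∃ C : ℤ, ∀ k : ℤ, σ (x + m * k) = σ x + C * k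

def Pos (σ : Equiv.Perm ℤ) : Prop := ∀ n : ℤ, 0 ≤ σ n ↔ 0 ≤ n

lemma aff_of_rat (g : Equiv.Perm ℤ) (m : ℤ)
    (h : ∀ r : ℤ, ∃ a b : ℚ, ∀ n : ℤ, Int.ModEq m n r → ((g n : ℤ) : ℚ) = a * (n : ℚ) + b) :
    Aff m g := by
  intro x
  obtain ⟨a, b, hab⟩ := h x
  refine ⟨g (x + m) - g x, fun k => ?_⟩
  have h1 := hab x (Int.ModEq.refl x)
  have h2 := hab (x + m) (modEq_iff.2 ⟨1, by ring⟩)
  have h3 := hab (x + m * k) (modEq_iff.2 ⟨k, rfl⟩)
  have h4 : ((g (x + m * k) : ℤ) : ℚ) = ((g x + (g (x + m) - g x) * k : ℤ) : ℚ) := by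
    push_cast
    push_cast at h1 h2 h3
    rw [h3, h2, h1]
    ring
  exact_mod_cast h4

lemma rat_of_aff (g : Equiv.Perm ℤ) (m : ℤ) (hm : 0 < m) (h : Aff m g) :
    ∀ r : ℤ, ∃ a b : ℚ, ∀ n : ℤ, Int.ModEq m n r → ((g n : ℤ) : ℚ) = a * (n : ℚ) + b := by
  intro r
  obtain ⟨C, hC⟩ := h r
  refine ⟨(C : ℚ) / m, g r - (C : ℚ) / m * r, ?_⟩
  intro n hn
  obtain ⟨k, rfl⟩ := modEq_iff.1 hn
  rw [hC]
  push_cast
  have : (m : ℚ) ≠ 0 := by exact_mod_cast hm.ne'
  field_simp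
  ring

lemma Aff.mul {m m' : ℤ} {σ τ : Equiv.Perm ℤ} (h : Aff m σ) (h' : Aff m' τ) :
    Aff (m * m') (σ * τ) := by
  intro x
  obtain ⟨C', hC'⟩ := h' x
  obtain ⟨C, hC⟩ := h (τ x)
  refine ⟨C * C', fun k => ?_⟩
  rw [Equiv.Perm.mul_apply, Equiv.Perm.mul_apply]
  have e1 : x + m * m' * k = x + m' * (m * k) := by ring
  have e2 : τ x + C' * (m * k) = τ x + m * (C' * k) := by ring
  rw [e1, hC', e2, hC]
  ring

lemma Pos.mul {σ τ : Equiv.Perm ℤ} (h : Pos σ) (h' : Pos τ) : Pos (σ * τ) := by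
  intro n
  rw [Equiv.Perm.mul_apply, h, h']

lemma Pos.inv {σ : Equiv.Perm ℤ} (h : Pos σ) : Pos σ⁻¹ := by
  intro n
  have := h (σ⁻¹ n)
  rw [ais] at this
  exact this.symm

lemma Gen.inv {σ : Equiv.Perm ℤ} (h : Gen σ) : Gen σ⁻¹ := by
  obtain ⟨r₁, m₁, r₂, m₂, h1, h2, h3, h4, h5, h6, h7⟩ := h
  refine ⟨r₁, m₁, r₂, m₂, h1, h2, h3, h4, h5, fun k => ⟨?_, ?_⟩, fun n hn hn' => ?_⟩
  · rw [Equiv.Perm.inv_eq_iff_eq, (h6 k).2]
  · rw [Equiv.Perm.inv_eq_iff_eq, (h6 k).1]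
  · rw [Equiv.Perm.inv_eq_iff_eq, h7 n hn hn']

lemma Gen.good {σ : Equiv.Perm ℤ} (h : Gen σ) : (∃ m : ℤ, 0 < m ∧ Aff m σ) ∧ Pos σ := by
  obtain ⟨r₁, m₁, r₂, m₂, h1, h2, h3, h4, h5, h6, h7⟩ := h
  have hm1 : 0 < m₁ := by omega
  have hm2 : 0 < m₂ := by omega
  refine ⟨⟨m₁ * m₂, by positivity, ?_⟩, ?_⟩
  · intro x
    by_cases hx1 : Int.ModEq m₁ x r₁
    · obtain ⟨k, rfl⟩ := modEq_iff.1 hx1
      refine ⟨m₂ * m₂, fun l => ?_⟩
      have e1 : r₁ + m₁ * k + m₁ * m₂ * l = r₁ + m₁ * (k + m₂ * l) := by ring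
      rw [e1, (h6 _).1, (h6 _).1]
      ring
    · by_cases hx2 : Int.ModEq m₂ x r₂
      · obtain ⟨k, rfl⟩ := modEq_iff.1 hx2
        refine ⟨m₁ * m₁, fun l => ?_⟩
        have e1 : r₂ + m₂ * k + m₁ * m₂ * l = r₂ + m₂ * (k + m₁ * l) := by ring
        rw [e1, (h6 _).2, (h6 _).2]
        ring
      · refine ⟨m₁ * m₂, fun l => ?_⟩
        rw [h7 x hx1 hx2, h7]
        · intro h
          obtain ⟨k, hk⟩ := modEq_iff.1 h
          exact hx1 (modEq_iff.2 ⟨k - m₂ * l, by linarith⟩)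
        · intro h
          obtain ⟨k, hk⟩ := modEq_iff.1 h
          exact hx2 (modEq_iff.2 ⟨k - m₁ * l, by linarith⟩)
  · intro n
    have key : ∀ r m k : ℤ, 0 ≤ r → r < m → (0 ≤ r + m * k ↔ 0 ≤ k) := by
      intro r m k hr hrm
      constructor
      · intro h
        by_contra hk
        push Not at hk
        nlinarith
      · intro hk
        have : 0 ≤ m * k := mul_nonneg (by omega) hk
        omega
    by_cases hx1 : Int.ModEq m₁ n r₁
    · obtain ⟨k, rfl⟩ := modEq_iff.1 hx1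
      rw [(h6 k).1, key _ _ _ h1 h2, key _ _ _ h3 h4]
    · by_cases hx2 : Int.ModEq m₂ n r₂
      · obtain ⟨k, rfl⟩ := modEq_iff.1 hx2
        rw [(h6 k).2, key _ _ _ h1 h2, key _ _ _ h3 h4]
      · rw [h7 n hx1 hx2]

lemma good_of_mem {σ : Equiv.Perm ℤ} (h : σ ∈ CT) : (∃ m : ℤ, 0 < m ∧ Aff m σ) ∧ Pos σ := by
  have key : ∀ σ : Equiv.Perm ℤ, σ ∈ Submonoid.closure {σ | Gen σ} →
      (∃ m : ℤ, 0 < m ∧ Aff m σ) ∧ Pos σ := by
    intro σ hσ
    induction hσ using Submonoid.closure_induction with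
    | mem x hx => exact Gen.good hx
    | one => exact ⟨⟨1, one_pos, fun x => ⟨1, fun k => by simp⟩⟩, fun n => Iff.rfl⟩
    | mul x y _ _ hx hy =>
      obtain ⟨⟨m, hm, hx1⟩, hx2⟩ := hx
      obtain ⟨⟨m', hm', hy1⟩, hy2⟩ := hy
      exact ⟨⟨m * m', by positivity, hx1.mul hy1⟩, hx2.mul hy2⟩
  apply key
  have h2 : σ ∈ (CT).toSubmonoid := h
  rw [CT, Subgroup.closure_toSubmonoid] at h2
  have h3 : ({σ | Gen σ} ∪ {σ | Gen σ}⁻¹ : Set (Equiv.Perm ℤ)) = {σ | Gen σ} := by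
    ext τ
    simp only [Set.mem_union, Set.mem_inv]
    constructor
    · rintro (h | h)
      · exact h
      · have := Gen.inv h
        rwa [inv_inv] at this
    · exact Or.inl
  rwa [h3] at h2

/-! restriction of an involution -/

open Classical in
lemma restr_aux (τ : Equiv.Perm ℤ) (hτ : ∀ n, τ (τ n) = n) (Z : Set ℤ)
    (hZ : ∀ n, n ∈ Z → τ n ∈ Z) :
    Function.LeftInverse (fun n => if n ∈ Z then τ n else n) (fun n => if n ∈ Z then τ n else n) := by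
  intro n
  by_cases h : n ∈ Z
  · simp only [h, hZ n h, if_true, hτ]
  · simp only [h, if_false]

open Classical in
noncomputable def restr (τ : Equiv.Perm ℤ) (hτ : ∀ n, τ (τ n) = n) (Z : Set ℤ)
    (hZ : ∀ n, n ∈ Z → τ n ∈ Z) : Equiv.Perm ℤ where
  toFun n := if n ∈ Z then τ n else n
  invFun n := if n ∈ Z then τ n else n
  left_inv := restr_aux τ hτ Z hZ
  right_inv := restr_aux τ hτ Z hZ

lemma restr_mem (τ : Equiv.Perm ℤ) (hτ : ∀ n, τ (τ n) = n) (Z : Set ℤ)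
    (hZ : ∀ n, n ∈ Z → τ n ∈ Z) {n : ℤ} (hn : n ∈ Z) : restr τ hτ Z hZ n = τ n :=
  if_pos hn

lemma restr_not_mem (τ : Equiv.Perm ℤ) (hτ : ∀ n, τ (τ n) = n) (Z : Set ℤ)
    (hZ : ∀ n, n ∈ Z → τ n ∈ Z) {n : ℤ} (hn : n ∉ Z) : restr τ hτ Z hZ n = n :=
  if_neg hn

lemma Aff.pos {m : ℤ} (hm : 0 < m) {σ : Equiv.Perm ℤ} (hP : Pos σ) {x C : ℤ}
    (hC : ∀ k : ℤ, σ (x + m * k) = σ x + C * k) : 0 < C := by
  rcases lt_trichotomy C 0 with h | h | h
  · exfalso
    have h1 := (hP (x + m * (|x| + |σ x| + 1))).2 (by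
      have := neg_abs_le x
      have := abs_nonneg (σ x)
      nlinarith [abs_nonneg x])
    rw [hC] at h1
    have := le_abs_self (σ x)
    have := abs_nonneg (σ x)
    nlinarith [abs_nonneg x]
  · exfalso
    have h1 := hC 1
    rw [h, zero_mul, add_zero] at h1
    have := σ.injective h1
    omega
  · exact h

/-- conjugates of class transpositions by elements of `G` lie in `CT` -/
lemma conj_gen {m : ℤ} (hm : 0 < m) {x : Equiv.Perm ℤ} (hA : Aff m x) (hP : Pos x)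
    {τ : Equiv.Perm ℤ} (hτ : Gen τ) : x * τ * x⁻¹ ∈ CT := by
  obtain ⟨r₁, m₁, r₂, m₂, h1, h2, h3, h4, h5, h6, h7⟩ := hτ
  have hm1 : 0 < m₁ := by omega
  have hm2 : 0 < m₂ := by omega
  have hinv : ∀ n, τ (τ n) = n := by
    intro n
    by_cases hx1 : Int.ModEq m₁ n r₁
    · obtain ⟨k, rfl⟩ := modEq_iff.1 hx1
      rw [(h6 k).1, (h6 k).2]
    · by_cases hx2 : Int.ModEq m₂ n r₂
      · obtain ⟨k, rfl⟩ := modEq_iff.1 hx2
        rw [(h6 k).2, (h6 k).1]
      · rw [h7 n hx1 hx2, h7 n hx1 hx2]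
  have hdisj : ∀ k l : ℤ, r₁ + m₁ * k ≠ r₂ + m₂ * l := by
    intro k l h
    exact h5 (r₁ + m₁ * k) ⟨modEq_iff.2 ⟨k, rfl⟩, modEq_iff.2 ⟨l, h⟩⟩
  set Z : (ℤ → Prop) → Set ℤ := fun P => {n | ∃ k : ℤ, P (k % m) ∧
    (n = r₁ + m₁ * k ∨ n = r₂ + m₂ * k)} with hZdef
  have hZ : ∀ P n, n ∈ Z P → τ n ∈ Z P := by
    rintro P n ⟨k, hk, rfl | rfl⟩
    · exact ⟨k, hk, Or.inr (h6 k).1⟩
    · exact ⟨k, hk, Or.inl (h6 k).2⟩
  have hone : ∀ J : ℤ, 0 ≤ J → J < m →
      x * restr τ hinv (Z (fun i => i = J)) (hZ (fun i => i = J)) * x⁻¹ ∈ CT := by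
    intro J hJ0 hJm
    apply gen_mem
    obtain ⟨C1, hC1⟩ := hA (r₁ + m₁ * J)
    obtain ⟨C2, hC2⟩ := hA (r₂ + m₂ * J)
    have hp1 := Aff.pos hm hP hC1
    have hp2 := Aff.pos hm hP hC2
    have e1 : ∀ k, x (r₁ + m₁ * (J + m * k)) = x (r₁ + m₁ * J) + C1 * m₁ * k := by
      intro k
      have := hC1 (m₁ * k)
      have e : r₁ + m₁ * (J + m * k) = r₁ + m₁ * J + m * (m₁ * k) := by ring
      rw [e, this]; ring
    have e2 : ∀ k, x (r₂ + m₂ * (J + m * k)) = x (r₂ + m₂ * J) + C2 * m₂ * k := by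
      intro k
      have := hC2 (m₂ * k)
      have e : r₂ + m₂ * (J + m * k) = r₂ + m₂ * J + m * (m₂ * k) := by ring
      rw [e, this]; ring
    have hmod : ∀ k, (J + m * k) % m = J := by
      intro k
      rw [Int.add_mul_emod_self_left, Int.emod_eq_of_lt hJ0 hJm]
    have hmod' : ∀ k, k % m = J → ∃ l, k = J + m * l := by
      intro k hk
      exact ⟨k / m, by rw [← hk]; exact (Int.emod_add_mul_ediv k m).symm⟩
    refine ⟨x (r₁ + m₁ * J), C1 * m₁, x (r₂ + m₂ * J), C2 * m₂, ?_, ?_, ?_, ?_, ?_, ?_, ?_⟩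
    · rw [hP]; positivity
    · have h8 := e1 (-1)
      have h9 : ¬ 0 ≤ x (r₁ + m₁ * (J + m * -1)) := by
        rw [hP]
        push Not
        nlinarith
      rw [h8] at h9
      linarith
    · rw [hP]; positivity
    · have h8 := e2 (-1)
      have h9 : ¬ 0 ≤ x (r₂ + m₂ * (J + m * -1)) := by
        rw [hP]
        push Not
        nlinarith
      rw [h8] at h9
      linarith
    · rintro n ⟨hn1, hn2⟩
      obtain ⟨k, hk⟩ := modEq_iff.1 hn1
      obtain ⟨l, hl⟩ := modEq_iff.1 hn2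
      rw [← e1] at hk
      rw [← e2, hk] at hl
      exact hdisj _ _ (x.injective hl)
    · intro k
      rw [← e1, ← e2]
      constructor
      · rw [Equiv.Perm.mul_apply, Equiv.Perm.mul_apply, ias,
          restr_mem _ _ _ _ (show _ ∈ Z (fun i => i = J) from ⟨_, hmod k, Or.inl rfl⟩), (h6 _).1]
      · rw [Equiv.Perm.mul_apply, Equiv.Perm.mul_apply, ias,
          restr_mem _ _ _ _ (show _ ∈ Z (fun i => i = J) from ⟨_, hmod k, Or.inr rfl⟩), (h6 _).2]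
    · intro n hn1 hn2
      rw [Equiv.Perm.mul_apply, Equiv.Perm.mul_apply, restr_not_mem, ais]
      rintro ⟨k, hk, h | h⟩
      · obtain ⟨l, rfl⟩ := hmod' k hk
        rw [Equiv.Perm.inv_eq_iff_eq, e1] at h
        exact hn1 (modEq_iff.2 ⟨l, h⟩)
      · obtain ⟨l, rfl⟩ := hmod' k hk
        rw [Equiv.Perm.inv_eq_iff_eq, e2] at h
        exact hn2 (modEq_iff.2 ⟨l, h⟩)
  have hall : ∀ J : ℕ, (J : ℤ) ≤ m →
      x * restr τ hinv (Z (fun i => i < J)) (hZ (fun i => i < J)) * x⁻¹ ∈ CT := by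
    intro J
    induction J with
    | zero =>
      intro _
      have : restr τ hinv (Z (fun i => i < (0 : ℕ))) (hZ (fun i => i < (0 : ℕ))) = 1 := by
        ext n
        rw [restr_not_mem]
        · rfl
        · rintro ⟨k, hk, _⟩
          have := Int.emod_nonneg k hm.ne'
          simp at hk
          omega
      rw [this, mul_one, mul_inv_cancel]
      exact CT.one_mem
    | succ J ih =>
      intro hJ
      push_cast at hJ
      have h8 := ih (by omega)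
      have h9 := hone J (by omega) (by omega)
      have : restr τ hinv (Z (fun i => i < (J + 1 : ℕ))) (hZ (fun i => i < (J + 1 : ℕ))) =
          restr τ hinv (Z (fun i => i < J)) (hZ (fun i => i < J)) * restr τ hinv (Z (fun i => i = J)) (hZ (fun i => i = J)) := by
        ext n
        rw [Equiv.Perm.mul_apply]
        have huniq : ∀ k l : ℤ, (n = r₁ + m₁ * k ∨ n = r₂ + m₂ * k) →
            (n = r₁ + m₁ * l ∨ n = r₂ + m₂ * l) → k = l := by
          rintro k l (h | h) (h' | h')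
          · have : m₁ * k = m₁ * l := by linarith
            exact mul_left_cancel₀ hm1.ne' this
          · exact absurd (h.symm.trans h') (hdisj _ _)
          · exact absurd (h'.symm.trans h) (hdisj _ _)
          · have : m₂ * k = m₂ * l := by linarith
            exact mul_left_cancel₀ hm2.ne' this
        by_cases hn : ∃ k : ℤ, (n = r₁ + m₁ * k ∨ n = r₂ + m₂ * k)
        · obtain ⟨k, hk⟩ := hn
          rcases lt_trichotomy (k % m) (J : ℤ) with hlt | heq | hgt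
          · have i1 : n ∈ Z (fun i => i < (J + 1 : ℕ)) := ⟨k, by push_cast; omega, hk⟩
            have i2 : n ∉ Z (fun i => i = J) := by
              rintro ⟨l, hl, hl'⟩
              rw [huniq l k hl' hk] at hl
              omega
            have i3 : n ∈ Z (fun i => i < J) := ⟨k, hlt, hk⟩
            rw [restr_mem _ _ _ _ i1, restr_not_mem _ _ _ _ i2, restr_mem _ _ _ _ i3]
          · have i1 : n ∈ Z (fun i => i < (J + 1 : ℕ)) := ⟨k, by push_cast; omega, hk⟩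
            have i2 : n ∈ Z (fun i => i = J) := ⟨k, heq, hk⟩
            have hk' : (τ n = r₁ + m₁ * k ∨ τ n = r₂ + m₂ * k) := by
              rcases hk with rfl | rfl
              · exact Or.inr (h6 k).1
              · exact Or.inl (h6 k).2
            have huniq' : ∀ l : ℤ, (τ n = r₁ + m₁ * l ∨ τ n = r₂ + m₂ * l) → l = k := by
              rintro l (h | h)
              · rcases hk' with h' | h'
                · have : m₁ * l = m₁ * k := by linarith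
                  exact mul_left_cancel₀ hm1.ne' this
                · exact absurd (h.symm.trans h') (hdisj _ _)
              · rcases hk' with h' | h'
                · exact absurd (h'.symm.trans h) (hdisj _ _)
                · have : m₂ * l = m₂ * k := by linarith
                  exact mul_left_cancel₀ hm2.ne' this
            have i3 : τ n ∉ Z (fun i => i < J) := by
              rintro ⟨l, hl, hl'⟩
              rw [huniq' l hl'] at hl
              omega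
            rw [restr_mem _ _ _ _ i1, restr_mem _ _ _ _ i2, restr_not_mem _ _ _ _ i3]
          · have i1 : n ∉ Z (fun i => i < (J + 1 : ℕ)) := by
              rintro ⟨l, hl, hl'⟩
              rw [huniq l k hl' hk] at hl
              push_cast at hl
              omega
            have i2 : n ∉ Z (fun i => i = J) := by
              rintro ⟨l, hl, hl'⟩
              rw [huniq l k hl' hk] at hl
              omega
            have i3 : n ∉ Z (fun i => i < J) := by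
              rintro ⟨l, hl, hl'⟩
              rw [huniq l k hl' hk] at hl
              omega
            rw [restr_not_mem _ _ _ _ i1, restr_not_mem _ _ _ _ i2, restr_not_mem _ _ _ _ i3]
        · have i1 : ∀ P, n ∉ Z P := by
            rintro P ⟨l, hl, hl'⟩
            exact hn ⟨l, hl'⟩
          rw [restr_not_mem _ _ _ _ (i1 (fun i => i < (J + 1 : ℕ))),
            restr_not_mem _ _ _ _ (i1 (fun i => i = J)),
            restr_not_mem _ _ _ _ (i1 (fun i => i < J))]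
      rw [this]
      have e : x * (restr τ hinv (Z (fun i => i < J)) (hZ (fun i => i < J)) *
          restr τ hinv (Z (fun i => i = J)) (hZ (fun i => i = J))) * x⁻¹ =
          (x * restr τ hinv (Z (fun i => i < J)) (hZ (fun i => i < J)) * x⁻¹) *
          (x * restr τ hinv (Z (fun i => i = J)) (hZ (fun i => i = J)) * x⁻¹) := by group
      rw [e]
      exact CT.mul_mem h8 h9
  have hfin := hall m.toNat (by rw [Int.toNat_of_nonneg hm.le])
  have : restr τ hinv (Z (fun i => i < m.toNat)) (hZ (fun i => i < m.toNat)) = τ := by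
    ext n
    by_cases hn : ∃ k : ℤ, (n = r₁ + m₁ * k ∨ n = r₂ + m₂ * k)
    · obtain ⟨k, hk⟩ := hn
      rw [restr_mem]
      refine ⟨k, ?_, hk⟩
      rw [Int.toNat_of_nonneg hm.le]
      exact Int.emod_lt_of_pos k hm
    · rw [restr_not_mem]
      · rw [h7]
        · intro h
          obtain ⟨k, hk⟩ := modEq_iff.1 h
          exact hn ⟨k, Or.inl hk⟩
        · intro h
          obtain ⟨k, hk⟩ := modEq_iff.1 h
          exact hn ⟨k, Or.inr hk⟩
      · rintro ⟨l, _, hl'⟩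
        exact hn ⟨l, hl'⟩
  rwa [this] at hfin

lemma conj_mem {m : ℤ} (hm : 0 < m) {x : Equiv.Perm ℤ} (hA : Aff m x) (hP : Pos x)
    {τ : Equiv.Perm ℤ} (hτ : τ ∈ CT) : x * τ * x⁻¹ ∈ CT := by
  have : CT ≤ CT.comap (MulAut.conj x).toMonoidHom := by
    conv_lhs => rw [CT]
    rw [Subgroup.closure_le]
    intro τ hτ
    exact conj_gen hm hA hP hτ
  exact this hτ

/-! periodic permutations -/

section periodic

variable (N : ℤ) (hN : 0 < N)

abbrev Fund := {x : ℤ // 0 ≤ x ∧ x < N}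

instance : Finite (Fund N) := by
  have : Finite (Set.Ico (0 : ℤ) N) := inferInstance
  exact this

noncomputable def ff (π : Equiv.Perm (Fund N)) (n : ℤ) : ℤ :=
  (π ⟨n % N, Int.emod_nonneg n hN.ne', Int.emod_lt_of_pos n hN⟩ : ℤ) + N * (n / N)

lemma ff_apply (π : Equiv.Perm (Fund N)) (x : Fund N) (k : ℤ) :
    ff N hN π (x + N * k) = (π x : ℤ) + N * k := by
  have h1 : ((x : ℤ) + N * k) % N = x := by
    rw [Int.add_mul_emod_self_left, Int.emod_eq_of_lt x.2.1 x.2.2]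
  have h2 : ((x : ℤ) + N * k) / N = k := by
    rw [Int.add_mul_ediv_left _ _ hN.ne', Int.ediv_eq_zero_of_lt x.2.1 x.2.2, zero_add]
  have h3 : (⟨((x : ℤ) + N * k) % N, Int.emod_nonneg _ hN.ne', Int.emod_lt_of_pos _ hN⟩ :
      Fund N) = x := Subtype.ext h1
  unfold ff
  rw [h3, h2]

include hN in
lemma exists_rep (n : ℤ) : ∃ (x : Fund N) (k : ℤ), n = x + N * k :=
  ⟨⟨n % N, Int.emod_nonneg n hN.ne', Int.emod_lt_of_pos n hN⟩, n / N,
    (Int.emod_add_mul_ediv n N).symm⟩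

noncomputable def ext (π : Equiv.Perm (Fund N)) : Equiv.Perm ℤ where
  toFun := ff N hN π
  invFun := ff N hN π⁻¹
  left_inv n := by
    obtain ⟨x, k, rfl⟩ := exists_rep N hN n
    rw [ff_apply, ff_apply]
    congr 2
    exact π.symm_apply_apply _
  right_inv n := by
    obtain ⟨x, k, rfl⟩ := exists_rep N hN n
    rw [ff_apply, ff_apply]
    congr 2
    exact π.apply_symm_apply _

lemma ext_apply (π : Equiv.Perm (Fund N)) (x : Fund N) (k : ℤ) :
    ext N hN π (x + N * k) = (π x : ℤ) + N * k := ff_apply N hN π x k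

lemma ext_mul (π π' : Equiv.Perm (Fund N)) : ext N hN (π * π') = ext N hN π * ext N hN π' := by
  ext n
  obtain ⟨x, k, rfl⟩ := exists_rep N hN n
  rw [Equiv.Perm.mul_apply, ext_apply, ext_apply, ext_apply, Equiv.Perm.mul_apply]

lemma ext_one : ext N hN 1 = 1 := by
  ext n
  obtain ⟨x, k, rfl⟩ := exists_rep N hN n
  rw [ext_apply]; rfl

open Classical in
lemma ext_swap_mem (a b : Fund N) (hab : a ≠ b) : ext N hN (Equiv.swap a b) ∈ CT := by
  apply gen_mem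
  refine ⟨a, N, b, N, a.2.1, a.2.2, b.2.1, b.2.2, ?_, ?_, ?_⟩
  · rintro n ⟨h1, h2⟩
    apply hab
    apply Subtype.ext
    have h3 : (a : ℤ) % N = b % N := h1.symm.trans h2
    rwa [Int.emod_eq_of_lt a.2.1 a.2.2, Int.emod_eq_of_lt b.2.1 b.2.2] at h3
  · intro k
    rw [ext_apply, ext_apply, Equiv.swap_apply_left, Equiv.swap_apply_right]
    exact ⟨rfl, rfl⟩
  · intro n h1 h2
    obtain ⟨x, k, rfl⟩ := exists_rep N hN n
    rw [ext_apply, Equiv.swap_apply_of_ne_of_ne]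
    · rintro rfl
      exact h1 (modEq_iff.2 ⟨k, rfl⟩)
    · rintro rfl
      exact h2 (modEq_iff.2 ⟨k, rfl⟩)

lemma ext_mem (π : Equiv.Perm (Fund N)) : ext N hN π ∈ CT := by
  classical
  induction π using Equiv.Perm.swap_induction_on with
  | one => rw [ext_one]; exact CT.one_mem
  | swap_mul f x y hxy ih => rw [ext_mul]; exact CT.mul_mem (ext_swap_mem N hN x y hxy) ih

include hN

lemma periodic_mem (ψ : Equiv.Perm ℤ) (hper : ∀ n, ψ (n + N) = ψ n + N) (hP : Pos ψ) :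
    ψ ∈ CT := by
  have hk : ∀ n k : ℤ, ψ (n + N * k) = ψ n + N * k := by
    intro n k
    induction k using Int.induction_on with
    | zero => simp
    | succ k ih =>
      have e : n + N * (k + 1) = (n + N * k) + N := by ring
      rw [e, hper, ih]; ring
    | pred k ih =>
      have e : n + N * (-k - 1) + N = n + N * (-k) := by ring
      have h1 := hper (n + N * (-k - 1))
      rw [e, ih] at h1
      linarith
  have hiff : ∀ x : ℤ, (0 ≤ ψ x ∧ ψ x < N) ↔ (0 ≤ x ∧ x < N) := by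
    intro x
    rw [hP x]
    have h1 : ψ x < N ↔ x < N := by
      have h2 := hP (x + N * (-1))
      rw [hk] at h2
      constructor
      · intro h
        by_contra h3
        push Not at h3
        have := h2.2 (by linarith)
        linarith
      · intro h
        by_contra h3
        push Not at h3
        have := h2.1 (by linarith)
        linarith
    rw [h1]
  have : ψ = ext N hN (ψ.subtypePerm (p := fun x => 0 ≤ x ∧ x < N) hiff) := by
    ext n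
    obtain ⟨x, k, rfl⟩ := exists_rep N hN n
    rw [ext_apply, hk]
    rfl
  rw [this]
  exact ext_mem N hN _

end periodic

/-! restricted copies -/

/-- the copy of `σ` on the class `i(2)` -/
def rho (i : ℤ) (hi : i = 0 ∨ i = 1) (σ : Equiv.Perm ℤ) : Equiv.Perm ℤ where
  toFun n := if n % 2 = i then 2 * σ (n / 2) + i else n
  invFun n := if n % 2 = i then 2 * σ⁻¹ (n / 2) + i else n
  left_inv n := by
    by_cases h : n % 2 = i
    · have h1 : (2 * σ (n / 2) + i) % 2 = i := by omega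
      have h2 : (2 * σ (n / 2) + i) / 2 = σ (n / 2) := by omega
      simp only [h, if_true, h1, h2, ias]
      omega
    · simp only [h, if_false]
  right_inv n := by
    by_cases h : n % 2 = i
    · have h1 : (2 * σ⁻¹ (n / 2) + i) % 2 = i := by omega
      have h2 : (2 * σ⁻¹ (n / 2) + i) / 2 = σ⁻¹ (n / 2) := by omega
      simp only [h, if_true, h1, h2, ais]
      omega
    · simp only [h, if_false]

lemma rho_apply (i : ℤ) (hi : i = 0 ∨ i = 1) (σ : Equiv.Perm ℤ) (n : ℤ) :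
    rho i hi σ n = if n % 2 = i then 2 * σ (n / 2) + i else n := rfl

lemma rho_in (i : ℤ) (hi : i = 0 ∨ i = 1) (σ : Equiv.Perm ℤ) (n : ℤ) :
    rho i hi σ (2 * n + i) = 2 * σ n + i := by
  have h1 : (2 * n + i) % 2 = i := by omega
  have h2 : (2 * n + i) / 2 = n := by omega
  rw [rho_apply, if_pos h1, h2]

lemma rho_out (i : ℤ) (hi : i = 0 ∨ i = 1) (σ : Equiv.Perm ℤ) (n : ℤ) (hn : n % 2 ≠ i) :
    rho i hi σ n = n := by
  rw [rho_apply, if_neg hn]

lemma rho_mul (i : ℤ) (hi : i = 0 ∨ i = 1) (σ τ : Equiv.Perm ℤ) :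
    rho i hi (σ * τ) = rho i hi σ * rho i hi τ := by
  ext n
  rw [Equiv.Perm.mul_apply]
  by_cases h : n % 2 = i
  · obtain ⟨k, rfl⟩ : ∃ k, n = 2 * k + i := ⟨n / 2, by omega⟩
    rw [rho_in, rho_in, rho_in, Equiv.Perm.mul_apply]
  · rw [rho_out _ _ _ _ h, rho_out _ _ _ _ h, rho_out _ _ _ _ h]

lemma rho_one (i : ℤ) (hi : i = 0 ∨ i = 1) : rho i hi 1 = 1 := by
  ext n
  by_cases h : n % 2 = i
  · obtain ⟨k, rfl⟩ : ∃ k, n = 2 * k + i := ⟨n / 2, by omega⟩
    rw [rho_in]; rfl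
  · rw [rho_out _ _ _ _ h]; rfl

lemma rho_gen (i : ℤ) (hi : i = 0 ∨ i = 1) {τ : Equiv.Perm ℤ} (h : Gen τ) :
    Gen (rho i hi τ) := by
  obtain ⟨r₁, m₁, r₂, m₂, h1, h2, h3, h4, h5, h6, h7⟩ := h
  refine ⟨2 * r₁ + i, 2 * m₁, 2 * r₂ + i, 2 * m₂, by omega, by omega, by omega, by omega, ?_, ?_,
    ?_⟩
  · rintro n ⟨hn1, hn2⟩
    obtain ⟨k, hk⟩ := modEq_iff.1 hn1
    obtain ⟨l, hl⟩ := modEq_iff.1 hn2
    have e1 : n = 2 * (r₁ + m₁ * k) + i := by rw [hk]; ring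
    have e2 : n = 2 * (r₂ + m₂ * l) + i := by rw [hl]; ring
    refine h5 (r₁ + m₁ * k) ⟨modEq_iff.2 ⟨k, rfl⟩, modEq_iff.2 ⟨l, by omega⟩⟩
  · intro k
    have e1 : 2 * r₁ + i + 2 * m₁ * k = 2 * (r₁ + m₁ * k) + i := by ring
    have e2 : 2 * r₂ + i + 2 * m₂ * k = 2 * (r₂ + m₂ * k) + i := by ring
    rw [e1, e2, rho_in, rho_in, (h6 k).1, (h6 k).2]
    exact ⟨rfl, rfl⟩
  · intro n hn1 hn2
    by_cases h : n % 2 = i
    · obtain ⟨k, rfl⟩ : ∃ k, n = 2 * k + i := ⟨n / 2, by omega⟩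
      rw [rho_in, h7 k]
      · intro h
        obtain ⟨l, hl⟩ := modEq_iff.1 h
        exact hn1 (modEq_iff.2 ⟨l, by rw [hl]; ring⟩)
      · intro h
        obtain ⟨l, hl⟩ := modEq_iff.1 h
        exact hn2 (modEq_iff.2 ⟨l, by rw [hl]; ring⟩)
    · rw [rho_out _ _ _ _ h]

def rhoHom (i : ℤ) (hi : i = 0 ∨ i = 1) : Equiv.Perm ℤ →* Equiv.Perm ℤ where
  toFun := rho i hi
  map_one' := rho_one i hi
  map_mul' := rho_mul i hi

lemma rho_CT (i : ℤ) (hi : i = 0 ∨ i = 1) {τ : Equiv.Perm ℤ} (h : τ ∈ CT) : rho i hi τ ∈ CT := by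
  have : CT ≤ CT.comap (rhoHom i hi) := by
    conv_lhs => rw [CT]
    rw [Subgroup.closure_le]
    intro τ hτ
    exact gen_mem (rho_gen i hi hτ)
  exact this h

lemma rho_pos (i : ℤ) (hi : i = 0 ∨ i = 1) {σ : Equiv.Perm ℤ} (h : Pos σ) : Pos (rho i hi σ) := by
  intro n
  by_cases hn : n % 2 = i
  · obtain ⟨k, rfl⟩ : ∃ k, n = 2 * k + i := ⟨n / 2, by omega⟩
    rw [rho_in]
    have := h k
    omega
  · rw [rho_out _ _ _ _ hn]

lemma rho_aff (i : ℤ) (hi : i = 0 ∨ i = 1) {m : ℤ} {σ : Equiv.Perm ℤ} (h : Aff m σ) :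
    Aff (2 * m) (rho i hi σ) := by
  intro x
  by_cases hn : x % 2 = i
  · obtain ⟨k, rfl⟩ : ∃ k, x = 2 * k + i := ⟨x / 2, by omega⟩
    obtain ⟨C, hC⟩ := h k
    refine ⟨2 * C, fun l => ?_⟩
    have e1 : 2 * k + i + 2 * m * l = 2 * (k + m * l) + i := by ring
    rw [e1, rho_in, rho_in, hC]
    ring
  · refine ⟨2 * m, fun l => ?_⟩
    have e1 : (x + 2 * m * l) % 2 = x % 2 := by
      rw [mul_assoc, Int.add_mul_emod_self_left]
    rw [rho_out _ _ _ _ hn, rho_out _ _ _ _ (by rw [e1]; exact hn)]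

abbrev r0 := rho 0 (Or.inl rfl)
abbrev r1 := rho 1 (Or.inr rfl)

/-- `0(2) ↔ 1(2)` -/
def t01 : Equiv.Perm ℤ where
  toFun n := if n % 2 = 0 then n + 1 else n - 1
  invFun n := if n % 2 = 0 then n + 1 else n - 1
  left_inv n := by
    dsimp only
    split_ifs <;> omega
  right_inv n := by
    dsimp only
    split_ifs <;> omega

lemma t01_apply (n : ℤ) : t01 n = if n % 2 = 0 then n + 1 else n - 1 := rfl

lemma t01_mem : t01 ∈ CT := by
  apply gen_mem
  refine ⟨0, 2, 1, 2, by omega, by omega, by omega, by omega, ?_, ?_, ?_⟩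
  · rintro n ⟨h1, h2⟩
    unfold Int.ModEq at h1 h2
    omega
  · intro k
    rw [t01_apply, t01_apply]
    constructor <;> split_ifs <;> omega
  · intro n h1 h2
    unfold Int.ModEq at h1 h2
    omega

/-- `0(2) ↔ j(4)` for odd `j` -/
def t4 (j : ℤ) (hj : j = 1 ∨ j = 3) : Equiv.Perm ℤ where
  toFun n := if n % 2 = 0 then 2 * n + j else if n % 4 = j then (n - j) / 2 else n
  invFun n := if n % 2 = 0 then 2 * n + j else if n % 4 = j then (n - j) / 2 else n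
  left_inv n := by
    dsimp only
    split_ifs <;> omega
  right_inv n := by
    dsimp only
    split_ifs <;> omega

lemma t4_apply (j : ℤ) (hj : j = 1 ∨ j = 3) (n : ℤ) : t4 j hj n =
    if n % 2 = 0 then 2 * n + j else if n % 4 = j then (n - j) / 2 else n := rfl

lemma t4_mem (j : ℤ) (hj : j = 1 ∨ j = 3) : t4 j hj ∈ CT := by
  apply gen_mem
  refine ⟨0, 2, j, 4, by omega, by omega, by omega, by omega, ?_, ?_, ?_⟩
  · rintro n ⟨h1, h2⟩
    unfold Int.ModEq at h1 h2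
    omega
  · intro k
    rw [t4_apply, t4_apply]
    constructor <;> split_ifs <;> omega
  · intro n h1 h2
    unfold Int.ModEq at h1 h2
    rw [t4_apply]
    split_ifs <;> omega

lemma r1_eq (σ : Equiv.Perm ℤ) : r1 σ = t01 * r0 σ * t01 := by
  ext n
  rw [Equiv.Perm.mul_apply, Equiv.Perm.mul_apply]
  by_cases h : n % 2 = 1
  · obtain ⟨k, rfl⟩ : ∃ k, n = 2 * k + 1 := ⟨n / 2, by omega⟩
    have e1 : t01 (2 * k + 1) = 2 * k + 0 := by rw [t01_apply, if_neg (by omega)]; ring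
    rw [rho_in, e1, rho_in, t01_apply, if_pos (by omega)]
    ring
  · have e1 : t01 n = n + 1 := by rw [t01_apply, if_pos (by omega)]
    rw [rho_out _ _ _ _ h, e1, rho_out _ _ _ _ (by omega), t01_apply, if_neg (by omega)]
    ring

lemma r1r0_eq (σ : Equiv.Perm ℤ) : r1 (r0 σ) = t4 1 (Or.inl rfl) * r0 σ * t4 1 (Or.inl rfl) := by
  ext n
  rw [Equiv.Perm.mul_apply, Equiv.Perm.mul_apply]
  by_cases h : n % 4 = 1
  · obtain ⟨k, rfl⟩ : ∃ k, n = 4 * k + 1 := ⟨n / 4, by omega⟩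
    have e1 : t4 1 (Or.inl rfl) (4 * k + 1) = 2 * k + 0 := by
      rw [t4_apply, if_neg (by omega), if_pos (by omega)]; omega
    have e2 : 4 * k + 1 = 2 * (2 * k + 0) + 1 := by ring
    rw [e1, e2, rho_in, rho_in, t4_apply, if_pos (by omega)]
  · by_cases h2 : n % 2 = 0
    · have e1 : t4 1 (Or.inl rfl) n = 2 * n + 1 := by rw [t4_apply, if_pos (by omega)]
      rw [rho_out _ _ _ _ (by omega), e1, rho_out _ _ _ _ (by omega), t4_apply,
        if_neg (by omega), if_pos (by omega)]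
      omega
    · have e1 : t4 1 (Or.inl rfl) n = n := by
        rw [t4_apply, if_neg (by omega), if_neg (by omega)]
      obtain ⟨k, rfl⟩ : ∃ k, n = 2 * k + 1 := ⟨n / 2, by omega⟩
      rw [e1, rho_in, rho_out _ _ _ _ (by omega), rho_out _ _ _ _ (by omega), e1]

lemma r1r1_eq (σ : Equiv.Perm ℤ) : r1 (r1 σ) = t4 3 (Or.inr rfl) * r0 σ * t4 3 (Or.inr rfl) := by
  ext n
  rw [Equiv.Perm.mul_apply, Equiv.Perm.mul_apply]
  by_cases h : n % 4 = 3
  · obtain ⟨k, rfl⟩ : ∃ k, n = 4 * k + 3 := ⟨n / 4, by omega⟩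
    have e1 : t4 3 (Or.inr rfl) (4 * k + 3) = 2 * k + 0 := by
      rw [t4_apply, if_neg (by omega), if_pos (by omega)]; omega
    have e2 : 4 * k + 3 = 2 * (2 * k + 1) + 1 := by ring
    rw [e1, e2, rho_in, rho_in, rho_in, t4_apply, if_pos (by omega)]
    ring
  · by_cases h2 : n % 2 = 0
    · have e1 : t4 3 (Or.inr rfl) n = 2 * n + 3 := by rw [t4_apply, if_pos (by omega)]
      rw [rho_out _ _ _ _ (by omega), e1, rho_out _ _ _ _ (by omega), t4_apply,
        if_neg (by omega), if_pos (by omega)]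
      omega
    · have e1 : t4 3 (Or.inr rfl) n = n := by
        rw [t4_apply, if_neg (by omega), if_neg (by omega)]
      obtain ⟨k, rfl⟩ : ∃ k, n = 2 * k + 1 := ⟨n / 2, by omega⟩
      rw [e1, rho_in, rho_out _ _ _ _ (by omega), rho_out _ _ _ _ (by omega), e1]

/-- the relabelling `r + jm + 2mk ↦ 2r + j + 2mk` -/
def cm (m : ℤ) (hm : 0 < m) : Equiv.Perm ℤ where
  toFun n := 2 * (n % m + m * ((n / m) / 2)) + (n / m) % 2
  invFun y := (y / 2) % m + m * (2 * ((y / 2) / m) + y % 2)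
  left_inv n := by
    dsimp only
    have h1 : (2 * (n % m + m * ((n / m) / 2)) + (n / m) % 2) / 2 =
      n % m + m * ((n / m) / 2) := by omega
    have h2 : (2 * (n % m + m * ((n / m) / 2)) + (n / m) % 2) % 2 = (n / m) % 2 := by omega
    rw [h1, h2, Int.add_mul_emod_self_left, Int.emod_emod_of_dvd _ (dvd_refl m),
      Int.add_mul_ediv_left _ _ hm.ne',
      Int.ediv_eq_zero_of_lt (Int.emod_nonneg n hm.ne') (Int.emod_lt_of_pos n hm), zero_add]
    have h3 : 2 * (n / m / 2) + n / m % 2 = n / m := by omega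
    rw [h3]
    exact Int.emod_add_mul_ediv n m
  right_inv y := by
    dsimp only
    rw [Int.add_mul_emod_self_left, Int.emod_emod_of_dvd _ (dvd_refl m),
      Int.add_mul_ediv_left _ _ hm.ne',
      Int.ediv_eq_zero_of_lt (Int.emod_nonneg _ hm.ne') (Int.emod_lt_of_pos _ hm), zero_add]
    have h1 : (2 * (y / 2 / m) + y % 2) / 2 = y / 2 / m := by omega
    have h2 : (2 * (y / 2 / m) + y % 2) % 2 = y % 2 := by omega
    rw [h1, h2]
    have h3 := Int.emod_add_mul_ediv (y / 2) m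
    rw [h3]
    omega

lemma cm_apply (m : ℤ) (hm : 0 < m) (n : ℤ) :
    cm m hm n = 2 * (n % m + m * ((n / m) / 2)) + (n / m) % 2 := rfl

lemma cm_pos (m : ℤ) (hm : 0 < m) : Pos (cm m hm) := by
  intro n
  rw [cm_apply]
  have h0 := Int.emod_nonneg n hm.ne'
  have h0' := Int.emod_lt_of_pos n hm
  have h1 : 0 ≤ n ↔ 0 ≤ n / m := (Int.ediv_nonneg_iff_of_pos hm).symm
  rw [h1]
  constructor
  · intro h
    by_contra h2
    push Not at h2
    have h3 : n / m / 2 ≤ -1 := by omega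
    have h4 := mul_le_mul_of_nonneg_left h3 hm.le
    omega
  · intro h
    have h3 : 0 ≤ n / m / 2 := by omega
    have h4 := mul_nonneg hm.le h3
    omega

lemma cm_mem (m : ℤ) (hm : 0 < m) : cm m hm ∈ CT := by
  apply periodic_mem (2 * m) (by positivity) _ _ (cm_pos m hm)
  intro n
  rw [cm_apply, cm_apply]
  have e1 : n + 2 * m = n + m * 2 := by ring
  rw [e1, Int.add_mul_emod_self_left, Int.add_mul_ediv_left _ _ hm.ne']
  have e2 : (n / m + 2) / 2 = n / m / 2 + 1 := by omega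
  have e3 : (n / m + 2) % 2 = n / m % 2 := by omega
  rw [e2, e3]
  ring

/-- `E(σ) = σ₀ σ₁` is congruent to `σ` -/
lemma E_eq {m : ℤ} (hm : 0 < m) {σ : Equiv.Perm ℤ} (hA : Aff m σ) (hP : Pos σ) :
    r0 σ * r1 σ * cm m hm * σ⁻¹ ∈ CT := by
  choose C hC using hA
  have hCpos : ∀ x, 0 < C x := fun x => Aff.pos hm hP (hC x)
  have hE : ∀ n i : ℤ, (i = 0 ∨ i = 1) → (r0 σ * r1 σ) (2 * n + i) = 2 * σ n + i := by
    rintro n i (rfl | rfl)
    · rw [Equiv.Perm.mul_apply, rho_out 1 _ _ _ (by omega), rho_in]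
    · rw [Equiv.Perm.mul_apply, rho_in, rho_out 0 _ _ _ (by omega)]
  -- product of the slopes
  set L : ℤ := ∏ r ∈ Finset.Ico (0 : ℤ) m, C r with hL
  have hLpos : 0 < L := Finset.prod_pos (fun r _ => hCpos r)
  have hdvd : ∀ r, 0 ≤ r → r < m → C r ∣ L := fun r h0 h1 =>
    Finset.dvd_prod_of_mem _ (Finset.mem_Ico.2 ⟨h0, h1⟩)
  -- formula on representatives
  have hform : ∀ r l j : ℤ, 0 ≤ r → r < m → (j = 0 ∨ j = 1) →
      (r0 σ * r1 σ * cm m hm * σ⁻¹) (σ r + C r * (2 * l + j)) = 2 * (σ r + C r * l) + j := by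
    intro r l j h0 h1 hj
    rw [← hC r (2 * l + j), Equiv.Perm.mul_apply, ias, Equiv.Perm.mul_apply, cm_apply,
      Int.add_mul_emod_self_left, Int.add_mul_ediv_left _ _ hm.ne',
      Int.ediv_eq_zero_of_lt h0 h1, Int.emod_eq_of_lt h0 h1, zero_add]
    have e1 : (2 * l + j) / 2 = l := by omega
    have e2 : (2 * l + j) % 2 = j := by omega
    rw [e1, e2, hE _ _ hj, hC]
  have hrep : ∀ n : ℤ, ∃ r l j : ℤ, 0 ≤ r ∧ r < m ∧ (j = 0 ∨ j = 1) ∧
      n = σ r + C r * (2 * l + j) := by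
    intro n
    refine ⟨σ⁻¹ n % m, (σ⁻¹ n / m) / 2, (σ⁻¹ n / m) % 2, Int.emod_nonneg _ hm.ne',
      Int.emod_lt_of_pos _ hm, by omega, ?_⟩
    have e1 : 2 * (σ⁻¹ n / m / 2) + σ⁻¹ n / m % 2 = σ⁻¹ n / m := by omega
    rw [e1, ← hC, Int.emod_add_mul_ediv, ais]
  apply periodic_mem (2 * L) (by positivity)
  · intro n
    obtain ⟨r, l, j, h0, h1, hj, rfl⟩ := hrep n
    obtain ⟨q, hq⟩ := hdvd r h0 h1
    have e1 : σ r + C r * (2 * l + j) + 2 * L = σ r + C r * (2 * (l + q) + j) := by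
      rw [hq]; ring
    rw [e1, hform r _ j h0 h1 hj, hform r _ j h0 h1 hj, hq]
    ring
  · exact ((((rho_pos _ _ hP).mul (rho_pos _ _ hP)).mul (cm_pos m hm)).mul hP.inv)

lemma mem_CT {m : ℤ} (hm : 0 < m) {σ : Equiv.Perm ℤ} (hA : Aff m σ) (hP : Pos σ) : σ ∈ CT := by
  set x := r0 σ with hx
  have hxA : Aff (2 * m) x := rho_aff _ _ hA
  have hxP : Pos x := rho_pos _ _ hP
  have hN : ∀ c ∈ CT, x * c * x⁻¹ ∈ CT := fun c hc =>
    conj_mem (by positivity : 0 < 2 * m) hxA hxP hc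
  set ψ := r0 σ * r1 σ * cm m hm * σ⁻¹ with hψ
  have hψmem : ψ ∈ CT := E_eq hm hA hP
  have hc : cm m hm ∈ CT := cm_mem m hm
  -- apply `r1` to the relation `r0 σ * r1 σ = ψ σ c⁻¹`
  have hrel : r0 σ * r1 σ = ψ * σ * (cm m hm)⁻¹ := by rw [hψ]; group
  have hrel1 : r1 (r0 σ) * r1 (r1 σ) = r1 ψ * r1 σ * (r1 (cm m hm))⁻¹ := by
    have := congrArg (rhoHom 1 (Or.inr rfl)) hrel
    rw [map_mul, map_mul, map_mul, map_inv] at this
    exact this
  rw [r1r0_eq, r1r1_eq, r1_eq σ] at hrel1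
  have hψ1 : r1 ψ ∈ CT := rho_CT _ _ hψmem
  have hc1 : r1 (cm m hm) ∈ CT := rho_CT _ _ hc
  set t := t4 1 (Or.inl rfl) with ht
  set u := t4 3 (Or.inr rfl) with hu
  have htm : t ∈ CT := t4_mem _ _
  have hum : u ∈ CT := t4_mem _ _
  have h01 := t01_mem
  rw [← hx] at hrel1
  -- `t x t u x u = ψ₁ t01 x t01 c₁⁻¹`
  have hxmem : x ∈ CT := by
    have h1 : x = t⁻¹ * (r1 ψ) * t01 * (x * (t01 * (r1 (cm m hm))⁻¹ * u⁻¹) * x⁻¹) *
        (t * u)⁻¹ := by
      have e : t⁻¹ * (r1 ψ * (t01 * x * t01) * (r1 (cm m hm))⁻¹) * u⁻¹ * x⁻¹ * (t * u)⁻¹ = x := by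
        rw [← hrel1]; group
      calc x = t⁻¹ * (r1 ψ * (t01 * x * t01) * (r1 (cm m hm))⁻¹) * u⁻¹ * x⁻¹ * (t * u)⁻¹ := e.symm
        _ = _ := by group
    rw [h1]
    refine CT.mul_mem (CT.mul_mem (CT.mul_mem (CT.mul_mem (CT.inv_mem htm) hψ1) h01)
      (hN _ ?_)) (CT.inv_mem (CT.mul_mem htm hum))
    exact CT.mul_mem (CT.mul_mem h01 (CT.inv_mem hc1)) (CT.inv_mem hum)
  have hfin : σ = ψ⁻¹ * (x * (t01 * x * t01)) * cm m hm := by
    rw [hx, ← r1_eq σ, hψ]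
    group
  rw [hfin]
  exact CT.mul_mem (CT.mul_mem (CT.inv_mem hψmem) (CT.mul_mem hxmem
    (CT.mul_mem (CT.mul_mem h01 hxmem) h01))) hc

theorem main :
    ((Subgroup.closure
        {σ : Equiv.Perm ℤ | ∃ r₁ m₁ r₂ m₂ : ℤ,
          0 ≤ r₁ ∧ r₁ < m₁ ∧ 0 ≤ r₂ ∧ r₂ < m₂ ∧
          (∀ n : ℤ, ¬ (Int.ModEq m₁ n r₁ ∧ Int.ModEq m₂ n r₂)) ∧
          (∀ k : ℤ, σ (r₁ + m₁ * k) = r₂ + m₂ * k ∧ σ (r₂ + m₂ * k) = r₁ + m₁ * k) ∧
          ∀ n : ℤ, ¬ Int.ModEq m₁ n r₁ → ¬ Int.ModEq m₂ n r₂ → σ n = n}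
        : Subgroup (Equiv.Perm ℤ)) : Set (Equiv.Perm ℤ)) =
      {g : Equiv.Perm ℤ |
        (∃ m : ℤ, 0 < m ∧ ∀ r : ℤ, ∃ a b : ℚ, ∀ n : ℤ,
            Int.ModEq m n r → ((g n : ℤ) : ℚ) = a * (n : ℚ) + b) ∧
        ∀ n : ℤ, 0 ≤ g n ↔ 0 ≤ n} := by
  apply Set.Subset.antisymm
  · intro σ hσ
    obtain ⟨⟨m, hm, hA⟩, hP⟩ := good_of_mem (σ := σ) hσ
    exact ⟨⟨m, hm, rat_of_aff σ m hm hA⟩, hP⟩
  · rintro σ ⟨⟨m, hm, h⟩, hP⟩
    exact mem_CT hm (aff_of_rat σ m h) hP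

end Pool.Agent.H26.CT
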