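import Mathlib

set_option autoImplicit false

namespace Pool.Agent.H26.CTPDefs

/-- `σ` is the class transposition `τ_{r₁(m₁), r₂(m₂)}`: the residue classes `r₁(m₁)` and `r₂(m₂)`
(`0 ≤ rᵢ < mᵢ`) are disjoint, and `σ` swaps `r₁ + k m₁` and `r₂ + k m₂` for every `k ∈ ℤ` and fixes
all other integers. -/
def IsClassTransposition (r₁ m₁ r₂ m₂ : ℤ) (σ : Equiv.Perm ℤ) : Prop :=
  0 ≤ r₁ ∧ r₁ < m₁ ∧ 0 ≤ r₂ ∧ r₂ < m₂ ∧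
  (¬ ∃ n : ℤ, n % m₁ = r₁ ∧ n % m₂ = r₂) ∧
  (∀ k : ℤ, σ (r₁ + k * m₁) = r₂ + k * m₂ ∧ σ (r₂ + k * m₂) = r₁ + k * m₁) ∧
  (∀ n : ℤ, n % m₁ ≠ r₁ → n % m₂ ≠ r₂ → σ n = n)

/-- Every prime divisor of `m` lies in `P ∪ {2}`. -/
def PrimeDivisorsIn (P : Set ℕ) (m : ℤ) : Prop :=
  ∀ p : ℕ, p.Prime → (p : ℤ) ∣ m → p ∈ P ∪ {2}

/-- The group `CT_P(ℤ)`, generated by the class transpositions `τ_{r₁(m₁), r₂(m₂)}` for which all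
prime divisors of `m₁` and `m₂` lie in `P ∪ {2}`. -/
def CTP (P : Set ℕ) : Subgroup (Equiv.Perm ℤ) :=
  Subgroup.closure {σ | ∃ r₁ m₁ r₂ m₂ : ℤ, IsClassTransposition r₁ m₁ r₂ m₂ σ ∧
    PrimeDivisorsIn P m₁ ∧ PrimeDivisorsIn P m₂}

/-- `P` is a set of odd primes. -/
def IsSetOfOddPrimes (P : Set ℕ) : Prop := ∀ p ∈ P, p.Prime ∧ Odd p

end Pool.Agent.H26.CTPDefs
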