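import Mathlib

set_option autoImplicit false

namespace Pool.Agent.H26.DG

open Filter

/-- open omega-cover of a space -/
def OmegaCover (X : Type) [TopologicalSpace X] (𝒰 : Set (Set X)) : Prop :=
  (∀ U ∈ 𝒰, IsOpen U) ∧ Set.univ ∉ 𝒰 ∧ ∀ F : Finset X, ∃ U ∈ 𝒰, (F : Set X) ⊆ U

/-- the smallest family containing `ℱ` and closed under `p`-limits of sequences -/
inductive Lp {X : Type} (p : Ultrafilter ℕ) (ℱ : Set (Set X)) : Set X → Prop
  | base (U : Set X) (h : U ∈ ℱ) : Lp p ℱ U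
  | lim (W : ℕ → Set X) (h : ∀ n, Lp p ℱ (W n)) : Lp p ℱ {x | {n | x ∈ W n} ∈ p}

/-- property delta_p -/
def Delta (p : Ultrafilter ℕ) (X : Type) [TopologicalSpace X] : Prop :=
  ∀ 𝒰 : Set (Set X), OmegaCover X 𝒰 → Lp p 𝒰 Set.univ

/-- property gamma_p: every open omega-cover contains a gamma_p-cover `{U n : n}` -/
def Gamma (p : Ultrafilter ℕ) (X : Type) [TopologicalSpace X] : Prop :=
  ∀ 𝒰 : Set (Set X), OmegaCover X 𝒰 → ∃ U : ℕ → Set X, (∀ n, U n ∈ 𝒰) ∧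
    ∀ x, {n | x ∈ U n} ∈ p

/-- `q` is a P-point: every function is constant or finite-to-one on a set of `q` -/
def PPoint (q : Ultrafilter ℕ) : Prop :=
  ∀ f : ℕ → ℕ, ∃ A ∈ q, (∃ c, ∀ n ∈ A, f n = c) ∨ ∀ c, {n | n ∈ A ∧ f n = c}.Finite

end Pool.Agent.H26.DG
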