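import Pool.Agent.H26.DGDefs

set_option autoImplicit false

namespace Pool.Agent.H26.DG

open Filter

/-- the underlying set of the example -/
def Y : Type := ℕ × (ℕ → ℕ)

def UU (a b : ℕ) : Set Y := {x | x.1 ≤ a ∧ x.2 a ≤ b}

instance : TopologicalSpace Y := TopologicalSpace.generateFrom {S | ∃ a b, S = UU a b}

def B (D : Finset ℕ) (f : ℕ → ℕ) : Set Y := {x | ∀ a ∈ D, x.1 ≤ a ∧ x.2 a ≤ f a}

theorem nb (O : Set Y) (hO : IsOpen O) : ∀ x ∈ O, ∃ D : Finset ℕ, (∀ a ∈ D, x.1 ≤ a) ∧
    B D x.2 ⊆ O := by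
  have h : TopologicalSpace.GenerateOpen {S | ∃ a b, S = UU a b} O := hO
  induction h with
  | basic s hs =>
    obtain ⟨a, b, rfl⟩ := hs
    intro x hx
    refine ⟨{a}, ?_, ?_⟩
    · intro c hc
      rw [Finset.mem_singleton.1 hc]
      exact hx.1
    · intro y hy
      have := hy a (Finset.mem_singleton_self a)
      exact ⟨this.1, this.2.trans hx.2⟩
  | univ =>
    intro x _
    exact ⟨∅, by simp, fun y _ => trivial⟩
  | inter s t hs ht ihs iht =>
    intro x hx
    obtain ⟨D1, h1, h1'⟩ := ihs hs x hx.1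
    obtain ⟨D2, h2, h2'⟩ := iht ht x hx.2
    refine ⟨D1 ∪ D2, ?_, ?_⟩
    · intro a ha
      rcases Finset.mem_union.1 ha with h | h
      · exact h1 a h
      · exact h2 a h
    · intro y hy
      exact ⟨h1' fun a ha => hy a (Finset.mem_union_left _ ha),
        h2' fun a ha => hy a (Finset.mem_union_right _ ha)⟩
  | sUnion S hS ih =>
    intro x hx
    obtain ⟨s, hs, hxs⟩ := hx
    obtain ⟨D, h1, h2⟩ := ih s hs (hS s hs) x hxs
    exact ⟨D, h1, fun y hy => ⟨s, hs, h2 hy⟩⟩

def Good (p : Ultrafilter ℕ) (𝒰 : Set (Set Y)) (S : Set Y) : Prop := ∃ V, Lp p 𝒰 V ∧ S ⊆ V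

theorem good_lim {p : Ultrafilter ℕ} (hp : (p : Filter ℕ) ≤ cofinite) {𝒰 : Set (Set Y)}
    (T : ℕ → Set Y) (hT : ∀ k, Good p 𝒰 (T k)) (S : Set Y)
    (hS : ∀ x ∈ S, ∃ m, ∀ k, m ≤ k → x ∈ T k) : Good p 𝒰 S := by
  choose V hV hTV using hT
  refine ⟨_, Lp.lim V hV, ?_⟩
  intro x hx
  obtain ⟨m, hm⟩ := hS x hx
  have h1 : {k : ℕ | m ≤ k} ∈ (p : Filter ℕ) := by
    apply hp
    rw [Filter.mem_cofinite]
    exact (Set.finite_lt_nat m).subset (fun k hk => by simpa using hk)
  exact Filter.mem_of_superset h1 (fun k hk => hTV k (hm k hk))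

theorem B_congr {D : Finset ℕ} {f g : ℕ → ℕ} (h : ∀ a ∈ D, f a = g a) : B D f = B D g := by
  ext x
  constructor
  · intro hx a ha
    exact ⟨(hx a ha).1, (h a ha) ▸ (hx a ha).2⟩
  · intro hx a ha
    exact ⟨(hx a ha).1, (h a ha).symm ▸ (hx a ha).2⟩

theorem delta (p : Ultrafilter ℕ) (hp : (p : Filter ℕ) ≤ cofinite) : Delta p Y := by
  classical
  intro 𝒰 h𝒰
  by_contra hbad
  have hng : ¬ Good p 𝒰 Set.univ := by
    rintro ⟨V, hV, hVu⟩
    rw [Set.univ_subset_iff.1 hVu] at hV
    exact hbad hV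
  -- eventually few good one point sets
  obtain ⟨N, hN⟩ : ∃ N, ∀ n, N ≤ n → ∀ f : ℕ → ℕ,
      {b | Good p 𝒰 (B {n} (Function.update f n b))}.Finite := by
    by_contra hcon
    push Not at hcon
    apply hng
    choose n hn f hf using hcon
    have h1 : ∀ k, Good p 𝒰 {x : Y | x.1 ≤ n k} := by
      intro k
      have h2 : ∀ j, ∃ b, j < b ∧ Good p 𝒰 (B {n k} (Function.update (f k) (n k) b)) := by
        intro j
        obtain ⟨b, hb, hjb⟩ := (hf k).exists_gt j
        exact ⟨b, hjb, hb⟩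
      choose b hb hgood using h2
      refine good_lim hp _ hgood _ ?_
      intro x hx
      refine ⟨x.2 (n k), fun j hj a ha => ?_⟩
      rw [Finset.mem_singleton.1 ha, Function.update_self]
      exact ⟨hx, hj.trans (hb j).le⟩
    refine good_lim hp _ h1 _ ?_
    intro x _
    exact ⟨x.1, fun k hk => le_trans hk (hn k)⟩
  -- one step
  have step : ∀ n, N ≤ n → ∀ f : ℕ → ℕ, (∀ D : Finset ℕ, D ⊆ Finset.Ico N n → ¬ Good p 𝒰 (B D f)) →
      ∃ b, ∀ D : Finset ℕ, D ⊆ Finset.Ico N (n + 1) → ¬ Good p 𝒰 (B D (Function.update f n b)) := by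
    intro n hn f hf
    have hfin : ∀ D ∈ (Finset.Ico N n).powerset,
        {b | Good p 𝒰 (B (insert n D) (Function.update f n b))}.Finite := by
      intro D hD
      rw [Finset.mem_powerset] at hD
      by_cases hD0 : D = ∅
      · subst hD0
        exact hN n hn f
      · by_contra hinf
        have hinf' : {b | Good p 𝒰 (B (insert n D) (Function.update f n b))}.Infinite := hinf
        apply hf D hD
        have h2 : ∀ j, ∃ b, j < b ∧ Good p 𝒰 (B (insert n D) (Function.update f n b)) := by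
          intro j
          obtain ⟨b, hb, hjb⟩ := hinf'.exists_gt j
          exact ⟨b, hjb, hb⟩
        choose b hb hgood using h2
        refine good_lim hp _ hgood _ ?_
        intro x hx
        obtain ⟨d, hd⟩ := Finset.nonempty_iff_ne_empty.2 hD0
        refine ⟨x.2 n, fun j hj a ha => ?_⟩
        rcases Finset.mem_insert.1 ha with rfl | ha
        · rw [Function.update_self]
          have h3 := (Finset.mem_Ico.1 (hD hd)).2
          exact ⟨(hx d hd).1.trans h3.le, hj.trans (hb j).le⟩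
        · have h3 := (Finset.mem_Ico.1 (hD ha)).2
          rw [Function.update_of_ne h3.ne]
          exact hx a ha
    have hfin2 : (⋃ D ∈ (Finset.Ico N n).powerset,
        {b | Good p 𝒰 (B (insert n D) (Function.update f n b))}).Finite :=
      Set.Finite.biUnion (Finset.finite_toSet _) hfin
    obtain ⟨b, hb⟩ := hfin2.exists_notMem
    refine ⟨b, fun D hD hg => ?_⟩
    by_cases hnD : n ∈ D
    · apply hb
      simp only [Set.mem_iUnion]
      refine ⟨D.erase n, ?_, ?_⟩
      · rw [Finset.mem_powerset]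
        intro a ha
        rw [Finset.mem_erase] at ha
        have := Finset.mem_Ico.1 (hD ha.2)
        rw [Finset.mem_Ico]
        have := ha.1
        omega
      · rw [Set.mem_setOf_eq, Finset.insert_erase hnD]
        exact hg
    · have hsub : D ⊆ Finset.Ico N n := by
        intro a ha
        have := Finset.mem_Ico.1 (hD ha)
        have : a ≠ n := fun e => hnD (e ▸ ha)
        rw [Finset.mem_Ico]
        omega
      apply hf D hsub
      rw [B_congr (g := Function.update f n b)]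
      · exact hg
      · intro a ha
        have := (Finset.mem_Ico.1 (hsub ha)).2
        rw [Function.update_of_ne this.ne]
  -- recursion
  let P : ℕ → Type := fun k => {f : ℕ → ℕ // ∀ D : Finset ℕ, D ⊆ Finset.Ico N (N + k) →
    ¬ Good p 𝒰 (B D f)}
  have base : ∀ D : Finset ℕ, D ⊆ Finset.Ico N (N + 0) → ¬ Good p 𝒰 (B D (fun _ => 0)) := by
    intro D hD hg
    have : D = ∅ := by simpa using hD
    subst this
    apply hng
    obtain ⟨V, hV, hVs⟩ := hg
    exact ⟨V, hV, fun x _ => hVs (fun a ha => absurd ha (Finset.notMem_empty a))⟩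
  let F : ∀ k, P k := fun k => Nat.rec (motive := P) ⟨fun _ => 0, base⟩
    (fun k fk => ⟨Function.update fk.1 (N + k) (Classical.choose (step (N + k) (Nat.le_add_right N k) fk.1 fk.2)),
      Classical.choose_spec (step (N + k) (Nat.le_add_right N k) fk.1 fk.2)⟩) k
  have hF : ∀ k, ∃ b, (F (k + 1)).1 = Function.update (F k).1 (N + k) b := fun k => ⟨_, rfl⟩
  have hstab : ∀ k j a, a < N + k → k ≤ j → (F j).1 a = (F k).1 a := by
    intro k j a ha hkj
    induction j, hkj using Nat.le_induction with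
    | base => rfl
    | succ j hj ih =>
      obtain ⟨b, hb⟩ := hF j
      rw [hb, Function.update_of_ne (by omega), ih]
  let g : ℕ → ℕ := fun a => (F (a + 1)).1 a
  obtain ⟨U, hU, hxU⟩ := h𝒰.2.2 {((N, g) : Y)}
  have hx : ((N, g) : Y) ∈ U := hxU (Finset.mem_coe.2 (Finset.mem_singleton_self _))
  obtain ⟨D, hD, hDU⟩ := nb U (h𝒰.1 U hU) _ hx
  obtain ⟨M, hM⟩ : ∃ M, ∀ a ∈ D, a < M := ⟨D.sup id + 1, fun a ha =>
    Nat.lt_succ_of_le (Finset.le_sup (f := id) ha)⟩
  apply (F M).2 D
  · intro a ha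
    rw [Finset.mem_Ico]
    exact ⟨hD a ha, (hM a ha).trans_le (Nat.le_add_left _ _)⟩
  · refine ⟨U, Lp.base U hU, ?_⟩
    rw [B_congr (g := g)]
    · exact hDU
    · intro a ha
      exact hstab (a + 1) M a (by omega) (hM a ha)

theorem not_gamma (q : Ultrafilter ℕ) (hq : PPoint q) : ¬ Gamma q Y := by
  classical
  intro h
  have hom : OmegaCover Y {S | ∃ a b, S = UU a b} := by
    refine ⟨?_, ?_, ?_⟩
    · rintro _ ⟨a, b, rfl⟩
      exact TopologicalSpace.isOpen_generateFrom_of_mem ⟨a, b, rfl⟩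
    · rintro ⟨a, b, hab⟩
      have : ((a + 1, fun _ => 0) : Y) ∈ UU a b := hab ▸ Set.mem_univ _
      have h1 : a + 1 ≤ a := this.1
      omega
    · intro F
      refine ⟨UU (F.sup (fun x => x.1)) (F.sup (fun x => x.2 (F.sup (fun x => x.1)))), ⟨_, _, rfl⟩, ?_⟩
      intro x hxF
      exact ⟨Finset.le_sup (f := fun x : Y => x.1) hxF,
        Finset.le_sup (f := fun x : Y => x.2 (F.sup (fun x => x.1))) hxF⟩
  obtain ⟨U, hU, hx⟩ := h {S | ∃ a b, S = UU a b} hom
  · choose a b hab using hU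
    obtain ⟨A, hA, hc | hf⟩ := hq a
    · obtain ⟨c, hc⟩ := hc
      have h1 := hx ((c + 1, fun _ => 0) : Y)
      obtain ⟨n, hn1, hn2⟩ := Filter.nonempty_of_mem (Filter.inter_mem hA h1)
      rw [Set.mem_setOf_eq, hab n] at hn2
      have h3 : c + 1 ≤ a n := hn2.1
      rw [hc n hn1] at h3
      omega
    · have h1 := hx ((0, fun c => (hf c).toFinset.sup b + 1) : Y)
      obtain ⟨n, hn1, hn2⟩ := Filter.nonempty_of_mem (Filter.inter_mem hA h1)
      rw [Set.mem_setOf_eq, hab n] at hn2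
      have h3 : (hf (a n)).toFinset.sup b + 1 ≤ b n := hn2.2
      have h4 : b n ≤ (hf (a n)).toFinset.sup b := by
        apply Finset.le_sup
        rw [Set.Finite.mem_toFinset]
        exact ⟨hn1, rfl⟩
      omega

end Pool.Agent.H26.DG
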