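import Mathlib

set_option autoImplicit false
set_option linter.unusedSectionVars false

namespace Pool.Agent.H26.EPR

variable {V : Type*} [Fintype V] [DecidableEq V] (G : SimpleGraph V) [DecidableRel G.Adj]

def a (x y : V) : ℚ := if G.Adj x y then 1 else 0
def b (x y : V) : ℚ := if x ≠ y ∧ ¬ G.Adj x y then 1 else 0
def dg (x : V) : ℚ := ∑ v, a G x v
def cd (x y : V) : ℚ := ∑ v, a G x v * a G v y
def chi (x u v y z : V) : ℚ :=
  a G x u * a G x v * (a G y u * a G y v) * (a G z u * a G z v) * (b G x y * b G x z * b G y z)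
def NN (x u v : V) : ℚ := ∑ y, ∑ z, chi G x u v y z
def ID (r v : V) : ℚ := if r = v then 1 else 0

lemma a_symm (x y : V) : a G x y = a G y x := by
  unfold a; simp only [G.adj_comm]

lemma b_symm (x y : V) : b G x y = b G y x := by
  unfold b; simp only [G.adj_comm, ne_comm]

lemma a_zo (x y : V) : a G x y = 0 ∨ a G x y = 1 := by
  unfold a; split_ifs <;> simp

lemma b_zo (x y : V) : b G x y = 0 ∨ b G x y = 1 := by
  unfold b; split_ifs <;> simp

lemma a_eq_one {x y : V} : a G x y = 1 ↔ G.Adj x y := by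
  unfold a; split_ifs <;> simp_all

lemma a_eq_zero {x y : V} : a G x y = 0 ↔ ¬ G.Adj x y := by
  unfold a; split_ifs <;> simp_all

lemma b_eq_one {x y : V} : b G x y = 1 ↔ x ≠ y ∧ ¬ G.Adj x y := by
  unfold b; split_ifs <;> simp_all

lemma a_nonneg (x y : V) : 0 ≤ a G x y := by
  rcases a_zo G x y with h | h <;> rw [h] <;> norm_num

lemma a_le (x y : V) : a G x y ≤ 1 := by
  rcases a_zo G x y with h | h <;> rw [h] <;> norm_num

lemma b_nonneg (x y : V) : 0 ≤ b G x y := by
  rcases b_zo G x y with h | h <;> rw [h] <;> norm_num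

lemma b_le (x y : V) : b G x y ≤ 1 := by
  rcases b_zo G x y with h | h <;> rw [h] <;> norm_num

lemma chi_symm (x u v y z : V) : chi G x u v y z = chi G x u v z y := by
  unfold chi; rw [b_symm G y z]; ring

lemma chi_nonneg (x u v y z : V) : 0 ≤ chi G x u v y z := by
  unfold chi
  have := a_nonneg G
  have := b_nonneg G
  have h1 := mul_nonneg (a_nonneg G x u) (a_nonneg G x v)
  have h2 := mul_nonneg (a_nonneg G y u) (a_nonneg G y v)
  have h3 := mul_nonneg (a_nonneg G z u) (a_nonneg G z v)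
  have h4 := mul_nonneg (mul_nonneg (b_nonneg G x y) (b_nonneg G x z)) (b_nonneg G y z)
  exact mul_nonneg (mul_nonneg (mul_nonneg h1 h2) h3) h4

lemma chi_le (x u v y z : V) : chi G x u v y z ≤ 1 := by
  unfold chi
  rcases a_zo G x u with h | h <;> rcases a_zo G x v with h' | h' <;>
  rcases a_zo G y u with h1 | h1 <;> rcases a_zo G y v with h1' | h1' <;>
  rcases a_zo G z u with h2 | h2 <;> rcases a_zo G z v with h2' | h2' <;>
  simp only [h, h', h1, h1', h2, h2', zero_mul, mul_zero, one_mul, zero_le_one]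
  rcases b_zo G x y with h | h <;> rcases b_zo G x z with h' | h' <;>
  rcases b_zo G y z with h1 | h1 <;> simp [h, h', h1]

lemma sum_ID (v : V) : ∑ r, ID r v = 1 := by
  unfold ID; simp

lemma sum_ID' (r : V) : ∑ v, ID r v = 1 := by
  unfold ID; simp

lemma sum_ID_mul (r : V) (f : V → ℚ) : ∑ v, f v * ID r v = f r := by
  unfold ID; simp

lemma ID_nonneg (r v : V) : 0 ≤ ID r v := by
  unfold ID; split_ifs <;> norm_num

section flow

variable (D : V → V → ℚ)

def KK (x u v : V) : ℚ := a G x u * a G x v * (D x v / dg G x / NN G x u v)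

def A1 (p r q : V) : ℚ := ∑ u, ∑ v, KK G D p u v * (∑ z, chi G p u v q z) * (ID r v - ID r u)

def A2 (p r q : V) : ℚ := ∑ x, ∑ u, ∑ v, KK G D x u v * chi G x u v p q * (ID r v - ID r u)

def del (p r q : V) : ℚ := A1 G D p r q + A1 G D q r p - A2 G D p r q

lemma A2_symm (p r q : V) : A2 G D p r q = A2 G D q r p := by
  unfold A2
  simp only [chi_symm G _ _ _ p q]

lemma del_symm (p r q : V) : del G D p r q = del G D q r p := by
  unfold del
  rw [A2_symm]; ring

lemma chi_ID (x u v y z r : V) : chi G x u v y z * (ID r v - ID r u) =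
    (a G x r * a G y r * a G z r * b G x y * b G y z) * (chi G x u v y z * (ID r v - ID r u)) := by
  unfold ID
  by_cases h1 : r = v
  · by_cases h2 : r = u
    · rw [if_pos h1, if_pos h2]; ring
    · rw [if_pos h1, if_neg h2, ← h1]
      unfold chi
      rcases a_zo G x r with h | h <;> rcases a_zo G y r with h' | h' <;>
      rcases a_zo G z r with h3 | h3 <;> rcases b_zo G x y with h4 | h4 <;>
      rcases b_zo G y z with h5 | h5 <;> rw [h, h', h3, h4, h5] <;> ring
  · by_cases h2 : r = u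
    · rw [if_neg h1, if_pos h2, ← h2]
      unfold chi
      rcases a_zo G x r with h | h <;> rcases a_zo G y r with h' | h' <;>
      rcases a_zo G z r with h3 | h3 <;> rcases b_zo G x y with h4 | h4 <;>
      rcases b_zo G y z with h5 | h5 <;> rw [h, h', h3, h4, h5] <;> ring
    · rw [if_neg h1, if_neg h2]; ring

lemma A1_supp (p r q : V) (h : ¬ (G.Adj p r ∧ G.Adj q r ∧ b G p q = 1)) : A1 G D p r q = 0 := by
  unfold A1
  apply Finset.sum_eq_zero
  intro u _
  apply Finset.sum_eq_zero
  intro v _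
  rw [mul_assoc, Finset.sum_mul, Finset.mul_sum]
  apply Finset.sum_eq_zero
  intro z _
  rw [chi_ID]
  have : a G p r * a G q r * b G p q = 0 := by
    by_contra hne
    apply h
    refine ⟨?_, ?_, ?_⟩
    · by_contra h1
      rw [(a_eq_zero G).2 h1] at hne
      simp at hne
    · by_contra h1
      rw [(a_eq_zero G).2 h1] at hne
      simp at hne
    · rcases b_zo G p q with h1 | h1
      · rw [h1] at hne; simp at hne
      · exact h1
  have e : a G p r * a G q r * a G z r * b G p q * b G q z = 0 := by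
    have : a G p r * a G q r * a G z r * b G p q * b G q z =
      (a G p r * a G q r * b G p q) * (a G z r * b G q z) := by ring
    rw [this, ‹a G p r * a G q r * b G p q = 0›, zero_mul]
  rw [e, zero_mul, mul_zero]

lemma A2_supp (p r q : V) (h : ¬ (G.Adj p r ∧ G.Adj q r ∧ b G p q = 1)) : A2 G D p r q = 0 := by
  unfold A2
  apply Finset.sum_eq_zero
  intro x _
  apply Finset.sum_eq_zero
  intro u _
  apply Finset.sum_eq_zero
  intro v _
  rw [mul_assoc, chi_ID]
  have : a G p r * a G q r * b G p q = 0 := by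
    by_contra hne
    apply h
    refine ⟨?_, ?_, ?_⟩
    · by_contra h1
      rw [(a_eq_zero G).2 h1] at hne
      simp at hne
    · by_contra h1
      rw [(a_eq_zero G).2 h1] at hne
      simp at hne
    · rcases b_zo G p q with h1 | h1
      · rw [h1] at hne; simp at hne
      · exact h1
  have e : a G x r * a G p r * a G q r * b G x p * b G p q = 0 := by
    have : a G x r * a G p r * a G q r * b G x p * b G p q =
      (a G p r * a G q r * b G p q) * (a G x r * b G x p) := by ring
    rw [this, ‹a G p r * a G q r * b G p q = 0›, zero_mul]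
  rw [e, zero_mul, mul_zero]

lemma del_supp (p r q : V) (h : ¬ (G.Adj p r ∧ G.Adj q r ∧ b G p q = 1)) : del G D p r q = 0 := by
  unfold del
  rw [A1_supp G D p r q h, A2_supp G D p r q h, A1_supp G D q r p]
  · ring
  · rintro ⟨h1, h2, h3⟩
    exact h ⟨h2, h1, by rw [b_symm]; exact h3⟩

lemma A1_sum (p q : V) : ∑ r, A1 G D p r q = 0 := by
  unfold A1
  rw [Finset.sum_comm]
  apply Finset.sum_eq_zero
  intro u _
  rw [Finset.sum_comm]
  apply Finset.sum_eq_zero
  intro v _
  rw [← Finset.mul_sum, Finset.sum_sub_distrib, sum_ID, sum_ID]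
  ring

lemma A2_sum (p q : V) : ∑ r, A2 G D p r q = 0 := by
  unfold A2
  rw [Finset.sum_comm]
  apply Finset.sum_eq_zero
  intro x _
  rw [Finset.sum_comm]
  apply Finset.sum_eq_zero
  intro u _
  rw [Finset.sum_comm]
  apply Finset.sum_eq_zero
  intro v _
  rw [← Finset.mul_sum, Finset.sum_sub_distrib, sum_ID, sum_ID]
  ring

lemma del_sum (p q : V) : ∑ r, del G D p r q = 0 := by
  unfold del
  rw [Finset.sum_sub_distrib, Finset.sum_add_distrib, A1_sum, A1_sum, A2_sum]
  ring

lemma H_aux (p r : V) : ∑ q, A1 G D q r p = ∑ q, A2 G D p r q := by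
  unfold A1 A2
  rw [Finset.sum_comm (s := Finset.univ) (t := Finset.univ)
    (f := fun q x => ∑ u, ∑ v, KK G D x u v * chi G x u v p q * (ID r v - ID r u))]
  apply Finset.sum_congr rfl
  intro x _
  rw [Finset.sum_comm (s := Finset.univ) (t := Finset.univ)
    (f := fun q u => ∑ v, KK G D x u v * chi G x u v p q * (ID r v - ID r u))]
  apply Finset.sum_congr rfl
  intro u _
  rw [Finset.sum_comm (s := Finset.univ) (t := Finset.univ)
    (f := fun q v => KK G D x u v * chi G x u v p q * (ID r v - ID r u))]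
  apply Finset.sum_congr rfl
  intro v _
  rw [Finset.mul_sum, Finset.sum_mul]

lemma H_main (p r : V) (hD0 : ∀ x v, ¬ G.Adj x v → D x v = 0) (hDs : ∀ x, ∑ v, D x v = 0)
    (hd : 0 < dg G p) (hN : ∀ u v, u ≠ v → G.Adj p u → G.Adj p v → 0 < NN G p u v) :
    ∑ q, A1 G D p r q = D p r := by
  have hd' := hd.ne'
  have h1 : ∑ q, A1 G D p r q =
      ∑ u, ∑ v, a G p u * (D p v / dg G p) * (ID r v - ID r u) := by
    unfold A1
    rw [Finset.sum_comm]
    apply Finset.sum_congr rfl
    intro u _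
    rw [Finset.sum_comm]
    apply Finset.sum_congr rfl
    intro v _
    rw [← Finset.sum_mul, ← Finset.mul_sum]
    have e : ∑ q, ∑ z, chi G p u v q z = NN G p u v := rfl
    rw [e]
    by_cases huv : u = v
    · rw [huv]; ring
    unfold KK
    rcases a_zo G p u with h | h
    · rw [h]; ring
    rcases a_zo G p v with h' | h'
    · rw [hD0 p v ((a_eq_zero G).1 h')]; ring
    · have := (hN u v huv ((a_eq_one G).1 h) ((a_eq_one G).1 h')).ne'
      rw [h, h']
      field_simp
  have h2 : ∀ u, ∑ v, a G p u * (D p v / dg G p) * (ID r v - ID r u) =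
      a G p u * (D p r / dg G p) := by
    intro u
    have e : ∀ v, a G p u * (D p v / dg G p) * (ID r v - ID r u) =
      (a G p u * (D p v / dg G p)) * ID r v - (a G p u * ID r u / dg G p) * D p v := by
      intro v; ring
    simp only [e]
    rw [Finset.sum_sub_distrib, sum_ID_mul r (fun v => a G p u * (D p v / dg G p)),
      ← Finset.mul_sum, hDs]
    ring
  rw [h1]
  simp only [h2]
  rw [← Finset.sum_mul]
  change dg G p * (D p r / dg G p) = D p r
  field_simp

lemma del_H (p r : V) (hD0 : ∀ x v, ¬ G.Adj x v → D x v = 0) (hDs : ∀ x, ∑ v, D x v = 0)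
    (hd : 0 < dg G p) (hN : ∀ u v, u ≠ v → G.Adj p u → G.Adj p v → 0 < NN G p u v) :
    ∑ q, del G D p r q = D p r := by
  unfold del
  rw [Finset.sum_sub_distrib, Finset.sum_add_distrib, H_aux, H_main G D p r hD0 hDs hd hN]
  ring

lemma KK_bd (κ : ℚ) (hκ : ∀ x u v, u ≠ v → |KK G D x u v| ≤ κ) (hκ0 : 0 ≤ κ) (x u v r : V) :
    |KK G D x u v * (ID r v - ID r u)| ≤ κ * (ID r v + ID r u) := by
  by_cases huv : u = v
  · rw [huv, sub_self, mul_zero, abs_zero]
    exact mul_nonneg hκ0 (add_nonneg (ID_nonneg _ _) (ID_nonneg _ _))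
  rw [abs_mul]
  have h1 : |ID r v - ID r u| ≤ ID r v + ID r u := by
    have := ID_nonneg r v
    have := ID_nonneg r u
    rw [abs_le]; constructor <;> linarith
  exact mul_le_mul (hκ x u v huv) h1 (abs_nonneg _) hκ0

lemma sum_ID_sum (r : V) (c : ℚ) : ∑ u : V, ∑ v : V, c * (ID r v + ID r u) =
    c * (2 * (Fintype.card V : ℚ)) := by
  have : ∀ u : V, ∑ v : V, c * (ID r v + ID r u) = c + c * (Fintype.card V : ℚ) * ID r u := by
    intro u
    rw [← Finset.mul_sum, Finset.sum_add_distrib, sum_ID', Finset.sum_const, Finset.card_univ,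
      nsmul_eq_mul]
    ring
  simp only [this]
  rw [Finset.sum_add_distrib, ← Finset.mul_sum, sum_ID', Finset.sum_const, Finset.card_univ,
    nsmul_eq_mul]
  ring

lemma A1_bd (κ : ℚ) (hκ : ∀ x u v, u ≠ v → |KK G D x u v| ≤ κ) (hκ0 : 0 ≤ κ) (p r q : V) :
    |A1 G D p r q| ≤ κ * (2 * (Fintype.card V : ℚ) ^ 2) := by
  have hterm : ∀ u v, |KK G D p u v * (∑ z, chi G p u v q z) * (ID r v - ID r u)| ≤
      (κ * (Fintype.card V : ℚ)) * (ID r v + ID r u) := by
    intro u v
    have e : KK G D p u v * (∑ z, chi G p u v q z) * (ID r v - ID r u) =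
      (∑ z, chi G p u v q z) * (KK G D p u v * (ID r v - ID r u)) := by ring
    have h0 : 0 ≤ ∑ z, chi G p u v q z := Finset.sum_nonneg (fun z _ => chi_nonneg G _ _ _ _ _)
    have h1 : ∑ z, chi G p u v q z ≤ (Fintype.card V : ℚ) := by
      calc ∑ z, chi G p u v q z ≤ ∑ _z : V, (1 : ℚ) :=
            Finset.sum_le_sum (fun z _ => chi_le G _ _ _ _ _)
        _ = _ := by simp
    rw [e, abs_mul, abs_of_nonneg h0]
    calc (∑ z, chi G p u v q z) * |KK G D p u v * (ID r v - ID r u)|
        ≤ (Fintype.card V : ℚ) * (κ * (ID r v + ID r u)) :=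
          mul_le_mul h1 (KK_bd G D κ hκ hκ0 p u v r) (abs_nonneg _) (by positivity)
      _ = _ := by ring
  unfold A1
  calc |∑ u, ∑ v, KK G D p u v * (∑ z, chi G p u v q z) * (ID r v - ID r u)|
      ≤ ∑ u, ∑ v, |KK G D p u v * (∑ z, chi G p u v q z) * (ID r v - ID r u)| := by
        refine (Finset.abs_sum_le_sum_abs _ _).trans (Finset.sum_le_sum (fun u _ => ?_))
        exact Finset.abs_sum_le_sum_abs _ _
    _ ≤ ∑ u : V, ∑ v : V, (κ * (Fintype.card V : ℚ)) * (ID r v + ID r u) :=
        Finset.sum_le_sum (fun u _ => Finset.sum_le_sum (fun v _ => hterm u v))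
    _ = _ := by rw [sum_ID_sum]; ring

lemma A2_bd (κ : ℚ) (hκ : ∀ x u v, u ≠ v → |KK G D x u v| ≤ κ) (hκ0 : 0 ≤ κ) (p r q : V) :
    |A2 G D p r q| ≤ κ * (2 * (Fintype.card V : ℚ) ^ 2) := by
  have hterm : ∀ x u v, |KK G D x u v * chi G x u v p q * (ID r v - ID r u)| ≤
      κ * (ID r v + ID r u) := by
    intro x u v
    have e : KK G D x u v * chi G x u v p q * (ID r v - ID r u) =
      chi G x u v p q * (KK G D x u v * (ID r v - ID r u)) := by ring
    rw [e, abs_mul, abs_of_nonneg (chi_nonneg G _ _ _ _ _)]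
    calc chi G x u v p q * |KK G D x u v * (ID r v - ID r u)|
        ≤ 1 * (κ * (ID r v + ID r u)) :=
          mul_le_mul (chi_le G _ _ _ _ _) (KK_bd G D κ hκ hκ0 x u v r) (abs_nonneg _) zero_le_one
      _ = _ := by ring
  unfold A2
  calc |∑ x, ∑ u, ∑ v, KK G D x u v * chi G x u v p q * (ID r v - ID r u)|
      ≤ ∑ x, ∑ u, ∑ v, |KK G D x u v * chi G x u v p q * (ID r v - ID r u)| := by
        refine (Finset.abs_sum_le_sum_abs _ _).trans (Finset.sum_le_sum (fun x _ => ?_))
        refine (Finset.abs_sum_le_sum_abs _ _).trans (Finset.sum_le_sum (fun u _ => ?_))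
        exact Finset.abs_sum_le_sum_abs _ _
    _ ≤ ∑ x : V, ∑ u : V, ∑ v : V, κ * (ID r v + ID r u) :=
        Finset.sum_le_sum (fun x _ => Finset.sum_le_sum (fun u _ =>
          Finset.sum_le_sum (fun v _ => hterm x u v)))
    _ = _ := by
        simp only [sum_ID_sum]
        rw [Finset.sum_const, Finset.card_univ, nsmul_eq_mul]; ring

lemma del_bd (M d0 N0 : ℚ) (hM0 : 0 ≤ M) (hd0 : 0 < d0) (hN0 : 0 < N0)
    (hM : ∀ x v, |D x v| ≤ M) (hd : ∀ x, d0 ≤ dg G x)
    (hN : ∀ x u v, u ≠ v → G.Adj x u → G.Adj x v → N0 ≤ NN G x u v) (p r q : V) :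
    |del G D p r q| ≤ 6 * (Fintype.card V : ℚ) ^ 2 * (M / d0 / N0) := by
  have hκ0 : 0 ≤ M / d0 / N0 := by positivity
  have hκ : ∀ x u v, u ≠ v → |KK G D x u v| ≤ M / d0 / N0 := by
    intro x u v huv
    unfold KK
    rcases a_zo G x u with h | h
    · rw [h]; simpa using hκ0
    rcases a_zo G x v with h' | h'
    · rw [h']; simpa using hκ0
    have h3 := hN x u v huv ((a_eq_one G).1 h) ((a_eq_one G).1 h')
    have h4 := hd x
    rw [h, h', one_mul, one_mul, abs_div, abs_div, abs_of_pos (lt_of_lt_of_le hd0 h4),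
      abs_of_pos (lt_of_lt_of_le hN0 h3)]
    have h5 : |D x v| / dg G x ≤ M / d0 := div_le_div₀ hM0 (hM x v) hd0 h4
    exact div_le_div₀ (by positivity) h5 hN0 h3
  unfold del
  have h1 := A1_bd G D _ hκ hκ0 p r q
  have h2 := A1_bd G D _ hκ hκ0 q r p
  have h3 := A2_bd G D _ hκ hκ0 p r q
  calc |A1 G D p r q + A1 G D q r p - A2 G D p r q|
      ≤ |A1 G D p r q| + |A1 G D q r p| + |A2 G D p r q| := by
        refine (abs_sub _ _).trans ?_
        gcongr
        exact abs_add_le _ _
    _ ≤ _ := by linarith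

end flow

end Pool.Agent.H26.EPR
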