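import Pool.Agent.H26.EPR1

set_option autoImplicit false
set_option linter.unusedSectionVars false

namespace Pool.Agent.H26.EPR

variable {V : Type*} [Fintype V] [DecidableEq V] (G : SimpleGraph V) [DecidableRel G.Adj]

def ell (u v : V) : ℚ := a G u v * ∑ y, a G v y * b G u y / cd G u y
def lbar : ℚ := (∑ u, ∑ v, ell G u v) / ∑ u, dg G u
def FF (u v : V) : ℚ := a G u v * (2 * lbar G) - ell G u v - ell G v u
def ss (x : V) : ℚ := (∑ v, FF G x v) / 2
def qq (x y v : V) : ℚ := if x = y then 0 else a G x v * a G v y / cd G x y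
def GF (x v : V) : ℚ := (∑ y, (ss G y - ss G x) * qq G x y v) / (Fintype.card V : ℚ)
def DD (x v : V) : ℚ := FF G x v / 2 + GF G x v - GF G v x

lemma cd_symm (x y : V) : cd G x y = cd G y x := by
  unfold cd
  apply Finset.sum_congr rfl
  intro v _
  rw [a_symm G x v, a_symm G v y]; ring

lemma FF_symm (x y : V) : FF G x y = FF G y x := by
  unfold FF
  rw [a_symm G x y]; ring

lemma qq_symm (x y v : V) : qq G x y v = qq G y x v := by
  unfold qq
  by_cases h : x = y
  · rw [if_pos h, if_pos h.symm]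
  · rw [if_neg h, if_neg (Ne.symm h), cd_symm G x y, a_symm G x v, a_symm G v y]
    ring

lemma DD_add (x v : V) : DD G x v + DD G v x = FF G x v := by
  unfold DD
  rw [FF_symm G v x]; ring

lemma qq_zero_left (x y v : V) (h : ¬ G.Adj x v) : qq G x y v = 0 := by
  unfold qq
  split_ifs
  · rfl
  · rw [(a_eq_zero G).2 h]; ring

lemma DD_zero (x v : V) (h : ¬ G.Adj x v) : DD G x v = 0 := by
  have h' : ¬ G.Adj v x := fun h2 => h h2.symm
  have h0 : a G x v = 0 := (a_eq_zero G).2 h
  have h1 : a G v x = 0 := (a_eq_zero G).2 h'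
  unfold DD GF FF ell
  rw [h0, h1]
  have e1 : ∀ y, (ss G y - ss G x) * qq G x y v = 0 := fun y => by
    rw [qq_zero_left G x y v h]; ring
  have e2 : ∀ y, (ss G y - ss G v) * qq G v y x = 0 := fun y => by
    rw [qq_zero_left G v y x h']; ring
  simp only [e1, e2, Finset.sum_const_zero]
  ring

lemma sum_ss (hE : (∑ u, dg G u) ≠ 0) : ∑ x, ss G x = 0 := by
  have h1 : ∑ x, ∑ v, FF G x v = 0 := by
    unfold FF
    simp only [Finset.sum_sub_distrib]
    have e1 : ∑ x, ∑ v, a G x v * (2 * lbar G) = (∑ u, dg G u) * (2 * lbar G) := by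
      rw [Finset.sum_mul]
      apply Finset.sum_congr rfl
      intro x _
      unfold dg
      rw [Finset.sum_mul]
    have e2 : ∑ x, ∑ v, ell G v x = ∑ x, ∑ v, ell G x v := Finset.sum_comm
    rw [e1, e2]
    unfold lbar
    field_simp
    ring
  have : ∑ x, ss G x = (∑ x, ∑ v, FF G x v) / 2 := by
    unfold ss
    rw [Finset.sum_div]
  rw [this, h1]; simp

lemma DD_sum (hn : (Fintype.card V : ℚ) ≠ 0) (hE : (∑ u, dg G u) ≠ 0)
    (hc : ∀ x y, x ≠ y → cd G x y ≠ 0) (x : V) : ∑ v, DD G x v = 0 := by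
  have h1 : ∑ v, GF G x v = - ss G x := by
    unfold GF
    rw [← Finset.sum_div, Finset.sum_comm]
    have e : ∀ y, ∑ v, (ss G y - ss G x) * qq G x y v = ss G y - ss G x := by
      intro y
      rw [← Finset.mul_sum]
      by_cases h : x = y
      · rw [h]; ring
      · have : ∑ v, qq G x y v = 1 := by
          unfold qq
          simp only [h, if_false]
          rw [← Finset.sum_div]
          exact div_self (hc x y h)
        rw [this]; ring
    simp only [e]
    rw [Finset.sum_sub_distrib, sum_ss G hE, Finset.sum_const, Finset.card_univ, nsmul_eq_mul]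
    field_simp
    ring
  have h2 : ∑ v, GF G v x = 0 := by
    unfold GF
    rw [← Finset.sum_div]
    have : ∑ v, ∑ y, (ss G y - ss G v) * qq G v y x = 0 := by
      have e : ∑ v, ∑ y, (ss G y - ss G v) * qq G v y x =
          - ∑ v, ∑ y, (ss G y - ss G v) * qq G v y x := by
        conv_lhs => rw [Finset.sum_comm]
        rw [← Finset.sum_neg_distrib]
        apply Finset.sum_congr rfl
        intro v _
        rw [← Finset.sum_neg_distrib]
        apply Finset.sum_congr rfl
        intro y _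
        rw [qq_symm G y v x]
        ring
      linarith
    rw [this, zero_div]
  unfold DD
  rw [Finset.sum_sub_distrib, Finset.sum_add_distrib, h1, h2, ← Finset.sum_div]
  unfold ss
  ring

section bounds

variable (ε : ℚ) (hε0 : 0 < ε) (hε : ε ≤ 1 / 100)
  (hn : 0 < (Fintype.card V : ℚ))
  (hc : ∀ x y, x ≠ y → |cd G x y - (Fintype.card V : ℚ) / 4| ≤ ε * (Fintype.card V : ℚ))
  (hnb : ∀ u v, u ≠ v →
    |(∑ y, a G v y * b G u y) - (Fintype.card V : ℚ) / 4| ≤ ε * (Fintype.card V : ℚ))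
  (hd : ∀ x, (Fintype.card V : ℚ) / 4 ≤ dg G x)

include hε0 hε hn hc

lemma cd_low (x y : V) (h : x ≠ y) : (Fintype.card V : ℚ) / 8 ≤ cd G x y := by
  have := (abs_le.1 (hc x y h)).1
  nlinarith

include hnb

lemma ell_bd (u v : V) (h : G.Adj u v) : |ell G u v - 1| ≤ 9 * ε := by
  have hne : u ≠ v := h.ne
  have h1 := abs_le.1 (hnb u v hne)
  set N : ℚ := (Fintype.card V : ℚ) with hN
  have hlow : 0 < N / 4 - ε * N := by nlinarith
  have hup : 0 < N / 4 + ε * N := by positivity
  have hS0 : ∀ y, 0 ≤ a G v y * b G u y := fun y => mul_nonneg (a_nonneg G _ _) (b_nonneg G _ _)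
  have ht : ∀ y, a G v y * b G u y / (N / 4 + ε * N) ≤ a G v y * b G u y / cd G u y ∧
      a G v y * b G u y / cd G u y ≤ a G v y * b G u y / (N / 4 - ε * N) := by
    intro y
    rcases b_zo G u y with hb | hb
    · rw [hb]; simp
    · have huy := ((b_eq_one G).1 hb).1
      have h2 := abs_le.1 (hc u y huy)
      have h3 := cd_low G ε hε0 hε hn hc u y huy
      have h4 : 0 < cd G u y := lt_of_lt_of_le (by positivity) h3
      constructor
      · apply div_le_div_of_nonneg_left (hS0 y) h4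
        linarith [h2.2]
      · apply div_le_div_of_nonneg_left (hS0 y) hlow
        linarith [h2.1]
  have ha : a G u v = 1 := (a_eq_one G).2 h
  have hl : ell G u v = ∑ y, a G v y * b G u y / cd G u y := by
    unfold ell; rw [ha, one_mul]
  have hle : ell G u v ≤ (∑ y, a G v y * b G u y) / (N / 4 - ε * N) := by
    rw [hl, Finset.sum_div]
    exact Finset.sum_le_sum (fun y _ => (ht y).2)
  have hge : (∑ y, a G v y * b G u y) / (N / 4 + ε * N) ≤ ell G u v := by
    rw [hl, Finset.sum_div]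
    exact Finset.sum_le_sum (fun y _ => (ht y).1)
  rw [abs_le]
  constructor
  · have : 1 - 9 * ε ≤ (∑ y, a G v y * b G u y) / (N / 4 + ε * N) := by
      rw [le_div_iff₀ hup]
      nlinarith [h1.1, mul_pos hε0 hn, mul_pos hε0 (mul_pos hε0 hn)]
    linarith
  · have : (∑ y, a G v y * b G u y) / (N / 4 - ε * N) ≤ 1 + 9 * ε := by
      rw [div_le_iff₀ hlow]
      have h5 : ε * (ε * N) ≤ (1 / 100) * (ε * N) :=
        mul_le_mul_of_nonneg_right hε (mul_pos hε0 hn).le
      nlinarith [h1.2, mul_pos hε0 hn]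
    linarith

include hd

lemma sum_dg_pos : 0 < ∑ u, dg G u := by
  have h1 : ∑ _u : V, (Fintype.card V : ℚ) / 4 ≤ ∑ u, dg G u := Finset.sum_le_sum (fun u _ => hd u)
  rw [Finset.sum_const, Finset.card_univ, nsmul_eq_mul] at h1
  have : 0 < (Fintype.card V : ℚ) * ((Fintype.card V : ℚ) / 4) := by positivity
  linarith

lemma lbar_bd : |lbar G - 1| ≤ 9 * ε := by
  have hE := sum_dg_pos G ε hε0 hε hn hc hnb hd
  have h1 : ∀ u v, |ell G u v - a G u v| ≤ 9 * ε * a G u v := by
    intro u v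
    rcases a_zo G u v with h | h
    · unfold ell; rw [h]; simp
    · have := ell_bd G ε hε0 hε hn hc hnb u v ((a_eq_one G).1 h)
      rw [h, mul_one]; exact this
  have h2 : |(∑ u, ∑ v, ell G u v) - ∑ u, dg G u| ≤ 9 * ε * ∑ u, dg G u := by
    have e1 : (∑ u, ∑ v, ell G u v) - ∑ u, dg G u = ∑ u, ∑ v, (ell G u v - a G u v) := by
      simp only [Finset.sum_sub_distrib]
      rfl
    have e2 : 9 * ε * ∑ u, dg G u = ∑ u, ∑ v, 9 * ε * a G u v := by
      rw [Finset.mul_sum]
      apply Finset.sum_congr rfl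
      intro u _
      unfold dg
      rw [Finset.mul_sum]
    rw [e1, e2]
    refine (Finset.abs_sum_le_sum_abs _ _).trans (Finset.sum_le_sum (fun u _ => ?_))
    exact (Finset.abs_sum_le_sum_abs _ _).trans (Finset.sum_le_sum (fun v _ => h1 u v))
  have e3 : lbar G - 1 = ((∑ u, ∑ v, ell G u v) - ∑ u, dg G u) / ∑ u, dg G u := by
    unfold lbar
    have := hE.ne'
    field_simp
  rw [e3, abs_div, abs_of_pos hE, div_le_iff₀ hE]
  exact h2

lemma FF_bd (u v : V) : |FF G u v| ≤ 36 * ε := by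
  rcases a_zo G u v with h | h
  · have : FF G u v = 0 := by
      unfold FF ell
      rw [a_symm G v u, h]; ring
    rw [this, abs_zero]; positivity
  · have hA := (a_eq_one G).1 h
    have h1 := abs_le.1 (ell_bd G ε hε0 hε hn hc hnb u v hA)
    have h2 := abs_le.1 (ell_bd G ε hε0 hε hn hc hnb v u hA.symm)
    have h3 := abs_le.1 (lbar_bd G ε hε0 hε hn hc hnb hd)
    unfold FF
    rw [h, abs_le]
    constructor <;> linarith [h1.1, h1.2, h2.1, h2.2, h3.1, h3.2]

lemma ss_bd (x : V) : |ss G x| ≤ 18 * ε * (Fintype.card V : ℚ) := by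
  unfold ss
  rw [abs_div]
  have h1 : |∑ v, FF G x v| ≤ ∑ _v : V, 36 * ε :=
    (Finset.abs_sum_le_sum_abs _ _).trans
      (Finset.sum_le_sum (fun v _ => FF_bd G ε hε0 hε hn hc hnb hd x v))
  rw [Finset.sum_const, Finset.card_univ, nsmul_eq_mul] at h1
  rw [abs_of_pos (by norm_num : (0:ℚ) < 2), div_le_iff₀ (by norm_num)]
  linarith

lemma GF_bd (x v : V) : |GF G x v| ≤ 288 * ε := by
  unfold GF
  set N : ℚ := (Fintype.card V : ℚ) with hN
  rw [abs_div, abs_of_pos hn, div_le_iff₀ hn]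
  have h1 : ∀ y, |(ss G y - ss G x) * qq G x y v| ≤ 288 * ε := by
    intro y
    unfold qq
    split_ifs with hxy
    · simp; positivity
    have h2 := cd_low G ε hε0 hε hn hc x y hxy
    have h3 : 0 < cd G x y := lt_of_lt_of_le (by positivity) h2
    have h4 : |ss G y - ss G x| ≤ 36 * ε * N := by
      refine (abs_sub _ _).trans ?_
      have h5 := ss_bd G ε hε0 hε hn hc hnb hd x
      have h6 := ss_bd G ε hε0 hε hn hc hnb hd y
      linarith
    have h7 : |a G x v * a G v y / cd G x y| ≤ 8 / N := by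
      rw [abs_div, abs_of_pos h3, abs_of_nonneg (mul_nonneg (a_nonneg G _ _) (a_nonneg G _ _))]
      have h8 : a G x v * a G v y ≤ 1 := mul_le_one₀ (a_le G _ _) (a_nonneg G _ _) (a_le G _ _)
      calc a G x v * a G v y / cd G x y ≤ 1 / (N / 8) :=
            div_le_div₀ zero_le_one h8 (by positivity) h2
        _ = 8 / N := by field_simp
    rw [abs_mul]
    calc |ss G y - ss G x| * |a G x v * a G v y / cd G x y| ≤ (36 * ε * N) * (8 / N) :=
          mul_le_mul h4 h7 (abs_nonneg _) (by positivity)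
      _ = 288 * ε := by field_simp; ring
  refine (Finset.abs_sum_le_sum_abs _ _).trans ?_
  refine (Finset.sum_le_sum (fun y _ => h1 y)).trans ?_
  rw [Finset.sum_const, Finset.card_univ, nsmul_eq_mul]
  linarith

lemma DD_bd (x v : V) : |DD G x v| ≤ 600 * ε := by
  have h1 := abs_le.1 (FF_bd G ε hε0 hε hn hc hnb hd x v)
  have h2 := abs_le.1 (GF_bd G ε hε0 hε hn hc hnb hd x v)
  have h3 := abs_le.1 (GF_bd G ε hε0 hε hn hc hnb hd v x)
  unfold DD
  rw [abs_le]
  constructor <;> linarith [h1.1, h1.2, h2.1, h2.2, h3.1, h3.2]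

end bounds

theorem weights (hn : 0 < (Fintype.card V : ℚ))
    (hc : ∀ x y, x ≠ y → |cd G x y - (Fintype.card V : ℚ) / 4| ≤ (1 / 10 ^ 8) * (Fintype.card V : ℚ))
    (hnb : ∀ u v, u ≠ v →
      |(∑ y, a G v y * b G u y) - (Fintype.card V : ℚ) / 4| ≤ (1 / 10 ^ 8) * (Fintype.card V : ℚ))
    (hd : ∀ x, (Fintype.card V : ℚ) / 4 ≤ dg G x)
    (hN : ∀ x u v, u ≠ v → G.Adj x u → G.Adj x v → (Fintype.card V : ℚ) ^ 2 / 1024 ≤ NN G x u v) :
    ∃ w : V → V → V → ℚ, (∀ x v y, 0 ≤ w x v y) ∧ (∀ x v y, w x v y = w y v x) ∧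
      (∀ x v y, w x v y ≠ 0 → G.Adj x v ∧ G.Adj v y ∧ x ≠ y ∧ ¬ G.Adj x y) ∧
      (∀ x y, x ≠ y → ¬ G.Adj x y → ∑ v, w x v y = 1) ∧
      ∃ L : ℚ, ∀ u v, G.Adj u v → (∑ y, w u v y) + (∑ x, w v u x) = L := by
  set ε : ℚ := 1 / 10 ^ 8 with hεdef
  have hε0 : 0 < ε := by rw [hεdef]; positivity
  have hε : ε ≤ 1 / 100 := by rw [hεdef]; norm_num
  have hE := sum_dg_pos G ε hε0 hε hn hc hnb hd
  have hcd : ∀ x y, x ≠ y → 0 < cd G x y := fun x y h =>
    lt_of_lt_of_le (by positivity) (cd_low G ε hε0 hε hn hc x y h)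
  have hcdle : ∀ x y, cd G x y ≤ (Fintype.card V : ℚ) := by
    intro x y
    calc cd G x y ≤ ∑ _v : V, (1 : ℚ) := Finset.sum_le_sum (fun v _ =>
          mul_le_one₀ (a_le G _ _) (a_nonneg G _ _) (a_le G _ _))
      _ = _ := by simp
  have hdpos : ∀ x, 0 < dg G x := fun x => lt_of_lt_of_le (by positivity) (hd x)
  have hN' : ∀ x u v, u ≠ v → G.Adj x u → G.Adj x v → 0 < NN G x u v := fun x u v h1 h2 h3 =>
    lt_of_lt_of_le (by positivity) (hN x u v h1 h2 h3)
  set N : ℚ := (Fintype.card V : ℚ) with hNdef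
  have hDs := DD_sum G hn.ne' hE.ne' (fun x y h => (hcd x y h).ne')
  have hdelbd : ∀ p r q, |del G (DD G) p r q| ≤ 1 / N := by
    intro p r q
    have h1 := del_bd G (DD G) (600 * ε) (N / 4) (N ^ 2 / 1024) (by positivity) (by positivity)
      (by positivity) (DD_bd G ε hε0 hε hn hc hnb hd) hd hN p r q
    refine h1.trans ?_
    have e : 6 * N ^ 2 * (600 * ε / (N / 4) / (N ^ 2 / 1024)) = (14745600 * ε) / N := by
      field_simp
      ring
    rw [← hNdef, e]
    apply div_le_div_of_nonneg_right _ hn.le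
    rw [hεdef]; norm_num
  refine ⟨fun x v y => b G x y * (a G x v * a G v y / cd G x y) + del G (DD G) x v y,
    ?_, ?_, ?_, ?_, 2 * lbar G, ?_⟩
  · intro x v y
    by_cases h : G.Adj x v ∧ G.Adj y v ∧ b G x y = 1
    · obtain ⟨h1, h2, h3⟩ := h
      have hxy := ((b_eq_one G).1 h3).1
      dsimp only
      rw [h3, (a_eq_one G).2 h1, (a_eq_one G).2 h2.symm]
      have h4 := (abs_le.1 (hdelbd x v y)).1
      have h5 : 1 / N ≤ 1 / cd G x y := one_div_le_one_div_of_le (hcd x y hxy) (hcdle x y)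
      have e : (1 : ℚ) * (1 * 1 / cd G x y) = 1 / cd G x y := by ring
      rw [e]
      linarith
    · dsimp only
      rw [del_supp G (DD G) x v y h]
      have h1 := mul_nonneg (a_nonneg G x v) (a_nonneg G v y)
      have h2 := b_nonneg G x y
      have h3 : 0 ≤ cd G x y := Finset.sum_nonneg (fun v _ => mul_nonneg (a_nonneg G _ _) (a_nonneg G _ _))
      positivity
  · intro x v y
    dsimp only
    rw [del_symm, b_symm G x y, cd_symm G x y, a_symm G x v, a_symm G v y]
    ring
  · intro x v y hne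
    by_contra hcon
    apply hne
    have h0 : ¬ (G.Adj x v ∧ G.Adj y v ∧ b G x y = 1) := by
      rintro ⟨h1, h2, h3⟩
      exact hcon ⟨h1, h2.symm, (b_eq_one G).1 h3⟩
    dsimp only
    rw [del_supp G (DD G) x v y h0]
    rcases a_zo G x v with h1 | h1
    · rw [h1]; ring
    rcases a_zo G v y with h2 | h2
    · rw [h2]; ring
    rcases b_zo G x y with h3 | h3
    · rw [h3]; ring
    exact absurd ⟨(a_eq_one G).1 h1, ((a_eq_one G).1 h2).symm, h3⟩ h0
  · intro x y hxy hnadj
    dsimp only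
    rw [Finset.sum_add_distrib, del_sum, ← Finset.mul_sum, ← Finset.sum_div,
      (b_eq_one G).2 ⟨hxy, hnadj⟩]
    have : ∑ v, a G x v * a G v y = cd G x y := rfl
    rw [this, div_self (hcd x y hxy).ne']
    ring
  · intro u v huv
    have key : ∀ u v, G.Adj u v →
        ∑ y, (b G u y * (a G u v * a G v y / cd G u y) + del G (DD G) u v y) =
          ell G u v + DD G u v := by
      intro u v huv
      rw [Finset.sum_add_distrib, del_H G (DD G) u v (fun x v h => DD_zero G x v h) hDs (hdpos u)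
        (hN' u)]
      congr 1
      unfold ell
      rw [Finset.mul_sum]
      apply Finset.sum_congr rfl
      intro y _
      ring
    dsimp only
    rw [key u v huv, key v u huv.symm]
    have h1 := DD_add G u v
    unfold FF at h1
    rw [(a_eq_one G).2 huv] at h1
    linarith

end Pool.Agent.H26.EPR
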