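import Pool.Agent.H26.EPR2

set_option autoImplicit false
set_option linter.unusedSectionVars false

namespace Pool.Agent.H26.EPR

lemma exists_fiber {V : Type*} [Fintype V] [DecidableEq V] (W : V → ℕ) (k : ℕ)
    (h : ∑ r, W r = k) : ∃ g : Fin k → V, ∀ r, (Finset.univ.filter (fun t => g t = r)).card = W r := by
  have hc : Fintype.card (Fin k) = Fintype.card (Σ r, Fin (W r)) := by
    rw [Fintype.card_fin, Fintype.card_sigma]
    simp only [Fintype.card_fin]
    exact h.symm
  let e := Fintype.equivOfCardEq hc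
  refine ⟨fun t => (e t).1, fun r => ?_⟩
  have h1 : (Finset.univ.filter (fun t => (e t).1 = r)).card =
      (Finset.univ.filter (fun s : Σ r, Fin (W r) => s.1 = r)).card := by
    apply Finset.card_bij (fun t _ => e t)
    · intro t ht
      simpa using ht
    · intro t _ t' _ h
      exact e.injective h
    · intro s hs
      refine ⟨e.symm s, ?_, e.apply_symm_apply s⟩
      simpa using hs
  rw [h1, ← Fintype.card_subtype, Fintype.card_congr (Equiv.sigmaSubtype r), Fintype.card_fin]

lemma exists_nat (w : ℚ) (hw : 0 ≤ w) (k : ℕ) (hk : w.den ∣ k) : ∃ W : ℕ, (W : ℚ) = k * w := by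
  obtain ⟨c, rfl⟩ := hk
  refine ⟨c * w.num.toNat, ?_⟩
  have h1 : ((w.num.toNat : ℤ) : ℚ) = w.num := by
    rw [Int.toNat_of_nonneg (Rat.num_nonneg.2 hw)]
  have h2 : (w.num.toNat : ℚ) = w.num := by exact_mod_cast h1
  have h3 : (w.den : ℚ) * w = w.num := by
    rw [mul_comm]; exact Rat.mul_den_eq_num w
  push_cast
  rw [h2, ← h3]
  ring

lemma sym_sum {V : Type*} [Fintype V] [DecidableEq V] (p q : V) (hpq : p ≠ q) (f : V → V → ℕ) :
    ∑ u, ∑ r, f u r * (if s(u, r) = s(p, q) then 1 else 0) = f p q + f q p := by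
  have h1 : ∀ u r, f u r * (if s(u, r) = s(p, q) then 1 else 0) =
      (if u = p then (if r = q then f u r else 0) else 0) +
      (if u = q then (if r = p then f u r else 0) else 0) := by
    intro u r
    by_cases h : u = p
    · by_cases h' : r = q
      · have : ¬ (u = q) := by rw [h]; exact hpq
        rw [if_pos (by rw [h, h']), if_pos h, if_pos h', if_neg this]; ring
      · have h2 : ¬ (s(u, r) = s(p, q)) := by
          rw [Sym2.eq_iff]
          rintro (⟨_, h3⟩ | ⟨h3, _⟩)
          · exact h' h3
          · exact hpq (h ▸ h3)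
        have : ¬ (u = q) := by rw [h]; exact hpq
        rw [if_neg h2, if_pos h, if_neg h', if_neg this]; ring
    · by_cases h4 : u = q
      · by_cases h5 : r = p
        · rw [if_pos (by rw [h4, h5]; exact Sym2.eq_swap), if_neg h, if_pos h4, if_pos h5]; ring
        · have h2 : ¬ (s(u, r) = s(p, q)) := by
            rw [Sym2.eq_iff]
            rintro (⟨h3, _⟩ | ⟨_, h3⟩)
            · exact h h3
            · exact h5 h3
          rw [if_neg h2, if_neg h, if_pos h4, if_neg h5]; ring
      · have h2 : ¬ (s(u, r) = s(p, q)) := by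
          rw [Sym2.eq_iff]
          rintro (⟨h3, _⟩ | ⟨h3, _⟩)
          · exact h h3
          · exact h4 h3
        rw [if_neg h2, if_neg h, if_neg h4]; ring
  simp only [h1, Finset.sum_add_distrib]
  have e1 : ∀ (p' q' : V), ∑ u, ∑ r, (if u = p' then (if r = q' then f u r else 0) else 0) = f p' q' := by
    intro p' q'
    rw [Finset.sum_eq_single p']
    · simp
    · intro u _ hu
      simp [hu]
    · intro h; exact absurd (Finset.mem_univ _) h
  rw [e1, e1]

lemma half_sum {n : ℕ} (C : Fin n → Fin n → ℕ) (hs : ∀ u v, C u v = C v u) (h0 : ∀ u, C u u = 0) :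
    ∑ u, ∑ v, C u v = 2 * ∑ u, ∑ v ∈ Finset.univ.filter (fun v => u < v), C u v := by
  have h1 : ∀ u, ∑ v, C u v = ∑ v ∈ Finset.univ.filter (fun v => u < v), C u v +
      ∑ v ∈ Finset.univ.filter (fun v => v < u), C u v := by
    intro u
    rw [Finset.sum_filter, Finset.sum_filter, ← Finset.sum_add_distrib]
    apply Finset.sum_congr rfl
    intro v _
    rcases lt_trichotomy u v with h | h | h
    · rw [if_pos h, if_neg (not_lt.2 h.le)]; ring
    · rw [h, h0]; simp
    · rw [if_neg (not_lt.2 h.le), if_pos h]; ring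
  simp only [h1, Finset.sum_add_distrib]
  have h2 : ∑ u, ∑ v ∈ Finset.univ.filter (fun v => v < u), C u v =
      ∑ u, ∑ v ∈ Finset.univ.filter (fun v => u < v), C u v := by
    simp only [Finset.sum_filter]
    rw [Finset.sum_comm]
    apply Finset.sum_congr rfl
    intro u _
    apply Finset.sum_congr rfl
    intro v _
    by_cases h : u < v
    · rw [if_pos h, if_pos h, hs]
    · rw [if_neg h, if_neg h]
  rw [h2]; ring

theorem paths {n : ℕ} (G : SimpleGraph (Fin n)) [DecidableRel G.Adj] (a0 b0 : Fin n)
    (hab : G.Adj a0 b0) (w : Fin n → Fin n → Fin n → ℚ)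
    (hw0 : ∀ x v y, 0 ≤ w x v y) (hws : ∀ x v y, w x v y = w y v x)
    (hwa : ∀ x v y, w x v y ≠ 0 → G.Adj x v ∧ G.Adj v y ∧ x ≠ y ∧ ¬ G.Adj x y)
    (hw1 : ∀ x y, x ≠ y → ¬ G.Adj x y → ∑ v, w x v y = 1)
    (L : ℚ) (hL : ∀ u v, G.Adj u v → (∑ y, w u v y) + (∑ x, w v u x) = L) :
    ∃ m k : ℕ, 1 ≤ m ∧ 1 ≤ k ∧
        ∃ P : ∀ u v : Fin n, Fin k → G.Walk u v,
          (∀ u v : Fin n, u < v → ∀ t : Fin k,
              (P u v t).IsPath ∧ (P u v t).length = G.dist u v) ∧
          (∀ e ∈ G.edgeSet,
              ∑ u : Fin n, ∑ v ∈ Finset.univ.filter (fun v => u < v), ∑ t : Fin k,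
                (P u v t).edges.count e = m) := by
  set k : ℕ := ∏ x, ∏ v, ∏ y, (w x v y).den with hk
  have hkdvd : ∀ x v y, (w x v y).den ∣ k := by
    intro x v y
    refine Dvd.dvd.trans ?_ (Finset.dvd_prod_of_mem _ (Finset.mem_univ x))
    refine Dvd.dvd.trans ?_ (Finset.dvd_prod_of_mem _ (Finset.mem_univ v))
    exact Finset.dvd_prod_of_mem _ (Finset.mem_univ y)
  have hkpos : 0 < k := Finset.prod_pos (fun x _ => Finset.prod_pos (fun v _ =>
    Finset.prod_pos (fun y _ => (w x v y).den_pos)))
  have hW : ∀ x v y, ∃ W : ℕ, (W : ℚ) = k * w x v y := fun x v y =>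
    exists_nat _ (hw0 x v y) k (hkdvd x v y)
  choose W hW using hW
  have hWs : ∀ x v y, W x v y = W y v x := by
    intro x v y
    have : (W x v y : ℚ) = W y v x := by rw [hW, hW, hws]
    exact_mod_cast this
  have hkq : (k : ℚ) ≠ 0 := by exact_mod_cast hkpos.ne'
  have hWa : ∀ x v y, W x v y ≠ 0 → G.Adj x v ∧ G.Adj v y ∧ x ≠ y ∧ ¬ G.Adj x y := by
    intro x v y h
    apply hwa
    intro h0
    apply h
    have := hW x v y
    rw [h0, mul_zero] at this
    exact_mod_cast this
  have hW1 : ∀ x y, x ≠ y → ¬ G.Adj x y → ∑ v, W x v y = k := by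
    intro x y h1 h2
    have : ((∑ v, W x v y : ℕ) : ℚ) = k := by
      push_cast
      simp only [hW]
      rw [← Finset.mul_sum, hw1 x y h1 h2, mul_one]
    exact_mod_cast this
  have hg : ∀ u v, ∃ g : Fin k → Fin n, u ≠ v → ¬ G.Adj u v →
      ∀ r, (Finset.univ.filter (fun t => g t = r)).card = W u r v := by
    intro u v
    by_cases h : u ≠ v ∧ ¬ G.Adj u v
    · obtain ⟨g, hg⟩ := exists_fiber (fun r => W u r v) k (hW1 u v h.1 h.2)
      exact ⟨g, fun _ _ => hg⟩
    · exact ⟨fun _ => u, fun h1 h2 => absurd ⟨h1, h2⟩ h⟩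
  choose g hg using hg
  have hgA : ∀ u v, u ≠ v → ¬ G.Adj u v → ∀ t, G.Adj u (g u v t) ∧ G.Adj (g u v t) v := by
    intro u v h1 h2 t
    have h3 := hg u v h1 h2 (g u v t)
    have h4 : W u (g u v t) v ≠ 0 := by
      rw [← h3]
      apply Finset.card_ne_zero.2
      exact ⟨t, by simp⟩
    have := hWa _ _ _ h4
    exact ⟨this.1, this.2.1⟩
  let P : ∀ u v : Fin n, Fin k → G.Walk u v := fun u v t =>
    if h : u = v then h ▸ SimpleGraph.Walk.nil
    else if h2 : G.Adj u v then SimpleGraph.Walk.cons h2 SimpleGraph.Walk.nil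
    else SimpleGraph.Walk.cons (hgA u v h h2 t).1
      (SimpleGraph.Walk.cons (hgA u v h h2 t).2 SimpleGraph.Walk.nil)
  have hP1 : ∀ u v t, (h : u ≠ v) → (h2 : G.Adj u v) →
      P u v t = SimpleGraph.Walk.cons h2 SimpleGraph.Walk.nil := by
    intro u v t h h2
    simp only [P, dif_neg h, dif_pos h2]
  have hP2 : ∀ u v t, (h : u ≠ v) → (h2 : ¬ G.Adj u v) →
      P u v t = SimpleGraph.Walk.cons (hgA u v h h2 t).1
      (SimpleGraph.Walk.cons (hgA u v h h2 t).2 SimpleGraph.Walk.nil) := by
    intro u v t h h2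
    simp only [P, dif_neg h, dif_neg h2]
  set m : ℕ := k + ∑ y, W a0 b0 y + ∑ x, W b0 a0 x with hm
  have hmall : ∀ u v, G.Adj u v → k + ∑ y, W u v y + ∑ x, W v u x = m := by
    intro u v huv
    have e : ∀ u v, G.Adj u v → ((k + ∑ y, W u v y + ∑ x, W v u x : ℕ) : ℚ) = k * (1 + L) := by
      intro u v huv
      push_cast
      simp only [hW]
      rw [← Finset.mul_sum, ← Finset.mul_sum, ← hL u v huv]
      ring
    have := (e u v huv).trans (e a0 b0 hab).symm
    exact_mod_cast this
  refine ⟨m, k, by omega, hkpos, P, ?_, ?_⟩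
  · intro u v huv t
    have hne : u ≠ v := ne_of_lt huv
    by_cases h2 : G.Adj u v
    · rw [hP1 u v t hne h2]
      refine ⟨?_, ?_⟩
      · simp [SimpleGraph.Walk.cons_isPath_iff, hne]
      · rw [SimpleGraph.dist_eq_one_iff_adj.2 h2]; rfl
    · rw [hP2 u v t hne h2]
      have h3 := hgA u v hne h2 t
      refine ⟨?_, ?_⟩
      · simp [SimpleGraph.Walk.cons_isPath_iff, hne, h3.1.ne, h3.2.ne]
      · have hr : G.Reachable u v := ⟨SimpleGraph.Walk.cons h3.1 (SimpleGraph.Walk.cons h3.2 SimpleGraph.Walk.nil)⟩
        have h4 := hr.one_lt_dist_of_ne_of_not_adj hne h2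
        have h5 := SimpleGraph.dist_le (SimpleGraph.Walk.cons h3.1 (SimpleGraph.Walk.cons h3.2 SimpleGraph.Walk.nil))
        simp only [SimpleGraph.Walk.length_cons, SimpleGraph.Walk.length_nil] at h5 ⊢
        omega
  · intro e he
    induction e with | _ p q =>
    rw [SimpleGraph.mem_edgeSet] at he
    have hpq : p ≠ q := he.ne
    -- the count function
    let C : Fin n → Fin n → ℕ := fun u v =>
      (if G.Adj u v then k else 0) * (if s(u, v) = s(p, q) then 1 else 0) +
      ∑ r, W u r v * ((if s(u, r) = s(p, q) then 1 else 0) + (if s(r, v) = s(p, q) then 1 else 0))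
    have hC : ∀ u v, u < v → ∑ t : Fin k, (P u v t).edges.count s(p, q) = C u v := by
      intro u v huv
      have hne : u ≠ v := ne_of_lt huv
      by_cases h2 : G.Adj u v
      · have hW0 : ∀ r, W u r v = 0 := by
          intro r
          by_contra h
          exact (hWa u r v h).2.2.2 h2
        simp only [C, hW0, if_pos h2, zero_mul, Finset.sum_const_zero, add_zero]
        have : ∀ t, (P u v t).edges.count s(p, q) = if s(u, v) = s(p, q) then 1 else 0 := by
          intro t
          rw [hP1 u v t hne h2, SimpleGraph.Walk.edges_cons, SimpleGraph.Walk.edges_nil,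
            List.count_singleton]
          by_cases h : s(u, v) = s(p, q)
          · simp [h]
          · have h' : ¬ (s(p, q) = s(u, v)) := fun h3 => h h3.symm
            simp [h]
        simp only [this]
        rw [Finset.sum_const, Finset.card_univ, Fintype.card_fin, smul_eq_mul]
      · simp only [C, if_neg h2, zero_mul, zero_add]
        have h3 : ∀ t, (P u v t).edges.count s(p, q) =
            (fun r => (if s(u, r) = s(p, q) then 1 else 0) + (if s(r, v) = s(p, q) then 1 else 0))
              (g u v t) := by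
          intro t
          rw [hP2 u v t hne h2, SimpleGraph.Walk.edges_cons, SimpleGraph.Walk.edges_cons,
            SimpleGraph.Walk.edges_nil, List.count_cons, List.count_singleton]
          simp only [beq_iff_eq]
          ring
        simp only [h3]
        rw [← Finset.sum_fiberwise' Finset.univ (g u v)
          (fun r => (if s(u, r) = s(p, q) then 1 else 0) + (if s(r, v) = s(p, q) then 1 else 0))]
        apply Finset.sum_congr rfl
        intro r _
        rw [Finset.sum_const, hg u v hne h2 r, smul_eq_mul]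
    have hsum : ∑ u : Fin n, ∑ v ∈ Finset.univ.filter (fun v => u < v), ∑ t : Fin k,
                (P u v t).edges.count s(p, q) =
        ∑ u, ∑ v ∈ Finset.univ.filter (fun v => u < v), C u v := by
      apply Finset.sum_congr rfl
      intro u _
      apply Finset.sum_congr rfl
      intro v hv
      exact hC u v (by simpa using hv)
    rw [hsum]
    have hCs : ∀ u v, C u v = C v u := by
      intro u v
      simp only [C]
      congr 1
      · simp only [G.adj_comm u v, Sym2.eq_swap (a := u) (b := v)]
      · apply Finset.sum_congr rfl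
        intro r _
        rw [hWs u r v, Sym2.eq_swap (a := r) (b := v), Sym2.eq_swap (a := u) (b := r)]
        ring
    have hC0 : ∀ u, C u u = 0 := by
      intro u
      have hW0 : ∀ r, W u r u = 0 := by
        intro r
        by_contra h
        exact (hWa u r u h).2.2.1 rfl
      simp only [C, hW0, G.irrefl, if_false, zero_mul, Finset.sum_const_zero, add_zero]
    have h2 := half_sum C hCs hC0
    have htot : ∑ u, ∑ v, C u v = 2 * m := by
      simp only [C, Finset.sum_add_distrib]
      rw [sym_sum p q hpq (fun u v => if G.Adj u v then k else 0)]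
      rw [if_pos he, if_pos he.symm]
      have e1 : ∑ u, ∑ v, ∑ r, W u r v *
          ((if s(u, r) = s(p, q) then 1 else 0) + (if s(r, v) = s(p, q) then 1 else 0)) =
          2 * (∑ y, W p q y + ∑ x, W q p x) := by
        simp only [mul_add, Finset.sum_add_distrib]
        have e2 : ∑ u, ∑ v, ∑ r, W u r v * (if s(u, r) = s(p, q) then 1 else 0) =
            ∑ y, W p q y + ∑ x, W q p x := by
          have e3 : ∀ u, ∑ v, ∑ r, W u r v * (if s(u, r) = s(p, q) then 1 else 0) =
            ∑ r, (∑ v, W u r v) * (if s(u, r) = s(p, q) then 1 else 0) := by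
            intro u
            rw [Finset.sum_comm]
            apply Finset.sum_congr rfl
            intro r _
            rw [Finset.sum_mul]
          simp only [e3]
          rw [sym_sum p q hpq (fun u r => ∑ v, W u r v)]
        have e4 : ∑ u, ∑ v, ∑ r, W u r v * (if s(r, v) = s(p, q) then 1 else 0) =
            ∑ y, W p q y + ∑ x, W q p x := by
          rw [← e2, Finset.sum_comm]
          apply Finset.sum_congr rfl
          intro u _
          apply Finset.sum_congr rfl
          intro v _
          apply Finset.sum_congr rfl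
          intro r _
          rw [hWs v r u, Sym2.eq_swap (a := r) (b := u)]
        rw [e2, e4]; ring
      rw [e1, ← hmall p q he]
      ring
    omega

end Pool.Agent.H26.EPR
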