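import Mathlib

set_option autoImplicit false
set_option linter.unusedSectionVars false

namespace Pool.Agent.H26.EPR

open Classical in
/-- the number of labelled graphs -/
lemma card_graphs (n : ℕ) : Fintype.card (SimpleGraph (Fin n)) = 2 ^ (n.choose 2) := by
  let e : SimpleGraph (Fin n) ≃ Set {e : Sym2 (Fin n) // ¬ e.IsDiag} :=
    { toFun := fun G => {e | (e : Sym2 (Fin n)) ∈ G.edgeSet}
      invFun := fun S => SimpleGraph.fromEdgeSet (Subtype.val '' S)
      left_inv := by
        intro G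
        ext u v
        rw [SimpleGraph.fromEdgeSet_adj]
        constructor
        · rintro ⟨⟨⟨e, he⟩, h1, h2⟩, h3⟩
          have h1' : e ∈ G.edgeSet := h1
          have h2' : e = s(u, v) := h2
          rw [h2'] at h1'
          exact h1'
        · intro h
          exact ⟨⟨⟨s(u, v), by simpa using h.ne⟩, h, rfl⟩, h.ne⟩
      right_inv := by
        intro S
        ext ⟨e, he⟩
        simp only [Set.mem_setOf_eq, SimpleGraph.edgeSet_fromEdgeSet, Set.mem_diff]
        constructor
        · rintro ⟨⟨⟨e', he'⟩, h1, h2⟩, -⟩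
          have h2' : e' = e := h2
          subst h2'
          exact h1
        · intro h
          exact ⟨⟨⟨e, he⟩, h, rfl⟩, he⟩ }
  rw [Fintype.card_congr e, Fintype.card_set, Sym2.card_subtype_not_diag, Fintype.card_fin]

section unif

variable {V : Type*} [Fintype V] [DecidableEq V] {j : ℕ} (s : Fin j → V)

abbrev ZZ (s : Fin j → V) : Type _ := {z : V // z ∉ Set.range s}

open Classical in
noncomputable def Ph (G : SimpleGraph V) : ZZ s → Fin j → Bool := fun z i => decide (G.Adj z.1 (s i))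

/-- a graph with prescribed adjacencies to `s` -/
def HH (h : ZZ s → Fin j → Bool) : SimpleGraph V where
  Adj x y := ∃ (z : ZZ s) (i : Fin j), h z i = true ∧ ((x = z.1 ∧ y = s i) ∨ (y = z.1 ∧ x = s i))
  symm := ⟨by
    rintro x y ⟨z, i, h1, h2 | h2⟩
    · exact ⟨z, i, h1, Or.inr h2⟩
    · exact ⟨z, i, h1, Or.inl h2⟩⟩
  loopless := ⟨by
    rintro x ⟨z, i, h1, ⟨h2, h3⟩ | ⟨h2, h3⟩⟩
    · exact z.2 ⟨i, by rw [← h3, h2]⟩
    · exact z.2 ⟨i, by rw [← h3, h2]⟩⟩

lemma Ph_HH (hs : Function.Injective s) (h : ZZ s → Fin j → Bool) : Ph s (HH s h) = h := by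
  funext z i
  unfold Ph
  have : (HH s h).Adj z.1 (s i) ↔ h z i = true := by
    constructor
    · rintro ⟨z', i', h1, ⟨h2, h3⟩ | ⟨h2, h3⟩⟩
      · have e1 : z = z' := Subtype.ext h2
        have e2 : i = i' := hs h3
        rw [e1, e2]; exact h1
      · exact absurd ⟨i', h3.symm⟩ z.2
    · intro h1
      exact ⟨z, i, h1, Or.inl ⟨rfl, rfl⟩⟩
  by_cases hh : h z i = true
  · rw [hh]; simpa using this.2 hh
  · have h2 : h z i = false := by simpa using hh
    rw [h2]
    simpa using fun h3 => hh (this.1 h3)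

lemma Ph_symmDiff (G H : SimpleGraph V) (z : ZZ s) (i : Fin j) :
    Ph s (symmDiff G H) z i = xor (Ph s G z i) (Ph s H z i) := by
  unfold Ph
  by_cases h1 : G.Adj z.1 (s i) <;> by_cases h2 : H.Adj z.1 (s i) <;>
    simp [symmDiff, h1, h2]

open Classical in
lemma unif (hs : Function.Injective s) (f : (ZZ s → Fin j → Bool) → ℝ) :
    (Fintype.card (ZZ s → Fin j → Bool) : ℝ) * ∑ G : SimpleGraph V, f (Ph s G) =
      (Fintype.card (SimpleGraph V) : ℝ) * ∑ h, f h := by
  -- translate by every `h`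
  have h1 : ∀ h : ZZ s → Fin j → Bool, ∑ G : SimpleGraph V, f (Ph s G) =
      ∑ G : SimpleGraph V, f (fun z i => xor (Ph s G z i) (h z i)) := by
    intro h
    have hinv : Function.Involutive (fun G : SimpleGraph V => symmDiff G (HH s h)) := by
      intro G
      simp
    rw [← Equiv.sum_comp hinv.toPerm (fun G => f (Ph s G))]
    apply Finset.sum_congr rfl
    intro G _
    congr 1
    funext z i
    change Ph s (symmDiff G (HH s h)) z i = _
    rw [Ph_symmDiff, Ph_HH s hs]
  have h2 : ∑ h : ZZ s → Fin j → Bool, ∑ G : SimpleGraph V, f (Ph s G) =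
      ∑ G : SimpleGraph V, ∑ h : ZZ s → Fin j → Bool, f (fun z i => xor (Ph s G z i) (h z i)) := by
    rw [Finset.sum_comm (s := Finset.univ) (t := Finset.univ)
      (f := fun (G : SimpleGraph V) (h : ZZ s → Fin j → Bool) => f (fun z i => xor (Ph s G z i) (h z i)))]
    exact Finset.sum_congr rfl (fun h _ => h1 h)
  have h3 : ∀ G : SimpleGraph V, ∑ h : ZZ s → Fin j → Bool, f (fun z i => xor (Ph s G z i) (h z i)) =
      ∑ h, f h := by
    intro G
    have hinv : Function.Involutive
        (fun (h : ZZ s → Fin j → Bool) => fun z i => xor (Ph s G z i) (h z i)) := by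
      intro h
      funext z i
      simp
    exact Equiv.sum_comp hinv.toPerm f
  simp only [h3] at h2
  rw [Finset.sum_const, Finset.sum_const, Finset.card_univ, Finset.card_univ, nsmul_eq_mul,
    nsmul_eq_mul] at h2
  exact h2

end unif

lemma mgf {B : Type*} [Fintype B] (y : B → ℝ) (hy : ∑ b, y b = 0) (hy1 : ∀ b, |y b| ≤ 1)
    (l : ℝ) (hl : |l| ≤ 1) : ∑ b, Real.exp (l * y b) ≤ (Fintype.card B : ℝ) * Real.exp (l ^ 2) := by
  have h1 : ∀ b, Real.exp (l * y b) ≤ 1 + l * y b + l ^ 2 := by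
    intro b
    have h2 : |l * y b| ≤ 1 := by
      rw [abs_mul]
      exact mul_le_one₀ hl (abs_nonneg _) (hy1 b)
    have h3 := (abs_le.1 (Real.abs_exp_sub_one_sub_id_le h2)).2
    have h4 : (l * y b) ^ 2 ≤ l ^ 2 := by
      have : (y b) ^ 2 ≤ 1 := by
        rw [← sq_abs]
        exact pow_le_one₀ (abs_nonneg _) (hy1 b)
      have := mul_le_mul_of_nonneg_left this (sq_nonneg l)
      nlinarith
    linarith
  calc ∑ b, Real.exp (l * y b) ≤ ∑ b, (1 + l * y b + l ^ 2) := Finset.sum_le_sum (fun b _ => h1 b)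
    _ = (Fintype.card B : ℝ) * (1 + l ^ 2) := by
        rw [Finset.sum_add_distrib, Finset.sum_add_distrib, ← Finset.mul_sum, hy, Finset.sum_const,
          Finset.sum_const, Finset.card_univ, nsmul_eq_mul, nsmul_eq_mul]
        ring
    _ ≤ _ := by
        apply mul_le_mul_of_nonneg_left _ (by positivity)
        have := Real.add_one_le_exp (l ^ 2)
        linarith

section tail

variable {V : Type*} [Fintype V] [DecidableEq V] {j : ℕ} (s : Fin j → V)

open Classical in
lemma tail (hs : Function.Injective s) (y : (Fin j → Bool) → ℝ) (hy : ∑ b, y b = 0)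
    (hy1 : ∀ b, |y b| ≤ 1) (l t : ℝ) (hl : 0 ≤ l) (hl1 : l ≤ 1) :
    (((Finset.univ.filter (fun G : SimpleGraph V => t ≤ ∑ z : ZZ s, y (Ph s G z))).card : ℕ) : ℝ) *
      Real.exp (l * t) ≤
      (Fintype.card (SimpleGraph V) : ℝ) * Real.exp (l ^ 2 * (Fintype.card V : ℝ)) := by
  have hB : (0 : ℝ) < (Fintype.card (ZZ s → Fin j → Bool) : ℝ) := by
    exact_mod_cast Fintype.card_pos
  -- Markov
  have h1 : (((Finset.univ.filter (fun G : SimpleGraph V => t ≤ ∑ z : ZZ s, y (Ph s G z))).card : ℕ) : ℝ) *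
      Real.exp (l * t) ≤ ∑ G : SimpleGraph V, Real.exp (l * ∑ z : ZZ s, y (Ph s G z)) := by
    calc (((Finset.univ.filter (fun G : SimpleGraph V => t ≤ ∑ z : ZZ s, y (Ph s G z))).card : ℕ) : ℝ) *
      Real.exp (l * t) = ∑ _G ∈ Finset.univ.filter (fun G : SimpleGraph V => t ≤ ∑ z : ZZ s, y (Ph s G z)),
        Real.exp (l * t) := by rw [Finset.sum_const, nsmul_eq_mul]
      _ ≤ ∑ G ∈ Finset.univ.filter (fun G : SimpleGraph V => t ≤ ∑ z : ZZ s, y (Ph s G z)),
        Real.exp (l * ∑ z : ZZ s, y (Ph s G z)) := by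
          apply Finset.sum_le_sum
          intro G hG
          apply Real.exp_le_exp.2
          apply mul_le_mul_of_nonneg_left _ hl
          simpa using hG
      _ ≤ _ := by
          apply Finset.sum_le_sum_of_subset_of_nonneg (Finset.filter_subset _ _)
          intro G _ _
          positivity
  have h2 := unif s hs (fun h => Real.exp (l * ∑ z : ZZ s, y (h z)))
  have h3 : ∑ h : ZZ s → Fin j → Bool, Real.exp (l * ∑ z : ZZ s, y (h z)) =
      ∏ _z : ZZ s, ∑ b : Fin j → Bool, Real.exp (l * y b) := by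
    rw [Finset.prod_univ_sum]
    rw [Fintype.piFinset_univ]
    apply Finset.sum_congr rfl
    intro h _
    rw [Finset.mul_sum, Real.exp_sum]
  have h4 : ∏ _z : ZZ s, ∑ b : Fin j → Bool, Real.exp (l * y b) ≤
      (Fintype.card (ZZ s → Fin j → Bool) : ℝ) * Real.exp (l ^ 2 * (Fintype.card V : ℝ)) := by
    rw [Finset.prod_const, Finset.card_univ]
    have h5 := mgf y hy hy1 l (by rw [abs_of_nonneg hl]; exact hl1)
    have h6 : 0 ≤ ∑ b : Fin j → Bool, Real.exp (l * y b) := Finset.sum_nonneg (fun b _ => by positivity)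
    have h7 := pow_le_pow_left₀ h6 h5 (Fintype.card (ZZ s))
    refine h7.trans ?_
    rw [mul_pow]
    have e1 : (Fintype.card (ZZ s → Fin j → Bool) : ℝ) =
        ((Fintype.card (Fin j → Bool) : ℕ) : ℝ) ^ Fintype.card (ZZ s) := by
      rw [Fintype.card_fun]; push_cast; rfl
    rw [e1]
    apply mul_le_mul_of_nonneg_left _ (by positivity)
    rw [← Real.exp_nat_mul]
    apply Real.exp_le_exp.2
    have h8 : (Fintype.card (ZZ s) : ℝ) ≤ (Fintype.card V : ℝ) := by
      exact_mod_cast Fintype.card_subtype_le _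
    have h9 : 0 ≤ l ^ 2 := by positivity
    nlinarith
  rw [h3] at h2
  refine h1.trans ?_
  -- divide by the number of patterns
  have h10 : (Fintype.card (ZZ s → Fin j → Bool) : ℝ) *
      ∑ G : SimpleGraph V, Real.exp (l * ∑ z : ZZ s, y (Ph s G z)) ≤
      (Fintype.card (ZZ s → Fin j → Bool) : ℝ) *
      ((Fintype.card (SimpleGraph V) : ℝ) * Real.exp (l ^ 2 * (Fintype.card V : ℝ))) := by
    rw [h2]
    have := mul_le_mul_of_nonneg_left h4 (by positivity : (0:ℝ) ≤ (Fintype.card (SimpleGraph V) : ℝ))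
    refine this.trans (le_of_eq ?_)
    ring
  exact le_of_mul_le_mul_left h10 hB

end tail

end Pool.Agent.H26.EPR
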