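import Pool.Agent.H26.EPR3
import Pool.Agent.H26.EPR4

set_option autoImplicit false
set_option linter.unusedSectionVars false

namespace Pool.Agent.H26.EPR

section bad

variable {V : Type*} [Fintype V] [DecidableEq V] {j : ℕ}

/-- number of vertices with a prescribed pattern of adjacencies to `s` -/
noncomputable def XX (s : Fin j → V) (p : Fin j → Bool) (G : SimpleGraph V) : ℕ :=
  Nat.card {z : V // z ∉ Set.range s ∧ ∀ i, (G.Adj z (s i) ↔ p i = true)}

open Classical in
lemma sum_Ph (s : Fin j → V) (p : Fin j → Bool) (G : SimpleGraph V) :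
    ∑ z : ZZ s, (if Ph s G z = p then (1 : ℝ) else 0) = (XX s p G : ℝ) := by
  rw [Finset.sum_boole]
  congr 1
  unfold XX
  rw [Nat.card_eq_fintype_card, ← Fintype.card_subtype]
  apply Fintype.card_congr
  refine (Equiv.subtypeEquivRight ?_).trans (Equiv.subtypeSubtypeEquivSubtypeInter
    (fun z : V => z ∉ Set.range s) (fun z => ∀ i, (G.Adj z (s i) ↔ p i = true)))
  intro z
  rw [funext_iff]
  apply forall_congr'
  intro i
  unfold Ph
  by_cases h1 : G.Adj z.1 (s i) <;> by_cases h2 : p i = true <;> simp [h1, h2]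

/-- deviation event -/
def Dev (η : ℝ) (s : Fin j → V) (p : Fin j → Bool) (G : SimpleGraph V) : Prop :=
  η * (Fintype.card V : ℝ) ≤ |(XX s p G : ℝ) - (Fintype.card (ZZ s) : ℝ) / 2 ^ j|

open Classical in
lemma dev_card (η : ℝ) (hη : 0 < η) (hη1 : η ≤ 1) (s : Fin j → V) (hs : Function.Injective s)
    (p : Fin j → Bool) :
    (((Finset.univ.filter (fun G : SimpleGraph V => Dev η s p G)).card : ℕ) : ℝ) ≤
      2 * (Fintype.card (SimpleGraph V) : ℝ) * Real.exp (-(η ^ 2 / 4 * (Fintype.card V : ℝ))) := by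
  set N : ℝ := (Fintype.card V : ℝ) with hN
  set K : ℝ := (Fintype.card (SimpleGraph V) : ℝ) with hK
  let y : (Fin j → Bool) → ℝ := fun b => (if b = p then 1 else 0) - 1 / 2 ^ j
  have hcardB : (Fintype.card (Fin j → Bool) : ℝ) = 2 ^ j := by
    rw [Fintype.card_fun, Fintype.card_bool, Fintype.card_fin]; push_cast; rfl
  have hy : ∑ b, y b = 0 := by
    simp only [y]
    rw [Finset.sum_sub_distrib, Finset.sum_ite_eq' Finset.univ p (fun _ => (1:ℝ)),
      Finset.sum_const, Finset.card_univ, nsmul_eq_mul, hcardB]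
    simp
  have h2j : (0 : ℝ) < 1 / 2 ^ j ∧ (1 : ℝ) / 2 ^ j ≤ 1 := by
    constructor
    · positivity
    · rw [div_le_one (by positivity)]
      exact one_le_pow₀ (by norm_num)
  have hy1 : ∀ b, |y b| ≤ 1 := by
    intro b
    simp only [y]
    rw [abs_le]
    split_ifs <;> constructor <;> linarith [h2j.1, h2j.2]
  have hT : ∀ G : SimpleGraph V, ∑ z : ZZ s, y (Ph s G z) =
      (XX s p G : ℝ) - (Fintype.card (ZZ s) : ℝ) / 2 ^ j := by
    intro G
    simp only [y]
    rw [Finset.sum_sub_distrib, sum_Ph, Finset.sum_const, Finset.card_univ, nsmul_eq_mul]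
    ring
  have h1 := tail s hs y hy hy1 (η / 2) (η * N) (by positivity) (by linarith)
  have h2 := tail s hs (fun b => - y b) (by simp [hy]) (fun b => by rw [abs_neg]; exact hy1 b)
    (η / 2) (η * N) (by positivity) (by linarith)
  have hexp : ∀ c : ℝ, c * Real.exp (η / 2 * (η * N)) ≤ K * Real.exp ((η / 2) ^ 2 * N) →
      c ≤ K * Real.exp (-(η ^ 2 / 4 * N)) := by
    intro c hc
    have e1 : c = c * Real.exp (η / 2 * (η * N)) * Real.exp (-(η / 2 * (η * N))) := by
      rw [mul_assoc, ← Real.exp_add, add_neg_cancel, Real.exp_zero, mul_one]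
    rw [e1]
    calc c * Real.exp (η / 2 * (η * N)) * Real.exp (-(η / 2 * (η * N)))
        ≤ K * Real.exp ((η / 2) ^ 2 * N) * Real.exp (-(η / 2 * (η * N))) :=
          mul_le_mul_of_nonneg_right hc (by positivity)
      _ = K * Real.exp (-(η ^ 2 / 4 * N)) := by
          rw [mul_assoc, ← Real.exp_add]
          congr 2
          ring
  have h1' := hexp _ h1
  have h2' := hexp _ h2
  have hsub : Finset.univ.filter (fun G : SimpleGraph V => Dev η s p G) ⊆
      Finset.univ.filter (fun G : SimpleGraph V => η * N ≤ ∑ z : ZZ s, y (Ph s G z)) ∪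
      Finset.univ.filter (fun G : SimpleGraph V => η * N ≤ ∑ z : ZZ s, - y (Ph s G z)) := by
    intro G hG
    rw [Finset.mem_filter] at hG
    rw [Finset.mem_union, Finset.mem_filter, Finset.mem_filter, Finset.sum_neg_distrib, hT]
    have h3 : η * N ≤ |(XX s p G : ℝ) - (Fintype.card (ZZ s) : ℝ) / 2 ^ j| := hG.2
    rcases le_abs.1 h3 with h4 | h4
    · exact Or.inl ⟨Finset.mem_univ _, h4⟩
    · exact Or.inr ⟨Finset.mem_univ _, h4⟩
  have h5 := (Finset.card_le_card hsub).trans (Finset.card_union_le _ _)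
  have h6 : (((Finset.univ.filter (fun G : SimpleGraph V => Dev η s p G)).card : ℕ) : ℝ) ≤
      ((Finset.univ.filter (fun G : SimpleGraph V => η * N ≤ ∑ z : ZZ s, y (Ph s G z))).card : ℝ) +
      ((Finset.univ.filter (fun G : SimpleGraph V => η * N ≤ ∑ z : ZZ s, - y (Ph s G z))).card : ℝ) := by
    exact_mod_cast h5
  linarith

open Classical in
lemma bad_card (η : ℝ) (hη : 0 < η) (hη1 : η ≤ 1) (j : ℕ) :
    (((Finset.univ.filter (fun G : SimpleGraph V =>
      ∃ s : Fin j → V, Function.Injective s ∧ ∃ p, Dev η s p G)).card : ℕ) : ℝ) ≤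
      (Fintype.card V : ℝ) ^ j * 2 ^ j *
      (2 * (Fintype.card (SimpleGraph V) : ℝ) * Real.exp (-(η ^ 2 / 4 * (Fintype.card V : ℝ)))) := by
  set R : ℝ := 2 * (Fintype.card (SimpleGraph V) : ℝ) * Real.exp (-(η ^ 2 / 4 * (Fintype.card V : ℝ)))
    with hR
  have hR0 : 0 ≤ R := by positivity
  let F : (Fin j → V) × (Fin j → Bool) → Finset (SimpleGraph V) := fun q =>
    Finset.univ.filter (fun G : SimpleGraph V => Function.Injective q.1 ∧ Dev η q.1 q.2 G)
  have hsub : Finset.univ.filter (fun G : SimpleGraph V =>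
      ∃ s : Fin j → V, Function.Injective s ∧ ∃ p, Dev η s p G) ⊆ Finset.univ.biUnion F := by
    intro G hG
    rw [Finset.mem_filter] at hG
    obtain ⟨-, s, hs, p, hp⟩ := hG
    rw [Finset.mem_biUnion]
    exact ⟨(s, p), Finset.mem_univ _, by simp only [F, Finset.mem_filter]; exact ⟨Finset.mem_univ _, hs, hp⟩⟩
  have h1 := (Finset.card_le_card hsub).trans Finset.card_biUnion_le
  have h2 : ∀ q, ((F q).card : ℝ) ≤ R := by
    intro q
    by_cases hq : Function.Injective q.1
    · refine le_trans ?_ (dev_card η hη hη1 q.1 hq q.2)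
      exact_mod_cast Finset.card_le_card (by
        intro G hG
        simp only [F, Finset.mem_filter] at hG ⊢
        exact ⟨hG.1, hG.2.2⟩)
    · have : F q = ∅ := by
        simp only [F]
        apply Finset.filter_false_of_mem
        intro G _ h
        exact hq h.1
      rw [this]; simpa using hR0
  have h3 : ((Finset.univ.filter (fun G : SimpleGraph V =>
      ∃ s : Fin j → V, Function.Injective s ∧ ∃ p, Dev η s p G)).card : ℝ) ≤
      ∑ q : (Fin j → V) × (Fin j → Bool), ((F q).card : ℝ) := by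
    exact_mod_cast h1
  refine h3.trans ((Finset.sum_le_sum (fun q _ => h2 q)).trans ?_)
  rw [Finset.sum_const, Finset.card_univ, nsmul_eq_mul, Fintype.card_prod, Fintype.card_fun,
    Fintype.card_fun, Fintype.card_fin, Fintype.card_bool]
  push_cast
  exact le_rfl

end bad

end Pool.Agent.H26.EPR
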