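import Pool.Agent.H26.EPR5

set_option autoImplicit false
set_option linter.unusedSectionVars false

namespace Pool.Agent.H26.EPR

section extract

variable {V : Type*} [Fintype V] [DecidableEq V]

open Classical in
lemma XX_eq {j : ℕ} (s : Fin j → V) (p : Fin j → Bool) (G : SimpleGraph V) (P : V → Prop)
    (f : V → ℚ) (hP : ∀ v, (v ∉ Set.range s ∧ ∀ i, (G.Adj v (s i) ↔ p i = true)) ↔ P v)
    (hf1 : ∀ v, P v → f v = 1) (hf0 : ∀ v, ¬ P v → f v = 0) : ∑ v, f v = (XX s p G : ℚ) := by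
  have h1 : ∀ v, f v = if (v ∉ Set.range s ∧ ∀ i, (G.Adj v (s i) ↔ p i = true)) then 1 else 0 := by
    intro v
    by_cases h : P v
    · rw [hf1 v h, if_pos ((hP v).2 h)]
    · rw [hf0 v h, if_neg (fun h2 => h ((hP v).1 h2))]
  simp only [h1]
  rw [Finset.sum_boole]
  congr 1
  unfold XX
  rw [Nat.card_eq_fintype_card, Fintype.card_subtype]

variable (G : SimpleGraph V) [DecidableRel G.Adj]

lemma cd_XX (x y : V) : cd G x y = (XX ![x, y] ![true, true] G : ℚ) := by
  unfold cd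
  apply XX_eq ![x, y] ![true, true] G (fun v => G.Adj x v ∧ G.Adj v y)
  · intro v
    simp only [Set.mem_range, Fin.exists_fin_two, Fin.forall_fin_two, Matrix.cons_val_zero,
      Matrix.cons_val_one, iff_true, not_or]
    constructor
    · rintro ⟨_, h1, h2⟩
      exact ⟨h1.symm, h2⟩
    · rintro ⟨h1, h2⟩
      exact ⟨⟨h1.ne, h2.ne'⟩, h1.symm, h2⟩
  · rintro v ⟨h1, h2⟩
    rw [(a_eq_one G).2 h1, (a_eq_one G).2 h2]; ring
  · intro v h
    by_cases h1 : G.Adj x v
    · have h2 : ¬ G.Adj v y := fun h2 => h ⟨h1, h2⟩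
      rw [(a_eq_zero G).2 h2]; ring
    · rw [(a_eq_zero G).2 h1]; ring

lemma nb_XX (u v : V) (huv : u ≠ v) :
    ∑ y, a G v y * b G u y = (XX ![u, v] ![false, true] G : ℚ) := by
  apply XX_eq ![u, v] ![false, true] G (fun y => G.Adj v y ∧ (u ≠ y ∧ ¬ G.Adj u y))
  · intro y
    simp only [Set.mem_range, Fin.exists_fin_two, Fin.forall_fin_two, Matrix.cons_val_zero,
      Matrix.cons_val_one, iff_true, not_or, Bool.false_eq_true, iff_false]
    constructor
    · rintro ⟨⟨h3, _⟩, h1, h2⟩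
      exact ⟨h2.symm, h3, fun h => h1 h.symm⟩
    · rintro ⟨h1, h2, h3⟩
      exact ⟨⟨h2, h1.ne⟩, fun h => h3 h.symm, h1.symm⟩
  · rintro y ⟨h1, h2⟩
    rw [(a_eq_one G).2 h1, (b_eq_one G).2 h2]; ring
  · intro y h
    by_cases h1 : G.Adj v y
    · have h2 : ¬ (u ≠ y ∧ ¬ G.Adj u y) := fun h2 => h ⟨h1, h2⟩
      have : b G u y = 0 := by
        rcases b_zo G u y with h3 | h3
        · exact h3
        · exact absurd ((b_eq_one G).1 h3) h2
      rw [this]; ring
    · rw [(a_eq_zero G).2 h1]; ring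

lemma z_XX (u v x y : V) :
    ∑ z, a G z u * a G z v * (b G x z * b G y z) =
      (XX ![u, v, x, y] ![true, true, false, false] G : ℚ) := by
  apply XX_eq ![u, v, x, y] ![true, true, false, false] G
    (fun z => G.Adj z u ∧ G.Adj z v ∧ (x ≠ z ∧ ¬ G.Adj x z) ∧ (y ≠ z ∧ ¬ G.Adj y z))
  · intro z
    have hr : z ∉ Set.range ![u, v, x, y] ↔ (u ≠ z ∧ v ≠ z ∧ x ≠ z ∧ y ≠ z) := by
      simp only [Set.mem_range, not_exists]
      simp [Fin.forall_fin_succ]
    have hA : (∀ i, (G.Adj z (![u, v, x, y] i) ↔ ![true, true, false, false] i = true)) ↔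
        (G.Adj z u ∧ G.Adj z v ∧ ¬ G.Adj z x ∧ ¬ G.Adj z y) := by
      simp [Fin.forall_fin_succ]
    rw [hr, hA]
    constructor
    · rintro ⟨⟨_, _, h1, h2⟩, h3, h4, h5, h6⟩
      exact ⟨h3, h4, ⟨h1, fun h => h5 h.symm⟩, ⟨h2, fun h => h6 h.symm⟩⟩
    · rintro ⟨h3, h4, ⟨h1, h5⟩, ⟨h2, h6⟩⟩
      exact ⟨⟨h3.ne', h4.ne', h1, h2⟩, h3, h4, fun h => h5 h.symm, fun h => h6 h.symm⟩
  · rintro z ⟨h1, h2, h3, h4⟩
    rw [(a_eq_one G).2 h1, (a_eq_one G).2 h2, (b_eq_one G).2 h3, (b_eq_one G).2 h4]; ring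
  · intro z h
    rcases a_zo G z u with h1 | h1
    · rw [h1]; ring
    rcases a_zo G z v with h2 | h2
    · rw [h2]; ring
    rcases b_zo G x z with h3 | h3
    · rw [h3]; ring
    rcases b_zo G y z with h4 | h4
    · rw [h4]; ring
    exact absurd ⟨(a_eq_one G).1 h1, (a_eq_one G).1 h2, (b_eq_one G).1 h3, (b_eq_one G).1 h4⟩ h

end extract

section final

variable {n : ℕ} (G : SimpleGraph (Fin n)) [DecidableRel G.Adj]

lemma card_ZZ {j : ℕ} (s : Fin j → Fin n) (hs : Function.Injective s) :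
    (Fintype.card (ZZ s) : ℝ) = (n : ℝ) - j := by
  classical
  have h1 : Fintype.card (ZZ s) = Fintype.card (Fin n) - Fintype.card {z // z ∈ Set.range s} :=
    Fintype.card_subtype_compl _
  have h2 : Fintype.card {z // z ∈ Set.range s} = j := by
    have := Set.card_range_of_injective hs
    rw [Fintype.card_fin] at this
    refine Eq.trans ?_ this
    exact Fintype.card_congr (Equiv.refl _)
  have h3 : j ≤ n := by
    have := Fintype.card_le_of_injective s hs
    simpa using this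
  rw [h1, h2, Fintype.card_fin, Nat.cast_sub h3]

lemma near {j : ℕ} (h : ¬ ∃ s : Fin j → Fin n, Function.Injective s ∧ ∃ p, Dev (1 / (2 * 10 ^ 8)) s p G)
    (s : Fin j → Fin n) (hs : Function.Injective s) (p : Fin j → Bool) :
    |(XX s p G : ℚ) - ((n : ℚ) - j) / 2 ^ j| < 1 / (2 * 10 ^ 8) * (n : ℚ) := by
  have h1 : ¬ Dev (1 / (2 * 10 ^ 8)) s p G := fun h2 => h ⟨s, hs, p, h2⟩
  unfold Dev at h1
  rw [not_le, card_ZZ s hs, Fintype.card_fin] at h1
  have h2 : ((|(XX s p G : ℚ) - ((n : ℚ) - j) / 2 ^ j| : ℚ) : ℝ) <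
      ((1 / (2 * 10 ^ 8) * (n : ℚ) : ℚ) : ℝ) := by
    push_cast
    exact h1
  exact_mod_cast h2

lemma inj2 {x y : Fin n} (h : x ≠ y) : Function.Injective ![x, y] := by
  intro i k hik
  fin_cases i <;> fin_cases k <;> simp_all

lemma inj4 {u v x y : Fin n} (h1 : u ≠ v) (h2 : u ≠ x) (h3 : u ≠ y) (h4 : v ≠ x) (h5 : v ≠ y)
    (h6 : x ≠ y) : Function.Injective ![u, v, x, y] := by
  intro i k hik
  fin_cases i <;> fin_cases k <;> simp_all

theorem good_of (hn : 10 ^ 8 ≤ n)
    (h2 : ¬ ∃ s : Fin 2 → Fin n, Function.Injective s ∧ ∃ p, Dev (1 / (2 * 10 ^ 8)) s p G)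
    (h4 : ¬ ∃ s : Fin 4 → Fin n, Function.Injective s ∧ ∃ p, Dev (1 / (2 * 10 ^ 8)) s p G) :
    ∃ m k : ℕ, 1 ≤ m ∧ 1 ≤ k ∧
        ∃ P : ∀ u v : Fin n, Fin k → G.Walk u v,
          (∀ u v : Fin n, u < v → ∀ t : Fin k,
              (P u v t).IsPath ∧ (P u v t).length = G.dist u v) ∧
          (∀ e ∈ G.edgeSet,
              ∑ u : Fin n, ∑ v ∈ Finset.univ.filter (fun v => u < v), ∑ t : Fin k,
                (P u v t).edges.count e = m) := by
  have hnq : (10 : ℚ) ^ 8 ≤ (n : ℚ) := by exact_mod_cast hn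
  have hn0 : (0 : ℚ) < (n : ℚ) := by linarith [show (0:ℚ) < 10 ^ 8 by norm_num]
  have hnq' : (100000000 : ℚ) ≤ (n : ℚ) := by
    refine le_trans (le_of_eq ?_) hnq
    norm_num
  have hcard : (Fintype.card (Fin n) : ℚ) = n := by rw [Fintype.card_fin]
  have hc : ∀ x y, x ≠ y → |cd G x y - (n : ℚ) / 4| ≤ (1 / 10 ^ 8) * (n : ℚ) := by
    intro x y hxy
    have h5 := abs_lt.1 (near G h2 ![x, y] (inj2 hxy) ![true, true])
    rw [← cd_XX] at h5
    norm_num at h5 ⊢
    rw [abs_le]
    constructor <;> linarith [h5.1, h5.2]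
  have hnb : ∀ u v, u ≠ v → |(∑ y, a G v y * b G u y) - (n : ℚ) / 4| ≤ (1 / 10 ^ 8) * (n : ℚ) := by
    intro u v huv
    have h5 := abs_lt.1 (near G h2 ![u, v] (inj2 huv) ![false, true])
    rw [← nb_XX G u v huv] at h5
    norm_num at h5 ⊢
    rw [abs_le]
    constructor <;> linarith [h5.1, h5.2]
  have hd : ∀ x, (n : ℚ) / 4 ≤ dg G x := by
    intro v
    obtain ⟨u, huv⟩ : ∃ u : Fin n, u ≠ v := by
      haveI : Nontrivial (Fin n) := Fin.nontrivial_iff_two_le.2 (by omega)
      exact exists_ne v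
    have h5 := (abs_le.1 (hc u v huv)).1
    have h6 := (abs_le.1 (hnb u v huv)).1
    have h7 : cd G u v + ∑ y, a G v y * b G u y ≤ dg G v := by
      unfold cd dg
      rw [← Finset.sum_add_distrib]
      apply Finset.sum_le_sum
      intro y _
      rw [a_symm G y v]
      rcases a_zo G v y with h8 | h8
      · rw [h8]; simp
      · rw [h8]
        by_cases h9 : G.Adj u y
        · have : b G u y = 0 := by unfold b; simp [h9]
          rw [this]
          have := a_le G u y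
          linarith
        · rw [(a_eq_zero G).2 h9]
          have := b_le G u y
          linarith
    norm_num at h5 h6 ⊢
    linarith
  have hz : ∀ u v x y, u ≠ v → u ≠ x → u ≠ y → v ≠ x → v ≠ y → x ≠ y →
      (n : ℚ) / 32 ≤ ∑ z, a G z u * a G z v * (b G x z * b G y z) := by
    intro u v x y g1 g2 g3 g4 g5 g6
    have h5 := (abs_lt.1 (near G h4 ![u, v, x, y] (inj4 g1 g2 g3 g4 g5 g6) ![true, true, false, false])).1
    rw [← z_XX] at h5
    norm_num at h5 ⊢
    linarith
  have hN : ∀ x u v, u ≠ v → G.Adj x u → G.Adj x v → (n : ℚ) ^ 2 / 1024 ≤ NN G x u v := by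
    intro x u v huv hxu hxv
    have e1 : NN G x u v = ∑ y, (a G y u * a G y v * b G x y) *
        ∑ z, a G z u * a G z v * (b G x z * b G y z) := by
      unfold NN chi
      apply Finset.sum_congr rfl
      intro y _
      rw [Finset.mul_sum]
      apply Finset.sum_congr rfl
      intro z _
      rw [(a_eq_one G).2 hxu, (a_eq_one G).2 hxv]
      ring
    have h5 : ∀ y, (a G y u * a G y v * b G x y) * ((n : ℚ) / 32) ≤
        (a G y u * a G y v * b G x y) * ∑ z, a G z u * a G z v * (b G x z * b G y z) := by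
      intro y
      rcases a_zo G y u with g1 | g1
      · rw [g1]; simp
      rcases a_zo G y v with g2 | g2
      · rw [g2]; simp
      rcases b_zo G x y with g3 | g3
      · rw [g3]; simp
      have k1 := (a_eq_one G).1 g1
      have k2 := (a_eq_one G).1 g2
      have k3 := ((b_eq_one G).1 g3).1
      rw [g1, g2, g3]
      have := hz u v x y huv hxu.ne' k1.ne' hxv.ne' k2.ne' k3
      linarith
    obtain ⟨y0, hy0⟩ : ∃ y0 : Fin n, y0 ∉ ({u, v, x} : Finset (Fin n)) := by
      by_contra hcon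
      push Not at hcon
      have h6 : Fintype.card (Fin n) ≤ ({u, v, x} : Finset (Fin n)).card := by
        rw [← Finset.card_univ]
        exact Finset.card_le_card (fun y _ => hcon y)
      have h7 := Finset.card_le_three (a := u) (b := v) (c := x)
      rw [Fintype.card_fin] at h6
      omega
    simp only [Finset.mem_insert, Finset.mem_singleton, not_or] at hy0
    obtain ⟨k1, k2, k3⟩ := hy0
    have h6 : (n : ℚ) / 32 ≤ ∑ y, a G y u * a G y v * b G x y := by
      refine (hz u v x y0 huv hxu.ne' (Ne.symm k1) hxv.ne' (Ne.symm k2) (Ne.symm k3)).trans ?_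
      apply Finset.sum_le_sum
      intro y _
      have g0 := mul_nonneg (a_nonneg G y u) (a_nonneg G y v)
      have g1 := b_nonneg G x y
      have g2 := b_le G y0 y
      have g3 : b G x y * b G y0 y ≤ b G x y := by
        calc b G x y * b G y0 y ≤ b G x y * 1 := mul_le_mul_of_nonneg_left g2 g1
          _ = _ := by ring
      exact mul_le_mul_of_nonneg_left g3 g0
    rw [e1]
    calc (n : ℚ) ^ 2 / 1024 = (n : ℚ) / 32 * ((n : ℚ) / 32) := by ring
      _ ≤ (∑ y, a G y u * a G y v * b G x y) * ((n : ℚ) / 32) :=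
          mul_le_mul_of_nonneg_right h6 (by positivity)
      _ ≤ _ := by
          rw [Finset.sum_mul]
          exact Finset.sum_le_sum (fun y _ => h5 y)
  have hw := weights G (by rw [hcard]; exact hn0) (by rw [hcard]; exact hc) (by rw [hcard]; exact hnb)
    (by rw [hcard]; exact hd) (by rw [hcard]; exact hN)
  obtain ⟨w, hw0, hws, hwa, hw1, L, hL⟩ := hw
  -- an edge
  obtain ⟨a0, b0, hab⟩ : ∃ a0 b0, G.Adj a0 b0 := by
    have x : Fin n := ⟨0, by omega⟩
    have h5 := hd x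
    by_contra hcon
    push Not at hcon
    have h6 : dg G x = 0 := by
      unfold dg
      apply Finset.sum_eq_zero
      intro v _
      exact (a_eq_zero G).2 (hcon x v)
    rw [h6] at h5
    linarith
  exact paths G a0 b0 hab w hw0 hws hwa hw1 L hL

end final

end Pool.Agent.H26.EPR
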