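import Pool.Agent.H26.EPR6

set_option autoImplicit false

namespace Pool.Agent.H26.EPR

def Good (n : ℕ) (G : SimpleGraph (Fin n)) : Prop :=
    ∃ m k : ℕ, 1 ≤ m ∧ 1 ≤ k ∧
        ∃ P : ∀ u v : Fin n, Fin k → G.Walk u v,
          (∀ u v : Fin n, u < v → ∀ t : Fin k,
              (P u v t).IsPath ∧ (P u v t).length = G.dist u v) ∧
          (∀ e ∈ G.edgeSet,
              ∑ u : Fin n, ∑ v ∈ Finset.univ.filter (fun v => u < v), ∑ t : Fin k,
                (P u v t).edges.count e = m)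

lemma tend (c : ℝ) (hc : 0 < c) (k : ℕ) :
    Filter.Tendsto (fun n : ℕ => (n : ℝ) ^ k * Real.exp (-(c * n))) Filter.atTop (nhds 0) := by
  have h1 := Real.tendsto_pow_mul_exp_neg_atTop_nhds_zero k
  have h2 : Filter.Tendsto (fun n : ℕ => c * (n : ℝ)) Filter.atTop Filter.atTop :=
    Filter.Tendsto.const_mul_atTop hc tendsto_natCast_atTop_atTop
  have h3 := (h1.comp h2).const_mul (c ^ k)⁻¹
  rw [mul_zero] at h3
  refine h3.congr (fun n => ?_)
  simp only [Function.comp]
  rw [mul_pow]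
  have : c ^ k ≠ 0 := by positivity
  field_simp

open Classical in
lemma lower (n : ℕ) (hn : 10 ^ 8 ≤ n) (c : ℝ) (hc : c = (1 / (2 * 10 ^ 8)) ^ 2 / 4) :
    1 - (8 * ((n : ℝ) ^ 2 * Real.exp (-(c * n))) + 32 * ((n : ℝ) ^ 4 * Real.exp (-(c * n)))) ≤
      (Nat.card {G : SimpleGraph (Fin n) // Good n G} : ℝ) / (2 : ℝ) ^ (n.choose 2) := by
  have hK : (Fintype.card (SimpleGraph (Fin n)) : ℝ) = (2 : ℝ) ^ (n.choose 2) := by
    rw [card_graphs]; push_cast; rfl
  have h2 := bad_card (V := Fin n) (1 / (2 * 10 ^ 8)) (by positivity) (by norm_num) 2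
  have h4 := bad_card (V := Fin n) (1 / (2 * 10 ^ 8)) (by positivity) (by norm_num) 4
  rw [hK, Fintype.card_fin, ← hc] at h2 h4
  have hpos : (0 : ℝ) < (2 : ℝ) ^ (n.choose 2) := by positivity
  have h5 : (Nat.card {G : SimpleGraph (Fin n) // Good n G} : ℝ) =
      ((Finset.univ.filter (fun G : SimpleGraph (Fin n) => Good n G)).card : ℝ) := by
    rw [Nat.card_eq_fintype_card, Fintype.card_subtype]
  have h6 : ((Finset.univ.filter (fun G : SimpleGraph (Fin n) => Good n G)).card : ℝ) +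
      ((Finset.univ.filter (fun G : SimpleGraph (Fin n) => ¬ Good n G)).card : ℝ) =
      (2 : ℝ) ^ (n.choose 2) := by
    rw [← hK]
    have := Finset.card_filter_add_card_filter_not (s := (Finset.univ : Finset (SimpleGraph (Fin n))))
      (fun G => Good n G)
    rw [Finset.card_univ] at this
    exact_mod_cast this
  have h7 : ((Finset.univ.filter (fun G : SimpleGraph (Fin n) => ¬ Good n G)).card : ℝ) ≤
      ((Finset.univ.filter (fun G : SimpleGraph (Fin n) =>
      ∃ s : Fin 2 → Fin n, Function.Injective s ∧ ∃ p, Dev (1 / (2 * 10 ^ 8)) s p G)).card : ℝ) +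
      ((Finset.univ.filter (fun G : SimpleGraph (Fin n) =>
      ∃ s : Fin 4 → Fin n, Function.Injective s ∧ ∃ p, Dev (1 / (2 * 10 ^ 8)) s p G)).card : ℝ) := by
    have hsub : Finset.univ.filter (fun G : SimpleGraph (Fin n) => ¬ Good n G) ⊆
        Finset.univ.filter (fun G : SimpleGraph (Fin n) =>
      ∃ s : Fin 2 → Fin n, Function.Injective s ∧ ∃ p, Dev (1 / (2 * 10 ^ 8)) s p G) ∪
      Finset.univ.filter (fun G : SimpleGraph (Fin n) =>
      ∃ s : Fin 4 → Fin n, Function.Injective s ∧ ∃ p, Dev (1 / (2 * 10 ^ 8)) s p G) := by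
      intro G hG
      rw [Finset.mem_filter] at hG
      rw [Finset.mem_union, Finset.mem_filter, Finset.mem_filter]
      by_contra hcon
      push Not at hcon
      obtain ⟨k1, k2⟩ := hcon
      apply hG.2
      apply good_of G hn
      · intro h; exact absurd h (by push Not; exact k1 (Finset.mem_univ _))
      · intro h; exact absurd h (by push Not; exact k2 (Finset.mem_univ _))
    exact_mod_cast (Finset.card_le_card hsub).trans (Finset.card_union_le _ _)
  rw [le_div_iff₀ hpos, h5]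
  have h8 := h7.trans (add_le_add h2 h4)
  have e : ((2 : ℝ) ^ (n.choose 2)) -
    ((n : ℝ) ^ 2 * 2 ^ 2 * (2 * (2 : ℝ) ^ (n.choose 2) * Real.exp (-(c * n))) +
      (n : ℝ) ^ 4 * 2 ^ 4 * (2 * (2 : ℝ) ^ (n.choose 2) * Real.exp (-(c * n)))) =
      (1 - (8 * ((n : ℝ) ^ 2 * Real.exp (-(c * n))) + 32 * ((n : ℝ) ^ 4 * Real.exp (-(c * n))))) *
      (2 : ℝ) ^ (n.choose 2) := by ring
  rw [← e]
  linarith

open Classical in
theorem main : Filter.Tendsto (fun n : ℕ =>
      (Nat.card {G : SimpleGraph (Fin n) // Good n G} : ℝ) / (2 : ℝ) ^ (n.choose 2))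
      Filter.atTop (nhds 1) := by
  set c : ℝ := (1 / (2 * 10 ^ 8)) ^ 2 / 4 with hc
  have hc0 : 0 < c := by rw [hc]; positivity
  have h1 : Filter.Tendsto (fun n : ℕ => 1 - (8 * ((n : ℝ) ^ 2 * Real.exp (-(c * n))) +
      32 * ((n : ℝ) ^ 4 * Real.exp (-(c * n))))) Filter.atTop (nhds 1) := by
    have h2 := ((tend c hc0 2).const_mul 8).add ((tend c hc0 4).const_mul 32)
    have h3 := h2.const_sub 1
    simpa using h3
  refine tendsto_of_tendsto_of_tendsto_of_le_of_le' h1 tendsto_const_nhds ?_ ?_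
  · filter_upwards [Filter.eventually_ge_atTop (10 ^ 8)] with n hn
    exact lower n hn c hc
  · filter_upwards with n
    rw [div_le_one (by positivity)]
    have hK : (Fintype.card (SimpleGraph (Fin n)) : ℝ) = (2 : ℝ) ^ (n.choose 2) := by
      rw [card_graphs]; push_cast; rfl
    rw [← hK, Nat.card_eq_fintype_card]
    exact_mod_cast Fintype.card_subtype_le _

end Pool.Agent.H26.EPR
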