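import Mathlib

set_option autoImplicit false

namespace Pool.Agent.H26.Ec

/-- `End(S)` is cancellative under the pointwise product -/
def EndCancel (S : Type) [CommSemigroup S] : Prop :=
  ∀ f g h : S →ₙ* S, f * g = f * h → g = h

/-- `S` is cancellative -/
def Cancel (S : Type) [CommSemigroup S] : Prop :=
  ∀ a b c : S, a * b = a * c → b = c

/-- the underlying set of `⟨a, s | a s = a⟩`: `pa i` is `a^(i+1)`, `ps j` is `s^(j+1)` -/
inductive Ex : Type
  | pa : ℕ → Ex
  | ps : ℕ → Ex

/-- the product of `⟨a, s | a s = a⟩` -/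
def Ex.mul : Ex → Ex → Ex
  | .pa i, .pa j => .pa (i + j + 1)
  | .pa i, .ps _ => .pa i
  | .ps _, .pa j => .pa j
  | .ps i, .ps j => .ps (i + j + 1)

instance : CommSemigroup Ex where
  mul := Ex.mul
  mul_assoc := by
    intro x y z
    cases x <;> cases y <;> cases z <;>
      simp only [HMul.hMul, Ex.mul, Ex.pa.injEq, Ex.ps.injEq] <;> omega
  mul_comm := by
    intro x y
    cases x <;> cases y <;>
      simp only [HMul.hMul, Ex.mul, Ex.pa.injEq, Ex.ps.injEq] <;> omega

end Pool.Agent.H26.Ec
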