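import Pool.Agent.H26.EcDefs

set_option autoImplicit false

namespace Pool.Agent.H26.Ec

theorem cancel_end {S : Type} [CommSemigroup S] (h : Cancel S) : EndCancel S := by
  intro f g k hfg
  apply MulHom.ext
  intro x
  exact h (f x) _ _ (congrArg (fun F : S →ₙ* S => F x) hfg)

/-- constant endomorphism -/
def cst {S : Type} [CommSemigroup S] (e : S) (he : e * e = e) : S →ₙ* S where
  toFun := fun _ => e
  map_mul' := fun _ _ => he.symm

theorem idem_one {S : Type} [CommSemigroup S] (h : EndCancel S) (e : S) (he : e * e = e) (x : S) :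
    e * x = x := by
  have h1 : cst e he * (cst e he * MulHom.id S) = cst e he * MulHom.id S := by
    apply MulHom.ext
    intro y
    show e * (e * y) = e * y
    rw [← mul_assoc, he]
  have h2 := h _ _ _ h1
  exact congrArg (fun F : S →ₙ* S => F x) h2

theorem periodic_iff {S : Type} [CommSemigroup S]
    (hp : ∀ x : S, ∃ y : S, (x * y) * (x * y) = x * y) :
    EndCancel S ↔ ∀ a b : S, ∃ x : S, a * x = b := by
  constructor
  · intro h a b
    obtain ⟨y, hy⟩ := hp a
    refine ⟨y * b, ?_⟩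
    rw [← mul_assoc]
    exact idem_one h _ hy b
  · intro hd
    apply cancel_end
    intro a b c habc
    obtain ⟨e, he⟩ := hd a a
    have h1 : ∀ z : S, e * z = z := by
      intro z
      obtain ⟨w, hw⟩ := hd a z
      rw [← hw, ← mul_assoc, mul_comm e a, he]
    obtain ⟨a', ha'⟩ := hd a e
    have h2 : a' * (a * b) = a' * (a * c) := by rw [habc]
    rw [← mul_assoc, ← mul_assoc, mul_comm a' a, ha', h1, h1] at h2
    exact h2

/-- `pw a n = a^(n+1)` -/
def pw {S : Type} [CommSemigroup S] (a : S) : ℕ → S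
  | 0 => a
  | n + 1 => pw a n * a

theorem pw_add {S : Type} [CommSemigroup S] (a : S) (m n : ℕ) :
    pw a (m + n + 1) = pw a m * pw a n := by
  induction n with
  | zero => rfl
  | succ n ih =>
    show pw a (m + n + 1) * a = pw a m * (pw a n * a)
    rw [ih, mul_assoc]

theorem pw_mul {S : Type} [CommSemigroup S] (a b : S) (n : ℕ) :
    pw (a * b) n = pw a n * pw b n := by
  induction n with
  | zero => rfl
  | succ n ih =>
    show pw (a * b) n * (a * b) = (pw a n * a) * (pw b n * b)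
    rw [ih]
    exact mul_mul_mul_comm _ _ _ _

theorem graded_iff {S : Type} [CommSemigroup S] (l : S → ℕ) (hl : ∀ x y, l (x * y) = l x + l y)
    (hpos : ∀ x, 0 < l x) (x₀ : S) (hx₀ : l x₀ = 1) : EndCancel S ↔ Cancel S := by
  refine ⟨?_, cancel_end⟩
  intro h a b c habc
  let ε : S → (S →ₙ* S) := fun a =>
    { toFun := fun x => pw a (l x - 1)
      map_mul' := fun x y => by
        rw [← pw_add, hl]
        congr 1
        have := hpos x
        have := hpos y
        omega }
  have hε : ∀ a b, ε (a * b) = ε a * ε b := by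
    intro a b
    apply MulHom.ext
    intro x
    exact pw_mul a b _
  have h1 : ε a * ε b = ε a * ε c := by rw [← hε, ← hε, habc]
  have h2 := congrArg (fun F : S →ₙ* S => F x₀) (h _ _ _ h1)
  have h3 : pw b (l x₀ - 1) = pw c (l x₀ - 1) := h2
  rw [hx₀] at h3
  exact h3

theorem monoid_iff {M : Type} [CommMonoid M] (l : M → ℕ) (hl : ∀ x y, l (x * y) = l x + l y)
    (x₀ : M) (hx₀ : l x₀ = 1) : EndCancel M ↔ Cancel M := by
  refine ⟨?_, cancel_end⟩
  intro h a b c habc
  let ε : M → (M →ₙ* M) := fun a =>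
    { toFun := fun x => a ^ (l x)
      map_mul' := fun x y => by rw [hl, pow_add] }
  have hε : ∀ a b, ε (a * b) = ε a * ε b := by
    intro a b
    apply MulHom.ext
    intro x
    exact mul_pow a b _
  have h1 : ε a * ε b = ε a * ε c := by rw [← hε, ← hε, habc]
  have h2 := congrArg (fun F : M →ₙ* M => F x₀) (h _ _ _ h1)
  have h3 : b ^ (l x₀) = c ^ (l x₀) := h2
  rw [hx₀, pow_one, pow_one] at h3
  exact h3

theorem ex_mul_aa (i j : ℕ) : Ex.pa i * Ex.pa j = Ex.pa (i + j + 1) := rfl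
theorem ex_mul_as (i j : ℕ) : Ex.pa i * Ex.ps j = Ex.pa i := rfl
theorem ex_mul_sa (i j : ℕ) : Ex.ps i * Ex.pa j = Ex.pa j := rfl
theorem ex_mul_ss (i j : ℕ) : Ex.ps i * Ex.ps j = Ex.ps (i + j + 1) := rfl

theorem ex_form (f : Ex →ₙ* Ex) : ∃ i j : ℕ, f (Ex.pa 0) = Ex.pa i ∧ f (Ex.ps 0) = Ex.ps j := by
  have h : f (Ex.pa 0) * f (Ex.ps 0) = f (Ex.pa 0) := by
    rw [← map_mul, ex_mul_as]
  cases ha : f (Ex.pa 0) with
  | pa i =>
    cases hs : f (Ex.ps 0) with
    | pa k =>
      rw [ha, hs, ex_mul_aa] at h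
      simp only [Ex.pa.injEq] at h
      omega
    | ps j => exact ⟨i, j, rfl, rfl⟩
  | ps i =>
    cases hs : f (Ex.ps 0) with
    | pa k =>
      rw [ha, hs, ex_mul_sa] at h
      exact absurd h (by simp)
    | ps j =>
      rw [ha, hs, ex_mul_ss] at h
      simp only [Ex.ps.injEq] at h
      omega

theorem ex_endCancel : EndCancel Ex := by
  intro f g h hfg
  obtain ⟨i, j, hi, hj⟩ := ex_form f
  obtain ⟨i', j', hi', hj'⟩ := ex_form g
  obtain ⟨i'', j'', hi'', hj''⟩ := ex_form h
  have ha : f (Ex.pa 0) * g (Ex.pa 0) = f (Ex.pa 0) * h (Ex.pa 0) :=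
    congrArg (fun F : Ex →ₙ* Ex => F (Ex.pa 0)) hfg
  have hs : f (Ex.ps 0) * g (Ex.ps 0) = f (Ex.ps 0) * h (Ex.ps 0) :=
    congrArg (fun F : Ex →ₙ* Ex => F (Ex.ps 0)) hfg
  rw [hi, hi', hi'', ex_mul_aa, ex_mul_aa, Ex.pa.injEq] at ha
  rw [hj, hj', hj'', ex_mul_ss, ex_mul_ss, Ex.ps.injEq] at hs
  have e1 : g (Ex.pa 0) = h (Ex.pa 0) := by rw [hi', hi'']; congr 1; omega
  have e2 : g (Ex.ps 0) = h (Ex.ps 0) := by rw [hj', hj'']; congr 1; omega
  apply MulHom.ext
  intro x
  cases x with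
  | pa n =>
    induction n with
    | zero => exact e1
    | succ n ih =>
      have : Ex.pa (n + 1) = Ex.pa n * Ex.pa 0 := rfl
      rw [this, map_mul, map_mul, ih, e1]
  | ps n =>
    induction n with
    | zero => exact e2
    | succ n ih =>
      have : Ex.ps (n + 1) = Ex.ps n * Ex.ps 0 := rfl
      rw [this, map_mul, map_mul, ih, e2]

theorem ex_not_cancel : ¬ Cancel Ex := by
  intro h
  have := h (Ex.pa 0) (Ex.ps 0) (Ex.ps 1) rfl
  simp at this

end Pool.Agent.H26.Ec
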