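import Mathlib

set_option autoImplicit false
set_option linter.unusedSectionVars false

namespace Pool.Agent.H26.Rub

/-! ### group-theoretic description of rigid stabilisers -/

section grp

variable {Γ Γ' : Type*} [Group Γ] [Group Γ']

def USet (π : Γ) : Set Γ :=
  {φ | φ * π = π * φ ∧ φ * φ = 1 ∧ ∀ ψ, ψ * π = π * ψ → φ * (ψ * φ * ψ⁻¹) = (ψ * φ * ψ⁻¹) * φ}

def VSet (π : Γ) : Set Γ := {φ | ∀ u ∈ USet π, φ * u = u * φ}

def WSet (π : Γ) : Set Γ := {φ | ∀ v ∈ VSet π, φ * (v * v) = (v * v) * φ}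

lemma USet_map (Φ : Γ ≃* Γ') (π φ : Γ) (h : φ ∈ USet π) : Φ φ ∈ USet (Φ π) := by
  obtain ⟨h1, h2, h3⟩ := h
  refine ⟨by rw [← map_mul, h1, map_mul], by rw [← map_mul, h2, map_one], ?_⟩
  intro ψ hψ
  have h4 : Φ.symm ψ * π = π * Φ.symm ψ := by
    apply Φ.injective
    rw [map_mul, map_mul, Φ.apply_symm_apply, hψ]
  have h5 := congrArg Φ (h3 _ h4)
  simpa [map_mul, map_inv] using h5

lemma USet_map_iff (Φ : Γ ≃* Γ') (π φ : Γ) : φ ∈ USet π ↔ Φ φ ∈ USet (Φ π) := by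
  refine ⟨USet_map Φ π φ, fun h => ?_⟩
  have := USet_map Φ.symm _ _ h
  simpa using this

lemma VSet_map (Φ : Γ ≃* Γ') (π φ : Γ) (h : φ ∈ VSet π) : Φ φ ∈ VSet (Φ π) := by
  intro u hu
  obtain ⟨u, rfl⟩ := Φ.surjective u
  rw [← map_mul, ← map_mul, h u ((USet_map_iff Φ π u).2 hu)]

lemma VSet_map_iff (Φ : Γ ≃* Γ') (π φ : Γ) : φ ∈ VSet π ↔ Φ φ ∈ VSet (Φ π) := by
  refine ⟨VSet_map Φ π φ, fun h => ?_⟩
  have := VSet_map Φ.symm _ _ h
  simpa using this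

lemma WSet_map (Φ : Γ ≃* Γ') (π φ : Γ) (h : φ ∈ WSet π) : Φ φ ∈ WSet (Φ π) := by
  intro u hu
  obtain ⟨u, rfl⟩ := Φ.surjective u
  rw [← map_mul, ← map_mul, ← map_mul, h u ((VSet_map_iff Φ π u).2 hu)]

lemma WSet_map_iff (Φ : Γ ≃* Γ') (π φ : Γ) : φ ∈ WSet π ↔ Φ φ ∈ WSet (Φ π) := by
  refine ⟨WSet_map Φ π φ, fun h => ?_⟩
  have := WSet_map Φ.symm _ _ h
  simpa using this

end grp

/-! ### actions with many elements of small support -/

structure Ax (Γ X : Type*) [Group Γ] [MulAction Γ X] (A : Set (Set X)) : Prop where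
  faithful : ∀ g h : Γ, (∀ x : X, g • x = h • x) → g = h
  inter : ∀ U ∈ A, ∀ V ∈ A, U ∩ V ∈ A
  compl : ∀ U ∈ A, Uᶜ ∈ A
  pre : ∀ g : Γ, ∀ U ∈ A, {x : X | g • x ∈ U} ∈ A
  move : ∀ g : Γ, ∀ x : X, g • x ≠ x → ∃ U ∈ A, x ∈ U ∧ ∀ y ∈ U, g • y ∉ U
  sq : ∀ U ∈ A, U.Nonempty → ∃ ψ : Γ, (∀ y ∉ U, ψ • y = y) ∧ ∃ y : X, ψ • ψ • y ≠ y
  inv : ∀ U ∈ A, ∃ π : Γ, (∀ x : X, π • π • x = x) ∧ ∀ x : X, π • x ≠ x ↔ x ∈ U
  supp : ∀ π : Γ, (∀ x : X, π • π • x = x) → {x : X | π • x ≠ x} ∈ A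
  restr : ∀ π : Γ, (∀ x : X, π • π • x = x) → ∀ U ∈ A, (∀ x ∈ U, π • x ∈ U) →
    ∃ ρ : Γ, (∀ x ∈ U, ρ • x = π • x) ∧ ∀ x ∉ U, ρ • x = x
  sep : ∀ x y : X, x ≠ y → ∃ U ∈ A, x ∈ U ∧ y ∉ U

section act

variable {Γ X : Type*} [Group Γ] [MulAction Γ X] {A : Set (Set X)} (ax : Ax Γ X A)

include ax

lemma comm_of_disj (g h : Γ) (H : ∀ x : X, g • x = x ∨ h • x = x) : g * h = h * g := by
  apply ax.faithful
  intro x
  rw [mul_smul, mul_smul]
  by_cases h1 : h • x = x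
  · rw [h1]
    by_cases h2 : g • x = x
    · rw [h2, h1]
    · rcases H (g • x) with h3 | h3
      · exact absurd (MulAction.injective g h3) h2
      · exact h3.symm
  · have h2 : g • x = x := (H x).resolve_right h1
    rw [h2]
    rcases H (h • x) with h3 | h3
    · exact h3
    · exact absurd (MulAction.injective h h3) h1

lemma one_of (g : Γ) (h : ∀ x : X, g • x = x) : g = 1 :=
  ax.faithful _ _ (fun x => by rw [h, one_smul])

lemma inv_pt {π : Γ} (hπ : π * π = 1) (x : X) : π • π • x = x := by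
  rw [← mul_smul, hπ, one_smul]

lemma union_mem {U V : Set X} (hU : U ∈ A) (hV : V ∈ A) : U ∪ V ∈ A := by
  have := ax.compl _ (ax.inter _ (ax.compl _ hU) _ (ax.compl _ hV))
  rwa [Set.compl_inter, compl_compl, compl_compl] at this

lemma fix_mem {π : Γ} (hπ : π * π = 1) : {x : X | π • x = x} ∈ A := by
  have := ax.compl _ (ax.supp π (inv_pt ax hπ))
  convert this using 1
  ext x
  simp

/-- the key test: an element moving a point of a set -/
lemma test_sq {U : Set X} {ψ : Γ} (hψ : ∀ y ∉ U, ψ • y = y) {y : X} (hy : ψ • ψ • y ≠ y) :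
    y ∈ U ∧ ψ⁻¹ • y ∈ U := by
  have h1 : y ∈ U := by
    by_contra h
    rw [hψ y h, hψ y h] at hy
    exact hy rfl
  refine ⟨h1, ?_⟩
  by_contra h
  have := hψ _ h
  rw [smul_inv_smul] at this
  rw [← this] at h
  exact h h1

lemma lemA {π u : Γ} (hπ : π * π = 1) (hu : u ∈ USet π) (x : X) (hx : π • x = x) :
    u • x = x := by
  by_contra hne
  obtain ⟨h1, h2, h3⟩ := hu
  obtain ⟨U1, hU1, hxU1, hm⟩ := ax.move u x hne
  have hU : U1 ∩ {x : X | π • x = x} ∈ A := ax.inter _ hU1 _ (fix_mem ax hπ)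
  obtain ⟨ψ, hψ, y, hy⟩ := ax.sq _ hU ⟨x, hxU1, hx⟩
  obtain ⟨hyU, hyU'⟩ := test_sq ax hψ hy
  have hcomm : ψ * π = π * ψ := by
    apply comm_of_disj ax
    intro z
    by_cases hz : z ∈ U1 ∩ {x : X | π • x = x}
    · exact Or.inr hz.2
    · exact Or.inl (hψ z hz)
  have h4 := congrArg (fun g : Γ => g • y) (h3 ψ hcomm)
  simp only [mul_smul] at h4
  have huu := inv_pt ax h2
  have e1 : ψ • u • ψ⁻¹ • y = u • ψ⁻¹ • y := hψ _ (fun h => hm _ hyU'.1 h.1)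
  have e2 : ψ⁻¹ • u • y = u • y := by
    rw [inv_smul_eq_iff]
    exact (hψ _ (fun h => hm _ hyU.1 h.1)).symm
  rw [e1, huu, e2, huu] at h4
  apply hy
  rw [← h4, smul_inv_smul]

lemma lemB {π φ : Γ} (hπ : π * π = 1) (h : ∀ x : X, π • x ≠ x → φ • x = x) : φ ∈ VSet π := by
  intro u hu
  apply comm_of_disj ax
  intro x
  by_cases hx : π • x = x
  · exact Or.inr (lemA ax hπ hu x hx)
  · exact Or.inl (h x hx)

open Classical in
lemma restr_mem_USet {π ρ : Γ} (hπ : π * π = 1) (V : Set X) (hV : ∀ x ∈ V, π • x ∈ V)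
    (h1 : ∀ x ∈ V, ρ • x = π • x) (h2 : ∀ x ∉ V, ρ • x = x) : ρ ∈ USet π := by
  have hpp := inv_pt ax hπ
  have hV' : ∀ x, π • x ∈ V ↔ x ∈ V := by
    intro x
    refine ⟨fun h => ?_, hV x⟩
    have := hV _ h
    rwa [hpp] at this
  refine ⟨?_, ?_, ?_⟩
  · apply ax.faithful
    intro x
    rw [mul_smul, mul_smul]
    by_cases hx : x ∈ V
    · rw [h1 x hx, h1 _ (hV x hx)]
    · rw [h2 x hx, h2 _ (fun h => hx ((hV' x).1 h))]
  · apply one_of ax
    intro x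
    rw [mul_smul]
    by_cases hx : x ∈ V
    · rw [h1 x hx, h1 _ (hV x hx), hpp]
    · rw [h2 x hx, h2 x hx]
  · intro ψ hψ
    have hψ' : ∀ x : X, ψ • π • x = π • ψ • x := by
      intro x
      rw [← mul_smul, hψ, mul_smul]
    have hψi : ∀ x : X, ψ⁻¹ • π • x = π • ψ⁻¹ • x := by
      intro x
      rw [inv_smul_eq_iff, hψ', smul_inv_smul]
    have k1 : ∀ y : X, ψ⁻¹ • y ∈ V → (ψ * ρ * ψ⁻¹) • y = π • y := by
      intro y hy
      rw [mul_smul, mul_smul, h1 _ hy, hψ', smul_inv_smul]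
    have k2 : ∀ y : X, ψ⁻¹ • y ∉ V → (ψ * ρ * ψ⁻¹) • y = y := by
      intro y hy
      rw [mul_smul, mul_smul, h2 _ hy, smul_inv_smul]
    have hW : ∀ y : X, ψ⁻¹ • π • y ∈ V ↔ ψ⁻¹ • y ∈ V := by
      intro y
      rw [hψi, hV']
    apply ax.faithful
    intro y
    rw [mul_smul, mul_smul (ψ * ρ * ψ⁻¹)]
    by_cases hy : y ∈ V <;> by_cases hy' : ψ⁻¹ • y ∈ V
    · rw [k1 y hy', h1 y hy, h1 _ (hV y hy), k1 _ ((hW y).2 hy')]
    · rw [k2 y hy', h1 y hy, k2 _ (fun h => hy' ((hW y).1 h))]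
    · rw [k1 y hy', h2 y hy, h2 _ (fun h => hy ((hV' y).1 h)), k1 y hy']
    · rw [k2 y hy', h2 y hy, k2 y hy']

lemma lemC {π v : Γ} (hπ : π * π = 1) (hv : v ∈ VSet π) (x : X) (hx : π • x ≠ x) :
    v • v • x = x := by
  have hpp := inv_pt ax hπ
  have hvx : v • x = x ∨ v • x = π • x := by
    by_contra hcon
    push Not at hcon
    obtain ⟨hc1, hc2⟩ := hcon
    obtain ⟨K1, hK1, hx1, hy1⟩ := ax.sep x (v • x) (Ne.symm hc1)
    obtain ⟨K2, hK2, hx2, hy2⟩ := ax.sep x (π • v • x) (fun h => hc2 (by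
      rw [h, hpp]; rw [← h]))
    have hK : K1 ∩ K2 ∈ A := ax.inter _ hK1 _ hK2
    have hVA : (K1 ∩ K2) ∪ {z : X | π • z ∈ K1 ∩ K2} ∈ A :=
      union_mem ax hK (ax.pre π _ hK)
    have hinv : ∀ z ∈ (K1 ∩ K2) ∪ {z : X | π • z ∈ K1 ∩ K2},
        π • z ∈ (K1 ∩ K2) ∪ {z : X | π • z ∈ K1 ∩ K2} := by
      rintro z (hz | hz)
      · right
        change π • π • z ∈ K1 ∩ K2
        rw [hpp]; exact hz
      · left; exact hz
    obtain ⟨ρ, hρ1, hρ2⟩ := ax.restr π hpp _ hVA hinv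
    have hρ := restr_mem_USet ax hπ _ hinv hρ1 hρ2
    have h3 := congrArg (fun g : Γ => g • x) (hv ρ hρ)
    simp only [mul_smul] at h3
    rw [hρ1 x (Or.inl ⟨hx1, hx2⟩), hρ2 (v • x)] at h3
    · exact hx (MulAction.injective v h3)
    · rintro (h | h)
      · exact hy1 h.1
      · exact hy2 h.2
  rcases hvx with h | h
  · rw [h, h]
  · have hπU : π ∈ USet π := by
      refine ⟨rfl, hπ, fun ψ hψ => ?_⟩
      have : ψ * π * ψ⁻¹ = π := by rw [hψ]; group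
      rw [this]
    have h3 := congrArg (fun g : Γ => g • x) (hv π hπU)
    simp only [mul_smul] at h3
    rw [h, h3, h, hpp]

theorem mem_WSet {π : Γ} (hπ : π * π = 1) (φ : Γ) :
    φ ∈ WSet π ↔ ∀ x : X, π • x = x → φ • x = x := by
  constructor
  · intro hφ x hx
    by_contra hne
    obtain ⟨U1, hU1, hxU1, hm⟩ := ax.move φ x hne
    have hU : U1 ∩ {x : X | π • x = x} ∈ A := ax.inter _ hU1 _ (fix_mem ax hπ)
    obtain ⟨ψ, hψ, y, hy⟩ := ax.sq _ hU ⟨x, hxU1, hx⟩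
    obtain ⟨hyU, _⟩ := test_sq ax hψ hy
    have hψV : ψ ∈ VSet π := lemB ax hπ (fun z hz => hψ z (fun h => hz h.2))
    have h3 := congrArg (fun g : Γ => g • y) (hφ ψ hψV)
    simp only [mul_smul] at h3
    have e1 : ψ • φ • y = φ • y := hψ _ (fun h => hm _ hyU.1 h.1)
    rw [e1, e1] at h3
    exact hy (MulAction.injective φ h3)
  · intro h v hv
    apply comm_of_disj ax
    intro x
    by_cases hx : π • x = x
    · exact Or.inl (h x hx)
    · right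
      rw [mul_smul]
      exact lemC ax hπ hv x hx

/-- elements supported in `U` -/
def Sup (U : Set X) (φ : Γ) : Prop := ∀ x ∉ U, φ • x = x

lemma cent {U : Set X} (hU : U ∈ A) (φ : Γ) :
    Sup Uᶜ φ ↔ ∀ ψ : Γ, Sup U ψ → φ * ψ = ψ * φ := by
  constructor
  · intro h ψ hψ
    apply comm_of_disj ax
    intro x
    by_cases hx : x ∈ U
    · exact Or.inl (h x (fun h' => h' hx))
    · exact Or.inr (hψ x hx)
  · intro h x hx
    have hxU : x ∈ U := by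
      by_contra h'
      exact hx h'
    by_contra hne
    obtain ⟨U1, hU1, hxU1, hm⟩ := ax.move φ x hne
    obtain ⟨ψ, hψ, y, hy⟩ := ax.sq _ (ax.inter _ hU1 _ hU) ⟨x, hxU1, hxU⟩
    obtain ⟨hyU, _⟩ := test_sq ax hψ hy
    have h3 := congrArg (fun g : Γ => g • y) (h ψ (fun z hz => hψ z (fun h => hz h.2)))
    simp only [mul_smul] at h3
    have e1 : ψ • φ • y = φ • y := hψ _ (fun h => hm _ hyU.1 h.1)
    rw [e1] at h3
    have h4 := MulAction.injective φ h3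
    apply hy
    rw [h4, h4]

lemma exists_sup {U : Set X} (hU : U ∈ A) {x : X} (hx : x ∈ U) : ∃ ψ : Γ, Sup U ψ ∧ ψ ≠ 1 := by
  obtain ⟨ψ, hψ, y, hy⟩ := ax.sq _ hU ⟨x, hx⟩
  refine ⟨ψ, hψ, ?_⟩
  rintro rfl
  apply hy
  rw [one_smul, one_smul]

end act

section two

variable {Γ X Γ' X' : Type*} [Group Γ] [MulAction Γ X] {A : Set (Set X)} (ax : Ax Γ X A)
  [Group Γ'] [MulAction Γ' X'] {A' : Set (Set X')} (ax' : Ax Γ' X' A') (Φ : Γ ≃* Γ')

/-- `U` and `U'` correspond to each other under `Φ` -/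
def Rel (Φ : Γ ≃* Γ') (U : Set X) (U' : Set X') : Prop :=
  ∀ φ : Γ, (∀ x ∉ U, φ • x = x) ↔ (∀ x ∉ U', Φ φ • x = x)

lemma Rel.symm' {U : Set X} {U' : Set X'} (h : Rel Φ U U') : Rel Φ.symm U' U := by
  intro φ
  have := h (Φ.symm φ)
  rw [Φ.apply_symm_apply] at this
  exact this.symm

include ax ax'

lemma exists_rel {U : Set X} (hU : U ∈ A) : ∃ U' ∈ A', Rel Φ U U' := by
  obtain ⟨π, hπ, hπU⟩ := ax.inv U hU
  have hπ1 : π * π = 1 := one_of ax _ (fun x => by rw [mul_smul, hπ])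
  have hπ2 : Φ π * Φ π = 1 := by rw [← map_mul, hπ1, map_one]
  refine ⟨{x : X' | Φ π • x ≠ x}, ax'.supp _ (inv_pt ax' hπ2), ?_⟩
  intro φ
  have h1 := mem_WSet ax hπ1 φ
  have h2 := mem_WSet ax' hπ2 (Φ φ)
  rw [WSet_map_iff Φ, h2] at h1
  constructor
  · intro h x hx
    have hx' : Φ π • x = x := by
      by_contra h'
      exact hx h'
    refine h1.2 (fun y hy => h y ?_) x hx'
    intro hyU
    exact (hπU y).2 hyU hy
  · intro h x hx
    refine h1.1 (fun y hy => h y (fun h' => h' hy)) x ?_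
    by_contra h'
    exact hx ((hπU x).1 h')

lemma rel_compl {U : Set X} {U' : Set X'} (hU : U ∈ A) (hU' : U' ∈ A') (h : Rel Φ U U') :
    Rel Φ Uᶜ U'ᶜ := by
  intro φ
  have h1 := cent ax hU φ
  have h2 := cent ax' hU' (Φ φ)
  unfold Sup at h1 h2
  rw [h1, h2]
  constructor
  · intro h3 ψ hψ
    obtain ⟨ψ, rfl⟩ := Φ.surjective ψ
    rw [← map_mul, ← map_mul, h3 ψ ((h ψ).2 hψ)]
  · intro h3 ψ hψ
    apply Φ.injective
    rw [map_mul, map_mul, h3 (Φ ψ) ((h ψ).1 hψ)]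

lemma rel_inter {U V : Set X} {U' V' : Set X'} (hU : U ∈ A) (hV : V ∈ A)
    (h : Rel Φ U U') (h' : Rel Φ V V') {x : X} (hx : x ∈ U) (hx' : x ∈ V) :
    ∃ y, y ∈ U' ∧ y ∈ V' := by
  obtain ⟨ψ, hψ, hne⟩ := exists_sup ax (ax.inter _ hU _ hV) ⟨hx, hx'⟩
  by_contra hcon
  push Not at hcon
  have h1 := (h ψ).1 (fun z hz => hψ z (fun h => hz h.1))
  have h2 := (h' ψ).1 (fun z hz => hψ z (fun h => hz h.2))
  apply hne
  apply Φ.injective
  rw [map_one]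
  apply one_of ax'
  intro z
  by_cases hz : z ∈ U'
  · exact h2 z (hcon z hz)
  · exact h1 z hz

omit ax ax' in
lemma rel_smul {U : Set X} {U' : Set X'} (h : Rel Φ U U') (g : Γ) :
    Rel Φ {x : X | g • x ∈ U} {x : X' | Φ g • x ∈ U'} := by
  intro φ
  have h1 := h (g * φ * g⁻¹)
  have e1 : (∀ x ∉ {x : X | g • x ∈ U}, φ • x = x) ↔ (∀ x ∉ U, (g * φ * g⁻¹) • x = x) := by
    constructor
    · intro h x hx
      rw [mul_smul, mul_smul, h (g⁻¹ • x), smul_inv_smul]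
      intro h'
      apply hx
      have : g • g⁻¹ • x ∈ U := h'
      rwa [smul_inv_smul] at this
    · intro h x hx
      have := h (g • x) hx
      rw [mul_smul, mul_smul, inv_smul_smul] at this
      exact MulAction.injective g this
  have e2 : (∀ x ∉ {x : X' | Φ g • x ∈ U'}, Φ φ • x = x) ↔
      (∀ x ∉ U', Φ (g * φ * g⁻¹) • x = x) := by
    rw [map_mul, map_mul, map_inv]
    constructor
    · intro h x hx
      rw [mul_smul, mul_smul, h ((Φ g)⁻¹ • x), smul_inv_smul]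
      intro h'
      apply hx
      have : Φ g • (Φ g)⁻¹ • x ∈ U' := h'
      rwa [smul_inv_smul] at this
    · intro h x hx
      have := h (Φ g • x) hx
      rw [mul_smul, mul_smul, inv_smul_smul] at this
      exact MulAction.injective (Φ g) this
  rw [e1, e2]
  exact h1

end two

end Pool.Agent.H26.Rub
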