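import Pool.Agent.H26.G1

set_option autoImplicit false

namespace Pool.Agent.H26.G1

open Pool.Agent.H26.GS Pool.Agent.H26.Rub

variable {S T : ℤ → Prop}

/-- numbers prime to all admissible moduli -/
def Cop (T : ℤ → Prop) (e : ℤ) : Prop := e ≠ 0 ∧ ∀ m, T m → IsCoprime e m

/-- rationals whose denominators are prime to all admissible moduli -/
def Lam (T : ℤ → Prop) (q : ℚ) : Prop := ∃ a e : ℤ, Cop T e ∧ q * e = a

/-- splitting property of the admissible moduli -/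
structure Sp (T : ℤ → Prop) : Prop extends Md T where
  split : ∀ D : ℤ, D ≠ 0 → ∃ D1 D2 : ℤ, T D1 ∧ Cop T D2 ∧ D = D1 * D2
  div : ∀ m n : ℤ, 0 < m → T n → m ∣ n → T m

lemma Cop.mul {a b : ℤ} (ha : Cop T a) (hb : Cop T b) : Cop T (a * b) :=
  ⟨mul_ne_zero ha.1 hb.1, fun m hm => (ha.2 m hm).mul_left (hb.2 m hm)⟩

lemma cop_one : Cop T 1 := ⟨one_ne_zero, fun m _ => isCoprime_one_left⟩

lemma lam_int (n : ℤ) : Lam T n := ⟨n, 1, cop_one, by push_cast; ring⟩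

lemma Lam.add {p q : ℚ} (hp : Lam T p) (hq : Lam T q) : Lam T (p + q) := by
  obtain ⟨a, e, he, h1⟩ := hp
  obtain ⟨b, f, hf, h2⟩ := hq
  refine ⟨a * f + b * e, e * f, he.mul hf, ?_⟩
  push_cast
  rw [← h1, ← h2]
  ring

lemma Lam.mul {p q : ℚ} (hp : Lam T p) (hq : Lam T q) : Lam T (p * q) := by
  obtain ⟨a, e, he, h1⟩ := hp
  obtain ⟨b, f, hf, h2⟩ := hq
  refine ⟨a * b, e * f, he.mul hf, ?_⟩
  push_cast
  rw [← h1, ← h2]
  ring

lemma Lam.neg {p : ℚ} (hp : Lam T p) : Lam T (-p) := by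
  obtain ⟨a, e, he, h1⟩ := hp
  refine ⟨-a, e, he, ?_⟩
  push_cast
  rw [← h1]
  ring

lemma Lam.sub {p q : ℚ} (hp : Lam T p) (hq : Lam T q) : Lam T (p - q) := by
  rw [sub_eq_add_neg]
  exact hp.add hq.neg

lemma lam_div (n e : ℤ) (he : Cop T e) : Lam T ((n : ℚ) / e) := by
  refine ⟨n, e, he, ?_⟩
  have : (e : ℚ) ≠ 0 := by exact_mod_cast he.1
  field_simp

lemma lam_dvd {t M : ℤ} (hM0 : M ≠ 0) (hM : T M) (h : Lam T ((t : ℚ) / M)) : M ∣ t := by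
  obtain ⟨a, e, he, h1⟩ := h
  have hM' : (M : ℚ) ≠ 0 := by exact_mod_cast hM0
  have h2 : (t : ℚ) * e = a * M := by
    field_simp at h1
    linarith
  have h3 : t * e = a * M := by exact_mod_cast h2
  exact (he.2 M hM).symm.dvd_of_dvd_mul_right ⟨a, by rw [h3]; ring⟩

lemma lam_approx {q : ℚ} (hq : Lam T q) {M : ℤ} (hM0 : M ≠ 0) (hM : T M) :
    ∃ s : ℤ, Lam T ((q - s) / M) := by
  obtain ⟨a, e, he, h1⟩ := hq
  obtain ⟨u, v, huv⟩ := he.2 M hM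
  have hM' : (M : ℚ) ≠ 0 := by exact_mod_cast hM0
  refine ⟨a * u, a * v, e, he, ?_⟩
  have h2 : (u : ℚ) * e + v * M = 1 := by exact_mod_cast huv
  field_simp
  push_cast
  linear_combination h1 - a * h2

lemma lam_zero (hT : Md T) {q : ℚ} (h : ∀ M, T M → Lam T (q / M)) : q = 0 := by
  obtain ⟨a, e, he, h1⟩ := h 1 hT.one
  obtain ⟨E, hE, haE⟩ := exists_big hT a
  have hE0 := hT.pos E hE
  have hE' : (E : ℚ) ≠ 0 := by exact_mod_cast hE0.ne'
  have he' : (e : ℚ) ≠ 0 := by exact_mod_cast he.1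
  have h2 : q * e = a := by
    rw [← h1]; push_cast; ring
  have h3 : Lam T ((a : ℚ) / E) := by
    have : (a : ℚ) / E = (q / E) * (e : ℤ) := by rw [← h2]; push_cast; ring
    rw [this]
    exact (h E hE).mul (lam_int e)
  have h4 := lam_dvd hE0.ne' hE h3
  have h5 : a = 0 := Int.eq_zero_of_abs_lt_dvd h4 haE
  rw [h5] at h2
  push_cast at h2
  rcases mul_eq_zero.1 h2 with h | h
  · exact h
  · exact absurd h he'

/-- an element acting as `n + w ↦ n + q w` near `n` -/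
lemma exists_dil (hS : Md S) (n q : ℤ) (hqS : S q) :
    ∃ M : ℤ, S M ∧ ∃ g : GG S, ∀ k : ℤ, g • (n + M * k) = n + q * (M * k) := by
  have hq : 1 ≤ q := hS.pos q hqS
  obtain ⟨M, hMS, hM⟩ := exists_big hS (|n| + 2)
  rw [abs_of_nonneg (by positivity)] at hM
  have hn := abs_nonneg n
  have hM0 : 0 < M := by omega
  have hqM : M ≤ q * M := by nlinarith
  have hqM0 : 0 < q * M := by linarith
  -- representation
  obtain ⟨κ, r1, r2, h1, h2, h3, h4, e1, e2⟩ : ∃ κ r1 r2 : ℤ, 0 ≤ r1 ∧ r1 < M ∧ 0 ≤ r2 ∧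
      r2 < q * M ∧ n = r1 + M * κ ∧ n = r2 + q * M * κ := by
    rcases le_or_gt 0 n with h | h
    · rw [abs_of_nonneg h] at hM
      exact ⟨0, n, n, h, by omega, h, by omega, by ring, by ring⟩
    · rw [abs_of_neg h] at hM
      exact ⟨-1, n + M, n + q * M, by omega, by omega, by omega, by omega, by ring, by ring⟩
  set y : ℤ := (r1 + 1) % M with hy
  have hy0 : 0 ≤ y := Int.emod_nonneg _ hM0.ne'
  have hy1 : y < M := Int.emod_lt_of_pos _ hM0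
  have hyM := Int.emod_add_mul_ediv (r1 + 1) M
  rw [← hy] at hyM
  have hd1 : ∀ k l : ℤ, r1 + M * k ≠ y + M * l := by
    intro k l h
    have h5 : M * (k - l + (r1 + 1) / M) = 1 := by linear_combination h + hyM
    have h6 : M ∣ 1 := ⟨_, h5.symm⟩
    have := Int.le_of_dvd one_pos h6
    omega
  have hd2 : ∀ k l : ℤ, y + M * k ≠ r2 + q * M * l := by
    intro k l h
    apply hd1 (κ - q * κ + q * l) k
    linear_combination e2 - e1 - h
  obtain ⟨α, hα, hα1, -, -⟩ := ctr_exists r1 M y M hMS hMS h1 h2 hy0 hy1 hd1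
  obtain ⟨β, hβ, hβ1, -, -⟩ := ctr_exists y M r2 (q * M) hMS (hS.mul _ _ hqS hMS) hy0 hy1 h3 h4 hd2
  refine ⟨M, hMS, ⟨β, hβ⟩ * ⟨α, hα⟩, fun k => ?_⟩
  change β (α (n + M * k)) = n + q * (M * k)
  have e3 : n + M * k = r1 + M * (κ + k) := by linear_combination e1
  rw [e3, hα1, hβ1]
  linear_combination -e2

lemma prod_dvd (f : ℤ → ℤ) (M s : ℤ) (h0 : 0 ≤ s) (h1 : s < M) :
    f s ∣ ∏ r ∈ Finset.Ico (0 : ℤ) M, f r :=
  Finset.dvd_prod_of_mem _ (Finset.mem_Ico.2 ⟨h0, h1⟩)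

lemma prod_S (hS : Md S) (f : ℤ → ℤ) (hf : ∀ x, S (f x)) (M : ℤ) :
    S (∏ r ∈ Finset.Ico (0 : ℤ) M, f r) :=
  Finset.prod_induction _ S (fun a b ha hb => hS.mul a b ha hb) hS.one (fun x _ => hf x)

variable (hS : Md S) (hT : Md T) (Φ : GG S ≃* GG T)

include hS hT

/-- the sets corresponding to the residue classes modulo `M` cover everything -/
lemma cover (M : ℤ) (hMT : T M) : ∃ K : ℤ → Set ℤ, (∀ s, K s ∈ Clop S) ∧
    (∀ s, Rel Φ (K s) {y : ℤ | ∃ k : ℤ, y = s + M * k}) ∧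
    (∃ P : ℤ, S P ∧ ∀ s, 0 ≤ s → s < M → ∀ n k : ℤ, n + P * k ∈ K s ↔ n ∈ K s) ∧
    ∀ n, ∃ s, 0 ≤ s ∧ s < M ∧ n ∈ K s := by
  have hM := hT.pos M hMT
  have h1 : ∀ s : ℤ, ∃ K ∈ Clop S, Rel Φ K {y : ℤ | ∃ k : ℤ, y = s + M * k} := by
    intro s
    obtain ⟨K, hK, hrel⟩ := exists_rel (axGS hT) (axGS hS) Φ.symm (cls_clop s M hMT)
    exact ⟨K, hK, hrel.symm'⟩
  choose K hK hrel using h1
  have hK' := hK
  choose P hP hper using hK
  set Q : ℤ := ∏ r ∈ Finset.Ico (0 : ℤ) M, P r with hQ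
  have hQS : S Q := prod_S hS P hP M
  refine ⟨K, hK', hrel, ⟨Q, hQS, ?_⟩, ?_⟩
  · intro s hs0 hs1 n k
    obtain ⟨d, hd⟩ := prod_dvd P M s hs0 hs1
    have e : n + Q * k = n + P s * (d * k) := by rw [hQ, hd]; ring
    rw [e, hper]
  intro n
  by_contra hcon
  push Not at hcon
  obtain ⟨ψ, hψ, hne⟩ := exists_sup (axGS hS) (cls_clop n Q hQS) (x := n) ⟨0, by ring⟩
  apply hne
  apply Φ.injective
  rw [map_one]
  apply one_of (axGS hT)
  intro y
  have hs0 := Int.emod_nonneg y hM.ne'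
  have hs1 := Int.emod_lt_of_pos y hM
  have hKc : Rel Φ (K (y % M))ᶜ {z : ℤ | ∃ k : ℤ, z = y % M + M * k}ᶜ :=
    rel_compl (axGS hS) (axGS hT) Φ ⟨P (y % M), hP _, hper _⟩ (cls_clop _ M hMT) (hrel _)
  refine (hKc ψ).1 ?_ y ?_
  · intro x hx
    rw [Set.notMem_compl_iff] at hx
    apply hψ
    rintro ⟨k, rfl⟩
    obtain ⟨d, hd⟩ := prod_dvd P M (y % M) hs0 hs1
    have e : n + Q * k = n + P (y % M) * (d * k) := by rw [hQ, hd]; ring
    rw [e, hper] at hx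
    exact hcon _ hs0 hs1 hx
  · rw [Set.notMem_compl_iff]
    exact ⟨y / M, (Int.emod_add_mul_ediv y M).symm⟩

lemma exists_cls (n M : ℤ) (hM : T M) : ∃ s : ℤ, ∃ K ∈ Clop S, n ∈ K ∧
    Rel Φ K {y : ℤ | ∃ k : ℤ, y = s + M * k} := by
  obtain ⟨K, hK, hrel, -, hcov⟩ := cover hS hT Φ M hM
  obtain ⟨s, -, -, hs⟩ := hcov n
  exact ⟨s, K s, hK s, hs, hrel s⟩

omit hT in
lemma exists_point (hT : Sp T) (n : ℤ) : ∃ x0 : ℚ, Lam T x0 ∧ ∀ K ∈ Clop S, n ∈ K → ∀ s M : ℤ, T M →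
    Rel Φ K {y : ℤ | ∃ k : ℤ, y = s + M * k} → Lam T ((x0 - s) / M) := by
  have hTM : Md T := hT.toMd
  obtain ⟨M0, hM0S, g, hg⟩ := exists_dil hS n 2 hS.two
  have hM0 := hS.pos _ hM0S
  obtain ⟨⟨m', hm'T, hA⟩, hP⟩ := (mem_iff hTM).1 (Φ g).2
  have hm' := hTM.pos _ hm'T
  obtain ⟨s1, K1, hK1, hnK1, hrel1⟩ := exists_cls hS hTM Φ n m' hm'T
  obtain ⟨C, hCT, hC⟩ := hA s1
  set β : ℤ := (Φ g : Equiv.Perm ℤ) s1 - s1 with hβ
  have hgn : g • n = n := by simpa using hg 0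
  -- the residues
  have key : ∀ t : ℤ, T t → ∃ s j : ℤ, ∃ K ∈ Clop S, n ∈ K ∧
      Rel Φ K {y : ℤ | ∃ k : ℤ, y = s + m' * t * k} ∧ s = s1 + m' * j ∧
      t ∣ (m' - C) * j - β := by
    intro t ht
    obtain ⟨s, K, hK, hnK, hrel⟩ := exists_cls hS hTM Φ n (m' * t) (hTM.mul _ _ hm'T ht)
    obtain ⟨y, ⟨a, ha⟩, ⟨b, hb⟩⟩ := rel_inter (axGS hS) (axGS hTM) Φ hK hK1 hrel hrel1 hnK hnK1
    have hs : s = s1 + m' * (b - t * a) := by linear_combination hb - ha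
    refine ⟨s, b - t * a, K, hK, hnK, hrel, hs, ?_⟩
    obtain ⟨z, ⟨a', ha'⟩, ⟨b', hb'⟩⟩ := rel_inter (axGS hS) (axGS hTM) Φ hK ((axGS hS).pre g K hK) hrel
      (rel_smul Φ hrel g) hnK (show g • n ∈ K by rw [hgn]; exact hnK)
    have e1 : (Φ g : Equiv.Perm ℤ) z = (Φ g : Equiv.Perm ℤ) s1 + C * (b - t * a + t * a') := by
      rw [← hC]
      congr 1
      linear_combination ha' + hs
    have e2 : (Φ g : Equiv.Perm ℤ) z = s + m' * t * b' := hb'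
    refine ⟨C * a' - m' * b', ?_⟩
    rw [hβ]
    linear_combination e1 - e2 - hs
  by_cases hCm : C = m'
  · -- impossible
    exfalso
    have hβ0 : β = 0 := by
      by_contra hne
      obtain ⟨E, hE, hβE⟩ := exists_big hTM β
      obtain ⟨s, j, K, _, _, _, _, hdvd⟩ := key E hE
      rw [hCm, sub_self, zero_mul, zero_sub, dvd_neg] at hdvd
      exact lt_abs_dvd hne hβE hdvd
    have hid : ∀ k : ℤ, (Φ g : Equiv.Perm ℤ) (s1 + m' * k) = s1 + m' * k := by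
      intro k
      rw [hC, hCm]
      linear_combination hβ0
    have hrc := rel_compl (axGS hS) (axGS hTM) Φ hK1 (cls_clop s1 m' hm'T) hrel1
    have hfix := (hrc g).2 (by
      intro x hx
      rw [Set.notMem_compl_iff] at hx
      obtain ⟨k, rfl⟩ := hx
      exact hid k)
    obtain ⟨P, hPS, hper⟩ := hK1
    have hP0 := hS.pos _ hPS
    have h1 : n + M0 * P ∈ K1 := by
      rw [mul_comm M0 P, hper]; exact hnK1
    have h2 := hfix (n + M0 * P) (by rw [Set.notMem_compl_iff]; exact h1)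
    rw [hg] at h2
    have h3 : 0 < M0 * P := by positivity
    linarith
  · set D : ℤ := m' - C with hD
    have hD0 : D ≠ 0 := by
      intro h
      apply hCm
      rw [hD] at h
      linarith
    obtain ⟨D1, D2, hD1, hD2, hDD⟩ := hT.split D hD0
    have hD10 : D1 ≠ 0 := (hTM.pos _ hD1).ne'
    obtain ⟨γ, hγ⟩ : D1 ∣ β := by
      obtain ⟨s, j, K, _, _, _, _, hdvd⟩ := key D1 hD1
      have h1 : D1 ∣ D * j := by rw [hDD, mul_assoc]; exact dvd_mul_right _ _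
      have := dvd_sub h1 hdvd
      have e : D * j - (D * j - β) = β := by ring
      rwa [e] at this
    have hD2' : (D2 : ℚ) ≠ 0 := by exact_mod_cast hD2.1
    refine ⟨(s1 : ℚ) + (m' : ℤ) * ((γ : ℚ) / D2), (lam_int s1).add ((lam_int m').mul (lam_div γ D2 hD2)), ?_⟩
    intro U hU hnU s M hM hrel
    have hM' : (M : ℚ) ≠ 0 := by exact_mod_cast (hTM.pos _ hM).ne'
    obtain ⟨s', j, K, hK, hnK, hrelK, hs, hdvd⟩ := key (D1 * M) (hTM.mul _ _ hD1 hM)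
    obtain ⟨y, ⟨a, ha⟩, ⟨b, hb⟩⟩ := rel_inter (axGS hS) (axGS hTM) Φ hK hU hrelK hrel hnK hnU
    obtain ⟨l, hl⟩ : M ∣ D2 * j - γ := by
      have h1 : D1 * M ∣ D1 * (D2 * j - γ) := by
        have e : D1 * (D2 * j - γ) = D * j - β := by rw [hγ, hDD]; ring
        rw [e]; exact hdvd
      exact Int.dvd_of_mul_dvd_mul_left hD10 h1
    -- `s = s1 + m' j + m' D1 M a - M b`
    have e1 : s = s1 + m' * j + m' * (D1 * M) * a - M * b := by linear_combination ha - hb + hs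
    have e2 : ((s1 : ℚ) + (m' : ℤ) * ((γ : ℚ) / D2) - s) / M =
        ((-(m' * l) : ℤ) : ℚ) / D2 + ((-(m' * D1 * a) + b : ℤ) : ℚ) := by
      have hl' : (D2 : ℚ) * j - γ = M * l := by exact_mod_cast hl
      rw [e1]
      push_cast
      field_simp
      linear_combination (-(m' : ℚ)) * hl'
    rw [e2]
    exact (lam_div _ D2 hD2).add (lam_int _)

end Pool.Agent.H26.G1
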