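import Pool.Agent.H26.G2

set_option autoImplicit false

namespace Pool.Agent.H26.G1

open Pool.Agent.H26.GS Pool.Agent.H26.Rub

variable {S T : ℤ → Prop}

/-- quotients of admissible moduli -/
def Ra (T : ℤ → Prop) (c : ℚ) : Prop := ∃ C m : ℤ, T C ∧ T m ∧ c = (C : ℚ) / m

lemma Ra.pos (hT : Md T) {c : ℚ} (h : Ra T c) : 0 < c := by
  obtain ⟨C, m, hC, hm, rfl⟩ := h
  have h1 := hT.pos _ hC
  have h2 := hT.pos _ hm
  exact div_pos (by exact_mod_cast h1) (by exact_mod_cast h2)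

lemma Ra.mul (hT : Md T) {c d : ℚ} (h : Ra T c) (h' : Ra T d) : Ra T (c * d) := by
  obtain ⟨C, m, hC, hm, rfl⟩ := h
  obtain ⟨C', m', hC', hm', rfl⟩ := h'
  refine ⟨C * C', m * m', hT.mul _ _ hC hC', hT.mul _ _ hm hm', ?_⟩
  push_cast
  rw [div_mul_div_comm]

lemma Ra.one (hT : Md T) : Ra T 1 := ⟨1, 1, hT.one, hT.one, by norm_num⟩

/-- the point map of an isomorphism -/
structure PM (Φ : GG S ≃* GG T) (h : ℤ → ℚ) : Prop where
  lam : ∀ n, Lam T (h n)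
  pt : ∀ n : ℤ, ∀ K ∈ Clop S, n ∈ K → ∀ s M : ℤ, T M →
    Rel Φ K {y : ℤ | ∃ k : ℤ, y = s + M * k} → Lam T ((h n - s) / M)

lemma exists_PM (hS : Md S) (hT : Sp T) (Φ : GG S ≃* GG T) : ∃ h : ℤ → ℚ, PM Φ h := by
  choose h h1 h2 using exists_point hS Φ hT
  exact ⟨h, h1, h2⟩

variable (hS : Md S) (hT : Md T) {Φ : GG S ≃* GG T} {h : ℤ → ℚ} (hh : PM Φ h)

include hS hT hh

lemma cont (M : ℤ) (hM : T M) : ∃ P : ℤ, S P ∧ ∀ x k : ℤ, Lam T ((h (x + P * k) - h x) / M) := by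
  obtain ⟨K, hK, hrel, ⟨P, hP, hper⟩, hcov⟩ := cover hS hT Φ M hM
  refine ⟨P, hP, fun x k => ?_⟩
  obtain ⟨s, hs0, hs1, hx⟩ := hcov x
  have h1 := hh.pt x _ (hK s) hx s M hM (hrel s)
  have h2 := hh.pt (x + P * k) _ (hK s) ((hper s hs0 hs1 x k).2 hx) s M hM (hrel s)
  have e : (h (x + P * k) - h x) / M = (h (x + P * k) - s) / M - (h x - s) / M := by ring
  rw [e]
  exact h2.sub h1

lemma icont (M : ℤ) (hM : S M) : ∃ N : ℤ, T N ∧ ∀ x y : ℤ, Lam T ((h x - h y) / N) → M ∣ x - y := by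
  have hM0 := hS.pos _ hM
  have h1 : ∀ s : ℤ, ∃ U ∈ Clop T, Rel Φ {y : ℤ | ∃ k : ℤ, y = s + M * k} U := fun s =>
    exists_rel (axGS hS) (axGS hT) Φ (cls_clop s M hM)
  choose U hU hrel using h1
  have hU' := hU
  choose N hN hper using hU'
  set Q : ℤ := ∏ r ∈ Finset.Ico (0 : ℤ) M, N r with hQ
  have hQS : T Q := prod_S hT N hN M
  have hQ0 := hT.pos _ hQS
  refine ⟨Q, hQS, fun x y hxy => ?_⟩
  by_contra hcon
  have hs0 := Int.emod_nonneg x hM0.ne'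
  have hs1 := Int.emod_lt_of_pos x hM0
  obtain ⟨d, hd⟩ := prod_dvd N M (x % M) hs0 hs1
  set s := x % M with hs
  have hxs : x ∈ {y : ℤ | ∃ k : ℤ, y = s + M * k} := ⟨x / M, (Int.emod_add_mul_ediv x M).symm⟩
  have hys : y ∈ {y : ℤ | ∃ k : ℤ, y = s + M * k}ᶜ := by
    rintro ⟨k, hk⟩
    obtain ⟨l, hl⟩ := hxs
    exact hcon ⟨l - k, by linear_combination hl - hk⟩
  obtain ⟨sx, Kx, hKx, hxK, hrx⟩ := exists_cls hS hT Φ x Q hQS
  obtain ⟨sy, Ky, hKy, hyK, hry⟩ := exists_cls hS hT Φ y Q hQS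
  obtain ⟨z, ⟨a, ha⟩, hz⟩ := rel_inter (axGS hS) (axGS hT) Φ hKx (cls_clop s M hM) hrx (hrel s) hxK hxs
  obtain ⟨z', ⟨a', ha'⟩, hz'⟩ := rel_inter (axGS hS) (axGS hT) Φ hKy
    ((axGS hS).compl _ (cls_clop s M hM)) hry
    (rel_compl (axGS hS) (axGS hT) Φ (cls_clop s M hM) (hU s) (hrel s)) hyK hys
  have hx1 := hh.pt x _ hKx hxK sx Q hQS hrx
  have hy1 := hh.pt y _ hKy hyK sy Q hQS hry
  have h3 : Lam T (((sx - sy : ℤ) : ℚ) / Q) := by
    have e : ((sx - sy : ℤ) : ℚ) / Q = (h x - h y) / Q - (h x - sx) / Q + (h y - sy) / Q := by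
      push_cast; ring
    rw [e]
    exact (hxy.sub hx1).add hy1
  obtain ⟨b, hb⟩ := lam_dvd hQ0.ne' hQS h3
  apply hz'
  have e : z' = z + N s * (d * (a' - a - b)) := by
    rw [ha, ha']
    rw [← hQ] at hd
    have h9 : N s * (d * (a' - a - b)) = Q * (a' - a - b) := by rw [hd]; ring
    rw [h9]
    linear_combination (-1 : ℤ) * hb
  rw [e, hper]
  exact hz

lemma h_inj : Function.Injective h := by
  intro x y hxy
  by_contra hne
  obtain ⟨E, hE, hxE⟩ := exists_big hS (x - y)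
  obtain ⟨N, hN, hall⟩ := icont hS hT hh E hE
  have := hall x y (by rw [hxy, sub_self, zero_div]; exact_mod_cast lam_int 0)
  exact lt_abs_dvd (sub_ne_zero.2 hne) hxE this

lemma equiv_pt (g : GG S) (n s m C : ℤ) (hm : T m) (hs : Lam T ((h n - s) / m))
    (hC : ∀ k : ℤ, (Φ g : Equiv.Perm ℤ) (s + m * k) = (Φ g : Equiv.Perm ℤ) s + C * k) :
    h (g • n) = (Φ g : Equiv.Perm ℤ) s + C * ((h n - s) / m) := by
  have hm0 := hT.pos _ hm
  have hmq : (m : ℚ) ≠ 0 := by exact_mod_cast hm0.ne'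
  rw [← sub_eq_zero]
  apply lam_zero hT
  intro M hM
  have hM0 := hT.pos _ hM
  have hMq : (M : ℚ) ≠ 0 := by exact_mod_cast hM0.ne'
  obtain ⟨s1, K1, hK1, hn1, hr1⟩ := exists_cls hS hT Φ (g • n) M hM
  have hmM : T (m * M) := hT.mul _ _ hm hM
  obtain ⟨s2, K2, hK2, hn2, hr2⟩ := exists_cls hS hT Φ n (m * M) hmM
  obtain ⟨y, ⟨a, ha⟩, hy⟩ := rel_inter (axGS hS) (axGS hT) Φ hK2 ((axGS hS).pre g K1 hK1) hr2
    (rel_smul Φ hr1 g) hn2 (show g • n ∈ K1 from hn1)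
  obtain ⟨b, hb⟩ : ∃ b : ℤ, (Φ g : Equiv.Perm ℤ) y = s1 + M * b := hy
  have q1 := hh.pt _ _ hK1 hn1 s1 M hM hr1
  have q2 := hh.pt _ _ hK2 hn2 s2 (m * M) hmM hr2
  have h3 : Lam T (((s - y : ℤ) : ℚ) / m) := by
    have e : ((s - y : ℤ) : ℚ) / m = M * ((h n - s2) / ((m * M : ℤ) : ℚ)) - (h n - s) / m +
        ((-(M * a) : ℤ) : ℚ) := by
      rw [ha]
      push_cast
      field_simp
      ring
    rw [e]
    exact (((lam_int M).mul q2).sub hs).add (lam_int _)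
  obtain ⟨c, hc⟩ := lam_dvd hm0.ne' hm h3
  have hy2 : y = s + m * (-c) := by linear_combination -hc
  have h4 := hC (-c)
  rw [← hy2, hb] at h4
  have h4' : (s1 : ℚ) + M * b = (Φ g : Equiv.Perm ℤ) s + C * (-c) := by exact_mod_cast h4
  have ha' : (y : ℚ) = s2 + m * M * a := by exact_mod_cast ha
  have hy2' : (y : ℚ) = s + m * (-c) := by exact_mod_cast hy2
  have e : (h (g • n) - ((Φ g : Equiv.Perm ℤ) s + C * ((h n - s) / m))) / M =
      (h (g • n) - s1) / M + ((-b : ℤ) : ℚ) - C * ((h n - s2) / ((m * M : ℤ) : ℚ)) +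
        ((C * a : ℤ) : ℚ) := by
    push_cast
    field_simp
    linear_combination m * h4' + C * ha' - C * hy2'
  rw [e]
  exact ((q1.add (lam_int _)).sub ((lam_int C).mul q2)).add (lam_int _)

/-- elements of the source act locally affinely on the image -/
lemma loc (g : GG S) : ∃ P : ℤ, S P ∧ ∀ x : ℤ, ∃ c : ℚ, Ra T c ∧
    ∀ k : ℤ, h (g • (x + P * k)) - h (g • x) = c * (h (x + P * k) - h x) := by
  obtain ⟨⟨m, hm, hA⟩, -⟩ := (mem_iff hT).1 (Φ g).2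
  have hmq : (m : ℚ) ≠ 0 := by exact_mod_cast (hT.pos _ hm).ne'
  obtain ⟨P, hP, hcont⟩ := cont hS hT hh m hm
  refine ⟨P, hP, fun x => ?_⟩
  obtain ⟨s, hs⟩ := lam_approx (hh.lam x) (hT.pos _ hm).ne' hm
  obtain ⟨C, hCT, hC⟩ := hA s
  refine ⟨(C : ℚ) / m, ⟨C, m, hCT, hm, rfl⟩, fun k => ?_⟩
  have hs' : Lam T ((h (x + P * k) - s) / m) := by
    have e : (h (x + P * k) - s) / m = (h (x + P * k) - h x) / m + (h x - s) / m := by ring
    rw [e]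
    exact (hcont x k).add hs
  rw [equiv_pt hS hT hh g x s m C hm hs hC, equiv_pt hS hT hh g (x + P * k) s m C hm hs' hC]
  ring

end Pool.Agent.H26.G1
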