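import Pool.Agent.H26.G3

set_option autoImplicit false

namespace Pool.Agent.H26.G1

open Pool.Agent.H26.GS Pool.Agent.H26.Rub

variable {S T : ℤ → Prop}

/-- powers times a nonzero element being in `Lam T` forces denominator one -/
lemma den_one (hT : Sp T) (r : ℚ) (hr : Ra T r) (d : ℚ) (hd : d ≠ 0) (hdl : Lam T d)
    (h : ∀ k : ℕ, Lam T (r ^ k * d)) : r.den = 1 := by
  by_contra hne
  obtain ⟨a, e, he, hae⟩ := hdl
  have hden : 2 ≤ r.den := by
    have := r.den_pos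
    omega
  have heq : (e : ℚ) ≠ 0 := by exact_mod_cast he.1
  have ha : a ≠ 0 := by
    rintro rfl
    push_cast at hae
    rcases mul_eq_zero.1 hae with h | h
    · exact hd h
    · exact heq h
  have hdenT : T r.den := by
    obtain ⟨C, m, hC, hm, hr'⟩ := hr
    have hm0 := hT.toMd.pos _ hm
    refine hT.div _ m (by exact_mod_cast r.den_pos) hm ?_
    have hmq : (m : ℚ) ≠ 0 := by exact_mod_cast hm0.ne'
    have h1 : r = r.num / r.den := (Rat.num_div_den r).symm
    have h2 : (r.den : ℚ) ≠ 0 := by exact_mod_cast r.den_nz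
    have h3 : (r.num : ℚ) * m = C * r.den := by
      have : (r.num : ℚ) / r.den = C / m := by rw [← h1, hr']
      field_simp at this
      linarith
    have h4 : r.num * m = C * r.den := by exact_mod_cast h3
    have hcop : IsCoprime (r.den : ℤ) r.num := by
      rw [Int.isCoprime_iff_gcd_eq_one]
      have := r.reduced
      rw [Nat.coprime_comm] at this
      simpa [Int.gcd, Nat.Coprime] using this
    exact hcop.dvd_of_dvd_mul_left ⟨C, by rw [h4]; ring⟩
  have hpowT : ∀ k : ℕ, T ((r.den : ℤ) ^ k) := by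
    intro k
    induction k with
    | zero => simpa using hT.toMd.one
    | succ k ih => rw [pow_succ]; exact hT.toMd.mul _ _ ih hdenT
  have hdvd : ∀ k : ℕ, (r.den : ℤ) ^ k ∣ a := by
    intro k
    have h1 : r = r.num / r.den := (Rat.num_div_den r).symm
    have h2 : (r.den : ℚ) ≠ 0 := by exact_mod_cast r.den_nz
    have h3 : Lam T (((r.num ^ k * a : ℤ) : ℚ) / (((r.den : ℤ) ^ k : ℤ) : ℚ)) := by
      have : ((r.num ^ k * a : ℤ) : ℚ) / (((r.den : ℤ) ^ k : ℤ) : ℚ) = r ^ k * d * (e : ℤ) := by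
        push_cast
        rw [← hae]
        conv_rhs => rw [h1, div_pow]
        field_simp
      rw [this]
      exact (h k).mul (lam_int e)
    have h4 := lam_dvd (pow_ne_zero k (by exact_mod_cast r.den_nz)) (hpowT k) h3
    have hcop : IsCoprime ((r.den : ℤ) ^ k) (r.num ^ k) := by
      apply IsCoprime.pow
      rw [Int.isCoprime_iff_gcd_eq_one]
      have := r.reduced
      rw [Nat.coprime_comm] at this
      simpa [Int.gcd, Nat.Coprime] using this
    exact hcop.dvd_of_dvd_mul_left h4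
  have h6 := hdvd (a.natAbs + 1)
  have h7 := Int.natAbs_dvd_natAbs.2 h6
  rw [Int.natAbs_pow, Int.natAbs_natCast] at h7
  have h8 := Nat.le_of_dvd (Int.natAbs_pos.2 ha) h7
  have h9 : a.natAbs + 1 < 2 ^ (a.natAbs + 1) := Nat.lt_two_pow_self
  have h10 : 2 ^ (a.natAbs + 1) ≤ r.den ^ (a.natAbs + 1) := Nat.pow_le_pow_left hden _
  omega

section main

variable (hS : Sp S) (hT : Md T) {h : ℤ → ℚ} (hinj : Function.Injective h)
  (hloc : ∀ g : GG S, ∃ P : ℤ, S P ∧ ∀ x : ℤ, ∃ c : ℚ, Ra T c ∧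
    ∀ k : ℤ, h (g • (x + P * k)) - h (g • x) = c * (h (x + P * k) - h x))

include hinj in
lemma h_sub_ne {x y : ℤ} (hxy : x ≠ y) : h x - h y ≠ 0 := by
  rw [sub_ne_zero]
  intro he
  exact hxy (hinj he)

/-- `a` is the ratio of the slopes of `w ↦ h w` and `w ↦ h (w - 1)` near `w` -/
def Sl (h : ℤ → ℚ) (w : ℤ) (a : ℚ) : Prop := ∃ P : ℤ, 0 < P ∧ ∀ z : ℤ, P ∣ z →
  h (w + z) - h w = a * (h (w - 1 + z) - h (w - 1))

include hinj in
lemma Sl.unique {w : ℤ} {a b : ℚ} (ha : Sl h w a) (hb : Sl h w b) : a = b := by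
  obtain ⟨P, hP, hPa⟩ := ha
  obtain ⟨Q, hQ, hQb⟩ := hb
  have h1 := hPa (P * Q) (dvd_mul_right _ _)
  have h2 := hQb (P * Q) (dvd_mul_left _ _)
  have h3 : h (w - 1 + P * Q) - h (w - 1) ≠ 0 := by
    apply h_sub_ne hinj
    have : 0 < P * Q := by positivity
    omega
  rw [h1] at h2
  exact mul_right_cancel₀ h3 h2

include hS hT hinj hloc

/-- scaling near an integer -/
lemma scale (n q : ℤ) (hq : S q) : ∃ M : ℤ, S M ∧ ∃ c : ℚ, Ra T c ∧ ∀ w : ℤ, M ∣ w →
    h (n + q * w) - h n = c * (h (n + w) - h n) := by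
  obtain ⟨M0, hM0, g, hg⟩ := exists_dil hS.toMd n q hq
  obtain ⟨P, hP, hall⟩ := hloc g
  obtain ⟨c, hc, hk⟩ := hall n
  have hgn : g • n = n := by simpa using hg 0
  refine ⟨M0 * P, hS.toMd.mul _ _ hM0 hP, c, hc, ?_⟩
  rintro w ⟨k, rfl⟩
  have h1 := hk (M0 * k)
  have e1 : n + P * (M0 * k) = n + M0 * (P * k) := by ring
  rw [e1, hg, hgn] at h1
  have e2 : M0 * (P * k) = M0 * P * k := by ring
  rw [e2] at h1
  exact h1

/-- translation by one away from `-1` -/
lemma transl (M : ℤ) (hMS : S M) : ∃ P : ℤ, S P ∧ M ∣ P ∧ ∀ x : ℤ, ¬ M ∣ x + 1 →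
    ∃ a : ℚ, Ra T a ∧ ∀ z : ℤ, P ∣ z →
      h (x + 1 + z) - h (x + 1) = a * (h (x + z) - h x) := by
  have hM : 0 < M := hS.toMd.pos _ hMS
  -- the shift in blocks of length `M`
  let F : ℤ → ℤ := fun n => if M ∣ n + 1 then n - (M - 1) else n + 1
  let F' : ℤ → ℤ := fun n => if M ∣ n then n + (M - 1) else n - 1
  have hl : Function.LeftInverse F' F := by
    intro n
    simp only [F, F']
    by_cases h1 : M ∣ n + 1
    · have h2 : M ∣ n - (M - 1) := by
        have : n - (M - 1) = (n + 1) - M := by ring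
        rw [this]; exact dvd_sub h1 (dvd_refl M)
      rw [if_pos h1, if_pos h2]; ring
    · rw [if_neg h1, if_neg h1]; ring
  have hr : Function.RightInverse F' F := by
    intro n
    simp only [F, F']
    by_cases h1 : M ∣ n
    · have h2 : M ∣ n + (M - 1) + 1 := by
        have : n + (M - 1) + 1 = n + M := by ring
        rw [this]; exact dvd_add h1 (dvd_refl M)
      rw [if_pos h1, if_pos h2]; ring
    · have h2 : ¬ M ∣ n - 1 + 1 := by
        rw [sub_add_cancel]; exact h1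
      rw [if_neg h1, if_neg h2]; ring
  let σ : Equiv.Perm ℤ := ⟨F, F', hl, hr⟩
  have hσ : σ ∈ GS S := by
    rw [mem_iff hS.toMd]
    refine ⟨⟨M, hMS, fun x => ⟨M, hMS, fun k => ?_⟩⟩, fun n => ?_⟩
    · change F (x + M * k) = F x + M * k
      have e1 : M ∣ x + M * k + 1 ↔ M ∣ x + 1 := by
        have : x + M * k + 1 = x + 1 + M * k := by ring
        rw [this]
        exact (Int.dvd_add_left (dvd_mul_right M k))
      simp only [F, e1]
      split_ifs <;> ring
    · change 0 ≤ F n ↔ 0 ≤ n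
      simp only [F]
      split_ifs with h1
      · obtain ⟨k, hk⟩ := h1
        have e1 : n = M - 1 + M * (k - 1) := by linear_combination hk
        have e2 : n - (M - 1) = 0 + M * (k - 1) := by linear_combination hk
        rw [e2, sgn le_rfl hM, e1, sgn (by omega) (by omega)]
      · constructor
        · intro h2
          by_contra h3
          apply h1
          have : n = -1 := by omega
          rw [this]; simp
        · intro h2; omega
  set g : GG S := ⟨σ, hσ⟩ with hg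
  obtain ⟨P, hP, hall⟩ := hloc g
  refine ⟨M * P, hS.toMd.mul _ _ hMS hP, dvd_mul_right _ _, fun x hx => ?_⟩
  obtain ⟨c, hc, hk⟩ := hall x
  refine ⟨c, hc, ?_⟩
  rintro z ⟨k, rfl⟩
  have g1 : g • x = x + 1 := by
    change F x = x + 1
    simp only [F, hx, if_false]
  have g2 : g • (x + M * P * k) = x + 1 + M * P * k := by
    change F (x + M * P * k) = x + 1 + M * P * k
    have : ¬ M ∣ x + M * P * k + 1 := by
      have e : x + M * P * k + 1 = x + 1 + M * (P * k) := by ring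
      rw [e, Int.dvd_add_left (dvd_mul_right M _)]
      exact hx
    simp only [F, this, if_false]
    ring
  have h1 := hk (M * k)
  have e1 : x + P * (M * k) = x + M * P * k := by ring
  rw [e1, g1, g2] at h1
  exact h1

/-- uniform slopes away from `0` -/
lemma unif_slope (M : ℤ) (hM : S M) : ∃ P : ℤ, S P ∧ M ∣ P ∧ ∀ w : ℤ, ¬ M ∣ w →
    ∀ a : ℚ, Sl h w a → Ra T a ∧ ∀ z : ℤ, P ∣ z →
      h (w + z) - h w = a * (h (w - 1 + z) - h (w - 1)) ∧ Sl h (w + z) a := by
  obtain ⟨P, hP, hMP, hall⟩ := transl hS hT hinj hloc M hM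
  have hP0 := hS.toMd.pos _ hP
  refine ⟨P, hP, hMP, fun w hw a ha => ?_⟩
  obtain ⟨b, hb, hbz⟩ := hall (w - 1) (by rwa [sub_add_cancel])
  rw [sub_add_cancel] at hbz
  have hab : a = b := ha.unique hinj ⟨P, hP0, hbz⟩
  rw [← hab] at hb hbz
  refine ⟨hb, fun z hz => ⟨hbz z hz, P, hP0, fun z' hz' => ?_⟩⟩
  have h1 := hbz z hz
  have h2 := hbz (z + z') (dvd_add hz hz')
  have e1 : w + z + z' = w + (z + z') := by ring
  have e2 : w + z - 1 + z' = w - 1 + (z + z') := by ring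
  have e3 : w + z - 1 = w - 1 + z := by ring
  rw [e1, e2, e3]
  linear_combination h2 - h1

lemma exists_Sl (w : ℤ) (hw : w ≠ 0) : ∃ a : ℚ, Sl h w a := by
  obtain ⟨E, hE, hwE⟩ := exists_big hS.toMd w
  obtain ⟨P, hP, hMP, hall⟩ := transl hS hT hinj hloc E hE
  obtain ⟨b, hb, hbz⟩ := hall (w - 1) (by
    rw [sub_add_cancel]
    exact lt_abs_dvd hw hwE)
  rw [sub_add_cancel] at hbz
  exact ⟨b, P, hS.toMd.pos _ hP, hbz⟩

/-- scaling near `0` and near `-1` simultaneously -/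
lemma scale2 (q : ℤ) (hqS : S q) : ∃ M : ℤ, S M ∧ ∃ c : ℚ, 0 < c ∧ ∃ κ : ℚ, 0 < κ ∧
    (∀ w : ℤ, M ∣ w → h (q * w) - h 0 = c * (h w - h 0)) ∧
    (∀ w : ℤ, M ∣ w → h (q * w - 1) - h (-1) = c * κ⁻¹ * (h (w - 1) - h (-1))) ∧
    (∀ w : ℤ, w ≠ 0 → M ∣ w → ∀ a : ℚ, Sl h w a → Sl h (q * w) (κ * a)) := by
  have hq := hS.toMd.pos _ hqS
  obtain ⟨M1, hM1, c1, hc1, h1⟩ := scale hS hT hinj hloc 0 q hqS
  obtain ⟨M2, hM2, c2, hc2, h2⟩ := scale hS hT hinj hloc (-1) q hqS
  replace hc1 := hc1.pos hT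
  replace hc2 := hc2.pos hT
  have hM10 := hS.toMd.pos _ hM1
  have hM20 := hS.toMd.pos _ hM2
  have h1' : ∀ w : ℤ, M1 * M2 ∣ w → h (q * w) - h 0 = c1 * (h w - h 0) := by
    intro w hw
    have := h1 w ((dvd_mul_right _ _).trans hw)
    rwa [zero_add, zero_add] at this
  have h2' : ∀ w : ℤ, M1 * M2 ∣ w →
      h (q * w - 1) - h (-1) = c2 * (h (w - 1) - h (-1)) := by
    intro w hw
    have := h2 w ((dvd_mul_left _ _).trans hw)
    rwa [neg_add_eq_sub, neg_add_eq_sub] at this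
  have hc2' := hc2.ne'
  have hc1' := hc1.ne'
  refine ⟨M1 * M2, hS.toMd.mul _ _ hM1 hM2, c1, hc1, c1 / c2, by positivity, h1', ?_, ?_⟩
  · intro w hw
    rw [h2' w hw, inv_div, mul_div_cancel₀ _ hc1']
  · rintro w hw hMw a ⟨P, hP, hPa⟩
    refine ⟨q * (P * (M1 * M2)), by positivity, ?_⟩
    rintro z ⟨k, rfl⟩
    set z' : ℤ := P * (M1 * M2) * k with hz'
    have hz1 : P ∣ z' := ⟨M1 * M2 * k, by rw [hz']; ring⟩
    have hz2 : M1 * M2 ∣ z' := ⟨P * k, by rw [hz']; ring⟩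
    have h3 := hPa z' hz1
    have e1 := h1' (w + z') (dvd_add hMw hz2)
    have e2 := h1' w hMw
    have e3 := h2' (w + z') (dvd_add hMw hz2)
    have e4 := h2' w hMw
    have f1 : q * w + q * (P * (M1 * M2)) * k = q * (w + z') := by rw [hz']; ring
    have f2 : q * w - 1 + q * (P * (M1 * M2)) * k = q * (w + z') - 1 := by rw [hz']; ring
    have f3 : w + z' - 1 = w - 1 + z' := by ring
    rw [f1, f2]
    rw [f3] at e3
    have e5 : h (q * (w + z')) - h (q * w) = c1 * (h (w + z') - h w) := by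
      linear_combination e1 - e2
    have e6 : h (q * (w + z') - 1) - h (q * w - 1) =
        c2 * (h (w - 1 + z') - h (w - 1)) := by
      linear_combination e3 - e4
    rw [e5, e6, h3]
    field_simp

omit hS hT hinj hloc in
/-- pigeonhole -/
lemma pigeon (P : ℤ) (hP : 0 < P) (f : ℕ → ℤ) : ∃ i j : ℕ, i < j ∧ P ∣ f j - f i := by
  have hmap : ∀ n : ℕ, f n % P ∈ Finset.Ico (0 : ℤ) P := fun n =>
    Finset.mem_Ico.2 ⟨Int.emod_nonneg _ hP.ne', Int.emod_lt_of_pos _ hP⟩
  obtain ⟨i, j, hij, he⟩ := Finite.exists_ne_map_eq_of_infinite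
    (fun n : ℕ => (⟨f n % P, hmap n⟩ : Finset.Ico (0 : ℤ) P))
  have he' : f i % P = f j % P := congrArg Subtype.val he
  have h1 : P ∣ f j - f i := Int.ModEq.dvd he'
  rcases lt_or_gt_of_ne hij with h | h
  · exact ⟨i, j, h, h1⟩
  · refine ⟨j, i, h, ?_⟩
    rw [← neg_sub, dvd_neg]
    exact h1

/-- Step A: the two scaling factors agree -/
lemma scale3 (q : ℤ) (hqS : S q) (N : ℤ) (hNS : S N) (hN : ∀ n : ℕ, ¬ N ∣ q ^ n) :
    ∃ M : ℤ, S M ∧ ∃ c : ℚ, 0 < c ∧
    (∀ w : ℤ, M ∣ w → h (q * w) - h 0 = c * (h w - h 0)) ∧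
    (∀ w : ℤ, M ∣ w → h (q * w - 1) - h (-1) = c * (h (w - 1) - h (-1))) ∧
    (∀ w : ℤ, w ≠ 0 → M ∣ w → ∀ a : ℚ, Sl h w a → Sl h (q * w) a) := by
  have hq := hS.toMd.pos _ hqS
  obtain ⟨M, hMS, c, hc, κ, hκ, h1, h2, h3⟩ := scale2 hS hT hinj hloc q hqS
  have hM := hS.toMd.pos _ hMS
  have hκ1 : κ = 1 := by
    obtain ⟨P, hPS, hMP, hun⟩ := unif_slope hS hT hinj hloc (M * N) (hS.toMd.mul _ _ hMS hNS)
    have hP := hS.toMd.pos _ hPS
    obtain ⟨i, j, hij, hdvd⟩ := pigeon P hP (fun n => q ^ n * M)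
    obtain ⟨a, ha⟩ := exists_Sl hS hT hinj hloc M hM.ne'
    have hpow : ∀ n : ℕ, Sl h (q ^ n * M) (κ ^ n * a) := by
      intro n
      induction n with
      | zero => simpa using ha
      | succ n ih =>
        have := h3 (q ^ n * M) (by positivity) (dvd_mul_left _ _) _ ih
        have e1 : q * (q ^ n * M) = q ^ (n + 1) * M := by ring
        have e2 : κ * (κ ^ n * a) = κ ^ (n + 1) * a := by ring
        rwa [e1, e2] at this
    have hnd : ∀ n : ℕ, ¬ M * N ∣ q ^ n * M := by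
      intro n hd
      rw [mul_comm (q ^ n)] at hd
      exact hN n (Int.dvd_of_mul_dvd_mul_left hM.ne' hd)
    obtain ⟨hpos, h4⟩ := hun (q ^ i * M) (hnd i) _ (hpow i)
    obtain ⟨_, h5⟩ := h4 _ hdvd
    have e : q ^ i * M + (q ^ j * M - q ^ i * M) = q ^ j * M := by ring
    simp only [e] at h5
    have h6 := (hpow j).unique hinj h5
    have ha0 : a ≠ 0 := by
      rintro rfl
      have := hpos.pos hT
      simp at this
    have h7 : κ ^ j = κ ^ i := mul_right_cancel₀ ha0 h6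
    by_contra hne
    rcases lt_or_gt_of_ne hne with h8 | h8
    · have := pow_lt_pow_right_of_lt_one₀ hκ h8 hij
      linarith
    · have := pow_lt_pow_right₀ h8 hij
      linarith
  rw [hκ1] at h2 h3
  refine ⟨M, hMS, c, hc, h1, fun w hw => by simpa using h2 w hw, fun w hw0 hw a ha => ?_⟩
  simpa using h3 w hw0 hw a ha

end main

end Pool.Agent.H26.G1
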