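import Pool.Agent.H26.G4

set_option autoImplicit false

namespace Pool.Agent.H26.G1

open Pool.Agent.H26.GS Pool.Agent.H26.Rub

variable {S T : ℤ → Prop}

lemma pow_split (p : ℤ) (hp : Prime p) (P : ℤ) (hP : P ≠ 0) :
    ∃ (s : ℕ) (P1 : ℤ), P = p ^ s * P1 ∧ ¬ p ∣ P1 := by
  have hf : FiniteMultiplicity p P := Int.finiteMultiplicity_iff.2 ⟨by
    intro h
    exact hp.not_unit (Int.isUnit_iff_natAbs_eq.2 h), hP⟩
  obtain ⟨c, hc, hc2⟩ := hf.exists_eq_pow_mul_and_not_dvd
  exact ⟨_, c, hc, hc2⟩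

lemma cop_pow_two {Q : ℤ} (hQ : ¬ 2 ∣ Q) (s : ℕ) : IsCoprime Q (2 ^ s) := by
  apply IsCoprime.pow_right
  exact ((Int.isCoprime_iff_gcd_eq_one.2 (by
    have := (Int.prime_two.coprime_iff_not_dvd (n := Q)).2 hQ
    rw [Int.isCoprime_iff_gcd_eq_one] at this
    exact this))).symm

section main

variable (hS : Sp S) (hT : Md T) {h : ℤ → ℚ} (hinj : Function.Injective h)
  (hloc : ∀ g : GG S, ∃ P : ℤ, S P ∧ ∀ x : ℤ, ∃ c : ℚ, Ra T c ∧
    ∀ k : ℤ, h (g • (x + P * k)) - h (g • x) = c * (h (x + P * k) - h x))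
  (r : ℤ) (hr : Prime r) (hrS : S r) (hr2 : ¬ (2 : ℤ) ∣ r)

include hr hr2 in
lemma not_r_dvd (n : ℕ) : ¬ r ∣ 2 ^ n := by
  intro hd
  have h1 : r ∣ 2 := hr.dvd_of_dvd_pow hd
  have h2 := Int.natAbs_dvd_natAbs.2 h1
  have h3 : r.natAbs ∣ 2 := h2
  rcases (Nat.dvd_prime Nat.prime_two).1 h3 with h4 | h4
  · exact hr.not_unit (Int.isUnit_iff_natAbs_eq.2 h4)
  · apply hr2
    rw [← Int.natAbs_dvd_natAbs, h4]
    rfl

omit hS hT hinj hloc in
include hr2 in
lemma not_two_dvd (n : ℕ) : ¬ 2 ∣ r ^ n := by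
  intro hd
  exact hr2 (Int.prime_two.dvd_of_dvd_pow hd)

include hS hT hinj hloc hr hrS hr2

/-- Step B: the slope is constant near `0` -/
lemma const_near : ∃ R : ℤ, S R ∧ ∃ a : ℚ, Ra T a ∧ ∀ w : ℤ, w ≠ 0 → R ∣ w → Sl h w a := by
  have hSM : Md S := hS.toMd
  obtain ⟨M2, hM2, -, -, -, -, hS2⟩ := scale3 hS hT hinj hloc 2 hSM.two r hrS (not_r_dvd r hr hr2)
  obtain ⟨Mr, hMr, -, -, -, -, hSr⟩ := scale3 hS hT hinj hloc r hrS 2 hSM.two (not_two_dvd r hr2)
  set M : ℤ := M2 * Mr with hM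
  have hMS : S M := hSM.mul _ _ hM2 hMr
  have hM0 : 0 < M := hSM.pos _ hMS
  obtain ⟨P, hPS, hMP, hun⟩ := unif_slope hS hT hinj hloc (2 * M) (hSM.mul _ _ hSM.two hMS)
  have hP : 0 < P := hSM.pos _ hPS
  obtain ⟨s, P1, hP1, hodd1⟩ := pow_split 2 Int.prime_two P hP.ne'
  have hP10 : 0 < P1 := by
    rw [hP1] at hP
    exact (mul_pos_iff_of_pos_left (by positivity)).1 hP
  have hP1S : S P1 := hS.div P1 P hP10 hPS ⟨2 ^ s, by rw [hP1]; ring⟩
  have hs : s ≠ 0 := by
    rintro rfl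
    apply hodd1
    rw [pow_zero, one_mul] at hP1
    rw [← hP1]
    exact (dvd_mul_right 2 M).trans hMP
  have h2s : (2 : ℤ) ∣ 2 ^ s := dvd_pow_self 2 hs
  set R : ℤ := M * P1 with hR
  have hRS : S R := hSM.mul _ _ hMS hP1S
  have hR0 : 0 < R := hSM.pos _ hRS
  have hprime : Prime (2 : ℤ) := Int.prime_two
  have hR1 : ¬ 2 * M ∣ R := by
    intro hd
    rw [hR, mul_comm 2 M] at hd
    exact hodd1 (Int.dvd_of_mul_dvd_mul_left hM0.ne' hd)
  have hE2 : ∀ (i : ℕ) (w : ℤ), w ≠ 0 → M ∣ w → ∀ a, Sl h w a → Sl h (2 ^ i * w) a := by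
    intro i
    induction i with
    | zero => intro w _ _ a ha; simpa using ha
    | succ i ih =>
      intro w hw hMw a ha
      have := hS2 (2 ^ i * w) (by positivity)
        (((dvd_mul_right M2 Mr).trans hMw).mul_left _) a (ih w hw hMw a ha)
      have e : 2 * (2 ^ i * w) = 2 ^ (i + 1) * w := by ring
      rwa [e] at this
  have hr0 : r ≠ 0 := hr.ne_zero
  have hEr : ∀ (i : ℕ) (w : ℤ), w ≠ 0 → M ∣ w → ∀ a, Sl h w a → Sl h (r ^ i * w) a := by
    intro i
    induction i with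
    | zero => intro w _ _ a ha; simpa using ha
    | succ i ih =>
      intro w hw hMw a ha
      have := hSr (r ^ i * w) (by positivity)
        (((dvd_mul_left Mr M2).trans hMw).mul_left _) a (ih w hw hMw a ha)
      have e : r * (r ^ i * w) = r ^ (i + 1) * w := by ring
      rwa [e] at this
  have hMR : ∀ v, M ∣ R * v := fun v => ⟨P1 * v, by rw [hR]; ring⟩
  obtain ⟨a0, ha0⟩ := exists_Sl hS hT hinj hloc R hR0.ne'
  have ha0R : Ra T a0 := (hun R hR1 a0 ha0).1
  -- the second modulus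
  obtain ⟨P', hP'S, ⟨c', hc'⟩, hun'⟩ := unif_slope hS hT hinj hloc (R * r) (hSM.mul _ _ hRS hrS)
  have hP' : 0 < P' := hSM.pos _ hP'S
  have hQ'0 : r * c' ≠ 0 := by
    intro h0
    rw [mul_assoc, h0, mul_zero] at hc'
    omega
  obtain ⟨u, Q2, hQ2, hQ2odd⟩ := pow_split 2 Int.prime_two (r * c') hQ'0
  have hmain : ∀ y : ℤ, ¬ 2 ∣ y → ¬ r ∣ y → Sl h (R * y) a0 := by
    intro y hy hry
    obtain ⟨α, β, hαβ⟩ := cop_pow_two hQ2odd s
    have hy0 : y ≠ 0 := by
      rintro rfl
      exact hy (dvd_zero 2)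
    set z : ℤ := (1 - y) * α with hz
    set y1 : ℤ := 1 + 2 ^ s * (-(1 - y) * β) with hy1
    have hyz : y + Q2 * z = y1 := by
      rw [hz, hy1]
      linear_combination (1 - y) * hαβ
    have hy1odd : ¬ 2 ∣ y1 := by
      intro h2
      have h3 : (2 : ℤ) ∣ 2 ^ s * (-(1 - y) * β) := h2s.mul_right _
      have := dvd_sub h2 h3
      rw [hy1, add_sub_cancel_right] at this
      exact absurd this (by decide)
    have hy10 : y1 ≠ 0 := by
      intro h0
      apply hy1odd
      rw [h0]; exact dvd_zero 2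
    have s1 : Sl h (R * y1) a0 := by
      have h3 := ((hun R hR1 a0 ha0).2 (R * (y1 - 1)) ⟨M * (-(1 - y) * β), by
        rw [hy1, hR, hP1]; ring⟩).2
      have e1 : R + R * (y1 - 1) = R * y1 := by ring
      rwa [e1] at h3
    have s2 := hE2 u (R * y1) (by positivity) (hMR _) a0 s1
    have hw0 : 2 ^ u * (R * y) ≠ 0 := by positivity
    obtain ⟨b, hb⟩ := exists_Sl hS hT hinj hloc (2 ^ u * (R * y)) hw0
    have hnd : ¬ R * r ∣ 2 ^ u * (R * y) := by
      intro hd
      have e : 2 ^ u * (R * y) = R * (2 ^ u * y) := by ring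
      rw [e] at hd
      have h3 := Int.dvd_of_mul_dvd_mul_left hR0.ne' hd
      rcases hr.dvd_or_dvd h3 with h4 | h4
      · exact not_r_dvd r hr hr2 u h4
      · exact hry h4
    have s3 := ((hun' _ hnd b hb).2 (P' * z) (dvd_mul_right _ _)).2
    have e3 : 2 ^ u * (R * y) + P' * z = 2 ^ u * (R * y1) := by
      rw [← hyz, hc', mul_assoc R r c', hQ2]
      ring
    rw [e3] at s3
    have hba : b = a0 := s3.unique hinj s2
    rw [hba] at hb
    obtain ⟨b', hb'⟩ := exists_Sl hS hT hinj hloc (R * y) (by positivity)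
    have s4 := hE2 u (R * y) (by positivity) (hMR _) b' hb'
    have : b' = a0 := s4.unique hinj hb
    rwa [this] at hb'
  refine ⟨R, hRS, a0, ha0R, ?_⟩
  rintro w hw ⟨v, rfl⟩
  have hv : v ≠ 0 := by
    rintro rfl
    exact hw (mul_zero _)
  obtain ⟨i, v1, hv1, hv1odd⟩ := pow_split 2 Int.prime_two v hv
  have hv10 : v1 ≠ 0 := by
    rintro rfl
    exact hv1odd (dvd_zero 2)
  obtain ⟨j, y, hy, hyr⟩ := pow_split r hr v1 hv10
  have hyodd : ¬ 2 ∣ y := fun h2 => hv1odd (by rw [hy]; exact h2.mul_left _)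
  have hy0 : y ≠ 0 := by
    rintro rfl
    exact hyr (dvd_zero r)
  have s1 := hEr j (R * y) (by positivity) (hMR y) a0 (hmain y hyodd hyr)
  have e1 : r ^ j * (R * y) = R * v1 := by rw [hy]; ring
  rw [e1] at s1
  have s2 := hE2 i (R * v1) (by positivity) (hMR v1) a0 s1
  have e2 : 2 ^ i * (R * v1) = R * v := by rw [hv1]; ring
  rwa [e2] at s2

/-- Step C -/
lemma cross : ∃ R : ℤ, S R ∧ ∃ a : ℚ, Ra T a ∧ ∀ w : ℤ, R ∣ w →
    h w - h 0 = a * (h (w - 1) - h (-1)) := by
  have hSM : Md S := hS.toMd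
  obtain ⟨R, hR, a, ha, hconst⟩ := const_near hS hT hinj hloc r hr hrS hr2
  obtain ⟨M, hM, c, hc, h1, h2, -⟩ := scale3 hS hT hinj hloc 2 hSM.two r hrS (not_r_dvd r hr hr2)
  refine ⟨R * M, hSM.mul _ _ hR hM, a, ha, fun w hw => ?_⟩
  by_cases hw0 : w = 0
  · rw [hw0]; simp
  have hMw : M ∣ w := (dvd_mul_left _ _).trans hw
  have hRw : R ∣ w := (dvd_mul_right _ _).trans hw
  have hU : ∀ j : ℕ, h (2 ^ j * w) - h 0 = c ^ j * (h w - h 0) := by
    intro j
    induction j with
    | zero => simp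
    | succ j ih =>
      have := h1 (2 ^ j * w) (hMw.mul_left _)
      have e : 2 * (2 ^ j * w) = 2 ^ (j + 1) * w := by ring
      rw [e, ih] at this
      rw [this]; ring
  have hL : ∀ j : ℕ, h (2 ^ j * w - 1) - h (-1) = c ^ j * (h (w - 1) - h (-1)) := by
    intro j
    induction j with
    | zero => simp
    | succ j ih =>
      have := h2 (2 ^ j * w) (hMw.mul_left _)
      have e : 2 * (2 ^ j * w) = 2 ^ (j + 1) * w := by ring
      rw [e, ih] at this
      rw [this]; ring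
  have hc1 : c ≠ 1 := by
    rintro rfl
    have := h1 w hMw
    rw [one_mul] at this
    have h3 : h (2 * w) = h w := by linear_combination this
    have h4 : 2 * w = w := hinj h3
    omega
  -- a modulus not dividing `2 ^ i * w`
  obtain ⟨N, hNS, hN⟩ : ∃ N : ℤ, S N ∧ ∀ i : ℕ, ¬ N ∣ 2 ^ i * w := by
    obtain ⟨k, w1, hw1, hrw1⟩ := pow_split r hr w hw0
    refine ⟨r ^ (k + 1), ?_, fun i hd => ?_⟩
    · have : ∀ n : ℕ, S (r ^ n) := by
        intro n
        induction n with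
        | zero => simpa using hSM.one
        | succ n ih => rw [pow_succ]; exact hSM.mul _ _ ih hrS
      exact this _
    · rw [hw1] at hd
      have e : 2 ^ i * (r ^ k * w1) = r ^ k * (2 ^ i * w1) := by ring
      rw [e, pow_succ] at hd
      have h3 := Int.dvd_of_mul_dvd_mul_left (pow_ne_zero k hr.ne_zero) hd
      rcases hr.dvd_or_dvd h3 with h4 | h4
      · exact not_r_dvd r hr hr2 i h4
      · exact hrw1 h4
  obtain ⟨P, hPS, hMP, hun⟩ := unif_slope hS hT hinj hloc N hNS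
  obtain ⟨i, j, hij, hdvd⟩ := pigeon P (hSM.pos _ hPS) (fun n => 2 ^ n * w)
  have hw2 : ∀ j : ℕ, 2 ^ j * w ≠ 0 := fun j => by positivity
  have h3 := ((hun _ (hN i) a (hconst _ (hw2 i) (hRw.mul_left _))).2 _ hdvd).1
  have e1 : 2 ^ i * w + (2 ^ j * w - 2 ^ i * w) = 2 ^ j * w := by ring
  have e2 : 2 ^ i * w - 1 + (2 ^ j * w - 2 ^ i * w) = 2 ^ j * w - 1 := by ring
  simp only [e1, e2] at h3
  have h4 : (c ^ j - c ^ i) * ((h w - h 0) - a * (h (w - 1) - h (-1))) = 0 := by
    linear_combination h3 - hU j + hU i + a * hL j - a * hL i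
  have hcij : c ^ j - c ^ i ≠ 0 := by
    rw [sub_ne_zero]
    intro h7
    rcases lt_or_gt_of_ne hc1 with h8 | h8
    · have := pow_lt_pow_right_of_lt_one₀ hc h8 hij
      linarith
    · have := pow_lt_pow_right₀ h8 hij
      linarith
  have h5 := (mul_eq_zero.1 h4).resolve_left hcij
  linear_combination h5

/-- translation by one is locally affine everywhere -/
lemma transl_all : ∃ P : ℤ, S P ∧ ∀ x : ℤ, ∃ b : ℚ, Ra T b ∧ ∀ z : ℤ, P ∣ z →
    h (x + 1 + z) - h (x + 1) = b * (h (x + z) - h x) := by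
  obtain ⟨R, hR, a, ha, hcr⟩ := cross hS hT hinj hloc r hr hrS hr2
  obtain ⟨P, hP, hRP, hall⟩ := transl hS hT hinj hloc R hR
  refine ⟨P, hP, fun x => ?_⟩
  by_cases hx : R ∣ x + 1
  · refine ⟨a, ha, fun z hz => ?_⟩
    have e1 := hcr (x + 1 + z) (dvd_add hx (hRP.trans hz))
    have e2 := hcr (x + 1) hx
    have f1 : x + 1 + z - 1 = x + z := by ring
    have f2 : x + 1 - 1 = x := by ring
    rw [f1] at e1
    rw [f2] at e2
    linear_combination e1 - e2
  · exact hall x hx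

omit hT in
theorem h_aff (hT : Sp T) (hlam : ∀ n, Lam T (h n)) : ∃ P : ℤ, S P ∧ ∃ dd : ℤ → ℚ,
    (∀ x, Lam T (dd x)) ∧ (∀ x, dd x ≠ 0) ∧ ∀ x k : ℤ, h (x + P * k) = h x + k * dd x := by
  have hTM : Md T := hT.toMd
  have hSM : Md S := hS.toMd
  obtain ⟨P, hPS, hall⟩ := transl_all hS hTM hinj hloc r hr hrS hr2
  have hP : 0 < P := hSM.pos _ hPS
  choose b hb hbz using hall
  have hper : ∀ x, b (x + P) = b x := by
    intro x
    have h1 := hbz (x + P) P dvd_rfl
    have h2 := hbz x P dvd_rfl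
    have h3 := hbz x (P + P) (dvd_add dvd_rfl dvd_rfl)
    have e1 : x + P + 1 + P = x + 1 + (P + P) := by ring
    have e2 : x + P + 1 = x + 1 + P := by ring
    have e3 : x + P + P = x + (P + P) := by ring
    rw [e1, e2, e3] at h1
    have h4 : h (x + (P + P)) - h (x + P) ≠ 0 := h_sub_ne hinj (by omega)
    apply mul_right_cancel₀ h4
    linear_combination h3 - h2 - h1
  have hprod : ∀ (x : ℤ) (n : ℕ) (z : ℤ), P ∣ z → h (x + n + z) - h (x + n) =
      (∏ i ∈ Finset.range n, b (x + i)) * (h (x + z) - h x) := by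
    intro x n
    induction n with
    | zero => intro z _; simp
    | succ n ih =>
      intro z hz
      have h1 := hbz (x + n) z hz
      rw [Finset.prod_range_succ]
      push_cast
      have e1 : x + (n + 1) + z = x + n + 1 + z := by ring
      have e2 : x + ((n : ℤ) + 1) = x + n + 1 := by ring
      rw [e1, e2, h1, ih z hz]
      ring
  set N : ℕ := P.toNat with hN
  have hNP : (N : ℤ) = P := Int.toNat_of_nonneg hP.le
  set Pi : ℤ → ℚ := fun x => ∏ i ∈ Finset.range N, b (x + i) with hPi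
  have hPiper : ∀ x, Pi (x + P) = Pi x := by
    intro x
    simp only [hPi]
    apply Finset.prod_congr rfl
    intro i _
    have : x + P + (i : ℤ) = x + i + P := by ring
    rw [this, hper]
  have hPiR : ∀ x, Ra T (Pi x) := fun x =>
    Finset.prod_induction _ (Ra T) (fun a b ha hb => ha.mul hTM hb) (Ra.one hTM) (fun i _ => hb _)
  have hPipos : ∀ x, 0 < Pi x := fun x => (hPiR x).pos hTM
  set dd : ℤ → ℚ := fun x => h (x + P) - h x with hdd
  have hddL : ∀ x, Lam T (dd x) := fun x => (hlam _).sub (hlam _)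
  have hddne : ∀ x, dd x ≠ 0 := by
    intro x
    exact h_sub_ne hinj (by omega)
  have hddP : ∀ x, dd (x + P) = Pi x * dd x := by
    intro x
    have := hprod x N P dvd_rfl
    rw [hNP] at this
    exact this
  have hPik : ∀ (x : ℤ) (k : ℕ), Pi (x + P * k) = Pi x := by
    intro x k
    induction k with
    | zero => simp
    | succ k ih =>
      have e : x + P * ((k + 1 : ℕ) : ℤ) = x + P * k + P := by push_cast; ring
      rw [e, hPiper, ih]
  have hddk : ∀ (x : ℤ) (k : ℕ), dd (x + P * k) = Pi x ^ k * dd x := by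
    intro x k
    induction k with
    | zero => simp
    | succ k ih =>
      have e : x + P * ((k + 1 : ℕ) : ℤ) = x + P * k + P := by push_cast; ring
      rw [e, hddP, hPik, ih]
      ring
  have hPi1 : ∀ x, Pi x = 1 := by
    intro x
    have d1 := den_one hT (Pi x) (hPiR x) (dd x) (hddne x) (hddL x) (fun k => by
      rw [← hddk x k]; exact hddL _)
    have hRinv : Ra T (Pi x)⁻¹ := by
      obtain ⟨C, m, hC, hm, he⟩ := hPiR x
      exact ⟨m, C, hm, hC, by rw [he, inv_div]⟩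
    have d2 := den_one hT (Pi x)⁻¹ hRinv (dd x) (hddne x) (hddL x) (fun k => by
      have h1 := hddk (x - P * k) k
      have h2 := hPik (x - P * k) k
      rw [sub_add_cancel] at h1 h2
      rw [← h2] at h1
      have h3 : (Pi x)⁻¹ ^ k * dd x = dd (x - P * k) := by
        rw [h1, ← mul_assoc, ← mul_pow, inv_mul_cancel₀ (hPipos x).ne', one_pow, one_mul]
      rw [h3]
      exact hddL _)
    have n1 : Pi x = (Pi x).num := (Rat.coe_int_num_of_den_eq_one d1).symm
    have n2 : (Pi x)⁻¹ = ((Pi x)⁻¹).num := (Rat.coe_int_num_of_den_eq_one d2).symm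
    have p1 : 0 < (Pi x).num := Rat.num_pos.2 (hPipos x)
    have p2 : 0 < ((Pi x)⁻¹).num := Rat.num_pos.2 (inv_pos.2 (hPipos x))
    have h3 : (Pi x).num * ((Pi x)⁻¹).num = 1 := by
      have : ((Pi x).num : ℚ) * (((Pi x)⁻¹).num : ℚ) = 1 := by
        rw [← n1, ← n2, mul_inv_cancel₀ (hPipos x).ne']
      exact_mod_cast this
    have h4 : (Pi x).num = 1 := by
      have := Int.eq_one_or_neg_one_of_mul_eq_one h3
      rcases this with h | h
      · exact h
      · omega
    rw [n1, h4]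
    simp
  refine ⟨P, hPS, dd, hddL, hddne, fun x k => ?_⟩
  have hdd1 : ∀ y, dd (y + P) = dd y := by
    intro y
    have := hddP y
    rwa [hPi1, one_mul] at this
  have hddall : ∀ k : ℤ, dd (x + P * k) = dd x := by
    intro k
    induction k using Int.induction_on with
    | zero => simp
    | succ k ih =>
      have e : x + P * ((k : ℤ) + 1) = x + P * k + P := by ring
      rw [e, hdd1, ih]
    | pred k ih =>
      have e : x + P * (-(k : ℤ)) = x + P * (-(k : ℤ) - 1) + P := by ring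
      rw [e, hdd1] at ih
      exact ih
  induction k using Int.induction_on with
  | zero => simp
  | succ k ih =>
    have e : x + P * ((k : ℤ) + 1) = x + P * k + P := by ring
    have h5 := hddall k
    have h6 : dd (x + P * k) = h (x + P * k + P) - h (x + P * k) := rfl
    rw [e]
    push_cast
    push_cast at ih
    linear_combination h5 + ih - h6
  | pred k ih =>
    have e : x + P * (-(k : ℤ)) = x + P * (-(k : ℤ) - 1) + P := by ring
    have h5 := hddall (-(k : ℤ) - 1)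
    have h6 : dd (x + P * (-(k : ℤ) - 1)) =
      h (x + P * (-(k : ℤ) - 1) + P) - h (x + P * (-(k : ℤ) - 1)) := rfl
    rw [e] at ih
    push_cast
    push_cast at ih
    linear_combination ih - h5 + h6

end main

end Pool.Agent.H26.G1
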