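import Pool.Agent.H26.G5
import Pool.Agent.H26.CTPDefs

set_option autoImplicit false

namespace Pool.Agent.H26.G1

open Pool.Agent.H26.GS Pool.Agent.H26.Rub Pool.Agent.H26.CTPDefs

/-- admissible moduli for `P` -/
def SP (P : Set ℕ) (m : ℤ) : Prop := 0 < m ∧ PrimeDivisorsIn P m

lemma sp_SP (P : Set ℕ) (hP : ∀ p ∈ P, p.Prime) : Sp (SP P) where
  pos m hm := hm.1
  one := ⟨one_pos, fun p hp hd => by
    have h1 : p ∣ 1 := by exact_mod_cast hd
    exact absurd (Nat.dvd_one.1 h1) hp.one_lt.ne'⟩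
  two := ⟨two_pos, fun p hp hd => by
    have h1 : p ∣ 2 := by exact_mod_cast hd
    right
    exact (Nat.prime_dvd_prime_iff_eq hp Nat.prime_two).1 h1⟩
  mul m n hm hn := ⟨mul_pos hm.1 hn.1, fun p hp hd => by
    rcases (Nat.prime_iff_prime_int.1 hp).dvd_or_dvd hd with h | h
    · exact hm.2 p hp h
    · exact hn.2 p hp h⟩
  div m n hm hn hd := ⟨hm, fun p hp h => hn.2 p hp (h.trans hd)⟩
  split := by
    intro D
    induction hN : D.natAbs using Nat.strong_induction_on generalizing D with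
    | _ N ih =>
      intro hD
      by_cases hex : ∃ p : ℕ, p.Prime ∧ p ∈ P ∪ {2} ∧ (p : ℤ) ∣ D
      · obtain ⟨p, hp, hpP, D', rfl⟩ := hex
        have hD' : D' ≠ 0 := right_ne_zero_of_mul hD
        have hlt : D'.natAbs < N := by
          rw [← hN, Int.natAbs_mul, Int.natAbs_natCast]
          have h1 : 0 < D'.natAbs := Int.natAbs_pos.2 hD'
          have h2 := hp.two_le
          nlinarith
        obtain ⟨D1, D2, h1, h2, h3⟩ := ih _ hlt D' rfl hD'
        refine ⟨p * D1, D2, ⟨mul_pos (by exact_mod_cast hp.pos) h1.1, fun q hq hd => ?_⟩, h2, by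
          rw [mul_assoc, ← h3]⟩
        rcases (Nat.prime_iff_prime_int.1 hq).dvd_or_dvd hd with h | h
        · have h4 : q ∣ p := by exact_mod_cast h
          rw [(Nat.prime_dvd_prime_iff_eq hq hp).1 h4]
          exact hpP
        · exact h1.2 q hq h
      · push Not at hex
        refine ⟨1, D, ⟨one_pos, fun p hp hd => ?_⟩, ⟨hD, fun m hm => ?_⟩, by ring⟩
        · have h1 : p ∣ 1 := by exact_mod_cast hd
          exact absurd (Nat.dvd_one.1 h1) hp.one_lt.ne'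
        · rw [Int.isCoprime_iff_gcd_eq_one]
          by_contra hne
          obtain ⟨p, hp, h1, h2⟩ := Nat.Prime.not_coprime_iff_dvd.1 hne
          have h1' : (p : ℤ) ∣ D := Int.natCast_dvd.2 h1
          have h2' : (p : ℤ) ∣ m := Int.natCast_dvd.2 h2
          exact hex p hp (hm.2 p hp h2') h1'

lemma CTP_eq (P : Set ℕ) : CTP P = GS (SP P) := by
  have : {σ : Equiv.Perm ℤ | ∃ r₁ m₁ r₂ m₂ : ℤ, IsClassTransposition r₁ m₁ r₂ m₂ σ ∧
    PrimeDivisorsIn P m₁ ∧ PrimeDivisorsIn P m₂} = {σ | Gen (SP P) σ} := by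
    ext σ
    constructor
    · rintro ⟨r₁, m₁, r₂, m₂, ⟨h1, h2, h3, h4, h5, h6, h7⟩, hp1, hp2⟩
      refine ⟨r₁, m₁, r₂, m₂, ⟨by omega, hp1⟩, ⟨by omega, hp2⟩, h1, h2, h3, h4, ?_, ?_, ?_⟩
      · rintro n ⟨e1, e2⟩
        apply h5
        refine ⟨n, ?_, ?_⟩
        · rw [Int.ModEq, Int.emod_eq_of_lt h1 h2] at e1
          exact e1
        · rw [Int.ModEq, Int.emod_eq_of_lt h3 h4] at e2
          exact e2
      · intro k
        rw [mul_comm m₁ k, mul_comm m₂ k]
        exact h6 k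
      · intro n e1 e2
        apply h7
        · rw [Int.ModEq, Int.emod_eq_of_lt h1 h2] at e1
          exact e1
        · rw [Int.ModEq, Int.emod_eq_of_lt h3 h4] at e2
          exact e2
    · rintro ⟨r₁, m₁, r₂, m₂, hp1, hp2, h1, h2, h3, h4, h5, h6, h7⟩
      refine ⟨r₁, m₁, r₂, m₂, ⟨h1, h2, h3, h4, ?_, ?_, ?_⟩, hp1.2, hp2.2⟩
      · rintro ⟨n, e1, e2⟩
        apply h5 n
        rw [Int.ModEq, Int.ModEq, Int.emod_eq_of_lt h1 h2, Int.emod_eq_of_lt h3 h4]
        exact ⟨e1, e2⟩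
      · intro k
        rw [mul_comm k m₁, mul_comm k m₂]
        exact h6 k
      · intro n e1 e2
        apply h7
        · rw [Int.ModEq, Int.emod_eq_of_lt h1 h2]
          exact e1
        · rw [Int.ModEq, Int.emod_eq_of_lt h3 h4]
          exact e2
  rw [CTP, GS, this]

lemma key (P Q : Set ℕ) (hP : IsSetOfOddPrimes P) (hQ : IsSetOfOddPrimes Q)
    (Φ : GG (SP P) ≃* GG (SP Q)) (r : ℕ) (hr : r ∈ P) : P = Q := by
  have hS : Sp (SP P) := sp_SP P (fun p hp => (hP p hp).1)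
  have hT : Sp (SP Q) := sp_SP Q (fun p hp => (hQ p hp).1)
  have hSM := hS.toMd
  have hTM := hT.toMd
  obtain ⟨h, hh⟩ := exists_PM hSM hT Φ
  have hprime : ∀ (R : Set ℕ), IsSetOfOddPrimes R → ∀ p ∈ R, SP R (p : ℤ) := by
    intro R hR p hp
    refine ⟨by exact_mod_cast (hR p hp).1.pos, fun q hq hd => ?_⟩
    have h4 : q ∣ p := by exact_mod_cast hd
    rw [(Nat.prime_dvd_prime_iff_eq hq (hR p hp).1).1 h4]
    exact Or.inl hp
  have hodd : ∀ (R : Set ℕ), IsSetOfOddPrimes R → ∀ p ∈ R, p ≠ 2 := by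
    intro R hR p hp h2
    have := (hR p hp).2
    rw [h2] at this
    exact absurd this (by decide)
  have hr2 : ¬ (2 : ℤ) ∣ (r : ℤ) := by
    intro h2
    have h3 : 2 ∣ r := by exact_mod_cast h2
    exact hodd P hP r hr ((Nat.prime_dvd_prime_iff_eq Nat.prime_two (hP r hr).1).1 h3).symm
  obtain ⟨Per, hPer, dd, hddL, hdd0, haff⟩ := h_aff hS (h_inj hSM hTM hh) (loc hSM hTM hh) (r : ℤ)
    (Nat.prime_iff_prime_int.1 (hP r hr).1) (hprime P hP r hr) hr2 hT hh.lam
  have hPer0 := hSM.pos _ hPer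
  apply Set.Subset.antisymm
  · -- `P ⊆ Q`
    intro p hp
    have hpS := hprime P hP p hp
    obtain ⟨N, hN, hall⟩ := icont hSM hTM hh (p * Per) (hSM.mul _ _ hpS hPer)
    have hN0 := hTM.pos _ hN
    have hNq : (N : ℚ) ≠ 0 := by exact_mod_cast hN0.ne'
    have h1 := hall (0 + Per * N) 0 (by
      rw [haff]
      have e : (h 0 + N * dd 0 - h 0) / N = dd 0 := by field_simp; ring
      rw [e]
      exact hddL 0)
    have h2 : (p : ℤ) ∣ N := by
      have e : 0 + Per * N - 0 = Per * N := by ring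
      rw [e, mul_comm (p : ℤ)] at h1
      exact Int.dvd_of_mul_dvd_mul_left hPer0.ne' h1
    rcases hN.2 p (hP p hp).1 h2 with h3 | h3
    · exact h3
    · exact absurd h3 (hodd P hP p hp)
  · -- `Q ⊆ P`
    intro q hq
    have hqT := hprime Q hQ q hq
    have hqp := Nat.prime_iff_prime_int.1 (hQ q hq).1
    obtain ⟨a, e, he, hae⟩ := hddL 0
    have heq : (e : ℚ) ≠ 0 := by exact_mod_cast he.1
    have ha : a ≠ 0 := by
      rintro rfl
      push_cast at hae
      rcases mul_eq_zero.1 hae with h | h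
      · exact hdd0 0 h
      · exact heq h
    obtain ⟨s, a1, ha1, hqa1⟩ := pow_split q hqp a ha
    have hpowT : ∀ n : ℕ, SP Q ((q : ℤ) ^ n) := by
      intro n
      induction n with
      | zero => simpa using hTM.one
      | succ n ih => rw [pow_succ]; exact hTM.mul _ _ ih hqT
    have hM0 : (q : ℤ) ^ (s + 1) ≠ 0 := pow_ne_zero _ hqp.ne_zero
    obtain ⟨P2, hP2, hcont⟩ := cont hSM hTM hh ((q : ℤ) ^ (s + 1)) (hpowT _)
    have h1 := hcont 0 Per
    have e1 : (0 : ℤ) + P2 * Per = 0 + Per * P2 := by ring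
    rw [e1, haff] at h1
    have h2 : Lam (SP Q) (((P2 * a : ℤ) : ℚ) / (((q : ℤ) ^ (s + 1) : ℤ) : ℚ)) := by
      have e2 : ((P2 * a : ℤ) : ℚ) / (((q : ℤ) ^ (s + 1) : ℤ) : ℚ) =
          (h 0 + P2 * dd 0 - h 0) / (((q : ℤ) ^ (s + 1) : ℤ) : ℚ) * (e : ℤ) := by
        push_cast
        rw [← hae]
        ring
      rw [e2]
      exact h1.mul (lam_int e)
    have h3 := lam_dvd hM0 (hpowT _) h2
    have h4 : (q : ℤ) ∣ P2 * a1 := by
      have e3 : P2 * a = (q : ℤ) ^ s * (P2 * a1) := by rw [ha1]; ring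
      rw [e3, pow_succ] at h3
      exact Int.dvd_of_mul_dvd_mul_left (pow_ne_zero _ hqp.ne_zero) h3
    rcases hqp.dvd_or_dvd h4 with h5 | h5
    · rcases hP2.2 q (hQ q hq).1 h5 with h6 | h6
      · exact h6
      · exact absurd h6 (hodd Q hQ q hq)
    · exact absurd h5 hqa1

theorem main (P Q : Set ℕ) (hP : IsSetOfOddPrimes P) (hQ : IsSetOfOddPrimes Q) (hne : P ≠ Q) :
    IsEmpty (CTP P ≃* CTP Q) := by
  refine ⟨fun Φ => hne ?_⟩
  have Φ' : GG (SP P) ≃* GG (SP Q) :=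
    ((MulEquiv.subgroupCongr (CTP_eq P)).symm.trans Φ).trans (MulEquiv.subgroupCongr (CTP_eq Q))
  rcases P.eq_empty_or_nonempty with h1 | ⟨r, hr⟩
  · rcases Q.eq_empty_or_nonempty with h2 | ⟨r, hr⟩
    · rw [h1, h2]
    · exact (key Q P hQ hP Φ'.symm r hr).symm
  · exact key P Q hP hQ Φ' r hr

end Pool.Agent.H26.G1
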