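import Mathlib

set_option autoImplicit false

namespace Pool.Agent.H26.Gep

open MvPolynomial

/-- substitution lemma: if `X j - σ (X j) ∈ I` for all `j` then `g - σ g ∈ I`. -/
lemma sub_sub_mem {n : ℕ} (I : Ideal (MvPolynomial (Fin n) ℂ))
    (s : Fin n → MvPolynomial (Fin n) ℂ) (hs : ∀ j, X j - s j ∈ I)
    (g : MvPolynomial (Fin n) ℂ) : g - aeval s g ∈ I := by
  have h : ((Ideal.Quotient.mkₐ ℂ I).comp (aeval s)) = Ideal.Quotient.mkₐ ℂ I := by
    apply MvPolynomial.algHom_ext
    intro j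
    simp only [AlgHom.comp_apply, aeval_X]
    refine (Ideal.Quotient.eq.mpr ?_).symm
    exact hs j
  have h2 := congrArg (fun φ => φ g) h
  simp only [AlgHom.comp_apply] at h2
  exact Ideal.Quotient.eq.mp h2.symm

lemma aeval_eval {m n : ℕ} (s : Fin n → MvPolynomial (Fin m) ℂ) (g : MvPolynomial (Fin n) ℂ)
    (x : Fin m → ℂ) : eval x (aeval s g) = eval (fun j => eval x (s j)) g := by
  have := MvPolynomial.comp_aeval_apply (R := ℂ) (S₁ := MvPolynomial (Fin m) ℂ) (B := ℂ)
    s (MvPolynomial.aeval x) g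
  simpa [MvPolynomial.aeval_eq_eval] using this

/-- vanishing on a line through the origin of the plane. -/
lemma dvd_of_line (α β : ℂ) (hαβ : α ≠ 0 ∨ β ≠ 0) (g : MvPolynomial (Fin 2) ℂ)
    (hg : ∀ t : ℂ, t ≠ 0 → eval ![t * α, t * β] g = 0) :
    (C β * X 0 - C α * X 1) ∣ g := by
  obtain ⟨θ0, θ1, hθ⟩ : ∃ θ0 θ1 : ℂ, θ0 * α + θ1 * β = 1 := by
    rcases hαβ with h | h
    · exact ⟨α⁻¹, 0, by field_simp; ring⟩
    · exact ⟨0, β⁻¹, by field_simp; ring⟩
  set Θ : MvPolynomial (Fin 2) ℂ := C θ0 * X 0 + C θ1 * X 1 with hΘ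
  have hΘ0 : Θ ≠ 0 := by
    intro h0
    have := congrArg (eval ![α, β]) h0
    simp [hΘ] at this
    rw [hθ] at this
    exact one_ne_zero this
  set s : Fin 2 → MvPolynomial (Fin 2) ℂ := ![C α * Θ, C β * Θ] with hs
  have h1 : g - aeval s g ∈ Ideal.span {C β * X 0 - C α * X 1} := by
    apply sub_sub_mem
    intro j
    rw [Ideal.mem_span_singleton]
    have hC : C θ0 * C α + C θ1 * C β = (1 : MvPolynomial (Fin 2) ℂ) := by
      rw [← C_mul, ← C_mul, ← C_add, hθ, C_1]
    fin_cases j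
    · refine ⟨C θ1, ?_⟩
      simp only [hs, hΘ]
      simp
      linear_combination (-(X 0 : MvPolynomial (Fin 2) ℂ)) * hC
    · refine ⟨-C θ0, ?_⟩
      simp only [hs, hΘ]
      simp
      linear_combination (-(X 1 : MvPolynomial (Fin 2) ℂ)) * hC
  have h2 : aeval s g = 0 := by
    have h3 : Θ * aeval s g = 0 := by
      apply MvPolynomial.funext
      intro x
      rw [map_mul, aeval_eval, map_zero]
      by_cases hx : eval x Θ = 0
      · rw [hx, zero_mul]
      · have := hg (eval x Θ) hx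
        have e : (fun j => eval x (s j)) = ![eval x Θ * α, eval x Θ * β] := by
          funext j
          fin_cases j <;> simp [hs, mul_comm]
        rw [e, this, mul_zero]
    exact (mul_eq_zero.mp h3).resolve_left hΘ0
  rw [h2, sub_zero, Ideal.mem_span_singleton] at h1
  exact h1

lemma prod_dvd {ι : Type*} [DecidableEq ι] (α β : ι → ℂ) 
    (h0 : ∀ k, α k ≠ 0 ∨ β k ≠ 0) (hnp : ∀ k k', k ≠ k' → α k * β k' - α k' * β k ≠ 0)
    (g : MvPolynomial (Fin 2) ℂ) (s : Finset ι)
    (hg : ∀ k ∈ s, ∀ t : ℂ, t ≠ 0 → eval ![t * α k, t * β k] g = 0) :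
    (∏ k ∈ s, (C (β k) * X 0 - C (α k) * X 1)) ∣ g := by
  induction s using Finset.induction_on with
  | empty => simp
  | insert a s ha ih =>
    obtain ⟨g1, hg1⟩ := ih (fun k hk => hg k (Finset.mem_insert_of_mem hk))
    have h2 : (C (β a) * X 0 - C (α a) * X 1) ∣ g1 := by
      apply dvd_of_line _ _ (h0 a)
      intro t ht
      have h3 := hg a (Finset.mem_insert_self a s) t ht
      rw [hg1, map_mul] at h3
      refine (mul_eq_zero.mp h3).resolve_left ?_
      rw [map_prod]
      refine Finset.prod_ne_zero_iff.mpr ?_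
      intro k hk
      have hka : a ≠ k := fun h => ha (h ▸ hk)
      simp
      intro h4
      apply hnp a k hka
      have : t * (α a * β k - α k * β a) = 0 := by linear_combination h4
      exact (mul_eq_zero.mp this).resolve_left ht
    obtain ⟨g2, hg2⟩ := h2
    refine ⟨g2, ?_⟩
    rw [Finset.prod_insert ha, hg1, hg2]
    ring

/-- a polynomial vanishing on the plane spanned by `u, w` is divisible by its equation. -/
lemma plane_dvd (l A B : MvPolynomial (Fin 3) ℂ) (u w κ : Fin 3 → ℂ)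
    (hκ : ∀ (x : Fin 3 → ℂ) (j : Fin 3), x j - u j * eval x A - w j * eval x B = κ j * eval x l)
    (g : MvPolynomial (Fin 3) ℂ)
    (hg : ∀ a b : ℂ, eval (fun j => a * u j + b * w j) g = 0) : l ∣ g := by
  set s : Fin 3 → MvPolynomial (Fin 3) ℂ := fun j => C (u j) * A + C (w j) * B with hs
  have h1 : g - aeval s g ∈ Ideal.span {l} := by
    apply sub_sub_mem
    intro j
    rw [Ideal.mem_span_singleton]
    refine ⟨C (κ j), ?_⟩
    apply MvPolynomial.funext
    intro x
    have := hκ x j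
    simp only [hs, map_sub, map_add, map_mul, eval_C, eval_X]
    linear_combination this
  have h2 : aeval s g = 0 := by
    apply MvPolynomial.funext
    intro x
    rw [aeval_eval, map_zero, ← hg (eval x A) (eval x B)]
    congr 1
    congr 1
    funext j
    simp [hs, mul_comm]
  rw [h2, sub_zero, Ideal.mem_span_singleton] at h1
  exact h1

lemma rho_eval (u w : Fin 3 → ℂ) (g : MvPolynomial (Fin 3) ℂ) (x : Fin 2 → ℂ) :
    eval x (aeval (fun j => (C (u j) * X 0 + C (w j) * X 1 : MvPolynomial (Fin 2) ℂ)) g) =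
      eval (fun j => x 0 * u j + x 1 * w j) g := by
  rw [aeval_eval]
  congr 1
  congr 1
  funext j
  simp [mul_comm]

lemma plane_lemma (l A B : MvPolynomial (Fin 3) ℂ) (u w κ : Fin 3 → ℂ)
    (hκ : ∀ (x : Fin 3 → ℂ) (j : Fin 3), x j - u j * eval x A - w j * eval x B = κ j * eval x l)
    (hA : ∀ a b : ℂ, eval (fun j => a * u j + b * w j) A = a)
    (hB : ∀ a b : ℂ, eval (fun j => a * u j + b * w j) B = b)
    (α β : Fin 6 → ℂ) (h0 : ∀ k, α k ≠ 0 ∨ β k ≠ 0)
    (hnp : ∀ k k', k ≠ k' → α k * β k' - α k' * β k ≠ 0)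
    (K : ℂ) (hK : K ≠ 0) (G : MvPolynomial (Fin 3) ℂ)
    (hG : ∀ a b : ℂ, eval (fun j => a * u j + b * w j) G = K * ∏ k, (β k * a - α k * b))
    (f : MvPolynomial (Fin 3) ℂ)
    (hf : ∀ k, ∀ t : ℂ, t ≠ 0 → eval (fun j => t * (α k * u j + β k * w j)) f = 0) :
    ∃ h f' : MvPolynomial (Fin 3) ℂ, f = h * G + l * f' := by
  obtain ⟨h', hh'⟩ := prod_dvd α β h0 hnp
    (aeval (fun j => (C (u j) * X 0 + C (w j) * X 1 : MvPolynomial (Fin 2) ℂ)) f) Finset.univ (by
      intro k _ t ht
      rw [rho_eval, ← hf k t ht]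
      congr 1
      congr 1
      funext j
      simp
      ring)
  set h : MvPolynomial (Fin 3) ℂ := C K⁻¹ * aeval ![A, B] h' with hh
  obtain ⟨f', hf'⟩ := plane_dvd l A B u w κ hκ (f - h * G) (by
    intro a b
    have h1 := congrArg (eval ![a, b]) hh'
    rw [rho_eval] at h1
    simp only [Matrix.cons_val_zero, Matrix.cons_val_one] at h1
    rw [map_sub, map_mul, hG, h1, hh, map_mul, map_mul, eval_C, aeval_eval]
    have h2 : (fun j => eval (fun j => a * u j + b * w j) ((![A, B] : Fin 2 → _) j)) = ![a, b] := by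
      funext j
      fin_cases j
      · simp [hA]
      · simp [hB]
    rw [h2, map_prod]
    simp only [map_sub, map_mul, eval_C, eval_X, Matrix.cons_val_zero, Matrix.cons_val_one]
    have hK' : K⁻¹ * K = 1 := inv_mul_cancel₀ hK
    linear_combination (-(eval ![a, b] h' * ∏ x, (β x * a - α x * b))) * hK')
  exact ⟨h, f', by rw [← hf']; ring⟩

lemma plane_reg (l A B : MvPolynomial (Fin 3) ℂ) (u w κ : Fin 3 → ℂ)
    (hκ : ∀ (x : Fin 3 → ℂ) (j : Fin 3), x j - u j * eval x A - w j * eval x B = κ j * eval x l)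
    (hl : ∀ a b : ℂ, eval (fun j => a * u j + b * w j) l = 0)
    (α β : Fin 6 → ℂ) (h0 : ∀ k, α k ≠ 0 ∨ β k ≠ 0)
    (K : ℂ) (hK : K ≠ 0) (G : MvPolynomial (Fin 3) ℂ)
    (hG : ∀ a b : ℂ, eval (fun j => a * u j + b * w j) G = K * ∏ k, (β k * a - α k * b))
    (g : MvPolynomial (Fin 3) ℂ) (hg : l ∣ g * G) : l ∣ g := by
  apply plane_dvd l A B u w κ hκ
  set ρ := aeval (R := ℂ) (fun j => (C (u j) * X 0 + C (w j) * X 1 : MvPolynomial (Fin 2) ℂ))
    with hρ
  have h1 : ρ g * ρ G = 0 := by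
    obtain ⟨c, hc⟩ := hg
    rw [← map_mul, hc, map_mul]
    have : ρ l = 0 := by
      apply MvPolynomial.funext
      intro x
      rw [hρ, rho_eval, map_zero, hl]
    rw [this, zero_mul]
  have h2 : ρ G ≠ 0 := by
    intro h3
    have h4 : (C K * ∏ k, (C (β k) * X 0 - C (α k) * X 1) : MvPolynomial (Fin 2) ℂ) = 0 := by
      apply MvPolynomial.funext
      intro x
      have h5 := congrArg (eval x) h3
      rw [hρ, rho_eval, map_zero, hG] at h5
      rw [map_mul, map_prod, map_zero, eval_C]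
      simpa using h5
    rw [mul_eq_zero, Finset.prod_eq_zero_iff] at h4
    rcases h4 with h4 | ⟨k, _, h4⟩
    · exact hK (by simpa using h4)
    · have e0 := congrArg (eval ![1, 0]) h4
      have e1 := congrArg (eval ![0, 1]) h4
      simp at e0 e1
      rcases h0 k with h | h
      · exact h e1
      · exact h e0
  have h3 : ρ g = 0 := (mul_eq_zero.mp h1).resolve_right h2
  intro a b
  have h4 := congrArg (eval ![a, b]) h3
  rw [hρ, rho_eval, map_zero] at h4
  simpa using h4

end Pool.Agent.H26.Gep
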