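import Mathlib

set_option autoImplicit false
open scoped LinearAlgebra.Projectivization

namespace Pool.Agent.H26.Gep

/-- Complex projective 3-space. -/
abbrev P3 := ℙ ℂ (Fin 4 → ℂ)

/-- The homogeneous coordinates, in the plane `H = {x₃ = 0}`, of the projection of `z` from the
point `P = (p₀ : p₁ : p₂ : 1)`. -/
noncomputable def projFrom (p : Fin 3 → ℂ) (z : P3) : Fin 3 → ℂ :=
  fun i => z.rep (Fin.castSucc i) - z.rep (Fin.last 3) * p i

/-- `Z` is geproci: for a general point `P = (p : 1)` (that is, outside the zero set of a nonzero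
polynomial `h`) the homogeneous ideal of the projection `Z_P` of `Z` from `P` to `H = {x₃ = 0}`
is generated by a regular sequence of two forms `F`, `G` of degrees `a`, `b`. -/
def IsGeproci (Z : Finset P3) : Prop :=
  ∃ (a b : ℕ) (h : MvPolynomial (Fin 3) ℂ), h ≠ 0 ∧
    ∀ p : Fin 3 → ℂ, MvPolynomial.eval p h ≠ 0 →
      ∃ F G : MvPolynomial (Fin 3) ℂ, F.IsHomogeneous a ∧ G.IsHomogeneous b ∧
        F ≠ 0 ∧ (∀ g : MvPolynomial (Fin 3) ℂ, F ∣ g * G → F ∣ g) ∧
        ∀ f : MvPolynomial (Fin 3) ℂ,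
          (∀ z ∈ Z, ∀ t : ℂ, MvPolynomial.eval (t • projFrom p z) f = 0) ↔
            f ∈ Ideal.span {F, G}

/-- `Z` lies in a plane. -/
def Degenerate (Z : Finset P3) : Prop :=
  ∃ c : Fin 4 → ℂ, c ≠ 0 ∧ ∀ z ∈ Z, ∑ i, c i * z.rep i = 0

/-- A line of `ℙ³`, as a two-dimensional linear subspace of `ℂ⁴`. -/
def IsLine (L : Submodule ℂ (Fin 4 → ℂ)) : Prop := Module.finrank ℂ L = 2

/-- `Z` is an `(a, b)`-grid: there are `a` pairwise skew lines and `b` pairwise skew lines such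
that every line of the first family meets every line of the second family in exactly one point,
and `Z` is the set of these points. -/
def IsGrid (Z : Finset P3) : Prop :=
  ∃ (a b : ℕ) (L : Fin a → Submodule ℂ (Fin 4 → ℂ)) (M : Fin b → Submodule ℂ (Fin 4 → ℂ)),
    a ≤ b ∧ (∀ i, IsLine (L i)) ∧ (∀ j, IsLine (M j)) ∧
    (∀ i i', i ≠ i' → L i ⊓ L i' = ⊥) ∧ (∀ j j', j ≠ j' → M j ⊓ M j' = ⊥) ∧
    (∀ i j, Module.finrank ℂ ↥(L i ⊓ M j) = 1) ∧
    ∀ z : P3, z ∈ Z ↔ ∃ i j, z.rep ∈ L i ⊓ M j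

/-- Non-trivial geproci sets. -/
def NontrivialGeproci (Z : Finset P3) : Prop :=
  IsGeproci Z ∧ ¬ Degenerate Z ∧ ¬ IsGrid Z

/-- The matroids of `Z` and `Z'` are isomorphic. -/
def MatroidIso (Z Z' : Finset P3) : Prop :=
  ∃ φ : Z ≃ Z', ∀ S : Set Z,
    LinearIndependent ℂ (fun z : S => (z : Z).1.rep) ↔
      LinearIndependent ℂ (fun z : S => (φ (z : Z)).1.rep)

/-- `Z` and `Z'` are projectively equivalent: some projective linear automorphism of `ℙ³` maps
`Z` onto `Z'`. -/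
def ProjEquiv (Z Z' : Finset P3) : Prop :=
  ∃ g : (Fin 4 → ℂ) ≃ₗ[ℂ] (Fin 4 → ℂ), ∀ z : P3,
    z ∈ Z ↔ Projectivization.map g.toLinearMap g.injective z ∈ Z'

end Pool.Agent.H26.Gep
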