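import Mathlib

set_option autoImplicit false

namespace Pool.Agent.H26.Gep

def e1 : Fin 4 → Fin 4 → ℤ := ![![1,1,0,0],![1,-1,0,0],![1,0,0,1],![0,1,-1,0]]
def e2 : Fin 4 → Fin 4 → ℤ := ![![-1,0,0,1],![0,1,1,0],![-1,0,1,0],![0,-1,0,1]]
def lam (a : ℤ) : Fin 6 → ℤ := ![1,0,-1,a,-1,1-a]
def mu (a : ℤ) : Fin 6 → ℤ := ![0,1,-1,1,a-1,-a]

/-- the 24 points: six points on each of four skew lines -/
def vec (a : ℤ) (i : Fin 4 × Fin 6) : Fin 4 → ℤ :=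
  fun j => lam a i.2 * e1 i.1 j + mu a i.2 * e2 i.1 j

/-- 3x3 minor on the coordinates r, s, t -/
def minor3 (x y z : Fin 4 → ℤ) (r s t : Fin 4) : ℤ :=
  x r * (y s * z t - y t * z s) - x s * (y r * z t - y t * z r) + x t * (y r * z s - y s * z r)

def col (x y z : Fin 4 → ℤ) : Bool :=
  minor3 x y z 0 1 2 == 0 && minor3 x y z 0 1 3 == 0 && minor3 x y z 0 2 3 == 0 &&
    minor3 x y z 1 2 3 == 0

lemma bf1_3 : ∀ i j : Fin 4 × Fin 6, i.1 ≠ j.1 → ∀ k, k ≠ i → k ≠ j →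
    col (vec 3 i) (vec 3 j) (vec 3 k) = true → ∀ m, m ≠ i → m ≠ j → k ≠ m →
    col (vec 3 i) (vec 3 j) (vec 3 m) = true → False := by
  decide +kernel

end Pool.Agent.H26.Gep
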