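import Mathlib
import Pool.Agent.H26.GepAlg
import Pool.Agent.H26.GepData

set_option autoImplicit false

namespace Pool.Agent.H26.Gep

open MvPolynomial

section
variable {R S : Type*} [CommRing R] [CommRing S]

/-- the cubic cone with vertex `P` through the twelve points of the root system D4 -/
def cub (x P : Fin 4 → R) : R :=
  P 1 * P 2 * P 3 * (x 0 ^ 3 - x 0 * (x 1 ^ 2 + x 2 ^ 2 + x 3 ^ 2)) +
  P 0 * P 2 * P 3 * (x 1 ^ 3 - x 1 * (x 0 ^ 2 + x 2 ^ 2 + x 3 ^ 2)) +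
  P 0 * P 1 * P 3 * (x 2 ^ 3 - x 2 * (x 0 ^ 2 + x 1 ^ 2 + x 3 ^ 2)) +
  P 0 * P 1 * P 2 * (x 3 ^ 3 - x 3 * (x 0 ^ 2 + x 1 ^ 2 + x 2 ^ 2)) +
  P 0 * (P 1 ^ 2 + P 2 ^ 2 + P 3 ^ 2 - P 0 ^ 2) * (x 1 * x 2 * x 3) +
  P 1 * (P 0 ^ 2 + P 2 ^ 2 + P 3 ^ 2 - P 1 ^ 2) * (x 0 * x 2 * x 3) +
  P 2 * (P 0 ^ 2 + P 1 ^ 2 + P 3 ^ 2 - P 2 ^ 2) * (x 0 * x 1 * x 3) +
  P 3 * (P 0 ^ 2 + P 1 ^ 2 + P 2 ^ 2 - P 3 ^ 2) * (x 0 * x 1 * x 2)

/-- the plane through `P` and the `l`-th line -/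
def lin (l : Fin 4) (x P : Fin 4 → R) : R :=
  ![P 2 * (x 0 - x 1 + x 3) - (P 0 - P 1 + P 3) * x 2,
    P 3 * (x 0 + x 1 - x 2) - (P 0 + P 1 - P 2) * x 3,
    P 1 * (x 0 + x 2 - x 3) - (P 0 + P 2 - P 3) * x 1,
    P 0 * (x 1 + x 2 + x 3) - (P 1 + P 2 + P 3) * x 0] l

/-- a linear map preserving each of the four lines -/
def TT (a : ℤ) (x : Fin 4 → R) : Fin 4 → R :=
  ![((2 * (a - 1) : ℤ) : R) * x 0 + (x 0 + x 1 + x 2 + x 3),
    ((2 * (a - 1) : ℤ) : R) * x 1 - (x 0 - x 1 + x 2 - x 3),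
    ((2 * (a - 1) : ℤ) : R) * x 2 - (x 0 - x 1 - x 2 + x 3),
    ((2 * (a - 1) : ℤ) : R) * x 3 - (x 0 + x 1 - x 2 - x 3)]

lemma map_cub (φ : R →+* S) (x P : Fin 4 → R) :
    φ (cub x P) = cub (fun i => φ (x i)) (fun i => φ (P i)) := by
  simp [cub]

lemma map_lin (φ : R →+* S) (l : Fin 4) (x P : Fin 4 → R) :
    φ (lin l x P) = lin l (fun i => φ (x i)) (fun i => φ (P i)) := by
  fin_cases l <;> simp [lin]

lemma map_TT (φ : R →+* S) (a : ℤ) (x : Fin 4 → R) :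
    (fun i => φ (TT a x i)) = TT a (fun i => φ (x i)) := by
  have h2 : φ (2 : R) = 2 := map_ofNat φ 2
  funext i
  fin_cases i <;> simp [TT, h2]

lemma cub_cone (x P : Fin 4 → R) (c : R) : cub (fun i => x i - c * P i) P = cub x P := by
  simp only [cub]; ring

lemma lin_cone (l : Fin 4) (x P : Fin 4 → R) (c : R) :
    lin l (fun i => x i - c * P i) P = lin l x P := by
  fin_cases l <;> simp [lin] <;> ring

lemma TT_sub (a : ℤ) (x P : Fin 4 → R) (c : R) :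
    TT a (fun i => x i - c * P i) = fun i => TT a x i - c * TT a P i := by
  funext i
  fin_cases i <;> simp [TT] <;> ring

lemma cub_smul (x P : Fin 4 → R) (c : R) : cub (fun i => c * x i) P = c ^ 3 * cub x P := by
  simp only [cub]; ring

/-- the point `α e₁ + β e₂` of the `l`-th line -/
def onl (l : Fin 4) (α β : R) : Fin 4 → R := fun j => α * (e1 l j : R) + β * (e2 l j : R)

def K2 (l : Fin 4) (P : Fin 4 → R) : R := cub (onl l 2 1) P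

lemma cub_onl (l : Fin 4) (α β : R) (P : Fin 4 → R) :
    2 * cub (onl l α β) P = K2 l P * (α * β * (α - β)) := by
  fin_cases l <;> simp [cub, onl, K2, e1, e2] <;> ring

lemma TT_onl (a : ℤ) (l : Fin 4) (α β : R) :
    TT a (onl l α β) = fun i => 2 * onl l (((a - 1 : ℤ) : R) * α + β) ((a : R) * β - α) i := by
  funext i
  fin_cases l <;> fin_cases i <;> simp [TT, onl, e1, e2] <;> ring

end

/-- the point `P = (p : 1)` -/
def Pv {R : Type*} [CommRing R] (p : Fin 3 → R) : Fin 4 → R := ![p 0, p 1, p 2, 1]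

/-- the point `(y : 0)` -/
def Xv {R : Type*} [CommRing R] (p : Fin 3 → R) : Fin 4 → R := ![p 0, p 1, p 2, 0]

/-- projection from `P = (p : 1)` to the last coordinate hyperplane -/
def prj (p : Fin 3 → ℂ) (z : Fin 4 → ℂ) : Fin 3 → ℂ :=
  fun i => z (Fin.castSucc i) - z (Fin.last 3) * p i

lemma Xv_prj (p : Fin 3 → ℂ) (z : Fin 4 → ℂ) :
    Xv (prj p z) = fun i => z i - z 3 * Pv p i := by
  funext i
  fin_cases i <;> simp [Xv, prj, Pv]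

noncomputable def Lf (p : Fin 3 → ℂ) (l : Fin 4) : MvPolynomial (Fin 3) ℂ :=
  lin l (Xv X) (Pv (fun i => C (p i)))

noncomputable def Gf (a : ℤ) (p : Fin 3 → ℂ) : MvPolynomial (Fin 3) ℂ :=
  cub (Xv X) (Pv (fun i => C (p i))) *
    cub (TT a (Xv X)) (TT a (Pv (fun i => C (p i))))

lemma eval_Xv (y : Fin 3 → ℂ) :
    (fun i => eval y ((Xv X : Fin 4 → MvPolynomial (Fin 3) ℂ) i)) = Xv y := by
  funext i; fin_cases i <;> simp [Xv]

lemma eval_Pv (p y : Fin 3 → ℂ) :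
    (fun i => eval y ((Pv (fun i => C (p i)) : Fin 4 → MvPolynomial (Fin 3) ℂ) i)) = Pv p := by
  funext i; fin_cases i <;> simp [Pv]

lemma eval_Lf (p y : Fin 3 → ℂ) (l : Fin 4) : eval y (Lf p l) = lin l (Xv y) (Pv p) := by
  rw [Lf, map_lin, eval_Xv, eval_Pv]

lemma eval_Gf (a : ℤ) (p y : Fin 3 → ℂ) :
    eval y (Gf a p) = cub (Xv y) (Pv p) * cub (TT a (Xv y)) (TT a (Pv p)) := by
  rw [Gf, map_mul, map_cub, map_cub, map_TT, map_TT, eval_Xv, eval_Pv]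

lemma eval_Lf_prj (p : Fin 3 → ℂ) (z : Fin 4 → ℂ) (l : Fin 4) :
    eval (prj p z) (Lf p l) = lin l z (Pv p) := by
  rw [eval_Lf, Xv_prj, lin_cone]

lemma eval_Gf_prj (a : ℤ) (p : Fin 3 → ℂ) (z : Fin 4 → ℂ) :
    eval (prj p z) (Gf a p) = cub z (Pv p) * cub (TT a z) (TT a (Pv p)) := by
  rw [eval_Gf, Xv_prj, cub_cone, TT_sub, cub_cone]

lemma Gf_onl (a : ℤ) (p : Fin 3 → ℂ) (l : Fin 4) (α β : ℂ) :
    eval (prj p (onl l α β)) (Gf a p) =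
      2 * K2 l (Pv p) * K2 l (TT a (Pv p)) *
        ∏ k, (((mu a k : ℤ) : ℂ) * α - ((lam a k : ℤ) : ℂ) * β) := by
  have h1 := cub_onl l α β (Pv p)
  have h2 := cub_onl l (((a - 1 : ℤ) : ℂ) * α + β) ((a : ℂ) * β - α) (TT a (Pv p))
  rw [eval_Gf_prj, TT_onl, cub_smul]
  have h3 : ∏ k, (((mu a k : ℤ) : ℂ) * α - ((lam a k : ℤ) : ℂ) * β) =
      (α * β * (α - β)) * (((((a - 1 : ℤ) : ℂ) * α + β) * ((a : ℂ) * β - α)) *
        ((((a - 1 : ℤ) : ℂ) * α + β) - ((a : ℂ) * β - α))) := by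
    simp [Fin.prod_univ_succ, lam, mu]
    ring
  rw [h3]
  linear_combination (4 * cub (onl l (((a - 1 : ℤ) : ℂ) * α + β) ((a : ℂ) * β - α)) (TT a (Pv p))) * h1 +
    (2 * K2 l (Pv p) * (α * β * (α - β))) * h2

lemma prj_onl (p : Fin 3 → ℂ) (l : Fin 4) (α β : ℂ) :
    prj p (onl l α β) = fun j => α * prj p (onl l 1 0) j + β * prj p (onl l 0 1) j := by
  funext j
  simp only [prj, onl]
  ring

lemma lin_onl (l : Fin 4) (α β : ℂ) (P : Fin 4 → ℂ) : lin l (onl l α β) P = 0 := by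
  fin_cases l <;> simp [lin, onl, e1, e2]

end Pool.Agent.H26.Gep
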