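import Mathlib
import Pool.Agent.H26.GepFam

set_option autoImplicit false

namespace Pool.Agent.H26.Gep

open MvPolynomial

noncomputable def Af (p : Fin 3 → ℂ) (l : Fin 4) : MvPolynomial (Fin 3) ℂ :=
  ![X 1 - C (p 1 / p 2) * X 2, X 0, -(C (1 / p 1) * X 1), -(X 2 - C (p 2 / p 0) * X 0)] l

noncomputable def Bf (p : Fin 3 → ℂ) (l : Fin 4) : MvPolynomial (Fin 3) ℂ :=
  ![-(C (1 / p 2) * X 2), X 2, X 2 - C (p 2 / p 1) * X 1, -(C (1 / p 0) * X 0)] l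

noncomputable def kap (p : Fin 3 → ℂ) (l : Fin 4) : Fin 3 → ℂ :=
  ![![1 / p 2, 0, 0], ![0, 1, 0], ![1 / p 1, 0, 0], ![0, 1 / p 0, 0]] l

lemma hkap (p : Fin 3 → ℂ) (hp : ∀ i, p i ≠ 0) (l : Fin 4) (x : Fin 3 → ℂ) (j : Fin 3) :
    x j - prj p (onl l 1 0) j * eval x (Af p l) - prj p (onl l 0 1) j * eval x (Bf p l) =
      kap p l j * eval x (Lf p l) := by
  have h0 := hp 0
  have h1 := hp 1
  have h2 := hp 2
  rw [eval_Lf]
  fin_cases l <;> fin_cases j <;>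
    simp [Af, Bf, kap, lin, Xv, Pv, prj, onl, e1, e2] <;> field_simp <;> ring

lemma hAf (p : Fin 3 → ℂ) (hp : ∀ i, p i ≠ 0) (l : Fin 4) (a b : ℂ) :
    eval (fun j => a * prj p (onl l 1 0) j + b * prj p (onl l 0 1) j) (Af p l) = a := by
  have h0 := hp 0
  have h1 := hp 1
  have h2 := hp 2
  fin_cases l <;> simp [Af, prj, onl, e1, e2] <;> field_simp <;> ring

lemma hBf (p : Fin 3 → ℂ) (hp : ∀ i, p i ≠ 0) (l : Fin 4) (a b : ℂ) :
    eval (fun j => a * prj p (onl l 1 0) j + b * prj p (onl l 0 1) j) (Bf p l) = b := by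
  have h0 := hp 0
  have h1 := hp 1
  have h2 := hp 2
  fin_cases l <;> simp [Bf, prj, onl, e1, e2] <;> field_simp <;> ring

/-- the points as complex vectors -/
def vecC (a : ℤ) (i : Fin 4 × Fin 6) : Fin 4 → ℂ := fun j => (vec a i j : ℂ)

lemma vecC_eq (a : ℤ) (i : Fin 4 × Fin 6) :
    vecC a i = onl i.1 ((lam a i.2 : ℤ) : ℂ) ((mu a i.2 : ℤ) : ℂ) := by
  funext j
  simp [vecC, vec, onl]

lemma prj_mul (p : Fin 3 → ℂ) (c : ℂ) (z : Fin 4 → ℂ) :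
    prj p (fun i => c * z i) = fun j => c * prj p z j := by
  funext j
  simp only [prj]
  ring

lemma lin_mul (l : Fin 4) (c : ℂ) (x P : Fin 4 → ℂ) :
    lin l (fun i => c * x i) P = c * lin l x P := by
  fin_cases l <;> simp [lin] <;> ring

/-- the genericity conditions on the centre of projection -/
structure Good (a : ℤ) (p : Fin 3 → ℂ) : Prop where
  hp : ∀ i, p i ≠ 0
  hK : ∀ l, K2 l (Pv p) ≠ 0
  hK' : ∀ l, K2 l (TT a (Pv p)) ≠ 0
  hL : ∀ l l' k, l ≠ l' → lin l (vecC a (l', k)) (Pv p) ≠ 0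

/-- non-proportionality of the six points on a line -/
def NP (a : ℤ) : Prop := ∀ k k' : Fin 6, k ≠ k' → lam a k * mu a k' - lam a k' * mu a k ≠ 0

lemma NP.h0 {a : ℤ} (h : NP a) (k : Fin 6) :
    ((lam a k : ℤ) : ℂ) ≠ 0 ∨ ((mu a k : ℤ) : ℂ) ≠ 0 := by
  obtain ⟨k', hk'⟩ : ∃ k' : Fin 6, k ≠ k' := by
    by_cases hk : k = 0
    · exact ⟨1, by rw [hk]; decide⟩
    · exact ⟨0, hk⟩
  by_contra hc
  push Not at hc
  have h1 : lam a k = 0 := by exact_mod_cast hc.1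
  have h2 : mu a k = 0 := by exact_mod_cast hc.2
  apply h k k' hk'
  rw [h1, h2]
  ring

lemma NP.hc {a : ℤ} (h : NP a) (k k' : Fin 6) (hk : k ≠ k') :
    ((lam a k : ℤ) : ℂ) * ((mu a k' : ℤ) : ℂ) - ((lam a k' : ℤ) : ℂ) * ((mu a k : ℤ) : ℂ) ≠ 0 := by
  have := h k k' hk
  exact_mod_cast this

lemma step {a : ℤ} {p : Fin 3 → ℂ} (hg : Good a p) (hn : NP a) (l : Fin 4)
    (f : MvPolynomial (Fin 3) ℂ)
    (hf : ∀ k, ∀ t : ℂ, t ≠ 0 → eval (fun j => t * prj p (vecC a (l, k)) j) f = 0) :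
    ∃ h f' : MvPolynomial (Fin 3) ℂ, f = h * Gf a p + Lf p l * f' := by
  refine plane_lemma (Lf p l) (Af p l) (Bf p l) (prj p (onl l 1 0)) (prj p (onl l 0 1)) (kap p l)
    (hkap p hg.hp l) (hAf p hg.hp l) (hBf p hg.hp l) (fun k => ((lam a k : ℤ) : ℂ))
    (fun k => ((mu a k : ℤ) : ℂ)) hn.h0 hn.hc (2 * K2 l (Pv p) * K2 l (TT a (Pv p)))
    (mul_ne_zero (mul_ne_zero two_ne_zero (hg.hK l)) (hg.hK' l)) (Gf a p) ?_ f ?_
  · intro α β
    rw [← prj_onl, Gf_onl]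
  · intro k t ht
    have h1 := hf k t ht
    rw [vecC_eq, prj_onl] at h1
    exact h1

lemma Lf_at (a : ℤ) (p : Fin 3 → ℂ) (l : Fin 4) (i : Fin 4 × Fin 6) (t : ℂ) :
    eval (fun j => t * prj p (vecC a i) j) (Lf p l) = t * lin l (vecC a i) (Pv p) := by
  rw [← prj_mul, eval_Lf_prj, lin_mul]

lemma Gf_at (a : ℤ) (p : Fin 3 → ℂ) (i : Fin 4 × Fin 6) (t : ℂ) :
    eval (fun j => t * prj p (vecC a i) j) (Gf a p) = 0 := by
  have h1 : (fun j => t * prj p (vecC a i) j) =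
      prj p (onl i.1 (t * ((lam a i.2 : ℤ) : ℂ)) (t * ((mu a i.2 : ℤ) : ℂ))) := by
    rw [← prj_mul, vecC_eq]
    congr 1
    funext j
    simp only [onl]
    ring
  rw [h1, Gf_onl, Finset.prod_eq_zero (Finset.mem_univ i.2), mul_zero]
  ring

lemma Lf_ne {a : ℤ} {p : Fin 3 → ℂ} (hg : Good a p) (l : Fin 4) : Lf p l ≠ 0 := by
  intro h0
  obtain ⟨l', hl'⟩ : ∃ l' : Fin 4, l ≠ l' := by
    by_cases hk : l = 0
    · exact ⟨1, by rw [hk]; decide⟩
    · exact ⟨0, hk⟩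
  have h1 := Lf_at a p l (l', 0) 1
  rw [h0, map_zero, one_mul] at h1
  exact hg.hL l l' 0 hl' h1.symm

lemma mem_span {a : ℤ} {p : Fin 3 → ℂ} (hg : Good a p) (hn : NP a) (s : Finset (Fin 4)) :
    ∀ f : MvPolynomial (Fin 3) ℂ,
    (∀ l ∈ s, ∀ k, ∀ t : ℂ, t ≠ 0 → eval (fun j => t * prj p (vecC a (l, k)) j) f = 0) →
    ∃ A B : MvPolynomial (Fin 3) ℂ, f = A * (∏ l ∈ s, Lf p l) + B * Gf a p := by
  induction s using Finset.induction_on with
  | empty =>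
    intro f _
    exact ⟨f, 0, by simp⟩
  | insert l s hl ih =>
    intro f hf
    obtain ⟨h, f', hff⟩ := step hg hn l f (hf l (Finset.mem_insert_self l s))
    obtain ⟨A, B, hAB⟩ := ih f' (by
      intro l' hl' k t ht
      have h1 := hf l' (Finset.mem_insert_of_mem hl') k t ht
      rw [hff, map_add, map_mul, map_mul, Gf_at, mul_zero, zero_add, Lf_at] at h1
      have hne : l ≠ l' := fun h => hl (h ▸ hl')
      exact (mul_eq_zero.mp h1).resolve_left (mul_ne_zero ht (hg.hL l l' k hne)))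
    refine ⟨A, h + Lf p l * B, ?_⟩
    rw [Finset.prod_insert hl, hff, hAB]
    ring

lemma reg {a : ℤ} {p : Fin 3 → ℂ} (hg : Good a p) (hn : NP a) (s : Finset (Fin 4)) :
    ∀ g : MvPolynomial (Fin 3) ℂ, (∏ l ∈ s, Lf p l) ∣ g * Gf a p → (∏ l ∈ s, Lf p l) ∣ g := by
  induction s using Finset.induction_on with
  | empty =>
    intro g _
    simp
  | insert l s hl ih =>
    intro g hgg
    rw [Finset.prod_insert hl] at hgg ⊢
    have h1 : Lf p l ∣ g := by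
      refine plane_reg (Lf p l) (Af p l) (Bf p l) (prj p (onl l 1 0)) (prj p (onl l 0 1))
        (kap p l) (hkap p hg.hp l) ?_ (fun k => ((lam a k : ℤ) : ℂ))
        (fun k => ((mu a k : ℤ) : ℂ)) hn.h0 (2 * K2 l (Pv p) * K2 l (TT a (Pv p)))
        (mul_ne_zero (mul_ne_zero two_ne_zero (hg.hK l)) (hg.hK' l)) (Gf a p) ?_ g
        (dvd_trans (dvd_mul_right _ _) hgg)
      · intro α β
        rw [← prj_onl, eval_Lf_prj, lin_onl]
      · intro α β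
        rw [← prj_onl, Gf_onl]
    obtain ⟨g', rfl⟩ := h1
    have h2 : (∏ l ∈ s, Lf p l) ∣ g' * Gf a p := by
      rw [mul_assoc] at hgg
      exact (mul_dvd_mul_iff_left (Lf_ne hg l)).mp hgg
    exact mul_dvd_mul_left _ (ih g' h2)

lemma xv_hom (i : Fin 4) : ((Xv X : Fin 4 → MvPolynomial (Fin 3) ℂ) i).IsHomogeneous 1 := by
  fin_cases i
  · exact isHomogeneous_X _ _
  · exact isHomogeneous_X _ _
  · exact isHomogeneous_X _ _
  · exact isHomogeneous_zero _ _ _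

lemma pv_hom (p : Fin 3 → ℂ) (i : Fin 4) :
    ((Pv (fun i => C (p i)) : Fin 4 → MvPolynomial (Fin 3) ℂ) i).IsHomogeneous 0 := by
  fin_cases i
  · exact isHomogeneous_C _ _
  · exact isHomogeneous_C _ _
  · exact isHomogeneous_C _ _
  · exact isHomogeneous_one _ _

lemma int_hom (n : ℤ) : ((n : ℤ) : MvPolynomial (Fin 3) ℂ).IsHomogeneous 0 := by
  have : ((n : ℤ) : MvPolynomial (Fin 3) ℂ) = C (n : ℂ) := by simp
  rw [this]
  exact isHomogeneous_C _ _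

lemma lin_hom (x P : Fin 4 → MvPolynomial (Fin 3) ℂ) (hx : ∀ i, (x i).IsHomogeneous 1)
    (hP : ∀ i, (P i).IsHomogeneous 0) (l : Fin 4) : (lin l x P).IsHomogeneous 1 := by
  fin_cases l
  · exact ((hP 2).mul (((hx 0).sub (hx 1)).add (hx 3))).sub
      ((((hP 0).sub (hP 1)).add (hP 3)).mul (hx 2))
  · exact ((hP 3).mul (((hx 0).add (hx 1)).sub (hx 2))).sub
      ((((hP 0).add (hP 1)).sub (hP 2)).mul (hx 3))
  · exact ((hP 1).mul (((hx 0).add (hx 2)).sub (hx 3))).sub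
      ((((hP 0).add (hP 2)).sub (hP 3)).mul (hx 1))
  · exact ((hP 0).mul (((hx 1).add (hx 2)).add (hx 3))).sub
      ((((hP 1).add (hP 2)).add (hP 3)).mul (hx 0))

lemma cub_hom (x P : Fin 4 → MvPolynomial (Fin 3) ℂ) (hx : ∀ i, (x i).IsHomogeneous 1)
    (hP : ∀ i, (P i).IsHomogeneous 0) : (cub x P).IsHomogeneous 3 := by
  have t1 : ∀ i j k l : Fin 4, ∀ a b c : Fin 4, (P i * P j * P k * (x l ^ 3 - x l *
      (x a ^ 2 + x b ^ 2 + x c ^ 2))).IsHomogeneous 3 := by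
    intro i j k l a b c
    exact ((((hP i).mul (hP j)).mul (hP k)).mul (((hx l).pow 3).sub
      ((hx l).mul ((((hx a).pow 2).add ((hx b).pow 2)).add ((hx c).pow 2)))))
  have t2 : ∀ i j k l : Fin 4, ∀ a b c : Fin 4,
      (P i * (P j ^ 2 + P k ^ 2 + P l ^ 2 - P i ^ 2) * (x a * x b * x c)).IsHomogeneous 3 := by
    intro i j k l a b c
    exact ((hP i).mul (((((hP j).pow 2).add ((hP k).pow 2)).add ((hP l).pow 2)).sub
      ((hP i).pow 2))).mul (((hx a).mul (hx b)).mul (hx c))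
  exact (((((((t1 _ _ _ _ _ _ _).add (t1 _ _ _ _ _ _ _)).add (t1 _ _ _ _ _ _ _)).add
    (t1 _ _ _ _ _ _ _)).add (t2 _ _ _ _ _ _ _)).add (t2 _ _ _ _ _ _ _)).add
    (t2 _ _ _ _ _ _ _)).add (t2 _ _ _ _ _ _ _)

lemma TT_hom (a : ℤ) (n : ℕ) (x : Fin 4 → MvPolynomial (Fin 3) ℂ)
    (hx : ∀ i, (x i).IsHomogeneous n) (i : Fin 4) : (TT a x i).IsHomogeneous n := by
  have t : ∀ j, (((2 * (a - 1) : ℤ) : MvPolynomial (Fin 3) ℂ) * x j).IsHomogeneous n := by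
    intro j
    have := (int_hom (2 * (a - 1))).mul (hx j)
    rwa [zero_add] at this
  fin_cases i
  · exact (t 0).add ((((hx 0).add (hx 1)).add (hx 2)).add (hx 3))
  · exact (t 1).sub ((((hx 0).sub (hx 1)).add (hx 2)).sub (hx 3))
  · exact (t 2).sub ((((hx 0).sub (hx 1)).sub (hx 2)).add (hx 3))
  · exact (t 3).sub ((((hx 0).add (hx 1)).sub (hx 2)).sub (hx 3))

lemma Lf_hom (p : Fin 3 → ℂ) (l : Fin 4) : (Lf p l).IsHomogeneous 1 :=
  lin_hom _ _ xv_hom (pv_hom p) l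

lemma prodLf_hom (p : Fin 3 → ℂ) : (∏ l, Lf p l).IsHomogeneous 4 := by
  have := MvPolynomial.IsHomogeneous.prod Finset.univ (fun l => Lf p l) (fun _ => 1)
    (fun l _ => Lf_hom p l)
  simpa using this

lemma Gf_hom (a : ℤ) (p : Fin 3 → ℂ) : (Gf a p).IsHomogeneous 6 :=
  (cub_hom _ _ xv_hom (pv_hom p)).mul
    (cub_hom _ _ (TT_hom a 1 _ xv_hom) (TT_hom a 0 _ (pv_hom p)))

end Pool.Agent.H26.Gep
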