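import Mathlib
import Pool.Agent.H26.GepFix
import Pool.Agent.H26.GepDefs

set_option autoImplicit false
open scoped LinearAlgebra.Projectivization

namespace Pool.Agent.H26.Gep

open MvPolynomial

lemma map_K2 {R S : Type*} [CommRing R] [CommRing S] (φ : R →+* S) (l : Fin 4) (P : Fin 4 → R) :
    φ (K2 l P) = K2 l (fun i => φ (P i)) := by
  have h2 : φ (2 : R) = 2 := map_ofNat φ 2
  rw [K2, map_cub, K2]
  congr 1
  funext i
  simp [onl, h2]

lemma map_Pv {R S : Type*} [CommRing R] [CommRing S] (φ : R →+* S) (p : Fin 3 → R) :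
    (fun i => φ (Pv p i)) = Pv (fun i => φ (p i)) := by
  funext i
  fin_cases i <;> simp [Pv]

noncomputable def hpoly (a : ℤ) : MvPolynomial (Fin 3) ℂ :=
  (X 0 * X 1 * X 2) * (∏ l : Fin 4, (K2 l (Pv X) * K2 l (TT a (Pv X)))) *
    ∏ l : Fin 4, ∏ i : Fin 4 × Fin 6,
      (if l = i.1 then 1 else lin l (fun j => C (vecC a i j)) (Pv X))

lemma eval_hpoly (a : ℤ) (p : Fin 3 → ℂ) :
    eval p (hpoly a) = (p 0 * p 1 * p 2) * (∏ l : Fin 4, (K2 l (Pv p) * K2 l (TT a (Pv p)))) *
    ∏ l : Fin 4, ∏ i : Fin 4 × Fin 6, (if l = i.1 then 1 else lin l (vecC a i) (Pv p)) := by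
  have hP : (fun i => eval p ((Pv X : Fin 4 → MvPolynomial (Fin 3) ℂ) i)) = Pv p := by
    rw [map_Pv]; simp
  rw [hpoly, map_mul, map_mul, map_mul, map_mul, map_prod, map_prod, eval_X, eval_X, eval_X]
  congr 2
  · apply Finset.prod_congr rfl
    intro l _
    rw [map_mul, map_K2, map_K2, map_TT, hP]
  · funext l
    rw [map_prod]
    apply Finset.prod_congr rfl
    intro i _
    split_ifs with h
    · simp
    · rw [map_lin, hP]
      simp

lemma eval_hpoly_ne (a : ℤ) (p : Fin 3 → ℂ) : eval p (hpoly a) ≠ 0 ↔ Good a p := by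
  rw [eval_hpoly]
  constructor
  · intro h
    have h1 := left_ne_zero_of_mul h
    have h2 := right_ne_zero_of_mul h
    have h3 := left_ne_zero_of_mul h1
    have h4 := right_ne_zero_of_mul h1
    have h5 := Finset.prod_ne_zero_iff.mp h4
    have h6 := Finset.prod_ne_zero_iff.mp h2
    refine ⟨?_, ?_, ?_, ?_⟩
    · intro i
      fin_cases i
      · exact left_ne_zero_of_mul (left_ne_zero_of_mul h3)
      · exact right_ne_zero_of_mul (left_ne_zero_of_mul h3)
      · exact right_ne_zero_of_mul h3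
    · intro l
      exact left_ne_zero_of_mul (h5 l (Finset.mem_univ _))
    · intro l
      exact right_ne_zero_of_mul (h5 l (Finset.mem_univ _))
    · intro l l' k hl
      have h7 := Finset.prod_ne_zero_iff.mp (h6 l (Finset.mem_univ _)) (l', k) (Finset.mem_univ _)
      rwa [if_neg hl] at h7
  · intro h
    refine mul_ne_zero (mul_ne_zero (mul_ne_zero (mul_ne_zero (h.hp 0) (h.hp 1)) (h.hp 2)) ?_) ?_
    · exact Finset.prod_ne_zero_iff.mpr (fun l _ => mul_ne_zero (h.hK l) (h.hK' l))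
    · refine Finset.prod_ne_zero_iff.mpr (fun l _ => Finset.prod_ne_zero_iff.mpr (fun i _ => ?_))
      split_ifs with h7
      · exact one_ne_zero
      · exact h.hL l i.1 i.2 h7

/-- integer test of genericity -/
lemma good_int (a : ℤ) (p : Fin 3 → ℤ) (hp : ∀ i, p i ≠ 0) (hK : ∀ l, K2 l (Pv p) ≠ 0)
    (hK' : ∀ l, K2 l (TT a (Pv p)) ≠ 0)
    (hL : ∀ l l' k, l ≠ l' → lin l (vec a (l', k)) (Pv p) ≠ 0) :
    Good a (fun i => (p i : ℂ)) := by
  have hP : Pv (fun i => (p i : ℂ)) = fun i => ((Pv p i : ℤ) : ℂ) :=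
    (map_Pv (Int.castRingHom ℂ) p).symm
  refine ⟨fun i => by exact_mod_cast hp i, ?_, ?_, ?_⟩
  · intro l
    have h := map_K2 (Int.castRingHom ℂ) l (Pv p)
    simp only [eq_intCast] at h
    rw [hP, ← h]
    exact_mod_cast hK l
  · intro l
    have h := map_K2 (Int.castRingHom ℂ) l (TT a (Pv p))
    have h' := map_TT (Int.castRingHom ℂ) a (Pv p)
    simp only [eq_intCast] at h h'
    rw [hP, ← h', ← h]
    exact_mod_cast hK' l
  · intro l l' k hl
    have h := map_lin (Int.castRingHom ℂ) l (vec a (l', k)) (Pv p)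
    simp only [eq_intCast] at h
    have hv : vecC a (l', k) = fun i => ((vec a (l', k) i : ℤ) : ℂ) := rfl
    rw [hP, hv, ← h]
    exact_mod_cast hL l l' k hl

lemma good3 : Good 3 (fun i => ((![2, 1, 1] : Fin 3 → ℤ) i : ℂ)) := by
  apply good_int <;> decide +kernel

lemma good4 : Good 4 (fun i => ((![2, 1, 1] : Fin 3 → ℤ) i : ℂ)) := by
  apply good_int <;> decide +kernel

end Pool.Agent.H26.Gep
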