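import Mathlib
import Pool.Agent.H26.GepSet

set_option autoImplicit false
open scoped LinearAlgebra.Projectivization

namespace Pool.Agent.H26.Gep

open MvPolynomial

lemma vecC_ne {a : ℤ} (h : ∀ i, vec a i ≠ 0) (i : Fin 4 × Fin 6) : vecC a i ≠ 0 := by
  intro h0
  apply h i
  funext j
  have := congrFun h0 j
  simp only [vecC, Pi.zero_apply] at this
  exact_mod_cast this

noncomputable def pt (a : ℤ) (h : ∀ i, vec a i ≠ 0) (i : Fin 4 × Fin 6) : P3 :=
  Projectivization.mk ℂ (vecC a i) (vecC_ne h i)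

noncomputable def ZZ (a : ℤ) (h : ∀ i, vec a i ≠ 0) : Finset P3 := by
  classical exact Finset.univ.image (pt a h)

lemma mem_ZZ {a : ℤ} {h : ∀ i, vec a i ≠ 0} {z : P3} : z ∈ ZZ a h ↔ ∃ i, pt a h i = z := by
  classical
  simp [ZZ]

lemma rep_pt (a : ℤ) (h : ∀ i, vec a i ≠ 0) (i : Fin 4 × Fin 6) :
    ∃ c : ℂ, c ≠ 0 ∧ (pt a h i).rep = fun j => c * vecC a i j := by
  obtain ⟨c, hc⟩ := Projectivization.exists_smul_eq_mk_rep ℂ (vecC a i) (vecC_ne h i)
  refine ⟨(c : ℂ), c.ne_zero, ?_⟩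
  rw [pt, ← hc]
  rfl

lemma projFrom_pt (a : ℤ) (h : ∀ i, vec a i ≠ 0) (i : Fin 4 × Fin 6) (p : Fin 3 → ℂ) :
    ∃ c : ℂ, c ≠ 0 ∧ projFrom p (pt a h i) = fun j => c * prj p (vecC a i) j := by
  obtain ⟨c, hc, hr⟩ := rep_pt a h i
  refine ⟨c, hc, ?_⟩
  rw [← prj_mul, ← hr]
  rfl

theorem isGeproci (a : ℤ) (h : ∀ i, vec a i ≠ 0) (hn : NP a) (hex : ∃ p, Good a p) :
    IsGeproci (ZZ a h) := by
  refine ⟨4, 6, hpoly a, ?_, ?_⟩
  · obtain ⟨p, hp⟩ := hex
    intro h0
    have := (eval_hpoly_ne a p).mpr hp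
    rw [h0, map_zero] at this
    exact this rfl
  · intro p hp
    have hg := (eval_hpoly_ne a p).mp hp
    refine ⟨∏ l, Lf p l, Gf a p, prodLf_hom p, Gf_hom a p,
      Finset.prod_ne_zero_iff.mpr (fun l _ => Lf_ne hg l), reg hg hn Finset.univ, ?_⟩
    intro f
    constructor
    · intro hf
      obtain ⟨A, B, hAB⟩ := mem_span hg hn Finset.univ f (by
        intro l _ k t _
        obtain ⟨c, hc, hr⟩ := projFrom_pt a h (l, k) p
        have h1 := hf (pt a h (l, k)) (mem_ZZ.mpr ⟨_, rfl⟩) (t / c)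
        rw [hr] at h1
        rw [← h1]
        congr 1
        congr 1
        funext j
        simp only [Pi.smul_apply, smul_eq_mul]
        field_simp)
      rw [Ideal.mem_span_pair]
      exact ⟨A, B, hAB.symm⟩
    · intro hf
      rw [Ideal.mem_span_pair] at hf
      obtain ⟨A, B, rfl⟩ := hf
      intro z hz t
      obtain ⟨i, rfl⟩ := mem_ZZ.mp hz
      obtain ⟨c, hc, hr⟩ := projFrom_pt a h i p
      have h1 : t • projFrom p (pt a h i) = fun j => (t * c) * prj p (vecC a i) j := by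
        rw [hr]
        funext j
        simp only [Pi.smul_apply, smul_eq_mul]
        ring
      rw [h1, map_add, map_mul, map_mul, Gf_at, map_prod,
        Finset.prod_eq_zero (Finset.mem_univ i.1), mul_zero, mul_zero, add_zero]
      rw [Lf_at, vecC_eq, lin_onl, mul_zero]

theorem not_degenerate (a : ℤ) (h : ∀ i, vec a i ≠ 0) : ¬ Degenerate (ZZ a h) := by
  rintro ⟨c, hc, hz⟩
  apply hc
  have key : ∀ l, ∑ j, c j * (e1 l j : ℂ) = 0 := by
    intro l
    have h1 := hz (pt a h (l, 0)) (mem_ZZ.mpr ⟨_, rfl⟩)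
    obtain ⟨d, hd, hr⟩ := rep_pt a h (l, 0)
    rw [hr] at h1
    have h2 : d * ∑ j, c j * (e1 l j : ℂ) = 0 := by
      rw [← h1, Finset.mul_sum]
      apply Finset.sum_congr rfl
      intro j _
      simp [vecC, vec, lam, mu]
      ring
    exact (mul_eq_zero.mp h2).resolve_left hd
  have k0 := key 0
  have k1 := key 1
  have k2 := key 2
  have k3 := key 3
  simp [Fin.sum_univ_succ, e1] at k0 k1 k2 k3
  have c0 : c 0 = 0 := by linear_combination (1/2) * k0 + (1/2) * k1
  have c1 : c 1 = 0 := by linear_combination (1/2) * k0 - (1/2) * k1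
  funext j
  fin_cases j
  · exact c0
  · exact c1
  · simp only [Pi.zero_apply]
    show c 2 = 0
    linear_combination c1 - k3
  · show c 3 = 0
    linear_combination k2 - c0

/-- linear dependence over `ℂ` gives vanishing minors -/
lemma col_of_rel (x y z : Fin 4 → ℤ) (g0 g1 g2 : ℂ) (hg : g0 ≠ 0 ∨ g1 ≠ 0 ∨ g2 ≠ 0)
    (hr : ∀ j, g0 * (x j : ℂ) + g1 * (y j : ℂ) + g2 * (z j : ℂ) = 0) : col x y z = true := by
  have key : ∀ r s t, minor3 x y z r s t = 0 := by
    intro r s t
    have h1 : ((minor3 x y z r s t : ℤ) : ℂ) = 0 := by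
      simp only [minor3]
      push_cast
      rcases hg with h | h | h
      · apply (mul_eq_zero.mp (?_ : g0 * _ = 0)).resolve_left h
        linear_combination ((y s : ℂ) * z t - y t * z s) * hr r - ((y r : ℂ) * z t - y t * z r) * hr s
          + ((y r : ℂ) * z s - y s * z r) * hr t
      · apply (mul_eq_zero.mp (?_ : g1 * _ = 0)).resolve_left h
        linear_combination (-((x s : ℂ) * z t - x t * z s)) * hr r + ((x r : ℂ) * z t - x t * z r) * hr s
          - ((x r : ℂ) * z s - x s * z r) * hr t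
      · apply (mul_eq_zero.mp (?_ : g2 * _ = 0)).resolve_left h
        linear_combination ((x s : ℂ) * y t - x t * y s) * hr r - ((x r : ℂ) * y t - x t * y r) * hr s
          + ((x r : ℂ) * y s - x s * y r) * hr t
    exact_mod_cast h1
  simp [col, key]

lemma col_of_mem (a : ℤ) (L : Submodule ℂ (Fin 4 → ℂ)) (hL : Module.finrank ℂ L = 2)
    (i j k : Fin 4 × Fin 6) (hi : vecC a i ∈ L) (hj : vecC a j ∈ L) (hk : vecC a k ∈ L) :
    col (vec a i) (vec a j) (vec a k) = true := by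
  have h1 : ¬ LinearIndependent ℂ (![⟨vecC a i, hi⟩, ⟨vecC a j, hj⟩, ⟨vecC a k, hk⟩] : Fin 3 → L) := by
    intro h
    have := h.fintype_card_le_finrank
    rw [hL] at this
    simp at this
  rw [Fintype.not_linearIndependent_iff] at h1
  obtain ⟨g, hg, m, hm⟩ := h1
  have h2 := congrArg Subtype.val hg
  simp [Fin.sum_univ_succ] at h2
  refine col_of_rel _ _ _ (g 0) (g 1) (g 2) ?_ ?_
  · fin_cases m
    · exact Or.inl hm
    · exact Or.inr (Or.inl hm)
    · exact Or.inr (Or.inr hm)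
  · intro r
    have h3 := congrFun h2 r
    simp [vecC] at h3
    linear_combination h3

end Pool.Agent.H26.Gep
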