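import Mathlib
import Pool.Agent.H26.GepZ

set_option autoImplicit false
open scoped LinearAlgebra.Projectivization

namespace Pool.Agent.H26.Gep

/-- no four distinct collinear points unless they lie in the same block -/
def BF1 (a : ℤ) : Prop := ∀ i j : Fin 4 × Fin 6, i.1 ≠ j.1 → ∀ k, k ≠ i → k ≠ j →
    col (vec a i) (vec a j) (vec a k) = true → ∀ m, m ≠ i → m ≠ j → k ≠ m →
    col (vec a i) (vec a j) (vec a m) = true → False

/-- distinct indices give non-proportional vectors -/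
def BF0 (a : ℤ) : Prop := ∀ i j : Fin 4 × Fin 6, i ≠ j →
    ∃ r s : Fin 4, vec a i r * vec a j s ≠ vec a i s * vec a j r

lemma prop_absurd {a : ℤ} (h0 : BF0 a) {i j : Fin 4 × Fin 6} (hij : i ≠ j) (c d : ℂ)
    (v : Fin 4 → ℂ) (h1 : ∀ r, vecC a i r = c * v r) (h2 : ∀ r, vecC a j r = d * v r) : False := by
  obtain ⟨r, s, hrs⟩ := h0 i j hij
  apply hrs
  have : ((vec a i r * vec a j s : ℤ) : ℂ) = ((vec a i s * vec a j r : ℤ) : ℂ) := by
    push_cast
    have e1 := h1 r
    have e2 := h1 s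
    have e3 := h2 r
    have e4 := h2 s
    simp only [vecC] at e1 e2 e3 e4
    rw [e1, e2, e3, e4]
    ring
  exact_mod_cast this

lemma mem_of_rep {a : ℤ} {h : ∀ i, vec a i ≠ 0} {i : Fin 4 × Fin 6}
    {L : Submodule ℂ (Fin 4 → ℂ)} (hi : (pt a h i).rep ∈ L) : vecC a i ∈ L := by
  obtain ⟨c, hc, hr⟩ := rep_pt a h i
  rw [hr] at hi
  have h1 := L.smul_mem c⁻¹ hi
  convert h1 using 1
  funext j
  simp only [Pi.smul_apply, smul_eq_mul]
  field_simp

theorem not_grid (a : ℤ) (h : ∀ i, vec a i ≠ 0) (h0 : BF0 a) (h1 : BF1 a) :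
    ¬ IsGrid (ZZ a h) := by
  rintro ⟨m, n, L, M, hmn, hL, hM, hLL, hMM, hLM, hZ⟩
  -- the intersection points
  have hidx : ∀ r s, ∃ i, vecC a i ∈ L r ∧ vecC a i ∈ M s := by
    intro r s
    have h2 := hLM r s
    obtain ⟨v, hv, -⟩ := finrank_eq_one_iff'.mp h2
    have hv0 : (v : Fin 4 → ℂ) ≠ 0 := by
      intro h3
      exact hv (Subtype.ext h3)
    obtain ⟨c, hc⟩ := Projectivization.exists_smul_eq_mk_rep ℂ (v : Fin 4 → ℂ) hv0
    have h4 : (Projectivization.mk ℂ (v : Fin 4 → ℂ) hv0).rep ∈ L r ⊓ M s := by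
      rw [← hc]
      exact (L r ⊓ M s).smul_mem _ v.2
    obtain ⟨i, hi⟩ := mem_ZZ.mp ((hZ _).mpr ⟨r, s, h4⟩)
    rw [← hi] at h4
    have h5 := mem_of_rep h4
    exact ⟨i, h5⟩
  have hcov : ∀ i, ∃ r, vecC a i ∈ L r := by
    intro i
    obtain ⟨r, s, hrs⟩ := (hZ (pt a h i)).mp (mem_ZZ.mpr ⟨i, rfl⟩)
    exact ⟨r, (mem_of_rep hrs).1⟩
  have hdL : ∀ i r r', vecC a i ∈ L r → vecC a i ∈ L r' → r = r' := by
    intro i r r' hr hr'
    by_contra hne
    have h2 : vecC a i ∈ L r ⊓ L r' := ⟨hr, hr'⟩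
    rw [hLL r r' hne, Submodule.mem_bot] at h2
    exact vecC_ne h i h2
  have hdM : ∀ i r r', vecC a i ∈ M r → vecC a i ∈ M r' → r = r' := by
    intro i r r' hr hr'
    by_contra hne
    have h2 : vecC a i ∈ M r ⊓ M r' := ⟨hr, hr'⟩
    rw [hMM r r' hne, Submodule.mem_bot] at h2
    exact vecC_ne h i h2
  by_cases hm : m ≤ 3
  · -- few lines: pigeonhole
    choose f hf using hcov
    obtain ⟨r, -, hr⟩ := Finset.exists_lt_card_fiber_of_mul_lt_card_of_maps_to
      (s := (Finset.univ : Finset (Fin 4 × Fin 6))) (t := (Finset.univ : Finset (Fin m)))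
      (f := f) (n := 6) (fun _ _ => Finset.mem_univ _) (by simp; omega)
    set S := Finset.univ.filter (fun i => f i = r) with hS
    have hSL : ∀ i ∈ S, vecC a i ∈ L r := by
      intro i hi
      have := (Finset.mem_filter.mp hi).2
      rw [← this]
      exact hf i
    obtain ⟨i, hi⟩ : S.Nonempty := Finset.card_pos.mp (by omega)
    have hj : ∃ j ∈ S, i.1 ≠ j.1 := by
      by_contra hc
      push Not at hc
      have hsub : S ⊆ Finset.univ.image (fun k : Fin 6 => (i.1, k)) := by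
        intro j hj
        rw [Finset.mem_image]
        exact ⟨j.2, Finset.mem_univ _, Prod.ext (hc j hj) rfl⟩
      have := Finset.card_le_card hsub
      have h6 : (Finset.univ.image (fun k : Fin 6 => (i.1, k))).card ≤ 6 := by
        refine le_trans Finset.card_image_le ?_
        simp
      omega
    obtain ⟨j, hjS, hij⟩ := hj
    obtain ⟨k, hk, hkn⟩ := Finset.exists_mem_notMem_of_card_lt_card
      (s := ({i, j} : Finset _)) (t := S) (by
        have := Finset.card_le_two (a := i) (b := j)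
        omega)
    obtain ⟨l, hl, hln⟩ := Finset.exists_mem_notMem_of_card_lt_card
      (s := ({i, j, k} : Finset _)) (t := S) (by
        have := Finset.card_le_three (a := i) (b := j) (c := k)
        omega)
    simp only [Finset.mem_insert, Finset.mem_singleton, not_or] at hkn hln
    exact h1 i j hij k hkn.1 hkn.2
      (col_of_mem a (L r) (hL r) i j k (hSL i hi) (hSL j hjS) (hSL k hk))
      l hln.1 hln.2.1 (Ne.symm hln.2.2)
      (col_of_mem a (L r) (hL r) i j l (hSL i hi) (hSL j hjS) (hSL l hl))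
  · push Not at hm
    choose f hfL hfM using hidx
    let r0 : Fin m := ⟨0, by omega⟩
    let r1 : Fin m := ⟨1, by omega⟩
    let r2 : Fin m := ⟨2, by omega⟩
    let r3 : Fin m := ⟨3, by omega⟩
    let s0 : Fin n := ⟨0, by omega⟩
    let s1 : Fin n := ⟨1, by omega⟩
    let s2 : Fin n := ⟨2, by omega⟩
    let s3 : Fin n := ⟨3, by omega⟩
    have hne1 : ∀ r r' s, r ≠ r' → f r s ≠ f r' s := by
      intro r r' s hrr he
      apply hrr
      exact hdL (f r s) r r' (hfL r s) (by rw [he]; exact hfL r' s)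
    have hne2 : ∀ r s s', s ≠ s' → f r s ≠ f r s' := by
      intro r s s' hrr he
      apply hrr
      exact hdM (f r s) s s' (hfM r s) (by rw [he]; exact hfM r s')
    have hr : ∀ x y : ℕ, ∀ hx hy, x ≠ y → (⟨x, hx⟩ : Fin m) ≠ ⟨y, hy⟩ := by
      intro x y hx hy hxy he
      exact hxy (Fin.mk.inj_iff.mp he)
    have hs : ∀ x y : ℕ, ∀ hx hy, x ≠ y → (⟨x, hx⟩ : Fin n) ≠ ⟨y, hy⟩ := by
      intro x y hx hy hxy he
      exact hxy (Fin.mk.inj_iff.mp he)
    -- block equality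
    have b1 : (f r0 s0).1 = (f r1 s0).1 := by
      by_contra hc
      exact h1 (f r0 s0) (f r1 s0) hc (f r2 s0)
        (hne1 _ _ _ (hr _ _ _ _ (by norm_num))) (hne1 _ _ _ (hr _ _ _ _ (by norm_num)))
        (col_of_mem a (M s0) (hM s0) _ _ _ (hfM _ _) (hfM _ _) (hfM _ _))
        (f r3 s0) (hne1 _ _ _ (hr _ _ _ _ (by norm_num))) (hne1 _ _ _ (hr _ _ _ _ (by norm_num)))
        (hne1 _ _ _ (hr _ _ _ _ (by norm_num)))
        (col_of_mem a (M s0) (hM s0) _ _ _ (hfM _ _) (hfM _ _) (hfM _ _))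
    have b2 : (f r0 s0).1 = (f r0 s1).1 := by
      by_contra hc
      exact h1 (f r0 s0) (f r0 s1) hc (f r0 s2)
        (hne2 _ _ _ (hs _ _ _ _ (by norm_num))) (hne2 _ _ _ (hs _ _ _ _ (by norm_num)))
        (col_of_mem a (L r0) (hL r0) _ _ _ (hfL _ _) (hfL _ _) (hfL _ _))
        (f r0 s3) (hne2 _ _ _ (hs _ _ _ _ (by norm_num))) (hne2 _ _ _ (hs _ _ _ _ (by norm_num)))
        (hne2 _ _ _ (hs _ _ _ _ (by norm_num)))
        (col_of_mem a (L r0) (hL r0) _ _ _ (hfL _ _) (hfL _ _) (hfL _ _))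
    -- v01 is a combination of v00 and v10
    have hn10 : f r0 s0 ≠ f r1 s0 := hne1 _ _ _ (hr _ _ _ _ (by norm_num))
    have hn01 : f r0 s0 ≠ f r0 s1 := hne2 _ _ _ (hs _ _ _ _ (by norm_num))
    have hx0 := hfM r0 s0
    have hx1 := hfM r1 s0
    have hy0 := hfL r0 s0
    have hy1 := hfL r0 s1
    have hmem : vecC a (f r0 s1) ∈ M s0 := by
      generalize hA : f r0 s0 = A at *
      generalize hB : f r1 s0 = B at *
      generalize hC : f r0 s1 = D at *
      obtain ⟨l, x⟩ := A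
      obtain ⟨l', y⟩ := B
      obtain ⟨l'', z⟩ := D
      simp only at b1 b2
      subst b1
      subst b2
      have hbr : ((lam a x : ℤ) : ℂ) * ((mu a y : ℤ) : ℂ) - ((lam a y : ℤ) : ℂ) * ((mu a x : ℤ) : ℂ) ≠ 0 := by
        intro hz
        have hz' : lam a x * mu a y - lam a y * mu a x = 0 := by exact_mod_cast hz
        obtain ⟨r, s, hrs⟩ := h0 (l, x) (l, y) hn10
        apply hrs
        simp only [vec]
        linear_combination (e1 l r * e2 l s - e1 l s * e2 l r) * hz'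
      have h7 : (((lam a x : ℤ) : ℂ) * ((mu a y : ℤ) : ℂ) -
            ((lam a y : ℤ) : ℂ) * ((mu a x : ℤ) : ℂ)) • vecC a (l, z) =
          (((lam a z : ℤ) : ℂ) * ((mu a y : ℤ) : ℂ) -
            ((lam a y : ℤ) : ℂ) * ((mu a z : ℤ) : ℂ)) • vecC a (l, x) +
          (((lam a x : ℤ) : ℂ) * ((mu a z : ℤ) : ℂ) -
            ((lam a z : ℤ) : ℂ) * ((mu a x : ℤ) : ℂ)) • vecC a (l, y) := by
        funext j
        simp only [vecC, vec, Pi.add_apply, Pi.smul_apply, smul_eq_mul]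
        push_cast
        ring
      refine (Submodule.smul_mem_iff (M s0) hbr).mp ?_
      rw [h7]
      exact (M s0).add_mem ((M s0).smul_mem _ hx0) ((M s0).smul_mem _ hx1)
    obtain ⟨v, hv, hall⟩ := finrank_eq_one_iff'.mp (hLM r0 s0)
    obtain ⟨c, hc⟩ := hall ⟨vecC a (f r0 s0), hy0, hx0⟩
    obtain ⟨d, hd⟩ := hall ⟨vecC a (f r0 s1), hy1, hmem⟩
    refine prop_absurd h0 hn01 c d (v : Fin 4 → ℂ) ?_ ?_
    · intro r
      have := congrFun (congrArg Subtype.val hc) r
      simpa using this.symm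
    · intro r
      have := congrFun (congrArg Subtype.val hd) r
      simpa using this.symm

end Pool.Agent.H26.Gep
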