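import Mathlib
import Pool.Agent.H26.GepGrid

set_option autoImplicit false
open scoped LinearAlgebra.Projectivization

namespace Pool.Agent.H26.Gep

def br (b : ℤ) (x y : Fin 6) : ℤ := lam b x * mu b y - lam b y * mu b x

/-- the cross ratio `a` does not occur among the six points of parameter `b` -/
def BF3 (a b : ℤ) : Prop := ∀ q0 q1 q2 q3 : Fin 6, q0 ≠ q1 → q0 ≠ q2 → q0 ≠ q3 → q1 ≠ q2 →
  q1 ≠ q3 → q2 ≠ q3 → br b q3 q1 * br b q0 q2 ≠ a * (br b q2 q1 * br b q0 q3)

lemma pt_inj {a : ℤ} (h : ∀ i, vec a i ≠ 0) (h0 : BF0 a) {i j : Fin 4 × Fin 6}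
    (hij : pt a h i = pt a h j) : i = j := by
  by_contra hne
  obtain ⟨c, hc⟩ := (Projectivization.mk_eq_mk_iff' ℂ _ _ _ _).mp hij
  refine prop_absurd h0 hne c 1 (vecC a j) ?_ ?_
  · intro r
    have := congrFun hc r
    simpa using this.symm
  · intro r
    simp

lemma e_indep (l : Fin 4) (x y : ℂ) (h : ∀ j, x * (e1 l j : ℂ) + y * (e2 l j : ℂ) = 0) :
    x = 0 ∧ y = 0 := by
  have h0 := h 0
  have h1 := h 1
  have h2 := h 2
  have h3 := h 3
  fin_cases l <;> simp [e1, e2] at h0 h1 h2 h3 <;> constructor <;>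
    first | exact h0 | exact h1 | exact h2 | exact h3 |
      linear_combination h0 + h1 | linear_combination h0 + h2 | linear_combination h0 + h3 |
      linear_combination h1 + h2 | linear_combination h1 + h3 | linear_combination h2 + h3

theorem not_equiv (a b : ℤ) (ha : ∀ i, vec a i ≠ 0) (hb : ∀ i, vec b i ≠ 0) (h0a : BF0 a)
    (h0 : BF0 b) (h1 : BF1 b) (h3 : BF3 a b) : ¬ ProjEquiv (ZZ a ha) (ZZ b hb) := by
  rintro ⟨g, hg⟩
  have hπ : ∀ i, ∃ j, ∃ c : ℂ, c ≠ 0 ∧ g (vecC a i) = c • vecC b j := by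
    intro i
    have h5 := (hg (pt a ha i)).mp (mem_ZZ.mpr ⟨i, rfl⟩)
    obtain ⟨j, hj⟩ := mem_ZZ.mp h5
    rw [pt, pt, Projectivization.map_mk] at hj
    obtain ⟨c, hc⟩ := (Projectivization.mk_eq_mk_iff ℂ _ _ _ _).mp hj
    refine ⟨j, (c⁻¹ : ℂˣ), (c⁻¹).ne_zero, ?_⟩
    have h6 : vecC b j = (c : ℂ) • g (vecC a i) := hc.symm
    rw [h6, smul_smul]
    simp
  choose f c hc hf using hπ
  have hinj : ∀ i j, i ≠ j → f i ≠ f j := by
    intro i j hij hfe
    have e1' := hf i
    have e2' := hf j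
    rw [hfe] at e1'
    have h7 : g (c j • vecC a i - c i • vecC a j) = 0 := by
      rw [map_sub, map_smul, map_smul, e1', e2', smul_smul, smul_smul, mul_comm, sub_self]
    have h8 : c j • vecC a i - c i • vecC a j = 0 := by
      rwa [LinearEquiv.map_eq_zero_iff] at h7
    refine prop_absurd h0a hij (c i / c j) 1 (vecC a j) ?_ ?_
    · intro r
      have h9 := congrFun h8 r
      simp only [Pi.sub_apply, Pi.smul_apply, smul_eq_mul, Pi.zero_apply] at h9
      have := hc j
      field_simp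
      linear_combination h9
    · intro r
      simp
  -- the four collinear points
  let i0 : Fin 4 × Fin 6 := (0, 0)
  let i1 : Fin 4 × Fin 6 := (0, 1)
  let i2 : Fin 4 × Fin 6 := (0, 2)
  let i3 : Fin 4 × Fin 6 := (0, 3)
  have r2 : vecC a i2 = -vecC a i0 - vecC a i1 := by
    funext j
    simp [vecC, vec, i0, i1, i2, lam, mu]
    ring
  have r3 : vecC a i3 = (a : ℂ) • vecC a i0 + vecC a i1 := by
    funext j
    simp [vecC, vec, i0, i1, i3, lam, mu]
  have s2 : ∀ j, c i2 * vecC b (f i2) j = -(c i0 * vecC b (f i0) j) - c i1 * vecC b (f i1) j := by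
    intro j
    have := congrFun (hf i2) j
    rw [r2, map_sub, map_neg, hf i0, hf i1] at this
    simpa using this.symm
  have s3 : ∀ j, c i3 * vecC b (f i3) j = a * (c i0 * vecC b (f i0) j) + c i1 * vecC b (f i1) j := by
    intro j
    have := congrFun (hf i3) j
    rw [r3, map_add, map_smul, hf i0, hf i1] at this
    simpa using this.symm
  have n01 : f i0 ≠ f i1 := hinj _ _ (by decide)
  have n02 : f i0 ≠ f i2 := hinj _ _ (by decide)
  have n03 : f i0 ≠ f i3 := hinj _ _ (by decide)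
  have n12 : f i1 ≠ f i2 := hinj _ _ (by decide)
  have n13 : f i1 ≠ f i3 := hinj _ _ (by decide)
  have n23 : f i2 ≠ f i3 := hinj _ _ (by decide)
  have c0 := hc i0
  have c1 := hc i1
  have c2 := hc i2
  have c3 := hc i3
  generalize hp0 : f i0 = p0 at *
  generalize hp1 : f i1 = p1 at *
  generalize hp2 : f i2 = p2 at *
  generalize hp3 : f i3 = p3 at *
  generalize hd0 : c i0 = d0 at *
  generalize hd1 : c i1 = d1 at *
  generalize hd2 : c i2 = d2 at *
  generalize hd3 : c i3 = d3 at *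
  have k012 : col (vec b p0) (vec b p1) (vec b p2) = true :=
    col_of_rel _ _ _ d0 d1 d2 (Or.inl c0) (fun j => by
      have := s2 j; simp only [vecC] at this; linear_combination this)
  have k013 : col (vec b p0) (vec b p1) (vec b p3) = true :=
    col_of_rel _ _ _ (-(a * d0)) (-d1) d3 (Or.inr (Or.inr c3)) (fun j => by
      have := s3 j; simp only [vecC] at this; linear_combination this)
  have k021 : col (vec b p0) (vec b p2) (vec b p1) = true :=
    col_of_rel _ _ _ d0 d2 d1 (Or.inl c0) (fun j => by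
      have := s2 j; simp only [vecC] at this; linear_combination this)
  have k023 : col (vec b p0) (vec b p2) (vec b p3) = true :=
    col_of_rel _ _ _ ((1 - a) * d0) d2 d3 (Or.inr (Or.inl c2)) (fun j => by
      have e2 := s2 j
      have e3 := s3 j
      simp only [vecC] at e2 e3
      linear_combination e2 + e3)
  have k031 : col (vec b p0) (vec b p3) (vec b p1) = true :=
    col_of_rel _ _ _ (-(a * d0)) d3 (-d1) (Or.inr (Or.inl c3)) (fun j => by
      have := s3 j; simp only [vecC] at this; linear_combination this)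
  have k032 : col (vec b p0) (vec b p3) (vec b p2) = true :=
    col_of_rel _ _ _ ((1 - a) * d0) d3 d2 (Or.inr (Or.inl c3)) (fun j => by
      have e2 := s2 j
      have e3 := s3 j
      simp only [vecC] at e2 e3
      linear_combination e2 + e3)
  have b1 : p0.1 = p1.1 := by
    by_contra hcon
    exact h1 p0 p1 hcon p2 n02.symm n12.symm k012 p3 n03.symm n13.symm n23 k013
  have b2 : p0.1 = p2.1 := by
    by_contra hcon
    exact h1 p0 p2 hcon p1 n01.symm n12 k021 p3 n03.symm n23.symm n13 k023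
  have b3 : p0.1 = p3.1 := by
    by_contra hcon
    exact h1 p0 p3 hcon p1 n01.symm n13 k031 p2 n02.symm n23 n12 k032
  obtain ⟨l, q0⟩ := p0
  obtain ⟨l1, q1⟩ := p1
  obtain ⟨l2, q2⟩ := p2
  obtain ⟨l3, q3⟩ := p3
  simp only at b1 b2 b3
  subst b1
  subst b2
  subst b3
  have t2 := e_indep l (d2 * (lam b q2 : ℤ) + d0 * (lam b q0 : ℤ) + d1 * (lam b q1 : ℤ))
    (d2 * (mu b q2 : ℤ) + d0 * (mu b q0 : ℤ) + d1 * (mu b q1 : ℤ)) (fun j => by
      have := s2 j
      simp only [vecC, vec] at this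
      push_cast at this
      linear_combination this)
  have t3 := e_indep l (d3 * (lam b q3 : ℤ) - a * d0 * (lam b q0 : ℤ) - d1 * (lam b q1 : ℤ))
    (d3 * (mu b q3 : ℤ) - a * d0 * (mu b q0 : ℤ) - d1 * (mu b q1 : ℤ)) (fun j => by
      have := s3 j
      simp only [vecC, vec] at this
      push_cast at this
      linear_combination this)
  obtain ⟨t2a, t2b⟩ := t2
  obtain ⟨t3a, t3b⟩ := t3
  apply h3 q0 q1 q2 q3 (fun h => n01 (by rw [h])) (fun h => n02 (by rw [h]))
    (fun h => n03 (by rw [h])) (fun h => n12 (by rw [h])) (fun h => n13 (by rw [h]))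
    (fun h => n23 (by rw [h]))
  have hfin : (d2 * d3) * ((br b q3 q1 * br b q0 q2 - a * (br b q2 q1 * br b q0 q3) : ℤ) : ℂ) = 0 := by
    simp only [br]
    push_cast
    have A1 : d2 * ((lam b q2 : ℂ) * mu b q1 - lam b q1 * mu b q2) =
        -d0 * ((lam b q0 : ℂ) * mu b q1 - lam b q1 * mu b q0) := by
      linear_combination (mu b q1 : ℂ) * t2a - (lam b q1 : ℂ) * t2b
    have A2 : d2 * ((lam b q0 : ℂ) * mu b q2 - lam b q2 * mu b q0) =
        -d1 * ((lam b q0 : ℂ) * mu b q1 - lam b q1 * mu b q0) := by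
      linear_combination (lam b q0 : ℂ) * t2b - (mu b q0 : ℂ) * t2a
    have A3 : d3 * ((lam b q3 : ℂ) * mu b q1 - lam b q1 * mu b q3) =
        a * d0 * ((lam b q0 : ℂ) * mu b q1 - lam b q1 * mu b q0) := by
      linear_combination (mu b q1 : ℂ) * t3a - (lam b q1 : ℂ) * t3b
    have A4 : d3 * ((lam b q0 : ℂ) * mu b q3 - lam b q3 * mu b q0) =
        d1 * ((lam b q0 : ℂ) * mu b q1 - lam b q1 * mu b q0) := by
      linear_combination (lam b q0 : ℂ) * t3b - (mu b q0 : ℂ) * t3a
    linear_combination (d2 * ((lam b q0 : ℂ) * mu b q2 - lam b q2 * mu b q0)) * A3 +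
      (a * d0 * ((lam b q0 : ℂ) * mu b q1 - lam b q1 * mu b q0)) * A2 -
      (a * (d3 * ((lam b q0 : ℂ) * mu b q3 - lam b q3 * mu b q0))) * A1 +
      (a * d0 * ((lam b q0 : ℂ) * mu b q1 - lam b q1 * mu b q0)) * A4
  have h10 := (mul_eq_zero.mp hfin).resolve_left (mul_ne_zero c2 c3)
  have h11 : (br b q3 q1 * br b q0 q2 - a * (br b q2 q1 * br b q0 q3) : ℤ) = 0 := by
    exact_mod_cast h10
  linarith

end Pool.Agent.H26.Gep
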