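import Mathlib
import Pool.Agent.H26.GepProj

set_option autoImplicit false
open scoped LinearAlgebra.Projectivization

namespace Pool.Agent.H26.Gep

def m2 (x y : ℤ × ℤ × ℤ × ℤ) : ℤ × ℤ × ℤ × ℤ × ℤ × ℤ :=
  match x, y with
  | (a0, a1, a2, a3), (b0, b1, b2, b3) =>
    (a0*b1-a1*b0, a0*b2-a2*b0, a0*b3-a3*b0, a1*b2-a2*b1, a1*b3-a3*b1, a2*b3-a3*b2)

def pair (u v : ℤ × ℤ × ℤ × ℤ × ℤ × ℤ) : ℤ :=
  match u, v with
  | (m01,m02,m03,m12,m13,m23), (n01,n02,n03,n12,n13,n23) =>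
    m01*n23 - m02*n13 + m03*n12 + m12*n03 - m13*n02 + m23*n01

def toQ (v : Fin 4 → ℤ) : ℤ × ℤ × ℤ × ℤ := (v 0, v 1, v 2, v 3)

/-- enumeration of the index set -/
def q24 : Fin 24 ≃ Fin 4 × Fin 6 := (finProdFinEquiv (m := 4) (n := 6)).symm

def V (a : ℤ) (i : Fin 24) : Fin 4 → ℤ := vec a (q24 i)

def det4 (x y z w : Fin 4 → ℤ) : ℤ := pair (m2 (toQ x) (toQ y)) (m2 (toQ z) (toQ w))

/-- the 4-point dependencies agree for the parameters `a` and `b` -/
def BF2 (a b : ℤ) : Prop := ∀ i j : Fin 24, i < j → ∀ k, j < k → ∀ m, k < m →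
    ((det4 (V a i) (V a j) (V a k) (V a m) = 0) ↔ (det4 (V b i) (V b j) (V b k) (V b m) = 0))

/-- complex vectors indexed by `Fin 24` -/
def W (a : ℤ) (i : Fin 24) : Fin 4 → ℂ := vecC a (q24 i)

lemma det_W (a : ℤ) (σ : Fin 4 → Fin 24) :
    (Matrix.of (fun r => W a (σ r))).det =
      ((det4 (V a (σ 0)) (V a (σ 1)) (V a (σ 2)) (V a (σ 3)) : ℤ) : ℂ) := by
  rw [Matrix.det_succ_row_zero]
  simp [Fin.sum_univ_succ, Matrix.det_fin_three, det4, pair, m2, toQ, W, V, vecC,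
    Fin.succAbove, Matrix.submatrix]
  ring

lemma li_iff (a : ℤ) (σ : Fin 4 → Fin 24) :
    LinearIndependent ℂ (fun r => W a (σ r)) ↔
      det4 (V a (σ 0)) (V a (σ 1)) (V a (σ 2)) (V a (σ 3)) ≠ 0 := by
  have h1 : LinearIndependent ℂ (fun r => W a (σ r)) ↔
      IsUnit (Matrix.of (fun r => W a (σ r))) :=
    Matrix.linearIndependent_rows_iff_isUnit (A := Matrix.of (fun r => W a (σ r)))
  rw [h1, Matrix.isUnit_iff_isUnit_det, isUnit_iff_ne_zero, det_W]
  exact Int.cast_ne_zero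

lemma span_W (a : ℤ) : Submodule.span ℂ (Set.range (W a)) = ⊤ := by
  have h1 : LinearIndependent ℂ (fun l : Fin 4 => vecC a (l, 0)) := by
    rw [Fintype.linearIndependent_iff]
    intro g hg
    have h0 := congrFun hg 0
    have h1 := congrFun hg 1
    have h2 := congrFun hg 2
    have h3 := congrFun hg 3
    simp [Fin.sum_univ_succ, vecC, vec, lam, mu, e1] at h0 h1 h2 h3
    have g3 : g 3 = 0 := h2
    have g2 : g 2 = 0 := h3
    intro i
    fin_cases i
    · show g 0 = 0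
      linear_combination (1/2) * h0 + (1/2) * h1 - (1/2) * g2 - (1/2) * g3
    · show g 1 = 0
      linear_combination (1/2) * h0 - (1/2) * h1 - (1/2) * g2 + (1/2) * g3
    · exact g2
    · exact g3
  have h2 := h1.span_eq_top_of_card_eq_finrank (by simp)
  rw [eq_top_iff, ← h2]
  apply Submodule.span_mono
  rintro _ ⟨l, rfl⟩
  exact ⟨q24.symm (l, 0), by simp [W]⟩

lemma li_transfer {a b : ℤ} (h2 : BF2 a b) (T : Set (Fin 24)) (hT : LinearIndepOn ℂ (W a) T) :
    LinearIndepOn ℂ (W b) T := by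
  classical
  set T' : Set (Fin 24) := hT.extend (Set.subset_univ T) with hT'
  have hsub : T ⊆ T' := hT.subset_extend _
  have hli : LinearIndepOn ℂ (W a) T' := hT.linearIndepOn_extend _
  have hspan : Submodule.span ℂ (W a '' T') = ⊤ := by
    rw [hT', hT.span_image_extend_eq_span_image, Set.image_univ, span_W]
  have hcard : T'.toFinset.card = 4 := by
    have hb : Module.finrank ℂ (Fin 4 → ℂ) = Fintype.card T' := by
      refine Module.finrank_eq_card_basis (Module.Basis.mk hli ?_)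
      rw [Set.image_eq_range] at hspan
      exact hspan.ge
    rw [Set.toFinset_card, ← hb]
    simp
  set σ := T'.toFinset.orderEmbOfFin hcard with hσ
  have hσT : ∀ r, σ r ∈ T' := fun r => by
    have := T'.toFinset.orderEmbOfFin_mem hcard r
    exact Set.mem_toFinset.mp this
  have h3 : LinearIndependent ℂ (fun r => W a (σ r)) := by
    have := hli.comp (fun r : Fin 4 => (⟨σ r, hσT r⟩ : T')) (by
      intro r s hrs
      exact σ.injective (Subtype.mk.inj hrs))
    exact this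
  have h4 : LinearIndependent ℂ (fun r => W b (σ r)) := by
    rw [li_iff] at h3 ⊢
    intro h5
    apply h3
    exact (h2 (σ 0) (σ 1) (σ.strictMono (by decide)) (σ 2) (σ.strictMono (by decide)) (σ 3)
      (σ.strictMono (by decide))).mpr h5
  have h5 : LinearIndepOn ℂ (W b) T' := by
    have hr : T' = Set.range σ := by
      have := T'.toFinset.range_orderEmbOfFin hcard
      rw [hσ, this]
      simp
    rw [hr]
    exact (linearIndepOn_range_iff σ.injective (W b)).mpr h4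
  exact h5.mono hsub

lemma li_transfer_iff {a b : ℤ} (h2 : BF2 a b) (T : Set (Fin 24)) :
    LinearIndepOn ℂ (W a) T ↔ LinearIndepOn ℂ (W b) T :=
  ⟨li_transfer h2 T, li_transfer (fun i j hij k hjk m hkm => (h2 i j hij k hjk m hkm).symm) T⟩

noncomputable def eqv (a : ℤ) (h : ∀ i, vec a i ≠ 0) (h0 : BF0 a) : Fin 24 ≃ ZZ a h :=
  q24.trans
    (Equiv.ofBijective (fun i => ⟨pt a h i, mem_ZZ.mpr ⟨i, rfl⟩⟩) ⟨fun i j hij =>
      pt_inj h h0 (Subtype.mk.inj hij), fun z => by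
        obtain ⟨i, hi⟩ := mem_ZZ.mp z.2
        exact ⟨i, Subtype.ext hi⟩⟩)

lemma eqv_val (a : ℤ) (h : ∀ i, vec a i ≠ 0) (h0 : BF0 a) (i : Fin 24) :
    (eqv a h h0 i).1 = pt a h (q24 i) := rfl

lemma li_eqv (a : ℤ) (h : ∀ i, vec a i ≠ 0) (h0 : BF0 a) (S : Set (ZZ a h)) :
    LinearIndependent ℂ (fun z : S => (z : ZZ a h).1.rep) ↔
      LinearIndepOn ℂ (W a) (eqv a h h0 ⁻¹' S) := by
  have hrep : ∀ i : Fin 24, ∃ c : ℂˣ, (eqv a h h0 i).1.rep = c • W a i := by
    intro i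
    obtain ⟨c, hc, hr⟩ := rep_pt a h (q24 i)
    refine ⟨Units.mk0 c hc, ?_⟩
    rw [eqv_val, hr]
    rfl
  choose c hc using hrep
  let e : (eqv a h h0 ⁻¹' S : Set (Fin 24)) ≃ S :=
    { toFun := fun i => ⟨eqv a h h0 i.1, i.2⟩
      invFun := fun z => ⟨(eqv a h h0).symm z.1, by simp⟩
      left_inv := fun i => by simp
      right_inv := fun z => by simp }
  rw [← linearIndependent_equiv e]
  have h1 : ((fun z : S => (z : ZZ a h).1.rep) ∘ e) =
      (fun i : (eqv a h h0 ⁻¹' S : Set (Fin 24)) => c i.1) •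
        (fun i : (eqv a h h0 ⁻¹' S : Set (Fin 24)) => W a i.1) := by
    funext i
    exact hc i.1
  rw [h1, LinearIndependent.units_smul_iff]
  rfl

theorem matroidIso (a b : ℤ) (ha : ∀ i, vec a i ≠ 0) (hb : ∀ i, vec b i ≠ 0) (h0a : BF0 a)
    (h0b : BF0 b) (h2 : BF2 a b) : MatroidIso (ZZ a ha) (ZZ b hb) := by
  refine ⟨(eqv a ha h0a).symm.trans (eqv b hb h0b), fun S => ?_⟩
  set φ := (eqv a ha h0a).symm.trans (eqv b hb h0b) with hφ
  rw [li_eqv a ha h0a S, li_transfer_iff h2]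
  have h3 := li_eqv b hb h0b (φ '' S)
  have h4 : eqv b hb h0b ⁻¹' (φ '' S) = eqv a ha h0a ⁻¹' S := by
    ext i
    simp only [Set.mem_preimage, Set.mem_image]
    constructor
    · rintro ⟨z, hz, hzi⟩
      have : (eqv a ha h0a).symm z = i := by
        apply (eqv b hb h0b).injective
        simpa [hφ] using hzi
      rw [← this]
      simpa using hz
    · intro hi
      exact ⟨eqv a ha h0a i, hi, by simp [hφ]⟩
  rw [h4] at h3
  rw [← h3]
  have h5 : (fun z : S => (φ (z : ZZ a ha)).1.rep) =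
      (fun z : (φ '' S : Set (ZZ b hb)) => (z : ZZ b hb).1.rep) ∘ (φ.image S) := by
    funext z
    rfl
  rw [h5]
  exact (linearIndependent_equiv (φ.image S)).symm

end Pool.Agent.H26.Gep
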