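import Mathlib
import Pool.Agent.H26.GepMat

set_option autoImplicit false

namespace Pool.Agent.H26.Gep

lemma ne3 : ∀ i, vec 3 i ≠ 0 := by decide +kernel
lemma ne4 : ∀ i, vec 4 i ≠ 0 := by decide +kernel
lemma np3 : NP 3 := by unfold NP; decide +kernel
lemma np4 : NP 4 := by unfold NP; decide +kernel
lemma bf0_3 : BF0 3 := by unfold BF0; decide +kernel
lemma bf0_4 : BF0 4 := by unfold BF0; decide +kernel
lemma bf1_3' : BF1 3 := bf1_3
lemma bf1_4 : BF1 4 := by unfold BF1; decide +kernel
lemma bf3 : BF3 3 4 := by unfold BF3; decide +kernel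
lemma bf2 : BF2 3 4 := by unfold BF2; decide +kernel

end Pool.Agent.H26.Gep
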