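import Mathlib

set_option autoImplicit false

namespace Pool.Agent.H26.Inv

open Matrix
open scoped Pointwise

abbrev SL := Matrix.SpecialLinearGroup (Fin 2) ℤ

def T : SL := ⟨!![1, 1; 0, 1], by simp [Matrix.det_fin_two]⟩
def V : SL := ⟨!![1, 0; 4, 1], by simp [Matrix.det_fin_two]⟩

abbrev F2 := FreeGroup (Fin 2)

def rho : F2 →* SL := FreeGroup.lift ![T, V]

/-- nonzero integer vectors -/
def Vec := {v : ℤ × ℤ // v ≠ 0}

lemma mul00 (A B : SL) : (A * B) 0 0 = A 0 0 * B 0 0 + A 0 1 * B 1 0 := by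
  simp [Matrix.mul_apply, Fin.sum_univ_two]
lemma mul01 (A B : SL) : (A * B) 0 1 = A 0 0 * B 0 1 + A 0 1 * B 1 1 := by
  simp [Matrix.mul_apply, Fin.sum_univ_two]
lemma mul10 (A B : SL) : (A * B) 1 0 = A 1 0 * B 0 0 + A 1 1 * B 1 0 := by
  simp [Matrix.mul_apply, Fin.sum_univ_two]
lemma mul11 (A B : SL) : (A * B) 1 1 = A 1 0 * B 0 1 + A 1 1 * B 1 1 := by
  simp [Matrix.mul_apply, Fin.sum_univ_two]

lemma det_eq (A : SL) : A 0 0 * A 1 1 - A 0 1 * A 1 0 = 1 := by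
  have := A.det_coe
  rw [Matrix.det_fin_two] at this
  exact this

lemma inv00 (A : SL) : A⁻¹ 0 0 = A 1 1 := by
  rw [Matrix.SpecialLinearGroup.SL2_inv_expl]; rfl
lemma inv01 (A : SL) : A⁻¹ 0 1 = - A 0 1 := by
  rw [Matrix.SpecialLinearGroup.SL2_inv_expl]; rfl
lemma inv10 (A : SL) : A⁻¹ 1 0 = - A 1 0 := by
  rw [Matrix.SpecialLinearGroup.SL2_inv_expl]; rfl
lemma inv11 (A : SL) : A⁻¹ 1 1 = A 0 0 := by
  rw [Matrix.SpecialLinearGroup.SL2_inv_expl]; rfl

instance : MulAction SL Vec where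
  smul A v := ⟨(A 0 0 * v.1.1 + A 0 1 * v.1.2, A 1 0 * v.1.1 + A 1 1 * v.1.2), by
    intro h
    apply v.2
    have h1 : A 0 0 * v.1.1 + A 0 1 * v.1.2 = 0 := congrArg Prod.fst h
    have h2 : A 1 0 * v.1.1 + A 1 1 * v.1.2 = 0 := congrArg Prod.snd h
    have hd := det_eq A
    have e1 : v.1.1 = 0 := by
      linear_combination (-v.1.1) * hd + A 1 1 * h1 - A 0 1 * h2
    have e2 : v.1.2 = 0 := by
      linear_combination (-v.1.2) * hd + A 0 0 * h2 - A 1 0 * h1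
    exact Prod.ext e1 e2⟩
  one_smul v := by
    apply Subtype.ext
    apply Prod.ext
    · change (1 : SL) 0 0 * v.1.1 + (1 : SL) 0 1 * v.1.2 = v.1.1
      simp
    · change (1 : SL) 1 0 * v.1.1 + (1 : SL) 1 1 * v.1.2 = v.1.2
      simp
  mul_smul A B v := by
    apply Subtype.ext
    apply Prod.ext
    · change (A * B) 0 0 * v.1.1 + (A * B) 0 1 * v.1.2 = A 0 0 * (B 0 0 * v.1.1 + B 0 1 * v.1.2)
        + A 0 1 * (B 1 0 * v.1.1 + B 1 1 * v.1.2)
      rw [mul00, mul01]; ring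
    · change (A * B) 1 0 * v.1.1 + (A * B) 1 1 * v.1.2 = A 1 0 * (B 0 0 * v.1.1 + B 0 1 * v.1.2)
        + A 1 1 * (B 1 0 * v.1.1 + B 1 1 * v.1.2)
      rw [mul10, mul11]; ring

lemma smul_fst (A : SL) (v : Vec) : (A • v).1.1 = A 0 0 * v.1.1 + A 0 1 * v.1.2 := rfl
lemma smul_snd (A : SL) (v : Vec) : (A • v).1.2 = A 1 0 * v.1.1 + A 1 1 * v.1.2 := rfl

def XX : Fin 2 → Set Vec :=
  ![{v | v.1.2 ^ 2 ≤ 2 * v.1.1 * v.1.2}, {v | 0 ≤ v.1.1 * v.1.2 ∧ 2 * v.1.1 * v.1.2 < v.1.2 ^ 2}]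
def YY : Fin 2 → Set Vec :=
  ![{v | 2 * v.1.1 * v.1.2 < - v.1.2 ^ 2}, {v | - v.1.2 ^ 2 ≤ 2 * v.1.1 * v.1.2 ∧ v.1.1 * v.1.2 < 0}]

lemma vec_pos (v : Vec) : 0 < v.1.1 ^ 2 + v.1.2 ^ 2 := by
  by_contra h
  push Not at h
  apply v.2
  have h1 : v.1.1 ^ 2 = 0 := by nlinarith [sq_nonneg v.1.1, sq_nonneg v.1.2]
  have h2 : v.1.2 ^ 2 = 0 := by nlinarith [sq_nonneg v.1.1, sq_nonneg v.1.2]
  exact Prod.ext (pow_eq_zero_iff (two_ne_zero) |>.1 h1) (pow_eq_zero_iff (two_ne_zero) |>.1 h2)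

lemma rho_injective : Function.Injective rho := by
  apply FreeGroup.injective_lift_of_ping_pong ![T, V] XX YY
  · intro i
    fin_cases i
    · exact ⟨⟨(1, 0), by simp⟩, show (0 : ℤ) ^ 2 ≤ 2 * 1 * 0 by norm_num⟩
    · exact ⟨⟨(0, 1), by simp⟩, show (0 : ℤ) ≤ 0 * 1 ∧ (2 : ℤ) * 0 * 1 < 1 ^ 2 by norm_num⟩
  · intro i j hij
    fin_cases i <;> fin_cases j <;> simp at hij ⊢
    · rw [Function.onFun, Set.disjoint_left]
      intro v h1 h2
      simp [XX] at h1 h2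
      omega
    · rw [Function.onFun, Set.disjoint_left]
      intro v h1 h2
      simp [XX] at h1 h2
      omega
  · intro i j hij
    fin_cases i <;> fin_cases j <;> simp at hij ⊢
    · rw [Function.onFun, Set.disjoint_left]
      intro v h1 h2
      simp [YY] at h1 h2
      omega
    · rw [Function.onFun, Set.disjoint_left]
      intro v h1 h2
      simp [YY] at h1 h2
      omega
  · intro i j
    rw [Set.disjoint_left]
    intro v h1 h2
    have := sq_nonneg v.1.2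
    fin_cases i <;> fin_cases j <;> simp [XX, YY] at h1 h2 <;> nlinarith
  · intro i
    fin_cases i
    · rintro _ ⟨v, hv, rfl⟩
      have e1 : ((T • v : Vec)).1.1 = v.1.1 + v.1.2 := by rw [smul_fst]; simp [T]
      have e2 : ((T • v : Vec)).1.2 = v.1.2 := by rw [smul_snd]; simp [T]
      simp [YY] at hv
      change ((T • v : Vec)).1.2 ^ 2 ≤ 2 * ((T • v : Vec)).1.1 * ((T • v : Vec)).1.2
      rw [e1, e2]
      nlinarith
    · rintro _ ⟨v, hv, rfl⟩
      have e1 : ((V • v : Vec)).1.1 = v.1.1 := by rw [smul_fst]; simp [V]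
      have e2 : ((V • v : Vec)).1.2 = 4 * v.1.1 + v.1.2 := by rw [smul_snd]; simp [V]
      simp [YY] at hv
      change 0 ≤ ((V • v : Vec)).1.1 * ((V • v : Vec)).1.2 ∧
        2 * ((V • v : Vec)).1.1 * ((V • v : Vec)).1.2 < ((V • v : Vec)).1.2 ^ 2
      rw [e1, e2]
      have hp := vec_pos v
      by_cases h : 0 ≤ v.1.1 * v.1.2
      · constructor
        · nlinarith [sq_nonneg v.1.1]
        · nlinarith [sq_nonneg v.1.1, sq_nonneg v.1.2]
      · have h2 : 2 * v.1.1 * v.1.2 < - v.1.2 ^ 2 := by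
          by_contra h3
          push Not at h3
          have := hv (by linarith)
          omega
        constructor
        · nlinarith [sq_nonneg (2 * v.1.1 + v.1.2)]
        · nlinarith [sq_nonneg (2 * v.1.1 + v.1.2)]
  · intro i
    fin_cases i
    · rintro _ ⟨v, hv, rfl⟩
      have e1 : ((T⁻¹ • v : Vec)).1.1 = v.1.1 - v.1.2 := by
        rw [smul_fst, inv00, inv01]; simp [T]; ring
      have e2 : ((T⁻¹ • v : Vec)).1.2 = v.1.2 := by
        rw [smul_snd, inv10, inv11]; simp [T]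
      simp [XX] at hv
      change 2 * ((T⁻¹ • v : Vec)).1.1 * ((T⁻¹ • v : Vec)).1.2 < - ((T⁻¹ • v : Vec)).1.2 ^ 2
      rw [e1, e2]
      nlinarith
    · rintro _ ⟨v, hv, rfl⟩
      have e1 : ((V⁻¹ • v : Vec)).1.1 = v.1.1 := by
        rw [smul_fst, inv00, inv01]; simp [V]
      have e2 : ((V⁻¹ • v : Vec)).1.2 = v.1.2 - 4 * v.1.1 := by
        rw [smul_snd, inv10, inv11]; simp [V]; ring
      simp [XX] at hv
      change - ((V⁻¹ • v : Vec)).1.2 ^ 2 ≤ 2 * ((V⁻¹ • v : Vec)).1.1 * ((V⁻¹ • v : Vec)).1.2 ∧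
        ((V⁻¹ • v : Vec)).1.1 * ((V⁻¹ • v : Vec)).1.2 < 0
      rw [e1, e2]
      have hp := vec_pos v
      by_cases h : 0 ≤ v.1.1 * v.1.2
      · have h2 := hv h
        constructor
        · nlinarith [sq_nonneg (2 * v.1.1 - v.1.2)]
        · rcases eq_or_lt_of_le h with h0 | h0
          · have : v.1.2 ^ 2 ≤ 0 := by nlinarith
            nlinarith
          · nlinarith [sq_nonneg (2 * v.1.1 - v.1.2)]
      · push Not at h
        constructor
        · nlinarith [sq_nonneg v.1.1, sq_nonneg v.1.2]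
        · nlinarith [sq_nonneg v.1.1, sq_nonneg v.1.2]

/-- congruence conditions on the image -/
lemma cong (w : F2) : (4 : ℤ) ∣ rho w 1 0 ∧ (4 : ℤ) ∣ rho w 0 0 - 1 ∧ (4 : ℤ) ∣ rho w 1 1 - 1 := by
  induction w using FreeGroup.induction_on with
  | C1 => simp
  | of i => fin_cases i <;> simp [rho, T, V]
  | inv_of i h =>
    rw [map_inv, inv10, inv00, inv11]
    exact ⟨(dvd_neg).2 h.1, h.2.2, h.2.1⟩
  | mul x y hx hy =>
    obtain ⟨⟨a1, ha1⟩, ⟨a2, ha2⟩, ⟨a3, ha3⟩⟩ := hx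
    obtain ⟨⟨b1, hb1⟩, ⟨b2, hb2⟩, ⟨b3, hb3⟩⟩ := hy
    rw [map_mul, mul00, mul10, mul11]
    have e1 : rho x 0 0 = 4 * a2 + 1 := by linarith
    have e2 : rho x 1 1 = 4 * a3 + 1 := by linarith
    have e3 : rho y 0 0 = 4 * b2 + 1 := by linarith
    have e4 : rho y 1 1 = 4 * b3 + 1 := by linarith
    rw [e1, e2, e3, e4, ha1, hb1]
    refine ⟨⟨a1 * (4 * b2 + 1) + (4 * a3 + 1) * b1, by ring⟩,
      ⟨4 * a2 * b2 + a2 + b2 + rho x 0 1 * b1, by ring⟩,
      ⟨a1 * rho y 0 1 + 4 * a3 * b3 + a3 + b3, by ring⟩⟩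

/-- parity homomorphism -/
def chi : F2 →* Multiplicative (ZMod 2) := FreeGroup.lift ![Multiplicative.ofAdd 1, 1]

def S : Subgroup F2 := chi.ker

lemma index_S : S.index = 2 := by
  rw [S, Subgroup.index_ker]
  have : chi.range = ⊤ := by
    rw [MonoidHom.range_eq_top]
    intro z
    have : z = 1 ∨ z = Multiplicative.ofAdd 1 := by
      revert z; decide
    rcases this with h | h
    · exact ⟨1, by rw [h, map_one]⟩
    · exact ⟨FreeGroup.of 0, by rw [h]; simp [chi]⟩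
  rw [this, Subgroup.card_top]
  simp

/-- parity of the upper right entry -/
lemma parity (w : F2) : ((rho w 0 1 : ℤ) : ZMod 2) = Multiplicative.toAdd (chi w) := by
  induction w using FreeGroup.induction_on with
  | C1 => simp
  | of i => fin_cases i <;> simp [rho, T, V, chi]
  | inv_of i h =>
    rw [map_inv, inv01, map_inv, toAdd_inv, ← h, Int.cast_neg]
  | mul x y hx hy =>
    rw [map_mul, mul01, map_mul, toAdd_mul, ← hx, ← hy]
    have h1 : ((rho x 0 0 : ℤ) : ZMod 2) = 1 := by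
      obtain ⟨k, hk⟩ := (cong x).2.1
      have e : rho x 0 0 = 2 * (2 * k) + 1 := by linarith
      rw [e]
      push_cast
      have : (2 : ZMod 2) = 0 := rfl
      rw [this]; simp
    have h2 : ((rho y 1 1 : ℤ) : ZMod 2) = 1 := by
      obtain ⟨k, hk⟩ := (cong y).2.2
      have e : rho y 1 1 = 2 * (2 * k) + 1 := by linarith
      rw [e]
      push_cast
      have : (2 : ZMod 2) = 0 := rfl
      rw [this]; simp
    push_cast
    rw [h1, h2]
    ring

lemma even_of_mem {w : F2} (hw : w ∈ S) : (2 : ℤ) ∣ rho w 0 1 := by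
  have h1 := parity w
  have h2 : chi w = 1 := hw
  rw [h2, toAdd_one] at h1
  exact (ZMod.intCast_zmod_eq_zero_iff_dvd _ 2).1 h1

def g : Matrix (Fin 2) (Fin 2) ℤ := !![1, 1; -2, 0]

lemma g00 : g 0 0 = 1 := rfl
lemma g01 : g 0 1 = 1 := rfl
lemma g10 : g 1 0 = -2 := rfl
lemma g11 : g 1 1 = 0 := rfl

/-- `ρ(x) = ± g ρ(h) g⁻¹` with `g = [[1,1],[-2,0]]` -/
def Rel (h x : F2) : Prop := ∃ e : ℤ, e * e = 1 ∧
  (rho x : Matrix (Fin 2) (Fin 2) ℤ) * g = e • (g * (rho h : Matrix (Fin 2) (Fin 2) ℤ))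

lemma Rel.one : Rel 1 1 := ⟨1, by norm_num, by simp⟩

lemma Rel.mul {h x h' x' : F2} (H : Rel h x) (H' : Rel h' x') : Rel (h * h') (x * x') := by
  obtain ⟨e, he, h1⟩ := H
  obtain ⟨e', he', h1'⟩ := H'
  refine ⟨e * e', by linear_combination e' * e' * he + he', ?_⟩
  rw [map_mul, map_mul, Matrix.SpecialLinearGroup.coe_mul, Matrix.SpecialLinearGroup.coe_mul,
    Matrix.mul_assoc, h1', Matrix.mul_smul, ← Matrix.mul_assoc, h1, Matrix.smul_mul, smul_smul,
    Matrix.mul_assoc, mul_comm e' e]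

lemma Rel.inv {h x : F2} (H : Rel h x) : Rel h⁻¹ x⁻¹ := by
  obtain ⟨e, he, h1⟩ := H
  refine ⟨e, he, ?_⟩
  rw [map_inv, map_inv]
  have hx : ((rho x)⁻¹ : SL).1 * (rho x).1 = 1 := by
    rw [← Matrix.SpecialLinearGroup.coe_mul, inv_mul_cancel]; rfl
  have hh : (rho h).1 * ((rho h)⁻¹ : SL).1 = 1 := by
    rw [← Matrix.SpecialLinearGroup.coe_mul, mul_inv_cancel]; rfl
  have h2 : g = e • (((rho x)⁻¹ : SL).1 * (g * (rho h).1)) := by
    rw [← Matrix.mul_smul, ← h1, ← Matrix.mul_assoc, hx, Matrix.one_mul]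
  have h3 : g * ((rho h)⁻¹ : SL).1 = e • (((rho x)⁻¹ : SL).1 * g) := by
    conv_lhs => rw [h2]
    rw [Matrix.smul_mul, Matrix.mul_assoc, Matrix.mul_assoc, hh, Matrix.mul_one]
  rw [h3, smul_smul, he, one_smul]

lemma Rel.entries {h x : F2} (H : Rel h x) : ∃ e : ℤ, (e = 1 ∨ e = -1) ∧
    rho x 0 0 - 2 * rho x 0 1 = e * (rho h 0 0 + rho h 1 0) ∧
    rho x 0 0 = e * (rho h 0 1 + rho h 1 1) ∧
    rho x 1 0 - 2 * rho x 1 1 = e * (- 2 * rho h 0 0) ∧
    rho x 1 0 = e * (- 2 * rho h 0 1) := by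
  obtain ⟨e, he, h1⟩ := H
  have h00 := congrFun (congrFun h1 0) 0
  have h01 := congrFun (congrFun h1 0) 1
  have h10 := congrFun (congrFun h1 1) 0
  have h11 := congrFun (congrFun h1 1) 1
  simp only [Matrix.mul_apply, Fin.sum_univ_two, Matrix.smul_apply, smul_eq_mul, g00, g01, g10,
    g11] at h00 h01 h10 h11
  refine ⟨e, mul_self_eq_one_iff.1 he, ?_, ?_, ?_, ?_⟩ <;> linarith

lemma sl_ext {A B : SL} (h1 : A 0 0 = B 0 0) (h2 : A 0 1 = B 0 1) (h3 : A 1 0 = B 1 0)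
    (h4 : A 1 1 = B 1 1) : A = B := by
  ext i j
  fin_cases i <;> fin_cases j
  · exact h1
  · exact h2
  · exact h3
  · exact h4

lemma Rel.unique {h x x' : F2} (H : Rel h x) (H' : Rel h x') : x = x' := by
  obtain ⟨e, he, h1, h2, h3, h4⟩ := H.entries
  obtain ⟨e', he', h1', h2', h3', h4'⟩ := H'.entries
  obtain ⟨k, hk⟩ := (cong x).2.1
  obtain ⟨k', hk'⟩ := (cong x').2.1
  have hee : e = e' := by
    rcases he with rfl | rfl <;> rcases he' with rfl | rfl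
    · rfl
    · omega
    · omega
    · rfl
  subst hee
  apply rho_injective
  apply sl_ext <;> linarith

lemma Rel.unique_left {h h' x : F2} (H : Rel h x) (H' : Rel h' x) : h = h' := by
  obtain ⟨e, he, h1, h2, h3, h4⟩ := H.entries
  obtain ⟨e', he', h1', h2', h3', h4'⟩ := H'.entries
  obtain ⟨k, hk⟩ := (cong h).2.1
  obtain ⟨k', hk'⟩ := (cong h').2.1
  apply rho_injective
  rcases he with rfl | rfl <;> rcases he' with rfl | rfl
  · apply sl_ext <;> linarith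
  · omega
  · omega
  · apply sl_ext <;> linarith

abbrev ga : F2 := FreeGroup.of 0
abbrev gb : F2 := FreeGroup.of 1

lemma rho_a : rho ga = T := by simp [rho]
lemma rho_b : rho gb = V := by simp [rho]

/-- the subgroup of those `h` for which the conjugate lies in the image up to sign -/
def D : Subgroup F2 where
  carrier := {h | ∃ x, Rel h x}
  mul_mem' := by
    rintro h h' ⟨x, hx⟩ ⟨x', hx'⟩
    exact ⟨x * x', hx.mul hx'⟩
  one_mem' := ⟨1, Rel.one⟩
  inv_mem' := by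
    rintro h ⟨x, hx⟩
    exact ⟨x⁻¹, hx.inv⟩

lemma mat_eq (A B : SL) (e : ℤ) (h1 : A 0 0 - 2 * A 0 1 = e * (B 0 0 + B 1 0))
    (h2 : A 0 0 = e * (B 0 1 + B 1 1)) (h3 : A 1 0 - 2 * A 1 1 = e * (- 2 * B 0 0))
    (h4 : A 1 0 = e * (- 2 * B 0 1)) :
    (A : Matrix (Fin 2) (Fin 2) ℤ) * g = e • (g * (B : Matrix (Fin 2) (Fin 2) ℤ)) := by
  ext i j
  fin_cases i <;> fin_cases j <;>
    simp only [Matrix.mul_apply, Fin.sum_univ_two, Matrix.smul_apply, smul_eq_mul, Fin.zero_eta,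
      Fin.mk_one, g00, g01, g10, g11] <;> linarith

lemma aa_mem : ga * ga ∈ D := by
  refine ⟨ga⁻¹ * gb, -1, by norm_num, mat_eq _ _ _ ?_ ?_ ?_ ?_⟩ <;>
  simp only [map_mul, map_inv, rho_a, rho_b, mul00, mul01, mul10, mul11, inv00, inv01, inv10,
    inv11] <;> simp [T, V]

lemma b_mem : gb ∈ D := by
  refine ⟨ga⁻¹ * ga⁻¹, 1, by norm_num, mat_eq _ _ _ ?_ ?_ ?_ ?_⟩ <;>
  simp only [map_mul, map_inv, rho_a, rho_b, mul00, mul01, mul10, mul11, inv00, inv01, inv10,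
    inv11] <;> simp [T, V]

lemma aba_mem : ga * gb * ga⁻¹ ∈ D := by
  refine ⟨ga⁻¹ * gb * gb * ga, 1, by norm_num, mat_eq _ _ _ ?_ ?_ ?_ ?_⟩ <;>
  simp only [map_mul, map_inv, rho_a, rho_b, mul00, mul01, mul10, mul11, inv00, inv01, inv10,
    inv11] <;> simp [T, V]

lemma abai_mem : ga⁻¹ * gb * ga ∈ D := by
  have : ga⁻¹ * gb * ga = (ga * ga)⁻¹ * (ga * gb * ga⁻¹) * (ga * ga) := by group
  rw [this]
  exact D.mul_mem (D.mul_mem (D.inv_mem aa_mem) aba_mem) aa_mem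

/-- every `w` has `w ∈ C` or `w a ∈ C` where `C` is generated by `a², b, a b a⁻¹` -/
def C : Subgroup F2 := Subgroup.closure {ga * ga, gb, ga * gb * ga⁻¹}

lemma C_le_D : C ≤ D := by
  rw [C, Subgroup.closure_le]
  rintro x (rfl | rfl | rfl)
  · exact aa_mem
  · exact b_mem
  · exact aba_mem

lemma C_aa : ga * ga ∈ C := Subgroup.subset_closure (by simp)
lemma C_b : gb ∈ C := Subgroup.subset_closure (by simp)
lemma C_aba : ga * gb * ga⁻¹ ∈ C := Subgroup.subset_closure (by simp)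

lemma C_conj {w : F2} (hw : w ∈ C) : ga * w * ga⁻¹ ∈ C := by
  have : C ≤ C.comap (MulAut.conj ga).toMonoidHom := by
    conv_lhs => rw [C]
    rw [Subgroup.closure_le]
    rintro x (rfl | rfl | rfl)
    · change ga * (ga * ga) * ga⁻¹ ∈ C
      have : ga * (ga * ga) * ga⁻¹ = ga * ga := by group
      rw [this]; exact C_aa
    · exact C_aba
    · change ga * (ga * gb * ga⁻¹) * ga⁻¹ ∈ C
      have : ga * (ga * gb * ga⁻¹) * ga⁻¹ = (ga * ga) * gb * (ga * ga)⁻¹ := by group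
      rw [this]; exact C.mul_mem (C.mul_mem C_aa C_b) (C.inv_mem C_aa)
  exact this hw

lemma C_conj' {w : F2} (hw : w ∈ C) : ga⁻¹ * w * ga ∈ C := by
  have : ga⁻¹ * w * ga = (ga * ga)⁻¹ * (ga * w * ga⁻¹) * (ga * ga) := by group
  rw [this]
  exact C.mul_mem (C.mul_mem (C.inv_mem C_aa) (C_conj hw)) C_aa

lemma cover (w : F2) : w ∈ C ∨ w * ga ∈ C := by
  induction w using FreeGroup.induction_on with
  | C1 => exact Or.inl C.one_mem
  | of i =>
    fin_cases i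
    · exact Or.inr C_aa
    · exact Or.inl C_b
  | inv_of i h =>
    fin_cases i
    · right
      change ga⁻¹ * ga ∈ C
      rw [inv_mul_cancel]; exact C.one_mem
    · exact Or.inl (C.inv_mem C_b)
  | mul x y hx hy =>
    rcases hx with hx | hx <;> rcases hy with hy | hy
    · exact Or.inl (C.mul_mem hx hy)
    · right; rw [mul_assoc]; exact C.mul_mem hx hy
    · right
      have : x * y * ga = (x * ga) * (ga⁻¹ * y * ga) := by group
      rw [this]; exact C.mul_mem hx (C_conj' hy)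
    · left
      have : x * y = (x * ga) * (ga⁻¹ * (y * ga) * ga) * (ga * ga)⁻¹ := by group
      rw [this]; exact C.mul_mem (C.mul_mem hx (C_conj' hy)) (C.inv_mem C_aa)

lemma C_le_S : C ≤ S := by
  rw [C, Subgroup.closure_le]
  rintro x (rfl | rfl | rfl)
  · change chi _ = 1
    simp [chi]; decide
  · change chi _ = 1
    simp [chi]
  · change chi _ = 1
    simp [chi]

lemma S_le_D : S ≤ D := by
  intro w hw
  rcases cover w with h | h
  · exact C_le_D h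
  · exfalso
    have h1 : ga ∈ S := by
      have := S.mul_mem (S.inv_mem hw) (C_le_S h)
      rwa [inv_mul_cancel_left] at this
    have h2 : chi ga = 1 := h1
    simp [chi] at h2

noncomputable def fS : S →* F2 where
  toFun h := (S_le_D h.2).choose
  map_one' := Rel.unique (S_le_D (1 : S).2).choose_spec Rel.one
  map_mul' h h' := Rel.unique (S_le_D (h * h').2).choose_spec
    (Rel.mul (S_le_D h.2).choose_spec (S_le_D h'.2).choose_spec)

lemma fS_rel (h : S) : Rel h (fS h) := (S_le_D h.2).choose_spec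

lemma fS_injective : Function.Injective fS := by
  intro h h' hh
  apply Subtype.ext
  have h1 := fS_rel h
  rw [hh] at h1
  exact Rel.unique_left h1 (fS_rel h')

noncomputable def PP (h : F2) : ℤ := 4 * (rho h 0 0 - rho h 1 1) + rho h 1 0 - 2 * rho h 0 1
noncomputable def QQ (h : F2) : ℤ := 2 * rho h 0 1 + rho h 1 0

lemma Rel.step {h x : F2} (H : Rel h x) : ∃ e : ℤ, (e = 1 ∨ e = -1) ∧
    4 * PP x = e * (-3 * PP h + 7 * QQ h) ∧ 4 * QQ x = -e * (PP h + 3 * QQ h) := by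
  obtain ⟨e, he, h1, h2, h3, h4⟩ := H.entries
  refine ⟨e, he, ?_, ?_⟩
  · unfold PP QQ
    linear_combination 4 * h1 + 12 * h2 + 8 * h3 - 4 * h4
  · unfold PP QQ
    linear_combination (-4) * h1 + 4 * h2 + 4 * h4

lemma norm_inv {h x : F2} (H : Rel h x) : PP x ^ 2 + 7 * QQ x ^ 2 = PP h ^ 2 + 7 * QQ h ^ 2 := by
  obtain ⟨e, he, h1, h2⟩ := H.step
  have hee : e * e = 1 := by rcases he with rfl | rfl <;> norm_num
  have h3 : 16 * (PP x ^ 2 + 7 * QQ x ^ 2) = 16 * (PP h ^ 2 + 7 * QQ h ^ 2) := by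
    have e1 : 16 * (PP x ^ 2 + 7 * QQ x ^ 2) = (4 * PP x) ^ 2 + 7 * (4 * QQ x) ^ 2 := by ring
    rw [e1, h1, h2]
    linear_combination 16 * (PP h ^ 2 + 7 * QQ h ^ 2) * hee
  linarith

lemma two_step {h x y : F2} (H : Rel h x) (H' : Rel x y) (n : ℕ)
    (h1 : (2 : ℤ) ^ n ∣ PP h ∧ (2 : ℤ) ^ n ∣ QQ h) (h2 : (2 : ℤ) ^ n ∣ PP y ∧ (2 : ℤ) ^ n ∣ QQ y) :
    (2 : ℤ) ^ (n + 1) ∣ PP x ∧ (2 : ℤ) ^ (n + 1) ∣ QQ x := by
  obtain ⟨e, he, h3, h4⟩ := H.step
  obtain ⟨e', he', h5, h6⟩ := H'.step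
  have hee : e * e = 1 := by rcases he with rfl | rfl <;> norm_num
  have hee' : e' * e' = 1 := by rcases he' with rfl | rfl <;> norm_num
  have key1 : 3 * PP x = 2 * (-(e' * PP y) - e * PP h) := by
    rcases he with rfl | rfl <;> rcases he' with rfl | rfl <;> linarith
  have key2 : 3 * QQ x = 2 * (-(e' * QQ y) - e * QQ h) := by
    rcases he with rfl | rfl <;> rcases he' with rfl | rfl <;> linarith
  have c3 : IsCoprime ((2 : ℤ) ^ (n + 1)) 3 := by
    apply IsCoprime.pow_left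
    exact ⟨-1, 1, by norm_num⟩
  constructor
  · apply c3.dvd_of_dvd_mul_left
    rw [key1, pow_succ, mul_comm ((2 : ℤ) ^ n)]
    exact mul_dvd_mul_left _ (dvd_sub ((dvd_mul_of_dvd_right h2.1 _).neg_right)
      (dvd_mul_of_dvd_right h1.1 _))
  · apply c3.dvd_of_dvd_mul_left
    rw [key2, pow_succ, mul_comm ((2 : ℤ) ^ n)]
    exact mul_dvd_mul_left _ (dvd_sub ((dvd_mul_of_dvd_right h2.2 _).neg_right)
      (dvd_mul_of_dvd_right h1.2 _))

section dyn

variable (H : Subgroup F2) (hHS : H ≤ S) (φ : H → H) (hφ : ∀ h : H, Rel h (φ h))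

include hφ

lemma dvd_iter (n : ℕ) : ∀ h : H, (2 : ℤ) ^ n ∣ PP (φ^[n] h) ∧ (2 : ℤ) ^ n ∣ QQ (φ^[n] h) := by
  induction n with
  | zero => intro h; simp
  | succ n ih =>
    intro h
    have h1 := ih h
    have h2 := ih (φ (φ h))
    have e1 : φ^[n] (φ (φ h)) = φ (φ (φ^[n] h)) := by
      rw [← Function.iterate_succ_apply, ← Function.iterate_succ_apply,
        Function.iterate_succ_apply', Function.iterate_succ_apply']
    rw [e1] at h2
    rw [Function.iterate_succ_apply']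
    exact two_step (hφ _) (hφ _) n h1 h2

lemma norm_iter (n : ℕ) (h : H) : PP (φ^[n] h) ^ 2 + 7 * QQ (φ^[n] h) ^ 2 =
    PP h ^ 2 + 7 * QQ h ^ 2 := by
  induction n with
  | zero => rfl
  | succ n ih =>
    rw [Function.iterate_succ_apply', ← ih]
    exact norm_inv (hφ _)

lemma norm_zero' (h : H) : PP h ^ 2 + 7 * QQ h ^ 2 = 0 := by
  by_contra hne
  obtain ⟨n, hn⟩ : ∃ n : ℕ, |PP h ^ 2 + 7 * QQ h ^ 2| < (2 : ℤ) ^ n := by
    refine ⟨(PP h ^ 2 + 7 * QQ h ^ 2).natAbs, ?_⟩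
    have := Nat.lt_two_pow_self (n := (PP h ^ 2 + 7 * QQ h ^ 2).natAbs)
    rw [Int.abs_eq_natAbs]
    exact_mod_cast this
  have h1 := dvd_iter H φ hφ n h
  have h2 : (2 : ℤ) ^ n ∣ PP h ^ 2 + 7 * QQ h ^ 2 := by
    rw [← norm_iter H φ hφ n h]
    exact dvd_add (dvd_pow h1.1 two_ne_zero) (dvd_mul_of_dvd_right (dvd_pow h1.2 two_ne_zero) _)
  have h3 := Int.le_of_dvd (abs_pos.2 hne) ((dvd_abs _ _).2 h2)
  omega

lemma H_trivial (h : H) : (h : F2) = 1 := by
  have h0 := norm_zero' H φ hφ h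
  have hP : PP h = 0 := by nlinarith [sq_nonneg (PP h), sq_nonneg (QQ h)]
  have hQ : QQ h = 0 := by nlinarith [sq_nonneg (PP h), sq_nonneg (QQ h)]
  unfold PP at hP
  unfold QQ at hQ
  have hd := det_eq (rho (h : F2))
  obtain ⟨k, hk⟩ := (cong (h : F2)).2.1
  obtain ⟨k', hk'⟩ := (cong (h : F2)).2.2
  set a := rho (h : F2) 0 0
  set b := rho (h : F2) 0 1
  set c := rho (h : F2) 1 0
  set d := rho (h : F2) 1 1
  have hc : c = -2 * b := by linarith
  have ha : a = d + b := by linarith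
  have hb : b = 0 := by
    rw [hc, ha] at hd
    have h4 : (2 * d + b) ^ 2 + 7 * b ^ 2 = 4 := by linarith
    have h5 : b ^ 2 < 1 := by nlinarith [sq_nonneg (2 * d + b)]
    have h6 : b ^ 2 = 0 := by nlinarith [sq_nonneg b]
    exact pow_eq_zero_iff two_ne_zero |>.1 h6
  apply rho_injective
  rw [map_one]
  have had : a = d := by rw [ha, hb, add_zero]
  have hd1 : d * d = 1 := by
    rw [hb, had] at hd
    linarith
  have hd2 : d = 1 := by
    rcases mul_self_eq_one_iff.1 hd1 with h | h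
    · exact h
    · omega
  apply sl_ext
  · change a = _
    rw [had, hd2]; rfl
  · change b = _
    rw [hb]; rfl
  · change c = _
    rw [hc, hb]; rfl
  · change d = _
    rw [hd2]; rfl

end dyn

theorem main :
    ¬ (∀ (S R : Subgroup (FreeGroup (Fin 2))), S.index = 2 →
      ∀ f : S ≃* R,
        ∃ H : Subgroup (FreeGroup (Fin 2)),
          H ≤ S ∧ H ≠ ⊥ ∧
            ∀ x : S, (x : FreeGroup (Fin 2)) ∈ H → ((f x : R) : FreeGroup (Fin 2)) ∈ H) := by
  intro hall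
  obtain ⟨H, hHS, hne, hinv⟩ := hall S fS.range index_S (MonoidHom.ofInjective fS_injective)
  apply hne
  rw [Subgroup.eq_bot_iff_forall]
  intro x hx
  exact H_trivial H (fun h => ⟨fS ⟨h, hHS h.2⟩, hinv ⟨h, hHS h.2⟩ h.2⟩)
    (fun h => fS_rel ⟨h, hHS h.2⟩) ⟨x, hx⟩

end Pool.Agent.H26.Inv
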