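import Mathlib

set_option autoImplicit false
set_option linter.unusedSectionVars false
set_option linter.style.haveILetI false

namespace Pool.Agent.H26.Irr

open Polynomial

section curve

variable {D : Type} [CommRing D] [IsDomain D] [Algebra ℂ D]

/-- complex constants in `D[X]` -/
noncomputable def CC (a : ℂ) : D[X] := C (algebraMap ℂ D a)

lemma charD : CharZero D := charZero_of_injective_algebraMap (algebraMap ℂ D).injective

lemma CC_natDegree (a : ℂ) : natDegree (CC a : D[X]) = 0 := natDegree_C _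

lemma CC_ne (a : ℂ) (ha : a ≠ 0) : (CC a : D[X]) ≠ 0 := by
  unfold CC
  rw [Ne, C_eq_zero]
  intro h
  exact ha ((algebraMap ℂ D).injective (by rw [h, map_zero]))

lemma CC_mul (a b : ℂ) : (CC a : D[X]) * CC b = CC (a * b) := by
  simp [CC]

lemma CC_add (a b : ℂ) : (CC a : D[X]) + CC b = CC (a + b) := by
  simp [CC]

lemma CC_sub (a b : ℂ) : (CC a : D[X]) - CC b = CC (a - b) := by
  simp [CC]

lemma CC_one : (CC 1 : D[X]) = 1 := by simp [CC]

lemma CC_zero : (CC 0 : D[X]) = 0 := by simp [CC]

/-- if `U ^ 2` is a complex constant, so is `U` -/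
lemma sq_const (U : D[X]) (d : ℂ) (h : U ^ 2 = CC d) : ∃ a : ℂ, U = CC a := by
  obtain ⟨w, hw⟩ := IsAlgClosed.exists_pow_nat_eq d (n := 2) (by norm_num)
  have h2 : (U - CC w) * (U + CC w) = 0 := by
    have : (CC w : D[X]) * CC w = CC d := by rw [CC_mul, ← pow_two, hw]
    linear_combination h - this
  rcases mul_eq_zero.1 h2 with h3 | h3
  · exact ⟨w, by linear_combination h3⟩
  · refine ⟨-w, ?_⟩
    have : (CC (-w) : D[X]) = - CC w := by simp [CC]
    rw [this]
    linear_combination h3

lemma natDegree_of_derivative (U : D[X]) (h : derivative U = 0) : natDegree U = 0 := by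
  haveI : CharZero D := charD
  exact natDegree_eq_zero_of_derivative_eq_zero h

lemma curve_u (U r s : D[X]) (d : ℂ) (hd : d ≠ 0)
    (h : U ^ 2 + r ^ 2 * s ^ 3 = CC d) : natDegree U = 0 := by
  haveI : CharZero D := charD
  by_contra hU
  have hU' : derivative U ≠ 0 := fun h0 => hU (natDegree_of_derivative U h0)
  have hder : derivative (U ^ 2 + r ^ 2 * s ^ 3) = 0 := by rw [h]; simp [CC]
  have hder' : 2 * U * derivative U + (r * s ^ 2) *
      (2 * derivative r * s + 3 * r * derivative s) = 0 := by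
    simp only [derivative_add, derivative_mul, derivative_pow] at hder
    push_cast at hder
    simp only [map_ofNat] at hder
    linear_combination hder
  by_cases hr : r = 0
  · rw [hr] at h
    obtain ⟨a, ha⟩ := sq_const U d (by linear_combination h)
    exact hU (by rw [ha, CC_natDegree])
  by_cases hs : s = 0
  · rw [hs] at h
    obtain ⟨a, ha⟩ := sq_const U d (by linear_combination h)
    exact hU (by rw [ha, CC_natDegree])
  have hcop : IsCoprime (r * s ^ 2) U := by
    refine ⟨CC d⁻¹ * (r * s), CC d⁻¹ * U, ?_⟩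
    have h1 : (CC d⁻¹ : D[X]) * CC d = 1 := by
      rw [CC_mul, inv_mul_cancel₀ hd, CC_one]
    linear_combination (CC d⁻¹ : D[X]) * h + h1
  have hdvd : r * s ^ 2 ∣ (2 * derivative U) * U := by
    refine ⟨-(2 * derivative r * s + 3 * r * derivative s), ?_⟩
    linear_combination hder'
  have hdvd2 : r * s ^ 2 ∣ 2 * derivative U := hcop.dvd_of_dvd_mul_right hdvd
  have h2 : (2 : D[X]) * derivative U ≠ 0 := mul_ne_zero two_ne_zero hU'
  have hle := natDegree_le_of_dvd hdvd2 h2
  have hle2 : natDegree (2 * derivative U) ≤ natDegree U - 1 := by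
    have : (2 : D[X]) * derivative U = C 2 * derivative U := by rw [map_ofNat]
    rw [this]
    refine (natDegree_C_mul_le _ _).trans ?_
    exact natDegree_derivative_le U
  rw [natDegree_mul hr (pow_ne_zero 2 hs), natDegree_pow] at hle
  have hdeg : natDegree (r ^ 2 * s ^ 3) = 2 * natDegree U := by
    have h3 : r ^ 2 * s ^ 3 = CC d - U ^ 2 := by linear_combination h
    rw [h3, natDegree_sub_eq_right_of_natDegree_lt, natDegree_pow]
    rw [natDegree_pow, CC_natDegree]
    omega
  rw [natDegree_mul (pow_ne_zero 2 hr) (pow_ne_zero 3 hs), natDegree_pow, natDegree_pow] at hdeg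
  omega

lemma unit_CC (hunit : ∀ a : D, IsUnit a → ∃ c : ℂ, a = algebraMap ℂ D c) (P : D[X])
    (hP : IsUnit P) : ∃ c : ℂ, P = CC c := by
  obtain ⟨a, ha, hP2⟩ := Polynomial.isUnit_iff.1 hP
  obtain ⟨c, hc⟩ := hunit a ha
  exact ⟨c, by rw [← hP2, hc]; rfl⟩

lemma unit_of_mul_CC {P Q : D[X]} {d : ℂ} (hd : d ≠ 0) (h : P * Q = CC d) : IsUnit P := by
  refine IsUnit.of_mul_eq_one (Q * CC d⁻¹) ?_
  rw [← mul_assoc, h, CC_mul, mul_inv_cancel₀ hd, CC_one]

lemma natDegree_zero_of_mul {P Q : D[X]} (hne : P * Q ≠ 0) (h : natDegree (P * Q) = 0) :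
    natDegree P = 0 ∧ natDegree Q = 0 := by
  have hP : P ≠ 0 := fun h0 => hne (by rw [h0, zero_mul])
  have hQ : Q ≠ 0 := fun h0 => hne (by rw [h0, mul_zero])
  rw [natDegree_mul hP hQ] at h
  omega

lemma one_sub_deg {Y : D[X]} (h : natDegree (1 - Y) = 0) : natDegree Y = 0 := by
  have : Y = 1 - (1 - Y) := by ring
  rw [this]
  have h2 := natDegree_sub_le (1 : D[X]) (1 - Y)
  rw [natDegree_one, h] at h2
  simpa using h2

lemma one_sub_deg' {Y : D[X]} (h : natDegree Y = 0) : natDegree (1 - Y) = 0 := by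
  apply one_sub_deg
  rw [sub_sub_cancel]
  exact h

lemma classify (hunit : ∀ a : D, IsUnit a → ∃ c : ℂ, a = algebraMap ℂ D c)
    (U X Y Z : D[X]) (d : ℂ) (hd : d ≠ 0)
    (h : U ^ 2 + (1 - X * (1 - Y)) ^ 2 * (1 - Y * Z) ^ 3 = CC d) :
    (Y = 1 ∧ natDegree U = 0 ∧ natDegree Z = 0) ∨
    (∃ a b c : ℂ, U = CC a ∧ X = CC b ∧ Y = CC c) ∨
    (∃ a b c : ℂ, U = CC a ∧ Y = CC b ∧ Z = CC c) ∨
    (X = 0 ∧ Z = 0 ∧ ∃ a : ℂ, U = CC a) ∨
    (natDegree U = 0 ∧ natDegree X = 0 ∧ natDegree Y = 0 ∧ natDegree Z = 0) := by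
  have hU := curve_u U _ _ d hd h
  by_cases hUd : U ^ 2 = CC d
  · -- constant `U`
    obtain ⟨a, ha⟩ := sq_const U d hUd
    have h0 : (1 - X * (1 - Y)) ^ 2 * (1 - Y * Z) ^ 3 = 0 := by
      linear_combination h - hUd
    rcases mul_eq_zero.1 h0 with h1 | h1
    · right; left
      have hr : 1 - X * (1 - Y) = 0 := pow_eq_zero_iff (by norm_num) |>.1 h1
      have hXY : X * (1 - Y) = 1 := by linear_combination -hr
      have hYX : (1 - Y) * X = 1 := by linear_combination -hr
      obtain ⟨b, hb⟩ := unit_CC hunit X (IsUnit.of_mul_eq_one _ hXY)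
      obtain ⟨c, hc⟩ := unit_CC hunit (1 - Y) (IsUnit.of_mul_eq_one _ hYX)
      refine ⟨a, b, 1 - c, ha, hb, ?_⟩
      rw [← CC_sub, CC_one]
      linear_combination -hc
    · right; right; left
      have hs : 1 - Y * Z = 0 := pow_eq_zero_iff (by norm_num) |>.1 h1
      have hYZ : Y * Z = 1 := by linear_combination -hs
      have hZY : Z * Y = 1 := by linear_combination -hs
      obtain ⟨b, hb⟩ := unit_CC hunit Y (IsUnit.of_mul_eq_one _ hYZ)
      obtain ⟨c, hc⟩ := unit_CC hunit Z (IsUnit.of_mul_eq_one _ hZY)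
      exact ⟨a, b, c, ha, hb, hc⟩
  · -- `r, s` constants
    have hne : (1 - X * (1 - Y)) ^ 2 * (1 - Y * Z) ^ 3 ≠ 0 := by
      intro h0
      apply hUd
      linear_combination h - h0
    have hdeg0 : natDegree ((1 - X * (1 - Y)) ^ 2 * (1 - Y * Z) ^ 3) = 0 := by
      have h3 : (1 - X * (1 - Y)) ^ 2 * (1 - Y * Z) ^ 3 = CC d - U ^ 2 := by
        linear_combination h
      rw [h3]
      have h4 := natDegree_sub_le (CC d : D[X]) (U ^ 2)
      rw [CC_natDegree, natDegree_pow, hU] at h4
      simpa using h4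
    obtain ⟨hr2, hs3⟩ := natDegree_zero_of_mul hne hdeg0
    rw [natDegree_pow] at hr2 hs3
    have hr : natDegree (1 - X * (1 - Y)) = 0 := by omega
    have hs : natDegree (1 - Y * Z) = 0 := by omega
    have hr' : natDegree (X * (1 - Y)) = 0 := one_sub_deg hr
    have hs' : natDegree (Y * Z) = 0 := one_sub_deg hs
    by_cases hr1 : X * (1 - Y) = 0
    · rcases mul_eq_zero.1 hr1 with hX | hY
      · -- X = 0
        by_cases hs1 : Y * Z = 0
        · have hU2 : U ^ 2 = CC (d - 1) := by
            rw [← CC_sub, CC_one]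
            rw [hX, hs1] at h
            linear_combination h
          obtain ⟨a, ha⟩ := sq_const U _ hU2
          rcases mul_eq_zero.1 hs1 with hY | hZ
          · right; left
            exact ⟨a, 0, 0, ha, by rw [hX, CC_zero], by rw [hY, CC_zero]⟩
          · right; right; right; left
            exact ⟨hX, hZ, a, ha⟩
        · obtain ⟨hY, hZ⟩ := natDegree_zero_of_mul hs1 hs'
          right; right; right; right
          exact ⟨hU, by rw [hX, natDegree_zero], hY, hZ⟩
      · left
        have hY1 : Y = 1 := by linear_combination -hY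
        refine ⟨hY1, hU, ?_⟩
        rw [hY1, one_mul] at hs'
        exact hs'
    · obtain ⟨hX, hY⟩ := natDegree_zero_of_mul hr1 hr'
      have hY' := one_sub_deg hY
      by_cases hs1 : Y * Z = 0
      · rcases mul_eq_zero.1 hs1 with hY0 | hZ
        · right; left
          -- U^2 + (1-X)^2 = d
          have hI : (CC Complex.I : D[X]) * CC Complex.I = -1 := by
            rw [CC_mul, Complex.I_mul_I]
            simp [CC]
          have h5 : (U + CC Complex.I * (1 - X)) * (U - CC Complex.I * (1 - X)) = CC d := by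
            rw [hY0] at h
            linear_combination h - (1 - X) ^ 2 * hI
          have h6 : (U - CC Complex.I * (1 - X)) * (U + CC Complex.I * (1 - X)) = CC d := by
            rw [mul_comm, h5]
          obtain ⟨a, ha⟩ := unit_CC hunit _ (unit_of_mul_CC hd h5)
          obtain ⟨b, hb⟩ := unit_CC hunit _ (unit_of_mul_CC hd h6)
          have h2 : (CC (1/2) : D[X]) * 2 = 1 := by
            have : (2 : D[X]) = CC 2 := by
              unfold CC
              rw [map_ofNat, map_ofNat]
            rw [this, CC_mul]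
            norm_num
            exact CC_one
          refine ⟨1/2 * (a + b), 1 - (-Complex.I) * (1/2) * (a - b), 0, ?_, ?_, ?_⟩
          · rw [← CC_mul, ← CC_add]
            linear_combination (-U) * h2 + (CC (1/2) : D[X]) * (ha + hb)
          · have h7 : (CC (-Complex.I) : D[X]) * CC Complex.I = 1 := by
              rw [CC_mul]; simp [CC]
            rw [← CC_sub, ← CC_mul, ← CC_mul, ← CC_sub, CC_one]
            linear_combination (1 - X) * (CC (-Complex.I) : D[X]) * CC Complex.I * h2 +
              (1 - X) * h7 - (CC (-Complex.I) : D[X]) * (CC (1/2) : D[X]) * (ha - hb)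
          · rw [hY0, CC_zero]
        · right; right; right; right
          exact ⟨hU, hX, hY', by rw [hZ, natDegree_zero]⟩
      · obtain ⟨_, hZ⟩ := natDegree_zero_of_mul hs1 hs'
        right; right; right; right
        exact ⟨hU, hX, hY', hZ⟩

end curve

end Pool.Agent.H26.Irr
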