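import Mathlib

set_option autoImplicit false

namespace Pool.Agent.H26.Irr

/-- The fibres `{p = c}` and `{p = d}` in `ℂⁿ` are isomorphic as affine varieties: there are
polynomial maps `f`, `g` of `ℂⁿ` whose restrictions `{p = c} → {p = d}` and `{p = d} → {p = c}`
are mutually inverse. -/
def FibresIso {n : ℕ} (p : MvPolynomial (Fin n) ℂ) (c d : ℂ) : Prop :=
  ∃ f g : Fin n → MvPolynomial (Fin n) ℂ,
    (∀ x : Fin n → ℂ, MvPolynomial.eval x p = c →
        MvPolynomial.eval (fun i => MvPolynomial.eval x (f i)) p = d ∧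
        (fun j => MvPolynomial.eval (fun i => MvPolynomial.eval x (f i)) (g j)) = x) ∧
    (∀ y : Fin n → ℂ, MvPolynomial.eval y p = d →
        MvPolynomial.eval (fun i => MvPolynomial.eval y (g i)) p = c ∧
        (fun j => MvPolynomial.eval (fun i => MvPolynomial.eval y (g i)) (f j)) = y)

/-- `p` is isotrivial: for some nonempty Zariski-open `U ⊆ ℂ` (that is, `U` is the complement
of a finite set), the fibres of `p` over the points of `U` are pairwise isomorphic. -/
def Isotrivial {n : ℕ} (p : MvPolynomial (Fin n) ℂ) : Prop :=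
  ∃ U : Set ℂ, Uᶜ.Finite ∧ ∀ c ∈ U, ∀ d ∈ U, FibresIso p c d

end Pool.Agent.H26.Irr
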