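import Pool.Agent.H26.IrrMain

set_option autoImplicit false

namespace Pool.Agent.H26.Irr

open Polynomial

noncomputable def hh : MvPolynomial (Fin 3) ℂ :=
  (1 - MvPolynomial.X 0 * (1 - MvPolynomial.X 1)) ^ 2 *
    (1 - MvPolynomial.X 1 * MvPolynomial.X 2) ^ 3

lemma fse_pp : MvPolynomial.finSuccEquiv ℂ 3 pp = X ^ 2 + C hh := by
  have h1 : (1 : Fin 4) = Fin.succ (0 : Fin 3) := rfl
  have h2 : (2 : Fin 4) = Fin.succ (1 : Fin 3) := rfl
  have h3 : (3 : Fin 4) = Fin.succ (2 : Fin 3) := rfl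
  unfold pp hh
  rw [h1, h2, h3]
  simp only [map_add, map_pow, map_mul, map_sub, map_one, MvPolynomial.finSuccEquiv_X_zero,
    MvPolynomial.finSuccEquiv_X_succ]

theorem irreducible_pp : Irreducible pp := by
  rw [← MulEquiv.irreducible_iff (MvPolynomial.finSuccEquiv ℂ 3), fse_pp]
  have hmon : (X ^ 2 + C hh : (MvPolynomial (Fin 3) ℂ)[X]).Monic := monic_X_pow_add_C _ (by norm_num)
  have hdeg : (X ^ 2 + C hh : (MvPolynomial (Fin 3) ℂ)[X]).natDegree = 2 := natDegree_X_pow_add_C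
  rw [hmon.irreducible_iff_roots_eq_zero_of_degree_le_three (by rw [hdeg]) (by rw [hdeg]; norm_num)]
  rw [Multiset.eq_zero_iff_forall_notMem]
  intro a ha
  have hroot := (mem_roots'.1 ha).2
  rw [IsRoot.def, eval_add, eval_pow, eval_X, eval_C] at hroot
  have h2 := congrArg (MvPolynomial.aeval (![0, 1, X] : Fin 3 → ℂ[X])) hroot
  have h3 : MvPolynomial.aeval (![0, 1, X] : Fin 3 → ℂ[X]) hh = (1 - X) ^ 3 := by
    unfold hh
    simp
  rw [map_add, map_pow, h3, map_zero] at h2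
  set b := MvPolynomial.aeval (![0, 1, X] : Fin 3 → ℂ[X]) a
  have h4 : b ^ 2 = -((1 - X) ^ 3) := by linear_combination h2
  have h5 := congrArg natDegree h4
  rw [natDegree_pow, natDegree_neg, natDegree_pow] at h5
  have h6 : natDegree (1 - X : ℂ[X]) = 1 := by
    have : (1 - X : ℂ[X]) = -(X - C 1) := by rw [C_1]; ring
    rw [this, natDegree_neg, natDegree_X_sub_C]
  rw [h6] at h5
  omega

end Pool.Agent.H26.Irr
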