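import Mathlib

set_option autoImplicit false

namespace Pool.Agent.H26.Irr

open Polynomial QuadraticAlgebra

/-- the ring of regular functions of the affine curve `u ^ 2 + s ^ 3 = c` -/
abbrev RR (c : ℂ) : Type := QuadraticAlgebra ℂ[X] (C c - X ^ 3) 0

variable {c : ℂ}

lemma norm_eq (z : RR c) : norm z = z.re ^ 2 + (X ^ 3 - C c) * z.im ^ 2 := by
  rw [norm_def]; ring

lemma cub_natDegree : natDegree (X ^ 3 - C c : ℂ[X]) = 3 := natDegree_X_pow_sub_C

lemma cub_ne : (X ^ 3 - C c : ℂ[X]) ≠ 0 := by
  intro h
  have := cub_natDegree (c := c)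
  rw [h, natDegree_zero] at this
  omega

/-- the degree of a function on the curve -/
noncomputable def dl (z : RR c) : ℕ := natDegree (norm z)

lemma dl_im_zero (z : RR c) (h : z.im = 0) : dl z = 2 * natDegree z.re := by
  unfold dl
  rw [norm_eq, h, zero_pow (by norm_num), mul_zero, add_zero, natDegree_pow]

lemma dl_im_ne (z : RR c) (h : z.im ≠ 0) :
    dl z = max (2 * natDegree z.re) (2 * natDegree z.im + 3) := by
  unfold dl
  rw [norm_eq]
  have h2 : natDegree ((X ^ 3 - C c) * z.im ^ 2) = 2 * natDegree z.im + 3 := by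
    rw [natDegree_mul cub_ne (pow_ne_zero 2 h), cub_natDegree, natDegree_pow]; ring
  have h1 : natDegree (z.re ^ 2) = 2 * natDegree z.re := natDegree_pow _ _
  rcases lt_trichotomy (2 * natDegree z.re) (2 * natDegree z.im + 3) with h3 | h3 | h3
  · rw [natDegree_add_eq_right_of_natDegree_lt (by omega), h2, max_eq_right (by omega)]
  · omega
  · rw [natDegree_add_eq_left_of_natDegree_lt (by omega), h1, max_eq_left (by omega)]

lemma norm_eq_zero (z : RR c) (h : norm z = 0) : z = 0 := by
  by_cases him : z.im = 0
  · rw [norm_eq, him] at h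
    have : z.re = 0 := by
      have : z.re ^ 2 = 0 := by linear_combination h
      exact pow_eq_zero_iff (by norm_num) |>.1 this
    ext <;> simp [this, him]
  · exfalso
    have := dl_im_ne z him
    unfold dl at this
    rw [h, natDegree_zero] at this
    have h2 := le_max_right (2 * natDegree z.re) (2 * natDegree z.im + 3)
    omega

instance : IsDomain (RR c) := by
  haveI : NoZeroDivisors (RR c) := by
    constructor
    intro a b h
    have h2 : norm a * norm b = 0 := by rw [← map_mul, h, QuadraticAlgebra.norm_zero]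
    rcases mul_eq_zero.1 h2 with h3 | h3
    · exact Or.inl (norm_eq_zero a h3)
    · exact Or.inr (norm_eq_zero b h3)
  exact NoZeroDivisors.to_isDomain _

lemma norm_ne {z : RR c} (h : z ≠ 0) : norm z ≠ 0 := fun h0 => h (norm_eq_zero z h0)

lemma dl_mul (z w : RR c) (hz : z ≠ 0) (hw : w ≠ 0) : dl (z * w) = dl z + dl w := by
  unfold dl
  rw [map_mul, natDegree_mul (norm_ne hz) (norm_ne hw)]

lemma dl_pow (z : RR c) (n : ℕ) : dl (z ^ n) = n * dl z := by
  unfold dl
  rw [map_pow, natDegree_pow]

lemma algMap_re (a : ℂ) : (algebraMap ℂ (RR c) a).re = C a := rfl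

lemma algMap_im (a : ℂ) : (algebraMap ℂ (RR c) a).im = 0 := rfl

lemma dl_zero_iff (z : RR c) : dl z = 0 ↔ ∃ a : ℂ, z = algebraMap ℂ (RR c) a := by
  constructor
  · intro h
    have him : z.im = 0 := by
      by_contra hne
      rw [dl_im_ne z hne] at h
      have h2 := le_max_right (2 * natDegree z.re) (2 * natDegree z.im + 3)
      omega
    rw [dl_im_zero z him] at h
    have h2 : natDegree z.re = 0 := by omega
    refine ⟨z.re.coeff 0, ?_⟩
    ext1
    · rw [algMap_re]; exact eq_C_of_natDegree_eq_zero h2
    · rw [algMap_im]; exact him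
  · rintro ⟨a, rfl⟩
    rw [dl_im_zero _ (algMap_im a), algMap_re, natDegree_C]

lemma unit_const (z : RR c) (h : IsUnit z) : ∃ a : ℂ, z = algebraMap ℂ (RR c) a := by
  rw [← dl_zero_iff]
  have h2 : IsUnit (QuadraticAlgebra.norm z) := h.map QuadraticAlgebra.norm
  exact natDegree_eq_zero_of_isUnit h2

/-- dominance -/
lemma dl_add (z w : RR c) (h : dl w < dl z) : dl (z + w) = dl z := by
  have hre := natDegree_add_le z.re w.re
  have him := natDegree_add_le z.im w.im
  by_cases hz : z.im = 0
  · rw [dl_im_zero z hz] at h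
    by_cases hw : w.im = 0
    · rw [dl_im_zero w hw] at h
      rw [dl_im_zero (z + w) (by simp [hz, hw]), dl_im_zero z hz, re_add,
        natDegree_add_eq_left_of_natDegree_lt (by omega)]
    · rw [dl_im_ne w hw] at h
      have him : (z + w).im = w.im := by rw [im_add, hz, zero_add]
      have h4 : natDegree (z.re + w.re) = natDegree z.re :=
        natDegree_add_eq_left_of_natDegree_lt (by omega)
      rw [dl_im_ne (z + w) (by rw [him]; exact hw), him, dl_im_zero z hz, re_add, h4]
      omega
  · rw [dl_im_ne z hz] at h ⊢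
    by_cases hw : w.im = 0
    · rw [dl_im_zero w hw] at h
      have him : (z + w).im = z.im := by rw [im_add, hw, add_zero]
      rw [dl_im_ne (z + w) (by rw [him]; exact hz), him, re_add]
      rcases lt_trichotomy (2 * natDegree z.re) (2 * natDegree z.im + 3) with h3 | h3 | h3
      · omega
      · omega
      · have h4 : natDegree (z.re + w.re) = natDegree z.re :=
          natDegree_add_eq_left_of_natDegree_lt (by omega)
        rw [h4]
    · rw [dl_im_ne w hw] at h
      rcases lt_trichotomy (2 * natDegree z.re) (2 * natDegree z.im + 3) with h3 | h3 | h3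
      · have h4 : natDegree (z + w).im = natDegree z.im := by
          rw [im_add, natDegree_add_eq_left_of_natDegree_lt (by omega)]
        have h5 : (z + w).im ≠ 0 := by
          intro h0
          have h6 : z.im = - w.im := by
            rw [im_add] at h0
            linear_combination h0
          have h7 : natDegree z.im = natDegree w.im := by rw [h6, natDegree_neg]
          omega
        have h6 := dl_im_ne (z + w) h5
        have h7 : natDegree (z + w).re = natDegree (z.re + w.re) := by rw [re_add]
        omega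
      · omega
      · have h4 : natDegree (z + w).re = natDegree z.re := by
          rw [re_add, natDegree_add_eq_left_of_natDegree_lt (by omega)]
        by_cases h5 : (z + w).im = 0
        · have := dl_im_zero (z + w) h5
          omega
        · have h6 := dl_im_ne (z + w) h5
          have h7 : natDegree (z + w).im = natDegree (z.im + w.im) := by rw [im_add]
          omega

/-- evaluation at a point of the curve -/
noncomputable def ev (u s : ℂ) (h : u ^ 2 + s ^ 3 = c) : RR c →+* ℂ where
  toFun z := z.re.eval s + u * z.im.eval s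
  map_zero' := by simp
  map_one' := by simp [re_one, im_one]
  map_add' z w := by simp only [re_add, im_add, eval_add]; ring
  map_mul' z w := by
    simp only [re_mul, im_mul, eval_add, eval_mul, eval_sub, eval_C, eval_pow, eval_X, eval_zero]
    linear_combination (-(eval s z.im * eval s w.im)) * h

lemma ev_apply (u s : ℂ) (h : u ^ 2 + s ^ 3 = c) (z : RR c) :
    ev u s h z = z.re.eval s + u * z.im.eval s := rfl

lemma ev_algMap (u s : ℂ) (h : u ^ 2 + s ^ 3 = c) (a : ℂ) :
    ev u s h (algebraMap ℂ (RR c) a) = a := by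
  rw [ev_apply, algMap_re, algMap_im]; simp

lemma exists_u (s : ℂ) : ∃ u : ℂ, u ^ 2 + s ^ 3 = c := by
  obtain ⟨u, hu⟩ := IsAlgClosed.exists_pow_nat_eq (c - s ^ 3) (n := 2) (by norm_num)
  exact ⟨u, by rw [hu]; ring⟩

lemma sep (z : RR c) (h : ∀ u s (hc : u ^ 2 + s ^ 3 = c), ev u s hc z = 0) : z = 0 := by
  apply norm_eq_zero
  apply Polynomial.funext
  intro s
  obtain ⟨u, hu⟩ := exists_u (c := c) s
  have hu' : (-u) ^ 2 + s ^ 3 = c := by rw [neg_sq]; exact hu
  have h1 := h u s hu
  have h2 := h (-u) s hu'
  rw [ev_apply] at h1 h2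
  rw [norm_eq]
  simp only [eval_add, eval_mul, eval_pow, eval_sub, eval_X, eval_C, eval_zero]
  have h3 : s ^ 3 - c = - u ^ 2 := by rw [← hu]; ring
  rw [h3]
  linear_combination (eval s z.re - u * eval s z.im) * h1

lemma sep_eq (z w : RR c) (h : ∀ u s (hc : u ^ 2 + s ^ 3 = c), ev u s hc z = ev u s hc w) :
    z = w := by
  rw [← sub_eq_zero]
  apply sep
  intro u s hc
  rw [map_sub, h, sub_self]

lemma sepX (P : (RR c)[X]) (h : ∀ u s (hc : u ^ 2 + s ^ 3 = c) (x : ℂ),
    P.eval₂ (ev u s hc) x = 0) : P = 0 := by
  apply Polynomial.ext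
  intro n
  rw [coeff_zero]
  apply sep
  intro u s hc
  have h1 : P.map (ev u s hc) = 0 := by
    apply Polynomial.funext
    intro x
    rw [eval_map, h, eval_zero]
  have := congrArg (fun Q => Q.coeff n) h1
  simpa [coeff_map] using this

end Pool.Agent.H26.Irr
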