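import Pool.Agent.H26.IrrDefs
import Pool.Agent.H26.IrrCurve
import Pool.Agent.H26.IrrRing

set_option autoImplicit false
set_option linter.unusedSectionVars false

namespace Pool.Agent.H26.Irr

open Polynomial QuadraticAlgebra

/-- `p = u² + (1 - x(1-y))² (1 - yz)³` in the coordinates `(u, x, y, z)` -/
noncomputable def pp : MvPolynomial (Fin 4) ℂ :=
  MvPolynomial.X 0 ^ 2 +
    (1 - MvPolynomial.X 1 * (1 - MvPolynomial.X 2)) ^ 2 *
      (1 - MvPolynomial.X 2 * MvPolynomial.X 3) ^ 3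

lemma eval_pp (v : Fin 4 → ℂ) :
    MvPolynomial.eval v pp = v 0 ^ 2 + (1 - v 1 * (1 - v 2)) ^ 2 * (1 - v 2 * v 3) ^ 3 := by
  simp [pp]

lemma aeval_pp {A : Type} [CommRing A] [Algebra ℂ A] (v : Fin 4 → A) :
    MvPolynomial.aeval v pp =
      v 0 ^ 2 + (1 - v 1 * (1 - v 2)) ^ 2 * (1 - v 2 * v 3) ^ 3 := by
  simp [pp]

/-- evaluating a composition -/
lemma eval_comp {D : Type} [CommRing D] [IsDomain D] [Algebra ℂ D] (φ : D →+* ℂ)
    (hφ : ∀ a : ℂ, φ (algebraMap ℂ D a) = a) (x : ℂ) (G : Fin 4 → D[X])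
    (q : MvPolynomial (Fin 4) ℂ) :
    (MvPolynomial.aeval G q).eval₂ φ x =
      MvPolynomial.eval (fun i => (G i).eval₂ φ x) q := by
  induction q using MvPolynomial.induction_on with
  | C a =>
    rw [MvPolynomial.aeval_C, MvPolynomial.eval_C]
    change eval₂ φ x (C (algebraMap ℂ D a)) = a
    rw [eval₂_C, hφ]
  | add p q hp hq => rw [map_add, eval₂_add, hp, hq, map_add]
  | mul_X p i hp =>
    rw [map_mul, MvPolynomial.aeval_X, eval₂_mul, hp, map_mul, MvPolynomial.eval_X]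

variable {c d : ℂ}

/-- the generic point of the surface `y = 1` in the fibre -/
noncomputable def GG (c : ℂ) : Fin 4 → (RR c)[X] :=
  ![C ⟨0, 1⟩, X, 1, C ⟨1 - X, 0⟩]

lemma GG_eval (u s : ℂ) (h : u ^ 2 + s ^ 3 = c) (x : ℂ) :
    (fun i => (GG c i).eval₂ (ev u s h) x) = ![u, x, 1, 1 - s] := by
  funext i
  fin_cases i
  · change (C (⟨0, 1⟩ : RR c)).eval₂ (ev u s h) x = u
    rw [eval₂_C, ev_apply]; simp
  · change (X : (RR c)[X]).eval₂ (ev u s h) x = x
    rw [eval₂_X]
  · change (1 : (RR c)[X]).eval₂ (ev u s h) x = 1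
    rw [eval₂_one]
  · change (C (⟨1 - X, 0⟩ : RR c)).eval₂ (ev u s h) x = 1 - s
    rw [eval₂_C, ev_apply]; simp

lemma pt_mem (u s x : ℂ) (h : u ^ 2 + s ^ 3 = c) :
    MvPolynomial.eval ![u, x, 1, 1 - s] pp = c := by
  rw [eval_pp, ← h]
  change u ^ 2 + (1 - x * (1 - 1)) ^ 2 * (1 - 1 * (1 - s)) ^ 3 = u ^ 2 + s ^ 3
  ring

/-- the image of the generic point -/
noncomputable def WW (c : ℂ) (f : Fin 4 → MvPolynomial (Fin 4) ℂ) (i : Fin 4) : (RR c)[X] :=
  MvPolynomial.aeval (GG c) (f i)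

lemma WW_eval (f : Fin 4 → MvPolynomial (Fin 4) ℂ) (i : Fin 4) (u s : ℂ)
    (h : u ^ 2 + s ^ 3 = c) (x : ℂ) :
    (WW c f i).eval₂ (ev u s h) x = MvPolynomial.eval ![u, x, 1, 1 - s] (f i) := by
  unfold WW
  rw [eval_comp (ev u s h) (fun a => ev_algMap u s h a) x, GG_eval]

/-- `f` maps the fibre over `c` injectively to the fibre over `d` -/
structure Inj (c d : ℂ) (f : Fin 4 → MvPolynomial (Fin 4) ℂ) : Prop where
  mem : ∀ v : Fin 4 → ℂ, MvPolynomial.eval v pp = c →
    MvPolynomial.eval (fun i => MvPolynomial.eval v (f i)) pp = d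
  inj : ∀ v w : Fin 4 → ℂ, MvPolynomial.eval v pp = c → MvPolynomial.eval w pp = c →
    (∀ i, MvPolynomial.eval v (f i) = MvPolynomial.eval w (f i)) → v = w

lemma WW_eq {f : Fin 4 → MvPolynomial (Fin 4) ℂ} (hf : Inj c d f) :
    (WW c f 0) ^ 2 + (1 - WW c f 1 * (1 - WW c f 2)) ^ 2 * (1 - WW c f 2 * WW c f 3) ^ 3 =
      CC d := by
  rw [← sub_eq_zero]
  apply sepX
  intro u s h x
  have h1 := hf.mem _ (pt_mem u s x h)
  rw [eval_pp] at h1
  simp only [eval₂_add, eval₂_sub, eval₂_mul, eval₂_pow, eval₂_one, WW_eval]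
  rw [show (CC d : (RR c)[X]) = C (algebraMap ℂ (RR c) d) from rfl, eval₂_C, ev_algMap,
    ← h1]
  ring

/-- the values of one coordinate along the line through a point of the curve -/
lemma line_inj {f : Fin 4 → MvPolynomial (Fin 4) ℂ} (hf : Inj c d f) (j : Fin 4)
    (hj : ∀ i, i ≠ j → ∃ a : ℂ, WW c f i = CC a) : False := by
  -- two distinct points of the curve
  obtain ⟨u0, h0⟩ := exists_u (c := c) 0
  obtain ⟨u1, h1⟩ := exists_u (c := c) 1
  have hval : ∀ i, i ≠ j → ∀ u s (h : u ^ 2 + s ^ 3 = c) (x : ℂ),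
      MvPolynomial.eval ![u, x, 1, 1 - s] (f i) =
      MvPolynomial.eval ![u0, 0, 1, 1 - 0] (f i) := by
    intro i hi u s h x
    obtain ⟨a, ha⟩ := hj i hi
    rw [← WW_eval f i u s h x, ← WW_eval f i u0 0 h0 0, ha]
    rw [show (CC a : (RR c)[X]) = C (algebraMap ℂ (RR c) a) from rfl, eval₂_C, eval₂_C,
      ev_algMap, ev_algMap]
  -- the polynomial of the `j`-th coordinate on the line at the first point
  set P : ℂ[X] := (WW c f j).map (ev u0 0 h0) with hP
  have hPe : ∀ x, P.eval x = MvPolynomial.eval ![u0, x, 1, 1 - 0] (f j) := by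
    intro x
    rw [hP, eval_map, WW_eval]
  have hPd : P.degree ≠ 0 := by
    intro hd0
    have hPc := eq_C_of_degree_eq_zero hd0
    have h2 : P.eval 0 = P.eval 1 := by rw [hPc]; simp
    rw [hPe, hPe] at h2
    have := hf.inj _ _ (pt_mem u0 0 0 h0) (pt_mem u0 0 1 h0) (fun i => by
      by_cases hi : i = j
      · rw [hi]; exact h2
      · rw [hval i hi u0 0 h0 0, hval i hi u0 0 h0 1])
    have := congrFun this 1
    simp at this
  obtain ⟨x, hx⟩ := IsAlgClosed.exists_root
    (P - C (MvPolynomial.eval ![u1, 0, 1, 1 - 1] (f j))) (by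
      intro h3
      apply hPd
      have h4 : natDegree (P - C (MvPolynomial.eval ![u1, 0, 1, 1 - 1] (f j))) =
          natDegree P := natDegree_sub_C
      have h5 := natDegree_eq_zero_iff_degree_le_zero.2 h3.le
      rw [h4] at h5
      by_cases hP0 : P = 0
      · exfalso
        have h2 : P.eval 0 = P.eval 1 := by rw [hP0]; simp
        rw [hPe, hPe] at h2
        have := hf.inj _ _ (pt_mem u0 0 0 h0) (pt_mem u0 0 1 h0) (fun i => by
          by_cases hi : i = j
          · rw [hi]; exact h2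
          · rw [hval i hi u0 0 h0 0, hval i hi u0 0 h0 1])
        have := congrFun this 1
        simp at this
      · rw [degree_eq_natDegree hP0, h5]; rfl)
  have hx' : P.eval x = MvPolynomial.eval ![u1, 0, 1, 1 - 1] (f j) := by
    have := hx
    rw [IsRoot.def, eval_sub, eval_C] at this
    linear_combination this
  rw [hPe] at hx'
  have := hf.inj _ _ (pt_mem u0 0 x h0) (pt_mem u1 1 0 h1) (fun i => by
    by_cases hi : i = j
    · rw [hi]; exact hx'
    · rw [hval i hi u0 0 h0 x, hval i hi u1 1 h1 0])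
  have := congrFun this 3
  simp at this

lemma main_surface {f : Fin 4 → MvPolynomial (Fin 4) ℂ} (hd : d ≠ 0) (hf : Inj c d f) :
    WW c f 2 = 1 ∧ natDegree (WW c f 0) = 0 ∧ natDegree (WW c f 3) = 0 := by
  rcases classify (unit_const (c := c)) _ _ _ _ d hd (WW_eq hf) with h | h | h | h | h
  · exact h
  · exfalso
    obtain ⟨a, b, e, h1, h2, h3⟩ := h
    apply line_inj hf 3
    intro i hi
    fin_cases i
    · exact ⟨a, h1⟩
    · exact ⟨b, h2⟩
    · exact ⟨e, h3⟩
    · exact absurd rfl hi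
  · exfalso
    obtain ⟨a, b, e, h1, h2, h3⟩ := h
    apply line_inj hf 1
    intro i hi
    fin_cases i
    · exact ⟨a, h1⟩
    · exact absurd rfl hi
    · exact ⟨b, h2⟩
    · exact ⟨e, h3⟩
  · exfalso
    obtain ⟨h1, h2, a, h3⟩ := h
    apply line_inj hf 2
    intro i hi
    fin_cases i
    · exact ⟨a, h3⟩
    · exact ⟨0, h1.trans CC_zero.symm⟩
    · exact absurd rfl hi
    · exact ⟨0, h2.trans CC_zero.symm⟩
  · exfalso
    obtain ⟨h1, h2, h3, h4⟩ := h
    obtain ⟨u0, h0⟩ := exists_u (c := c) 0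
    have key : ∀ i, MvPolynomial.eval ![u0, 0, 1, 1 - 0] (f i) =
        MvPolynomial.eval ![u0, 1, 1, 1 - 0] (f i) := by
      intro i
      have hi : natDegree (WW c f i) = 0 := by
        fin_cases i
        · exact h1
        · exact h2
        · exact h3
        · exact h4
      rw [← WW_eval f i u0 0 h0 0, ← WW_eval f i u0 0 h0 1, eq_C_of_natDegree_eq_zero hi,
        eval₂_C, eval₂_C]
    have := hf.inj _ _ (pt_mem u0 0 0 h0) (pt_mem u0 0 1 h0) key
    have := congrFun this 1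
    simp at this

/-! ### the induced map of curves -/

/-- the `u`-coordinate of the image, a function on the curve -/
noncomputable def UU (c : ℂ) (f : Fin 4 → MvPolynomial (Fin 4) ℂ) : RR c := (WW c f 0).coeff 0

/-- the `s`-coordinate of the image, a function on the curve -/
noncomputable def SS (c : ℂ) (f : Fin 4 → MvPolynomial (Fin 4) ℂ) : RR c :=
  1 - (WW c f 3).coeff 0

section surf

variable {f : Fin 4 → MvPolynomial (Fin 4) ℂ} (hd : d ≠ 0) (hf : Inj c d f)

include hd hf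

lemma val0 (u s : ℂ) (h : u ^ 2 + s ^ 3 = c) (x : ℂ) :
    MvPolynomial.eval ![u, x, 1, 1 - s] (f 0) = ev u s h (UU c f) := by
  rw [← WW_eval f 0 u s h x, eq_C_of_natDegree_eq_zero (main_surface hd hf).2.1, eval₂_C]
  rfl

lemma val2 (u s : ℂ) (h : u ^ 2 + s ^ 3 = c) (x : ℂ) :
    MvPolynomial.eval ![u, x, 1, 1 - s] (f 2) = 1 := by
  rw [← WW_eval f 2 u s h x, (main_surface hd hf).1, eval₂_one]

lemma val3 (u s : ℂ) (h : u ^ 2 + s ^ 3 = c) (x : ℂ) :
    MvPolynomial.eval ![u, x, 1, 1 - s] (f 3) = 1 - ev u s h (SS c f) := by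
  rw [← WW_eval f 3 u s h x, eq_C_of_natDegree_eq_zero (main_surface hd hf).2.2, eval₂_C]
  unfold SS
  rw [map_sub, map_one]
  ring

lemma US_eq : (UU c f) ^ 2 + (SS c f) ^ 3 = algebraMap ℂ (RR c) d := by
  apply sep_eq
  intro u s h
  have h1 := hf.mem _ (pt_mem u s 0 h)
  rw [eval_pp] at h1
  rw [val0 hd hf u s h, val2 hd hf u s h, val3 hd hf u s h] at h1
  rw [map_add, map_pow, map_pow, ev_algMap, ← h1]
  ring

lemma US_ev (u s : ℂ) (h : u ^ 2 + s ^ 3 = c) :
    (ev u s h (UU c f)) ^ 2 + (ev u s h (SS c f)) ^ 3 = d := by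
  rw [← map_pow, ← map_pow, ← map_add, US_eq hd hf, ev_algMap]

/-- a point of the surface `y = 1` of the fibre is mapped to the surface `y = 1` -/
lemma map_surface (v : Fin 4 → ℂ) (hv : MvPolynomial.eval v pp = c) (hv2 : v 2 = 1) :
    MvPolynomial.eval v (f 2) = 1 := by
  have h : (v 0) ^ 2 + (1 - v 3) ^ 3 = c := by
    rw [eval_pp, hv2] at hv
    rw [← hv]; ring
  have hveq : v = ![v 0, v 1, 1, 1 - (1 - v 3)] := by
    funext i
    fin_cases i
    · rfl
    · rfl
    · exact hv2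
    · change v 3 = 1 - (1 - v 3); ring
  rw [hveq]
  exact val2 hd hf _ _ h _

end surf

/-- substitute `(ω, X) ↦ (U, S)` -/
noncomputable def theta (U S : RR c) (w : RR d) : RR c := aeval S w.re + U * aeval S w.im

lemma ev_aeval (S : RR c) (A : ℂ[X]) (u s : ℂ) (h : u ^ 2 + s ^ 3 = c) :
    ev u s h (aeval S A) = A.eval (ev u s h S) := by
  induction A using Polynomial.induction_on' with
  | add p q hp hq => rw [map_add, map_add, hp, hq, eval_add]
  | monomial n a =>
    rw [aeval_monomial, map_mul, map_pow, ev_algMap, eval_monomial]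

lemma ev_theta (U S : RR c) (w : RR d) (u s : ℂ) (h : u ^ 2 + s ^ 3 = c)
    (h' : (ev u s h U) ^ 2 + (ev u s h S) ^ 3 = d) :
    ev u s h (theta U S w) = ev (ev u s h U) (ev u s h S) h' w := by
  unfold theta
  rw [map_add, map_mul, ev_aeval, ev_aeval, ev_apply (ev u s h U)]

/-! ### degrees -/

lemma dl_sub_const (S : RR c) (hS : dl S ≠ 0) (a : ℂ) : dl (S - algebraMap ℂ (RR c) a) = dl S := by
  rw [sub_eq_add_neg]
  apply dl_add
  have : dl (-(algebraMap ℂ (RR c) a)) = 0 := by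
    rw [dl_zero_iff]
    exact ⟨-a, by rw [map_neg]⟩
  omega

lemma dl_ne {z : RR c} (h : dl z ≠ 0) : z ≠ 0 := by
  rintro rfl
  apply h
  rw [dl_zero_iff]
  exact ⟨0, by rw [map_zero]⟩

lemma dl_aeval (S : RR c) (hS : dl S ≠ 0) (A : ℂ[X]) (hA : A ≠ 0) :
    aeval S A ≠ 0 ∧ dl (aeval S A) = natDegree A * dl S := by
  induction hn : natDegree A generalizing A with
  | zero =>
    rw [eq_C_of_natDegree_eq_zero hn]
    have h0 : A.coeff 0 ≠ 0 := by
      intro h0
      apply hA
      rw [eq_C_of_natDegree_eq_zero hn, h0, C_0]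
    rw [aeval_C]
    refine ⟨?_, ?_⟩
    · intro h1
      exact h0 ((algebraMap ℂ (RR c)).injective (by rw [h1, map_zero]))
    · rw [zero_mul, dl_zero_iff]
      exact ⟨_, rfl⟩
  | succ n ih =>
    obtain ⟨a, ha⟩ := IsAlgClosed.exists_root A (by
      intro h0
      have := natDegree_eq_zero_iff_degree_le_zero.2 h0.le
      omega)
    obtain ⟨B, hB⟩ := dvd_iff_isRoot.2 ha
    have hB0 : B ≠ 0 := by
      rintro rfl
      exact hA (by rw [hB, mul_zero])
    have hBn : natDegree B = n := by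
      have := congrArg natDegree hB
      rw [hn, natDegree_mul (X_sub_C_ne_zero a) hB0, natDegree_X_sub_C] at this
      omega
    obtain ⟨h1, h2⟩ := ih B hB0 hBn
    have h3 : aeval S A = (S - algebraMap ℂ (RR c) a) * aeval S B := by
      rw [hB, map_mul, map_sub, aeval_X, aeval_C]
    have h4 : dl (S - algebraMap ℂ (RR c) a) = dl S := dl_sub_const S hS a
    have h5 : S - algebraMap ℂ (RR c) a ≠ 0 := dl_ne (by rw [h4]; exact hS)
    rw [h3]
    refine ⟨mul_ne_zero h5 h1, ?_⟩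
    rw [dl_mul _ _ h5 h1, h4, h2]
    ring

lemma dl_theta (U S : RR c) (m : ℕ) (hm : m ≠ 0) (hU : dl U = 3 * m) (hS : dl S = 2 * m)
    (w : RR d) : m ∣ dl (theta U S w) := by
  have hS0 : dl S ≠ 0 := by omega
  have hU0 : dl U ≠ 0 := by omega
  unfold theta
  by_cases h1 : w.re = 0
  · by_cases h2 : w.im = 0
    · rw [h1, h2, map_zero, mul_zero, add_zero]
      have : dl (0 : RR c) = 0 := by
        rw [dl_zero_iff]
        exact ⟨0, by rw [map_zero]⟩
      rw [this]
      exact dvd_zero m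
    · obtain ⟨h3, h4⟩ := dl_aeval S hS0 w.im h2
      rw [h1, map_zero, zero_add, dl_mul _ _ (dl_ne hU0) h3, h4, hU, hS]
      exact ⟨3 + 2 * natDegree w.im, by ring⟩
  · obtain ⟨h3, h4⟩ := dl_aeval S hS0 w.re h1
    by_cases h2 : w.im = 0
    · rw [h2, map_zero, mul_zero, add_zero, h4, hS]
      exact ⟨natDegree w.re * 2, by ring⟩
    · obtain ⟨h5, h6⟩ := dl_aeval S hS0 w.im h2
      have h7 : dl (U * aeval S w.im) = m * (3 + 2 * natDegree w.im) := by
        rw [dl_mul _ _ (dl_ne hU0) h5, h6, hU, hS]; ring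
      have h8 : dl (aeval S w.re) = m * (2 * natDegree w.re) := by
        rw [h4, hS]; ring
      rcases lt_trichotomy (2 * natDegree w.re) (3 + 2 * natDegree w.im) with h | h | h
      · rw [add_comm, dl_add _ _ (by
          rw [h7, h8]; exact Nat.mul_lt_mul_of_pos_left h (by omega)), h7]
        exact ⟨_, rfl⟩
      · omega
      · rw [dl_add _ _ (by
          rw [h7, h8]; exact Nat.mul_lt_mul_of_pos_left h (by omega)), h8]
        exact ⟨_, rfl⟩

lemma dl_omega : dl (⟨0, 1⟩ : RR c) = 3 := by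
  rw [dl_im_ne _ (by simp)]
  simp

lemma dl_X : dl (⟨X, 0⟩ : RR c) = 2 := by
  rw [dl_im_zero _ rfl]
  simp

/-- an isomorphism of the curves is diagonal -/
lemma curve_iso (U S : RR c) (h : U ^ 2 + S ^ 3 = algebraMap ℂ (RR c) d)
    (w1 w2 : RR d) (h1 : theta U S w1 = ⟨0, 1⟩) (h2 : theta U S w2 = ⟨X, 0⟩) :
    ∃ α b : ℂ, S = ⟨C α * X, 0⟩ ∧ U = ⟨0, C b⟩ ∧ α ^ 3 = b ^ 2 ∧ d = c * b ^ 2 := by
  -- degrees
  have hS0 : dl S ≠ 0 := by
    intro h0
    obtain ⟨a, ha⟩ := (dl_zero_iff S).1 h0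
    have hU2 : dl (U ^ 2) = 0 := by
      rw [dl_zero_iff]
      refine ⟨d - a ^ 3, ?_⟩
      rw [ha] at h
      rw [map_sub, map_pow]
      linear_combination h
    rw [dl_pow] at hU2
    have hU : dl U = 0 := by omega
    obtain ⟨b, hb⟩ := (dl_zero_iff U).1 hU
    have : dl (theta U S w1) = 0 := by
      rw [dl_zero_iff]
      refine ⟨w1.re.eval a + b * w1.im.eval a, ?_⟩
      unfold theta
      rw [ha, hb, aeval_algebraMap_apply, aeval_algebraMap_apply, map_add, map_mul]
      simp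
    rw [h1, dl_omega] at this
    omega
  have hrel : 2 * dl U = 3 * dl S := by
    have h3 : U ^ 2 = -(S ^ 3) + algebraMap ℂ (RR c) d := by linear_combination h
    have h4 : dl (-(S ^ 3)) = 3 * dl S := by
      unfold dl
      rw [QuadraticAlgebra.norm_neg, map_pow, natDegree_pow]
    have h5 : dl (algebraMap ℂ (RR c) d) = 0 := (dl_zero_iff _).2 ⟨d, rfl⟩
    have h6 := dl_add (-(S ^ 3)) (algebraMap ℂ (RR c) d) (by omega)
    rw [← h3, dl_pow, h4] at h6
    exact h6
  obtain ⟨m, hmS⟩ : ∃ m, dl S = 2 * m := ⟨dl S / 2, by omega⟩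
  have hmU : dl U = 3 * m := by omega
  have hm : m ≠ 0 := by omega
  have hd1 := dl_theta U S m hm hmU hmS w1
  have hd2 := dl_theta U S m hm hmU hmS w2
  rw [h1, dl_omega] at hd1
  rw [h2, dl_X] at hd2
  have hm1 : m = 1 := by
    have := (Nat.dvd_sub hd1 hd2)
    simpa using this
  rw [hm1] at hmS hmU
  -- shape of `S`
  have hSim : S.im = 0 := by
    by_contra hne
    have := dl_im_ne S hne
    omega
  have hSre : natDegree S.re = 1 := by
    have := dl_im_zero S hSim
    omega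
  have hUim : U.im ≠ 0 := by
    intro h0
    have := dl_im_zero U h0
    omega
  have hUim0 : natDegree U.im = 0 := by
    have := dl_im_ne U hUim
    omega
  obtain ⟨α, β, hαβ⟩ := exists_eq_X_add_C_of_natDegree_le_one hSre.le
  have hb := eq_C_of_natDegree_eq_zero hUim0
  set b := U.im.coeff 0 with hbdef
  have hb0 : b ≠ 0 := by
    intro h0
    rw [h0, C_0] at hb
    exact hUim hb
  -- the relation
  have him := congrArg QuadraticAlgebra.im h
  have hre := congrArg QuadraticAlgebra.re h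
  simp only [pow_succ, pow_zero, one_mul, im_add, im_mul, re_add, re_mul, hSim, mul_zero,
    zero_mul, add_zero, algMap_im, algMap_re] at him hre
  have hUre : U.re = 0 := by
    have h5 : U.re * U.im = 0 := by
      have h6 : (2 : ℂ[X]) * (U.re * U.im) = 0 := by linear_combination him
      exact (mul_eq_zero.1 h6).resolve_left two_ne_zero
    exact (mul_eq_zero.1 h5).resolve_right hUim
  rw [hUre, hb, hαβ] at hre
  have hpoly : ∀ t : ℂ, (c - t ^ 3) * b ^ 2 + (α * t + β) ^ 3 = d := by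
    intro t
    have := congrArg (eval t) hre
    simp only [eval_add, eval_mul, eval_sub, eval_C, eval_X, eval_pow, eval_zero] at this
    linear_combination this
  have e0 := hpoly 0
  have e1 := hpoly 1
  have e2 := hpoly (-1)
  have e3 := hpoly 2
  -- α ^ 3 = b ^ 2, α ^ 2 β = 0, α β ^ 2 = 0
  have k3 : α ^ 3 = b ^ 2 := by linear_combination (1/6) * (e3 - 3 * e1 + 3 * e0 - e2)
  have hα0 : α ≠ 0 := by
    rintro rfl
    apply hb0
    have : b ^ 2 = 0 := by rw [← k3]; ring
    exact pow_eq_zero_iff (by norm_num) |>.1 this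
  have k2 : 3 * α ^ 2 * β = 0 := by linear_combination (1/2) * (e1 + e2 - 2 * e0)
  have hβ : β = 0 := by
    have : α ^ 2 * β = 0 := by linear_combination (1/3) * k2
    exact (mul_eq_zero.1 this).resolve_left (pow_ne_zero 2 hα0)
  refine ⟨α, b, ?_, ?_, k3, ?_⟩
  · ext1
    · change S.re = C α * X
      rw [hαβ, hβ, C_0, add_zero]
    · exact hSim
  · ext1
    · exact hUre
    · exact hb
  · rw [hβ] at e0
    linear_combination -e0


/-! ### no isomorphisms -/

lemma unit_C (a : ℂ) (_ : IsUnit a) : ∃ e : ℂ, a = algebraMap ℂ ℂ e := ⟨a, rfl⟩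

theorem fibres_noniso (hc : c ≠ 0) (hd : d ≠ 0) (h : FibresIso pp c d) : c = d := by
  obtain ⟨f, g, h1, h2⟩ := h
  have hfg : ∀ v, MvPolynomial.eval v pp = c → ∀ j,
      MvPolynomial.eval (fun i => MvPolynomial.eval v (f i)) (g j) = v j :=
    fun v hv j => congrFun (h1 v hv).2 j
  have hgf : ∀ v, MvPolynomial.eval v pp = d → ∀ j,
      MvPolynomial.eval (fun i => MvPolynomial.eval v (g i)) (f j) = v j :=
    fun v hv j => congrFun (h2 v hv).2 j
  have hf : Inj c d f := by
    refine ⟨fun v hv => (h1 v hv).1, fun v w hv hw heq => ?_⟩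
    funext j
    rw [← hfg v hv j, ← hfg w hw j]
    congr 1
    congr 1
    funext i
    exact heq i
  have hg : Inj d c g := by
    refine ⟨fun v hv => (h2 v hv).1, fun v w hv hw heq => ?_⟩
    funext j
    rw [← hgf v hv j, ← hgf w hw j]
    congr 1
    congr 1
    funext i
    exact heq i
  -- the composition on the curve
  have hcomp : ∀ u s (h : u ^ 2 + s ^ 3 = c),
      ev (ev u s h (UU c f)) (ev u s h (SS c f)) (US_ev hd hf u s h) (UU d g) = u ∧
      ev (ev u s h (UU c f)) (ev u s h (SS c f)) (US_ev hd hf u s h) (SS d g) = s := by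
    intro u s h
    have hpt := pt_mem u s 0 h
    have hv : (fun i => MvPolynomial.eval ![u, 0, 1, 1 - s] (f i)) =
        ![ev u s h (UU c f), MvPolynomial.eval ![u, 0, 1, 1 - s] (f 1), 1,
          1 - ev u s h (SS c f)] := by
      funext i
      fin_cases i
      · exact val0 hd hf u s h 0
      · rfl
      · exact val2 hd hf u s h 0
      · exact val3 hd hf u s h 0
    have e0 := hfg _ hpt 0
    have e3 := hfg _ hpt 3
    rw [hv] at e0 e3
    rw [val0 hc hg _ _ (US_ev hd hf u s h)] at e0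
    rw [val3 hc hg _ _ (US_ev hd hf u s h)] at e3
    refine ⟨e0, ?_⟩
    have e3' : (1 : ℂ) - ev (ev u s h (UU c f)) (ev u s h (SS c f)) (US_ev hd hf u s h) (SS d g)
        = 1 - s := e3
    linear_combination -e3'
  have ht1 : theta (UU c f) (SS c f) (UU d g) = (⟨0, 1⟩ : RR c) := by
    apply sep_eq
    intro u s h
    rw [ev_theta _ _ _ u s h (US_ev hd hf u s h), (hcomp u s h).1, ev_apply]
    simp
  have ht2 : theta (UU c f) (SS c f) (SS d g) = (⟨X, 0⟩ : RR c) := by
    apply sep_eq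
    intro u s h
    rw [ev_theta _ _ _ u s h (US_ev hd hf u s h), (hcomp u s h).2, ev_apply]
    simp
  obtain ⟨α, b, hS, hU, hαb, hdc⟩ := curve_iso _ _ (US_eq hd hf) _ _ ht1 ht2
  -- the line through the marked point
  obtain ⟨u0, hu0⟩ := IsAlgClosed.exists_pow_nat_eq (c - 1) (n := 2) (by norm_num)
  have hu1 : u0 ^ 2 + 1 ^ 3 = c := by rw [hu0]; ring
  let L : ℂ → Fin 4 → ℂ := fun t => ![u0, 0, t, 0]
  have hL : ∀ t, MvPolynomial.eval (L t) pp = c := by
    intro t
    rw [eval_pp]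
    change u0 ^ 2 + (1 - 0 * (1 - t)) ^ 2 * (1 - t * 0) ^ 3 = c
    rw [hu0]; ring
  let G5 : Fin 4 → ℂ[X] := ![C u0, 0, X, 0]
  have hG5 : ∀ t, (fun i => (G5 i).eval₂ (RingHom.id ℂ) t) = L t := by
    intro t
    funext i
    fin_cases i
    · change (C u0).eval₂ (RingHom.id ℂ) t = u0
      rw [eval₂_C]; rfl
    · change (0 : ℂ[X]).eval₂ (RingHom.id ℂ) t = 0
      rw [eval₂_zero]
    · change (X : ℂ[X]).eval₂ (RingHom.id ℂ) t = t
      rw [eval₂_X]
    · change (0 : ℂ[X]).eval₂ (RingHom.id ℂ) t = 0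
      rw [eval₂_zero]
  let V : Fin 4 → ℂ[X] := fun i => MvPolynomial.aeval G5 (f i)
  have hV : ∀ i t, (V i).eval t = MvPolynomial.eval (L t) (f i) := by
    intro i t
    have := eval_comp (D := ℂ) (RingHom.id ℂ) (fun a => rfl) t G5 (f i)
    rw [hG5] at this
    rw [← this]
    rfl
  have hVeq : (V 0) ^ 2 + (1 - V 1 * (1 - V 2)) ^ 2 * (1 - V 2 * V 3) ^ 3 = CC d := by
    apply Polynomial.funext
    intro t
    simp only [eval_add, eval_sub, eval_mul, eval_pow, eval_one, hV]
    rw [show (CC d : ℂ[X]) = C d from rfl, eval_C]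
    have := hf.mem _ (hL t)
    rw [eval_pp] at this
    exact this
  have hL1 : L 1 = ![u0, 0, 1, 1 - 1] := by
    funext i
    fin_cases i
    · rfl
    · rfl
    · rfl
    · change (0 : ℂ) = 1 - 1; ring
  have hV2 : (V 2).eval 1 = 1 := by
    rw [hV, hL1]; exact val2 hd hf u0 1 hu1 0
  have hV3 : (V 3).eval 1 = 1 - α := by
    rw [hV, hL1, val3 hd hf u0 1 hu1 0, hS, ev_apply]
    simp
  -- `y = 1` along the image is impossible
  have hno : (V 2).eval 0 ≠ 1 := by
    intro h0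
    rw [hV] at h0
    have h3 := map_surface hc hg (fun i => MvPolynomial.eval (L 0) (f i)) (hf.mem _ (hL 0)) h0
    rw [hfg _ (hL 0)] at h3
    change (0 : ℂ) = 1 at h3
    exact zero_ne_one h3
  have hα : α = 1 := by
    rcases classify unit_C _ _ _ _ d hd hVeq with h | h | h | h | h
    · exfalso
      apply hno
      rw [h.1, eval_one]
    · exfalso
      obtain ⟨_, _, e, _, _, h3⟩ := h
      apply hno
      rw [h3] at hV2 ⊢
      rw [show (CC e : ℂ[X]) = C e from rfl, eval_C] at hV2 ⊢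
      exact hV2
    · exfalso
      obtain ⟨_, e, _, _, h3, _⟩ := h
      apply hno
      rw [h3] at hV2 ⊢
      rw [show (CC e : ℂ[X]) = C e from rfl, eval_C] at hV2 ⊢
      exact hV2
    · obtain ⟨_, h3, _⟩ := h
      rw [h3, eval_zero] at hV3
      linear_combination hV3
    · exfalso
      obtain ⟨_, _, h3, _⟩ := h
      apply hno
      rw [eq_C_of_natDegree_eq_zero h3] at hV2 ⊢
      rw [eval_C] at hV2 ⊢
      exact hV2
  rw [hα] at hαb
  rw [hdc, ← hαb]
  ring

theorem not_isotrivial : ¬ Isotrivial pp := by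
  rintro ⟨U, hU, h⟩
  have hfin : (Uᶜ ∪ {0} : Set ℂ).Finite := hU.union (Set.finite_singleton 0)
  obtain ⟨c, hc⟩ := hfin.infinite_compl.nonempty
  obtain ⟨d, hd⟩ := (hfin.union (Set.finite_singleton c)).infinite_compl.nonempty
  simp only [Set.compl_union, compl_compl, Set.mem_inter_iff, Set.mem_compl_iff,
    Set.mem_singleton_iff] at hc hd
  exact hd.2 (fibres_noniso hc.2 hd.1.2 (h c hc.1 d hd.1.1)).symm

end Pool.Agent.H26.Irr
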