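import Mathlib

set_option autoImplicit false

open Filter Topology Set

namespace Pool.Agent.H26.Iso

/-! ### Laurent functions -/

def Lau (h : ℂ → ℂ) : Prop :=
  ∃ (N : ℕ) (P : Polynomial ℂ), ∀ s : ℂ, s ≠ 0 → s ^ N * h s = P.eval s

lemma Lau.const (a : ℂ) : Lau (fun _ => a) :=
  ⟨0, Polynomial.C a, fun s _ => by simp⟩

lemma Lau.id : Lau (fun s => s) :=
  ⟨0, Polynomial.X, fun s _ => by simp⟩

lemma Lau.inv : Lau (fun s => s⁻¹) :=
  ⟨1, 1, fun s hs => by simp [hs]⟩

lemma Lau.add {h k : ℂ → ℂ} (H : Lau h) (K : Lau k) : Lau (fun s => h s + k s) := by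
  obtain ⟨N, P, hP⟩ := H
  obtain ⟨M, Q, hQ⟩ := K
  refine ⟨N + M, Polynomial.X ^ M * P + Polynomial.X ^ N * Q, fun s hs => ?_⟩
  simp only [Polynomial.eval_add, Polynomial.eval_mul, Polynomial.eval_pow, Polynomial.eval_X]
  rw [← hP s hs, ← hQ s hs]
  ring

lemma Lau.mul {h k : ℂ → ℂ} (H : Lau h) (K : Lau k) : Lau (fun s => h s * k s) := by
  obtain ⟨N, P, hP⟩ := H
  obtain ⟨M, Q, hQ⟩ := K
  refine ⟨N + M, P * Q, fun s hs => ?_⟩
  simp only [Polynomial.eval_mul]
  rw [← hP s hs, ← hQ s hs]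
  ring

lemma Lau.mv (u : Fin 3 → ℂ → ℂ) (hu : ∀ i, Lau (u i)) (f : MvPolynomial (Fin 3) ℂ) :
    Lau (fun s => MvPolynomial.eval (fun i => u i s) f) := by
  induction f using MvPolynomial.induction_on with
  | C a => simpa using Lau.const a
  | add p q hp hq =>
    simp only [map_add]
    exact hp.add hq
  | mul_X p i hp =>
    simp only [map_mul, MvPolynomial.eval_X]
    exact hp.mul (hu i)

lemma Lau.mono {h : ℂ → ℂ} (H : Lau h) (hne : ∀ s, s ≠ 0 → h s ≠ 0) :
    ∃ a : ℂ, a ≠ 0 ∧ ∃ k : ℤ, ∀ s, s ≠ 0 → h s = a * s ^ k := by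
  obtain ⟨N, P, hP⟩ := H
  have hroot : ∀ s, P.eval s = 0 → s = 0 := by
    intro s hs
    by_contra h0
    have := hP s h0
    rw [hs] at this
    exact (mul_ne_zero (pow_ne_zero N h0) (hne s h0)) this
  have hP0 : P ≠ 0 := by
    rintro rfl
    have := hroot 1 (by simp)
    exact one_ne_zero this
  have hsp := IsAlgClosed.splits P
  have hprod := hsp.eq_prod_roots
  have hrep : P.roots = Multiset.replicate (Multiset.card P.roots) 0 :=
    Multiset.eq_replicate.2 ⟨rfl, fun b hb => hroot b (Polynomial.isRoot_of_mem_roots hb)⟩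
  set n := Multiset.card P.roots with hn
  have hev : ∀ s, P.eval s = P.leadingCoeff * s ^ n := by
    intro s
    conv_lhs => rw [hprod, hrep]
    simp
  refine ⟨P.leadingCoeff, Polynomial.leadingCoeff_ne_zero.2 hP0, (n : ℤ) - N, fun s hs => ?_⟩
  have h1 := hP s hs
  rw [hev] at h1
  rw [zpow_sub₀ hs, zpow_natCast, zpow_natCast]
  field_simp
  linear_combination h1

/-! ### the polynomial -/

noncomputable def p : MvPolynomial (Fin 3) ℂ :=
  (1 - MvPolynomial.X 0 * (1 - MvPolynomial.X 1)) * (1 - MvPolynomial.X 1 * MvPolynomial.X 2)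

noncomputable def r : MvPolynomial (Fin 3) ℂ := 1 - MvPolynomial.X 0 * (1 - MvPolynomial.X 1)

lemma eval_p (v : Fin 3 → ℂ) :
    MvPolynomial.eval v p = (1 - v 0 * (1 - v 1)) * (1 - v 1 * v 2) := by
  simp [p]

lemma eval_r (v : Fin 3 → ℂ) : MvPolynomial.eval v r = 1 - v 0 * (1 - v 1) := by
  simp [r]

/-! ### units -/

lemma limit_lemma (A b : ℂ) (hA : A ≠ 0) (hb : b ≠ 0) (k l : ℤ)
    (h : ∀ y : ℝ, 0 < y → y < 1 → b * (1 - (y : ℂ)) ^ l = A * (y : ℂ) ^ k) : b = A := by
  have hev : ∀ᶠ y : ℝ in 𝓝[>] 0, 0 < y ∧ y < 1 := Ioo_mem_nhdsGT one_pos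
  have hy : Tendsto (fun y : ℝ => (y : ℂ)) (𝓝[>] 0) (𝓝 0) := by
    have : Tendsto (fun y : ℝ => (y : ℂ)) (𝓝 0) (𝓝 ((0 : ℝ) : ℂ)) :=
      Complex.continuous_ofReal.tendsto 0
    rw [Complex.ofReal_zero] at this
    exact this.mono_left nhdsWithin_le_nhds
  have h1 : Tendsto (fun y : ℝ => b * (1 - (y : ℂ)) ^ l) (𝓝[>] 0) (𝓝 b) := by
    have h2 : Tendsto (fun y : ℝ => (1 - (y : ℂ)) ^ l) (𝓝[>] 0) (𝓝 ((1 - 0 : ℂ) ^ l)) :=
      (tendsto_const_nhds.sub hy).zpow₀ l (Or.inl (by simp))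
    have := h2.const_mul b
    simpa using this
  obtain ⟨n, rfl | rfl⟩ := k.eq_nat_or_neg
  · have h3 : Tendsto (fun y : ℝ => A * (y : ℂ) ^ (n : ℤ)) (𝓝[>] 0) (𝓝 (A * 0 ^ n)) := by
      have := (hy.pow n).const_mul A
      simpa using this
    have h4 : Tendsto (fun y : ℝ => A * (y : ℂ) ^ (n : ℤ)) (𝓝[>] 0) (𝓝 b) := by
      refine h1.congr' ?_
      filter_upwards [hev] with y hy
      exact h y hy.1 hy.2
    have h5 := tendsto_nhds_unique h4 h3
    rcases Nat.eq_zero_or_pos n with rfl | hn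
    · simpa using h5
    · rw [zero_pow hn.ne', mul_zero] at h5
      exact absurd h5 hb
  · have h3 : Tendsto (fun y : ℝ => b * (1 - (y : ℂ)) ^ l * (y : ℂ) ^ n) (𝓝[>] 0)
        (𝓝 (b * 0 ^ n)) := h1.mul (hy.pow n)
    have h4 : Tendsto (fun y : ℝ => b * (1 - (y : ℂ)) ^ l * (y : ℂ) ^ n) (𝓝[>] 0) (𝓝 A) := by
      refine (tendsto_const_nhds (x := A)).congr' ?_
      filter_upwards [hev] with y hy
      have hy0 : (y : ℂ) ≠ 0 := by exact_mod_cast hy.1.ne'
      rw [h y hy.1 hy.2, mul_assoc, zpow_neg, zpow_natCast, inv_mul_cancel₀ (pow_ne_zero n hy0),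
        mul_one]
    have h5 := tendsto_nhds_unique h4 h3
    rcases Nat.eq_zero_or_pos n with rfl | hn
    · simpa using h5.symm
    · rw [zero_pow hn.ne', mul_zero] at h5
      exact absurd h5 hA

/-- a polynomial without zeros on the fibre over `c` -/
lemma units_lemma (c : ℂ) (hc0 : c ≠ 0) (f : MvPolynomial (Fin 3) ℂ)
    (hf : ∀ v : Fin 3 → ℂ, MvPolynomial.eval v p = c → MvPolynomial.eval v f ≠ 0) :
    ∃ m : ℤ, MvPolynomial.eval ![1 - c, 0, 0] f = c ^ m * MvPolynomial.eval ![0, 1, 1 - c] f := by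
  -- slice s = 1
  have hA : Lau (fun s => MvPolynomial.eval (fun i =>
      (![fun _ => 0, fun s => s, fun s => (1 - c) * s⁻¹] : Fin 3 → ℂ → ℂ) i s) f) := by
    apply Lau.mv
    intro i
    fin_cases i
    · exact Lau.const 0
    · exact Lau.id
    · exact (Lau.const _).mul Lau.inv
  have hB : Lau (fun s => MvPolynomial.eval (fun i =>
      (![fun s => (1 - c) * s⁻¹, fun s => 1 + (-1) * s, fun _ => 0] : Fin 3 → ℂ → ℂ) i s) f) := by
    apply Lau.mv
    intro i
    fin_cases i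
    · exact (Lau.const _).mul Lau.inv
    · exact (Lau.const _).add ((Lau.const _).mul Lau.id)
    · exact Lau.const 0
  have hAe : ∀ s, (fun i => (![fun _ => 0, fun s => s, fun s => (1 - c) * s⁻¹] :
      Fin 3 → ℂ → ℂ) i s) = ![0, s, (1 - c) * s⁻¹] := by
    intro s
    ext i
    fin_cases i <;> rfl
  have hBe : ∀ s, (fun i => (![fun s => (1 - c) * s⁻¹, fun s => 1 + (-1) * s, fun _ => 0] :
      Fin 3 → ℂ → ℂ) i s) = ![(1 - c) * s⁻¹, 1 - s, 0] := by
    intro s
    ext i
    fin_cases i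
    · rfl
    · change 1 + (-1) * s = 1 - s
      ring
    · rfl
  simp only [hAe] at hA
  simp only [hBe] at hB
  obtain ⟨a, ha, k, hak⟩ := hA.mono (by
    intro s hs
    apply hf
    rw [eval_p]
    simp
    field_simp
    ring)
  obtain ⟨b, hb, l, hbl⟩ := hB.mono (by
    intro s hs
    apply hf
    rw [eval_p]
    simp
    field_simp
    ring)
  -- slices with fixed y
  have hC : ∀ y : ℂ, y ≠ 0 → y ≠ 1 → ∃ m : ℤ, b * (1 - y) ^ l = a * y ^ k * c ^ m := by
    intro y hy0 hy1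
    have hy1' : 1 - y ≠ 0 := sub_ne_zero.2 hy1.symm
    have hL : Lau (fun s => MvPolynomial.eval (fun i =>
      (![fun s => (1 + (-1) * s) * (1 - y)⁻¹, fun _ => y, fun s => (1 + (-c) * s⁻¹) * y⁻¹] :
        Fin 3 → ℂ → ℂ) i s) f) := by
      apply Lau.mv
      intro i
      fin_cases i
      · exact ((Lau.const _).add ((Lau.const _).mul Lau.id)).mul (Lau.const _)
      · exact Lau.const _
      · exact ((Lau.const _).add ((Lau.const _).mul Lau.inv)).mul (Lau.const _)
    have hLe : ∀ s, (fun i => (![fun s => (1 + (-1) * s) * (1 - y)⁻¹, fun _ => y,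
        fun s => (1 + (-c) * s⁻¹) * y⁻¹] : Fin 3 → ℂ → ℂ) i s) =
        ![(1 + (-1) * s) * (1 - y)⁻¹, y, (1 + (-c) * s⁻¹) * y⁻¹] := by
      intro s
      ext i
      fin_cases i <;> rfl
    simp only [hLe] at hL
    obtain ⟨α, hα, m, hm⟩ := hL.mono (by
      intro s hs
      apply hf
      rw [eval_p]
      simp
      field_simp
      ring)
    refine ⟨m, ?_⟩
    have h1 := hm 1 one_ne_zero
    have h2 := hm c hc0
    have e1 : ![(1 + (-1) * 1) * (1 - y)⁻¹, y, (1 + (-c) * (1 : ℂ)⁻¹) * y⁻¹] =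
        ![0, y, (1 - c) * y⁻¹] := by
      ext i
      fin_cases i
      · simp
      · simp
      · change (1 + (-c) * (1 : ℂ)⁻¹) * y⁻¹ = (1 - c) * y⁻¹
        rw [inv_one]; ring
    have e2 : ![(1 + (-1) * c) * (1 - y)⁻¹, y, (1 + (-c) * (c : ℂ)⁻¹) * y⁻¹] =
        ![(1 - c) * (1 - y)⁻¹, 1 - (1 - y), 0] := by
      ext i
      fin_cases i
      · change (1 + (-1) * c) * (1 - y)⁻¹ = (1 - c) * (1 - y)⁻¹
        ring
      · simp
      · simp [hc0]
    rw [e1, hak y hy0, one_zpow, mul_one] at h1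
    rw [e2, hbl (1 - y) hy1', ← h1] at h2
    exact h2
  -- connectedness
  have hconst : ∃ m : ℤ, ∀ y : ℝ, 0 < y → y < 1 →
      b * (1 - (y : ℂ)) ^ l = (a * c ^ m) * (y : ℂ) ^ k := by
    set g : ℝ → ℂ := fun y => b * (1 - (y : ℂ)) ^ l / (a * (y : ℂ) ^ k) with hg
    have hgc : ContinuousOn g (Ioo 0 1) := by
      intro y hy
      have hy0 : (y : ℂ) ≠ 0 := by exact_mod_cast hy.1.ne'
      have hy1 : (1 - (y : ℂ)) ≠ 0 := by
        have : (1 - y : ℝ) ≠ 0 := by linarith [hy.2]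
        exact_mod_cast this
      apply ContinuousAt.continuousWithinAt
      apply ContinuousAt.div
      · exact continuousAt_const.mul (ContinuousAt.zpow₀
          (continuousAt_const.sub Complex.continuous_ofReal.continuousAt) l (Or.inl hy1))
      · exact continuousAt_const.mul (ContinuousAt.zpow₀
          Complex.continuous_ofReal.continuousAt k (Or.inl hy0))
      · exact mul_ne_zero ha (zpow_ne_zero k hy0)
    have himg : g '' Ioo 0 1 ⊆ range (fun m : ℤ => c ^ m) := by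
      rintro _ ⟨y, hy, rfl⟩
      have hy0 : (y : ℂ) ≠ 0 := by exact_mod_cast hy.1.ne'
      have hy1 : (y : ℂ) ≠ 1 := by exact_mod_cast hy.2.ne
      obtain ⟨m, hm⟩ := hC y hy0 hy1
      refine ⟨m, ?_⟩
      simp only [hg]
      rw [hm]
      have := mul_ne_zero ha (zpow_ne_zero k hy0)
      field_simp
    have hsub := (countable_range (fun m : ℤ => c ^ m)).isTotallyDisconnected _ himg
      (isPreconnected_Ioo.image g hgc)
    have hhalf : (1 / 2 : ℝ) ∈ Ioo (0 : ℝ) 1 := by norm_num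
    obtain ⟨m, hm⟩ := himg (mem_image_of_mem g hhalf)
    refine ⟨m, fun y h0 h1 => ?_⟩
    have h2 := hsub (mem_image_of_mem g (⟨h0, h1⟩ : y ∈ Ioo (0 : ℝ) 1)) (mem_image_of_mem g hhalf)
    have hm' : c ^ m = g (1 / 2) := hm
    rw [← hm'] at h2
    have hy0 : (y : ℂ) ≠ 0 := by exact_mod_cast h0.ne'
    simp only [hg] at h2
    rw [div_eq_iff (mul_ne_zero ha (zpow_ne_zero k hy0))] at h2
    rw [h2]; ring
  obtain ⟨m, hm⟩ := hconst
  have hfin := limit_lemma (a * c ^ m) b (mul_ne_zero ha (zpow_ne_zero m hc0)) hb k l hm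
  refine ⟨m, ?_⟩
  have h1 := hak 1 one_ne_zero
  have h2 := hbl 1 one_ne_zero
  simp only [one_zpow, mul_one, inv_one, sub_self] at h1 h2
  rw [h1, h2, hfin]
  ring

/-! ### polynomial curves in the fibres -/

open Polynomial in
/-- A nonconstant polynomial curve in the fibre over `c ≠ 0, 1` is contained in one of the two
lines `y = 1, z = 1 - c` (where `r = 1`) and `y = 0, x = 1 - c` (where `r = c`). -/
lemma curve_lemma (c : ℂ) (hc0 : c ≠ 0) (hc1 : c ≠ 1) (x y z : ℂ[X])
    (h : ∀ t : ℂ, (1 - x.eval t * (1 - y.eval t)) * (1 - y.eval t * z.eval t) = c)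
    (hnc : ∃ t t' : ℂ, x.eval t ≠ x.eval t' ∨ y.eval t ≠ y.eval t' ∨ z.eval t ≠ z.eval t') :
    (∀ t, y.eval t = 1 ∧ z.eval t = 1 - c) ∨ (∀ t, y.eval t = 0 ∧ x.eval t = 1 - c) := by
  have hpoly : (1 - x * (1 - y)) * (1 - y * z) = C c := by
    apply Polynomial.funext
    intro t
    simpa using h t
  have hunit : ∀ (u v : ℂ[X]) (a : ℂ), a ≠ 0 → u * v = C a → ∃ b : ℂ, b ≠ 0 ∧ u = C b := by
    intro u v a ha huv
    have hu : IsUnit u := by
      apply isUnit_of_mul_isUnit_left (y := v)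
      rw [huv]
      exact (isUnit_C).2 (isUnit_iff_ne_zero.2 ha)
    obtain ⟨b, hb, hb'⟩ := Polynomial.isUnit_iff.1 hu
    exact ⟨b, hb.ne_zero, hb'.symm⟩
  obtain ⟨s, hs0, hs⟩ := hunit _ _ c hc0 hpoly
  have hpoly' : (1 - y * z) * (1 - x * (1 - y)) = C c := by rw [mul_comm]; exact hpoly
  obtain ⟨q, hq0, hq⟩ := hunit _ _ c hc0 hpoly'
  have hsq : s * q = c := by
    rw [hs, hq, ← C_mul] at hpoly
    exact C_injective hpoly
  have hx : x * (1 - y) = C (1 - s) := by
    rw [C_sub, ← hs, C_1]; ring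
  have hz : y * z = C (1 - q) := by
    rw [C_sub, ← hq, C_1]; ring
  have hconst : ∀ (u : ℂ[X]) (b : ℂ), u = C b → ∀ t t', u.eval t = u.eval t' := by
    intro u b hu t t'
    rw [hu]; simp
  obtain ⟨t, t', hnc⟩ := hnc
  by_cases hs1 : s = 1
  · left
    have hq1 : q = c := by rw [← hsq, hs1, one_mul]
    have h1c : 1 - q ≠ 0 := by rw [hq1]; exact sub_ne_zero.2 hc1.symm
    obtain ⟨b, hb0, hb⟩ := hunit _ _ _ h1c hz
    have hz' : z * y = C (1 - q) := by rw [mul_comm]; exact hz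
    obtain ⟨d, hd0, hd⟩ := hunit _ _ _ h1c hz'
    rw [hs1, sub_self, C_0] at hx
    rcases mul_eq_zero.1 hx with h0 | h0
    · exfalso
      rcases hnc with h | h | h
      · rw [h0] at h; simp at h
      · exact h (hconst y b hb t t')
      · exact h (hconst z d hd t t')
    · intro t
      have h1 : y = 1 := (sub_eq_zero.1 h0).symm
      rw [h1, one_mul] at hz
      rw [h1, hz, hq1]
      simp
  · have h1s : 1 - s ≠ 0 := sub_ne_zero.2 (Ne.symm hs1)
    obtain ⟨b, hb0, hb⟩ := hunit _ _ _ h1s hx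
    have hx' : (1 - y) * x = C (1 - s) := by rw [mul_comm]; exact hx
    obtain ⟨d, hd0, hd⟩ := hunit _ _ _ h1s hx'
    have hy : y = C (1 - d) := by rw [C_sub, ← hd, C_1]; ring
    have hzc : ∃ t t', z.eval t ≠ z.eval t' := by
      rcases hnc with h | h | h
      · exact absurd (hconst x b hb t t') h
      · exact absurd (hconst y _ hy t t') h
      · exact ⟨t, t', h⟩
    obtain ⟨t1, t2, h12⟩ := hzc
    have hd1 : 1 - d = 0 := by
      by_contra hne
      have e : ∀ t, (1 - d) * z.eval t = 1 - q := by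
        intro t
        have := congrArg (Polynomial.eval t) hz
        rw [hy] at this
        simpa using this
      exact h12 (mul_left_cancel₀ hne ((e t1).trans (e t2).symm))
    right
    intro t
    have hy0 : y = 0 := by rw [hy, hd1, C_0]
    rw [hy0, zero_mul] at hz
    have hq1 : q = 1 := by
      have : (1 - q : ℂ) = 0 := C_injective (by rw [C_0]; exact hz.symm)
      exact (sub_eq_zero.1 this).symm
    have hsc : s = c := by rw [← hsq, hq1, mul_one]
    rw [hy0, sub_zero, mul_one] at hx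
    rw [hy0, hx, hsc]
    simp

open Polynomial in
/-- composition of a polynomial map with a polynomial curve -/
lemma comp_curve (f : Fin 3 → MvPolynomial (Fin 3) ℂ) (γ : Fin 3 → ℂ[X]) :
    ∃ δ : Fin 3 → ℂ[X], ∀ i t, (δ i).eval t =
      MvPolynomial.eval (fun j => (γ j).eval t) (f i) := by
  have key : ∀ (q : MvPolynomial (Fin 3) ℂ) (t : ℂ), (MvPolynomial.aeval γ q).eval t =
      MvPolynomial.eval (fun j => (γ j).eval t) q := by
    intro q t
    induction q using MvPolynomial.induction_on with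
    | C a => simp
    | add p q hp hq => simp only [map_add, Polynomial.eval_add, hp, hq]
    | mul_X p j hp => simp only [map_mul, Polynomial.eval_mul, hp, MvPolynomial.aeval_X,
        MvPolynomial.eval_X]
  exact ⟨fun i => MvPolynomial.aeval γ (f i), fun i t => key _ t⟩

/-- image of the two lines under an injective polynomial map between fibres -/
lemma line_image (c d : ℂ) (hd0 : d ≠ 0) (hd1 : d ≠ 1)
    (f g : Fin 3 → MvPolynomial (Fin 3) ℂ)
    (h : ∀ x : Fin 3 → ℂ, MvPolynomial.eval x p = c →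
              MvPolynomial.eval (fun i => MvPolynomial.eval x (f i)) p = d ∧
              (fun j => MvPolynomial.eval (fun i => MvPolynomial.eval x (f i)) (g j)) = x)
    (γ : Fin 3 → Polynomial ℂ)
    (hγ : ∀ t, MvPolynomial.eval (fun j => (γ j).eval t) p = c)
    (hinj : (fun j => (γ j).eval 0) ≠ (fun j => (γ j).eval 1)) :
    (∀ t, MvPolynomial.eval (fun j => (γ j).eval t) (f 1) = 1 ∧
      MvPolynomial.eval (fun j => (γ j).eval t) (f 2) = 1 - d) ∨
    (∀ t, MvPolynomial.eval (fun j => (γ j).eval t) (f 1) = 0 ∧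
      MvPolynomial.eval (fun j => (γ j).eval t) (f 0) = 1 - d) := by
  obtain ⟨δ, hδ⟩ := comp_curve f γ
  have h1 := curve_lemma d hd0 hd1 (δ 0) (δ 1) (δ 2) (by
    intro t
    rw [hδ, hδ, hδ]
    have := (h _ (hγ t)).1
    rw [eval_p] at this
    exact this) (by
    by_contra hcon
    push Not at hcon
    apply hinj
    have e0 := (h _ (hγ 0)).2
    have e1 := (h _ (hγ 1)).2
    rw [← e0, ← e1]
    have e : (fun i => MvPolynomial.eval (fun j => (γ j).eval 0) (f i)) =
        (fun i => MvPolynomial.eval (fun j => (γ j).eval 1) (f i)) := by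
      ext i
      rw [← hδ, ← hδ]
      have := hcon 0 1
      fin_cases i
      · exact this.1
      · exact this.2.1
      · exact this.2.2
    rw [e])
  rcases h1 with h1 | h1
  · left
    intro t
    rw [← hδ, ← hδ]
    exact h1 t
  · right
    intro t
    rw [← hδ, ← hδ]
    exact h1 t

lemma prime_zpow (a b : ℕ) (ha : a.Prime) (hb : b.Prime) (hab : a ≠ b) (m : ℤ) :
    (a : ℂ) ^ m ≠ b := by
  intro h
  obtain ⟨n, rfl | rfl⟩ := m.eq_nat_or_neg
  · rw [zpow_natCast] at h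
    have h2 : a ^ n = b := by exact_mod_cast h
    rcases Nat.eq_zero_or_pos n with rfl | hn
    · rw [pow_zero] at h2
      exact hb.one_lt.ne h2
    · have h3 : a ∣ b := by rw [← h2]; exact dvd_pow_self a hn.ne'
      exact hab ((Nat.prime_dvd_prime_iff_eq ha hb).1 h3)
  · rw [zpow_neg, zpow_natCast] at h
    have ha0 : (a : ℂ) ^ n ≠ 0 := pow_ne_zero n (by exact_mod_cast ha.ne_zero)
    have h1 : (1 : ℂ) = b * a ^ n := by
      rw [← h, inv_mul_cancel₀ ha0]
    have h2 : 1 = b * a ^ n := by exact_mod_cast h1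
    have h3 : b ∣ 1 := ⟨_, h2⟩
    exact hb.one_lt.ne' (Nat.dvd_one.1 h3)

/-- fibres over distinct primes are not isomorphic -/
lemma not_iso (a b : ℕ) (ha : a.Prime) (hb : b.Prime) (hab : a ≠ b) :
    ¬ ∃ f g : Fin 3 → MvPolynomial (Fin 3) ℂ,
          (∀ x : Fin 3 → ℂ, MvPolynomial.eval x p = (a : ℂ) →
              MvPolynomial.eval (fun i => MvPolynomial.eval x (f i)) p = (b : ℂ) ∧
              (fun j => MvPolynomial.eval (fun i => MvPolynomial.eval x (f i)) (g j)) = x) ∧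
          (∀ y : Fin 3 → ℂ, MvPolynomial.eval y p = (b : ℂ) →
              MvPolynomial.eval (fun i => MvPolynomial.eval y (g i)) p = (a : ℂ) ∧
              (fun j => MvPolynomial.eval (fun i => MvPolynomial.eval y (g i)) (f j)) = y) := by
  rintro ⟨f, g, hf, hg⟩
  have ha0 : (a : ℂ) ≠ 0 := by exact_mod_cast ha.ne_zero
  have hb0 : (b : ℂ) ≠ 0 := by exact_mod_cast hb.ne_zero
  have ha1 : (a : ℂ) ≠ 1 := by exact_mod_cast ha.one_lt.ne'
  have hb1 : (b : ℂ) ≠ 1 := by exact_mod_cast hb.one_lt.ne'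
  -- the function `r ∘ f`
  set R : MvPolynomial (Fin 3) ℂ := 1 - f 0 * (1 - f 1) with hR
  have hReval : ∀ v, MvPolynomial.eval v R =
      1 - MvPolynomial.eval v (f 0) * (1 - MvPolynomial.eval v (f 1)) := by
    intro v; simp [hR]
  have hRne : ∀ v : Fin 3 → ℂ, MvPolynomial.eval v p = (a : ℂ) → MvPolynomial.eval v R ≠ 0 := by
    intro v hv h0
    have := (hf v hv).1
    rw [eval_p] at this
    rw [hReval] at h0
    rw [h0, zero_mul] at this
    exact hb0 this.symm
  obtain ⟨m, hm⟩ := units_lemma a ha0 R hRne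
  -- curves
  let L1 : ℂ → Fin 3 → Polynomial ℂ := fun c => ![Polynomial.X, 1, Polynomial.C (1 - c)]
  let L2 : ℂ → Fin 3 → Polynomial ℂ := fun c => ![Polynomial.C (1 - c), 0, Polynomial.X]
  have L1e : ∀ c t, (fun j => (L1 c j).eval t) = ![t, 1, 1 - c] := by
    intro c t; ext i; fin_cases i <;> simp [L1]
  have L2e : ∀ c t, (fun j => (L2 c j).eval t) = ![1 - c, 0, t] := by
    intro c t; ext i; fin_cases i <;> simp [L2]
  have L1p : ∀ c t, MvPolynomial.eval (fun j => (L1 c j).eval t) p = c := by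
    intro c t; rw [L1e, eval_p]; simp
  have L2p : ∀ c t, MvPolynomial.eval (fun j => (L2 c j).eval t) p = c := by
    intro c t; rw [L2e, eval_p]; simp
  have L1i : ∀ c, (fun j => (L1 c j).eval 0) ≠ (fun j => (L1 c j).eval 1) := by
    intro c h; rw [L1e, L1e] at h
    have := congrFun h 0
    simp at this
  have L2i : ∀ c, (fun j => (L2 c j).eval 0) ≠ (fun j => (L2 c j).eval 1) := by
    intro c h; rw [L2e, L2e] at h
    have := congrFun h 2
    simp at this
  -- values of R on the two lines of the fibre over `a`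
  have hR1 : ∃ s1 : ℂ, (s1 = 1 ∨ s1 = b) ∧ ∀ t, MvPolynomial.eval ![t, 1, 1 - (a : ℂ)] R = s1 := by
    rcases line_image a b hb0 hb1 f g hf (L1 a) (L1p a) (L1i a) with h | h
    · refine ⟨1, Or.inl rfl, fun t => ?_⟩
      have := (h t).1
      rw [L1e] at this
      rw [hReval, this]; simp
    · refine ⟨b, Or.inr rfl, fun t => ?_⟩
      have := h t
      rw [L1e] at this
      rw [hReval, this.1, this.2]; simp
  have hR2 : ∃ s2 : ℂ, (s2 = 1 ∨ s2 = b) ∧ ∀ t, MvPolynomial.eval ![1 - (a : ℂ), 0, t] R = s2 := by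
    rcases line_image a b hb0 hb1 f g hf (L2 a) (L2p a) (L2i a) with h | h
    · refine ⟨1, Or.inl rfl, fun t => ?_⟩
      have := (h t).1
      rw [L2e] at this
      rw [hReval, this]; simp
    · refine ⟨b, Or.inr rfl, fun t => ?_⟩
      have := h t
      rw [L2e] at this
      rw [hReval, this.1, this.2]; simp
  obtain ⟨s1, hs1, hs1'⟩ := hR1
  obtain ⟨s2, hs2, hs2'⟩ := hR2
  rw [hs1', hs2'] at hm
  -- each value of `r` on the lines of the other fibre is attained
  have key : ∀ (γ : Fin 3 → Polynomial ℂ)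
      (_ : ∀ t, MvPolynomial.eval (fun j => (γ j).eval t) p = (b : ℂ))
      (_ : (fun j => (γ j).eval 0) ≠ (fun j => (γ j).eval 1)),
      MvPolynomial.eval (fun j => (γ j).eval 0) r = s1 ∨
      MvPolynomial.eval (fun j => (γ j).eval 0) r = s2 := by
    intro γ hγ hγi
    have hback := (hg _ (hγ 0)).2
    have e1 : MvPolynomial.eval (fun j => (γ j).eval 0) r =
        MvPolynomial.eval (fun i => MvPolynomial.eval (fun j => (γ j).eval 0) (g i)) R := by
      rw [hReval, eval_r]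
      have h0 : MvPolynomial.eval (fun i => MvPolynomial.eval (fun j => (γ j).eval 0) (g i)) (f 0)
          = (γ 0).eval 0 := congrFun hback 0
      have h1 : MvPolynomial.eval (fun i => MvPolynomial.eval (fun j => (γ j).eval 0) (g i)) (f 1)
          = (γ 1).eval 0 := congrFun hback 1
      rw [h0, h1]
    rcases line_image b a ha0 ha1 g f hg γ hγ hγi with h | h
    · left
      rw [e1]
      have e2 : (fun i => MvPolynomial.eval (fun j => (γ j).eval 0) (g i)) =
          ![MvPolynomial.eval (fun j => (γ j).eval 0) (g 0), 1, 1 - (a : ℂ)] := by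
        ext i
        fin_cases i
        · rfl
        · exact (h 0).1
        · exact (h 0).2
      rw [e2, hs1']
    · right
      rw [e1]
      have e2 : (fun i => MvPolynomial.eval (fun j => (γ j).eval 0) (g i)) =
          ![1 - (a : ℂ), 0, MvPolynomial.eval (fun j => (γ j).eval 0) (g 2)] := by
        ext i
        fin_cases i
        · exact (h 0).2
        · exact (h 0).1
        · rfl
      rw [e2, hs2']
  have k1 := key (L1 b) (L1p b) (L1i b)
  have k2 := key (L2 b) (L2p b) (L2i b)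
  rw [L1e, eval_r] at k1
  rw [L2e, eval_r] at k2
  simp at k1 k2
  have hcases : (s1 = 1 ∧ s2 = b) ∨ (s1 = b ∧ s2 = 1) := by
    rcases hs1 with rfl | rfl <;> rcases hs2 with rfl | rfl
    · rcases k2 with h | h <;> exact absurd h hb1
    · exact Or.inl ⟨rfl, rfl⟩
    · exact Or.inr ⟨rfl, rfl⟩
    · rcases k1 with h | h <;> exact absurd h.symm hb1
  rcases hcases with ⟨rfl, rfl⟩ | ⟨rfl, rfl⟩
  · rw [mul_one] at hm
    exact prime_zpow a b ha hb hab m hm.symm
  · have h1 : (a : ℂ) ^ (-m) = b := by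
      rw [zpow_neg]
      field_simp
      exact hm
    exact prime_zpow a b ha hb hab (-m) h1

/-! ### contractibility of the zero set -/

noncomputable def Zf (y : ℂ) : ℂ := (starRingEnd ℂ) y / ((max (‖y‖ ^ 2) (1 / 4) : ℝ) : ℂ)

lemma Zf_cont : Continuous Zf := by
  unfold Zf
  apply Continuous.div
  · exact Complex.continuous_conj
  · exact Complex.continuous_ofReal.comp ((continuous_norm.pow 2).max continuous_const)
  · intro y
    have : 0 < max (‖y‖ ^ 2) (1 / 4) := lt_max_of_lt_right (by norm_num)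
    exact_mod_cast this.ne'

lemma Zf_one {y : ℂ} (hy : 1 / 2 ≤ ‖y‖) : Zf y * y = 1 := by
  unfold Zf
  have h1 : (1 / 4 : ℝ) ≤ ‖y‖ ^ 2 := by nlinarith
  have hy0 : y ≠ 0 := by
    rintro rfl
    simp at hy
    linarith
  rw [max_eq_left h1]
  have h2 : ((‖y‖ ^ 2 : ℝ) : ℂ) = (starRingEnd ℂ) y * y := by
    rw [mul_comm, Complex.mul_conj, Complex.normSq_eq_norm_sq]
  rw [h2]
  have h3 : (starRingEnd ℂ) y ≠ 0 := (map_ne_zero _).2 hy0
  field_simp

/-- the homotopy on `ℂ³` -/
noncomputable def HH (t : ℝ) (v : Fin 3 → ℂ) : Fin 3 → ℂ :=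
  ![(1 - t * (Zf (1 - v 1) * (1 - v 1))) * v 0 + t * Zf (1 - v 1), v 1,
    (1 - t * (Zf (v 1) * v 1)) * v 2 + t * Zf (v 1)]

lemma HH_cont : Continuous (fun q : ℝ × (Fin 3 → ℂ) => HH q.1 q.2) := by
  unfold HH
  have h0 : Continuous (fun q : ℝ × (Fin 3 → ℂ) => (q.1 : ℂ)) :=
    Complex.continuous_ofReal.comp continuous_fst
  have hi : ∀ i, Continuous (fun q : ℝ × (Fin 3 → ℂ) => q.2 i) :=
    fun i => (continuous_apply i).comp continuous_snd
  have hZ1 : Continuous (fun q : ℝ × (Fin 3 → ℂ) => Zf (1 - q.2 1)) :=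
    Zf_cont.comp (continuous_const.sub (hi 1))
  have hZ2 : Continuous (fun q : ℝ × (Fin 3 → ℂ) => Zf (q.2 1)) := Zf_cont.comp (hi 1)
  apply continuous_pi
  intro i
  fin_cases i
  · exact ((continuous_const.sub (h0.mul (hZ1.mul (continuous_const.sub (hi 1))))).mul (hi 0)).add
      (h0.mul hZ1)
  · exact hi 1
  · exact ((continuous_const.sub (h0.mul (hZ2.mul (hi 1)))).mul (hi 2)).add
      (h0.mul hZ2)

lemma HH_mem (t : ℝ) (v : Fin 3 → ℂ) (hv : MvPolynomial.eval v p = 0) :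
    MvPolynomial.eval (HH t v) p = 0 := by
  rw [eval_p] at hv ⊢
  rcases mul_eq_zero.1 hv with h | h
  · have : (1 - HH t v 0 * (1 - HH t v 1)) = 0 := by
      change 1 - ((1 - t * (Zf (1 - v 1) * (1 - v 1))) * v 0 + t * Zf (1 - v 1)) * (1 - v 1) = 0
      linear_combination (1 - t * (Zf (1 - v 1) * (1 - v 1))) * h
    rw [this, zero_mul]
  · have : (1 - HH t v 1 * HH t v 2) = 0 := by
      change 1 - v 1 * ((1 - t * (Zf (v 1) * v 1)) * v 2 + t * Zf (v 1)) = 0
      linear_combination (1 - t * (Zf (v 1) * v 1)) * h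
    rw [this, mul_zero]

lemma HH_one_mem (v : Fin 3 → ℂ) : MvPolynomial.eval (HH 1 v) p = 0 := by
  rw [eval_p]
  by_cases h : 1 / 2 ≤ ‖v 1‖
  · have h1 := Zf_one h
    have : (1 - HH 1 v 1 * HH 1 v 2) = 0 := by
      change 1 - v 1 * ((1 - (1 : ℝ) * (Zf (v 1) * v 1)) * v 2 + (1 : ℝ) * Zf (v 1)) = 0
      rw [h1]
      push_cast
      linear_combination -h1
    rw [this, mul_zero]
  · have h2 : 1 / 2 ≤ ‖1 - v 1‖ := by
      push Not at h
      have := norm_sub_norm_le (1 : ℂ) (v 1)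
      rw [norm_one] at this
      linarith
    have h1 := Zf_one h2
    have : (1 - HH 1 v 0 * (1 - HH 1 v 1)) = 0 := by
      change 1 - ((1 - (1 : ℝ) * (Zf (1 - v 1) * (1 - v 1))) * v 0 +
        (1 : ℝ) * Zf (1 - v 1)) * (1 - v 1) = 0
      rw [h1]
      push_cast
      linear_combination -h1
    rw [this, zero_mul]

lemma HH_zero (v : Fin 3 → ℂ) : HH 0 v = v := by
  ext i
  fin_cases i <;> simp [HH]

abbrev XX := {x : Fin 3 → ℂ // MvPolynomial.eval x p = 0}

attribute [irreducible] HH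

lemma HH1_cont : Continuous (fun v : Fin 3 → ℂ => HH 1 v) := by
  have h : Continuous (fun v : Fin 3 → ℂ => ((1 : ℝ), v)) := by fun_prop
  exact HH_cont.comp h

lemma HHI_cont : Continuous (fun q : unitInterval × XX => HH (q.1 : ℝ) (q.2 : Fin 3 → ℂ)) := by
  have h : Continuous (fun q : unitInterval × XX => ((q.1 : ℝ), (q.2 : Fin 3 → ℂ))) := by fun_prop
  exact HH_cont.comp h

lemma contractible : ContractibleSpace XX := by
  rw [contractible_iff_id_nullhomotopic]
  let g : C(Fin 3 → ℂ, XX) := ⟨fun v => ⟨HH 1 v, HH_one_mem v⟩, HH1_cont.subtype_mk _⟩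
  let i : C(XX, Fin 3 → ℂ) := ⟨Subtype.val, continuous_subtype_val⟩
  let F : C(unitInterval × XX, XX) := ⟨fun q => ⟨HH (q.1 : ℝ) (q.2 : Fin 3 → ℂ),
    HH_mem _ _ q.2.2⟩, HHI_cont.subtype_mk _⟩
  have hF0 : ∀ x, F (0, x) = ContinuousMap.id XX x := by
    intro x
    apply Subtype.ext
    change HH ((0 : unitInterval) : ℝ) x = x
    rw [Set.Icc.coe_zero, HH_zero]
  have hF1 : ∀ x, F (1, x) = (g.comp i) x := by
    intro x
    apply Subtype.ext
    change HH ((1 : unitInterval) : ℝ) x = HH 1 x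
    rw [Set.Icc.coe_one]
  have h1 : (ContinuousMap.id XX).Homotopic (g.comp i) := ⟨⟨F, hF0, hF1⟩⟩
  obtain ⟨y, hy⟩ := id_nullhomotopic (Fin 3 → ℂ)
  have h2 : (g.comp ((ContinuousMap.id _).comp i)).Homotopic
      (g.comp ((ContinuousMap.const _ y).comp i)) :=
    ContinuousMap.Homotopic.comp (ContinuousMap.Homotopic.refl g)
      (ContinuousMap.Homotopic.comp hy (ContinuousMap.Homotopic.refl i))
  refine ⟨g y, ?_⟩
  refine h1.trans ?_
  exact h2

theorem main :
    ¬ (∀ (n : ℕ) (p : MvPolynomial (Fin n) ℂ),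
      ContractibleSpace {x : Fin n → ℂ // MvPolynomial.eval x p = 0} →
      ∃ S : Finset ℂ, ∀ c d : ℂ, c ∉ S → d ∉ S →
        ∃ f g : Fin n → MvPolynomial (Fin n) ℂ,
          (∀ x : Fin n → ℂ, MvPolynomial.eval x p = c →
              MvPolynomial.eval (fun i => MvPolynomial.eval x (f i)) p = d ∧
              (fun j => MvPolynomial.eval (fun i => MvPolynomial.eval x (f i)) (g j)) = x) ∧
          (∀ y : Fin n → ℂ, MvPolynomial.eval y p = d →
              MvPolynomial.eval (fun i => MvPolynomial.eval y (g i)) p = c ∧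
              (fun j => MvPolynomial.eval (fun i => MvPolynomial.eval y (g i)) (f j)) = y)) := by
  intro hall
  obtain ⟨S, hS⟩ := hall 3 p contractible
  have hinf : (((fun n : ℕ => (n : ℂ)) '' {q : ℕ | q.Prime})).Infinite :=
    Nat.infinite_setOfPred_prime.image (Nat.cast_injective.injOn)
  obtain ⟨_, ⟨a, ha, rfl⟩, haS⟩ := hinf.exists_notMem_finset S
  classical
  obtain ⟨_, ⟨b, hb, rfl⟩, hbS⟩ := hinf.exists_notMem_finset (insert (a : ℂ) S)
  rw [Finset.mem_insert, not_or] at hbS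
  have hab : a ≠ b := by
    rintro rfl
    exact hbS.1 rfl
  exact not_iso a b ha hb hab (hS a b haS hbS.2)

end Pool.Agent.H26.Iso
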