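import Pool.Agent.H26.IrrMain
import Pool.Agent.H26.Iso

set_option autoImplicit false

namespace Pool.Agent.H26.Irr

open Filter Topology Set
open Pool.Agent.H26.Iso (Zf Zf_cont Zf_one)

/-- the real factor `|y|² / max(|y|², 1/4)` -/
noncomputable def wt (y : ℂ) : ℝ := ‖y‖ ^ 2 / max (‖y‖ ^ 2) (1 / 4)

lemma wt_cont : Continuous wt := by
  unfold wt
  apply Continuous.div
  · exact continuous_norm.pow 2
  · exact (continuous_norm.pow 2).max continuous_const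
  · intro y
    have : 0 < max (‖y‖ ^ 2) (1 / 4) := lt_max_of_lt_right (by norm_num)
    exact this.ne'

lemma wt_le (y : ℂ) : wt y ≤ 1 := by
  unfold wt
  have : 0 < max (‖y‖ ^ 2) (1 / 4) := lt_max_of_lt_right (by norm_num)
  rw [div_le_one this]
  exact le_max_left _ _

lemma wt_nonneg (y : ℂ) : 0 ≤ wt y := by
  unfold wt
  have : 0 < max (‖y‖ ^ 2) (1 / 4) := lt_max_of_lt_right (by norm_num)
  positivity

lemma Zf_mul (y : ℂ) : Zf y * y = (wt y : ℂ) := by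
  unfold Zf wt
  push_cast
  have h2 : ((‖y‖ : ℂ)) ^ 2 = (starRingEnd ℂ) y * y := by
    have : ((‖y‖ ^ 2 : ℝ) : ℂ) = (starRingEnd ℂ) y * y := by
      rw [mul_comm, Complex.mul_conj, Complex.normSq_eq_norm_sq]
    rw [← this]; push_cast; rfl
  rw [h2]
  ring

lemma wt_one {y : ℂ} (hy : 1 / 2 ≤ ‖y‖) : wt y = 1 := by
  have h := Zf_one hy
  rw [Zf_mul] at h
  exact_mod_cast h

/-- the scaling factor of `1 - x (1 - y)` -/
noncomputable def ra (t : ℝ) (y : ℂ) : ℝ := 1 - t * wt (1 - y)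

/-- the scaling factor of `1 - y z` -/
noncomputable def rb (t : ℝ) (y : ℂ) : ℝ := 1 - t * wt y

/-- the homotopy on `ℂ⁴` -/
noncomputable def HK (t : ℝ) (v : Fin 4 → ℂ) : Fin 4 → ℂ :=
  ![((ra t (v 2) * (rb t (v 2) * Real.sqrt (rb t (v 2))) : ℝ) : ℂ) * v 0,
    v 1 + t * Zf (1 - v 2) * (1 - v 1 * (1 - v 2)), v 2,
    v 3 + t * Zf (v 2) * (1 - v 2 * v 3)]

lemma HK_cont : Continuous (fun q : ℝ × (Fin 4 → ℂ) => HK q.1 q.2) := by
  unfold HK ra rb
  have h0 : Continuous (fun q : ℝ × (Fin 4 → ℂ) => (q.1 : ℂ)) :=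
    Complex.continuous_ofReal.comp continuous_fst
  have hi : ∀ i, Continuous (fun q : ℝ × (Fin 4 → ℂ) => q.2 i) :=
    fun i => (continuous_apply i).comp continuous_snd
  have hZ1 : Continuous (fun q : ℝ × (Fin 4 → ℂ) => Zf (1 - q.2 2)) :=
    Zf_cont.comp (continuous_const.sub (hi 2))
  have hZ2 : Continuous (fun q : ℝ × (Fin 4 → ℂ) => Zf (q.2 2)) := Zf_cont.comp (hi 2)
  have hW1 : Continuous (fun q : ℝ × (Fin 4 → ℂ) => wt (1 - q.2 2)) :=
    wt_cont.comp (continuous_const.sub (hi 2))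
  have hW2 : Continuous (fun q : ℝ × (Fin 4 → ℂ) => wt (q.2 2)) := wt_cont.comp (hi 2)
  have hA : Continuous (fun q : ℝ × (Fin 4 → ℂ) => 1 - q.1 * wt (1 - q.2 2)) :=
    continuous_const.sub (continuous_fst.mul hW1)
  have hB : Continuous (fun q : ℝ × (Fin 4 → ℂ) => 1 - q.1 * wt (q.2 2)) :=
    continuous_const.sub (continuous_fst.mul hW2)
  apply continuous_pi
  intro i
  fin_cases i
  · exact (Complex.continuous_ofReal.comp (hA.mul (hB.mul (Real.continuous_sqrt.comp hB)))).mul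
      (hi 0)
  · exact (hi 1).add ((h0.mul hZ1).mul
      (continuous_const.sub ((hi 1).mul (continuous_const.sub (hi 2)))))
  · exact hi 2
  · exact (hi 3).add ((h0.mul hZ2).mul (continuous_const.sub ((hi 2).mul (hi 3))))

lemma HK_eval (t : ℝ) (ht0 : 0 ≤ t) (ht : t ≤ 1) (v : Fin 4 → ℂ) :
    MvPolynomial.eval (HK t v) pp =
      ((ra t (v 2) ^ 2 * rb t (v 2) ^ 3 : ℝ) : ℂ) * MvPolynomial.eval v pp := by
  rw [eval_pp, eval_pp]
  have hb : 0 ≤ rb t (v 2) := by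
    unfold rb
    have := mul_le_one₀ ht (wt_nonneg (v 2)) (wt_le (v 2))
    linarith
  have hsq : Real.sqrt (rb t (v 2)) ^ 2 = rb t (v 2) := Real.sq_sqrt hb
  have hsqC : ((Real.sqrt (rb t (v 2)) : ℝ) : ℂ) ^ 2 = ((rb t (v 2) : ℝ) : ℂ) := by
    exact_mod_cast hsq
  have e1 : 1 - HK t v 1 * (1 - HK t v 2) = (ra t (v 2) : ℂ) * (1 - v 1 * (1 - v 2)) := by
    change 1 - (v 1 + t * Zf (1 - v 2) * (1 - v 1 * (1 - v 2))) * (1 - v 2) = _
    unfold ra
    push_cast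
    rw [← Zf_mul (1 - v 2)]
    ring
  have e2 : 1 - HK t v 2 * HK t v 3 = (rb t (v 2) : ℂ) * (1 - v 2 * v 3) := by
    change 1 - v 2 * (v 3 + t * Zf (v 2) * (1 - v 2 * v 3)) = _
    unfold rb
    push_cast
    rw [← Zf_mul (v 2)]
    ring
  rw [e1, e2]
  change (((ra t (v 2) * (rb t (v 2) * Real.sqrt (rb t (v 2))) : ℝ) : ℂ) * v 0) ^ 2 + _ = _
  push_cast
  linear_combination ((ra t (v 2) : ℂ) ^ 2 * (rb t (v 2) : ℂ) ^ 2 * (v 0) ^ 2) * hsqC

lemma HK_mem (t : ℝ) (ht0 : 0 ≤ t) (ht : t ≤ 1) (v : Fin 4 → ℂ)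
    (hv : MvPolynomial.eval v pp = 0) : MvPolynomial.eval (HK t v) pp = 0 := by
  rw [HK_eval t ht0 ht, hv, mul_zero]

lemma HK_one_mem (v : Fin 4 → ℂ) : MvPolynomial.eval (HK 1 v) pp = 0 := by
  rw [HK_eval 1 zero_le_one le_rfl]
  have : ra 1 (v 2) = 0 ∨ rb 1 (v 2) = 0 := by
    by_cases h : 1 / 2 ≤ ‖v 2‖
    · right
      unfold rb
      rw [wt_one h]; ring
    · left
      have h2 : 1 / 2 ≤ ‖1 - v 2‖ := by
        push Not at h
        have := norm_sub_norm_le (1 : ℂ) (v 2)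
        rw [norm_one] at this
        linarith
      unfold ra
      rw [wt_one h2]; ring
  rcases this with h | h <;> rw [h] <;> simp

lemma HK_zero (v : Fin 4 → ℂ) : HK 0 v = v := by
  ext i
  fin_cases i <;> simp [HK, ra, rb]

abbrev XX := {x : Fin 4 → ℂ // MvPolynomial.eval x pp = 0}

attribute [irreducible] HK

lemma HK1_cont : Continuous (fun v : Fin 4 → ℂ => HK 1 v) := by
  have h : Continuous (fun v : Fin 4 → ℂ => ((1 : ℝ), v)) := by fun_prop
  exact HK_cont.comp h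

lemma HKI_cont : Continuous (fun q : unitInterval × XX => HK (q.1 : ℝ) (q.2 : Fin 4 → ℂ)) := by
  have h : Continuous (fun q : unitInterval × XX => ((q.1 : ℝ), (q.2 : Fin 4 → ℂ))) := by fun_prop
  exact HK_cont.comp h

lemma contractible : ContractibleSpace XX := by
  rw [contractible_iff_id_nullhomotopic]
  let g : C(Fin 4 → ℂ, XX) := ⟨fun v => ⟨HK 1 v, HK_one_mem v⟩, HK1_cont.subtype_mk _⟩
  let i : C(XX, Fin 4 → ℂ) := ⟨Subtype.val, continuous_subtype_val⟩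
  let F : C(unitInterval × XX, XX) := ⟨fun q => ⟨HK (q.1 : ℝ) (q.2 : Fin 4 → ℂ),
    HK_mem _ q.1.2.1 q.1.2.2 _ q.2.2⟩, HKI_cont.subtype_mk _⟩
  have hF0 : ∀ x, F (0, x) = ContinuousMap.id XX x := by
    intro x
    apply Subtype.ext
    change HK ((0 : unitInterval) : ℝ) x = x
    rw [Set.Icc.coe_zero, HK_zero]
  have hF1 : ∀ x, F (1, x) = (g.comp i) x := by
    intro x
    apply Subtype.ext
    change HK ((1 : unitInterval) : ℝ) x = HK 1 x
    rw [Set.Icc.coe_one]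
  have h1 : (ContinuousMap.id XX).Homotopic (g.comp i) := ⟨⟨F, hF0, hF1⟩⟩
  obtain ⟨y, hy⟩ := id_nullhomotopic (Fin 4 → ℂ)
  have h2 : (g.comp ((ContinuousMap.id _).comp i)).Homotopic
      (g.comp ((ContinuousMap.const _ y).comp i)) :=
    ContinuousMap.Homotopic.comp (ContinuousMap.Homotopic.refl g)
      (ContinuousMap.Homotopic.comp hy (ContinuousMap.Homotopic.refl i))
  refine ⟨g y, ?_⟩
  refine h1.trans ?_
  exact h2

end Pool.Agent.H26.Irr
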