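import Pool.Agent.H26.IsiDefs

set_option autoImplicit false

namespace Pool.Agent.H26.Isi

open Set Filter Topology

universe u v

section general
variable {Y : Type u} {E : Type v} [TopologicalSpace Y] [TopologicalSpace E]

lemma perfect_nhd {h : Y → E} (hh : IsPerfect h) (e : E) (U : Set Y) (hU : IsOpen U)
    (hsub : h ⁻¹' {e} ⊆ U) : IsOpen (h '' Uᶜ)ᶜ ∧ e ∈ (h '' Uᶜ)ᶜ ∧ h ⁻¹' (h '' Uᶜ)ᶜ ⊆ U := by
  refine ⟨(hh.2.1 _ hU.isClosed_compl).isOpen_compl, ?_, ?_⟩
  · rintro ⟨y, hy, rfl⟩
    exact hy (hsub rfl)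
  · intro y hy
    by_contra hyU
    exact hy ⟨y, hyU, rfl⟩

lemma perfect_t2 [T2Space Y] {h : Y → E} (hh : IsPerfect h) : T2Space E := by
  refine ⟨fun e e' hne => ?_⟩
  have hd : Disjoint (h ⁻¹' {e}) (h ⁻¹' {e'}) := by
    apply Disjoint.preimage
    simpa using hne
  obtain ⟨U, V, hU, hV, hKU, hKV, hUV⟩ :=
    SeparatedNhds.of_isCompact_isCompact (hh.2.2.2 e) (hh.2.2.2 e') hd
  obtain ⟨o1, m1, s1⟩ := perfect_nhd hh e U hU hKU
  obtain ⟨o2, m2, s2⟩ := perfect_nhd hh e' V hV hKV
  refine ⟨_, _, o1, o2, m1, m2, ?_⟩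
  rw [Set.disjoint_left]
  intro x hx1 hx2
  obtain ⟨y, rfl⟩ := hh.2.2.1 x
  exact (Set.disjoint_left.1 hUV) (s1 hx1) (s2 hx2)

lemma perfect_wlc [WeaklyLocallyCompactSpace Y] {h : Y → E} (hh : IsPerfect h) :
    WeaklyLocallyCompactSpace E := by
  refine ⟨fun e => ?_⟩
  obtain ⟨K, hK, hsub⟩ := exists_compact_superset (hh.2.2.2 e)
  obtain ⟨o1, m1, s1⟩ := perfect_nhd hh e (interior K) isOpen_interior hsub
  refine ⟨h '' K, hK.image hh.1, ?_⟩
  refine mem_of_superset (o1.mem_nhds m1) ?_
  intro x hx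
  obtain ⟨y, rfl⟩ := hh.2.2.1 x
  exact ⟨y, interior_subset (s1 hx), rfl⟩

end general

abbrev Q : Type := ℕ × List Bool
abbrev A : Type := ℕ × (ℕ → Bool)

def qq (a : A) (m : ℕ) : Q := (a.1, (List.range m).map a.2)

lemma qq_len (a : A) (m : ℕ) : (qq a m).2.length = m := by simp [qq]

lemma qq_inj {a b : A} {m m' : ℕ} (h : qq a m = qq b m') : m = m' := by
  have := congrArg (fun q : Q => q.2.length) h
  simpa [qq_len] using this

lemma qq_ad {a b : A} (h : a ≠ b) : ∃ M, ∀ m m', M ≤ m → M ≤ m' → qq a m ≠ qq b m' := by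
  obtain ⟨k, z⟩ := a
  obtain ⟨l, w⟩ := b
  by_cases hk : k = l
  · subst hk
    have hz : z ≠ w := fun e => h (by rw [e])
    obtain ⟨n, hn⟩ := Function.ne_iff.1 hz
    refine ⟨n + 1, fun m m' hm hm' he => hn ?_⟩
    have hmm := qq_inj he
    subst hmm
    have h2 : (List.range m).map z = (List.range m).map w := congrArg Prod.snd he
    have h3 := List.map_inj_left.1 h2 n (List.mem_range.2 (by omega))
    exact h3
  · exact ⟨0, fun m m' _ _ he => hk (congrArg Prod.fst he)⟩

inductive XX : Type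
  | pt (q : Q) (x : A → Bool) : XX
  | nd (a : A) (i : Bool) : XX

inductive YY : Type
  | pt (q : Q) (x : A → Bool) : YY
  | nd (a : A) : YY

inductive DD : Type
  | pt (q : Q) : DD
  | nd (a : A) : DD

instance : TopologicalSpace XX where
  IsOpen U := (∀ q, IsOpen {x | XX.pt q x ∈ U}) ∧
    ∀ a i, XX.nd a i ∈ U → ∃ M, ∀ m, M ≤ m → ∀ x : A → Bool, x a = i → XX.pt (qq a m) x ∈ U
  isOpen_univ := by
    refine ⟨fun q => by simp, fun a i _ => ⟨0, fun _ _ _ _ => trivial⟩⟩
  isOpen_inter := by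
    rintro U V ⟨hU1, hU2⟩ ⟨hV1, hV2⟩
    refine ⟨fun q => (hU1 q).inter (hV1 q), ?_⟩
    rintro a i ⟨h1, h2⟩
    obtain ⟨M, hM⟩ := hU2 a i h1
    obtain ⟨N, hN⟩ := hV2 a i h2
    exact ⟨max M N, fun m hm x hx => ⟨hM m (le_trans (le_max_left _ _) hm) x hx,
      hN m (le_trans (le_max_right _ _) hm) x hx⟩⟩
  isOpen_sUnion := by
    intro S hS
    refine ⟨fun q => ?_, ?_⟩
    · have : {x | XX.pt q x ∈ ⋃₀ S} = ⋃ U ∈ S, {x | XX.pt q x ∈ U} := by
        ext x; simp
      rw [this]
      exact isOpen_biUnion fun U hU => (hS U hU).1 q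
    · rintro a i ⟨U, hU, hmem⟩
      obtain ⟨M, hM⟩ := (hS U hU).2 a i hmem
      exact ⟨M, fun m hm x hx => ⟨U, hU, hM m hm x hx⟩⟩

lemma isOpen_XX {U : Set XX} : IsOpen U ↔ (∀ q, IsOpen {x | XX.pt q x ∈ U}) ∧
    ∀ a i, XX.nd a i ∈ U → ∃ M, ∀ m, M ≤ m → ∀ x : A → Bool, x a = i → XX.pt (qq a m) x ∈ U :=
  Iff.rfl

instance : TopologicalSpace DD where
  IsOpen U := ∀ a, DD.nd a ∈ U → ∃ M, ∀ m, M ≤ m → DD.pt (qq a m) ∈ U
  isOpen_univ := fun a _ => ⟨0, fun _ _ => trivial⟩
  isOpen_inter := by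
    rintro U V hU hV a ⟨h1, h2⟩
    obtain ⟨M, hM⟩ := hU a h1
    obtain ⟨N, hN⟩ := hV a h2
    exact ⟨max M N, fun m hm => ⟨hM m (le_trans (le_max_left _ _) hm),
      hN m (le_trans (le_max_right _ _) hm)⟩⟩
  isOpen_sUnion := by
    rintro S hS a ⟨U, hU, hmem⟩
    obtain ⟨M, hM⟩ := hS U hU a hmem
    exact ⟨M, fun m hm => ⟨U, hU, hM m hm⟩⟩

lemma isOpen_DD {U : Set DD} : IsOpen U ↔ ∀ a, DD.nd a ∈ U → ∃ M, ∀ m, M ≤ m →
    DD.pt (qq a m) ∈ U := Iff.rfl

def ff : XX → YY
  | XX.pt q x => YY.pt q x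
  | XX.nd a i => YY.nd (a.1 + i.toNat, a.2)

def gg : XX → DD
  | XX.pt q _ => DD.pt q
  | XX.nd a _ => DD.nd a

instance : TopologicalSpace YY := TopologicalSpace.coinduced ff inferInstance

lemma isOpen_YY {U : Set YY} : IsOpen U ↔ IsOpen (ff ⁻¹' U) := isOpen_coinduced

/-- the slice over `q` -/
def slice (q : Q) : Set XX := {p | ∃ x, p = XX.pt q x}

lemma isOpen_slice (q : Q) : IsOpen (slice q) := by
  rw [isOpen_XX]
  refine ⟨fun q' => ?_, ?_⟩
  · by_cases h : q' = q
    · subst h
      have : {x : A → Bool | XX.pt q' x ∈ slice q'} = univ := by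
        ext x; simp [slice]
      rw [this]; exact isOpen_univ
    · have : {x : A → Bool | XX.pt q' x ∈ slice q} = ∅ := by
        ext x; simp [slice, h]
      rw [this]; exact isOpen_empty
  · rintro a i ⟨x, hx⟩
    exact absurd hx (by simp)

lemma isOpen_slice_compl (q : Q) : IsOpen (slice q)ᶜ := by
  rw [isOpen_XX]
  refine ⟨fun q' => ?_, ?_⟩
  · by_cases h : q' = q
    · subst h
      have : {x : A → Bool | XX.pt q' x ∈ (slice q')ᶜ} = ∅ := by
        ext x; simp [slice]
      rw [this]; exact isOpen_empty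
    · have : {x : A → Bool | XX.pt q' x ∈ (slice q)ᶜ} = univ := by
        ext x; simp [slice, h]
      rw [this]; exact isOpen_univ
  · intro a i _
    refine ⟨q.2.length + 1, fun m hm x _ => ?_⟩
    rintro ⟨y, hy⟩
    have h1 : qq a m = q := by injection hy
    have h2 := qq_len a m
    rw [h1] at h2
    omega

/-- basic neighbourhood of a node -/
def bn (a : A) (i : Bool) (M : ℕ) : Set XX :=
  {p | p = XX.nd a i ∨ ∃ m, M ≤ m ∧ ∃ x : A → Bool, x a = i ∧ p = XX.pt (qq a m) x}

lemma isOpen_bn (a : A) (i : Bool) (M : ℕ) : IsOpen (bn a i M) := by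
  rw [isOpen_XX]
  refine ⟨fun q => ?_, ?_⟩
  · by_cases h : ∃ m, M ≤ m ∧ q = qq a m
    · obtain ⟨m, hm, rfl⟩ := h
      have : {x : A → Bool | XX.pt (qq a m) x ∈ bn a i M} = {x | x a = i} := by
        ext x
        simp only [bn, mem_ofPred_eq, reduceCtorEq, XX.pt.injEq, false_or]
        constructor
        · rintro ⟨m', _, y, hy, _, rfl⟩
          exact hy
        · intro hx
          exact ⟨m, hm, x, hx, rfl, rfl⟩
      rw [this]
      have hc : Continuous (fun x : A → Bool => x a) := continuous_apply a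
      exact (isOpen_discrete ({i} : Set Bool)).preimage hc
    · have : {x : A → Bool | XX.pt q x ∈ bn a i M} = ∅ := by
        ext x
        simp only [bn, mem_ofPred_eq, reduceCtorEq, XX.pt.injEq, false_or, mem_empty_iff_false,
          iff_false]
        rintro ⟨m', hm', y, hy, hq, rfl⟩
        exact h ⟨m', hm', hq⟩
      rw [this]; exact isOpen_empty
  · rintro b j (hb | ⟨m, _, x, _, hb⟩)
    · injection hb with h1 h2
      subst h1; subst h2
      exact ⟨M, fun m hm x hx => Or.inr ⟨m, hm, x, hx, rfl⟩⟩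
    · exact absurd hb (by simp)

lemma mem_bn (a : A) (i : Bool) (M : ℕ) : XX.nd a i ∈ bn a i M := Or.inl rfl

instance : T2Space XX := by
  refine ⟨?_⟩
  have key : ∀ q x a i, ∃ u v : Set XX, IsOpen u ∧ IsOpen v ∧ XX.pt q x ∈ u ∧ XX.nd a i ∈ v ∧
      Disjoint u v := by
    intro q x a i
    refine ⟨slice q, (slice q)ᶜ, isOpen_slice q, isOpen_slice_compl q, ⟨x, rfl⟩, ?_,
      disjoint_compl_right⟩
    rintro ⟨y, hy⟩
    exact absurd hy (by simp)
  intro p p' hne
  cases p with
  | pt q x =>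
    cases p' with
    | pt q' x' =>
      by_cases hq : q = q'
      · subst hq
        have hx : x ≠ x' := fun e => hne (by rw [e])
        obtain ⟨u, v, hu, hv, hxu, hxv, huv⟩ := t2_separation hx
        have hop : ∀ w : Set (A → Bool), IsOpen w → IsOpen {p : XX | ∃ y ∈ w, p = XX.pt q y} := by
          intro w hw
          rw [isOpen_XX]
          refine ⟨fun q' => ?_, ?_⟩
          · by_cases h : q' = q
            · subst h
              have : {x : A → Bool | XX.pt q' x ∈ {p : XX | ∃ y ∈ w, p = XX.pt q' y}} = w := by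
                ext x; simp
              rw [this]; exact hw
            · have : {x : A → Bool | XX.pt q' x ∈ {p : XX | ∃ y ∈ w, p = XX.pt q y}} = ∅ := by
                ext x; simp [h]
              rw [this]; exact isOpen_empty
          · rintro a i ⟨y, _, hy⟩
            exact absurd hy (by simp)
        refine ⟨_, _, hop u hu, hop v hv, ⟨x, hxu, rfl⟩, ⟨x', hxv, rfl⟩, ?_⟩
        rw [Set.disjoint_left]
        rintro p ⟨y, hy, rfl⟩ ⟨y', hy', he⟩
        injection he with _ h2
        subst h2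
        exact (Set.disjoint_left.1 huv) hy hy'
      · refine ⟨slice q, slice q', isOpen_slice q, isOpen_slice q', ⟨x, rfl⟩, ⟨x', rfl⟩, ?_⟩
        rw [Set.disjoint_left]
        rintro p ⟨y, rfl⟩ ⟨y', he⟩
        injection he with h1
        exact hq h1
    | nd a i => exact key q x a i
  | nd a i =>
    cases p' with
    | pt q x =>
      obtain ⟨u, v, hu, hv, h1, h2, h3⟩ := key q x a i
      exact ⟨v, u, hv, hu, h2, h1, h3.symm⟩
    | nd b j =>
      by_cases hab : a = b
      · subst hab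
        have hij : i ≠ j := fun e => hne (by rw [e])
        refine ⟨bn a i 0, bn a j 0, isOpen_bn _ _ _, isOpen_bn _ _ _, mem_bn _ _ _, mem_bn _ _ _, ?_⟩
        rw [Set.disjoint_left]
        rintro p (rfl | ⟨m, _, x, hx, rfl⟩) (h | ⟨m', _, x', hx', h⟩)
        · exact hne h
        · exact absurd h (by simp)
        · exact absurd h (by simp)
        · injection h with _ h2
          subst h2
          exact hij (hx.symm.trans hx')
      · obtain ⟨M, hM⟩ := qq_ad hab
        refine ⟨bn a i M, bn b j M, isOpen_bn _ _ _, isOpen_bn _ _ _, mem_bn _ _ _, mem_bn _ _ _, ?_⟩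
        rw [Set.disjoint_left]
        rintro p (rfl | ⟨m, hm, x, hx, rfl⟩) (h | ⟨m', hm', x', hx', h⟩)
        · exact hne h
        · exact absurd h (by simp)
        · exact absurd h (by simp)
        · injection h with h1 _
          exact hM m m' hm hm' h1

lemma continuous_pt (q : Q) : Continuous (fun x : A → Bool => XX.pt q x) := by
  rw [continuous_def]
  intro U hU
  exact (isOpen_XX.1 hU).1 q

lemma isCompact_slice (q : Q) : IsCompact (slice q) := by
  have : slice q = (fun x : A → Bool => XX.pt q x) '' univ := by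
    ext p; simp only [slice, mem_ofPred_eq, image_univ, mem_range]
    constructor
    · rintro ⟨x, rfl⟩; exact ⟨x, rfl⟩
    · rintro ⟨x, rfl⟩; exact ⟨x, rfl⟩
  rw [this]
  exact isCompact_univ.image (continuous_pt q)

lemma isCompact_bn (a : A) (i : Bool) : IsCompact (bn a i 0) := by
  apply isCompact_of_finite_subcover
  intro ι U hU hcov
  obtain ⟨i0, hi0⟩ := mem_iUnion.1 (hcov (mem_bn a i 0))
  obtain ⟨M, hM⟩ := (isOpen_XX.1 (hU i0)).2 a i hi0
  have hK : ∀ m : ℕ, ∃ t : Finset ι, ∀ x : A → Bool, x a = i → XX.pt (qq a m) x ∈ ⋃ j ∈ t, U j := by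
    intro m
    have hcomp : IsCompact ((fun x : A → Bool => XX.pt (qq a m) x) '' {x | x a = i}) := by
      apply IsCompact.image _ (continuous_pt _)
      apply IsClosed.isCompact
      have hc : Continuous (fun x : A → Bool => x a) := continuous_apply a
      exact (isClosed_discrete ({i} : Set Bool)).preimage hc
    obtain ⟨t, ht⟩ := hcomp.elim_finite_subcover U hU (by
      rintro _ ⟨x, hx, rfl⟩
      exact hcov (Or.inr ⟨m, Nat.zero_le _, x, hx, rfl⟩))
    exact ⟨t, fun x hx => ht ⟨x, hx, rfl⟩⟩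
  choose t ht using hK
  classical
  refine ⟨insert i0 ((Finset.range M).biUnion t), ?_⟩
  rintro p (rfl | ⟨m, _, x, hx, rfl⟩)
  · exact mem_biUnion (Finset.mem_insert_self _ _) hi0
  · by_cases hm : M ≤ m
    · exact mem_biUnion (Finset.mem_insert_self _ _) (hM m hm x hx)
    · obtain ⟨j, hj, hmem⟩ := mem_iUnion₂.1 (ht m x hx)
      refine mem_biUnion (Finset.mem_insert_of_mem (Finset.mem_biUnion.2
        ⟨m, Finset.mem_range.2 (by omega), hj⟩)) hmem

instance : WeaklyLocallyCompactSpace XX := by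
  refine ⟨fun p => ?_⟩
  cases p with
  | pt q x => exact ⟨slice q, isCompact_slice q, (isOpen_slice q).mem_nhds ⟨x, rfl⟩⟩
  | nd a i => exact ⟨bn a i 0, isCompact_bn a i, (isOpen_bn a i 0).mem_nhds (mem_bn a i 0)⟩

lemma perfect_gg : IsPerfect gg := by
  refine ⟨?_, ?_, ?_, ?_⟩
  · rw [continuous_def]
    intro U hU
    rw [isOpen_XX]
    refine ⟨fun q => ?_, ?_⟩
    · by_cases h : DD.pt q ∈ U
      · have : {x : A → Bool | XX.pt q x ∈ gg ⁻¹' U} = univ := by
          ext x; simpa [gg] using h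
        rw [this]; exact isOpen_univ
      · have : {x : A → Bool | XX.pt q x ∈ gg ⁻¹' U} = ∅ := by
          ext x; simpa [gg] using h
        rw [this]; exact isOpen_empty
    · intro a i ha
      obtain ⟨M, hM⟩ := (isOpen_DD.1 hU) a ha
      exact ⟨M, fun m hm x _ => hM m hm⟩
  · intro C hC
    rw [← isOpen_compl_iff, isOpen_DD]
    intro a ha
    have hC' := (isOpen_XX.1 hC.isOpen_compl).2
    have h1 : ∀ i, ∃ M, ∀ m, M ≤ m → ∀ x : A → Bool, x a = i → XX.pt (qq a m) x ∈ Cᶜ := by
      intro i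
      apply hC' a i
      intro hmem
      exact ha ⟨_, hmem, rfl⟩
    choose M hM using h1
    refine ⟨max (M true) (M false), fun m hm => ?_⟩
    rintro ⟨p, hp, he⟩
    cases p with
    | pt q x =>
      have he' : q = qq a m := by
        simp only [gg] at he
        injection he
      subst he'
      cases hx : x a with
      | true => exact hM true m (le_trans (le_max_left _ _) hm) x hx hp
      | false => exact hM false m (le_trans (le_max_right _ _) hm) x hx hp
    | nd b j => simp [gg] at he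
  · intro d
    cases d with
    | pt q => exact ⟨XX.pt q (fun _ => false), rfl⟩
    | nd a => exact ⟨XX.nd a false, rfl⟩
  · intro d
    cases d with
    | pt q =>
      have : gg ⁻¹' {DD.pt q} = slice q := by
        ext p
        cases p with
        | pt q' x => simp [gg, slice]
        | nd a i => simp [gg, slice]
      rw [this]; exact isCompact_slice q
    | nd a =>
      apply Set.Finite.isCompact
      apply Set.Finite.subset (s := {XX.nd a true, XX.nd a false}) (by simp)
      intro p hp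
      cases p with
      | pt q' x => simp [gg] at hp
      | nd b i =>
        have hb : b = a := by simpa [gg] using hp
        subst hb
        cases i <;> simp

lemma perfect_ff : IsPerfect ff := by
  refine ⟨continuous_coinduced_rng, ?_, ?_, ?_⟩
  · intro C hC
    rw [← isOpen_compl_iff, isOpen_YY, isOpen_XX]
    have hC' := (isOpen_XX.1 hC.isOpen_compl)
    have hpt : ∀ q x, XX.pt q x ∈ ff ⁻¹' (ff '' C)ᶜ ↔ XX.pt q x ∈ Cᶜ := by
      intro q x
      constructor
      · intro h hc
        exact h ⟨_, hc, rfl⟩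
      · rintro h ⟨p, hp, he⟩
        cases p with
        | pt q' x' =>
          simp only [ff] at he
          injection he with h1 h2
          subst h1; subst h2
          exact h hp
        | nd a i => simp [ff] at he
    refine ⟨fun q => ?_, ?_⟩
    · have : {x : A → Bool | XX.pt q x ∈ ff ⁻¹' (ff '' C)ᶜ} = {x | XX.pt q x ∈ Cᶜ} := by
        ext x; exact hpt q x
      rw [this]; exact hC'.1 q
    · intro a i ha
      have : XX.nd a i ∈ Cᶜ := fun hc => ha ⟨_, hc, rfl⟩
      obtain ⟨M, hM⟩ := hC'.2 a i this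
      exact ⟨M, fun m hm x hx => (hpt _ _).2 (hM m hm x hx)⟩
  · intro y
    cases y with
    | pt q x => exact ⟨XX.pt q x, rfl⟩
    | nd a => exact ⟨XX.nd a false, by simp [ff]⟩
  · intro y
    cases y with
    | pt q x =>
      apply Set.Finite.isCompact
      apply Set.Finite.subset (s := {XX.pt q x}) (by simp)
      intro p hp
      cases p with
      | pt q' x' =>
        have : q' = q ∧ x' = x := by simpa [ff] using hp
        simp [this.1, this.2]
      | nd b i => simp [ff] at hp
    | nd a =>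
      apply Set.Finite.isCompact
      apply Set.Finite.subset (s := {XX.nd a false, XX.nd (a.1 - 1, a.2) true}) (by simp)
      intro p hp
      cases p with
      | pt q' x' => simp [ff] at hp
      | nd b i =>
        have hp' : (b.1 + i.toNat, b.2) = a := by
          have : ff (XX.nd b i) = YY.nd a := hp
          simp only [ff] at this
          injection this
        subst hp'
        cases i with
        | true => right; simp
        | false => left; simp

instance : T2Space YY := perfect_t2 perfect_ff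
instance : WeaklyLocallyCompactSpace YY := perfect_wlc perfect_ff
instance : T2Space DD := perfect_t2 perfect_gg
instance : WeaklyLocallyCompactSpace DD := perfect_wlc perfect_gg

/-- basic neighbourhoods in D -/
def dn (a : A) (M : ℕ) : Set DD := {p | p = DD.nd a ∨ ∃ m, M ≤ m ∧ p = DD.pt (qq a m)}

lemma isOpen_dn (a : A) (M : ℕ) : IsOpen (dn a M) := by
  rw [isOpen_DD]
  rintro b (hb | ⟨m, _, hb⟩)
  · injection hb with h1
    subst h1
    exact ⟨M, fun m hm => Or.inr ⟨m, hm, rfl⟩⟩
  · exact absurd hb (by simp)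

lemma isOpen_pt (q : Q) : IsOpen ({DD.pt q} : Set DD) := by
  rw [isOpen_DD]
  intro b hb
  simp at hb

lemma developable_DD : IsDevelopable DD := by
  refine ⟨fun n => {U | (∃ q, U = {DD.pt q}) ∨ ∃ a, U = dn a n}, fun n => ⟨?_, ?_⟩, fun y => ?_⟩
  · rintro U (⟨q, rfl⟩ | ⟨a, rfl⟩)
    · exact isOpen_pt q
    · exact isOpen_dn a n
  · rw [eq_univ_iff_forall]
    intro y
    cases y with
    | pt q => exact ⟨{DD.pt q}, Or.inl ⟨q, rfl⟩, rfl⟩
    | nd a => exact ⟨dn a n, Or.inr ⟨a, rfl⟩, Or.inl rfl⟩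
  · rw [Filter.hasBasis_iff]
    intro V
    constructor
    · intro hV
      obtain ⟨W, hWV, hW, hyW⟩ := mem_nhds_iff.1 hV
      cases y with
      | pt q =>
        refine ⟨q.2.length + 1, trivial, ?_⟩
        rintro p ⟨U, ⟨(⟨q', rfl⟩ | ⟨a, rfl⟩), hyU⟩, hp⟩
        · have h1 : q = q' := by simpa using hyU
          subst h1
          have h2 : p = DD.pt q := hp
          subst h2
          exact hWV hyW
        · rcases hyU with h | ⟨m, hm, h⟩
          · exact absurd h (by simp)
          · injection h with h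
            have := qq_len a m
            rw [← h] at this
            omega
      | nd a =>
        obtain ⟨M, hM⟩ := isOpen_DD.1 hW a hyW
        refine ⟨M, trivial, ?_⟩
        rintro p ⟨U, ⟨(⟨q', rfl⟩ | ⟨b, rfl⟩), hyU⟩, hp⟩
        · simp at hyU
        · rcases hyU with h | ⟨m, hm, h⟩
          · injection h with h
            subst h
            rcases hp with rfl | ⟨m, hm, rfl⟩
            · exact hWV hyW
            · exact hWV (hM m hm)
          · exact absurd h (by simp)
    · rintro ⟨n, _, hn⟩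
      refine mem_of_superset ?_ hn
      cases y with
      | pt q =>
        refine mem_of_superset ((isOpen_pt q).mem_nhds rfl) ?_
        intro p hp
        exact ⟨{DD.pt q}, ⟨Or.inl ⟨q, rfl⟩, rfl⟩, hp⟩
      | nd a =>
        refine mem_of_superset ((isOpen_dn a n).mem_nhds (Or.inl rfl)) ?_
        intro p hp
        exact ⟨dn a n, ⟨Or.inr ⟨a, rfl⟩, Or.inl rfl⟩, hp⟩

/-- Lebesgue type lemma -/
lemma lebesgue {E : Type u} [TopologicalSpace E] (φ : (A → Bool) → E) (hφ : Continuous φ)
    (G : Set (Set E)) (hG : ∀ U ∈ G, IsOpen U) (hcov : ⋃₀ G = univ) :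
    ∃ F : Finset A, ∀ x y : A → Bool, (∀ a ∈ F, x a = y a) → ∃ U ∈ G, φ x ∈ U ∧ φ y ∈ U := by
  classical
  have h1 : ∀ x : A → Bool, ∃ U ∈ G, ∃ I : Finset A, ∀ y : A → Bool, (∀ a ∈ I, y a = x a) →
      φ y ∈ U := by
    intro x
    have hx : φ x ∈ ⋃₀ G := by rw [hcov]; trivial
    obtain ⟨U, hU, hxU⟩ := hx
    obtain ⟨I, u, hu, hsub⟩ := isOpen_pi_iff.1 ((hG U hU).preimage hφ) x hxU
    refine ⟨U, hU, I, fun y hy => hsub ?_⟩
    intro a ha
    rw [hy a ha]
    exact (hu a ha).2
  choose U hU I hI using h1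
  obtain ⟨t, -, ht⟩ := (isCompact_univ (X := A → Bool)).elim_nhds_subcover
    (fun x => (I x : Set A).pi (fun a => {x a})) (by
      intro x _
      apply IsOpen.mem_nhds
      · exact isOpen_set_pi (I x).finite_toSet (fun _ _ => isOpen_discrete _)
      · intro a _; rfl)
  refine ⟨t.biUnion I, fun x y hxy => ?_⟩
  obtain ⟨w, hw, hxw⟩ := mem_iUnion₂.1 (ht (mem_univ x))
  refine ⟨U w, hU w, hI w x ?_, hI w y ?_⟩
  · intro a ha
    exact hxw a ha
  · intro a ha
    rw [← hxy a (Finset.mem_biUnion.2 ⟨w, hw, ha⟩)]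
    exact hxw a ha

lemma tendsto_nd (a : A) (i : Bool) (x : A → Bool) (hx : x a = i) :
    Tendsto (fun m => XX.pt (qq a m) x) atTop (𝓝 (XX.nd a i)) := by
  rw [tendsto_nhds]
  intro U hU hmem
  obtain ⟨M, hM⟩ := (isOpen_XX.1 hU).2 a i hmem
  exact mem_of_superset (Ici_mem_atTop M) fun m hm => hM m hm x hx

theorem no_map {E : Type u} [TopologicalSpace E] (hE : IsDevelopable E) (h : YY → E)
    (hh : IsPerfect h) : False := by
  classical
  have : T2Space E := perfect_t2 hh
  obtain ⟨G, hG, hbase⟩ := hE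
  have hff := perfect_ff.1
  have hcont : ∀ q, Continuous (fun x : A → Bool => h (ff (XX.pt q x))) := fun q =>
    hh.1.comp (hff.comp (continuous_pt q))
  have hF : ∀ (q : Q) (n : ℕ), ∃ F : Finset A, ∀ x y : A → Bool, (∀ a ∈ F, x a = y a) →
      ∃ U ∈ G n, h (ff (XX.pt q x)) ∈ U ∧ h (ff (XX.pt q y)) ∈ U := fun q n =>
    lebesgue _ (hcont q) (G n) (hG n).1 (hG n).2
  choose F hF using hF
  let C : Set A := ⋃ q : Q, ⋃ n : ℕ, (F q n : Set A)
  have hCc : C.Countable := countable_iUnion fun q => countable_iUnion fun n =>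
    (F q n).countable_toSet
  have hdep : ∀ (q : Q) (x y : A → Bool), (∀ a ∈ C, x a = y a) →
      h (ff (XX.pt q x)) = h (ff (XX.pt q y)) := by
    intro q x y hxy
    by_contra hne
    have hmem : ({h (ff (XX.pt q y))}ᶜ : Set E) ∈ 𝓝 (h (ff (XX.pt q x))) :=
      isOpen_compl_singleton.mem_nhds hne
    obtain ⟨n, -, hn⟩ := (hbase _).mem_iff.1 hmem
    obtain ⟨U, hU, h1, h2⟩ := hF q n x y (fun a ha => hxy a
      (mem_iUnion.2 ⟨q, mem_iUnion.2 ⟨n, ha⟩⟩))
    exact hn ⟨U, ⟨hU, h1⟩, h2⟩ rfl
  obtain ⟨z, hz⟩ : ∃ z : ℕ → Bool, z ∉ Prod.snd '' C := by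
    by_contra hcon
    push Not at hcon
    have : (univ : Set (ℕ → Bool)).Countable :=
      (hCc.image Prod.snd).mono fun z _ => hcon z
    have h2 : Countable (ℕ → Bool) := countable_univ_iff.1 this
    obtain ⟨φ, hφ⟩ := exists_surjective_nat (ℕ → Bool)
    obtain ⟨n, hn⟩ := hφ (fun k => !(φ k k))
    have := congrFun hn n
    simp at this
  have hz' : ∀ k, (k, z) ∉ C := fun k hk => hz ⟨_, hk, rfl⟩
  have hstep : ∀ k, h (YY.nd (k, z)) = h (YY.nd (k + 1, z)) := by
    intro k
    have t1 : Tendsto (fun m => h (ff (XX.pt (qq (k, z) m) (fun _ => false)))) atTop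
        (𝓝 (h (ff (XX.nd (k, z) false)))) :=
      (hh.1.tendsto _).comp ((hff.tendsto _).comp (tendsto_nd (k, z) false _ rfl))
    have t2 : Tendsto (fun m => h (ff (XX.pt (qq (k, z) m)
        (Function.update (fun _ => false) (k, z) true)))) atTop
        (𝓝 (h (ff (XX.nd (k, z) true)))) :=
      (hh.1.tendsto _).comp ((hff.tendsto _).comp (tendsto_nd (k, z) true _ (by simp)))
    have heq : (fun m => h (ff (XX.pt (qq (k, z) m) (fun _ => false)))) =
        (fun m => h (ff (XX.pt (qq (k, z) m)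
        (Function.update (fun _ => false) (k, z) true)))) := by
      funext m
      apply hdep
      intro a ha
      rw [Function.update_of_ne]
      rintro rfl
      exact hz' k ha
    rw [heq] at t1
    exact tendsto_nhds_unique t1 t2
  have hall : ∀ k, h (YY.nd (k, z)) = h (YY.nd (0, z)) := by
    intro k
    induction k with
    | zero => rfl
    | succ k ih => rw [← hstep k, ih]
  obtain ⟨t, ht⟩ := (hh.2.2.2 (h (YY.nd (0, z)))).elim_finite_subcover
    (fun k : ℕ => {y : YY | ∀ j, j ≠ k → y ≠ YY.nd (j, z)}) (by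
      intro k
      rw [isOpen_YY, isOpen_XX]
      refine ⟨fun q => ?_, ?_⟩
      · have : {x : A → Bool | XX.pt q x ∈ ff ⁻¹' {y : YY | ∀ j, j ≠ k → y ≠ YY.nd (j, z)}} =
            univ := by
          ext x; simp [ff]
        rw [this]; exact isOpen_univ
      · intro a i _
        refine ⟨0, fun m _ x _ => ?_⟩
        simp [ff]) (by
      intro y _
      by_cases hy : ∃ j, y = YY.nd (j, z)
      · obtain ⟨j, rfl⟩ := hy
        refine mem_iUnion.2 ⟨j, fun j' hj' he => hj' ?_⟩
        injection he with he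
        exact (congrArg Prod.fst he).symm
      · push Not at hy
        exact mem_iUnion.2 ⟨0, fun j _ => hy j⟩)
  obtain ⟨k, hk⟩ := Infinite.exists_notMem_finset t
  obtain ⟨j, hj, hmem⟩ := mem_iUnion₂.1 (ht (show YY.nd (k, z) ∈ h ⁻¹' {h (YY.nd (0, z))} from
    hall k))
  exact hmem k (fun e => hk (e ▸ hj)) rfl

theorem main : ∃ (X D Y : Type) (_ : TopologicalSpace X) (_ : TopologicalSpace D)
    (_ : TopologicalSpace Y) (g : X → D) (f : X → Y),
    T2Space X ∧ LocallyCompactSpace X ∧ T2Space D ∧ LocallyCompactSpace D ∧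
    T2Space Y ∧ LocallyCompactSpace Y ∧
    IsDevelopable D ∧ IsPerfect g ∧ IsPerfect f ∧
    ∀ (E : Type u) [TopologicalSpace E], IsDevelopable E → ¬ ∃ h : Y → E, IsPerfect h :=
  ⟨XX, DD, YY, inferInstance, inferInstance, inferInstance, gg, ff, inferInstance, inferInstance,
    inferInstance, inferInstance, inferInstance, inferInstance, developable_DD, perfect_gg,
    perfect_ff, fun _ _ hE ⟨h, hh⟩ => no_map hE h hh⟩

end Pool.Agent.H26.Isi
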