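import Mathlib

set_option autoImplicit false

namespace Pool.Agent.H26.Isi

universe u v

/-- A map is perfect if it is continuous, closed, surjective and has compact fibres. -/
def IsPerfect {X : Type u} {Y : Type v} [TopologicalSpace X] [TopologicalSpace Y]
    (f : X → Y) : Prop :=
  Continuous f ∧ IsClosedMap f ∧ Function.Surjective f ∧ ∀ y : Y, IsCompact (f ⁻¹' {y})

/-- The star of a point with respect to a family of sets. -/
def star {Y : Type u} (y : Y) (G : Set (Set Y)) : Set Y := ⋃₀ {U | U ∈ G ∧ y ∈ U}

/-- A space is developable if it has a sequence `G 0, G 1, ...` of open covers such that for every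
point `y` the stars `star y (G n)` form a neighbourhood base at `y`. -/
def IsDevelopable (Y : Type u) [TopologicalSpace Y] : Prop :=
  ∃ G : ℕ → Set (Set Y), (∀ n, (∀ U ∈ G n, IsOpen U) ∧ ⋃₀ (G n) = Set.univ) ∧
    ∀ y : Y, (nhds y).HasBasis (fun _ : ℕ => True) (fun n => star y (G n))

end Pool.Agent.H26.Isi
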