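import Mathlib

open scoped ENNReal Topology
open MeasureTheory Set Filter

namespace Pool.Agent.H26.KCont

/-- The K-functional of `a` at `t` for the couple `A1 ⊂ A0` with inclusion map `i`. -/
noncomputable def KFun {A0 A1 : Type*} [NormedAddCommGroup A0] [NormedSpace ℂ A0]
    [NormedAddCommGroup A1] [NormedSpace ℂ A1] (i : A1 →L[ℂ] A0) (t : ℝ) (a : A0) : ℝ :=
  ⨅ a1 : A1, (‖a - i a1‖ + t * ‖a1‖)

/-- The norm of the K-method space, with values in `[0,∞]`; the K-method space is the set of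
points at which it is finite. -/
noncomputable def KNorm {A0 A1 : Type*} [NormedAddCommGroup A0] [NormedSpace ℂ A0]
    [NormedAddCommGroup A1] [NormedSpace ℂ A1] (i : A1 →L[ℂ] A0) (θ : ℝ) (p : ℝ≥0∞)
    (a : A0) : ℝ≥0∞ :=
  if p = ∞ then ⨆ t : Ioi (0 : ℝ), ENNReal.ofReal ((t : ℝ) ^ (-θ) * KFun i t a)
  else (∫⁻ t in Ioi (0 : ℝ), ENNReal.ofReal (t ^ (-θ) * KFun i t a) ^ p.toReal
      * ENNReal.ofReal (1 / t)) ^ (1 / p.toReal)

/-- `U : A0 → B0` restricts to `U1 : A1 → B1` and satisfies hypothesis (H). -/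
structure HypH {A0 A1 B0 B1 : Type*} [NormedAddCommGroup A0] [NormedSpace ℂ A0]
    [NormedAddCommGroup A1] [NormedSpace ℂ A1] [NormedAddCommGroup B0] [NormedSpace ℂ B0]
    [NormedAddCommGroup B1] [NormedSpace ℂ B1] (i : A1 →L[ℂ] A0) (j : B1 →L[ℂ] B0)
    (U : A0 → B0) (U1 : A1 → B1) : Prop where
  inj_i : Function.Injective i
  inj_j : Function.Injective j
  restr : ∀ a, U (i a) = j (U1 a)
  lip : ∃ M0 : ℝ, ∀ a b, ‖U a - U b‖ ≤ M0 * ‖a - b‖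
  bdd : ∃ M1 : ℝ, ∀ a, ‖U1 a‖ ≤ M1 * ‖a‖

/-- Continuity of `U` from the K-method space of `i` to the K-method space of `j`. -/
def ContinuousK {A0 A1 B0 B1 : Type*} [NormedAddCommGroup A0] [NormedSpace ℂ A0]
    [NormedAddCommGroup A1] [NormedSpace ℂ A1] [NormedAddCommGroup B0] [NormedSpace ℂ B0]
    [NormedAddCommGroup B1] [NormedSpace ℂ B1] (i : A1 →L[ℂ] A0) (j : B1 →L[ℂ] B0)
    (U : A0 → B0) (θ : ℝ) (p : ℝ≥0∞) : Prop :=
  ∀ a : A0, KNorm i θ p a ≠ ∞ → ∀ ε : ℝ≥0∞, 0 < ε → ∃ δ : ℝ≥0∞, 0 < δ ∧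
    ∀ b : A0, KNorm i θ p b ≠ ∞ → KNorm i θ p (b - a) < δ → KNorm j θ p (U b - U a) < ε

end Pool.Agent.H26.KCont
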