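import Mathlib
import Pool.Agent.H26.KContDefs

open scoped ENNReal Topology
open MeasureTheory Set Filter

namespace Pool.Agent.H26.KCont

section example_

abbrev E := ZeroAtInftyContinuousMap ℕ ℂ

noncomputable def mkE (f : ℕ → ℂ) (h : Tendsto f atTop (𝓝 0)) : E :=
  ⟨⟨f, continuous_of_discreteTopology⟩, by
    simpa [Filter.cocompact_eq_cofinite, Nat.cofinite_eq_atTop] using h⟩

@[simp] lemma mkE_apply (f : ℕ → ℂ) (h : Tendsto f atTop (𝓝 0)) (n : ℕ) : mkE f h n = f n := rfl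

lemma apply_le (f : E) (n : ℕ) : ‖f n‖ ≤ ‖f‖ := by
  rw [← ZeroAtInftyContinuousMap.norm_toBCF_eq_norm]
  exact BoundedContinuousFunction.norm_coe_le_norm f.toBCF n

lemma norm_le' (f : E) {C : ℝ} (hC : 0 ≤ C) (h : ∀ n, ‖f n‖ ≤ C) : ‖f‖ ≤ C := by
  rw [← ZeroAtInftyContinuousMap.norm_toBCF_eq_norm]
  exact (BoundedContinuousFunction.norm_le hC).2 h

lemma tendsto_E (f : E) : Tendsto (fun n => f n) atTop (𝓝 0) := by
  have := f.zero_at_infty'
  simpa [Filter.cocompact_eq_cofinite, Nat.cofinite_eq_atTop] using this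

lemma pow_half_le (n : ℕ) : ‖((2 : ℂ)⁻¹) ^ n‖ ≤ 1 := by
  rw [norm_pow]
  apply pow_le_one₀ (norm_nonneg _)
  rw [norm_inv]
  norm_num

lemma bound_tendsto (f : E) (g : ℕ → ℂ) (h : ∀ n, ‖g n‖ ≤ ‖f n‖) : Tendsto g atTop (𝓝 0) := by
  have := (tendsto_E f).norm
  rw [norm_zero] at this
  exact squeeze_zero_norm h this

noncomputable def iFun (c : E) : E :=
  mkE (fun n => ((2 : ℂ)⁻¹) ^ n * c n) (bound_tendsto c _ (fun n => by
    rw [norm_mul]
    exact mul_le_of_le_one_left (norm_nonneg _) (pow_half_le n)))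

noncomputable def iMap : E →L[ℂ] E :=
  LinearMap.mkContinuous
    { toFun := iFun
      map_add' := fun x y => by
        ext n
        simp [iFun, mul_add]
      map_smul' := fun r x => by
        ext n
        simp [iFun]
        ring } 1 (fun x => by
          rw [one_mul]
          apply norm_le' _ (norm_nonneg _)
          intro n
          simp only [LinearMap.coe_mk, AddHom.coe_mk, iFun, mkE_apply, norm_mul]
          exact (mul_le_of_le_one_left (norm_nonneg _) (pow_half_le n)).trans (apply_le x n))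

@[simp] lemma iMap_apply (c : E) (n : ℕ) : iMap c n = ((2 : ℂ)⁻¹) ^ n * c n := rfl

lemma iMap_injective : Function.Injective iMap := by
  intro x y h
  ext n
  have := DFunLike.congr_fun h n
  rw [iMap_apply, iMap_apply] at this
  exact mul_left_cancel₀ (pow_ne_zero n (inv_ne_zero two_ne_zero)) this

lemma norm_ofReal_min (x y : ℝ) (hx : 0 ≤ x) (hy : 0 ≤ y) : ‖((min x y : ℝ) : ℂ)‖ = min x y := by
  rw [Complex.norm_real, Real.norm_of_nonneg (le_min hx hy)]

noncomputable def UMap (a : E) : E :=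
  mkE (fun n => if n = 0 then 0 else ((min ‖a n‖ ‖a 0 - 1‖ : ℝ) : ℂ)) (bound_tendsto a _ (fun n => by
    split_ifs with h
    · simp
    · rw [norm_ofReal_min _ _ (norm_nonneg _) (norm_nonneg _)]
      exact min_le_left _ _))

noncomputable def UOne (c : E) : E :=
  mkE (fun n => if n = 0 then 0 else ((min ‖c n‖ (2 ^ n * ‖c 0 - 1‖) : ℝ) : ℂ))
    (bound_tendsto c _ (fun n => by
    split_ifs with h
    · simp
    · rw [norm_ofReal_min _ _ (norm_nonneg _) (by positivity)]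
      exact min_le_left _ _))

lemma UMap_apply (a : E) (n : ℕ) :
    UMap a n = if n = 0 then 0 else ((min ‖a n‖ ‖a 0 - 1‖ : ℝ) : ℂ) := rfl

lemma UOne_apply (a : E) (n : ℕ) :
    UOne a n = if n = 0 then 0 else ((min ‖a n‖ (2 ^ n * ‖a 0 - 1‖) : ℝ) : ℂ) := rfl

lemma U_restr (c : E) : UMap (iMap c) = iMap (UOne c) := by
  ext n
  have h0 : (iMap c) 0 = c 0 := by simp
  rw [UMap_apply, iMap_apply (UOne c), UOne_apply, h0, iMap_apply]
  split_ifs with h
  · simp
  · rw [norm_mul, norm_pow, norm_inv]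
    have h2 : ‖(2 : ℂ)‖ = 2 := by norm_num
    rw [h2]
    have h3 : ((2 : ℂ)⁻¹) ^ n = (((2 : ℝ)⁻¹ ^ n : ℝ) : ℂ) := by push_cast; rfl
    rw [h3, ← Complex.ofReal_mul]
    congr 1
    rw [mul_min_of_nonneg _ _ (by positivity : (0 : ℝ) ≤ (2 : ℝ)⁻¹ ^ n)]
    congr 1
    rw [← mul_assoc, ← mul_pow]
    norm_num

lemma U_lip (a b : E) : ‖UMap a - UMap b‖ ≤ 1 * ‖a - b‖ := by
  rw [one_mul]
  apply norm_le' _ (norm_nonneg _)
  intro n
  rw [ZeroAtInftyContinuousMap.coe_sub, Pi.sub_apply, UMap_apply, UMap_apply]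
  split_ifs with h
  · simp
  · rw [← Complex.ofReal_sub, Complex.norm_real, Real.norm_eq_abs]
    have h1 : |‖a n‖ - ‖b n‖| ≤ ‖a - b‖ := by
      refine (abs_norm_sub_norm_le _ _).trans ?_
      have := apply_le (a - b) n
      simpa using this
    have h2 : |‖a 0 - 1‖ - ‖b 0 - 1‖| ≤ ‖a - b‖ := by
      refine (abs_norm_sub_norm_le _ _).trans ?_
      have := apply_le (a - b) 0
      simpa using this
    exact (abs_min_sub_min_le_max _ _ _ _).trans (max_le h1 h2)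

lemma UOne_bdd (a : E) : ‖UOne a‖ ≤ 1 * ‖a‖ := by
  rw [one_mul]
  apply norm_le' _ (norm_nonneg _)
  intro n
  rw [UOne_apply]
  split_ifs with h
  · simp
  · rw [norm_ofReal_min _ _ (norm_nonneg _) (by positivity)]
    exact (min_le_left _ _).trans (apply_le a n)

lemma UOne_cont : Continuous UOne := by
  rw [Metric.continuous_iff]
  intro c ε hε
  obtain ⟨N, hN⟩ := (Metric.tendsto_atTop.1 (tendsto_E c)) (ε / 8) (by positivity)
  refine ⟨min (ε / 8) (ε / (2 * 2 ^ N)), by positivity, ?_⟩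
  intro b hb
  rw [dist_eq_norm] at hb ⊢
  have hb1 : ‖b - c‖ < ε / 8 := lt_of_lt_of_le hb (min_le_left _ _)
  have hb2 : ‖b - c‖ < ε / (2 * 2 ^ N) := lt_of_lt_of_le hb (min_le_right _ _)
  refine lt_of_le_of_lt (norm_le' _ (C := ε / 2) (by positivity) ?_) (by linarith)
  intro n
  rw [ZeroAtInftyContinuousMap.coe_sub, Pi.sub_apply, UOne_apply, UOne_apply]
  split_ifs with h
  · simp; positivity
  · have h1 : ‖b n - c n‖ ≤ ‖b - c‖ := by
      have := apply_le (b - c) n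
      simpa using this
    have h0 : ‖b 0 - c 0‖ ≤ ‖b - c‖ := by
      have := apply_le (b - c) 0
      simpa using this
    by_cases hn : N ≤ n
    · have hc : ‖c n‖ < ε / 8 := by simpa using hN n hn
      have hbn : ‖b n‖ ≤ ‖c n‖ + ‖b n - c n‖ := by
        have := norm_add_le (c n) (b n - c n)
        simpa using this
      refine (norm_sub_le _ _).trans ?_
      rw [norm_ofReal_min _ _ (norm_nonneg _) (by positivity),
        norm_ofReal_min _ _ (norm_nonneg _) (by positivity)]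
      have e1 := min_le_left ‖b n‖ (2 ^ n * ‖b 0 - 1‖)
      have e2 := min_le_left ‖c n‖ (2 ^ n * ‖c 0 - 1‖)
      linarith
    · push Not at hn
      rw [← Complex.ofReal_sub, Complex.norm_real, Real.norm_eq_abs]
      refine (abs_min_sub_min_le_max _ _ _ _).trans (max_le ?_ ?_)
      · refine (abs_norm_sub_norm_le _ _).trans ?_
        linarith
      · rw [← mul_sub, abs_mul, abs_of_nonneg (by positivity : (0 : ℝ) ≤ 2 ^ n)]
        have e1 : |‖b 0 - 1‖ - ‖c 0 - 1‖| ≤ ‖b - c‖ := by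
          refine (abs_norm_sub_norm_le _ _).trans ?_
          simpa using h0
        have e2 : (2 : ℝ) ^ n ≤ 2 ^ N := pow_le_pow_right₀ (by norm_num) hn.le
        calc (2 : ℝ) ^ n * |‖b 0 - 1‖ - ‖c 0 - 1‖| ≤ 2 ^ N * (ε / (2 * 2 ^ N)) := by
              apply mul_le_mul e2 (e1.trans hb2.le) (abs_nonneg _) (by positivity)
          _ = ε / 2 := by field_simp

lemma KFun_bddBelow {A0 A1 : Type*} [NormedAddCommGroup A0] [NormedSpace ℂ A0]
    [NormedAddCommGroup A1] [NormedSpace ℂ A1] (i : A1 →L[ℂ] A0) {t : ℝ} (ht : 0 ≤ t) (a : A0) :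
    BddBelow (range fun a1 : A1 => ‖a - i a1‖ + t * ‖a1‖) :=
  ⟨0, by rintro _ ⟨x, rfl⟩; positivity⟩

lemma KFun_le {A0 A1 : Type*} [NormedAddCommGroup A0] [NormedSpace ℂ A0]
    [NormedAddCommGroup A1] [NormedSpace ℂ A1] (i : A1 →L[ℂ] A0) {t : ℝ} (ht : 0 ≤ t) (a : A0)
    (x : A1) : KFun i t a ≤ ‖a - i x‖ + t * ‖x‖ :=
  ciInf_le (KFun_bddBelow i ht a) x

lemma KFun_nonneg {A0 A1 : Type*} [NormedAddCommGroup A0] [NormedSpace ℂ A0]
    [NormedAddCommGroup A1] [NormedSpace ℂ A1] (i : A1 →L[ℂ] A0) {t : ℝ} (ht : 0 ≤ t) (a : A0) :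
    0 ≤ KFun i t a :=
  le_ciInf fun x => by positivity

/-- the point of discontinuity -/
noncomputable def ptA (θ : ℝ) (hθ : 0 < θ) : E :=
  mkE (fun n => ((((2 : ℝ) ^ (-θ)) ^ n : ℝ) : ℂ)) (by
    have h : Tendsto (fun n : ℕ => ((2 : ℝ) ^ (-θ)) ^ n) atTop (𝓝 0) := by
      apply tendsto_pow_atTop_nhds_zero_of_lt_one (by positivity)
      apply Real.rpow_lt_one_of_one_lt_of_neg (by norm_num) (by linarith)
    have := (Complex.continuous_ofReal.tendsto 0).comp h
    rw [Complex.ofReal_zero] at this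
    exact this)

lemma ptA_apply (θ : ℝ) (hθ : 0 < θ) (n : ℕ) :
    ptA θ hθ n = ((((2 : ℝ) ^ (-θ)) ^ n : ℝ) : ℂ) := rfl

lemma norm_ptA_apply (θ : ℝ) (hθ : 0 < θ) (n : ℕ) :
    ‖ptA θ hθ n‖ = ((2 : ℝ) ^ (-θ)) ^ n := by
  rw [ptA_apply, Complex.norm_real, Real.norm_of_nonneg (by positivity)]

lemma pow_swap (θ : ℝ) (n : ℕ) : ((2 : ℝ) ^ θ) ^ n = ((2 : ℝ) ^ n) ^ θ := by
  rw [← Real.rpow_natCast, ← Real.rpow_mul (by norm_num), mul_comm, Real.rpow_mul (by norm_num),
    Real.rpow_natCast]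

lemma KFun_add_le {A0 A1 : Type*} [NormedAddCommGroup A0] [NormedSpace ℂ A0]
    [NormedAddCommGroup A1] [NormedSpace ℂ A1] (i : A1 →L[ℂ] A0) {t : ℝ} (ht : 0 ≤ t)
    (a b : A0) : KFun i t (a + b) ≤ KFun i t a + KFun i t b := by
  unfold KFun
  refine le_ciInf_add_ciInf ?_
  intro x y
  refine (KFun_le i ht (a + b) (x + y)).trans ?_
  have h1 : ‖a + b - i (x + y)‖ ≤ ‖a - i x‖ + ‖b - i y‖ := by
    have : a + b - i (x + y) = (a - i x) + (b - i y) := by rw [map_add]; abel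
    rw [this]
    exact norm_add_le _ _
  have h2 : t * ‖x + y‖ ≤ t * ‖x‖ + t * ‖y‖ := by
    rw [← mul_add]
    exact mul_le_mul_of_nonneg_left (norm_add_le _ _) ht
  linarith

lemma KFun_ptA_le (θ : ℝ) (hθ : 0 < θ) (hθ1 : θ < 1) {t : ℝ} (ht : 0 < t) :
    KFun iMap t (ptA θ hθ) ≤ 2 * t ^ θ := by
  have hq1 : (2 : ℝ) ^ (-θ) ≤ 1 := (Real.rpow_lt_one_of_one_lt_of_neg (by norm_num) (by linarith)).le
  have hq0 : 0 < (2 : ℝ) ^ (-θ) := by positivity
  rcases le_or_gt 1 t with h1 | h1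
  · refine (KFun_le iMap ht.le (ptA θ hθ) 0).trans ?_
    have : ‖ptA θ hθ‖ ≤ 1 := by
      apply norm_le' _ zero_le_one
      intro n
      rw [norm_ptA_apply]
      exact pow_le_one₀ hq0.le hq1
    have h2 : 1 ≤ t ^ θ := Real.one_le_rpow h1 hθ.le
    simp only [map_zero, sub_zero, norm_zero, mul_zero, add_zero]
    linarith
  · obtain ⟨N, hN1, hN2⟩ := exists_nat_pow_near (x := 1 / t) (y := (2 : ℝ))
      (by rw [le_div_iff₀ ht]; linarith) (by norm_num)
    have hx : Tendsto (fun n : ℕ => if n ≤ N then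
        ((2 ^ n * ((2 : ℝ) ^ (-θ)) ^ n : ℝ) : ℂ) else 0) atTop (𝓝 0) := by
      apply tendsto_atTop_of_eventually_const (i₀ := N + 1)
      intro n hn
      rw [if_neg (by omega)]
    refine (KFun_le iMap ht.le (ptA θ hθ) (mkE _ hx)).trans ?_
    have hb : ∀ n : ℕ, n ≤ N → (2 : ℝ) ^ n * ((2 : ℝ) ^ (-θ)) ^ n ≤ (1 / t) ^ (1 - θ) := by
      intro n hn
      have e1 : (2 : ℝ) ^ n * ((2 : ℝ) ^ (-θ)) ^ n = ((2 : ℝ) ^ n) ^ (1 - θ) := by
        rw [pow_swap, sub_eq_add_neg, Real.rpow_add (by positivity), Real.rpow_one]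
      rw [e1]
      apply Real.rpow_le_rpow (by positivity) _ (by linarith)
      exact (pow_le_pow_right₀ (by norm_num) hn).trans hN1
    have hxn : ‖mkE _ hx‖ ≤ (1 / t) ^ (1 - θ) := by
      apply norm_le' _ (by positivity)
      intro n
      rw [mkE_apply]
      split_ifs with hn
      · rw [Complex.norm_real, Real.norm_of_nonneg (by positivity)]
        exact hb n hn
      · rw [norm_zero]
        positivity
    have hdn : ‖ptA θ hθ - iMap (mkE _ hx)‖ ≤ t ^ θ := by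
      apply norm_le' _ (by positivity)
      intro n
      rw [ZeroAtInftyContinuousMap.coe_sub, Pi.sub_apply, ptA_apply, iMap_apply, mkE_apply]
      split_ifs with hn
      · have : ((2 : ℂ)⁻¹) ^ n * ((2 ^ n * ((2 : ℝ) ^ (-θ)) ^ n : ℝ) : ℂ)
            = ((((2 : ℝ) ^ (-θ)) ^ n : ℝ) : ℂ) := by
          push_cast
          rw [← mul_assoc, ← mul_pow]
          norm_num
        rw [this, sub_self, norm_zero]
        positivity
      · rw [mul_zero, sub_zero, Complex.norm_real, Real.norm_of_nonneg (by positivity), pow_swap]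
        have e1 : 1 / t ≤ (2 : ℝ) ^ n := hN2.le.trans (pow_le_pow_right₀ (by norm_num) (by omega))
        have e2 : ((2 : ℝ) ^ n) ^ (-θ) ≤ (1 / t) ^ (-θ) :=
          Real.rpow_le_rpow_of_nonpos (by positivity) e1 (by linarith)
        refine e2.trans (le_of_eq ?_)
        rw [one_div, Real.inv_rpow ht.le, Real.rpow_neg ht.le, inv_inv]
    have e3 : t * (1 / t) ^ (1 - θ) = t ^ θ := by
      rw [one_div, Real.inv_rpow ht.le, ← Real.rpow_neg ht.le]
      nth_rewrite 1 [← Real.rpow_one t]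
      rw [← Real.rpow_add ht]
      congr 1
      ring
    have e4 : t * ‖mkE _ hx‖ ≤ t ^ θ := by
      rw [← e3]
      exact mul_le_mul_of_nonneg_left hxn ht.le
    linarith

noncomputable def e0 (s : ℝ) : E := mkE (fun n => if n = 0 then (s : ℂ) else 0) (by
  apply tendsto_atTop_of_eventually_const (i₀ := 1)
  intro n hn
  rw [if_neg (by omega)])

lemma e0_apply (s : ℝ) (n : ℕ) : e0 s n = if n = 0 then (s : ℂ) else 0 := rfl

lemma norm_e0_le {s : ℝ} (hs : 0 ≤ s) : ‖e0 s‖ ≤ s := by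
  apply norm_le' _ hs
  intro n
  rw [e0_apply]
  split_ifs with h
  · rw [Complex.norm_real, Real.norm_of_nonneg hs]
  · simpa using hs

lemma KFun_e0_le {s : ℝ} (hs : 0 ≤ s) {θ : ℝ} (hθ : 0 < θ) (hθ1 : θ < 1) {t : ℝ} (ht : 0 < t) :
    KFun iMap t (e0 s) ≤ s * t ^ θ := by
  rcases le_or_gt 1 t with h1 | h1
  · refine (KFun_le iMap ht.le (e0 s) 0).trans ?_
    have h2 : 1 ≤ t ^ θ := Real.one_le_rpow h1 hθ.le
    simp only [map_zero, sub_zero, norm_zero, mul_zero, add_zero]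
    have := norm_e0_le hs
    nlinarith
  · refine (KFun_le iMap ht.le (e0 s) (e0 s)).trans ?_
    have e1 : e0 s - iMap (e0 s) = 0 := by
      ext n
      rw [ZeroAtInftyContinuousMap.coe_sub, Pi.sub_apply, iMap_apply, e0_apply]
      split_ifs with h
      · subst h; simp
      · simp
    rw [e1, norm_zero, zero_add]
    have e2 : t ≤ t ^ θ := by
      have := Real.rpow_le_rpow_of_exponent_ge ht h1.le hθ1.le
      rwa [Real.rpow_one] at this
    have := norm_e0_le hs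
    calc t * ‖e0 s‖ ≤ t ^ θ * s := mul_le_mul e2 this (norm_nonneg _) (by positivity)
      _ = s * t ^ θ := mul_comm _ _

lemma rpow_neg_mul_le {t θ C K : ℝ} (ht : 0 < t) (h : K ≤ C * t ^ θ) : t ^ (-θ) * K ≤ C := by
  rw [Real.rpow_neg ht.le]
  rw [inv_mul_le_iff₀ (by positivity)]
  linarith [mul_comm (t ^ θ) C]

lemma KNorm_top_le {A0 A1 : Type*} [NormedAddCommGroup A0] [NormedSpace ℂ A0]
    [NormedAddCommGroup A1] [NormedSpace ℂ A1] (i : A1 →L[ℂ] A0) (θ : ℝ) (a : A0) (C : ℝ)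
    (h : ∀ t : ℝ, 0 < t → KFun i t a ≤ C * t ^ θ) : KNorm i θ ∞ a ≤ ENNReal.ofReal C := by
  unfold KNorm
  rw [if_pos rfl]
  apply iSup_le
  rintro ⟨t, ht⟩
  apply ENNReal.ofReal_le_ofReal
  exact rpow_neg_mul_le ht (h t ht)

lemma le_KFun (x : E) (n : ℕ) : ‖x n‖ ≤ KFun iMap (((2 : ℝ)⁻¹) ^ n) x := by
  apply le_ciInf
  intro c
  have h1 : ‖x n‖ ≤ ‖x n - iMap c n‖ + ‖iMap c n‖ := by
    have := norm_add_le (x n - iMap c n) (iMap c n)
    simpa using this
  have h2 : ‖x n - iMap c n‖ ≤ ‖x - iMap c‖ := by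
    have := apply_le (x - iMap c) n
    simpa using this
  have h3 : ‖iMap c n‖ ≤ ((2 : ℝ)⁻¹) ^ n * ‖c‖ := by
    rw [iMap_apply, norm_mul, norm_pow, norm_inv]
    have h2 : ‖(2 : ℂ)‖ = 2 := by norm_num
    rw [h2]
    exact mul_le_mul_of_nonneg_left (apply_le c n) (by positivity)
  linarith

lemma not_cont (θ : ℝ) (hθ : 0 < θ) (hθ1 : θ < 1) : ¬ ContinuousK iMap iMap UMap θ ∞ := by
  intro h
  have hfin : KNorm iMap θ ∞ (ptA θ hθ) ≠ ∞ :=
    ne_top_of_le_ne_top ENNReal.ofReal_ne_top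
      (KNorm_top_le iMap θ _ 2 (fun t ht => KFun_ptA_le θ hθ hθ1 ht))
  obtain ⟨δ, hδ, H⟩ := h (ptA θ hθ) hfin 1 zero_lt_one
  obtain ⟨s, hs0, hs⟩ : ∃ s : ℝ, 0 < s ∧ ENNReal.ofReal s < δ := by
    obtain ⟨r, hr0, hr⟩ := ENNReal.lt_iff_exists_nnreal_btwn.1 hδ
    refine ⟨r, by exact_mod_cast hr0, by simpa using hr⟩
  set b : E := ptA θ hθ + e0 s with hb
  have hbfin : KNorm iMap θ ∞ b ≠ ∞ := by
    refine ne_top_of_le_ne_top ENNReal.ofReal_ne_top
      (KNorm_top_le iMap θ _ (2 + s) (fun t ht => ?_))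
    refine (KFun_add_le iMap ht.le _ _).trans ?_
    have h1 := KFun_ptA_le θ hθ hθ1 ht
    have h2 := KFun_e0_le hs0.le hθ hθ1 ht
    linarith
  have hba : KNorm iMap θ ∞ (b - ptA θ hθ) < δ := by
    have : b - ptA θ hθ = e0 s := by rw [hb]; abel
    rw [this]
    exact lt_of_le_of_lt (KNorm_top_le iMap θ _ s (fun t ht => KFun_e0_le hs0.le hθ hθ1 ht)) hs
  have hlt := H b hbfin hba
  have hq1 : (2 : ℝ) ^ (-θ) < 1 := Real.rpow_lt_one_of_one_lt_of_neg (by norm_num) (by linarith)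
  have hq0 : 0 < (2 : ℝ) ^ (-θ) := by positivity
  obtain ⟨n, hn⟩ := exists_pow_lt_of_lt_one hs0 hq1
  have hn' : ((2 : ℝ) ^ (-θ)) ^ (n + 1) ≤ s :=
    (pow_le_pow_of_le_one hq0.le hq1.le (Nat.le_succ n)).trans hn.le
  have hval : ‖(UMap b - UMap (ptA θ hθ)) (n + 1)‖ = ((2 : ℝ) ^ (-θ)) ^ (n + 1) := by
    rw [ZeroAtInftyContinuousMap.coe_sub, Pi.sub_apply, UMap_apply, UMap_apply,
      if_neg (Nat.succ_ne_zero n), if_neg (Nat.succ_ne_zero n)]
    have e1 : b (n + 1) = ptA θ hθ (n + 1) := by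
      rw [hb, ZeroAtInftyContinuousMap.coe_add, Pi.add_apply, e0_apply,
        if_neg (Nat.succ_ne_zero n), add_zero]
    have e2 : b 0 - 1 = (s : ℂ) := by
      rw [hb, ZeroAtInftyContinuousMap.coe_add, Pi.add_apply, e0_apply, if_pos rfl, ptA_apply]
      simp
    have e3 : ptA θ hθ 0 - 1 = 0 := by
      rw [ptA_apply]
      simp
    rw [e1, e2, e3, norm_ptA_apply, norm_zero, Complex.norm_real, Real.norm_of_nonneg hs0.le,
      min_eq_left hn', min_eq_right (by positivity), Complex.ofReal_zero, sub_zero,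
      Complex.norm_real, Real.norm_of_nonneg (by positivity)]
  have hge : (1 : ℝ≥0∞) ≤ KNorm iMap θ ∞ (UMap b - UMap (ptA θ hθ)) := by
    unfold KNorm
    rw [if_pos rfl]
    refine le_iSup_of_le ⟨((2 : ℝ)⁻¹) ^ (n + 1), by simp⟩ ?_
    rw [ENNReal.one_le_ofReal]
    have hk := le_KFun (UMap b - UMap (ptA θ hθ)) (n + 1)
    rw [hval] at hk
    have e1 : (((2 : ℝ)⁻¹) ^ (n + 1)) ^ (-θ) * ((2 : ℝ) ^ (-θ)) ^ (n + 1) = 1 := by
      rw [pow_swap, ← Real.mul_rpow (by positivity) (by positivity), ← mul_pow]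
      norm_num
    calc (1 : ℝ) = (((2 : ℝ)⁻¹) ^ (n + 1)) ^ (-θ) * ((2 : ℝ) ^ (-θ)) ^ (n + 1) := e1.symm
      _ ≤ _ := mul_le_mul_of_nonneg_left hk (by positivity)
  exact absurd hlt (not_lt.2 hge)

lemma hypH_example : HypH iMap iMap UMap UOne where
  inj_i := iMap_injective
  inj_j := iMap_injective
  restr := U_restr
  lip := ⟨1, U_lip⟩
  bdd := ⟨1, UOne_bdd⟩

end example_

section positive

variable {A0 A1 B0 B1 : Type*} [NormedAddCommGroup A0] [NormedSpace ℂ A0]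
    [NormedAddCommGroup A1] [NormedSpace ℂ A1] [NormedAddCommGroup B0] [NormedSpace ℂ B0]
    [NormedAddCommGroup B1] [NormedSpace ℂ B1] {i : A1 →L[ℂ] A0} {j : B1 →L[ℂ] B0}
    {U : A0 → B0} {U1 : A1 → B1}

lemma KFun_mono (i : A1 →L[ℂ] A0) (a : A0) {s t : ℝ} (hs : 0 ≤ s) (hst : s ≤ t) :
    KFun i s a ≤ KFun i t a := by
  unfold KFun
  apply ciInf_mono (KFun_bddBelow i hs a)
  intro x
  have := mul_le_mul_of_nonneg_right hst (norm_nonneg x)
  linarith

lemma KFun_le_norm (i : A1 →L[ℂ] A0) (a : A0) {t : ℝ} (ht : 0 ≤ t) : KFun i t a ≤ ‖a‖ := by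
  have := KFun_le i ht a 0
  simpa using this

lemma KFun_neg_le (i : A1 →L[ℂ] A0) (a : A0) {t : ℝ} (ht : 0 ≤ t) :
    KFun i t (-a) ≤ KFun i t a := by
  apply le_ciInf
  intro x
  refine (KFun_le i ht (-a) (-x)).trans ?_
  have : -a - i (-x) = -(a - i x) := by rw [map_neg]; abel
  rw [this, norm_neg, norm_neg]

lemma KFun_U_le (h : HypH i j U U1) : ∃ M : ℝ, 0 ≤ M ∧ ∀ (t : ℝ) (_ : 0 ≤ t) (b : A0),
    KFun j t (U b) ≤ M * KFun i t b := by
  obtain ⟨M0, h0⟩ := h.lip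
  obtain ⟨M1, h1⟩ := h.bdd
  set M := max 0 (max M0 M1) with hM
  have hMn : 0 ≤ M := le_max_left _ _
  refine ⟨M, hMn, ?_⟩
  intro t ht b
  have e : M * KFun i t b = ⨅ x : A1, M * (‖b - i x‖ + t * ‖x‖) :=
    Real.mul_iInf_of_nonneg hMn _
  rw [e]
  apply le_ciInf
  intro x
  refine (KFun_le j ht (U b) (U1 x)).trans ?_
  rw [← h.restr]
  have e1 : ‖U b - U (i x)‖ ≤ M * ‖b - i x‖ :=
    (h0 _ _).trans (mul_le_mul_of_nonneg_right ((le_max_left _ _).trans (le_max_right _ _))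
      (norm_nonneg _))
  have e2 : ‖U1 x‖ ≤ M * ‖x‖ :=
    (h1 _).trans (mul_le_mul_of_nonneg_right ((le_max_right _ _).trans (le_max_right _ _))
      (norm_nonneg _))
  have e3 := mul_le_mul_of_nonneg_left e2 ht
  linarith

lemma norm_le_KFun_one (i : A1 →L[ℂ] A0) (a : A0) :
    ‖a‖ ≤ max 1 ‖i‖ * KFun i 1 a := by
  have e : max 1 ‖i‖ * KFun i 1 a = ⨅ x : A1, max 1 ‖i‖ * (‖a - i x‖ + 1 * ‖x‖) :=
    Real.mul_iInf_of_nonneg (le_trans zero_le_one (le_max_left _ _)) _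
  rw [e]
  apply le_ciInf
  intro x
  have h1 : ‖a‖ ≤ ‖a - i x‖ + ‖i x‖ := by
    have := norm_add_le (a - i x) (i x)
    simpa using this
  have h2 : ‖i x‖ ≤ max 1 ‖i‖ * ‖x‖ :=
    (i.le_opNorm x).trans (mul_le_mul_of_nonneg_right (le_max_right _ _) (norm_nonneg _))
  have h3 : ‖a - i x‖ ≤ max 1 ‖i‖ * ‖a - i x‖ :=
    le_mul_of_one_le_left (norm_nonneg _) (le_max_left _ _)
  rw [mul_add, one_mul]
  linarith

/-- the integral whose `1/r`-th power is the norm -/
noncomputable def II (i : A1 →L[ℂ] A0) (θ r : ℝ) (a : A0) : ℝ≥0∞ :=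
  ∫⁻ t in Ioi (0 : ℝ), ENNReal.ofReal (t ^ (-θ) * KFun i t a) ^ r * ENNReal.ofReal (1 / t)

lemma KNorm_eq (i : A1 →L[ℂ] A0) (θ : ℝ) {p : ℝ≥0∞} (hp : p ≠ ∞) (a : A0) :
    KNorm i θ p a = (II i θ p.toReal a) ^ (1 / p.toReal) := by
  unfold KNorm II
  rw [if_neg hp]

lemma aem_K (i : A1 →L[ℂ] A0) (θ r : ℝ) (a : A0) :
    AEMeasurable (fun t : ℝ => ENNReal.ofReal (t ^ (-θ) * KFun i t a) ^ r
      * ENNReal.ofReal (1 / t)) (volume.restrict (Ioi (0 : ℝ))) := by
  have h1 : AEMeasurable (fun t : ℝ => KFun i t a) (volume.restrict (Ioi (0 : ℝ))) := by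
    apply aemeasurable_restrict_of_monotoneOn measurableSet_Ioi
    intro s hs t _ hst
    exact KFun_mono i a (le_of_lt hs) hst
  have h2 : AEMeasurable (fun t : ℝ => t ^ (-θ)) (volume.restrict (Ioi (0 : ℝ))) :=
    (measurable_id.pow_const _).aemeasurable
  have h3 : AEMeasurable (fun t : ℝ => ENNReal.ofReal (1 / t)) (volume.restrict (Ioi (0 : ℝ))) :=
    (ENNReal.measurable_ofReal.comp (measurable_const.div measurable_id)).aemeasurable
  exact ((h2.mul h1).ennreal_ofReal.pow_const r).mul h3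

/-- lower bound of the integral by the value at 1 -/
lemma II_lower (i : A1 →L[ℂ] A0) {θ r : ℝ} (hθ : 0 < θ) (hr : 0 < r) (a : A0) :
    ENNReal.ofReal ((2 : ℝ) ^ (-θ) * KFun i 1 a) ^ r * ENNReal.ofReal (1 / 2) ≤ II i θ r a := by
  unfold II
  have h1 : ∫⁻ t in Ioc (1 : ℝ) 2, ENNReal.ofReal ((2 : ℝ) ^ (-θ) * KFun i 1 a) ^ r
      * ENNReal.ofReal (1 / 2) = ENNReal.ofReal ((2 : ℝ) ^ (-θ) * KFun i 1 a) ^ r
      * ENNReal.ofReal (1 / 2) := by
    rw [setLIntegral_const, Real.volume_Ioc]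
    norm_num
  rw [← h1]
  refine le_trans ?_ (lintegral_mono_set (show Ioc (1 : ℝ) 2 ⊆ Ioi 0 from
    fun x hx => lt_trans zero_lt_one hx.1))
  apply setLIntegral_mono' measurableSet_Ioc
  intro t ht
  have ht0 : 0 < t := lt_trans zero_lt_one ht.1
  refine mul_le_mul' (ENNReal.rpow_le_rpow (ENNReal.ofReal_le_ofReal ?_) hr.le)
    (ENNReal.ofReal_le_ofReal (one_div_le_one_div_of_le ht0 ht.2))
  apply mul_le_mul _ (KFun_mono i a zero_le_one ht.1.le) (KFun_nonneg i zero_le_one a)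
    (by positivity)
  exact Real.rpow_le_rpow_of_nonpos ht0 ht.2 (by linarith)

lemma tendsto_norm_of_II {θ r : ℝ} (hθ : 0 < θ) (hr : 0 < r) (h : ℕ → A0)
    (hI : Tendsto (fun n => II i θ r (h n)) atTop (𝓝 0)) :
    Tendsto (fun n => ‖h n‖) atTop (𝓝 0) := by
  have h1 : Tendsto (fun n => ENNReal.ofReal ((2 : ℝ) ^ (-θ) * KFun i 1 (h n)) ^ r
      * ENNReal.ofReal (1 / 2)) atTop (𝓝 0) :=
    tendsto_of_tendsto_of_tendsto_of_le_of_le tendsto_const_nhds hI (fun _ => zero_le)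
      (fun n => II_lower i hθ hr (h n))
  have hc : ENNReal.ofReal (1 / 2) ≠ 0 := by
    rw [Ne, ENNReal.ofReal_eq_zero]; norm_num
  have h2 : Tendsto (fun n => ENNReal.ofReal ((2 : ℝ) ^ (-θ) * KFun i 1 (h n)) ^ r) atTop
      (𝓝 0) := by
    have := ENNReal.Tendsto.mul_const (b := (ENNReal.ofReal (1 / 2))⁻¹) h1
      (Or.inr (ENNReal.inv_ne_top.2 hc))
    rw [zero_mul] at this
    refine this.congr (fun n => ?_)
    rw [mul_assoc, ENNReal.mul_inv_cancel hc ENNReal.ofReal_ne_top, mul_one]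
  have h3 : Tendsto (fun n => ENNReal.ofReal ((2 : ℝ) ^ (-θ) * KFun i 1 (h n))) atTop
      (𝓝 0) := by
    have := h2.ennrpow_const (r⁻¹)
    have e : ∀ n, (ENNReal.ofReal ((2 : ℝ) ^ (-θ) * KFun i 1 (h n)) ^ r) ^ r⁻¹ =
        ENNReal.ofReal ((2 : ℝ) ^ (-θ) * KFun i 1 (h n)) := fun n => by
      rw [← ENNReal.rpow_mul, mul_inv_cancel₀ hr.ne', ENNReal.rpow_one]
    simp only [e] at this
    rwa [ENNReal.zero_rpow_of_pos (inv_pos.2 hr)] at this
  have h4 : Tendsto (fun n => (2 : ℝ) ^ (-θ) * KFun i 1 (h n)) atTop (𝓝 0) := by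
    have := (ENNReal.tendsto_toReal ENNReal.zero_ne_top).comp h3
    refine this.congr (fun n => ?_)
    exact ENNReal.toReal_ofReal (mul_nonneg (by positivity) (KFun_nonneg i zero_le_one _))
  have h5 : Tendsto (fun n => KFun i 1 (h n)) atTop (𝓝 0) := by
    have := h4.const_mul (((2 : ℝ) ^ (-θ))⁻¹)
    rw [mul_zero] at this
    refine this.congr (fun n => ?_)
    rw [← mul_assoc, inv_mul_cancel₀ (by positivity), one_mul]
  have h6 := h5.const_mul (max 1 ‖i‖)
  rw [mul_zero] at h6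
  exact squeeze_zero (fun _ => norm_nonneg _) (fun n => norm_le_KFun_one i (h n)) h6

lemma tendsto_II (H : HypH i j U U1) {θ r : ℝ} (hθ : 0 < θ) (hr : 1 ≤ r) (a : A0)
    (ha : II i θ r a ≠ ∞) (b : ℕ → A0)
    (hI : Tendsto (fun n => II i θ r (b n - a)) atTop (𝓝 0)) :
    Tendsto (fun n => II j θ r (U (b n) - U a)) atTop (𝓝 0) := by
  have hr0 : 0 < r := by linarith
  have hnorm := tendsto_norm_of_II hθ hr0 _ hI
  obtain ⟨M, hM, hMK⟩ := KFun_U_le H
  obtain ⟨M0, hM0⟩ := H.lip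
  set L := max M0 0 with hL
  have hL0 : 0 ≤ L := le_max_right _ _
  have hLip : ∀ n, ‖U (b n) - U a‖ ≤ L * ‖b n - a‖ := fun n =>
    (hM0 _ _).trans (mul_le_mul_of_nonneg_right (le_max_left _ _) (norm_nonneg _))
  -- pointwise bound
  have hpt : ∀ n (t : ℝ), 0 < t → KFun j t (U (b n) - U a) ≤
      M * KFun i t (b n - a) + min (2 * M * KFun i t a) (L * ‖b n - a‖) := by
    intro n t ht
    have h1 : KFun j t (U (b n) - U a) ≤ L * ‖b n - a‖ :=
      (KFun_le_norm j _ ht.le).trans (hLip n)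
    have h2 : KFun j t (U (b n) - U a) ≤ M * KFun i t (b n - a) + 2 * M * KFun i t a := by
      rw [sub_eq_add_neg]
      refine (KFun_add_le j ht.le _ _).trans ?_
      have e1 := KFun_neg_le j (U a) ht.le
      have e2 := hMK t ht.le a
      have e3 := hMK t ht.le (b n)
      have e4 : KFun i t (b n) ≤ KFun i t (b n - a) + KFun i t a := by
        have := KFun_add_le i ht.le (b n - a) a
        simpa using this
      have e5 := mul_le_mul_of_nonneg_left e4 hM
      linarith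
    have h3 : 0 ≤ M * KFun i t (b n - a) := mul_nonneg hM (KFun_nonneg i ht.le _)
    rcases min_choice (2 * M * KFun i t a) (L * ‖b n - a‖) with h | h
    · rw [h]; exact h2
    · rw [h]; linarith
  -- the dominated part
  set Φ : ℕ → ℝ → ℝ≥0∞ := fun n t =>
    ENNReal.ofReal (t ^ (-θ) * min (2 * M * KFun i t a) (L * ‖b n - a‖)) ^ r
      * ENNReal.ofReal (1 / t) with hΦ
  have hΦm : ∀ n, AEMeasurable (Φ n) (volume.restrict (Ioi (0 : ℝ))) := by
    intro n
    have h1 : AEMeasurable (fun t : ℝ => min (2 * M * KFun i t a) (L * ‖b n - a‖))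
        (volume.restrict (Ioi (0 : ℝ))) := by
      apply aemeasurable_restrict_of_monotoneOn measurableSet_Ioi
      intro s hs t _ hst
      exact min_le_min_right _ (mul_le_mul_of_nonneg_left (KFun_mono i a (le_of_lt hs) hst)
        (by positivity))
    have h2 : AEMeasurable (fun t : ℝ => t ^ (-θ)) (volume.restrict (Ioi (0 : ℝ))) :=
      (measurable_id.pow_const _).aemeasurable
    have h3 : AEMeasurable (fun t : ℝ => ENNReal.ofReal (1 / t))
        (volume.restrict (Ioi (0 : ℝ))) :=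
      (ENNReal.measurable_ofReal.comp (measurable_const.div measurable_id)).aemeasurable
    exact ((h2.mul h1).ennreal_ofReal.pow_const r).mul h3
  have hΦ0 : Tendsto (fun n => ∫⁻ t in Ioi (0 : ℝ), Φ n t) atTop (𝓝 0) := by
    have e0 : (0 : ℝ≥0∞) = ∫⁻ _ in Ioi (0 : ℝ), (0 : ℝ≥0∞) := by simp
    rw [e0]
    refine tendsto_lintegral_of_dominated_convergence' (fun t : ℝ =>
      ENNReal.ofReal (2 * M) ^ r * (ENNReal.ofReal (t ^ (-θ) * KFun i t a) ^ r
      * ENNReal.ofReal (1 / t))) hΦm ?_ ?_ ?_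
    · intro n
      refine (ae_restrict_iff' measurableSet_Ioi).2 (Eventually.of_forall (fun t ht => ?_))
      have ht' : 0 < t := ht
      simp only [hΦ]
      rw [← mul_assoc, ← ENNReal.mul_rpow_of_nonneg _ _ hr0.le,
        ← ENNReal.ofReal_mul (by positivity)]
      refine mul_le_mul' (ENNReal.rpow_le_rpow (ENNReal.ofReal_le_ofReal ?_) hr0.le) le_rfl
      calc t ^ (-θ) * min (2 * M * KFun i t a) (L * ‖b n - a‖) ≤
          t ^ (-θ) * (2 * M * KFun i t a) :=
            mul_le_mul_of_nonneg_left (min_le_left _ _) (by positivity)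
        _ = 2 * M * (t ^ (-θ) * KFun i t a) := by ring
    · rw [lintegral_const_mul'' _ (aem_K i θ r a)]
      refine ENNReal.mul_ne_top ?_ ha
      exact ENNReal.rpow_ne_top_of_nonneg hr0.le ENNReal.ofReal_ne_top
    · refine (ae_restrict_iff' measurableSet_Ioi).2 (Eventually.of_forall (fun t ht => ?_))
      have ht' : 0 < t := ht
      have e1 : Tendsto (fun n => t ^ (-θ) * min (2 * M * KFun i t a) (L * ‖b n - a‖)) atTop
          (𝓝 0) := by
        have e2 : Tendsto (fun n => t ^ (-θ) * (L * ‖b n - a‖)) atTop (𝓝 0) := by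
          have := (hnorm.const_mul L).const_mul (t ^ (-θ))
          simpa using this
        refine squeeze_zero (fun n => ?_) (fun n => ?_) e2
        · have := KFun_nonneg i ht'.le a
          positivity
        · exact mul_le_mul_of_nonneg_left (min_le_right _ _) (by positivity)
      have e3 := (ENNReal.tendsto_ofReal e1).ennrpow_const r
      rw [ENNReal.ofReal_zero, ENNReal.zero_rpow_of_pos hr0] at e3
      have e4 := ENNReal.Tendsto.mul_const (b := ENNReal.ofReal (1 / t)) e3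
        (Or.inr ENNReal.ofReal_ne_top)
      rw [zero_mul] at e4
      exact e4
  -- the final bound
  have hbound : ∀ n, II j θ r (U (b n) - U a) ≤ (2 : ℝ≥0∞) ^ (r - 1) *
      (ENNReal.ofReal M ^ r * II i θ r (b n - a) + ∫⁻ t in Ioi (0 : ℝ), Φ n t) := by
    intro n
    have e1 : ENNReal.ofReal M ^ r * II i θ r (b n - a) = ∫⁻ t in Ioi (0 : ℝ),
        ENNReal.ofReal M ^ r * (ENNReal.ofReal (t ^ (-θ) * KFun i t (b n - a)) ^ r
        * ENNReal.ofReal (1 / t)) := by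
      rw [lintegral_const_mul'' _ (aem_K i θ r _)]
      rfl
    rw [e1, ← lintegral_add_right' _ (hΦm n), ← lintegral_const_mul' _ _ (by
      exact ENNReal.rpow_ne_top_of_nonneg (by linarith) ENNReal.ofNat_ne_top)]
    unfold II
    refine setLIntegral_mono' measurableSet_Ioi (fun t ht => ?_)
    have ht' : 0 < t := ht
    have e2 : ENNReal.ofReal (t ^ (-θ) * KFun j t (U (b n) - U a)) ≤
        ENNReal.ofReal (M * (t ^ (-θ) * KFun i t (b n - a))) +
        ENNReal.ofReal (t ^ (-θ) * min (2 * M * KFun i t a) (L * ‖b n - a‖)) := by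
      rw [← ENNReal.ofReal_add]
      · apply ENNReal.ofReal_le_ofReal
        have := mul_le_mul_of_nonneg_left (hpt n t ht') (by positivity : 0 ≤ t ^ (-θ))
        linarith
      · have := KFun_nonneg i ht'.le (b n - a)
        positivity
      · have := KFun_nonneg i ht'.le a
        positivity
    calc ENNReal.ofReal (t ^ (-θ) * KFun j t (U (b n) - U a)) ^ r * ENNReal.ofReal (1 / t)
        ≤ (ENNReal.ofReal (M * (t ^ (-θ) * KFun i t (b n - a))) +
        ENNReal.ofReal (t ^ (-θ) * min (2 * M * KFun i t a) (L * ‖b n - a‖))) ^ r *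
        ENNReal.ofReal (1 / t) := by gcongr
      _ ≤ ((2 : ℝ≥0∞) ^ (r - 1) * (ENNReal.ofReal (M * (t ^ (-θ) * KFun i t (b n - a))) ^ r +
        ENNReal.ofReal (t ^ (-θ) * min (2 * M * KFun i t a) (L * ‖b n - a‖)) ^ r)) *
        ENNReal.ofReal (1 / t) := by
          gcongr
          exact ENNReal.rpow_add_le_mul_rpow_add_rpow _ _ hr
      _ = _ := by
          rw [ENNReal.ofReal_mul hM, ENNReal.mul_rpow_of_nonneg _ _ hr0.le]
          simp only [hΦ]
          ring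
  have hlim : Tendsto (fun n => (2 : ℝ≥0∞) ^ (r - 1) *
      (ENNReal.ofReal M ^ r * II i θ r (b n - a) + ∫⁻ t in Ioi (0 : ℝ), Φ n t)) atTop
      (𝓝 0) := by
    have e1 := ENNReal.Tendsto.const_mul (a := ENNReal.ofReal M ^ r) hI
      (Or.inr (ENNReal.rpow_ne_top_of_nonneg hr0.le ENNReal.ofReal_ne_top))
    have e2 := e1.add hΦ0
    have e3 := ENNReal.Tendsto.const_mul (a := (2 : ℝ≥0∞) ^ (r - 1)) e2
      (Or.inr (ENNReal.rpow_ne_top_of_nonneg (by linarith) ENNReal.ofNat_ne_top))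
    simpa using e3
  exact tendsto_of_tendsto_of_tendsto_of_le_of_le tendsto_const_nhds hlim
    (fun _ => zero_le) hbound

lemma continuousK (H : HypH i j U U1) {θ : ℝ} (hθ : 0 < θ) {p : ℝ≥0∞} (hp : 1 ≤ p)
    (hp' : p ≠ ∞) : ContinuousK i j U θ p := by
  have hr : 1 ≤ p.toReal := by
    have := ENNReal.toReal_mono hp' hp
    simpa using this
  have hr0 : 0 < p.toReal := by linarith
  intro a ha ε hε
  by_contra hcon
  push Not at hcon
  have hc : ∀ n : ℕ, ∃ b : A0, KNorm i θ p (b - a) < ((n : ℝ≥0∞))⁻¹ ∧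
      ε ≤ KNorm j θ p (U b - U a) := by
    intro n
    obtain ⟨b, _, hb2, hb3⟩ := hcon ((n : ℝ≥0∞)⁻¹) (by simp)
    exact ⟨b, hb2, hb3⟩
  choose b hb1 hb2 using hc
  have h1 : Tendsto (fun n => KNorm i θ p (b n - a)) atTop (𝓝 0) :=
    tendsto_of_tendsto_of_tendsto_of_le_of_le tendsto_const_nhds
      ENNReal.tendsto_inv_nat_nhds_zero (fun _ => zero_le) (fun n => (hb1 n).le)
  have h2 : Tendsto (fun n => II i θ p.toReal (b n - a)) atTop (𝓝 0) := by
    have := h1.ennrpow_const p.toReal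
    rw [ENNReal.zero_rpow_of_pos hr0] at this
    refine this.congr (fun n => ?_)
    rw [KNorm_eq i θ hp', ← ENNReal.rpow_mul, one_div, inv_mul_cancel₀ hr0.ne', ENNReal.rpow_one]
  have ha' : II i θ p.toReal a ≠ ∞ := by
    intro h
    apply ha
    rw [KNorm_eq i θ hp', h, ENNReal.top_rpow_of_pos (by positivity)]
  have h3 := tendsto_II H hθ hr a ha' b h2
  have h4 : Tendsto (fun n => KNorm j θ p (U (b n) - U a)) atTop (𝓝 0) := by
    have := h3.ennrpow_const (1 / p.toReal)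
    rw [ENNReal.zero_rpow_of_pos (by positivity)] at this
    refine this.congr (fun n => ?_)
    rw [KNorm_eq j θ hp']
  have h5 := ge_of_tendsto' h4 hb2
  exact absurd (lt_of_lt_of_le hε h5) (lt_irrefl _)

end positive

end Pool.Agent.H26.KCont
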