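import Mathlib

set_option autoImplicit false

namespace Pool.Agent.H26.KPs

open Filter Topology Set

/-- evaluation as a linear functional -/
def ev {X : Type} [TopologicalSpace X] (x : X) : C(X, ℝ) →ₗ[ℝ] ℝ where
  toFun f := f x
  map_add' _ _ := rfl
  map_smul' _ _ := rfl

lemma fin_rep {X : Type} [TopologicalSpace X] (L : C(X, ℝ) →ₗ[ℝ] ℝ)
    (hL : @Continuous C(X, ℝ) ℝ
      (TopologicalSpace.induced (fun g : C(X, ℝ) => (g : X → ℝ)) Pi.topologicalSpace)
      inferInstance L) :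
    ∃ (S : Finset X) (c : S → ℝ), ∀ f : C(X, ℝ), L f = ∑ x : S, c x * f x := by
  classical
  have hopen := (@continuous_def C(X, ℝ) ℝ (TopologicalSpace.induced
    (fun g : C(X, ℝ) => (g : X → ℝ)) Pi.topologicalSpace) inferInstance L).1 hL
    (Metric.ball 0 1) Metric.isOpen_ball
  rw [isOpen_induced_iff] at hopen
  obtain ⟨V, hV, hVeq⟩ := hopen
  have h0 : ((0 : C(X, ℝ)) : X → ℝ) ∈ V := by
    have : (0 : C(X, ℝ)) ∈ (fun g : C(X, ℝ) => (g : X → ℝ)) ⁻¹' V := by
      rw [hVeq]; simp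
    exact this
  obtain ⟨I, u, hu, hsub⟩ := isOpen_pi_iff.1 hV _ h0
  have key : ∀ f : C(X, ℝ), (∀ x ∈ I, f x = 0) → L f = 0 := by
    intro f hf
    by_contra hne
    have h1 : (((L f)⁻¹ • f : C(X, ℝ)) : X → ℝ) ∈ V := by
      apply hsub
      intro x hx
      have : ((L f)⁻¹ • f : C(X, ℝ)) x = (0 : C(X, ℝ)) x := by
        simp [hf x hx]
      rw [this]
      exact (hu x hx).2
    have h2 : ((L f)⁻¹ • f : C(X, ℝ)) ∈ (fun g : C(X, ℝ) => (g : X → ℝ)) ⁻¹' V := h1
    rw [hVeq] at h2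
    simp [hne] at h2
  have hmem : L ∈ Submodule.span ℝ (Set.range (fun x : I => ev (x : X))) := by
    apply mem_span_of_iInf_ker_le_ker
    intro f hf
    rw [LinearMap.mem_ker]
    apply key
    intro x hx
    have := (Submodule.mem_iInf _).1 hf ⟨x, hx⟩
    exact this
  rw [Submodule.mem_span_range_iff_exists_fun] at hmem
  obtain ⟨c, hc⟩ := hmem
  refine ⟨I, c, fun f => ?_⟩
  rw [← hc]
  simp [ev]

/-- locally finite sum of ramps -/
noncomputable def P (c : ℕ → ℝ) (t : ℝ) : ℝ := ∑ n ∈ Finset.range ⌈t⌉₊, c n * max 0 (t - n)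

lemma P_eq (c : ℕ → ℝ) (t : ℝ) (N : ℕ) (h : t ≤ N) :
    P c t = ∑ n ∈ Finset.range N, c n * max 0 (t - n) := by
  unfold P
  apply Finset.sum_subset
  · apply Finset.range_subset_range.2
    exact Nat.ceil_le.2 h
  · intro n _ hn
    have h1 : ⌈t⌉₊ ≤ n := by simpa using hn
    have h2 : t ≤ n := Nat.ceil_le.1 h1
    rw [max_eq_left (by linarith), mul_zero]

lemma P_cont (c : ℕ → ℝ) : Continuous (P c) := by
  rw [continuous_iff_continuousAt]
  intro t
  obtain ⟨N, hN⟩ := exists_nat_gt t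
  have h1 : P c =ᶠ[𝓝 t] fun s => ∑ n ∈ Finset.range N, c n * max 0 (s - n) := by
    filter_upwards [Iio_mem_nhds hN] with s hs
    exact P_eq c s N (le_of_lt hs)
  have h2 : Continuous fun s : ℝ => ∑ n ∈ Finset.range N, c n * max 0 (s - n) := by
    fun_prop
  exact (h2.continuousAt).congr h1.symm

noncomputable def Psi {Y : Type} [TopologicalSpace Y] (g : C(Y, ℝ)) : (ℕ → ℝ) →ₗ[ℝ] C(Y, ℝ) where
  toFun c := ⟨fun y => P c |g y|, (P_cont c).comp (g.continuous.abs)⟩
  map_add' c d := by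
    ext y
    simp only [ContinuousMap.coe_mk, ContinuousMap.add_apply, P, Pi.add_apply, add_mul,
      Finset.sum_add_distrib]
  map_smul' s c := by
    ext y
    simp only [ContinuousMap.coe_mk, ContinuousMap.smul_apply, P, Pi.smul_apply, smul_eq_mul,
      RingHom.id_apply, Finset.mul_sum, mul_assoc]

lemma Psi_cont {Y : Type} [TopologicalSpace Y] (g : C(Y, ℝ)) (y : Y) :
    Continuous fun c : ℕ → ℝ => Psi g c y := by
  change Continuous fun c : ℕ → ℝ => P c |g y|
  unfold P
  fun_prop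

theorem pseudo {X Y : Type} [TopologicalSpace X] [TopologicalSpace Y]
    (T : C(X, ℝ) ≃ₗ[ℝ] C(Y, ℝ))
    (hrep : ∀ x : X, ∃ (S : Finset Y) (c : S → ℝ), ∀ g, T.symm g x = ∑ y : S, c y * g y)
    (hX : ∀ f : C(X, ℝ), ∃ B : ℝ, ∀ x, |f x| ≤ B) (g : C(Y, ℝ)) : ∃ B : ℝ, ∀ y, |g y| ≤ B := by
  classical
  by_contra hg
  push Not at hg
  have hcont : ∀ x : X, Continuous fun c : ℕ → ℝ => T.symm (Psi g c) x := by
    intro x
    obtain ⟨S, a, ha⟩ := hrep x
    simp only [ha]
    exact continuous_finsetSum _ fun y _ => continuous_const.mul (Psi_cont g y)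
  obtain ⟨k, c0, hc0⟩ := nonempty_interior_of_iUnion_of_closed
    (f := fun k : ℕ => {c : ℕ → ℝ | ∀ x : X, |T.symm (Psi g c) x| ≤ k}) (by
      intro k
      simp only [Set.ofPred_forall]
      exact isClosed_iInter fun x => isClosed_le (hcont x).abs continuous_const) (by
      rw [eq_univ_iff_forall]
      intro c
      obtain ⟨B, hB⟩ := hX (T.symm (Psi g c))
      obtain ⟨k, hk⟩ := exists_nat_ge B
      exact mem_iUnion.2 ⟨k, fun x => (hB x).trans hk⟩)
  obtain ⟨I, u, hu, hsub⟩ := isOpen_pi_iff.1 isOpen_interior c0 hc0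
  obtain ⟨m, hm⟩ : ∃ m : ℕ, ∀ i ∈ I, i < m := ⟨I.sup id + 1, fun i hi =>
    Nat.lt_succ_of_le (Finset.le_sup (f := id) hi)⟩
  have h1 : ∀ (s : ℝ) (x : X), |T.symm (Psi g (c0 + s • Pi.single m 1)) x| ≤ k := by
    intro s
    have : c0 + s • Pi.single m 1 ∈ (I : Set ℕ).pi u := by
      intro i hi
      have : (c0 + s • (Pi.single m 1 : ℕ → ℝ)) i = c0 i := by
        have hne : i ≠ m := (hm i hi).ne
        simp [hne]
      rw [this]
      exact (hu i hi).2
    exact interior_subset (hsub this)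
  have h2 : ∀ x : X, T.symm (Psi g (Pi.single m 1)) x = 0 := by
    intro x
    by_contra hne
    have h3 := h1 0 x
    have h4 := h1 ((2 * k + 1) / T.symm (Psi g (Pi.single m 1)) x) x
    simp only [map_add, map_smul, ContinuousMap.add_apply, ContinuousMap.smul_apply,
      smul_eq_mul, zero_mul, add_zero] at h3 h4
    rw [div_mul_cancel₀ _ hne] at h4
    have h5 := abs_le.1 h3
    have h6 := abs_le.1 h4
    linarith [h5.1, h6.2]
  have h3 : T.symm (Psi g (Pi.single m 1)) = 0 := by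
    ext x; exact h2 x
  have h4 : Psi g (Pi.single m 1) = 0 := by
    rw [← T.apply_symm_apply (Psi g (Pi.single m 1)), h3, map_zero]
  obtain ⟨y, hy⟩ := hg m
  have h5 : P (Pi.single m 1) |g y| = 0 := by
    have := congrArg (fun h : C(Y, ℝ) => h y) h4
    exact this
  obtain ⟨N, hN⟩ := exists_nat_gt |g y|
  rw [P_eq _ _ N hN.le] at h5
  rw [Finset.sum_eq_single m] at h5
  · have h6 : (0 : ℝ) < |g y| - m := by linarith
    rw [Pi.single_eq_same, one_mul, max_eq_right h6.le] at h5
    linarith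
  · intro n _ hne
    simp [hne]
  · intro hmN
    exfalso
    apply hmN
    rw [Finset.mem_range]
    exact_mod_cast hy.trans hN

lemma fun_family (Z : Type) [TopologicalSpace Z] [T35Space Z] (B : Set (Set Z))
    (hB : TopologicalSpace.IsTopologicalBasis B) :
    ∃ r : (B × B) → C(Z, ℝ), ∀ (z : Z) (U : Set Z), IsOpen U → z ∈ U →
      ∃ j, r j z = 0 ∧ ∀ z', z' ∉ U → r j z' = 1 := by
  classical
  have h : ∀ j : B × B, ∃ f : C(Z, ℝ), (∃ f : C(Z, ℝ), (∀ z ∈ (j.1 : Set Z), f z = 0) ∧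
      ∀ z, z ∉ (j.2 : Set Z) → f z = 1) → (∀ z ∈ (j.1 : Set Z), f z = 0) ∧
      ∀ z, z ∉ (j.2 : Set Z) → f z = 1 := by
    intro j
    by_cases h : ∃ f : C(Z, ℝ), (∀ z ∈ (j.1 : Set Z), f z = 0) ∧
      ∀ z, z ∉ (j.2 : Set Z) → f z = 1
    · obtain ⟨f, hf⟩ := h
      exact ⟨f, fun _ => hf⟩
    · exact ⟨0, fun h' => absurd h' h⟩
  choose r hr using h
  refine ⟨r, fun z U hU hz => ?_⟩
  obtain ⟨b2, hb2, hz2, hsub2⟩ := hB.exists_subset_of_mem_open hz hU
  obtain ⟨f, hf, hf0, hf1⟩ := CompletelyRegularSpace.completely_regular z b2ᶜ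
    (hB.isOpen hb2).isClosed_compl (by simpa using hz2)
  have hO : IsOpen {z' : Z | ((f z' : unitInterval) : ℝ) < 1 / 2} :=
    isOpen_lt (continuous_subtype_val.comp hf) continuous_const
  obtain ⟨b1, hb1, hz1, hsub1⟩ := hB.exists_subset_of_mem_open
    (show z ∈ {z' : Z | ((f z' : unitInterval) : ℝ) < 1 / 2} by
      simp [hf0]) hO
  have hex : ∃ f : C(Z, ℝ), (∀ z ∈ b1, f z = 0) ∧ ∀ z, z ∉ b2 → f z = 1 := by
    refine ⟨⟨fun z' => max 0 (2 * ((f z' : unitInterval) : ℝ) - 1), ?_⟩, ?_, ?_⟩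
    · have : Continuous fun z' => ((f z' : unitInterval) : ℝ) := continuous_subtype_val.comp hf
      fun_prop
    · intro z' hz'
      have := hsub1 hz'
      simp only [mem_ofPred_eq] at this
      simp only [ContinuousMap.coe_mk]
      apply max_eq_left
      linarith
    · intro z' hz'
      have h1 : f z' = 1 := hf1 hz'
      simp only [ContinuousMap.coe_mk, h1]
      norm_num
  have := hr (⟨b1, hb1⟩, ⟨b2, hb2⟩) hex
  exact ⟨(⟨b1, hb1⟩, ⟨b2, hb2⟩), this.1 z hz1, fun z' hz' => this.2 z' fun h => hz' (hsub2 h)⟩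

lemma base_pi (κ : Cardinal.{0}) (hκ : Cardinal.aleph0 ≤ κ) (I : Type) (hI : Cardinal.mk I ≤ κ) :
    ∃ B : Set (Set (I → ℝ)), TopologicalSpace.IsTopologicalBasis B ∧ Cardinal.mk B ≤ κ := by
  classical
  let b := TopologicalSpace.countableBasis ℝ
  let S : Finset (I × b) → Set (I → ℝ) := fun P => {x | ∀ p ∈ P, x p.1 ∈ (p.2 : Set ℝ)}
  refine ⟨Set.range S, ?_, ?_⟩
  · apply TopologicalSpace.isTopologicalBasis_of_isOpen_of_nhds
    · rintro _ ⟨P, rfl⟩
      have : S P = ⋂ p ∈ P, (fun x : I → ℝ => x p.1) ⁻¹' (p.2 : Set ℝ) := by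
        ext x; simp [S]
      rw [this]
      apply isOpen_biInter_finset
      intro p _
      exact (TopologicalSpace.isOpen_of_mem_countableBasis p.2.2).preimage
        (continuous_apply (A := fun _ : I => ℝ) p.1)
    · intro x U hx hU
      obtain ⟨F, u, hu, hsub⟩ := isOpen_pi_iff.1 hU x hx
      have h1 : ∀ i : F, ∃ v : b, x i ∈ (v : Set ℝ) ∧ (v : Set ℝ) ⊆ u i := by
        intro i
        obtain ⟨v, hv, h1, h2⟩ := (TopologicalSpace.isBasis_countableBasis ℝ).exists_subset_of_mem_open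
          (hu i i.2).2 (hu i i.2).1
        exact ⟨⟨v, hv⟩, h1, h2⟩
      choose v hv1 hv2 using h1
      refine ⟨S (Finset.univ.image fun i : F => ((i : I), v i)), ⟨_, rfl⟩, ?_, ?_⟩
      · intro p hp
        obtain ⟨i, _, rfl⟩ := Finset.mem_image.1 hp
        exact hv1 i
      · intro y hy
        apply hsub
        intro i hi
        apply hv2 ⟨i, hi⟩
        exact hy ((i : I), v ⟨i, hi⟩) (Finset.mem_image.2 ⟨⟨i, hi⟩, Finset.mem_univ _, rfl⟩)
  · have hb : Cardinal.mk b ≤ Cardinal.aleph0 := by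
      rw [Cardinal.mk_le_aleph0_iff]
      exact (TopologicalSpace.countable_countableBasis ℝ).to_subtype
    calc Cardinal.mk (Set.range S) ≤ Cardinal.mk (Finset (I × b)) := Cardinal.mk_range_le
      _ ≤ Cardinal.mk (List (I × b)) := Cardinal.mk_le_of_surjective List.toFinset_surjective
      _ ≤ max Cardinal.aleph0 (Cardinal.mk (I × b)) := Cardinal.mk_list_le_max _
      _ ≤ κ := by
        apply max_le hκ
        rw [Cardinal.mk_prod, Cardinal.lift_id, Cardinal.lift_id]
        exact Cardinal.mul_le_of_le hκ hI (hb.trans hκ)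

/-- sigma-compactness of the span of a compact set -/
lemma span_sigma {I : Type} (M : Set (I → ℝ)) (hM : IsCompact M) :
    ∃ K : ℕ → Set (I → ℝ), (∀ n, IsCompact (K n)) ∧
      (⋃ n, K n) = (Submodule.span ℝ M : Set (I → ℝ)) := by
  have hMc : CompactSpace M := isCompact_iff_compactSpace.1 hM
  let Φ : (n : ℕ) → ((Fin n → ℝ) × (Fin n → M)) → (I → ℝ) := fun n q => ∑ i, q.1 i • (q.2 i : I → ℝ)
  have hΦ : ∀ n, Continuous (Φ n) := by
    intro n
    apply continuous_finsetSum
    intro i _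
    have h1 : Continuous fun q : (Fin n → ℝ) × (Fin n → M) => q.1 i :=
      (continuous_apply i).comp continuous_fst
    have h2 : Continuous fun q : (Fin n → ℝ) × (Fin n → M) => (q.2 i : I → ℝ) :=
      continuous_subtype_val.comp ((continuous_apply i).comp continuous_snd)
    exact h1.smul h2
  refine ⟨fun k => Φ k.unpair.1 '' ((Set.univ.pi fun _ => Set.Icc (-(k.unpair.2 : ℝ)) k.unpair.2)
    ×ˢ Set.univ), fun k => ?_, ?_⟩
  · apply IsCompact.image _ (hΦ _)
    apply IsCompact.prod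
    · exact isCompact_univ_pi fun _ => isCompact_Icc
    · exact isCompact_univ
  · ext w
    simp only [mem_iUnion, SetLike.mem_coe, Submodule.mem_span_set']
    constructor
    · rintro ⟨k, ⟨⟨a, m⟩, _, rfl⟩⟩
      exact ⟨k.unpair.1, a, m, rfl⟩
    · rintro ⟨n, a, m, rfl⟩
      obtain ⟨B, hB⟩ : ∃ B : ℕ, ∀ i, |a i| ≤ B := by
        obtain ⟨B, hB⟩ := exists_nat_ge (∑ i, |a i|)
        exact ⟨B, fun i => (Finset.single_le_sum (f := fun i => |a i|)
          (fun _ _ => abs_nonneg _) (Finset.mem_univ i)).trans hB⟩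
      refine ⟨Nat.pair n B, ?_⟩
      rw [Nat.unpair_pair]
      refine ⟨(a, m), ⟨fun i _ => ?_, trivial⟩, rfl⟩
      exact abs_le.1 (hB i)

theorem main (κ : Cardinal.{0}) (hκ : Cardinal.aleph0 ≤ κ)
    (X Y : Type) [TopologicalSpace X] [T35Space X] [TopologicalSpace Y] [T35Space Y]
    (T : C(X, ℝ) ≃ₗ[ℝ] C(Y, ℝ))
    (hT1 : @Continuous C(X, ℝ) (Y → ℝ)
            (TopologicalSpace.induced (fun g : C(X, ℝ) => (g : X → ℝ))
              Pi.topologicalSpace)
            Pi.topologicalSpace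
            (fun g => ((T g : C(Y, ℝ)) : Y → ℝ)))
    (hT2 : @Continuous C(Y, ℝ) (X → ℝ)
            (TopologicalSpace.induced (fun g : C(Y, ℝ) => (g : Y → ℝ))
              Pi.topologicalSpace)
            Pi.topologicalSpace
            (fun g => ((T.symm g : C(X, ℝ)) : X → ℝ)))
    (hX : ∀ (Z : Type) [TopologicalSpace Z] [T35Space Z],
        (∃ B : Set (Set Z), TopologicalSpace.IsTopologicalBasis B ∧ Cardinal.mk B ≤ κ) →
        ∀ f : X → Z, Continuous f → IsCompact (Set.range f))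
    (Z : Type) [TopologicalSpace Z] [T35Space Z]
    (hZ : ∃ B : Set (Set Z), TopologicalSpace.IsTopologicalBasis B ∧ Cardinal.mk B ≤ κ)
    (φ : Y → Z) (hφ : Continuous φ) : IsCompact (Set.range φ) := by
  classical
  have hrepY : ∀ y : Y, ∃ (S : Finset X) (c : S → ℝ), ∀ f, T f y = ∑ x : S, c x * f x := by
    intro y
    refine fin_rep ((ev y).comp T.toLinearMap) ?_
    exact @Continuous.comp C(X, ℝ) (Y → ℝ) ℝ (TopologicalSpace.induced
      (fun g : C(X, ℝ) => (g : X → ℝ)) Pi.topologicalSpace) _ _ _ _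
      (continuous_apply (A := fun _ : Y => ℝ) y) hT1
  have hrepX : ∀ x : X, ∃ (S : Finset Y) (c : S → ℝ), ∀ f, T.symm f x = ∑ y : S, c y * f y := by
    intro x
    refine fin_rep ((ev x).comp T.symm.toLinearMap) ?_
    exact @Continuous.comp C(Y, ℝ) (X → ℝ) ℝ (TopologicalSpace.induced
      (fun g : C(Y, ℝ) => (g : Y → ℝ)) Pi.topologicalSpace) _ _ _ _
      (continuous_apply (A := fun _ : X => ℝ) x) hT2
  have hXb : ∀ f : C(X, ℝ), ∃ B : ℝ, ∀ x, |f x| ≤ B := by
    intro f
    have hc := hX ℝ ⟨TopologicalSpace.countableBasis ℝ, TopologicalSpace.isBasis_countableBasis ℝ,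
      le_trans (by
        rw [Cardinal.mk_le_aleph0_iff]
        exact (TopologicalSpace.countable_countableBasis ℝ).to_subtype) hκ⟩ f f.continuous
    obtain ⟨B, hB⟩ := hc.isBounded.exists_norm_le
    exact ⟨B, fun x => by simpa using hB (f x) ⟨x, rfl⟩⟩
  have hYb := pseudo T hrepX hXb
  obtain ⟨B, hB, hBκ⟩ := hZ
  obtain ⟨r, hr⟩ := fun_family Z B hB
  let J := (B × B : Type)
  let I := FreeMonoid J
  have hJ : Cardinal.mk J ≤ κ := by
    rw [Cardinal.mk_prod, Cardinal.lift_id]
    exact Cardinal.mul_le_of_le hκ hBκ hBκ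
  have hI : Cardinal.mk I ≤ κ := (Cardinal.mk_list_le_max J).trans (max_le hκ hJ)
  let γ : I →* C(Y, ℝ) := FreeMonoid.lift (fun j => (r j).comp ⟨φ, hφ⟩)
  let e : Y → (I → ℝ) := fun y w => γ w y
  let F : X → (I → ℝ) := fun x w => T.symm (γ w) x
  have he : Continuous e := continuous_pi fun w => (γ w).continuous
  have hF : Continuous F := continuous_pi fun w => (T.symm (γ w)).continuous
  have hM : IsCompact (Set.range F) := hX (I → ℝ) (base_pi κ hκ I hI) F hF
  have hspan1 : ∀ y, e y ∈ Submodule.span ℝ (Set.range F) := by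
    intro y
    obtain ⟨S, c, hc⟩ := hrepY y
    have : e y = ∑ x : S, c x • F x := by
      funext w
      have := hc (T.symm (γ w))
      rw [T.apply_symm_apply] at this
      simp only [Finset.sum_apply, Pi.smul_apply, smul_eq_mul]
      exact this
    rw [this]
    exact Submodule.sum_mem _ fun x _ => Submodule.smul_mem _ _ (Submodule.subset_span ⟨_, rfl⟩)
  have hspan2 : ∀ x, F x ∈ Submodule.span ℝ (Set.range e) := by
    intro x
    obtain ⟨S, c, hc⟩ := hrepX x
    have : F x = ∑ y : S, c y • e y := by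
      funext w
      have := hc (γ w)
      simp only [Finset.sum_apply, Pi.smul_apply, smul_eq_mul]
      exact this
    rw [this]
    exact Submodule.sum_mem _ fun x _ => Submodule.smul_mem _ _ (Submodule.subset_span ⟨_, rfl⟩)
  have hspan : Submodule.span ℝ (Set.range F) = Submodule.span ℝ (Set.range e) := by
    apply le_antisymm
    · rw [Submodule.span_le]
      rintro _ ⟨x, rfl⟩; exact hspan2 x
    · rw [Submodule.span_le]
      rintro _ ⟨y, rfl⟩; exact hspan1 y
  -- Dedekind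
  have hDed : closure (Set.range e) ∩ (Submodule.span ℝ (Set.range F) : Set (I → ℝ)) ⊆
      Set.range e := by
    rintro χ ⟨hχ, hχs⟩
    have hclosed : IsClosed {ψ : I → ℝ | ψ 1 = 1 ∧ ∀ a b, ψ (a * b) = ψ a * ψ b} := by
      have hset : {ψ : I → ℝ | ψ 1 = 1 ∧ ∀ a b, ψ (a * b) = ψ a * ψ b} =
          {ψ : I → ℝ | ψ 1 = 1} ∩ ⋂ a : I, ⋂ b : I, {ψ : I → ℝ | ψ (a * b) = ψ a * ψ b} := by
        ext ψ; simp
      rw [hset]
      apply IsClosed.inter
      · exact isClosed_eq (continuous_apply (A := fun _ : I => ℝ) 1) continuous_const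
      · exact isClosed_iInter fun a => isClosed_iInter fun b =>
          isClosed_eq (continuous_apply (A := fun _ : I => ℝ) _)
            ((continuous_apply (A := fun _ : I => ℝ) a).mul
              (continuous_apply (A := fun _ : I => ℝ) b))
    have hmult : ∀ y, e y ∈ {ψ : I → ℝ | ψ 1 = 1 ∧ ∀ a b, ψ (a * b) = ψ a * ψ b} := by
      intro y
      refine ⟨?_, fun a b => ?_⟩
      · change γ 1 y = 1
        rw [map_one]; rfl
      · change γ (a * b) y = γ a y * γ b y
        rw [map_mul]; rfl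
    have hχm : χ ∈ {ψ : I → ℝ | ψ 1 = 1 ∧ ∀ a b, ψ (a * b) = ψ a * ψ b} := by
      refine closure_minimal ?_ hclosed hχ
      rintro _ ⟨y, rfl⟩; exact hmult y
    let χ' : I →* ℝ := { toFun := χ, map_one' := hχm.1, map_mul' := hχm.2 }
    let e' : Y → (I →* ℝ) := fun y =>
      { toFun := e y, map_one' := (hmult y).1, map_mul' := (hmult y).2 }
    by_contra hnot
    have hnot' : χ' ∉ Set.range e' := by
      rintro ⟨y, hy⟩
      apply hnot
      refine ⟨y, ?_⟩
      have := congrArg (fun f : I →* ℝ => (f : I → ℝ)) hy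
      exact this
    have hli := linearIndependent_monoidHom I ℝ
    have := hli.notMem_span_image hnot'
    apply this
    have himg : (fun f : I →* ℝ => (f : I → ℝ)) '' (Set.range e') = Set.range e := by
      rw [← Set.range_comp]
      rfl
    have hχs' : χ ∈ Submodule.span ℝ (Set.range e) := by
      rw [← hspan]; exact hχs
    have h3 : χ' ∘ id ∈ Submodule.span ℝ ((fun f : I →* ℝ => (f : I → ℝ)) '' (Set.range e')) := by
      rw [himg]; exact hχs'
    exact h3
  obtain ⟨K, hK, hKU⟩ := span_sigma _ hM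
  let K' : ℕ → Set (I → ℝ) := fun n => closure (Set.range e) ∩ K n
  have hK'c : ∀ n, IsClosed (K' n) := fun n => isClosed_closure.inter (hK n).isClosed
  have hK'sub : ∀ n, K' n ⊆ Set.range e := by
    rintro n w ⟨h1, h2⟩
    apply hDed
    refine ⟨h1, ?_⟩
    rw [← hKU]
    exact mem_iUnion.2 ⟨n, h2⟩
  have hcov : ∀ y, ∃ n, e y ∈ K' n := by
    intro y
    have : e y ∈ (Submodule.span ℝ (Set.range F) : Set (I → ℝ)) := hspan1 y
    rw [← hKU] at this
    obtain ⟨n, hn⟩ := mem_iUnion.1 this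
    exact ⟨n, subset_closure ⟨y, rfl⟩, hn⟩
  have hclosedN : IsClosed (Set.range e) := by
    rw [← closure_subset_iff_isClosed]
    intro z hz
    by_contra hznot
    have hψ : ∀ n, ∃ f : (I → ℝ) → unitInterval, Continuous f ∧ f z = 0 ∧ EqOn f 1 (K' n) :=
      fun n => CompletelyRegularSpace.completely_regular z (K' n) (hK'c n)
        fun h => hznot (hK'sub n h)
    choose ψ hψc hψ0 hψ1 using hψ
    let u : (I → ℝ) → ℝ := fun w => ∑' n : ℕ, (1 / 2 : ℝ) ^ n * ((ψ n w : unitInterval) : ℝ)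
    have hbound : ∀ n w, ‖(1 / 2 : ℝ) ^ n * ((ψ n w : unitInterval) : ℝ)‖ ≤ (1 / 2 : ℝ) ^ n := by
      intro n w
      have h1 : (0 : ℝ) ≤ (1 / 2 : ℝ) ^ n := by positivity
      have h2 := (ψ n w).2.1
      have h3 := (ψ n w).2.2
      rw [Real.norm_of_nonneg (mul_nonneg h1 h2)]
      exact mul_le_of_le_one_right h1 h3
    have hsummable : Summable fun n : ℕ => (1 / 2 : ℝ) ^ n :=
      summable_geometric_of_lt_one (by norm_num) (by norm_num)
    have hu : Continuous u := by
      apply continuous_tsum (u := fun n : ℕ => (1 / 2 : ℝ) ^ n) _ hsummable hbound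
      intro n
      exact continuous_const.mul (continuous_subtype_val.comp (hψc n))
    have hu0 : u z = 0 := by
      simp only [u, hψ0]
      simp
    have hupos : ∀ y, 0 < u (e y) := by
      intro y
      obtain ⟨n, hn⟩ := hcov y
      have hs : Summable fun n : ℕ => (1 / 2 : ℝ) ^ n * ((ψ n (e y) : unitInterval) : ℝ) :=
        Summable.of_norm_bounded hsummable fun n => hbound n (e y)
      apply hs.tsum_pos (fun m => mul_nonneg (by positivity) (ψ m (e y)).2.1) n
      have : ψ n (e y) = 1 := hψ1 n hn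
      rw [this]
      simp
    obtain ⟨C, hC⟩ := hYb ⟨fun y => (u (e y))⁻¹, (hu.comp he).inv₀ fun y => (hupos y).ne'⟩
    have hopen : IsOpen {w : I → ℝ | u w < (|C| + 1)⁻¹} := isOpen_lt hu continuous_const
    have hzmem : z ∈ {w : I → ℝ | u w < (|C| + 1)⁻¹} := by
      change u z < _
      rw [hu0]; positivity
    obtain ⟨_, hw, ⟨y, rfl⟩⟩ := mem_closure_iff.1 hz _ hopen hzmem
    have h1 := hC y
    simp only [ContinuousMap.coe_mk] at h1
    have h2 : u (e y) < (|C| + 1)⁻¹ := hw
    have h3 : |C| + 1 < (u (e y))⁻¹ := by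
      rw [lt_inv_comm₀ (by positivity) (hupos y)]
      exact h2
    have h4 := le_abs_self C
    have h5 := le_abs_self (u (e y))⁻¹
    linarith
  have hcompN : IsCompact (Set.range e) := by
    have hb : ∀ w : I, ∃ B : ℝ, ∀ y, |γ w y| ≤ B := fun w => hYb (γ w)
    choose b hb using hb
    apply IsCompact.of_isClosed_subset (isCompact_univ_pi fun w => isCompact_Icc (a := - b w)
      (b := b w)) hclosedN
    rintro _ ⟨y, rfl⟩ w _
    exact abs_le.1 (hb w y)
  -- back to Z
  let ι : Z → (J → ℝ) := fun z j => r j z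
  have hι : Continuous ι := continuous_pi fun j => (r j).continuous
  have hind : IsInducing ι := by
    rw [isInducing_iff_nhds]
    intro z
    apply le_antisymm
    · exact (hι.tendsto z).le_comap
    · intro V hV
      obtain ⟨U, hUV, hU, hzU⟩ := mem_nhds_iff.1 hV
      obtain ⟨j, hj0, hj1⟩ := hr z U hU hzU
      refine ⟨{w : J → ℝ | w j < 1}, ?_, ?_⟩
      · apply IsOpen.mem_nhds
        · exact isOpen_lt (continuous_apply (A := fun _ : J => ℝ) j) continuous_const
        · change r j z < 1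
          rw [hj0]; norm_num
      · intro z' hz'
        apply hUV
        by_contra hzn
        have : r j z' < 1 := hz'
        rw [hj1 z' hzn] at this
        exact lt_irrefl _ this
  rw [hind.isCompact_iff]
  have himg : ι '' Set.range φ = (fun w : I → ℝ => fun j : J => w (FreeMonoid.of j)) ''
      Set.range e := by
    rw [← Set.range_comp, ← Set.range_comp]
    congr 1
  rw [himg]
  apply hcompN.image
  exact continuous_pi fun j => continuous_apply (A := fun _ : I => ℝ) _

end Pool.Agent.H26.KPs
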