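import Pool.Agent.H26.LpSurfBox

open MeasureTheory Measure Metric Set Filter Topology
open scoped RealInnerProductSpace ENNReal NNReal Pointwise

namespace Pool.Agent.H26.LpSurf

abbrev Ix (k : ℕ) := Bool ⊕ Bool ⊕ (Bool × Bool) ⊕ (Fin k × Bool)

def sg (b : Bool) : ℝ := if b then 1 else -1

@[simp] lemma sg_true : sg true = 1 := rfl
@[simp] lemma sg_false : sg false = -1 := rfl
lemma sg_sq (b : Bool) : sg b * sg b = 1 := by cases b <;> norm_num
lemma sg_abs (b : Bool) : |sg b| = 1 := by cases b <;> norm_num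
lemma sg_ne (b : Bool) : sg b ≠ 0 := by cases b <;> norm_num
lemma sg_inj {b c : Bool} (h : sg b = sg c) : b = c := by
  cases b <;> cases c <;> simp_all <;> norm_num at h

noncomputable def rr (η : ℝ) : ℝ := √(4 + η ^ 2)

lemma rr_pos (η : ℝ) : 0 < rr η := Real.sqrt_pos.2 (by positivity)
lemma rr_sq (η : ℝ) : rr η * rr η = 4 + η ^ 2 := Real.mul_self_sqrt (by positivity)

noncomputable def nvec (k : ℕ) (η : ℝ) : Ix k → E (k + 2)
  | .inl b => EuclideanSpace.single 0 (sg b)
  | .inr (.inl b) => EuclideanSpace.single 1 (sg b)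
  | .inr (.inr (.inl (b, c))) =>
      EuclideanSpace.single 0 (η * sg b / rr η) + EuclideanSpace.single 1 (2 * sg c / rr η)
  | .inr (.inr (.inr (j, b))) => EuclideanSpace.single j.succ.succ (sg b)

noncomputable def ipr (k : ℕ) (η : ℝ) (x : E (k + 2)) : Ix k → ℝ
  | .inl b => sg b * x 0
  | .inr (.inl b) => sg b * x 1
  | .inr (.inr (.inl (b, c))) => (η * sg b * x 0 + 2 * sg c * x 1) / rr η
  | .inr (.inr (.inr (j, b))) => sg b * x j.succ.succ

lemma inner_nvec (k : ℕ) (η : ℝ) (x : E (k + 2)) (i : Ix k) :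
    ⟪x, nvec k η i⟫ = ipr k η x i := by
  rcases i with b | b | ⟨b, c⟩ | ⟨j, b⟩
  · simp [nvec, ipr, EuclideanSpace.inner_single_right]
  · simp [nvec, ipr, EuclideanSpace.inner_single_right]
  · simp only [nvec, ipr, inner_add_right, EuclideanSpace.inner_single_right, conj_trivial]
    ring
  · simp [nvec, ipr, EuclideanSpace.inner_single_right]

lemma norm_nvec (k : ℕ) (η : ℝ) (i : Ix k) : ‖nvec k η i‖ = 1 := by
  rcases i with b | b | ⟨b, c⟩ | ⟨j, b⟩
  · simp [nvec, sg_abs]
  · simp [nvec, sg_abs]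
  · have h : ‖nvec k η (.inr (.inr (.inl (b, c))))‖ ^ 2 = 1 := by
      rw [← real_inner_self_eq_norm_sq, inner_nvec]
      have h0 : (1 : Fin (k + 2)) ≠ 0 := by simp
      simp only [ipr, nvec, PiLp.add_apply, PiLp.single_apply, h0.symm, h0, if_true,
        if_false, add_zero, zero_add]
      have hr := rr_pos η
      field_simp
      have := rr_sq η
      have h1 := sg_sq b
      have h2 := sg_sq c
      nlinarith
    have h0 : 0 ≤ ‖nvec k η (.inr (.inr (.inl (b, c))))‖ := norm_nonneg _
    nlinarith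
  · simp [nvec, sg_abs]

noncomputable def nu (k : ℕ) (η : ℝ) (i : Ix k) : sphere (0 : E (k + 2)) 1 :=
  ⟨nvec k η i, by simp [norm_nvec]⟩

lemma nvec_coord0 (k : ℕ) (η : ℝ) (i : Ix k) : nvec k η i 0 =
    match i with
    | .inl b => sg b
    | .inr (.inl _) => 0
    | .inr (.inr (.inl (b, _))) => η * sg b / rr η
    | .inr (.inr (.inr _)) => 0 := by
  rcases i with b | b | ⟨b, c⟩ | ⟨j, b⟩
  · simp [nvec]
  · simp [nvec]
  · simp [nvec]
  · simp [nvec, PiLp.single_apply, (Fin.succ_ne_zero _).symm]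

lemma nvec_coord1 (k : ℕ) (η : ℝ) (i : Ix k) : nvec k η i 1 =
    match i with
    | .inl _ => 0
    | .inr (.inl b) => sg b
    | .inr (.inr (.inl (_, c))) => 2 * sg c / rr η
    | .inr (.inr (.inr _)) => 0 := by
  rcases i with b | b | ⟨b, c⟩ | ⟨j, b⟩
  · simp [nvec]
  · simp [nvec]
  · simp [nvec]
  · have : (1 : Fin (k + 2)) ≠ j.succ.succ := by
      intro h
      have := congrArg Fin.val h
      simp at this
    simp [nvec, PiLp.single_apply, this]

lemma nu_inj (k : ℕ) {η : ℝ} (hη : 0 < η) : Function.Injective (nu k η) := by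
  intro i i' h
  have h' : nvec k η i = nvec k η i' := congrArg Subtype.val h
  have hr := rr_pos η
  have h0 : nvec k η i 0 = nvec k η i' 0 := by rw [h']
  have h1 : nvec k η i 1 = nvec k η i' 1 := by rw [h']
  rw [nvec_coord0, nvec_coord0] at h0
  rw [nvec_coord1, nvec_coord1] at h1
  rcases i with b | b | ⟨b, c⟩ | ⟨j, b⟩ <;> rcases i' with b' | b' | ⟨b', c'⟩ | ⟨j', b'⟩ <;>
    simp only [] at h0 h1
  · rw [sg_inj h0]
  · exact absurd h0 (sg_ne b)
  · have : 2 * sg c' / rr η ≠ 0 := by
      have := sg_ne c'; positivity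
    exact absurd h1.symm this
  · exact absurd h0 (sg_ne b)
  · exact absurd h1 (sg_ne b)
  · rw [sg_inj h1]
  · have : η * sg b' / rr η ≠ 0 := by
      have := sg_ne b'; positivity
    exact absurd h0.symm this
  · exact absurd h1 (sg_ne b)
  · have : 2 * sg c / rr η ≠ 0 := by
      have := sg_ne c; positivity
    exact absurd h1 this
  · have : η * sg b / rr η ≠ 0 := by
      have := sg_ne b; positivity
    exact absurd h0 this
  · have e0 : sg b = sg b' := by field_simp at h0; exact h0
    have e1 : sg c = sg c' := by field_simp at h1; exact h1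
    rw [sg_inj e0, sg_inj e1]
  · have : 2 * sg c / rr η ≠ 0 := by
      have := sg_ne c; positivity
    exact absurd h1 this
  · exact absurd h0.symm (sg_ne b')
  · exact absurd h1.symm (sg_ne b')
  · have : 2 * sg c' / rr η ≠ 0 := by
      have := sg_ne c'; positivity
    exact absurd h1.symm this
  · have e : ∀ l, nvec k η (.inr (.inr (.inr (j, b)))) l = nvec k η (.inr (.inr (.inr (j', b')))) l :=
      fun l => by rw [h']
    have e1 := e j.succ.succ
    simp only [nvec, PiLp.single_apply, if_true, Fin.succ_inj] at e1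
    by_cases hj : j = j'
    · subst hj
      simp only [if_true] at e1
      rw [sg_inj e1]
    · simp only [hj, if_false] at e1
      exact absurd e1 (sg_ne b)

noncomputable def hvec (k : ℕ) (η : ℝ) (B : Bool → ℝ) (H : ℝ) (a : Bool → ℝ) (R : ℝ) : Ix k → ℝ
  | .inl b => B b
  | .inr (.inl _) => H
  | .inr (.inr (.inl (b, _))) => η * a b / rr η
  | .inr (.inr (.inr _)) => R

noncomputable def Body (k : ℕ) (η : ℝ) (B : Bool → ℝ) (H : ℝ) (a : Bool → ℝ) (R : ℝ) :
    Set (E (k + 2)) := Poly (nu k η) (hvec k η B H a R)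

lemma mem_body (k : ℕ) {η : ℝ} (B : Bool → ℝ) (H : ℝ) (a : Bool → ℝ) (R : ℝ) (x : E (k + 2)) :
    x ∈ Body k η B H a R ↔ (∀ b, sg b * x 0 ≤ B b) ∧ (∀ b, sg b * x 1 ≤ H) ∧
      (∀ b c, η * sg b * x 0 + 2 * sg c * x 1 ≤ η * a b) ∧
      (∀ (j : Fin k) b, sg b * x j.succ.succ ≤ R) := by
  have hr := rr_pos η
  have : x ∈ Body k η B H a R ↔ ∀ i, ipr k η x i ≤ hvec k η B H a R i := by
    constructor
    · intro h i
      have := h i
      rwa [show ((nu k η i : sphere (0 : E (k + 2)) 1) : E (k + 2)) = nvec k η i from rfl,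
        inner_nvec] at this
    · intro h i
      rw [show ((nu k η i : sphere (0 : E (k + 2)) 1) : E (k + 2)) = nvec k η i from rfl,
        inner_nvec]
      exact h i
  rw [this]
  constructor
  · intro h
    refine ⟨fun b => h (.inl b), fun b => h (.inr (.inl b)), fun b c => ?_,
      fun j b => h (.inr (.inr (.inr (j, b))))⟩
    have := h (.inr (.inr (.inl (b, c))))
    simp only [ipr, hvec] at this
    rwa [div_le_div_iff_of_pos_right hr] at this
  · rintro ⟨h0, h1, h2, h3⟩ (b | b | ⟨b, c⟩ | ⟨j, b⟩)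
    · exact h0 b
    · exact h1 b
    · simp only [ipr, hvec]
      rw [div_le_div_iff_of_pos_right hr]
      exact h2 b c
    · exact h3 j b

lemma isCompact_body (k : ℕ) (η : ℝ) (B : Bool → ℝ) (H : ℝ) (a : Bool → ℝ) (R : ℝ) :
    IsCompact (Body k η B H a R) := by
  refine (isCompact_box (Fin.cons (-B false) (Fin.cons (-H) (fun _ => -R)))
    (Fin.cons (B true) (Fin.cons H (fun _ => R)))).of_isClosed_subset isClosed_poly ?_
  intro x hx
  have hx' := (mem_body k B H a R x).1 hx
  obtain ⟨h0, h1, h2, h3⟩ := hx'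
  intro j
  refine Fin.cases ?_ (fun j => ?_) j
  · have := h0 true; have := h0 false
    simp only [sg_true, sg_false, Fin.cons_zero] at *
    constructor <;> linarith
  · refine Fin.cases ?_ (fun j => ?_) j
    · have := h1 true; have := h1 false
      simp only [sg_true, sg_false, Fin.cons_zero, Fin.cons_succ] at *
      have e : (Fin.succ 0 : Fin (k + 2)) = 1 := rfl
      rw [e]
      constructor <;> linarith
    · have := h3 j true; have := h3 j false
      simp only [sg_true, sg_false, Fin.cons_succ] at *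
      constructor <;> linarith

end Pool.Agent.H26.LpSurf
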