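import Pool.Agent.H26.LpSurfPoly

open MeasureTheory Measure Metric Set Filter Topology
open scoped RealInnerProductSpace ENNReal NNReal

namespace Pool.Agent.H26.LpSurf

def box {m : ℕ} (a b : Fin m → ℝ) : Set (E m) := {y | ∀ j, a j ≤ y j ∧ y j ≤ b j}

lemma box_measure {m : ℕ} (a b : Fin m → ℝ) (hab : ∀ j, a j ≤ b j) :
    μHE[m] (box a b) = ENNReal.ofReal (∏ j, (b j - a j)) := by
  rw [EuclideanSpace.euclideanHausdorffMeasure_eq_volume]
  have h1 : box a b = (@WithLp.ofLp 2 (Fin m → ℝ)) ⁻¹' (Icc a b) := by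
    ext y
    simp only [box, mem_ofPred_eq, mem_preimage, mem_Icc, Pi.le_def]
    exact ⟨fun h => ⟨fun j => (h j).1, fun j => (h j).2⟩, fun h j => ⟨h.1 j, h.2 j⟩⟩
  rw [h1, (PiLp.volume_preserving_ofLp (Fin m)).measure_preimage measurableSet_Icc.nullMeasurableSet,
    Real.volume_Icc_pi, ENNReal.ofReal_prod_of_nonneg]
  intro j _; linarith [hab j]

lemma isCompact_box {m : ℕ} (a b : Fin m → ℝ) : IsCompact (box a b) := by
  have h1 : box a b = (@WithLp.toLp 2 (Fin m → ℝ)) '' (Icc a b) := by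
    ext y
    simp only [box, mem_ofPred_eq, mem_image, mem_Icc, Pi.le_def]
    constructor
    · intro h
      exact ⟨y.ofLp, ⟨fun j => (h j).1, fun j => (h j).2⟩, rfl⟩
    · rintro ⟨z, ⟨h1, h2⟩, rfl⟩ j
      exact ⟨h1 j, h2 j⟩
  rw [h1]
  exact isCompact_Icc.image (PiLp.continuous_toLp 2 _)

lemma muHE_image_le {X Y : Type*} [EMetricSpace X] [MeasurableSpace X] [BorelSpace X]
    [EMetricSpace Y] [MeasurableSpace Y] [BorelSpace Y] {f : X → Y} {C : ℝ≥0}
    (hf : LipschitzWith C f) (m : ℕ) (s : Set X) :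
    μHE[m] (f '' s) ≤ (C : ℝ≥0∞) ^ m * μHE[m] s := by
  rw [euclideanHausdorffMeasure_def, euclideanHausdorffMeasure_def, Measure.smul_apply,
    Measure.smul_apply]
  have h := hf.hausdorffMeasure_image_le (d := (m : ℝ)) (by positivity) s
  rw [ENNReal.rpow_natCast] at h
  simp only [ENNReal.smul_def, smul_eq_mul]
  calc _ ≤ _ := mul_le_mul_right h _
    _ = _ := by ring

/-- delete the `i`-th coordinate -/
noncomputable def pr {m : ℕ} (i : Fin (m + 1)) (x : E (m + 1)) : E m :=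
  WithLp.toLp 2 (fun j => x (i.succAbove j))

/-- insert `g y` as `i`-th coordinate -/
noncomputable def ins {m : ℕ} (i : Fin (m + 1)) (g : E m → ℝ) (y : E m) : E (m + 1) :=
  WithLp.toLp 2 (i.insertNth (g y) (fun j => y j))

lemma lip_pr {m : ℕ} (i : Fin (m + 1)) : LipschitzWith 1 (pr i) := by
  refine LipschitzWith.of_dist_le_mul fun x y => ?_
  rw [EuclideanSpace.dist_eq, EuclideanSpace.dist_eq, Fin.sum_univ_succAbove _ i]
  simp only [NNReal.coe_one, one_mul, pr]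
  apply Real.sqrt_le_sqrt
  have : 0 ≤ dist (x i) (y i) ^ 2 := by positivity
  linarith

lemma lip_ins {m : ℕ} (i : Fin (m + 1)) (g : E m → ℝ) (s : ℝ≥0)
    (hg : ∀ y z, (g y - g z) ^ 2 ≤ s * dist y z ^ 2) :
    LipschitzWith (NNReal.sqrt (1 + s)) (ins i g) := by
  refine LipschitzWith.of_dist_le_mul fun y z => ?_
  have h1 : dist (ins i g y) (ins i g z) ^ 2 = (g y - g z) ^ 2 + dist y z ^ 2 := by
    rw [EuclideanSpace.dist_eq, EuclideanSpace.dist_eq, Real.sq_sqrt (by positivity),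
      Real.sq_sqrt (by positivity), Fin.sum_univ_succAbove _ i]
    simp [ins, Real.dist_eq]
  refine (sq_le_sq₀ dist_nonneg (by positivity)).1 ?_
  rw [h1, mul_pow]
  have h2 : ((NNReal.sqrt (1 + s) : ℝ≥0) : ℝ) ^ 2 = 1 + s := by
    rw [Real.coe_sqrt, Real.sq_sqrt (by positivity)]
    simp
  rw [h2]
  have := hg y z
  linarith

/-- lower bound for the measure of a set whose projection contains a box -/
lemma le_measure_of_box_subset {m : ℕ} (i : Fin (m + 1)) (S : Set (E (m + 1)))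
    (a b : Fin m → ℝ) (hab : ∀ j, a j ≤ b j)
    (hS : ∀ y ∈ box a b, ∃ x ∈ S, pr i x = y) :
    ENNReal.ofReal (∏ j, (b j - a j)) ≤ μHE[m] S := by
  rw [← box_measure a b hab]
  have h1 : box a b ⊆ pr i '' S := fun y hy => by
    obtain ⟨x, hx, h⟩ := hS y hy
    exact ⟨x, hx, h⟩
  refine (measure_mono h1).trans ((muHE_image_le (lip_pr i) m S).trans ?_)
  simp

lemma measure_le_of_subset_box {m : ℕ} (i : Fin (m + 1)) (S : Set (E (m + 1)))
    (a b : Fin m → ℝ) (hab : ∀ j, a j ≤ b j) (g : E m → ℝ) (s : ℝ≥0)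
    (hg : ∀ y z, (g y - g z) ^ 2 ≤ s * dist y z ^ 2)
    (hS : ∀ x ∈ S, pr i x ∈ box a b ∧ x i = g (pr i x)) :
    μHE[m] S ≤ (NNReal.sqrt (1 + s) : ℝ≥0) ^ m * ENNReal.ofReal (∏ j, (b j - a j)) := by
  rw [← box_measure a b hab]
  have h1 : S ⊆ ins i g '' (box a b) := fun x hx => by
    refine ⟨pr i x, (hS x hx).1, ?_⟩
    ext j
    simp only [ins]
    refine Fin.succAboveCases i ?_ (fun k => ?_) j
    · simp [(hS x hx).2]
    · simp [pr]
  exact (measure_mono h1).trans (muHE_image_le (lip_ins i g s hg) m _)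

end Pool.Agent.H26.LpSurf
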