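import Mathlib

open MeasureTheory Measure Metric Set
open scoped RealInnerProductSpace

namespace Pool.Agent.H26.LpSurf

/-- Euclidean space `ℝⁿ`. -/
abbrev E (n : ℕ) := EuclideanSpace ℝ (Fin n)

/-- A convex body: a compact convex set with nonempty interior. -/
def IsConvexBody {n : ℕ} (K : Set (E n)) : Prop :=
  IsCompact K ∧ Convex ℝ K ∧ (interior K).Nonempty

/-- The support function `h_K(u) = sup {⟨x, u⟩ : x ∈ K}`. -/
noncomputable def supp {n : ℕ} (K : Set (E n)) (u : E n) : ℝ :=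
  sSup ((fun x => ⟪x, u⟫) '' K)

/-- `ν_K⁻¹(ω)`: the boundary points of `K` having an outer unit normal in `ω`. -/
def revGauss {n : ℕ} (K : Set (E n)) (ω : Set (sphere (0 : E n) 1)) : Set (E n) :=
  {x | x ∈ frontier K ∧ ∃ u ∈ ω, ∀ y ∈ K, ⟪y, (u : E n)⟫ ≤ ⟪x, (u : E n)⟫}

/-- `μ` is the surface area measure `S_K` of `K`: the Borel measure on the sphere with
`S_K(ω) = H^{n-1}(ν_K⁻¹(ω))` for every Borel set `ω`.  Here `μHE[n-1]` is Mathlib's
`(n-1)`-dimensional Hausdorff measure, normalised to agree with Lebesgue measure. -/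
def IsSurfaceAreaMeasure {n : ℕ} (K : Set (E n)) (μ : Measure (sphere (0 : E n) 1)) : Prop :=
  ∀ ω : Set (sphere (0 : E n) 1), MeasurableSet ω → μ ω = μHE[n - 1] (revGauss K ω)

/-- The `L_p` surface area `S_p(K) = ∫ h_K^{1-p} dS_K`, where `μ` is the surface area measure. -/
noncomputable def Sp {n : ℕ} (p : ℝ) (K : Set (E n)) (μ : Measure (sphere (0 : E n) 1)) : ℝ :=
  ∫ u : sphere (0 : E n) 1, supp K (u : E n) ^ (1 - p) ∂μ

/-- `σ_p(K) = S_p(K)^{1/(n-p)}`. -/
noncomputable def sigmaP {n : ℕ} (p : ℝ) (K : Set (E n)) (μ : Measure (sphere (0 : E n) 1)) : ℝ :=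
  Sp p K μ ^ (1 / ((n : ℝ) - p))

end Pool.Agent.H26.LpSurf
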