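import Mathlib

open MeasureTheory Measure Metric Set

namespace Pool.Agent.H26.LpSurf2

/-- Euclidean space `ℝⁿ`. -/
abbrev E (n : ℕ) := EuclideanSpace ℝ (Fin n)

/-- The unit sphere `S^{n-1}`. -/
abbrev Sph (n : ℕ) : Type := sphere (0 : E n) 1

/-- Borel measures on the unit sphere. -/
abbrev SphMeasure (n : ℕ) : Type := Measure (Sph n)

/-- The scalar product `⟨x, u⟩`. -/
noncomputable def ip {n : ℕ} (x u : E n) : ℝ := inner ℝ x u

/-- A convex body: a compact convex set with nonempty interior. -/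
def IsConvexBody {n : ℕ} (K : Set (E n)) : Prop :=
  IsCompact K ∧ Convex ℝ K ∧ (interior K).Nonempty

/-- The origin is an interior point of `K`. -/
def OriginInside {n : ℕ} (K : Set (E n)) : Prop := 0 ∈ interior K

/-- Minkowski sum `K + L`. -/
def msum {n : ℕ} (K L : Set (E n)) : Set (E n) := {z | ∃ x ∈ K, ∃ y ∈ L, x + y = z}

/-- The support function `h_K(u) = sup {⟨x, u⟩ : x ∈ K}`. -/
noncomputable def supp {n : ℕ} (K : Set (E n)) (u : E n) : ℝ := sSup {t | ∃ x ∈ K, ip x u = t}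

/-- `u` is an outer normal vector of `K` at `x`. -/
def IsOuterNormal {n : ℕ} (K : Set (E n)) (x u : E n) : Prop := ∀ y ∈ K, ip y u ≤ ip x u

/-- `ν_K⁻¹(ω)`: the boundary points of `K` having an outer unit normal in `ω`. -/
def revGauss {n : ℕ} (K : Set (E n)) (ω : Set (Sph n)) : Set (E n) :=
  {x | x ∈ frontier K ∧ ∃ u ∈ ω, IsOuterNormal K x u}

/-- `μ` is the surface area measure `S_K` of `K`: the Borel measure on the sphere with
`S_K(ω) = H^{n-1}(ν_K⁻¹(ω))` for every Borel set `ω`.  Here `μHE[n-1]` is Mathlib's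
`(n-1)`-dimensional Hausdorff measure, normalised to agree with Lebesgue measure. -/
def IsSurfaceAreaMeasure {n : ℕ} (K : Set (E n)) (μ : SphMeasure n) : Prop :=
  ∀ ω : Set (Sph n), MeasurableSet ω → μ ω = μHE[n - 1] (revGauss K ω)

/-- The integrand `h_K^{1-p}` on the sphere. -/
noncomputable def hpow {n : ℕ} (p : ℝ) (K : Set (E n)) (u : Sph n) : ℝ := supp K u ^ (1 - p)

/-- The integral defining `S_p(K)` exists (is finite). -/
def HasSp {n : ℕ} (p : ℝ) (K : Set (E n)) (μ : SphMeasure n) : Prop := Integrable (hpow p K) μ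

/-- The `L_p` surface area `S_p(K) = ∫ h_K^{1-p} dS_K`, where `μ` is the surface area measure. -/
noncomputable def Sp {n : ℕ} (p : ℝ) (K : Set (E n)) (μ : SphMeasure n) : ℝ := ∫ u, hpow p K u ∂μ

/-- `σ_p(K) = S_p(K)^{1/(n-p)}`. -/
noncomputable def sigmaP {n : ℕ} (p : ℝ) (K : Set (E n)) (μ : SphMeasure n) : ℝ :=
  Sp p K μ ^ (1 / ((n : ℝ) - p))

end Pool.Agent.H26.LpSurf2
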