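import Pool.Agent.H26.LpSurfSum

open MeasureTheory Measure Metric Set Filter Topology
open scoped RealInnerProductSpace ENNReal NNReal Pointwise

namespace Pool.Agent.H26.LpSurf

noncomputable def hK (k : ℕ) (η : ℝ) (s : Bool) : Ix k → ℝ :=
  hvec k η (fun b => if b = s then 1 else 4) η (fun b => if b = s then 3 else 4) 1

noncomputable def hM (k : ℕ) (η : ℝ) : Ix k → ℝ :=
  hvec k η (fun _ => 5) (2 * η) (fun _ => 7) 2

lemma hK_pos (k : ℕ) {η : ℝ} (hη : 0 < η) (s : Bool) (i : Ix k) : 0 < hK k η s i := by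
  have hr := rr_pos η
  rcases i with b | b | ⟨b, c⟩ | ⟨j, b⟩
  · simp only [hK, hvec]; split_ifs <;> norm_num
  · exact hη
  · simp only [hK, hvec]; split_ifs <;> positivity
  · exact one_pos

lemma hM_pos (k : ℕ) {η : ℝ} (hη : 0 < η) (i : Ix k) : 0 < hM k η i := by
  have hr := rr_pos η
  rcases i with b | b | ⟨b, c⟩ | ⟨j, b⟩
  · simp only [hM, hvec]; norm_num
  · simp only [hM, hvec]; positivity
  · simp only [hM, hvec]; positivity
  · simp only [hM, hvec]; norm_num

lemma mem_face_K (k : ℕ) (η : ℝ) (s : Bool) (i : Ix k) (x : E (k + 2)) :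
    x ∈ Face (nu k η) (hK k η s) i ↔ x ∈ KK k η s ∧ ipr k η x i = hK k η s i := by
  rw [← inner_nvec]; rfl

lemma mem_face_M (k : ℕ) (η : ℝ) (i : Ix k) (x : E (k + 2)) :
    x ∈ Face (nu k η) (hM k η) i ↔ x ∈ MM k η ∧ ipr k η x i = hM k η i := by
  rw [← inner_nvec]; rfl

lemma prod_box (k : ℕ) (a b : ℝ) (c : ℝ) :
    ∏ j : Fin (k + 1), ((Fin.cons b (fun _ => c) : Fin (k + 1) → ℝ) j -
      (Fin.cons a (fun _ => -c) : Fin (k + 1) → ℝ) j) = (b - a) * (2 * c) ^ k := by
  rw [Fin.prod_univ_succ]
  simp only [Fin.cons_zero, Fin.cons_succ, Finset.prod_const, Finset.card_univ, Fintype.card_fin]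
  ring

/-- lower bound, horizontal faces of `K` -/
lemma face_K_one (k : ℕ) {η : ℝ} (hη : 0 < η) (s c : Bool) :
    3 * 2 ^ k ≤ (μHE[k + 1] (Face (nu k η) (hK k η s) (.inr (.inl c)))).toReal := by
  have hfin : μHE[k + 1] (Face (nu k η) (hK k η s) (.inr (.inl c))) ≠ ∞ :=
    face_finite (n := k + 2) (by omega) (isCompact_body _ _ _ _ _ _) _
  rw [← ENNReal.ofReal_le_iff_le_toReal hfin]
  have key := le_measure_of_box_subset (m := k + 1) 1 (Face (nu k η) (hK k η s) (.inr (.inl c)))
    (Fin.cons (if s then -2 else -1) (fun _ => -1)) (Fin.cons (if s then 1 else 2) (fun _ => 1))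
    ?_ ?_
  · rw [prod_box] at key
    convert key using 2
    cases s <;> norm_num
  · intro j
    refine Fin.cases ?_ (fun j => ?_) j
    · cases s <;> simp <;> norm_num
    · simp
  · intro y hy
    refine ⟨WithLp.toLp 2 (Fin.cons (y 0) (Fin.cons (sg c * η) (fun j => y j.succ))), ?_, ?_⟩
    · rw [mem_face_K, mem_KK]
      have e1 : (Fin.cons (y 0) (Fin.cons (sg c * η)
        (fun j : Fin k => y j.succ)) : Fin (k + 2) → ℝ) 1 = sg c * η := rfl
      have hy0 := hy 0
      simp only [Fin.cons_zero] at hy0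
      simp only [ipr, hK, hvec, Fin.cons_zero, Fin.cons_succ, e1]
      refine ⟨⟨fun b => ?_, fun b => ?_, fun b c' => ?_, fun j b => ?_⟩, ?_⟩
      · cases b <;> cases s <;> simp at * <;> linarith [hy0.1, hy0.2]
      · cases b <;> cases c <;> simp <;> linarith
      · obtain ⟨hy1, hy2⟩ := hy0
        cases b <;> cases s <;> cases c <;> cases c' <;> simp at * <;> nlinarith
      · have := hy j.succ
        simp only [Fin.cons_succ] at this
        cases b <;> simp at * <;> linarith [this.1, this.2]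
      · rw [← mul_assoc, sg_sq, one_mul]
    · ext j
      refine Fin.cases ?_ (fun j => ?_) j
      · simp [pr]
      · simp only [pr, Fin.one_succAbove_succ, Fin.cons_succ]

/-- lower bound, slanted faces of `K` -/
lemma face_K_slant (k : ℕ) {η : ℝ} (hη : 0 < η) (s c : Bool) :
    2 * 2 ^ k ≤ (μHE[k + 1] (Face (nu k η) (hK k η s) (.inr (.inr (.inl (!s, c)))))).toReal := by
  have hfin : μHE[k + 1] (Face (nu k η) (hK k η s) (.inr (.inr (.inl (!s, c))))) ≠ ∞ :=
    face_finite (n := k + 2) (by omega) (isCompact_body _ _ _ _ _ _) _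
  rw [← ENNReal.ofReal_le_iff_le_toReal hfin]
  have key := le_measure_of_box_subset (m := k + 1) 1
    (Face (nu k η) (hK k η s) (.inr (.inr (.inl (!s, c)))))
    (Fin.cons (if s then -4 else 2) (fun _ => -1)) (Fin.cons (if s then -2 else 4) (fun _ => 1))
    ?_ ?_
  · rw [prod_box] at key
    convert key using 2
    cases s <;> norm_num
  · intro j
    refine Fin.cases ?_ (fun j => ?_) j
    · cases s <;> simp <;> norm_num
    · simp
  · intro y hy
    refine ⟨WithLp.toLp 2 (Fin.cons (y 0) (Fin.cons (sg c * (η * (4 - sg (!s) * y 0) / 2))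
      (fun j => y j.succ))), ?_, ?_⟩
    · rw [mem_face_K, mem_KK]
      have e1 : (Fin.cons (y 0) (Fin.cons (sg c * (η * (4 - sg (!s) * y 0) / 2))
        (fun j : Fin k => y j.succ)) : Fin (k + 2) → ℝ) 1 =
          sg c * (η * (4 - sg (!s) * y 0) / 2) := rfl
      have hy0 := hy 0
      simp only [Fin.cons_zero] at hy0
      simp only [ipr, hK, hvec, Fin.cons_zero, Fin.cons_succ, e1]
      refine ⟨⟨fun b => ?_, fun b => ?_, fun b c' => ?_, fun j b => ?_⟩, ?_⟩
      · cases b <;> cases s <;> simp at * <;> linarith [hy0.1, hy0.2]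
      · obtain ⟨hy1, hy2⟩ := hy0
        cases b <;> cases c <;> cases s <;> simp at * <;> nlinarith
      · obtain ⟨hy1, hy2⟩ := hy0
        cases b <;> cases s <;> cases c <;> cases c' <;> simp at * <;> nlinarith
      · have := hy j.succ
        simp only [Fin.cons_succ] at this
        cases b <;> simp at * <;> linarith [this.1, this.2]
      · have hs : ((!s) = s) = False := by cases s <;> simp
        simp only [hs, if_false]
        congr 1
        have := sg_sq c
        linear_combination (η * (4 - sg (!s) * y 0)) * this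
    · ext j
      refine Fin.cases ?_ (fun j => ?_) j
      · simp [pr]
      · simp only [pr, Fin.one_succAbove_succ, Fin.cons_succ]

end Pool.Agent.H26.LpSurf
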