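import Pool.Agent.H26.LpSurfUp

open MeasureTheory Measure Metric Set Filter Topology
open scoped RealInnerProductSpace ENNReal NNReal Pointwise

namespace Pool.Agent.H26.LpSurf

noncomputable def upB (k : ℕ) (q η : ℝ) : ℝ :=
  2 * (2 * η * 4 ^ k * 5 ^ q) + (2 * (6 * 4 ^ k * (2 * η) ^ q) +
    (4 * (rho η ^ (k + 1) * (2 * 4 ^ k) * (η * 7 / rr η) ^ q) +
      (k * 2 : ℕ) * (10 * η * 4 ^ k * 2 ^ q)))

noncomputable def loB (k : ℕ) (q η : ℝ) : ℝ :=
  2 * (3 * 2 ^ k * η ^ q) + 2 * (2 * 2 ^ k * (η * 4 / rr η) ^ q)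

lemma upper (k : ℕ) {η : ℝ} (hη : 0 < η) (q : ℝ) :
    ∑ i, (μHE[k + 1] (Face (nu k η) (hM k η) i)).toReal * hM k η i ^ q ≤ upB k q η := by
  have hr := rr_pos η
  rw [Fintype.sum_sum_type, Fintype.sum_sum_type, Fintype.sum_sum_type]
  unfold upB
  refine add_le_add ?_ (add_le_add ?_ (add_le_add ?_ ?_))
  · calc _ ≤ ∑ _b : Bool, 2 * η * 4 ^ k * (5 : ℝ) ^ q := by
          refine Finset.sum_le_sum fun b _ => ?_
          exact mul_le_mul_of_nonneg_right (face_M_zero k hη b) (by simp only [hM, hvec]; positivity)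
      _ = _ := by simp
  · calc _ ≤ ∑ _b : Bool, 6 * 4 ^ k * (2 * η) ^ q := by
          refine Finset.sum_le_sum fun b _ => ?_
          exact mul_le_mul_of_nonneg_right (face_M_one k hη b) (by simp only [hM, hvec]; positivity)
      _ = _ := by simp
  · calc _ ≤ ∑ _b : Bool × Bool, rho η ^ (k + 1) * (2 * 4 ^ k) * (η * 7 / rr η) ^ q := by
          refine Finset.sum_le_sum fun b _ => ?_
          exact mul_le_mul_of_nonneg_right (face_M_slant k hη b.1 b.2)
            (by simp only [hM, hvec]; positivity)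
      _ = _ := by simp
  · calc _ ≤ ∑ _b : Fin k × Bool, 10 * η * 4 ^ k * (2 : ℝ) ^ q := by
          refine Finset.sum_le_sum fun b _ => ?_
          exact mul_le_mul_of_nonneg_right (face_M_cube k hη b.1 b.2)
            (by simp only [hM, hvec]; positivity)
      _ = _ := by simp

lemma lower (k : ℕ) {η : ℝ} (hη : 0 < η) (q : ℝ) (s : Bool) :
    loB k q η ≤ ∑ i, (μHE[k + 1] (Face (nu k η) (hK k η s) i)).toReal * hK k η s i ^ q := by
  have hr := rr_pos η
  have hnn : ∀ i, 0 ≤ (μHE[k + 1] (Face (nu k η) (hK k η s) i)).toReal * hK k η s i ^ q :=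
    fun i => mul_nonneg ENNReal.toReal_nonneg (Real.rpow_nonneg (hK_pos k hη s i).le _)
  have h1 : ∀ c, 3 * 2 ^ k * η ^ q ≤
      (μHE[k + 1] (Face (nu k η) (hK k η s) (.inr (.inl c)))).toReal *
        hK k η s (.inr (.inl c)) ^ q := fun c =>
    mul_le_mul_of_nonneg_right (face_K_one k hη s c) (by positivity)
  have h2 : ∀ c, 2 * 2 ^ k * (η * 4 / rr η) ^ q ≤
      (μHE[k + 1] (Face (nu k η) (hK k η s) (.inr (.inr (.inl (!s, c)))))).toReal *
        hK k η s (.inr (.inr (.inl (!s, c)))) ^ q := by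
    intro c
    have e : hK k η s (.inr (.inr (.inl (!s, c)))) = η * 4 / rr η := by
      have hs : ((!s) = s) = False := by cases s <;> simp
      simp [hK, hvec, hs]
    rw [e]
    exact mul_le_mul_of_nonneg_right (face_K_slant k hη s c) (by positivity)
  rw [Fintype.sum_sum_type, Fintype.sum_sum_type, Fintype.sum_sum_type]
  have g0 := Finset.sum_nonneg (s := Finset.univ) fun (i : Bool) _ => hnn (.inl i)
  have g3 := Finset.sum_nonneg (s := Finset.univ)
    fun (i : Fin k × Bool) _ => hnn (.inr (.inr (.inr i)))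
  have g1 : 2 * (3 * 2 ^ k * η ^ q) ≤ ∑ c, (μHE[k + 1] (Face (nu k η) (hK k η s)
      (.inr (.inl c)))).toReal * hK k η s (.inr (.inl c)) ^ q := by
    rw [Fintype.sum_bool]
    have := h1 true; have := h1 false
    linarith
  have g2 : 2 * (2 * 2 ^ k * (η * 4 / rr η) ^ q) ≤ ∑ c, (μHE[k + 1] (Face (nu k η) (hK k η s)
      (.inr (.inr (.inl c))))).toReal * hK k η s (.inr (.inr (.inl c))) ^ q := by
    rw [Fintype.sum_prod_type, Fintype.sum_bool, Fintype.sum_bool, Fintype.sum_bool]
    have e1 := h2 true; have e2 := h2 false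
    have n1 := hnn (.inr (.inr (.inl (s, true))))
    have n2 := hnn (.inr (.inr (.inl (s, false))))
    cases s <;> simp only [Bool.not_true, Bool.not_false] at e1 e2 <;> linarith
  unfold loB
  linarith

lemma numeric (k : ℕ) {q : ℝ} (hq0 : 0 < q) (hq1 : q < 1) :
    ∃ η : ℝ, 0 < η ∧ upB k q η < 2 ^ ((k : ℝ) + 1 + q) * loB k q η := by
  set F : ℝ → ℝ := fun η => 4 * η ^ (1 - q) * 5 ^ q + 12 * 2 ^ q +
    8 * rho η ^ (k + 1) * (7 / rr η) ^ q + 20 * k * η ^ (1 - q) * 2 ^ q with hF
  set G : ℝ → ℝ := fun η => 2 ^ (1 + q) * (6 + 4 * (4 / rr η) ^ q) with hG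
  have hrr : Continuous rr := by unfold rr; fun_prop
  have hrho : Continuous rho := by unfold rho; fun_prop
  have hc : ContinuousAt (fun η : ℝ => η ^ (1 - q)) 0 :=
    Real.continuousAt_rpow_const _ _ (Or.inr (by linarith))
  have hc7 : Continuous (fun η => (7 / rr η) ^ q) := by
    refine Continuous.rpow_const ?_ (fun x => Or.inl ?_)
    · exact continuous_const.div hrr (fun x => (rr_pos x).ne')
    · have := rr_pos x; positivity
  have hc4 : Continuous (fun η => (4 / rr η) ^ q) := by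
    refine Continuous.rpow_const ?_ (fun x => Or.inl ?_)
    · exact continuous_const.div hrr (fun x => (rr_pos x).ne')
    · have := rr_pos x; positivity
  have hFc : ContinuousAt F 0 := by
    refine ((((continuousAt_const.mul hc).mul continuousAt_const).add continuousAt_const).add
      (((continuousAt_const.mul (hrho.pow (k + 1)).continuousAt)).mul hc7.continuousAt)).add
      ((continuousAt_const.mul hc).mul continuousAt_const)
  have hGc : ContinuousAt G 0 := by
    exact continuousAt_const.mul (continuousAt_const.add (continuousAt_const.mul hc4.continuousAt))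
  have hrr0 : rr 0 = 2 := by
    unfold rr
    rw [show (4 + (0 : ℝ) ^ 2) = 2 ^ 2 by norm_num, Real.sqrt_sq (by norm_num)]
  have hrho0 : rho 0 = 1 := by
    unfold rho; norm_num
  have h0 : F 0 < G 0 := by
    simp only [hF, hG, hrr0, hrho0]
    rw [Real.zero_rpow (by linarith), Real.rpow_add (by norm_num), Real.rpow_one]
    have h2 : (0 : ℝ) < 2 ^ q := by positivity
    have h4 : (2 : ℝ) ^ q * 2 ^ q = 4 ^ q := by
      rw [← Real.mul_rpow (by norm_num) (by norm_num)]; norm_num
    have h5 : (7 / 2 : ℝ) ^ q < 4 ^ q := Real.rpow_lt_rpow (by norm_num) (by norm_num) hq0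
    have h6 : (4 / 2 : ℝ) = 2 := by norm_num
    rw [h6]
    simp only [one_pow]
    nlinarith
  have hev : ∀ᶠ η in 𝓝[>] (0 : ℝ), F η < G η :=
    (hFc.eventually_lt hGc h0).filter_mono nhdsWithin_le_nhds
  obtain ⟨η, hη, hη0⟩ := (hev.and self_mem_nhdsWithin).exists
  have hη0 : (0 : ℝ) < η := hη0
  refine ⟨η, hη0, ?_⟩
  have hr := rr_pos η
  have hup : upB k q η = 4 ^ k * η ^ q * F η := by
    simp only [upB, hF]
    rw [Real.mul_rpow (by norm_num : (0 : ℝ) ≤ 2) hη0.le,
      show η * 7 / rr η = η * (7 / rr η) by ring, Real.mul_rpow hη0.le (by positivity)]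
    have e1 : η = η ^ q * η ^ (1 - q) := by
      rw [← Real.rpow_add hη0]; simp
    push_cast
    have e2 : 2 * (2 * η * 4 ^ k * 5 ^ q) = 2 * (2 * (η ^ q * η ^ (1 - q)) * 4 ^ k * 5 ^ q) := by
      rw [← e1]
    have e3 : (k : ℝ) * 2 * (10 * η * 4 ^ k * 2 ^ q) =
        (k : ℝ) * 2 * (10 * (η ^ q * η ^ (1 - q)) * 4 ^ k * 2 ^ q) := by
      rw [← e1]
    rw [e2, e3]
    ring
  have hlo : 2 ^ ((k : ℝ) + 1 + q) * loB k q η = 4 ^ k * η ^ q * G η := by
    simp only [loB, hG]
    rw [show η * 4 / rr η = η * (4 / rr η) by ring, Real.mul_rpow hη0.le (by positivity),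
      add_assoc, Real.rpow_add (by norm_num) (k : ℝ), Real.rpow_natCast,
      show (4 : ℝ) ^ k = 2 ^ k * 2 ^ k by rw [← mul_pow]; norm_num]
    ring
  rw [hup, hlo]
  exact mul_lt_mul_of_pos_left hη (by positivity)

theorem main (n : ℕ) (hn : 2 ≤ n) (p : ℝ) (hp0 : 0 < p) (hp1 : p < 1) :
    ∃ K L : Set (E n), ∃ μK μL μM : Measure (sphere (0 : E n) 1),
      IsConvexBody K ∧ IsConvexBody L ∧ 0 ∈ interior K ∧ 0 ∈ interior L ∧
      IsSurfaceAreaMeasure K μK ∧ IsSurfaceAreaMeasure L μL ∧ IsSurfaceAreaMeasure (K + L) μM ∧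
      Integrable (fun u : sphere (0 : E n) 1 => supp K (u : E n) ^ (1 - p)) μK ∧
      Integrable (fun u : sphere (0 : E n) 1 => supp L (u : E n) ^ (1 - p)) μL ∧
      Integrable (fun u : sphere (0 : E n) 1 => supp (K + L) (u : E n) ^ (1 - p)) μM ∧
      sigmaP p (K + L) μM < sigmaP p K μK + sigmaP p L μL := by
  obtain ⟨k, rfl⟩ : ∃ k, n = k + 2 := ⟨n - 2, by omega⟩
  have hq0 : 0 < 1 - p := by linarith
  have hq1 : 1 - p < 1 := by linarith
  obtain ⟨η, hη, hlt⟩ := numeric k hq0 hq1
  have hinj := nu_inj k hη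
  have hM : KK k η true + KK k η false = Poly (nu k η) (hM k η) := sum_eq k hη
  have hcK : ∀ s, IsCompact (Poly (nu k η) (hK k η s)) := fun s => isCompact_body _ _ _ _ _ _
  have hcM : IsCompact (Poly (nu k η) (LpSurf.hM k η)) := isCompact_body _ _ _ _ _ _
  have hS : ∀ s, loB k (1 - p) η ≤ Sp p (Poly (nu k η) (hK k η s))
      (polyMeasure (nu k η) (hK k η s)) := by
    intro s
    rw [sp_poly (by omega) (hcK s)]
    exact lower k hη (1 - p) s
  have hSM : Sp p (Poly (nu k η) (LpSurf.hM k η)) (polyMeasure (nu k η) (LpSurf.hM k η)) ≤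
      upB k (1 - p) η := by
    rw [sp_poly (by omega) hcM]
    exact upper k hη (1 - p)
  refine ⟨KK k η true, KK k η false, polyMeasure (nu k η) (hK k η true),
    polyMeasure (nu k η) (hK k η false), polyMeasure (nu k η) (LpSurf.hM k η),
    isConvexBody_poly (hK_pos k hη true) (hcK true),
    isConvexBody_poly (hK_pos k hη false) (hcK false),
    zero_mem_interior (hK_pos k hη true), zero_mem_interior (hK_pos k hη false),
    isSurfaceAreaMeasure_poly (hK_pos k hη true) hinj (by omega),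
    isSurfaceAreaMeasure_poly (hK_pos k hη false) hinj (by omega), ?_,
    integrable_poly (by omega) (hcK true) _, integrable_poly (by omega) (hcK false) _, ?_, ?_⟩
  · rw [hM]
    exact isSurfaceAreaMeasure_poly (hM_pos k hη) hinj (by omega)
  · exact integrable_poly (by omega) hcM _
  · unfold sigmaP
    rw [hM]
    have hD : (((k + 2 : ℕ) : ℝ) - p) = (k : ℝ) + 1 + (1 - p) := by push_cast; ring
    rw [hD]
    set D : ℝ := (k : ℝ) + 1 + (1 - p) with hDdef
    have hDpos : 0 < D := by positivity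
    have hr := rr_pos η
    have hlo0 : 0 < loB k (1 - p) η := by unfold loB; positivity
    have hSM0 : 0 ≤ Sp p (Poly (nu k η) (LpSurf.hM k η))
        (polyMeasure (nu k η) (LpSurf.hM k η)) := by
      rw [sp_poly (by omega) hcM]
      exact Finset.sum_nonneg fun i _ => mul_nonneg ENNReal.toReal_nonneg
        (Real.rpow_nonneg (hM_pos k hη i).le _)
    have h1 : Sp p (Poly (nu k η) (LpSurf.hM k η)) (polyMeasure (nu k η) (LpSurf.hM k η)) ^ (1 / D)
        < (2 ^ D * loB k (1 - p) η) ^ (1 / D) :=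
      Real.rpow_lt_rpow hSM0 (hSM.trans_lt hlt) (by positivity)
    have h2 : (2 ^ D * loB k (1 - p) η) ^ (1 / D) = 2 * loB k (1 - p) η ^ (1 / D) := by
      rw [Real.mul_rpow (by positivity) hlo0.le, ← Real.rpow_mul (by norm_num)]
      rw [mul_one_div_cancel hDpos.ne', Real.rpow_one]
    have h3 : ∀ s, loB k (1 - p) η ^ (1 / D) ≤ Sp p (Poly (nu k η) (hK k η s))
      (polyMeasure (nu k η) (hK k η s)) ^ (1 / D) := fun s =>
      Real.rpow_le_rpow hlo0.le (hS s) (by positivity)
    have e1 := h3 true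
    have e2 := h3 false
    calc _ < _ := h1
      _ = _ := h2
      _ ≤ _ := by
        rw [two_mul]
        exact add_le_add e1 e2

end Pool.Agent.H26.LpSurf
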