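import Pool.Agent.H26.LpSurfMain
import Pool.Agent.H26.LpSurfDefs2

open MeasureTheory Metric Set
open scoped Pointwise

namespace Pool.Agent.H26.LpSurf2

theorem main2 (n : ℕ) (hn : 2 ≤ n) (p : ℝ) (hp0 : 0 < p) (hp1 : p < 1) :
    ∃ K L : Set (E n), ∃ μK μL μM : SphMeasure n,
      IsConvexBody K ∧ IsConvexBody L ∧ OriginInside K ∧ OriginInside L ∧
      IsSurfaceAreaMeasure K μK ∧ IsSurfaceAreaMeasure L μL ∧
      IsSurfaceAreaMeasure (msum K L) μM ∧ HasSp p K μK ∧ HasSp p L μL ∧ HasSp p (msum K L) μM ∧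
      sigmaP p (msum K L) μM < sigmaP p K μK + sigmaP p L μL := by
  obtain ⟨K, L, μK, μL, μM, h⟩ := LpSurf.main n hn p hp0 hp1
  exact ⟨K, L, μK, μL, μM, h⟩

end Pool.Agent.H26.LpSurf2
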