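import Pool.Agent.H26.LpSurfDefs

open MeasureTheory Measure Metric Set Filter Topology
open scoped RealInnerProductSpace ENNReal

namespace Pool.Agent.H26.LpSurf

variable {n : ℕ} {ι : Type*} [Fintype ι]

/-- H-polytope -/
def Poly (u : ι → sphere (0 : E n) 1) (h : ι → ℝ) : Set (E n) := {x | ∀ i, ⟪x, (u i : E n)⟫ ≤ h i}

def Face (u : ι → sphere (0 : E n) 1) (h : ι → ℝ) (i : ι) : Set (E n) :=
  {x | x ∈ Poly u h ∧ ⟪x, (u i : E n)⟫ = h i}

variable {u : ι → sphere (0 : E n) 1} {h : ι → ℝ}

lemma unorm (v : sphere (0 : E n) 1) : ‖(v : E n)‖ = 1 := by simp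

omit [Fintype ι] in
lemma isClosed_poly : IsClosed (Poly u h) := by
  have : Poly u h = ⋂ i, {x : E n | ⟪x, (u i : E n)⟫ ≤ h i} := by
    ext x; simp [Poly]
  rw [this]
  refine isClosed_iInter fun i => ?_
  exact isClosed_le (by fun_prop) continuous_const

omit [Fintype ι] in
lemma isClosed_face (i : ι) : IsClosed (Face u h i) := by
  have : Face u h i = Poly u h ∩ {x : E n | ⟪x, (u i : E n)⟫ = h i} := by
    ext x; simp [Face]
  rw [this]
  exact isClosed_poly.inter (isClosed_eq (by fun_prop) continuous_const)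

omit [Fintype ι] in
lemma convex_poly : Convex ℝ (Poly u h) := by
  have : Poly u h = ⋂ i, {x : E n | ⟪x, (u i : E n)⟫ ≤ h i} := by
    ext x; simp [Poly]
  rw [this]
  refine convex_iInter fun i => ?_
  refine convex_halfSpace_le (f := fun x : E n => ⟪x, (u i : E n)⟫) ?_ _
  exact ⟨fun x y => inner_add_left _ _ _, fun c x => by simp [inner_smul_left]⟩

lemma strict_subset_interior : {x : E n | ∀ i, ⟪x, (u i : E n)⟫ < h i} ⊆ interior (Poly u h) := by
  apply interior_maximal
  · intro x hx i; exact (hx i).le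
  · have : {x : E n | ∀ i, ⟪x, (u i : E n)⟫ < h i} = ⋂ i, {x : E n | ⟪x, (u i : E n)⟫ < h i} := by
      ext x; simp
    rw [this]
    exact isOpen_iInter_of_finite fun i => isOpen_lt (by fun_prop) continuous_const

lemma zero_mem_interior (hpos : ∀ i, 0 < h i) : (0 : E n) ∈ interior (Poly u h) :=
  strict_subset_interior (by intro i; simpa using hpos i)

lemma mem_frontier_iff (hpos : ∀ i, 0 < h i) (x : E n) :
    x ∈ frontier (Poly u h) ↔ ∃ i, x ∈ Face u h i := by
  rw [isClosed_poly.frontier_eq]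
  constructor
  · rintro ⟨hx, hx'⟩
    by_contra hcon
    push Not at hcon
    apply hx'
    apply strict_subset_interior
    intro i
    exact lt_of_le_of_ne (hx i) (fun he => hcon i ⟨hx, he⟩)
  · rintro ⟨i, hx, hi⟩
    refine ⟨hx, fun hint => ?_⟩
    have hc : ContinuousAt (fun t : ℝ => (1 + t) • x) 0 := by fun_prop
    have hm : Poly u h ∈ 𝓝 ((1 + (0 : ℝ)) • x) := by
      simpa using mem_interior_iff_mem_nhds.1 hint
    have hev := hc.eventually hm
    have h2 : ∀ᶠ t : ℝ in 𝓝[>] 0, (1 + t) • x ∈ Poly u h := hev.filter_mono nhdsWithin_le_nhds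
    obtain ⟨t, ht, ht0⟩ := (h2.and self_mem_nhdsWithin).exists
    have := ht i
    rw [inner_smul_left, hi] at this
    simp only [conj_trivial] at this
    have h0 : (0 : ℝ) < t := ht0
    nlinarith [hpos i]

lemma normal_unique {x : E n} {i : ι} (hx : x ∈ Face u h i)
    (hj : ∀ j, j ≠ i → ⟪x, (u j : E n)⟫ < h j) (v : sphere (0 : E n) 1)
    (hv : ∀ y ∈ Poly u h, ⟪y, (v : E n)⟫ ≤ ⟪x, (v : E n)⟫) : v = u i := by
  have hui := unorm (u i)
  have hvn := unorm v
  have hc1 : ⟪(v : E n), (u i : E n)⟫ ≤ 1 := by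
    have := real_inner_le_norm (v : E n) (u i : E n)
    rwa [hui, hvn, mul_one] at this
  have hev : ∀ᶠ t : ℝ in 𝓝[>] 0, x + t • ((v : E n) - u i) ∈ Poly u h := by
    have : ∀ j, ∀ᶠ t : ℝ in 𝓝[>] 0, ⟪x + t • ((v : E n) - u i), (u j : E n)⟫ ≤ h j := by
      intro j
      by_cases hji : j = i
      · subst hji
        filter_upwards [self_mem_nhdsWithin] with t ht
        have ht : (0 : ℝ) < t := ht
        rw [inner_add_left, inner_smul_left, hx.2, inner_sub_left, real_inner_self_eq_norm_sq, hui]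
        simp only [conj_trivial]
        nlinarith
      · have hc : ContinuousAt (fun t : ℝ => ⟪x + t • ((v : E n) - u i), (u j : E n)⟫) 0 := by
          fun_prop
        have : ∀ᶠ t : ℝ in 𝓝 0, ⟪x + t • ((v : E n) - u i), (u j : E n)⟫ < h j := by
          apply hc.eventually_lt continuousAt_const
          simpa using hj j hji
        exact (this.filter_mono nhdsWithin_le_nhds).mono fun t ht => ht.le
    exact (eventually_all.2 this).mono fun t ht => ht
  obtain ⟨t, ht, ht0⟩ := (hev.and self_mem_nhdsWithin).exists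
  have ht0 : (0 : ℝ) < t := ht0
  have := hv _ ht
  rw [inner_add_left, inner_smul_left, inner_sub_left, real_inner_self_eq_norm_sq, hvn,
    real_inner_comm] at this
  simp only [conj_trivial] at this
  have h1 : ⟪(u i : E n), (v : E n)⟫ = ⟪(v : E n), (u i : E n)⟫ := real_inner_comm _ _
  have h2 : (1 : ℝ) ≤ ⟪(v : E n), (u i : E n)⟫ := by
    by_contra hlt
    push Not at hlt
    have : ⟪x, (v : E n)⟫ = ⟪(v : E n), x⟫ := real_inner_comm _ _
    nlinarith
  have h3 : ⟪(v : E n), (u i : E n)⟫ = 1 := le_antisymm hc1 h2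
  exact Subtype.ext ((inner_eq_one_iff_of_norm_eq_one hvn hui).1 h3)

lemma muHE_zero_of_finrank_lt {V : Type*} [NormedAddCommGroup V] [NormedSpace ℝ V]
    [FiniteDimensional ℝ V] [MeasurableSpace V] [BorelSpace V] {d : ℕ}
    (hd : Module.finrank ℝ V < d) : (μHE[d] : Measure V) = 0 := by
  have h0 : (μH[(d : ℝ)] : Measure V) = 0 :=
    Real.hausdorffMeasure_of_finrank_lt (by exact_mod_cast hd)
  rw [euclideanHausdorffMeasure_def]
  ext s hs
  rw [Measure.smul_apply, h0]
  simp

omit [Fintype ι] in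
lemma face_inter_null (hpos : ∀ i, 0 < h i) (hu : Function.Injective u) (hn : 2 ≤ n)
    {i j : ι} (hij : i ≠ j) : μHE[n - 1] (Face u h i ∩ Face u h j) = 0 := by
  rcases (Face u h i ∩ Face u h j).eq_empty_or_nonempty with he | ⟨x0, hx0⟩
  · rw [he]; simp
  set a : E n := (u i : E n) with ha
  set b : E n := (u j : E n) with hb
  have han : ‖a‖ = 1 := unorm _
  have hbn : ‖b‖ = 1 := unorm _
  have hli : LinearIndependent ℝ ![a, b] := by
    rw [linearIndependent_fin2]
    refine ⟨by simp [← norm_ne_zero_iff, hbn], fun c => ?_⟩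
    simp only [Matrix.cons_val_one, Matrix.cons_val_zero]
    intro hc
    have hc1 : |c| = 1 := by
      have := congrArg norm hc
      rwa [norm_smul, hbn, han, mul_one, Real.norm_eq_abs] at this
    rcases eq_or_eq_neg_of_abs_eq hc1 with h1 | h1
    · rw [h1, one_smul] at hc
      exact hij (hu (Subtype.ext hc.symm))
    · rw [h1] at hc
      have h2 := hx0.1.2
      have h3 := hx0.2.2
      rw [← ha, ← hc] at h2
      rw [← hb] at h3
      simp only [neg_smul, one_smul, inner_neg_right] at h2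
      have := hpos i; have := hpos j
      linarith
  let V : Submodule ℝ (E n) := (Submodule.span ℝ (Set.range ![a, b]))ᗮ
  have hfr : Module.finrank ℝ V < n - 1 := by
    have h1 := Submodule.finrank_add_finrank_orthogonal (Submodule.span ℝ (Set.range ![a, b]))
    rw [finrank_span_eq_card hli] at h1
    simp only [Fintype.card_fin, finrank_euclideanSpace] at h1
    have : Module.finrank ℝ V = Module.finrank ℝ (Submodule.span ℝ (Set.range ![a, b]))ᗮ := rfl
    omega
  have hsub : Face u h i ∩ Face u h j ⊆ (fun v : V => x0 + (v : E n)) '' univ := by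
    intro y hy
    refine ⟨⟨y - x0, ?_⟩, mem_univ _, by simp⟩
    rw [Submodule.mem_orthogonal']
    intro w hw
    refine Submodule.span_induction ?_ ?_ ?_ ?_ hw
    · rintro w ⟨k, rfl⟩
      fin_cases k
      · show ⟪y - x0, a⟫ = 0
        rw [inner_sub_left, hy.1.2, hx0.1.2, sub_self]
      · show ⟪y - x0, b⟫ = 0
        rw [inner_sub_left, hy.2.2, hx0.2.2, sub_self]
    · simp
    · intro w z _ _ h1 h2; rw [inner_add_right, h1, h2, add_zero]
    · intro c w _ h1; rw [inner_smul_right, h1, mul_zero]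
  have hiso : Isometry (fun v : V => x0 + (v : E n)) :=
    (isometry_add_left x0).comp isometry_subtype_coe
  refine measure_mono_null hsub ?_
  rw [hiso.euclideanHausdorffMeasure_image, muHE_zero_of_finrank_lt hfr]
  simp

omit [Fintype ι] in
lemma face_finite (hn : 1 ≤ n) (hK : IsCompact (Poly u h)) (i : ι) :
    μHE[n - 1] (Face u h i) ≠ ∞ := by
  rcases (Face u h i).eq_empty_or_nonempty with he | ⟨x0, hx0⟩
  · rw [he]; simp
  set a : E n := (u i : E n) with ha
  have han : ‖a‖ = 1 := unorm _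
  have ha0 : a ≠ 0 := by rw [← norm_ne_zero_iff, han]; norm_num
  let V : Submodule ℝ (E n) := (Submodule.span ℝ {a})ᗮ
  have hfr : Module.finrank ℝ V = n - 1 := by
    have h1 := Submodule.finrank_add_finrank_orthogonal (Submodule.span ℝ {a})
    rw [finrank_span_singleton ha0] at h1
    simp only [finrank_euclideanSpace, Fintype.card_fin] at h1
    have : Module.finrank ℝ V = Module.finrank ℝ (Submodule.span ℝ {a})ᗮ := rfl
    omega
  have hiso : Isometry (fun v : V => x0 + (v : E n)) :=
    (isometry_add_left x0).comp isometry_subtype_coe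
  have hsub : Face u h i ⊆ range (fun v : V => x0 + (v : E n)) := by
    intro y hy
    refine ⟨⟨y - x0, ?_⟩, by simp⟩
    rw [Submodule.mem_orthogonal_singleton_iff_inner_left]
    show ⟪y - x0, a⟫ = 0
    rw [inner_sub_left, hy.2, hx0.2, sub_self]
  have hFc : IsCompact (Face u h i) := hK.of_isClosed_subset (isClosed_face i) (fun x hx => hx.1)
  have hpc : IsCompact ((fun v : V => x0 + (v : E n)) ⁻¹' (Face u h i)) :=
    hiso.isClosedEmbedding.isCompact_preimage hFc
  rw [← inter_eq_self_of_subset_left hsub, ← hiso.euclideanHausdorffMeasure_preimage, ← hfr]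
  exact hpc.measure_lt_top.ne

/-- the surface area measure of an H-polytope -/
noncomputable def polyMeasure (u : ι → sphere (0 : E n) 1) (h : ι → ℝ) :
    Measure (sphere (0 : E n) 1) :=
  ∑ i, μHE[n - 1] (Face u h i) • dirac (u i)

lemma isSurfaceAreaMeasure_poly (hpos : ∀ i, 0 < h i) (hu : Function.Injective u) (hn : 2 ≤ n) :
    IsSurfaceAreaMeasure (Poly u h) (polyMeasure u h) := by
  classical
  intro ω hω
  set I : Finset ι := Finset.univ.filter (fun i => u i ∈ ω) with hI
  have h1 : polyMeasure u h ω = ∑ i ∈ I, μHE[n - 1] (Face u h i) := by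
    rw [polyMeasure, finsetSum_apply, hI, Finset.sum_filter]
    refine Finset.sum_congr rfl fun i _ => ?_
    rw [Measure.smul_apply, dirac_apply' _ hω, indicator_apply]
    split_ifs <;> simp
  set N : Set (E n) := ⋃ (i : ι) (j : ι) (_ : i ≠ j), (Face u h i ∩ Face u h j) with hN
  have hN0 : μHE[n - 1] N = 0 := by
    rw [hN]
    refine measure_iUnion_null fun i => measure_iUnion_null fun j => measure_iUnion_null fun hij => ?_
    exact face_inter_null hpos hu hn hij
  have hle : (⋃ i ∈ I, Face u h i) ⊆ revGauss (Poly u h) ω := by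
    intro x hx
    simp only [mem_iUnion, exists_prop] at hx
    obtain ⟨i, hi, hx⟩ := hx
    refine ⟨(mem_frontier_iff hpos x).2 ⟨i, hx⟩, u i, (Finset.mem_filter.1 hi).2, fun y hy => ?_⟩
    rw [hx.2]; exact hy i
  have hge : revGauss (Poly u h) ω ⊆ (⋃ i ∈ I, Face u h i) ∪ N := by
    rintro x ⟨hx, v, hv, hmax⟩
    obtain ⟨i, hi⟩ := (mem_frontier_iff hpos x).1 hx
    by_cases hxN : x ∈ N
    · exact Or.inr hxN
    left
    have hj : ∀ j, j ≠ i → ⟪x, (u j : E n)⟫ < h j := by
      intro j hj
      refine lt_of_le_of_ne (hi.1 j) fun he => hxN ?_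
      simp only [hN, mem_iUnion]
      exact ⟨j, i, hj, ⟨hi.1, he⟩, hi⟩
    have := normal_unique hi hj v hmax
    simp only [mem_iUnion, exists_prop]
    exact ⟨i, by simp [hI, ← this, hv], hi⟩
  have h2 : μHE[n - 1] (revGauss (Poly u h) ω) = μHE[n - 1] (⋃ i ∈ I, Face u h i) := by
    refine le_antisymm ?_ (measure_mono hle)
    refine (measure_mono hge).trans ((measure_union_le _ _).trans ?_)
    rw [hN0, add_zero]
  rw [h1, h2]
  symm
  apply measure_biUnion_finset₀
  · intro i _ j _ hij
    exact face_inter_null hpos hu hn hij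
  · intro i _
    exact (isClosed_face i).measurableSet.nullMeasurableSet

omit [Fintype ι] in
lemma supp_eq {i : ι} {x : E n} (hx : x ∈ Face u h i) : supp (Poly u h) (u i : E n) = h i := by
  unfold supp
  refine le_antisymm (csSup_le ⟨_, x, hx.1, rfl⟩ ?_) (le_csSup ⟨h i, ?_⟩ ⟨x, hx.1, hx.2⟩)
  · rintro _ ⟨y, hy, rfl⟩; exact hy i
  · rintro _ ⟨y, hy, rfl⟩; exact hy i

lemma integrable_poly (hn : 1 ≤ n) (hK : IsCompact (Poly u h)) (f : sphere (0 : E n) 1 → ℝ) :
    Integrable f (polyMeasure u h) := by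
  rw [polyMeasure, integrable_finsetSum_measure]
  intro i _
  exact Integrable.smul_measure (integrable_dirac (by simp)) (face_finite hn hK i)

lemma sp_poly (hn : 1 ≤ n) (hK : IsCompact (Poly u h)) (p : ℝ) :
    Sp p (Poly u h) (polyMeasure u h) =
      ∑ i, (μHE[n - 1] (Face u h i)).toReal * (h i) ^ (1 - p) := by
  rw [Sp, polyMeasure, integral_finsetSum_measure]
  · refine Finset.sum_congr rfl fun i _ => ?_
    rw [integral_smul_measure, integral_dirac]
    rcases (Face u h i).eq_empty_or_nonempty with he | ⟨x0, hx0⟩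
    · rw [he]; simp
    · rw [supp_eq hx0, smul_eq_mul]
  · intro i _
    exact Integrable.smul_measure (integrable_dirac (by simp)) (face_finite hn hK i)

lemma isConvexBody_poly (hpos : ∀ i, 0 < h i) (hK : IsCompact (Poly u h)) :
    IsConvexBody (Poly u h) :=
  ⟨hK, convex_poly, ⟨0, zero_mem_interior hpos⟩⟩

end Pool.Agent.H26.LpSurf
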