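import Pool.Agent.H26.LpSurfBody

open MeasureTheory Measure Metric Set Filter Topology
open scoped RealInnerProductSpace ENNReal NNReal Pointwise

namespace Pool.Agent.H26.LpSurf

noncomputable def KK (k : ℕ) (η : ℝ) (s : Bool) : Set (E (k + 2)) :=
  Body k η (fun b => if b = s then 1 else 4) η (fun b => if b = s then 3 else 4) 1

noncomputable def MM (k : ℕ) (η : ℝ) : Set (E (k + 2)) :=
  Body k η (fun _ => 5) (2 * η) (fun _ => 7) 2

lemma mem_KK (k : ℕ) (η : ℝ) (s : Bool) (x : E (k + 2)) :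
    x ∈ KK k η s ↔ (∀ b, sg b * x 0 ≤ if b = s then 1 else 4) ∧ (∀ b, sg b * x 1 ≤ η) ∧
      (∀ b c, η * sg b * x 0 + 2 * sg c * x 1 ≤ η * (if b = s then 3 else 4)) ∧
      (∀ (j : Fin k) b, sg b * x j.succ.succ ≤ 1) := mem_body _ _ _ _ _ _

lemma mem_MM (k : ℕ) (η : ℝ) (x : E (k + 2)) :
    x ∈ MM k η ↔ (∀ b, sg b * x 0 ≤ 5) ∧ (∀ b, sg b * x 1 ≤ 2 * η) ∧
      (∀ b c, η * sg b * x 0 + 2 * sg c * x 1 ≤ η * 7) ∧
      (∀ (j : Fin k) b, sg b * x j.succ.succ ≤ 2) := mem_body _ _ _ _ _ _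

lemma sum_subset (k : ℕ) (η : ℝ) : KK k η true + KK k η false ⊆ MM k η := by
  rintro _ ⟨x, hx, y, hy, rfl⟩
  rw [mem_KK] at hx hy
  rw [mem_MM]
  obtain ⟨hx0, hx1, hx2, hx3⟩ := hx
  obtain ⟨hy0, hy1, hy2, hy3⟩ := hy
  refine ⟨fun b => ?_, fun b => ?_, fun b c => ?_, fun j b => ?_⟩
  · have h1 := hx0 b; have h2 := hy0 b
    simp only [PiLp.add_apply]
    cases b <;> simp at * <;> linarith
  · have h1 := hx1 b; have h2 := hy1 b
    simp only [PiLp.add_apply]
    linarith
  · have h1 := hx2 b c; have h2 := hy2 b c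
    simp only [PiLp.add_apply]
    cases b <;> simp at * <;> linarith
  · have h1 := hx3 j b; have h2 := hy3 j b
    simp only [PiLp.add_apply]
    linarith

lemma decomp (k : ℕ) {η : ℝ} (hη : 0 < η) (s : Bool) (x : E (k + 2)) (hx : x ∈ MM k η)
    (hs : 0 ≤ sg s * x 0) : ∃ y ∈ KK k η s, ∃ z ∈ KK k η (!s), y + z = x := by
  rw [mem_MM] at hx
  obtain ⟨h0, h1, h2, h3⟩ := hx
  set m : ℝ := min η (η * (5 - sg s * x 0) / 2) with hm
  have hm0 : 0 ≤ m := by
    refine le_min hη.le ?_
    have := h0 s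
    apply div_nonneg (mul_nonneg hη.le (by linarith)) (by norm_num)
  have hm1 : m ≤ η := min_le_left _ _
  have hm2 : m ≤ η * (5 - sg s * x 0) / 2 := min_le_right _ _
  have hpos : 0 < η + m := by linarith
  have hc : ∀ c, sg c * x 1 ≤ η + m := by
    intro c
    have e1 := h1 c
    have e2 := h2 s c
    rw [hm]
    rcases min_choice η (η * (5 - sg s * x 0) / 2) with h | h <;> rw [h]
    · linarith
    · linarith
  have hc1 : ∀ c, sg c * (x 1 * η / (η + m)) ≤ η := by
    intro c
    rw [show sg c * (x 1 * η / (η + m)) = (sg c * x 1) * (η / (η + m)) by ring]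
    calc (sg c * x 1) * (η / (η + m)) ≤ (η + m) * (η / (η + m)) :=
          mul_le_mul_of_nonneg_right (hc c) (by positivity)
      _ = η := by field_simp
  have hc2 : ∀ c, sg c * (x 1 * m / (η + m)) ≤ m := by
    intro c
    rw [show sg c * (x 1 * m / (η + m)) = (sg c * x 1) * (m / (η + m)) by ring]
    calc (sg c * x 1) * (m / (η + m)) ≤ (η + m) * (m / (η + m)) :=
          mul_le_mul_of_nonneg_right (hc c) (by positivity)
      _ = m := by field_simp
  refine ⟨WithLp.toLp 2 (Fin.cons (sg s) (Fin.cons (x 1 * η / (η + m))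
      (fun j : Fin k => x j.succ.succ / 2))), ?_,
    WithLp.toLp 2 (Fin.cons (x 0 - sg s) (Fin.cons (x 1 * m / (η + m))
      (fun j : Fin k => x j.succ.succ / 2))), ?_, ?_⟩
  · rw [mem_KK]
    have e1 : (Fin.cons (sg s) (Fin.cons (x 1 * η / (η + m))
      (fun j : Fin k => x j.succ.succ / 2)) : Fin (k + 2) → ℝ) 1 = x 1 * η / (η + m) := rfl
    simp only [Fin.cons_zero, Fin.cons_succ, e1]
    refine ⟨fun b => ?_, hc1, fun b c => ?_, fun j b => ?_⟩
    · cases b <;> cases s <;> simp <;> norm_num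
    · have := hc1 c
      cases b <;> cases s <;> simp <;> linarith
    · have := h3 j b; linarith
  · rw [mem_KK]
    have e1 : (Fin.cons (x 0 - sg s) (Fin.cons (x 1 * m / (η + m))
      (fun j : Fin k => x j.succ.succ / 2)) : Fin (k + 2) → ℝ) 1 = x 1 * m / (η + m) := rfl
    simp only [Fin.cons_zero, Fin.cons_succ, e1]
    refine ⟨fun b => ?_, fun c => (hc2 c).trans hm1, fun b c => ?_, fun j b => ?_⟩
    · have e3 := h0 b
      cases b <;> cases s <;> simp at * <;> linarith
    · have e4 := hc2 c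
      have e5 := mul_nonneg hη.le hs
      cases b <;> cases s <;> simp at * <;> nlinarith
    · have := h3 j b; linarith
  · ext j
    refine Fin.cases ?_ (fun j => ?_) j
    · simp
    · refine Fin.cases ?_ (fun j => ?_) j
      · simp only [PiLp.add_apply, Fin.cons_succ, Fin.cons_zero]
        have : (Fin.succ 0 : Fin (k + 2)) = 1 := rfl
        rw [this]
        field_simp
      · simp

lemma sum_eq (k : ℕ) {η : ℝ} (hη : 0 < η) : KK k η true + KK k η false = MM k η := by
  refine Subset.antisymm (sum_subset k η) fun x hx => ?_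
  rcases le_total 0 (x 0) with h | h
  · obtain ⟨y, hy, z, hz, rfl⟩ := decomp k hη true x hx (by simpa using h)
    exact add_mem_add hy hz
  · obtain ⟨y, hy, z, hz, rfl⟩ := decomp k hη false x hx (by simpa using h)
    rw [add_comm y z]
    exact add_mem_add hz hy

end Pool.Agent.H26.LpSurf
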