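import Pool.Agent.H26.LpSurfFace

open MeasureTheory Measure Metric Set Filter Topology
open scoped RealInnerProductSpace ENNReal NNReal Pointwise

namespace Pool.Agent.H26.LpSurf

noncomputable def rho (η : ℝ) : ℝ := √(1 + η ^ 2 / 4)

/-- real form of the upper bound -/
lemma toReal_le_of_subset_box {m : ℕ} (i : Fin (m + 1)) (S : Set (E (m + 1)))
    (a b : Fin m → ℝ) (hab : ∀ j, a j ≤ b j) (g : E m → ℝ) (s : ℝ≥0)
    (hg : ∀ y z, (g y - g z) ^ 2 ≤ s * dist y z ^ 2)
    (hS : ∀ x ∈ S, pr i x ∈ box a b ∧ x i = g (pr i x)) :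
    (μHE[m] S).toReal ≤ √(1 + s) ^ m * ∏ j, (b j - a j) := by
  have h0 : 0 ≤ ∏ j, (b j - a j) := Finset.prod_nonneg fun j _ => by linarith [hab j]
  have h := measure_le_of_subset_box i S a b hab g s hg hS
  refine ENNReal.toReal_le_of_le_ofReal (by positivity) (h.trans (le_of_eq ?_))
  rw [ENNReal.ofReal_mul (by positivity), ENNReal.ofReal_pow (by positivity)]
  congr 2
  rw [← ENNReal.ofReal_coe_nnreal, Real.coe_sqrt]
  simp

/-- a version with constant inserted coordinate -/
lemma toReal_le_const {m : ℕ} (i : Fin (m + 1)) (S : Set (E (m + 1)))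
    (a b : Fin m → ℝ) (hab : ∀ j, a j ≤ b j) (v : ℝ)
    (hS : ∀ x ∈ S, pr i x ∈ box a b ∧ x i = v) :
    (μHE[m] S).toReal ≤ ∏ j, (b j - a j) := by
  have := toReal_le_of_subset_box i S a b hab (fun _ => v) 0 (by simp) hS
  simpa using this

lemma face_M_zero (k : ℕ) {η : ℝ} (hη : 0 < η) (b : Bool) :
    (μHE[k + 1] (Face (nu k η) (hM k η) (.inl b))).toReal ≤ 2 * η * 4 ^ k := by
  have key := toReal_le_const (m := k + 1) 0 (Face (nu k η) (hM k η) (.inl b))
    (Fin.cons (-η) (fun _ => -2)) (Fin.cons η (fun _ => 2)) ?_ (sg b * 5) ?_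
  · rw [prod_box] at key
    calc _ ≤ _ := key
      _ = _ := by norm_num; ring
  · intro j
    refine Fin.cases ?_ (fun j => ?_) j
    · simp; linarith
    · simp
  · intro x hx
    rw [mem_face_M, mem_MM] at hx
    obtain ⟨⟨h0, h1, h2, h3⟩, h4⟩ := hx
    simp only [ipr, hM, hvec] at h4
    refine ⟨fun j => ?_, ?_⟩
    · refine Fin.cases ?_ (fun j => ?_) j
      · have e1 := h2 b true
        have e2 := h2 b false
        have e : (Fin.succAbove 0 0 : Fin (k + 2)) = 1 := rfl
        simp only [pr, Fin.cons_zero, e]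
        simp only [sg_true, sg_false] at e1 e2
        have e3 : η * sg b * x 0 = η * 5 := by rw [mul_assoc, h4]
        constructor <;> linarith
      · have e1 := h3 j true
        have e2 := h3 j false
        simp only [pr, Fin.cons_succ, Fin.zero_succAbove]
        simp only [sg_true, sg_false] at e1 e2
        constructor <;> linarith
    · rw [← h4, ← mul_assoc, sg_sq, one_mul]

lemma face_M_one (k : ℕ) {η : ℝ} (hη : 0 < η) (c : Bool) :
    (μHE[k + 1] (Face (nu k η) (hM k η) (.inr (.inl c)))).toReal ≤ 6 * 4 ^ k := by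
  have key := toReal_le_const (m := k + 1) 1 (Face (nu k η) (hM k η) (.inr (.inl c)))
    (Fin.cons (-3) (fun _ => -2)) (Fin.cons 3 (fun _ => 2)) ?_ (sg c * (2 * η)) ?_
  · rw [prod_box] at key
    calc _ ≤ _ := key
      _ = _ := by norm_num
  · intro j
    refine Fin.cases ?_ (fun j => ?_) j
    · simp
    · simp
  · intro x hx
    rw [mem_face_M, mem_MM] at hx
    obtain ⟨⟨h0, h1, h2, h3⟩, h4⟩ := hx
    simp only [ipr, hM, hvec] at h4
    refine ⟨fun j => ?_, ?_⟩
    · refine Fin.cases ?_ (fun j => ?_) j
      · have e1 := h2 true c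
        have e2 := h2 false c
        have e : (Fin.succAbove 1 0 : Fin (k + 2)) = 0 := rfl
        simp only [pr, Fin.cons_zero, e]
        simp only [sg_true, sg_false] at e1 e2
        have e3 : 2 * sg c * x 1 = 2 * (2 * η) := by rw [mul_assoc, h4]
        constructor <;> nlinarith
      · have e1 := h3 j true
        have e2 := h3 j false
        simp only [pr, Fin.cons_succ, Fin.one_succAbove_succ]
        simp only [sg_true, sg_false] at e1 e2
        constructor <;> linarith
    · rw [← h4, ← mul_assoc, sg_sq, one_mul]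

lemma face_M_slant (k : ℕ) {η : ℝ} (hη : 0 < η) (b c : Bool) :
    (μHE[k + 1] (Face (nu k η) (hM k η) (.inr (.inr (.inl (b, c)))))).toReal ≤
      rho η ^ (k + 1) * (2 * 4 ^ k) := by
  have key := toReal_le_of_subset_box (m := k + 1) 1
    (Face (nu k η) (hM k η) (.inr (.inr (.inl (b, c)))))
    (Fin.cons (if b then 3 else -5) (fun _ => -2)) (Fin.cons (if b then 5 else -3) (fun _ => 2)) ?_
    (fun y => sg c * (η * (7 - sg b * y 0) / 2)) (η ^ 2 / 4).toNNReal ?_ ?_
  · rw [prod_box] at key
    rw [Real.coe_toNNReal _ (by positivity : 0 ≤ η ^ 2 / 4)] at key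
    change _ ≤ rho η ^ (k + 1) * _ at key
    calc _ ≤ _ := key
      _ = _ := by
        cases b <;> norm_num
  · intro j
    refine Fin.cases ?_ (fun j => ?_) j
    · cases b <;> simp <;> norm_num
    · simp
  · intro y z
    have h1 : dist (y 0) (z 0) ^ 2 ≤ dist y z ^ 2 := by
      rw [EuclideanSpace.dist_eq, Real.sq_sqrt (by positivity)]
      exact Finset.single_le_sum (f := fun i => dist (y i) (z i) ^ 2)
        (fun i _ => by positivity) (Finset.mem_univ 0)
    rw [Real.dist_eq, sq_abs] at h1
    have h2 : (sg c * (η * (7 - sg b * y 0) / 2) - sg c * (η * (7 - sg b * z 0) / 2)) ^ 2 =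
        (sg c * sg c) * (sg b * sg b) * (η ^ 2 / 4 * (y 0 - z 0) ^ 2) := by ring
    simp only []
    rw [h2, sg_sq, sg_sq]
    rw [Real.coe_toNNReal _ (by positivity : 0 ≤ η ^ 2 / 4)]
    simp only [one_mul]
    exact mul_le_mul_of_nonneg_left h1 (by positivity)
  · intro x hx
    rw [mem_face_M, mem_MM] at hx
    obtain ⟨⟨h0, h1, h2, h3⟩, h4⟩ := hx
    have hr := rr_pos η
    simp only [ipr, hM, hvec] at h4
    rw [div_left_inj' hr.ne'] at h4
    refine ⟨fun j => ?_, ?_⟩
    · refine Fin.cases ?_ (fun j => ?_) j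
      · have e1 := h1 c
        have e2 := h0 b
        have e : (Fin.succAbove 1 0 : Fin (k + 2)) = 0 := rfl
        simp only [pr, Fin.cons_zero, e]
        have e4 : 3 ≤ sg b * x 0 := by nlinarith
        cases b <;> simp at * <;> constructor <;> linarith
      · have e1 := h3 j true
        have e2 := h3 j false
        simp only [pr, Fin.cons_succ, Fin.one_succAbove_succ]
        simp only [sg_true, sg_false] at e1 e2
        constructor <;> linarith
    · have e : (pr 1 x : E (k + 1)) 0 = x 0 := rfl
      rw [e]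
      have h5 := sg_sq c
      have : x 1 = (sg c * sg c) * x 1 := by rw [h5, one_mul]
      rw [this]
      linear_combination (sg c / 2) * h4

lemma face_M_cube (k : ℕ) {η : ℝ} (hη : 0 < η) (i : Fin k) (b : Bool) :
    (μHE[k + 1] (Face (nu k η) (hM k η) (.inr (.inr (.inr (i, b)))))).toReal ≤
      10 * η * 4 ^ k := by
  obtain ⟨k, rfl⟩ : ∃ k', k = k' + 1 := ⟨k - 1, by have := i.2; omega⟩
  set w : Fin (k + 2) → ℝ := Fin.cons 5 (Fin.cons (2 * η) (fun _ => 2)) with hw
  have key := toReal_le_const (m := k + 2) i.succ.succ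
    (Face (nu (k + 1) η) (hM (k + 1) η) (.inr (.inr (.inr (i, b)))))
    (fun j => -w j) w ?_ (sg b * 2) ?_
  · have hp : ∏ j, (w j - -w j) = 10 * η * 4 ^ (k + 1) := by
      rw [Fin.prod_univ_succ, Fin.prod_univ_succ]
      simp only [hw, Fin.cons_zero, Fin.cons_succ, Finset.prod_const, Finset.card_univ,
        Fintype.card_fin]
      norm_num
      ring
    rw [hp] at key
    exact key
  · intro j
    refine Fin.cases ?_ (fun j => ?_) j
    · simp [hw]
    · refine Fin.cases ?_ (fun j => ?_) j
      · simp [hw]; linarith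
      · simp [hw]
  · intro x hx
    rw [mem_face_M, mem_MM] at hx
    obtain ⟨⟨h0, h1, h2, h3⟩, h4⟩ := hx
    simp only [ipr, hM, hvec] at h4
    refine ⟨fun j => ?_, ?_⟩
    · refine Fin.cases ?_ (fun j => ?_) j
      · have e : (i.succ.succ.succAbove 0 : Fin (k + 3)) = 0 := by simp
        have e1 := h0 true; have e2 := h0 false
        simp only [pr, hw, Fin.cons_zero, e]
        simp only [sg_true, sg_false] at e1 e2
        constructor <;> linarith
      · refine Fin.cases ?_ (fun j => ?_) j
        · have e : (i.succ.succ.succAbove (Fin.succ 0) : Fin (k + 3)) = 1 := by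
            rw [Fin.succ_succAbove_succ]
            simp
          have e1 := h1 true; have e2 := h1 false
          simp only [pr, hw, Fin.cons_zero, Fin.cons_succ, e]
          simp only [sg_true, sg_false] at e1 e2
          constructor <;> linarith
        · have e : (i.succ.succ.succAbove (j.succ.succ) : Fin (k + 3)) =
              (i.succAbove j).succ.succ := by
            rw [Fin.succ_succAbove_succ, Fin.succ_succAbove_succ]
          have e1 := h3 (i.succAbove j) true; have e2 := h3 (i.succAbove j) false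
          simp only [pr, hw, Fin.cons_succ, e]
          simp only [sg_true, sg_false] at e1 e2
          constructor <;> linarith
    · rw [← h4, ← mul_assoc, sg_sq, one_mul]

end Pool.Agent.H26.LpSurf
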