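import Mathlib

set_option autoImplicit false

namespace Pool.Agent.H26.Om

/-- `L` is a line of the plane `ℝ × ℝ` -/
def IsLine (L : Set (ℝ × ℝ)) : Prop :=
  ∃ a b c : ℝ, (a ≠ 0 ∨ b ≠ 0) ∧ L = {p | a * p.1 + b * p.2 = c}

/-- the line `L` is spanned by `X`: it contains two distinct points of `X` -/
def Spanned (X : Set (ℝ × ℝ)) (L : Set (ℝ × ℝ)) : Prop :=
  IsLine L ∧ ∃ p ∈ X, ∃ q ∈ X, p ≠ q ∧ p ∈ L ∧ q ∈ L

/-- the omissible points of `X` -/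
def Om (X : Set (ℝ × ℝ)) : Set (ℝ × ℝ) :=
  {x | x ∈ X ∧ ∀ L, Spanned (X \ {x}) L ↔ Spanned X L}

end Pool.Agent.H26.Om
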