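import Pool.Agent.H26.OmDefs

set_option autoImplicit false

namespace Pool.Agent.H26.Om

/-- collinearity -/
def col (p q r : ℝ × ℝ) : Prop := (q.1 - p.1) * (r.2 - p.2) - (q.2 - p.2) * (r.1 - p.1) = 0

theorem col_swap12 {p q r : ℝ × ℝ} (h : col p q r) : col q p r := by
  unfold col at *
  linear_combination -h

theorem col_swap23 {p q r : ℝ × ℝ} (h : col p q r) : col p r q := by
  unfold col at *
  linear_combination -h

theorem on_line {a b c : ℝ} {p q r : ℝ × ℝ} (hp : a * p.1 + b * p.2 = c)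
    (hq : a * q.1 + b * q.2 = c) (hne : q ≠ p) (h : col p q r) : a * r.1 + b * r.2 = c := by
  unfold col at h
  have h0 : a * (q.1 - p.1) + b * (q.2 - p.2) = 0 := by linear_combination hq - hp
  have hd : q.1 - p.1 ≠ 0 ∨ q.2 - p.2 ≠ 0 := by
    by_contra hc
    push Not at hc
    exact hne (Prod.ext (by linarith [hc.1]) (by linarith [hc.2]))
  have key : a * (r.1 - p.1) + b * (r.2 - p.2) = 0 := by
    rcases hd with hd | hd
    · apply mul_left_cancel₀ hd
      linear_combination (r.1 - p.1) * h0 + b * h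
    · apply mul_left_cancel₀ hd
      linear_combination (r.2 - p.2) * h0 - a * h
  linear_combination key + hp

theorem om_of (X : Set (ℝ × ℝ)) (p : ℝ × ℝ) (hp : p ∈ X)
    (h : ∀ q ∈ X, q ≠ p → ∃ r ∈ X, r ≠ p ∧ r ≠ q ∧ col p q r) : p ∈ Om X := by
  refine ⟨hp, fun L => ⟨?_, ?_⟩⟩
  · rintro ⟨hL, u, hu, v, hv, huv, huL, hvL⟩
    exact ⟨hL, u, hu.1, v, hv.1, huv, huL, hvL⟩
  · rintro ⟨hL, u, hu, v, hv, huv, huL, hvL⟩
    have main : ∀ w ∈ X, w ≠ p → p ∈ L → w ∈ L → Spanned (X \ {p}) L := by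
      intro w hw hwp hpL hwL
      obtain ⟨r, hr, hrp, hrw, hcol⟩ := h w hw hwp
      refine ⟨hL, w, ⟨hw, hwp⟩, r, ⟨hr, hrp⟩, fun e => hrw e.symm, hwL, ?_⟩
      obtain ⟨a, b, c, _, rfl⟩ := hL
      exact on_line hpL hwL hwp hcol
    by_cases e1 : u = p
    · subst e1
      exact main v hv (fun e => huv e.symm) huL hvL
    · by_cases e2 : v = p
      · subst e2
        exact main u hu e1 hvL huL
      · exact ⟨hL, u, ⟨hu, e1⟩, v, ⟨hv, e2⟩, huv, huL, hvL⟩

/-- points of the circle `x² + y² = x` -/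
noncomputable def hh (s : ℝ) : ℝ × ℝ := (s ^ 2 / (s ^ 2 + 1), s / (s ^ 2 + 1))

/-- points of the line `y = 0` -/
noncomputable def ii (m : ℝ) : ℝ × ℝ := (1 / (1 - m), 0)

theorem hh_inj {s t : ℝ} (hs : s ≠ 0) (h : hh s = hh t) : s = t := by
  have h1 : s ^ 2 / (s ^ 2 + 1) = t ^ 2 / (t ^ 2 + 1) := congrArg Prod.fst h
  have h2 : s / (s ^ 2 + 1) = t / (t ^ 2 + 1) := congrArg Prod.snd h
  have e1 : s * (s / (s ^ 2 + 1)) = s ^ 2 / (s ^ 2 + 1) := by ring
  have e2 : t * (t / (t ^ 2 + 1)) = t ^ 2 / (t ^ 2 + 1) := by ring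
  rw [← e1, ← e2, ← h2] at h1
  have h3 : s / (s ^ 2 + 1) ≠ 0 := div_ne_zero hs (by positivity)
  exact mul_right_cancel₀ h3 h1

theorem hh_ne_ii {s m : ℝ} (hs : s ≠ 0) : hh s ≠ ii m := by
  intro h
  have h2 : s / (s ^ 2 + 1) = 0 := congrArg Prod.snd h
  have h3 : s / (s ^ 2 + 1) ≠ 0 := div_ne_zero hs (by positivity)
  exact h3 h2

theorem ii_inj {m n : ℝ} (h : ii m = ii n) : m = n := by
  have h1 : 1 / (1 - m) = 1 / (1 - n) := congrArg Prod.fst h
  have h2 := congrArg (fun x => 1 / x) h1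
  simp only [one_div_one_div] at h2
  linarith

theorem col_hhi {s t m : ℝ} (h : s * t * m = 1) (hm : m ≠ 1) : col (hh s) (hh t) (ii m) := by
  unfold col hh ii
  have h1 : (1 - m) ≠ 0 := fun e => hm (by linarith)
  have h2 : s ^ 2 + 1 ≠ 0 := by positivity
  have h3 : t ^ 2 + 1 ≠ 0 := by positivity
  simp only
  field_simp
  have : (s * t) * (1 - m) = s * t - 1 := by linear_combination -h
  linear_combination (t - s) * this + (-(s - t) * (2 + s ^ 2)) * h

theorem col_iii (m n k : ℝ) : col (ii m) (ii n) (ii k) := by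
  unfold col ii
  simp

/-- a parameter set closed under the involutions -/
structure Good (T : Finset ℝ) : Prop where
  neg : ∀ s ∈ T, -s ∈ T
  inv : ∀ s ∈ T, 1 / (2 * s) ∈ T
  zero : (0 : ℝ) ∉ T
  one : (1 : ℝ) ∉ T
  quarter : (1 / 4 : ℝ) ∉ T
  half : ∀ s ∈ T, 2 * s ^ 2 ≠ 1

open Classical in
/-- parameters on the circle -/
noncomputable def SH (T : Finset ℝ) : Finset ℝ := {2, -2, 1/4, -1/4} ∪ T

open Classical in
/-- parameters on the line -/
noncomputable def SI (T : Finset ℝ) : Finset ℝ := {2, -2, -1/4} ∪ T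

open Classical in
noncomputable def XX (T : Finset ℝ) : Finset (ℝ × ℝ) := (SH T).image hh ∪ (SI T).image ii

theorem mem_SH {T : Finset ℝ} {s : ℝ} :
    s ∈ SH T ↔ s = 2 ∨ s = -2 ∨ s = 1/4 ∨ s = -1/4 ∨ s ∈ T := by
  unfold SH
  simp only [Finset.mem_union, Finset.mem_insert, Finset.mem_singleton]
  tauto

theorem mem_SI {T : Finset ℝ} {s : ℝ} :
    s ∈ SI T ↔ s = 2 ∨ s = -2 ∨ s = -1/4 ∨ s ∈ T := by
  unfold SI
  simp only [Finset.mem_union, Finset.mem_insert, Finset.mem_singleton]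
  tauto

theorem mem_XX {T : Finset ℝ} {p : ℝ × ℝ} :
    p ∈ (XX T : Set (ℝ × ℝ)) ↔ (∃ s ∈ SH T, hh s = p) ∨ (∃ m ∈ SI T, ii m = p) := by
  unfold XX
  rw [Finset.mem_coe, Finset.mem_union, Finset.mem_image, Finset.mem_image]

theorem Good.inv' {T : Finset ℝ} (hT : Good T) (a : ℝ) (ha : a = 2 ∨ a = -2) (s : ℝ) (hs : s ∈ T) :
    1 / (a * s) ∈ T := by
  rcases ha with rfl | rfl
  · exact hT.inv s hs
  · have := hT.neg _ (hT.inv s hs)
    have e : 1 / (-2 * s) = -(1 / (2 * s)) := by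
      rw [neg_mul, one_div_neg_eq_neg_one_div]
    rw [e]; exact this

theorem SH_zero {T : Finset ℝ} (hT : Good T) {s : ℝ} (hs : s ∈ SH T) : s ≠ 0 := by
  rw [mem_SH] at hs
  rcases hs with rfl | rfl | rfl | rfl | h
  · norm_num
  · norm_num
  · norm_num
  · norm_num
  · exact fun e => hT.zero (e ▸ h)

theorem SI_zero {T : Finset ℝ} (hT : Good T) {s : ℝ} (hs : s ∈ SI T) : s ≠ 0 := by
  rw [mem_SI] at hs
  rcases hs with rfl | rfl | rfl | h
  · norm_num
  · norm_num
  · norm_num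
  · exact fun e => hT.zero (e ▸ h)

theorem SI_one {T : Finset ℝ} (hT : Good T) {s : ℝ} (hs : s ∈ SI T) : s ≠ 1 := by
  rw [mem_SI] at hs
  rcases hs with rfl | rfl | rfl | h
  · norm_num
  · norm_num
  · norm_num
  · exact fun e => hT.one (e ▸ h)

theorem SI_quarter {T : Finset ℝ} (hT : Good T) {s : ℝ} (hs : s ∈ SI T) : s ≠ 1/4 := by
  rw [mem_SI] at hs
  rcases hs with rfl | rfl | rfl | h
  · norm_num
  · norm_num
  · norm_num
  · exact fun e => hT.quarter (e ▸ h)

theorem SH_half {T : Finset ℝ} (hT : Good T) {s : ℝ} (hs : s ∈ SH T) : 2 * s ^ 2 ≠ 1 := by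
  rw [mem_SH] at hs
  rcases hs with rfl | rfl | rfl | rfl | h
  · norm_num
  · norm_num
  · norm_num
  · norm_num
  · exact hT.half s h

theorem clos_i {T : Finset ℝ} (hT : Good T) (a : ℝ) (ha : a = 2 ∨ a = -2) {s : ℝ}
    (hs : s ∈ SH T) (hsa : s ≠ a) : 1 / (a * s) ∈ SI T := by
  rw [mem_SH] at hs
  rw [mem_SI]
  rcases hs with rfl | rfl | rfl | rfl | h
  · rcases ha with rfl | rfl
    · exact absurd rfl hsa
    · right; right; left; norm_num
  · rcases ha with rfl | rfl
    · right; right; left; norm_num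
    · exact absurd rfl hsa
  · rcases ha with rfl | rfl
    · left; norm_num
    · right; left; norm_num
  · rcases ha with rfl | rfl
    · right; left; norm_num
    · left; norm_num
  · right; right; right
    exact hT.inv' a ha s h

theorem clos_ii {T : Finset ℝ} (hT : Good T) (a : ℝ) (ha : a = 2 ∨ a = -2) {m : ℝ}
    (hm : m ∈ SI T) : 1 / (a * m) ∈ SH T := by
  rw [mem_SI] at hm
  rw [mem_SH]
  rcases hm with rfl | rfl | rfl | h
  · rcases ha with rfl | rfl
    · right; right; left; norm_num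
    · right; right; right; left; norm_num
  · rcases ha with rfl | rfl
    · right; right; right; left; norm_num
    · right; right; left; norm_num
  · rcases ha with rfl | rfl
    · right; left; norm_num
    · left; norm_num
  · right; right; right; right
    exact hT.inv' a ha m h

theorem clos_iii {T : Finset ℝ} (hT : Good T) (a : ℝ) (ha : a = 2 ∨ a = -2) {s : ℝ}
    (hs : s ∈ SH T) : 1 / (a * s) ∈ SH T := by
  rw [mem_SH] at hs
  rw [mem_SH]
  rcases hs with rfl | rfl | rfl | rfl | h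
  · rcases ha with rfl | rfl
    · right; right; left; norm_num
    · right; right; right; left; norm_num
  · rcases ha with rfl | rfl
    · right; right; right; left; norm_num
    · right; right; left; norm_num
  · rcases ha with rfl | rfl
    · left; norm_num
    · right; left; norm_num
  · rcases ha with rfl | rfl
    · right; left; norm_num
    · left; norm_num
  · right; right; right; right
    exact hT.inv' a ha s h

theorem om_h {T : Finset ℝ} (hT : Good T) (a : ℝ) (ha : a = 2 ∨ a = -2) :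
    hh a ∈ Om (XX T : Set (ℝ × ℝ)) := by
  have haH : a ∈ SH T := by
    rw [mem_SH]
    rcases ha with h | h
    · left; exact h
    · right; left; exact h
  have ha0 : a ≠ 0 := SH_zero hT haH
  have ha2 : a * a = 4 := by rcases ha with rfl | rfl <;> norm_num
  refine om_of _ _ (mem_XX.2 (Or.inl ⟨a, haH, rfl⟩)) ?_
  intro q hq hqp
  rcases mem_XX.1 hq with ⟨s, hs, rfl⟩ | ⟨m, hm, rfl⟩
  · have hs0 := SH_zero hT hs
    have hsa : s ≠ a := fun e => hqp (by rw [e])
    have hI := clos_i hT a ha hs hsa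
    refine ⟨ii (1 / (a * s)), mem_XX.2 (Or.inr ⟨_, hI, rfl⟩), (hh_ne_ii ha0).symm,
      (hh_ne_ii hs0).symm, ?_⟩
    exact col_hhi (by field_simp) (SI_one hT hI)
  · have hm0 := SI_zero hT hm
    have hH := clos_ii hT a ha hm
    have hH0 := SH_zero hT hH
    refine ⟨hh (1 / (a * m)), mem_XX.2 (Or.inl ⟨_, hH, rfl⟩), ?_, hh_ne_ii hH0, ?_⟩
    · intro e
      have e1 := hh_inj hH0 e
      have e2 : a * m * a = 1 := by
        rw [div_eq_iff (mul_ne_zero ha0 hm0)] at e1
        linarith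
      apply SI_quarter hT hm
      have e3 : a * a * m = 1 := by linarith
      rw [ha2] at e3
      linarith
    · exact col_swap23 (col_hhi (by field_simp) (SI_one hT hm))

theorem om_i {T : Finset ℝ} (hT : Good T) (a : ℝ) (ha : a = 2 ∨ a = -2) :
    ii a ∈ Om (XX T : Set (ℝ × ℝ)) := by
  have haI : a ∈ SI T := by
    rw [mem_SI]
    rcases ha with h | h
    · left; exact h
    · right; left; exact h
  have ha0 : a ≠ 0 := SI_zero hT haI
  refine om_of _ _ (mem_XX.2 (Or.inr ⟨a, haI, rfl⟩)) ?_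
  intro q hq hqp
  rcases mem_XX.1 hq with ⟨s, hs, rfl⟩ | ⟨m, hm, rfl⟩
  · have hs0 := SH_zero hT hs
    have hH := clos_iii hT a ha hs
    have hH0 := SH_zero hT hH
    refine ⟨hh (1 / (a * s)), mem_XX.2 (Or.inl ⟨_, hH, rfl⟩), hh_ne_ii hH0, ?_, ?_⟩
    · intro e
      have e1 := hh_inj hH0 e
      rw [div_eq_iff (mul_ne_zero ha0 hs0)] at e1
      have hhalf := SH_half hT hs
      rcases ha with rfl | rfl
      · exact hhalf (by linarith)
      · have : 0 ≤ s ^ 2 := sq_nonneg s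
        nlinarith
    · have h1 : col (hh s) (hh (1 / (a * s))) (ii a) :=
        col_hhi (by field_simp) (SI_one hT haI)
      exact col_swap12 (col_swap23 h1)
  · have hma : m ≠ a := fun e => hqp (by rw [e])
    obtain ⟨k, hk, hka, hkm⟩ : ∃ k ∈ SI T, k ≠ a ∧ k ≠ m := by
      by_cases h1 : m = -a
      · refine ⟨-1/4, by rw [mem_SI]; right; right; left; rfl, ?_, ?_⟩
        · rcases ha with rfl | rfl <;> norm_num
        · rw [h1]; rcases ha with rfl | rfl <;> norm_num
      · refine ⟨-a, ?_, ?_, fun e => h1 e.symm⟩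
        · rw [mem_SI]
          rcases ha with rfl | rfl
          · right; left; rfl
          · left; norm_num
        · rcases ha with rfl | rfl <;> norm_num
    exact ⟨ii k, mem_XX.2 (Or.inr ⟨k, hk, rfl⟩), fun e => hka (ii_inj e), fun e => hkm (ii_inj e),
      col_iii _ _ _⟩

open Classical in
/-- the parameter sets -/
noncomputable def TT (N : ℕ) : Finset ℝ :=
  (Finset.range N).biUnion (fun j => {(j : ℝ) + 3, -((j : ℝ) + 3), 1 / (2 * ((j : ℝ) + 3)),
    -(1 / (2 * ((j : ℝ) + 3)))})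

theorem mem_TT {N : ℕ} {s : ℝ} : s ∈ TT N ↔ ∃ j < N, s = (j : ℝ) + 3 ∨ s = -((j : ℝ) + 3) ∨
    s = 1 / (2 * ((j : ℝ) + 3)) ∨ s = -(1 / (2 * ((j : ℝ) + 3))) := by
  unfold TT
  simp only [Finset.mem_biUnion, Finset.mem_range, Finset.mem_insert, Finset.mem_singleton]

theorem TT_abs {N : ℕ} {s : ℝ} (hs : s ∈ TT N) : 9 ≤ s ^ 2 ∨ (0 < s ^ 2 ∧ s ^ 2 ≤ 1 / 36) := by
  obtain ⟨j, _, h⟩ := mem_TT.1 hs
  have hj : (0 : ℝ) ≤ j := Nat.cast_nonneg j
  have hi : 0 < 1 / (2 * ((j : ℝ) + 3)) := by positivity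
  have hi2 : 1 / (2 * ((j : ℝ) + 3)) ≤ 1 / 6 := by
    apply one_div_le_one_div_of_le (by norm_num)
    linarith
  rcases h with rfl | rfl | rfl | rfl
  · left; nlinarith
  · left; nlinarith
  · right; constructor
    · positivity
    · nlinarith
  · right; constructor
    · rw [neg_sq]; positivity
    · nlinarith

theorem good_TT (N : ℕ) : Good (TT N) := by
  constructor
  · intro s hs
    obtain ⟨j, hj, h⟩ := mem_TT.1 hs
    refine mem_TT.2 ⟨j, hj, ?_⟩
    rcases h with rfl | rfl | rfl | rfl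
    · right; left; rfl
    · left; ring
    · right; right; right; rfl
    · right; right; left; ring
  · intro s hs
    obtain ⟨j, hj, h⟩ := mem_TT.1 hs
    refine mem_TT.2 ⟨j, hj, ?_⟩
    have hj' : (j : ℝ) + 3 ≠ 0 := by positivity
    rcases h with rfl | rfl | rfl | rfl
    · right; right; left; rfl
    · right; right; right
      rw [mul_neg, one_div_neg_eq_neg_one_div]
    · left; field_simp
    · right; left; field_simp
  · intro h
    rcases TT_abs h with h1 | h1 <;> norm_num at h1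
  · intro h
    rcases TT_abs h with h1 | h1 <;> norm_num at h1
  · intro h
    rcases TT_abs h with h1 | h1 <;> norm_num at h1
  · intro s hs h
    rcases TT_abs hs with h1 | h1
    · linarith
    · linarith [h1.2]

theorem card_XX (N : ℕ) : N ≤ (XX (TT N)).card := by
  classical
  have hsub : (Finset.range N).image (fun j : ℕ => hh ((j : ℝ) + 3)) ⊆ XX (TT N) := by
    intro p hp
    rw [Finset.mem_image] at hp
    obtain ⟨j, hj, rfl⟩ := hp
    have : hh ((j : ℝ) + 3) ∈ (XX (TT N) : Set (ℝ × ℝ)) :=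
      mem_XX.2 (Or.inl ⟨(j : ℝ) + 3, mem_SH.2 (Or.inr (Or.inr (Or.inr (Or.inr
        (mem_TT.2 ⟨j, Finset.mem_range.1 hj, Or.inl rfl⟩))))), rfl⟩)
    exact this
  have hcard : ((Finset.range N).image (fun j : ℕ => hh ((j : ℝ) + 3))).card = N := by
    rw [Finset.card_image_of_injective, Finset.card_range]
    intro i j hij
    have := hh_inj (by positivity) hij
    have h2 : (i : ℝ) = j := by linarith
    exact_mod_cast h2
  calc N = _ := hcard.symm
    _ ≤ _ := Finset.card_le_card hsub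

theorem two_miss {T : Finset ℝ} (hT : Good T) (L : Set (ℝ × ℝ)) (hL : IsLine L) :
    ∃ x ∈ Om (XX T : Set (ℝ × ℝ)), ∃ y ∈ Om (XX T : Set (ℝ × ℝ)), x ≠ y ∧ x ∉ L ∧ y ∉ L := by
  obtain ⟨a, b, c, hab, rfl⟩ := hL
  have m1 := om_h hT 2 (Or.inl rfl)
  have m2 := om_h hT (-2) (Or.inr rfl)
  have m3 := om_i hT 2 (Or.inl rfl)
  have m4 := om_i hT (-2) (Or.inr rfl)
  have v1 : hh 2 = (4/5, 2/5) := by unfold hh; norm_num
  have v2 : hh (-2) = (4/5, -2/5) := by unfold hh; norm_num
  have v3 : ii 2 = (-1, 0) := by unfold ii; norm_num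
  have v4 : ii (-2) = (1/3, 0) := by unfold ii; norm_num
  have d12 : hh 2 ≠ hh (-2) := by rw [v1, v2]; intro h; have := congrArg Prod.snd h; norm_num at this
  have d13 : hh 2 ≠ ii 2 := hh_ne_ii (by norm_num)
  have d14 : hh 2 ≠ ii (-2) := hh_ne_ii (by norm_num)
  have d23 : hh (-2) ≠ ii 2 := hh_ne_ii (by norm_num)
  have d24 : hh (-2) ≠ ii (-2) := hh_ne_ii (by norm_num)
  have d34 : ii 2 ≠ ii (-2) := by rw [v3, v4]; intro h; have := congrArg Prod.fst h; norm_num at this
  have i1 : hh 2 ∈ {p : ℝ × ℝ | a * p.1 + b * p.2 = c} ↔ a * (4/5) + b * (2/5) = c := by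
    rw [v1]; rfl
  have i2 : hh (-2) ∈ {p : ℝ × ℝ | a * p.1 + b * p.2 = c} ↔ a * (4/5) + b * (-2/5) = c := by
    rw [v2]; rfl
  have i3 : ii 2 ∈ {p : ℝ × ℝ | a * p.1 + b * p.2 = c} ↔ a * (-1) + b * 0 = c := by
    rw [v3]; rfl
  have i4 : ii (-2) ∈ {p : ℝ × ℝ | a * p.1 + b * p.2 = c} ↔ a * (1/3) + b * 0 = c := by
    rw [v4]; rfl
  have no : ∀ (_ : a = 0) (_ : b = 0), False := by
    intro h1 h2
    rcases hab with h | h
    · exact h h1
    · exact h h2
  by_cases c1 : hh 2 ∈ {p : ℝ × ℝ | a * p.1 + b * p.2 = c}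
  · by_cases c2 : hh (-2) ∈ {p : ℝ × ℝ | a * p.1 + b * p.2 = c}
    · have e1 := i1.1 c1
      have e2 := i2.1 c2
      have c3 : ii 2 ∉ {p : ℝ × ℝ | a * p.1 + b * p.2 = c} := by
        intro h; have e3 := i3.1 h
        exact no (by linarith) (by linarith)
      have c4 : ii (-2) ∉ {p : ℝ × ℝ | a * p.1 + b * p.2 = c} := by
        intro h; have e3 := i4.1 h
        exact no (by linarith) (by linarith)
      exact ⟨_, m3, _, m4, d34, c3, c4⟩
    · by_cases c3 : ii 2 ∈ {p : ℝ × ℝ | a * p.1 + b * p.2 = c}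
      · have c4 : ii (-2) ∉ {p : ℝ × ℝ | a * p.1 + b * p.2 = c} := by
          intro h
          have e1 := i1.1 c1
          have e3 := i3.1 c3
          have e4 := i4.1 h
          exact no (by linarith) (by linarith)
        exact ⟨_, m2, _, m4, d24, c2, c4⟩
      · exact ⟨_, m2, _, m3, d23, c2, c3⟩
  · by_cases c2 : hh (-2) ∈ {p : ℝ × ℝ | a * p.1 + b * p.2 = c}
    · by_cases c3 : ii 2 ∈ {p : ℝ × ℝ | a * p.1 + b * p.2 = c}
      · have c4 : ii (-2) ∉ {p : ℝ × ℝ | a * p.1 + b * p.2 = c} := by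
          intro h
          have e1 := i2.1 c2
          have e3 := i3.1 c3
          have e4 := i4.1 h
          exact no (by linarith) (by linarith)
        exact ⟨_, m1, _, m4, d14, c1, c4⟩
      · exact ⟨_, m1, _, m3, d13, c1, c3⟩
    · exact ⟨_, m1, _, m2, d12, c1, c2⟩

end Pool.Agent.H26.Om
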