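import Pool.Agent.H26.CT
import Pool.Agent.H26.Rub

set_option autoImplicit false

namespace Pool.Agent.H26.Out

open Pool.Agent.H26.CT Pool.Agent.H26.Rub

lemma mem_iff {σ : Equiv.Perm ℤ} : σ ∈ CT ↔ (∃ m : ℤ, 0 < m ∧ Aff m σ) ∧ Pos σ :=
  ⟨good_of_mem, fun h => by obtain ⟨⟨m, hm, hA⟩, hP⟩ := h; exact mem_CT hm hA hP⟩

/-- periodic sets -/
def Clop : Set (Set ℤ) := {U | ∃ m : ℤ, 0 < m ∧ ∀ n k : ℤ, n + m * k ∈ U ↔ n ∈ U}

lemma cls_clop (x m : ℤ) (hm : 0 < m) : {y : ℤ | ∃ k : ℤ, y = x + m * k} ∈ Clop := by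
  refine ⟨m, hm, fun n k => ⟨?_, ?_⟩⟩
  · rintro ⟨l, hl⟩
    exact ⟨l - k, by linarith⟩
  · rintro ⟨l, hl⟩
    exact ⟨l + k, by rw [hl]; ring⟩

lemma ctr_exists (r₁ m₁ r₂ m₂ : ℤ) (h1 : 0 ≤ r₁) (h2 : r₁ < m₁) (h3 : 0 ≤ r₂) (h4 : r₂ < m₂)
    (hd : ∀ k l : ℤ, r₁ + m₁ * k ≠ r₂ + m₂ * l) :
    ∃ τ ∈ CT, (∀ k : ℤ, τ (r₁ + m₁ * k) = r₂ + m₂ * k) ∧ (∀ k : ℤ, τ (r₂ + m₂ * k) = r₁ + m₁ * k) ∧
      ∀ n : ℤ, (∀ k, n ≠ r₁ + m₁ * k) → (∀ k, n ≠ r₂ + m₂ * k) → τ n = n := by
  have hm1 : 0 < m₁ := by omega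
  have hm2 : 0 < m₂ := by omega
  let F : ℤ → ℤ := fun n => if n % m₁ = r₁ then r₂ + m₂ * (n / m₁) else
    if n % m₂ = r₂ then r₁ + m₁ * (n / m₂) else n
  have hmod1 : ∀ k, (r₁ + m₁ * k) % m₁ = r₁ := fun k => by
    rw [Int.add_mul_emod_self_left, Int.emod_eq_of_lt h1 h2]
  have hmod2 : ∀ k, (r₂ + m₂ * k) % m₂ = r₂ := fun k => by
    rw [Int.add_mul_emod_self_left, Int.emod_eq_of_lt h3 h4]
  have hdiv1 : ∀ k, (r₁ + m₁ * k) / m₁ = k := fun k => by
    rw [Int.add_mul_ediv_left _ _ hm1.ne', Int.ediv_eq_zero_of_lt h1 h2, zero_add]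
  have hdiv2 : ∀ k, (r₂ + m₂ * k) / m₂ = k := fun k => by
    rw [Int.add_mul_ediv_left _ _ hm2.ne', Int.ediv_eq_zero_of_lt h3 h4, zero_add]
  have hF1 : ∀ k, F (r₁ + m₁ * k) = r₂ + m₂ * k := by
    intro k
    simp only [F, hmod1, hdiv1, if_true]
  have hF2 : ∀ k, F (r₂ + m₂ * k) = r₁ + m₁ * k := by
    intro k
    have : ¬ (r₂ + m₂ * k) % m₁ = r₁ := by
      intro h
      apply hd ((r₂ + m₂ * k) / m₁) k
      have := Int.emod_add_mul_ediv (r₂ + m₂ * k) m₁
      rw [h] at this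
      exact this
    simp only [F, this, if_false, hmod2, hdiv2, if_true]
  have hF3 : ∀ n : ℤ, (∀ k, n ≠ r₁ + m₁ * k) → (∀ k, n ≠ r₂ + m₂ * k) → F n = n := by
    intro n hn1 hn2
    have e1 : ¬ n % m₁ = r₁ := by
      intro h
      apply hn1 (n / m₁)
      have := Int.emod_add_mul_ediv n m₁
      rw [h] at this
      exact this.symm
    have e2 : ¬ n % m₂ = r₂ := by
      intro h
      apply hn2 (n / m₂)
      have := Int.emod_add_mul_ediv n m₂
      rw [h] at this
      exact this.symm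
    simp only [F, e1, e2, if_false]
  have hinv : Function.Involutive F := by
    intro n
    by_cases h5 : ∃ k, n = r₁ + m₁ * k
    · obtain ⟨k, rfl⟩ := h5
      rw [hF1, hF2]
    · by_cases h6 : ∃ k, n = r₂ + m₂ * k
      · obtain ⟨k, rfl⟩ := h6
        rw [hF2, hF1]
      · push Not at h5 h6
        rw [hF3 n h5 h6, hF3 n h5 h6]
  refine ⟨hinv.toPerm F, gen_mem ?_, hF1, hF2, hF3⟩
  refine ⟨r₁, m₁, r₂, m₂, h1, h2, h3, h4, ?_, fun k => ⟨hF1 k, hF2 k⟩, ?_⟩
  · rintro n ⟨hn1, hn2⟩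
    obtain ⟨k, hk⟩ := modEq_iff.1 hn1
    obtain ⟨l, hl⟩ := modEq_iff.1 hn2
    exact hd k l (hk.symm.trans hl)
  · intro n hn1 hn2
    apply hF3
    · intro k hk; exact hn1 (modEq_iff.2 ⟨k, hk⟩)
    · intro k hk; exact hn2 (modEq_iff.2 ⟨k, hk⟩)

abbrev GG := ↥CT

lemma smul_eq (g : GG) (x : ℤ) : g • x = (g : Equiv.Perm ℤ) x := rfl

lemma sgn {r m : ℤ} (h0 : 0 ≤ r) (h1 : r < m) (q : ℤ) : 0 ≤ r + m * q ↔ 0 ≤ q := by
  constructor
  · intro h
    by_contra hk
    push Not at hk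
    nlinarith
  · intro hk
    have : 0 ≤ m * q := mul_nonneg (by omega) hk
    omega

lemma lt_abs_dvd {a E : ℤ} (ha : a ≠ 0) (hE : |a| < E) : ¬ E ∣ a := by
  intro h
  have := Int.eq_zero_of_abs_lt_dvd h hE
  exact ha this

lemma slope_eq {m C : ℤ} (hm : 0 < m) (π : Equiv.Perm ℤ) (hP : Pos π)
    (hπ : ∀ x, π (π x) = x) (x : ℤ) (hx : π x = x) (hC : ∀ k, π (x + m * k) = π x + C * k) :
    C = m := by
  have hCpos := Aff.pos hm hP hC
  have h1 : π (x + m * C) = x + C * C := by rw [hC, hx]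
  have h2 : π (x + m * m) = x + C * m := by rw [hC, hx]
  have h3 : x + m * C = x + C * m := by ring
  rw [h3, ← h2, hπ] at h1
  have h4 : m * m = C * C := by linarith
  nlinarith

open Classical in
lemma axCT : Ax GG ℤ Clop where
  faithful g h H := Subtype.ext (Equiv.ext H)
  inter := by
    rintro U ⟨m, hm, hU⟩ V ⟨m', hm', hV⟩
    refine ⟨m * m', by positivity, fun n k => ?_⟩
    rw [Set.mem_inter_iff, Set.mem_inter_iff]
    have e1 : n + m * m' * k = n + m * (m' * k) := by ring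
    have e2 : n + m * m' * k = n + m' * (m * k) := by ring
    rw [e1, hU n (m' * k), ← e1, e2, hV]
  compl := by
    rintro U ⟨m, hm, hU⟩
    exact ⟨m, hm, fun n k => not_congr (hU n k)⟩
  pre := by
    rintro g U ⟨m', hm', hU⟩
    obtain ⟨⟨m, hm, hA⟩, _⟩ := mem_iff.1 g.2
    refine ⟨m * m', by positivity, fun n k => ?_⟩
    obtain ⟨C, hC⟩ := hA n
    change (g : Equiv.Perm ℤ) (n + m * m' * k) ∈ U ↔ (g : Equiv.Perm ℤ) n ∈ U
    have e1 : n + m * m' * k = n + m * (m' * k) := by ring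
    have e2 : (g : Equiv.Perm ℤ) n + C * (m' * k) = (g : Equiv.Perm ℤ) n + m' * (C * k) := by ring
    rw [e1, hC, e2, hU]
  move := by
    intro g x hx
    obtain ⟨⟨m, hm, hA⟩, _⟩ := mem_iff.1 g.2
    obtain ⟨C, hC⟩ := hA x
    rw [smul_eq] at hx
    set E : ℤ := |(g : Equiv.Perm ℤ) x - x| + 1 with hE
    have hE0 : 0 < E := by positivity
    refine ⟨{y | ∃ k, y = x + m * E * k}, cls_clop _ _ (by positivity), ⟨0, by ring⟩, ?_⟩
    rintro y ⟨k, rfl⟩ ⟨l, hl⟩
    rw [smul_eq] at hl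
    have e1 : x + m * E * k = x + m * (E * k) := by ring
    rw [e1, hC] at hl
    refine lt_abs_dvd (E := E) (sub_ne_zero.2 hx) (by rw [hE]; exact lt_add_one _)
      ⟨m * l - C * k, ?_⟩
    linear_combination hl
  sq := by
    rintro U ⟨m, hm, hU⟩ ⟨x, hx⟩
    have hr0 := Int.emod_nonneg x hm.ne'
    have hr1 := Int.emod_lt_of_pos x hm
    have hrU : ∀ k, x % m + m * k ∈ U := by
      intro k
      have h1 := Int.emod_add_mul_ediv x m
      have h2 : x % m + m * k = x + m * (k - x / m) := by linear_combination h1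
      rw [h2, hU]
      exact hx
    set r := x % m
    have hdis : ∀ (i j : ℤ), (i = 0 ∨ i = 1 ∨ i = 2) → (j = 0 ∨ j = 1 ∨ j = 2) → i ≠ j →
        ∀ k l : ℤ, r + i * m + 4 * m * k ≠ r + j * m + 4 * m * l := by
      intro i j hi hj hij k l h
      have h5 : m * (i + 4 * k) = m * (j + 4 * l) := by linear_combination h
      have h6 := mul_left_cancel₀ hm.ne' h5
      omega
    obtain ⟨τ1, h1, h1a, h1b, h1c⟩ := ctr_exists (r + 0 * m) (4 * m) (r + 1 * m) (4 * m)
      (by linarith) (by linarith) (by linarith) (by linarith)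
      (hdis 0 1 (Or.inl rfl) (Or.inr (Or.inl rfl)) (by norm_num))
    obtain ⟨τ2, h2, h2a, h2b, h2c⟩ := ctr_exists (r + 1 * m) (4 * m) (r + 2 * m) (4 * m)
      (by linarith) (by linarith) (by linarith) (by linarith)
      (hdis 1 2 (Or.inr (Or.inl rfl)) (Or.inr (Or.inr rfl)) (by norm_num))
    refine ⟨⟨τ1, h1⟩ * ⟨τ2, h2⟩, ?_, r + 0 * m + 4 * m * 0, ?_⟩
    · intro y hy
      change τ1 (τ2 y) = y
      have key : ∀ i k, y ≠ r + i * m + 4 * m * k := by
        intro i k h
        apply hy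
        have : y = r + m * (i + 4 * k) := by rw [h]; ring
        rw [this]
        exact hrU _
      rw [h2c y (key 1) (key 2), h1c y (key 0) (key 1)]
    · change τ1 (τ2 (τ1 (τ2 (r + 0 * m + 4 * m * 0)))) ≠ r + 0 * m + 4 * m * 0
      rw [h2c (r + 0 * m + 4 * m * 0)
        (fun k => hdis 0 1 (Or.inl rfl) (Or.inr (Or.inl rfl)) (by norm_num) 0 k)
        (fun k => hdis 0 2 (Or.inl rfl) (Or.inr (Or.inr rfl)) (by norm_num) 0 k),
        h1a, h2a, h1c (r + 2 * m + 4 * m * 0)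
        (fun k => hdis 2 0 (Or.inr (Or.inr rfl)) (Or.inl rfl) (by norm_num) 0 k)
        (fun k => hdis 2 1 (Or.inr (Or.inr rfl)) (Or.inr (Or.inl rfl)) (by norm_num) 0 k)]
      intro h
      have : m * 2 = 0 := by linear_combination h
      omega
  inv := by
    rintro U ⟨m, hm, hU⟩
    let F : ℤ → ℤ := fun n => if n ∈ U then (if (n / m) % 2 = 0 then n + m else n - m) else n
    have hU1 : ∀ n, n + m ∈ U ↔ n ∈ U := fun n => by simpa using hU n 1
    have hU2 : ∀ n, n - m ∈ U ↔ n ∈ U := fun n => by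
      have := hU n (-1)
      rw [mul_neg_one, ← sub_eq_add_neg] at this
      exact this
    have hdiv : ∀ n k, (n + m * k) / m = n / m + k := fun n k =>
      Int.add_mul_ediv_left _ _ hm.ne'
    have hd1 : ∀ n, (n + m) / m = n / m + 1 := fun n => by simpa using hdiv n 1
    have hd2 : ∀ n, (n - m) / m = n / m - 1 := fun n => by
      have := hdiv n (-1)
      rw [mul_neg_one, ← sub_eq_add_neg, ← sub_eq_add_neg] at this
      exact this
    have hinv : Function.Involutive F := by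
      intro n
      simp only [F]
      by_cases hn : n ∈ U
      · by_cases h2 : (n / m) % 2 = 0
        · have h3 : ¬ (n / m + 1) % 2 = 0 := by omega
          simp only [hn, h2, if_true, hU1, hd1, h3, if_false]
          ring
        · have h3 : (n / m - 1) % 2 = 0 := by omega
          simp only [hn, h2, if_true, if_false, hU2, hd2, h3]
          ring
      · simp only [hn, if_false]
    have hmem : hinv.toPerm F ∈ CT := by
      rw [mem_iff]
      refine ⟨⟨2 * m, by positivity, ?_⟩, ?_⟩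
      · intro x
        refine ⟨2 * m, fun k => ?_⟩
        change F (x + 2 * m * k) = F x + 2 * m * k
        have e1 : x + 2 * m * k = x + m * (2 * k) := by ring
        have e2 : (x + m * (2 * k)) / m % 2 = x / m % 2 := by
          rw [hdiv]; omega
        simp only [F]
        rw [e1]
        simp only [hU, e2]
        split_ifs <;> ring
      · intro n
        change 0 ≤ F n ↔ 0 ≤ n
        have h1 := Int.emod_add_mul_ediv n m
        have h2 := Int.emod_nonneg n hm.ne'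
        have h3 := Int.emod_lt_of_pos n hm
        have e0 : n = n % m + m * (n / m) := h1.symm
        have e1 : n + m = n % m + m * (n / m + 1) := by linear_combination e0
        have e2 : n - m = n % m + m * (n / m - 1) := by linear_combination e0
        have s0 := sgn h2 h3 (n / m)
        have s1 := sgn h2 h3 (n / m + 1)
        have s2 := sgn h2 h3 (n / m - 1)
        rw [← e0] at s0
        rw [← e1] at s1
        rw [← e2] at s2
        simp only [F]
        split_ifs with hn hk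
        · rw [s0, s1]; omega
        · rw [s0, s2]; omega
        · rfl
    refine ⟨⟨hinv.toPerm F, hmem⟩, fun x => hinv x, fun x => ?_⟩
    change F x ≠ x ↔ x ∈ U
    simp only [F]
    by_cases hn : x ∈ U
    · simp only [hn, if_true, iff_true]
      split_ifs <;> omega
    · simp only [hn, if_false, iff_false, ne_eq, not_true_eq_false, not_false_iff]
  supp := by
    intro π hπ
    obtain ⟨⟨m, hm, hA⟩, hP⟩ := mem_iff.1 π.2
    have key : ∀ n k : ℤ, (π : Equiv.Perm ℤ) n = n →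
        (π : Equiv.Perm ℤ) (n + m * k) = n + m * k := by
      intro n k hn
      obtain ⟨C, hC⟩ := hA n
      have := slope_eq hm _ hP hπ n hn hC
      rw [hC, hn, this]
    refine ⟨m, hm, fun n k => not_congr ⟨fun h => ?_, fun h => key n k h⟩⟩
    have := key (n + m * k) (-k) h
    have e : n + m * k + m * -k = n := by ring
    rw [e] at this
    exact this
  restr := by
    rintro π hπ U ⟨m', hm', hU⟩ hinvU
    obtain ⟨⟨m, hm, hA⟩, hP⟩ := mem_iff.1 π.2
    have hmem : restr (π : Equiv.Perm ℤ) hπ U hinvU ∈ CT := by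
      rw [mem_iff]
      refine ⟨⟨m * m', by positivity, fun x => ?_⟩, fun n => ?_⟩
      · obtain ⟨C, hC⟩ := hA x
        by_cases hx : x ∈ U
        · refine ⟨C * m', fun k => ?_⟩
          have e1 : x + m * m' * k = x + m * (m' * k) := by ring
          have e2 : x + m * m' * k = x + m' * (m * k) := by ring
          have hx' : x + m * m' * k ∈ U := by rw [e2, hU]; exact hx
          rw [restr_mem _ _ _ _ hx', restr_mem _ _ _ _ hx, e1, hC]
          ring
        · refine ⟨m * m', fun k => ?_⟩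
          have e2 : x + m * m' * k = x + m' * (m * k) := by ring
          have hx' : x + m * m' * k ∉ U := by rw [e2, hU]; exact hx
          rw [restr_not_mem _ _ _ _ hx', restr_not_mem _ _ _ _ hx]
      · by_cases hn : n ∈ U
        · rw [restr_mem _ _ _ _ hn, hP]
        · rw [restr_not_mem _ _ _ _ hn]
    refine ⟨⟨restr (π : Equiv.Perm ℤ) hπ U hinvU, hmem⟩, fun x hx => ?_, fun x hx => ?_⟩
    · exact restr_mem (π : Equiv.Perm ℤ) hπ U hinvU hx
    · exact restr_not_mem (π : Equiv.Perm ℤ) hπ U hinvU hx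
  sep := by
    intro x y hxy
    refine ⟨{z | ∃ k, z = x + (|y - x| + 1) * k}, cls_clop _ _ (by positivity), ⟨0, by ring⟩, ?_⟩
    rintro ⟨k, hk⟩
    exact lt_abs_dvd (sub_ne_zero.2 (Ne.symm hxy)) (lt_add_one _) ⟨k, by linear_combination hk⟩

end Pool.Agent.H26.Out
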