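import Pool.Agent.H26.Out1

set_option autoImplicit false

namespace Pool.Agent.H26.Out

open Pool.Agent.H26.CT Pool.Agent.H26.Rub

/-- an element acting as `n + w ↦ n + q w` near `n` -/
lemma exists_dil (n q : ℤ) (hq : 1 ≤ q) :
    ∃ M : ℤ, 0 < M ∧ ∃ g : GG, ∀ k : ℤ, g • (n + M * k) = n + q * (M * k) := by
  set M : ℤ := |n| + 2 with hM
  have hn := abs_nonneg n
  have hM0 : 0 < M := by omega
  have hqM : M ≤ q * M := by nlinarith
  have hqM0 : 0 < q * M := by linarith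
  -- representation
  obtain ⟨κ, r1, r2, h1, h2, h3, h4, e1, e2⟩ : ∃ κ r1 r2 : ℤ, 0 ≤ r1 ∧ r1 < M ∧ 0 ≤ r2 ∧
      r2 < q * M ∧ n = r1 + M * κ ∧ n = r2 + q * M * κ := by
    rcases le_or_gt 0 n with h | h
    · rw [abs_of_nonneg h] at hM
      exact ⟨0, n, n, h, by omega, h, by omega, by ring, by ring⟩
    · rw [abs_of_neg h] at hM
      exact ⟨-1, n + M, n + q * M, by omega, by omega, by omega, by omega, by ring, by ring⟩
  set y : ℤ := (r1 + 1) % M with hy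
  have hy0 : 0 ≤ y := Int.emod_nonneg _ hM0.ne'
  have hy1 : y < M := Int.emod_lt_of_pos _ hM0
  have hyM := Int.emod_add_mul_ediv (r1 + 1) M
  rw [← hy] at hyM
  have hd1 : ∀ k l : ℤ, r1 + M * k ≠ y + M * l := by
    intro k l h
    have h5 : M * (k - l + (r1 + 1) / M) = 1 := by linear_combination h + hyM
    have h6 : M ∣ 1 := ⟨_, h5.symm⟩
    have := Int.le_of_dvd one_pos h6
    omega
  have hd2 : ∀ k l : ℤ, y + M * k ≠ r2 + q * M * l := by
    intro k l h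
    apply hd1 (κ - q * κ + q * l) k
    linear_combination e2 - e1 - h
  obtain ⟨α, hα, hα1, -, -⟩ := ctr_exists r1 M y M h1 h2 hy0 hy1 hd1
  obtain ⟨β, hβ, hβ1, -, -⟩ := ctr_exists y M r2 (q * M) hy0 hy1 h3 h4 hd2
  refine ⟨M, hM0, ⟨β, hβ⟩ * ⟨α, hα⟩, fun k => ?_⟩
  change β (α (n + M * k)) = n + q * (M * k)
  have e3 : n + M * k = r1 + M * (κ + k) := by linear_combination e1
  rw [e3, hα1, hβ1]
  linear_combination -e2

lemma prod_dvd (f : ℤ → ℤ) (M s : ℤ) (h0 : 0 ≤ s) (h1 : s < M) :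
    f s ∣ ∏ r ∈ Finset.Ico (0 : ℤ) M, f r :=
  Finset.dvd_prod_of_mem _ (Finset.mem_Ico.2 ⟨h0, h1⟩)

variable (Φ : GG ≃* GG)

lemma exists_cls (n M : ℤ) (hM : 0 < M) : ∃ s : ℤ, ∃ K ∈ Clop, n ∈ K ∧
    Rel Φ K {y : ℤ | ∃ k : ℤ, y = s + M * k} := by
  have h1 : ∀ s : ℤ, ∃ K ∈ Clop, Rel Φ K {y : ℤ | ∃ k : ℤ, y = s + M * k} := by
    intro s
    obtain ⟨K, hK, hrel⟩ := exists_rel axCT axCT Φ.symm (cls_clop s M hM)
    exact ⟨K, hK, hrel.symm'⟩
  choose K hK hrel using h1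
  by_contra hcon
  push Not at hcon
  have hn : ∀ s, n ∉ K s := fun s hs => hcon s (K s) (hK s) hs (hrel s)
  choose P hP hper using hK
  set Q : ℤ := ∏ r ∈ Finset.Ico (0 : ℤ) M, P r with hQ
  have hQ0 : 0 < Q := Finset.prod_pos (fun r _ => hP r)
  obtain ⟨ψ, hψ, hne⟩ := exists_sup axCT (cls_clop n Q hQ0) (x := n) ⟨0, by ring⟩
  apply hne
  apply Φ.injective
  rw [map_one]
  apply one_of axCT
  intro y
  have hs0 := Int.emod_nonneg y hM.ne'
  have hs1 := Int.emod_lt_of_pos y hM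
  have hKc : Rel Φ (K (y % M))ᶜ {z : ℤ | ∃ k : ℤ, z = y % M + M * k}ᶜ :=
    rel_compl axCT axCT Φ ⟨P (y % M), hP _, hper _⟩ (cls_clop _ M hM) (hrel _)
  refine (hKc ψ).1 ?_ y ?_
  · intro x hx
    rw [Set.notMem_compl_iff] at hx
    apply hψ
    rintro ⟨k, rfl⟩
    obtain ⟨d, hd⟩ := prod_dvd P M (y % M) hs0 hs1
    have e : n + Q * k = n + P (y % M) * (d * k) := by rw [hQ, hd]; ring
    rw [e, hper] at hx
    exact hn _ hx
  · rw [Set.notMem_compl_iff]
    exact ⟨y / M, (Int.emod_add_mul_ediv y M).symm⟩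

lemma exists_point (n : ℤ) : ∃ x0 : ℤ, ∀ U ∈ Clop, ∀ U' ∈ Clop, Rel Φ U U' →
    (n ∈ U ↔ x0 ∈ U') := by
  obtain ⟨M0, hM0, g, hg⟩ := exists_dil n 2 (by norm_num)
  obtain ⟨⟨m', hm', hA⟩, hP⟩ := mem_iff.1 (Φ g).2
  obtain ⟨s1, K1, hK1, hnK1, hrel1⟩ := exists_cls Φ n m' hm'
  obtain ⟨C, hC⟩ := hA s1
  set β : ℤ := (Φ g : Equiv.Perm ℤ) s1 - s1 with hβ
  have hgn : g • n = n := by simpa using hg 0
  -- the residues
  have key : ∀ t : ℤ, 0 < t → ∃ s j : ℤ, ∃ K ∈ Clop, n ∈ K ∧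
      Rel Φ K {y : ℤ | ∃ k : ℤ, y = s + m' * t * k} ∧ s = s1 + m' * j ∧
      t ∣ (m' - C) * j - β := by
    intro t ht
    obtain ⟨s, K, hK, hnK, hrel⟩ := exists_cls Φ n (m' * t) (by positivity)
    obtain ⟨y, ⟨a, ha⟩, ⟨b, hb⟩⟩ := rel_inter axCT axCT Φ hK hK1 hrel hrel1 hnK hnK1
    have hs : s = s1 + m' * (b - t * a) := by linear_combination hb - ha
    refine ⟨s, b - t * a, K, hK, hnK, hrel, hs, ?_⟩
    obtain ⟨z, ⟨a', ha'⟩, ⟨b', hb'⟩⟩ := rel_inter axCT axCT Φ hK (axCT.pre g K hK) hrel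
      (rel_smul Φ hrel g) hnK (show g • n ∈ K by rw [hgn]; exact hnK)
    have e1 : (Φ g : Equiv.Perm ℤ) z = (Φ g : Equiv.Perm ℤ) s1 + C * (b - t * a + t * a') := by
      rw [← hC]
      congr 1
      linear_combination ha' + hs
    have e2 : (Φ g : Equiv.Perm ℤ) z = s + m' * t * b' := hb'
    refine ⟨C * a' - m' * b', ?_⟩
    rw [hβ]
    linear_combination e1 - e2 - hs
  by_cases hCm : C = m'
  · -- impossible
    exfalso
    have hβ0 : β = 0 := by
      by_contra hne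
      obtain ⟨s, j, K, _, _, _, _, hdvd⟩ := key (|β| + 1) (by positivity)
      rw [hCm, sub_self, zero_mul, zero_sub, dvd_neg] at hdvd
      exact lt_abs_dvd hne (lt_add_one _) hdvd
    have hid : ∀ k : ℤ, (Φ g : Equiv.Perm ℤ) (s1 + m' * k) = s1 + m' * k := by
      intro k
      rw [hC, hCm]
      linear_combination hβ0
    have hrc := rel_compl axCT axCT Φ hK1 (cls_clop s1 m' hm') hrel1
    have hfix := (hrc g).2 (by
      intro x hx
      rw [Set.notMem_compl_iff] at hx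
      obtain ⟨k, rfl⟩ := hx
      exact hid k)
    obtain ⟨P, hP0, hper⟩ := hK1
    have h1 : n + M0 * P ∈ K1 := by
      rw [mul_comm M0 P, hper]; exact hnK1
    have h2 := hfix (n + M0 * P) (by rw [Set.notMem_compl_iff]; exact h1)
    rw [hg] at h2
    have h3 : 0 < M0 * P := by positivity
    linarith
  · set D : ℤ := m' - C with hD
    have hD0 : D ≠ 0 := by
      intro h
      apply hCm
      rw [hD] at h
      linarith
    have hE0 : 0 < |D| := abs_pos.2 hD0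
    obtain ⟨γ, hγ⟩ : D ∣ β := by
      obtain ⟨s, j, K, _, _, _, _, hdvd⟩ := key |D| hE0
      rw [abs_dvd] at hdvd
      have h1 : D ∣ D * j := dvd_mul_right _ _
      have := dvd_sub h1 hdvd
      have e : D * j - (D * j - β) = β := by ring
      rwa [e] at this
    refine ⟨s1 + m' * γ, ?_⟩
    have main : ∀ U ∈ Clop, ∀ U' ∈ Clop, Rel Φ U U' → n ∈ U → s1 + m' * γ ∈ U' := by
      intro U hU U' hU' hrel hnU
      obtain ⟨M', hM', hper⟩ := id hU'
      obtain ⟨s, j, K, hK, hnK, hrelK, hs, hdvd⟩ := key (|D| * M') (by positivity)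
      obtain ⟨y, ⟨a, ha⟩, hyU⟩ := rel_inter axCT axCT Φ hK hU hrelK hrel hnK hnU
      have h1 : |D| * M' ∣ D * (j - γ) := by
        have e : D * (j - γ) = D * j - β := by rw [hγ]; ring
        rw [e]; exact hdvd
      have h2 : M' ∣ j - γ := by
        obtain ⟨l, hl⟩ := h1
        rcases abs_choice D with h | h
        · rw [h] at hl
          refine ⟨l, mul_left_cancel₀ hD0 ?_⟩
          linear_combination hl
        · rw [h] at hl
          refine ⟨-l, mul_left_cancel₀ hD0 ?_⟩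
          linear_combination hl
      obtain ⟨l, hl⟩ := h2
      have e : y = s1 + m' * γ + M' * (m' * l + m' * |D| * a) := by
        rw [ha, hs]
        linear_combination m' * hl
      rw [e, hper] at hyU
      exact hyU
    intro U hU U' hU' hrel
    refine ⟨main U hU U' hU' hrel, fun h => ?_⟩
    by_contra hn
    exact main Uᶜ (axCT.compl U hU) U'ᶜ (axCT.compl U' hU') (rel_compl axCT axCT Φ hU hU' hrel) hn h

/-- every automorphism is induced by a permutation -/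
theorem exists_perm : ∃ h : Equiv.Perm ℤ, (∀ (g : GG) (n : ℤ), h (g • n) = Φ g • h n) ∧
    ∀ U' ∈ Clop, {n : ℤ | h n ∈ U'} ∈ Clop := by
  choose h hh using exists_point Φ
  choose h' hh' using exists_point Φ.symm
  have hl : ∀ n, h' (h n) = n := by
    intro n
    by_contra hne
    obtain ⟨U, hU, h1, h2⟩ := axCT.sep n (h' (h n)) (Ne.symm hne)
    obtain ⟨U', hU', hrel⟩ := exists_rel axCT axCT Φ hU
    exact h2 ((hh' (h n) U' hU' U hU hrel.symm').1 ((hh n U hU U' hU' hrel).1 h1))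
  have hr : ∀ n, h (h' n) = n := by
    intro n
    by_contra hne
    obtain ⟨U, hU, h1, h2⟩ := axCT.sep n (h (h' n)) (Ne.symm hne)
    obtain ⟨U', hU', hrel⟩ := exists_rel axCT axCT Φ.symm hU
    exact h2 ((hh (h' n) U' hU' U hU hrel.symm').1 ((hh' n U hU U' hU' hrel).1 h1))
  refine ⟨⟨h, h', hl, hr⟩, ?_, ?_⟩
  · intro g n
    change h (g • n) = Φ g • h n
    by_contra hne
    obtain ⟨U', hU', h1, h2⟩ := axCT.sep _ _ hne
    obtain ⟨U, hU, hrel⟩ := exists_rel axCT axCT Φ.symm hU'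
    have hrel2 : Rel Φ U U' := hrel.symm'
    apply h2
    have h3 := (hh (g • n) U hU U' hU' hrel2).2 h1
    exact (hh n _ (axCT.pre g U hU) _ (axCT.pre (Φ g) U' hU') (rel_smul Φ hrel2 g)).1 h3
  · intro U' hU'
    obtain ⟨U, hU, hrel⟩ := exists_rel axCT axCT Φ.symm hU'
    have hrel2 : Rel Φ U U' := hrel.symm'
    have : {n : ℤ | (⟨h, h', hl, hr⟩ : Equiv.Perm ℤ) n ∈ U'} = U := by
      ext n
      exact (hh n U hU U' hU' hrel2).symm
    rw [this]
    exact hU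

end Pool.Agent.H26.Out
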