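import Pool.Agent.H26.Out2

set_option autoImplicit false

namespace Pool.Agent.H26.Out

open Pool.Agent.H26.CT Pool.Agent.H26.Rub

/-- powers times a nonzero integer being integers forces an integer -/
lemma den_one (r : ℚ) (d : ℤ) (hd : d ≠ 0) (h : ∀ k : ℕ, ∃ n : ℤ, r ^ k * d = n) : r.den = 1 := by
  by_contra hne
  have hden : 2 ≤ r.den := by
    have := r.den_pos
    omega
  have hdvd : ∀ k : ℕ, (r.den : ℤ) ^ k ∣ d := by
    intro k
    obtain ⟨n, hn⟩ := h k
    have h1 : r = r.num / r.den := (Rat.num_div_den r).symm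
    have h2 : (r.den : ℚ) ≠ 0 := by exact_mod_cast r.den_nz
    have h3 : (r.num : ℚ) ^ k * d = n * (r.den : ℚ) ^ k := by
      rw [h1, div_pow] at hn
      field_simp at hn
      linear_combination hn
    have h4 : r.num ^ k * d = n * (r.den : ℤ) ^ k := by exact_mod_cast h3
    have hcop : IsCoprime ((r.den : ℤ) ^ k) (r.num ^ k) := by
      apply IsCoprime.pow
      rw [Int.isCoprime_iff_gcd_eq_one]
      have := r.reduced
      rw [Nat.coprime_comm] at this
      simpa [Int.gcd, Nat.Coprime] using this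
    have h5 : (r.den : ℤ) ^ k ∣ r.num ^ k * d := ⟨n, by rw [h4]; ring⟩
    exact hcop.dvd_of_dvd_mul_left h5
  have h6 := hdvd (d.natAbs + 1)
  have h7 := Int.natAbs_dvd_natAbs.2 h6
  rw [Int.natAbs_pow, Int.natAbs_natCast] at h7
  have h8 := Nat.le_of_dvd (Int.natAbs_pos.2 hd) h7
  have h9 : d.natAbs + 1 < 2 ^ (d.natAbs + 1) := Nat.lt_two_pow_self
  have h10 : 2 ^ (d.natAbs + 1) ≤ r.den ^ (d.natAbs + 1) := Nat.pow_le_pow_left hden _
  omega

section main

variable {Φ : GG ≃* GG} {h : Equiv.Perm ℤ} (H1 : ∀ (g : GG) (n : ℤ), h (g • n) = Φ g • h n)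
  (H2 : ∀ U' ∈ Clop, {n : ℤ | h n ∈ U'} ∈ Clop)

include H2 in
/-- uniform continuity -/
lemma unif (m : ℤ) (hm : 0 < m) : ∃ P : ℤ, 0 < P ∧ ∀ x k : ℤ, m ∣ h (x + P * k) - h x := by
  have h1 : ∀ s : ℤ, ∃ P : ℤ, 0 < P ∧ ∀ n k : ℤ,
      n + P * k ∈ {n : ℤ | h n ∈ {y : ℤ | ∃ k : ℤ, y = s + m * k}} ↔
      n ∈ {n : ℤ | h n ∈ {y : ℤ | ∃ k : ℤ, y = s + m * k}} := fun s => H2 _ (cls_clop s m hm)
  choose P hP hper using h1
  set Q : ℤ := ∏ r ∈ Finset.Ico (0 : ℤ) m, P r with hQ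
  have hQ0 : 0 < Q := Finset.prod_pos (fun r _ => hP r)
  refine ⟨Q, hQ0, fun x k => ?_⟩
  have hs0 := Int.emod_nonneg (h x) hm.ne'
  have hs1 := Int.emod_lt_of_pos (h x) hm
  obtain ⟨d, hd⟩ := prod_dvd P m (h x % m) hs0 hs1
  have hx : x ∈ {n : ℤ | h n ∈ {y : ℤ | ∃ k : ℤ, y = h x % m + m * k}} :=
    ⟨h x / m, (Int.emod_add_mul_ediv (h x) m).symm⟩
  have e : x + Q * k = x + P (h x % m) * (d * k) := by rw [hQ, hd]; ring
  have hx2 := (hper (h x % m) x (d * k)).2 hx
  rw [← e] at hx2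
  obtain ⟨l, hl⟩ := hx2
  refine ⟨l - h x / m, ?_⟩
  have h3 := Int.emod_add_mul_ediv (h x) m
  linear_combination hl + h3

include H1 H2

/-- scaling near an integer -/
lemma scale (n q : ℤ) (hq : 1 ≤ q) : ∃ M : ℤ, 0 < M ∧ ∃ c : ℚ, 0 < c ∧ ∀ w : ℤ, M ∣ w →
    (h (n + q * w) : ℚ) - h n = c * ((h (n + w) : ℚ) - h n) := by
  obtain ⟨M0, hM0, g, hg⟩ := exists_dil n q hq
  obtain ⟨⟨m', hm', hA⟩, hP⟩ := mem_iff.1 (Φ g).2
  obtain ⟨C, hC⟩ := hA (h n)
  have hCpos := Aff.pos hm' hP hC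
  obtain ⟨P, hP0, hper⟩ := unif H2 m' hm'
  have hgn : g • n = n := by simpa using hg 0
  have hfix : (Φ g : Equiv.Perm ℤ) (h n) = h n := by
    have := H1 g n
    rw [hgn] at this
    exact this.symm
  have hm'q : (m' : ℚ) ≠ 0 := by exact_mod_cast hm'.ne'
  refine ⟨M0 * P, by positivity, (C : ℚ) / m', div_pos (by exact_mod_cast hCpos)
    (by exact_mod_cast hm'), ?_⟩
  rintro w ⟨k, rfl⟩
  obtain ⟨κ, hκ⟩ := hper n (M0 * k)
  have e1 : n + M0 * P * k = n + P * (M0 * k) := by ring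
  have e2 : h (n + M0 * P * k) = h n + m' * κ := by rw [e1]; linear_combination hκ
  have e3 : h (n + q * (M0 * P * k)) = h n + C * κ := by
    have e4 : n + q * (M0 * P * k) = g • (n + M0 * (P * k)) := by rw [hg]; ring
    have e5 : n + M0 * (P * k) = n + M0 * P * k := by ring
    rw [e4, H1, e5, e2, smul_eq, hC, hfix]
  rw [e2, e3]
  push_cast
  field_simp
  ring

/-- translation by one away from `-1` -/
lemma transl (M : ℤ) (hM : 0 < M) : ∃ P : ℤ, 0 < P ∧ M ∣ P ∧ ∀ x : ℤ, ¬ M ∣ x + 1 →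
    ∃ a : ℚ, 0 < a ∧ ∀ z : ℤ, P ∣ z →
      (h (x + 1 + z) : ℚ) - h (x + 1) = a * ((h (x + z) : ℚ) - h x) := by
  -- the shift in blocks of length `M`
  let F : ℤ → ℤ := fun n => if M ∣ n + 1 then n - (M - 1) else n + 1
  let F' : ℤ → ℤ := fun n => if M ∣ n then n + (M - 1) else n - 1
  have hl : Function.LeftInverse F' F := by
    intro n
    simp only [F, F']
    by_cases h1 : M ∣ n + 1
    · have h2 : M ∣ n - (M - 1) := by
        have : n - (M - 1) = (n + 1) - M := by ring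
        rw [this]; exact dvd_sub h1 (dvd_refl M)
      rw [if_pos h1, if_pos h2]; ring
    · rw [if_neg h1, if_neg h1]; ring
  have hr : Function.RightInverse F' F := by
    intro n
    simp only [F, F']
    by_cases h1 : M ∣ n
    · have h2 : M ∣ n + (M - 1) + 1 := by
        have : n + (M - 1) + 1 = n + M := by ring
        rw [this]; exact dvd_add h1 (dvd_refl M)
      rw [if_pos h1, if_pos h2]; ring
    · have h2 : ¬ M ∣ n - 1 + 1 := by
        rw [sub_add_cancel]; exact h1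
      rw [if_neg h1, if_neg h2]; ring
  let σ : Equiv.Perm ℤ := ⟨F, F', hl, hr⟩
  have hσ : σ ∈ CT := by
    rw [mem_iff]
    refine ⟨⟨M, hM, fun x => ⟨M, fun k => ?_⟩⟩, fun n => ?_⟩
    · change F (x + M * k) = F x + M * k
      have e1 : M ∣ x + M * k + 1 ↔ M ∣ x + 1 := by
        have : x + M * k + 1 = x + 1 + M * k := by ring
        rw [this]
        exact (Int.dvd_add_left (dvd_mul_right M k))
      simp only [F, e1]
      split_ifs <;> ring
    · change 0 ≤ F n ↔ 0 ≤ n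
      simp only [F]
      split_ifs with h1
      · obtain ⟨k, hk⟩ := h1
        have e1 : n = M - 1 + M * (k - 1) := by linear_combination hk
        have e2 : n - (M - 1) = 0 + M * (k - 1) := by linear_combination hk
        rw [e2, sgn le_rfl hM, e1, sgn (by omega) (by omega)]
      · constructor
        · intro h2
          by_contra h3
          apply h1
          have : n = -1 := by omega
          rw [this]; simp
        · intro h2; omega
  set g : GG := ⟨σ, hσ⟩ with hg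
  obtain ⟨⟨m', hm', hA⟩, hP⟩ := mem_iff.1 (Φ g).2
  obtain ⟨P, hP0, hper⟩ := unif H2 m' hm'
  have hm'q : (m' : ℚ) ≠ 0 := by exact_mod_cast hm'.ne'
  refine ⟨M * P, by positivity, dvd_mul_right _ _, fun x hx => ?_⟩
  obtain ⟨C, hC⟩ := hA (h x)
  have hCpos := Aff.pos hm' hP hC
  refine ⟨(C : ℚ) / m', div_pos (by exact_mod_cast hCpos) (by exact_mod_cast hm'), ?_⟩
  rintro z ⟨k, rfl⟩
  obtain ⟨κ, hκ⟩ := hper x (M * k)
  have e1 : x + M * P * k = x + P * (M * k) := by ring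
  have e2 : h (x + M * P * k) = h x + m' * κ := by rw [e1]; linear_combination hκ
  have g1 : g • x = x + 1 := by
    change F x = x + 1
    simp only [F, hx, if_false]
  have g2 : g • (x + M * P * k) = x + 1 + M * P * k := by
    change F (x + M * P * k) = x + 1 + M * P * k
    have : ¬ M ∣ x + M * P * k + 1 := by
      have e : x + M * P * k + 1 = x + 1 + M * (P * k) := by ring
      rw [e, Int.dvd_add_left (dvd_mul_right M _)]
      exact hx
    simp only [F, this, if_false]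
    ring
  have e3 : h (x + 1) = (Φ g : Equiv.Perm ℤ) (h x) := by
    rw [← g1, H1, smul_eq]
  have e4 : h (x + 1 + M * P * k) = h (x + 1) + C * κ := by
    rw [← g2, H1, smul_eq, e2, hC, e3]
  rw [e4, e2]
  push_cast
  field_simp
  ring

/-! ### crossing the point `-1` -/

/-- `a` is the ratio of the slopes of `w ↦ h w` and `w ↦ h (w - 1)` near `w` -/
def Sl (h : Equiv.Perm ℤ) (w : ℤ) (a : ℚ) : Prop := ∃ P : ℤ, 0 < P ∧ ∀ z : ℤ, P ∣ z →
  (h (w + z) : ℚ) - h w = a * ((h (w - 1 + z) : ℚ) - h (w - 1))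

omit H1 H2 in
lemma h_sub_ne (h : Equiv.Perm ℤ) {x y : ℤ} (hxy : x ≠ y) : (h x : ℚ) - h y ≠ 0 := by
  rw [sub_ne_zero]
  intro he
  exact hxy (h.injective (by exact_mod_cast he))

omit H1 H2 in
lemma Sl.unique {w : ℤ} {a b : ℚ} (ha : Sl h w a) (hb : Sl h w b) : a = b := by
  obtain ⟨P, hP, hPa⟩ := ha
  obtain ⟨Q, hQ, hQb⟩ := hb
  have h1 := hPa (P * Q) (dvd_mul_right _ _)
  have h2 := hQb (P * Q) (dvd_mul_left _ _)
  have h3 : (h (w - 1 + P * Q) : ℚ) - h (w - 1) ≠ 0 := by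
    apply h_sub_ne
    have : 0 < P * Q := by positivity
    omega
  rw [h1] at h2
  exact mul_right_cancel₀ h3 h2

/-- uniform slopes away from `0` -/
lemma unif_slope (M : ℤ) (hM : 0 < M) : ∃ P : ℤ, 0 < P ∧ M ∣ P ∧ ∀ w : ℤ, ¬ M ∣ w →
    ∀ a : ℚ, Sl h w a → 0 < a ∧ ∀ z : ℤ, P ∣ z →
      (h (w + z) : ℚ) - h w = a * ((h (w - 1 + z) : ℚ) - h (w - 1)) ∧ Sl h (w + z) a := by
  obtain ⟨P, hP, hMP, hall⟩ := transl H1 H2 M hM
  refine ⟨P, hP, hMP, fun w hw a ha => ?_⟩
  obtain ⟨b, hb, hbz⟩ := hall (w - 1) (by rwa [sub_add_cancel])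
  rw [sub_add_cancel] at hbz
  have hab : a = b := ha.unique ⟨P, hP, hbz⟩
  rw [← hab] at hb hbz
  refine ⟨hb, fun z hz => ⟨hbz z hz, P, hP, fun z' hz' => ?_⟩⟩
  have h1 := hbz z hz
  have h2 := hbz (z + z') (dvd_add hz hz')
  have e1 : w + z + z' = w + (z + z') := by ring
  have e2 : w + z - 1 + z' = w - 1 + (z + z') := by ring
  have e3 : w + z - 1 = w - 1 + z := by ring
  rw [e1, e2, e3]
  linear_combination h2 - h1

lemma exists_Sl (w : ℤ) (hw : w ≠ 0) : ∃ a : ℚ, Sl h w a := by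
  obtain ⟨P, hP, hMP, hall⟩ := transl H1 H2 (|w| + 1) (by positivity)
  obtain ⟨b, hb, hbz⟩ := hall (w - 1) (by
    rw [sub_add_cancel]
    exact lt_abs_dvd hw (lt_add_one _))
  rw [sub_add_cancel] at hbz
  exact ⟨b, P, hP, hbz⟩

/-- scaling near `0` and near `-1` simultaneously -/
lemma scale2 (q : ℤ) (hq : 1 ≤ q) : ∃ M : ℤ, 0 < M ∧ ∃ c : ℚ, 0 < c ∧ ∃ κ : ℚ, 0 < κ ∧
    (∀ w : ℤ, M ∣ w → (h (q * w) : ℚ) - h 0 = c * ((h w : ℚ) - h 0)) ∧
    (∀ w : ℤ, M ∣ w → (h (q * w - 1) : ℚ) - h (-1) = c * κ⁻¹ * ((h (w - 1) : ℚ) - h (-1))) ∧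
    (∀ w : ℤ, w ≠ 0 → M ∣ w → ∀ a : ℚ, Sl h w a → Sl h (q * w) (κ * a)) := by
  obtain ⟨M1, hM1, c1, hc1, h1⟩ := scale H1 H2 0 q hq
  obtain ⟨M2, hM2, c2, hc2, h2⟩ := scale H1 H2 (-1) q hq
  have h1' : ∀ w : ℤ, M1 * M2 ∣ w → (h (q * w) : ℚ) - h 0 = c1 * ((h w : ℚ) - h 0) := by
    intro w hw
    have := h1 w ((dvd_mul_right _ _).trans hw)
    rwa [zero_add, zero_add] at this
  have h2' : ∀ w : ℤ, M1 * M2 ∣ w →
      (h (q * w - 1) : ℚ) - h (-1) = c2 * ((h (w - 1) : ℚ) - h (-1)) := by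
    intro w hw
    have := h2 w ((dvd_mul_left _ _).trans hw)
    rwa [neg_add_eq_sub, neg_add_eq_sub] at this
  have hc2' := hc2.ne'
  have hc1' := hc1.ne'
  refine ⟨M1 * M2, by positivity, c1, hc1, c1 / c2, by positivity, h1', ?_, ?_⟩
  · intro w hw
    rw [h2' w hw, inv_div, mul_div_cancel₀ _ hc1']
  · rintro w hw hMw a ⟨P, hP, hPa⟩
    refine ⟨q * (P * (M1 * M2)), by positivity, ?_⟩
    rintro z ⟨k, rfl⟩
    set z' : ℤ := P * (M1 * M2) * k with hz'
    have hz1 : P ∣ z' := ⟨M1 * M2 * k, by rw [hz']; ring⟩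
    have hz2 : M1 * M2 ∣ z' := ⟨P * k, by rw [hz']; ring⟩
    have h3 := hPa z' hz1
    have e1 := h1' (w + z') (dvd_add hMw hz2)
    have e2 := h1' w hMw
    have e3 := h2' (w + z') (dvd_add hMw hz2)
    have e4 := h2' w hMw
    have f1 : q * w + q * (P * (M1 * M2)) * k = q * (w + z') := by rw [hz']; ring
    have f2 : q * w - 1 + q * (P * (M1 * M2)) * k = q * (w + z') - 1 := by rw [hz']; ring
    have f3 : w + z' - 1 = w - 1 + z' := by ring
    rw [f1, f2]
    rw [f3] at e3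
    have e5 : (h (q * (w + z')) : ℚ) - h (q * w) = c1 * ((h (w + z') : ℚ) - h w) := by
      linear_combination e1 - e2
    have e6 : (h (q * (w + z') - 1) : ℚ) - h (q * w - 1) =
        c2 * ((h (w - 1 + z') : ℚ) - h (w - 1)) := by
      linear_combination e3 - e4
    rw [e5, e6, h3]
    field_simp

omit H1 H2 in
/-- pigeonhole -/
lemma pigeon (P : ℤ) (hP : 0 < P) (f : ℕ → ℤ) : ∃ i j : ℕ, i < j ∧ P ∣ f j - f i := by
  have hmap : ∀ n : ℕ, f n % P ∈ Finset.Ico (0 : ℤ) P := fun n =>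
    Finset.mem_Ico.2 ⟨Int.emod_nonneg _ hP.ne', Int.emod_lt_of_pos _ hP⟩
  obtain ⟨i, j, hij, he⟩ := Finite.exists_ne_map_eq_of_infinite
    (fun n : ℕ => (⟨f n % P, hmap n⟩ : Finset.Ico (0 : ℤ) P))
  have he' : f i % P = f j % P := congrArg Subtype.val he
  have h1 : P ∣ f j - f i := Int.ModEq.dvd he'
  rcases lt_or_gt_of_ne hij with h | h
  · exact ⟨i, j, h, h1⟩
  · refine ⟨j, i, h, ?_⟩
    rw [← neg_sub, dvd_neg]
    exact h1

/-- Step A: the two scaling factors agree -/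
lemma scale3 (q : ℤ) (hq : 1 ≤ q) : ∃ M : ℤ, 0 < M ∧ ∃ c : ℚ, 0 < c ∧
    (∀ w : ℤ, M ∣ w → (h (q * w) : ℚ) - h 0 = c * ((h w : ℚ) - h 0)) ∧
    (∀ w : ℤ, M ∣ w → (h (q * w - 1) : ℚ) - h (-1) = c * ((h (w - 1) : ℚ) - h (-1))) ∧
    (∀ w : ℤ, w ≠ 0 → M ∣ w → ∀ a : ℚ, Sl h w a → Sl h (q * w) a) := by
  obtain ⟨M, hM, c, hc, κ, hκ, h1, h2, h3⟩ := scale2 H1 H2 q hq
  have hκ1 : κ = 1 := by
    obtain ⟨P, hP, hMP, hun⟩ := unif_slope H1 H2 (M * (q + 1)) (by positivity)
    obtain ⟨i, j, hij, hdvd⟩ := pigeon P hP (fun n => q ^ n * M)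
    obtain ⟨a, ha⟩ := exists_Sl H1 H2 M hM.ne'
    have hpow : ∀ n : ℕ, Sl h (q ^ n * M) (κ ^ n * a) := by
      intro n
      induction n with
      | zero => simpa using ha
      | succ n ih =>
        have := h3 (q ^ n * M) (by positivity) (dvd_mul_left _ _) _ ih
        have e1 : q * (q ^ n * M) = q ^ (n + 1) * M := by ring
        have e2 : κ * (κ ^ n * a) = κ ^ (n + 1) * a := by ring
        rwa [e1, e2] at this
    have hnd : ∀ n : ℕ, ¬ M * (q + 1) ∣ q ^ n * M := by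
      intro n hd
      rw [mul_comm (q ^ n)] at hd
      have h4 := Int.dvd_of_mul_dvd_mul_left hM.ne' hd
      have hcop : IsCoprime (q + 1) (q ^ n) := by
        apply IsCoprime.pow_right
        exact ⟨1, -1, by ring⟩
      have h5 : IsUnit (q + 1) := hcop.isUnit_of_dvd' dvd_rfl h4
      rw [Int.isUnit_iff] at h5
      omega
    obtain ⟨hpos, h4⟩ := hun (q ^ i * M) (hnd i) _ (hpow i)
    obtain ⟨_, h5⟩ := h4 _ hdvd
    have e : q ^ i * M + (q ^ j * M - q ^ i * M) = q ^ j * M := by ring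
    simp only [e] at h5
    have h6 := (hpow j).unique h5
    have ha0 : a ≠ 0 := by
      rintro rfl
      simp at hpos
    have h7 : κ ^ j = κ ^ i := mul_right_cancel₀ ha0 h6
    by_contra hne
    rcases lt_or_gt_of_ne hne with h8 | h8
    · have := pow_lt_pow_right_of_lt_one₀ hκ h8 hij
      linarith
    · have := pow_lt_pow_right₀ h8 hij
      linarith
  rw [hκ1] at h2 h3
  refine ⟨M, hM, c, hc, h1, fun w hw => by simpa using h2 w hw, fun w hw0 hw a ha => ?_⟩
  simpa using h3 w hw0 hw a ha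

omit H1 H2 in
lemma two_pow_odd (P : ℤ) (hP : P ≠ 0) : ∃ (s : ℕ) (P1 : ℤ), P = 2 ^ s * P1 ∧ ¬ 2 ∣ P1 := by
  have hf : FiniteMultiplicity 2 P := Int.finiteMultiplicity_iff.2 ⟨by decide, hP⟩
  obtain ⟨c, hc, hc2⟩ := hf.exists_eq_pow_mul_and_not_dvd
  exact ⟨_, c, hc, hc2⟩

/-- Step B: the slope is constant near `0` -/
lemma const_near : ∃ R : ℤ, 0 < R ∧ ∃ a : ℚ, 0 < a ∧ ∀ w : ℤ, w ≠ 0 → R ∣ w → Sl h w a := by
  obtain ⟨M0, hM0, c, hc, -, -, hS2⟩ := scale3 H1 H2 2 (by norm_num)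
  obtain ⟨P, hP, hMP, hun⟩ := unif_slope H1 H2 (2 * M0) (by positivity)
  obtain ⟨s, P1, hP1, hodd1⟩ := two_pow_odd P hP.ne'
  have hP10 : 0 < P1 := by
    rw [hP1] at hP
    exact (mul_pos_iff_of_pos_left (by positivity)).1 hP
  have hs : s ≠ 0 := by
    rintro rfl
    apply hodd1
    rw [pow_zero, one_mul] at hP1
    rw [← hP1]
    exact (dvd_mul_right 2 M0).trans hMP
  have h2s : (2 : ℤ) ∣ 2 ^ s := dvd_pow_self 2 hs
  set R : ℤ := M0 * P1 with hR
  have hR0 : 0 < R := by positivity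
  have hprime : Prime (2 : ℤ) := Int.prime_two
  have hodd : ∀ y : ℤ, ¬ 2 ∣ y → ¬ 2 * M0 ∣ R * y := by
    intro y hy hd
    have e1 : R * y = M0 * (P1 * y) := by rw [hR]; ring
    rw [e1, mul_comm 2 M0] at hd
    have := Int.dvd_of_mul_dvd_mul_left hM0.ne' hd
    rcases hprime.dvd_or_dvd this with h | h
    · exact hodd1 h
    · exact hy h
  have hE2 : ∀ (i : ℕ) (w : ℤ), w ≠ 0 → M0 ∣ w → ∀ a, Sl h w a → Sl h (2 ^ i * w) a := by
    intro i
    induction i with
    | zero => intro w _ _ a ha; simpa using ha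
    | succ i ih =>
      intro w hw hMw a ha
      have := hS2 (2 ^ i * w) (by positivity) (hMw.mul_left _) a (ih w hw hMw a ha)
      have e : 2 * (2 ^ i * w) = 2 ^ (i + 1) * w := by ring
      rwa [e] at this
  have hMR : ∀ v, M0 ∣ R * v := fun v => ⟨P1 * v, by rw [hR]; ring⟩
  obtain ⟨a0, ha0⟩ := exists_Sl H1 H2 R hR0.ne'
  have hR1 : ¬ 2 * M0 ∣ R := by
    have := hodd 1 (by decide)
    rwa [mul_one] at this
  have ha0pos : 0 < a0 := (hun R hR1 a0 ha0).1
  have hmain : ∀ y : ℤ, ¬ 2 ∣ y → Sl h (R * y) a0 := by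
    intro y hy
    set q : ℤ := y % 2 ^ s + 2 ^ s with hq
    have h2s0 : (0 : ℤ) < 2 ^ s := by positivity
    have hq1 : 1 ≤ q := by
      have := Int.emod_nonneg y h2s0.ne'
      omega
    have hqy : q - y = 2 ^ s * (1 - y / 2 ^ s) := by
      have := Int.emod_add_mul_ediv y (2 ^ s)
      rw [hq]
      linear_combination this
    have hqodd : ¬ 2 ∣ q := by
      intro h2
      apply hy
      have h3 : (2 : ℤ) ∣ q - y := by rw [hqy]; exact h2s.mul_right _
      have := dvd_sub h2 h3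
      rwa [sub_sub_cancel] at this
    obtain ⟨Mq, hMq, cq, hcq, -, -, hSq⟩ := scale3 H1 H2 q hq1
    obtain ⟨e, o, ho, hoodd⟩ := two_pow_odd Mq hMq.ne'
    obtain ⟨u, v, huv⟩ : IsCoprime o (2 ^ s) := by
      apply IsCoprime.pow_right
      exact ((Int.isCoprime_iff_gcd_eq_one.2 (by
        have := (Int.prime_two.coprime_iff_not_dvd (n := o)).2 hoodd
        rw [Int.isCoprime_iff_gcd_eq_one] at this
        exact this))).symm
    set t : ℤ := u * o with ht
    have ht1 : t - 1 = 2 ^ s * (-v) := by rw [ht]; linear_combination huv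
    have htodd : ¬ 2 ∣ t := by
      intro h2
      have h3 : (2 : ℤ) ∣ t - 1 := by rw [ht1]; exact h2s.mul_right _
      have := dvd_sub h2 h3
      rw [sub_sub_cancel] at this
      exact absurd this (by decide)
    have ht0 : t ≠ 0 := by
      intro h0
      apply htodd
      rw [h0]; exact dvd_zero 2
    have hq0 : q ≠ 0 := by omega
    -- (2)
    have s2 : Sl h (R * t) a0 := by
      have h3 := ((hun R hR1 a0 ha0).2 (R * (t - 1)) ⟨-v * M0, by rw [ht1, hR, hP1]; ring⟩).2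
      have e1 : R + R * (t - 1) = R * t := by ring
      rwa [e1] at h3
    have s3 := hE2 e (R * t) (by positivity) (hMR t) a0 s2
    have s4 := hSq (2 ^ e * (R * t)) (by positivity) ⟨R * u, by rw [ho, ht]; ring⟩ a0 s3
    have e5 : q * (2 ^ e * (R * t)) = 2 ^ e * (R * (q * t)) := by ring
    rw [e5] at s4
    have hqt : R * (q * t) ≠ 0 := by positivity
    obtain ⟨b, hb⟩ := exists_Sl H1 H2 _ hqt
    have hba : b = a0 := (hE2 e _ hqt (hMR _) b hb).unique s4
    rw [hba] at hb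
    have hqtodd : ¬ 2 ∣ q * t := by
      intro h2
      rcases hprime.dvd_or_dvd h2 with h | h
      · exact hqodd h
      · exact htodd h
    have s6 := ((hun _ (hodd _ hqtodd) a0 hb).2 (R * (y - q * t))
      ⟨M0 * (-(1 - y / 2 ^ s) + q * v), by
        rw [hR, hP1]
        linear_combination (-(M0 * P1)) * hqy - M0 * P1 * q * ht1⟩).2
    have e6 : R * (q * t) + R * (y - q * t) = R * y := by ring
    rwa [e6] at s6
  refine ⟨R, hR0, a0, ha0pos, ?_⟩
  rintro w hw ⟨v, rfl⟩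
  have hv : v ≠ 0 := by
    rintro rfl
    exact hw (mul_zero _)
  obtain ⟨i, y, hy, hyodd⟩ := two_pow_odd v hv
  have hy0 : y ≠ 0 := by
    rintro rfl
    exact hyodd (dvd_zero 2)
  have := hE2 i (R * y) (by positivity) (hMR y) a0 (hmain y hyodd)
  have e : 2 ^ i * (R * y) = R * v := by rw [hy]; ring
  rwa [e] at this

/-- Step C -/
lemma cross : ∃ R : ℤ, 0 < R ∧ ∃ a : ℚ, 0 < a ∧ ∀ w : ℤ, R ∣ w →
    (h w : ℚ) - h 0 = a * ((h (w - 1) : ℚ) - h (-1)) := by
  obtain ⟨R, hR, a, ha, hconst⟩ := const_near H1 H2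
  obtain ⟨M, hM, c, hc, h1, h2, -⟩ := scale3 H1 H2 2 (by norm_num)
  refine ⟨R * M, by positivity, a, ha, fun w hw => ?_⟩
  by_cases hw0 : w = 0
  · rw [hw0]; simp
  have hMw : M ∣ w := (dvd_mul_left _ _).trans hw
  have hRw : R ∣ w := (dvd_mul_right _ _).trans hw
  have hU : ∀ j : ℕ, (h (2 ^ j * w) : ℚ) - h 0 = c ^ j * ((h w : ℚ) - h 0) := by
    intro j
    induction j with
    | zero => simp
    | succ j ih =>
      have := h1 (2 ^ j * w) (hMw.mul_left _)
      have e : 2 * (2 ^ j * w) = 2 ^ (j + 1) * w := by ring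
      rw [e, ih] at this
      rw [this]; ring
  have hL : ∀ j : ℕ, (h (2 ^ j * w - 1) : ℚ) - h (-1) = c ^ j * ((h (w - 1) : ℚ) - h (-1)) := by
    intro j
    induction j with
    | zero => simp
    | succ j ih =>
      have := h2 (2 ^ j * w) (hMw.mul_left _)
      have e : 2 * (2 ^ j * w) = 2 ^ (j + 1) * w := by ring
      rw [e, ih] at this
      rw [this]; ring
  have hc1 : c ≠ 1 := by
    rintro rfl
    have := h1 w hMw
    rw [one_mul] at this
    have h3 : (h (2 * w) : ℚ) = h w := by linear_combination this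
    have h4 : 2 * w = w := h.injective (by exact_mod_cast h3)
    omega
  obtain ⟨P, hP, hMP, hun⟩ := unif_slope H1 H2 (3 * |w|) (by positivity)
  obtain ⟨i, j, hij, hdvd⟩ := pigeon P hP (fun n => 2 ^ n * w)
  have hnd : ¬ 3 * |w| ∣ 2 ^ i * w := by
    intro hd
    have e : 3 * |w| = |3 * w| := by rw [abs_mul]; rfl
    rw [e, abs_dvd, mul_comm 3 w, mul_comm _ w] at hd
    have h3 := Int.dvd_of_mul_dvd_mul_left hw0 hd
    have h4 : (3 : ℤ) ∣ 2 := Int.prime_three.dvd_of_dvd_pow h3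
    exact absurd h4 (by decide)
  have hw2 : ∀ j : ℕ, 2 ^ j * w ≠ 0 := fun j => by positivity
  have h3 := ((hun _ hnd a (hconst _ (hw2 i) (hRw.mul_left _))).2 _ hdvd).1
  have e1 : 2 ^ i * w + (2 ^ j * w - 2 ^ i * w) = 2 ^ j * w := by ring
  have e2 : 2 ^ i * w - 1 + (2 ^ j * w - 2 ^ i * w) = 2 ^ j * w - 1 := by ring
  simp only [e1, e2] at h3
  have h4 : (c ^ j - c ^ i) * (((h w : ℚ) - h 0) - a * ((h (w - 1) : ℚ) - h (-1))) = 0 := by
    linear_combination h3 - hU j + hU i + a * hL j - a * hL i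
  have hcij : c ^ j - c ^ i ≠ 0 := by
    rw [sub_ne_zero]
    intro h7
    rcases lt_or_gt_of_ne hc1 with h8 | h8
    · have := pow_lt_pow_right_of_lt_one₀ hc h8 hij
      linarith
    · have := pow_lt_pow_right₀ h8 hij
      linarith
  have h5 := (mul_eq_zero.1 h4).resolve_left hcij
  linear_combination h5

/-- translation by one is locally affine everywhere -/
lemma transl_all : ∃ P : ℤ, 0 < P ∧ ∀ x : ℤ, ∃ b : ℚ, 0 < b ∧ ∀ z : ℤ, P ∣ z →
    (h (x + 1 + z) : ℚ) - h (x + 1) = b * ((h (x + z) : ℚ) - h x) := by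
  obtain ⟨R, hR, a, ha, hcr⟩ := cross H1 H2
  obtain ⟨P, hP, hRP, hall⟩ := transl H1 H2 R hR
  refine ⟨P, hP, fun x => ?_⟩
  by_cases hx : R ∣ x + 1
  · refine ⟨a, ha, fun z hz => ?_⟩
    have e1 := hcr (x + 1 + z) (dvd_add hx (hRP.trans hz))
    have e2 := hcr (x + 1) hx
    have f1 : x + 1 + z - 1 = x + z := by ring
    have f2 : x + 1 - 1 = x := by ring
    rw [f1] at e1
    rw [f2] at e2
    linear_combination e1 - e2
  · exact hall x hx

theorem h_aff : ∃ P : ℤ, 0 < P ∧ Aff P h := by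
  obtain ⟨P, hP, hall⟩ := transl_all H1 H2
  choose b hb hbz using hall
  have hper : ∀ x, b (x + P) = b x := by
    intro x
    have h1 := hbz (x + P) P dvd_rfl
    have h2 := hbz x P dvd_rfl
    have h3 := hbz x (P + P) (dvd_add dvd_rfl dvd_rfl)
    have e1 : x + P + 1 + P = x + 1 + (P + P) := by ring
    have e2 : x + P + 1 = x + 1 + P := by ring
    have e3 : x + P + P = x + (P + P) := by ring
    rw [e1, e2, e3] at h1
    have h4 : (h (x + (P + P)) : ℚ) - h (x + P) ≠ 0 := h_sub_ne h (by omega)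
    apply mul_right_cancel₀ h4
    linear_combination h3 - h2 - h1
  have hprod : ∀ (x : ℤ) (n : ℕ) (z : ℤ), P ∣ z → (h (x + n + z) : ℚ) - h (x + n) =
      (∏ i ∈ Finset.range n, b (x + i)) * ((h (x + z) : ℚ) - h x) := by
    intro x n
    induction n with
    | zero => intro z _; simp
    | succ n ih =>
      intro z hz
      have h1 := hbz (x + n) z hz
      rw [Finset.prod_range_succ]
      push_cast
      have e1 : x + (n + 1) + z = x + n + 1 + z := by ring
      have e2 : x + ((n : ℤ) + 1) = x + n + 1 := by ring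
      rw [e1, e2, h1, ih z hz]
      ring
  set N : ℕ := P.toNat with hN
  have hNP : (N : ℤ) = P := Int.toNat_of_nonneg hP.le
  set Pi : ℤ → ℚ := fun x => ∏ i ∈ Finset.range N, b (x + i) with hPi
  have hPiper : ∀ x, Pi (x + P) = Pi x := by
    intro x
    simp only [hPi]
    apply Finset.prod_congr rfl
    intro i _
    have : x + P + (i : ℤ) = x + i + P := by ring
    rw [this, hper]
  have hPipos : ∀ x, 0 < Pi x := fun x => Finset.prod_pos (fun i _ => hb _)
  set dd : ℤ → ℤ := fun x => h (x + P) - h x with hdd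
  have hddne : ∀ x, dd x ≠ 0 := by
    intro x
    simp only [hdd]
    rw [sub_ne_zero]
    intro he
    have := h.injective he
    omega
  have hddP : ∀ x, (dd (x + P) : ℚ) = Pi x * dd x := by
    intro x
    have := hprod x N P dvd_rfl
    rw [hNP] at this
    simp only [hdd]
    push_cast
    exact this
  have hPik : ∀ (x : ℤ) (k : ℕ), Pi (x + P * k) = Pi x := by
    intro x k
    induction k with
    | zero => simp
    | succ k ih =>
      have e : x + P * ((k + 1 : ℕ) : ℤ) = x + P * k + P := by push_cast; ring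
      rw [e, hPiper, ih]
  have hddk : ∀ (x : ℤ) (k : ℕ), (dd (x + P * k) : ℚ) = Pi x ^ k * dd x := by
    intro x k
    induction k with
    | zero => simp
    | succ k ih =>
      have e : x + P * ((k + 1 : ℕ) : ℤ) = x + P * k + P := by push_cast; ring
      rw [e, hddP, hPik, ih]
      ring
  have hPi1 : ∀ x, Pi x = 1 := by
    intro x
    have d1 := den_one (Pi x) (dd x) (hddne x) (fun k => ⟨dd (x + P * k), (hddk x k).symm⟩)
    have d2 := den_one (Pi x)⁻¹ (dd x) (hddne x) (fun k => ⟨dd (x - P * k), by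
      have h1 := hddk (x - P * k) k
      have h2 := hPik (x - P * k) k
      rw [sub_add_cancel] at h1 h2
      rw [← h2] at h1
      rw [h1, ← mul_assoc, ← mul_pow, inv_mul_cancel₀ (hPipos x).ne', one_pow, one_mul]⟩)
    have n1 : Pi x = (Pi x).num := (Rat.coe_int_num_of_den_eq_one d1).symm
    have n2 : (Pi x)⁻¹ = ((Pi x)⁻¹).num := (Rat.coe_int_num_of_den_eq_one d2).symm
    have p1 : 0 < (Pi x).num := Rat.num_pos.2 (hPipos x)
    have p2 : 0 < ((Pi x)⁻¹).num := Rat.num_pos.2 (inv_pos.2 (hPipos x))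
    have h3 : (Pi x).num * ((Pi x)⁻¹).num = 1 := by
      have : ((Pi x).num : ℚ) * (((Pi x)⁻¹).num : ℚ) = 1 := by
        rw [← n1, ← n2, mul_inv_cancel₀ (hPipos x).ne']
      exact_mod_cast this
    have h4 : (Pi x).num = 1 := by
      have := Int.eq_one_or_neg_one_of_mul_eq_one h3
      rcases this with h | h
      · exact h
      · omega
    rw [n1, h4]
    simp
  refine ⟨P, hP, fun x => ⟨dd x, fun k => ?_⟩⟩
  have hdd1 : ∀ y, dd (y + P) = dd y := by
    intro y
    have := hddP y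
    rw [hPi1, one_mul] at this
    exact_mod_cast this
  have hddall : ∀ k : ℤ, dd (x + P * k) = dd x := by
    intro k
    induction k using Int.induction_on with
    | zero => simp
    | succ k ih =>
      have e : x + P * ((k : ℤ) + 1) = x + P * k + P := by ring
      rw [e, hdd1, ih]
    | pred k ih =>
      have e : x + P * (-(k : ℤ)) = x + P * (-(k : ℤ) - 1) + P := by ring
      rw [e, hdd1] at ih
      exact ih
  induction k using Int.induction_on with
  | zero => simp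
  | succ k ih =>
    have e : x + P * ((k : ℤ) + 1) = x + P * k + P := by ring
    have h5 := hddall k
    simp only [hdd] at h5 ih ⊢
    rw [e]
    linear_combination h5 + ih
  | pred k ih =>
    have e : x + P * (-(k : ℤ)) = x + P * (-(k : ℤ) - 1) + P := by ring
    have h5 := hddall (-(k : ℤ) - 1)
    simp only [hdd] at h5 ih ⊢
    rw [e] at ih
    linear_combination ih - h5

end main

end Pool.Agent.H26.Out
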