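import Pool.Agent.H26.Out3

set_option autoImplicit false

namespace Pool.Agent.H26.Out

open Pool.Agent.H26.CT Pool.Agent.H26.Rub

lemma trans_pos (n : ℤ) (hn : 0 ≤ n) : ∃ g : GG, g • (0 : ℤ) = n := by
  by_cases h0 : n = 0
  · exact ⟨1, by rw [h0, one_smul]⟩
  obtain ⟨τ, hτ, h1, -, -⟩ := ctr_exists 0 (n + 1) n (n + 1) le_rfl (by omega) hn (by omega) (by
    intro k l h
    have : (n + 1) * (k - l) = n := by linear_combination h
    have h2 : n + 1 ∣ n := ⟨_, this.symm⟩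
    have := Int.le_of_dvd (by omega) h2
    omega)
  refine ⟨⟨τ, hτ⟩, ?_⟩
  have := h1 0
  simpa using this

lemma trans_neg (n : ℤ) (hn : n < 0) : ∃ g : GG, g • (-1 : ℤ) = n := by
  by_cases h0 : n = -1
  · exact ⟨1, by rw [h0, one_smul]⟩
  -- classes `(M - 1)(M)` and `0(M)` with `M = -n`
  obtain ⟨τ, hτ, h1, -, -⟩ := ctr_exists (-n - 1) (-n) 0 (-n) (by omega) (by omega) le_rfl
    (by omega) (by
    intro k l h
    have : (-n) * (l - k) = -n - 1 := by linear_combination -h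
    have h2 : -n ∣ -n - 1 := ⟨_, this.symm⟩
    have := Int.le_of_dvd (by omega) h2
    omega)
  refine ⟨⟨τ, hτ⟩, ?_⟩
  have := h1 (-1)
  have e1 : -n - 1 + -n * -1 = (-1 : ℤ) := by ring
  have e2 : (0 : ℤ) + -n * -1 = n := by ring
  rw [e1, e2] at this
  exact this

lemma sign_eq (g : GG) (x : ℤ) : 0 ≤ g • x ↔ 0 ≤ x := (mem_iff.1 g.2).2 x

/-- elements commuting with `CT` are trivial -/
lemma central (k : Equiv.Perm ℤ) (hk : ∀ g ∈ CT, k * g = g * k) : k = 1 := by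
  ext n
  by_contra hne
  obtain ⟨U, hU, h1, h2⟩ := axCT.sep (k n) n hne
  obtain ⟨π, -, hπ⟩ := axCT.inv U hU
  have h3 := (hπ (k n)).2 h1
  have h4 : ¬ π • n ≠ n := fun h => h2 ((hπ n).1 h)
  push Not at h4
  have h5 := congrArg (fun f : Equiv.Perm ℤ => f n) (hk π π.2)
  simp only [Equiv.Perm.mul_apply] at h5
  rw [smul_eq] at h3 h4
  rw [h4] at h5
  exact h3 h5.symm

theorem aut_main (ν : Equiv.Perm ℤ) (hν : ∀ n : ℤ, ν n = -n - 1) (Φ : GG ≃* GG) :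
    ∃ h ∈ CT, (∀ g : GG, ((Φ g : GG) : Equiv.Perm ℤ) = h * (g : Equiv.Perm ℤ) * h⁻¹) ∨
      (∀ g : GG, ((Φ g : GG) : Equiv.Perm ℤ) = h * ν * (g : Equiv.Perm ℤ) * ν⁻¹ * h⁻¹) := by
  obtain ⟨h, H1, H2⟩ := exists_perm Φ
  obtain ⟨P, hP, hA⟩ := h_aff H1 H2
  have hconj : ∀ g : GG, ((Φ g : GG) : Equiv.Perm ℤ) = h * (g : Equiv.Perm ℤ) * h⁻¹ := by
    intro g
    rw [eq_mul_inv_iff_mul_eq]
    ext n
    exact (H1 g n).symm
  have hpos : ∀ n, 0 ≤ n → (0 ≤ h n ↔ 0 ≤ h 0) := by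
    intro n hn
    obtain ⟨g, hg⟩ := trans_pos n hn
    rw [← hg, H1, sign_eq]
  have hneg : ∀ n, n < 0 → (0 ≤ h n ↔ 0 ≤ h (-1)) := by
    intro n hn
    obtain ⟨g, hg⟩ := trans_neg n hn
    rw [← hg, H1, sign_eq]
  by_cases h0 : 0 ≤ h 0
  · have h1 : ¬ 0 ≤ h (-1) := by
      intro h1
      obtain ⟨m, hm⟩ := h.surjective (-1)
      rcases lt_or_ge m 0 with hm0 | hm0
      · have := (hneg m hm0).2 h1
        omega
      · have := (hpos m hm0).2 h0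
        omega
    refine ⟨h, mem_iff.2 ⟨⟨P, hP, hA⟩, fun n => ?_⟩, Or.inl hconj⟩
    constructor
    · intro hn
      by_contra hlt
      exact h1 ((hneg n (by omega)).1 hn)
    · intro hn
      exact (hpos n hn).2 h0
  · have h1 : 0 ≤ h (-1) := by
      by_contra h1
      obtain ⟨m, hm⟩ := h.surjective 0
      rcases lt_or_ge m 0 with hm0 | hm0
      · exact h1 ((hneg m hm0).1 (by omega))
      · exact h0 ((hpos m hm0).1 (by omega))
    have hνν : ν * ν = 1 := by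
      ext n
      rw [Equiv.Perm.mul_apply, hν, hν, Equiv.Perm.one_apply]
      ring
    have hνi : ν⁻¹ = ν := inv_eq_of_mul_eq_one_left hνν
    refine ⟨h * ν, mem_iff.2 ⟨⟨P, hP, fun x => ?_⟩, fun n => ?_⟩, Or.inr (fun g => ?_)⟩
    · obtain ⟨C, hC⟩ := hA (-x - 1)
      refine ⟨-C, fun k => ?_⟩
      rw [Equiv.Perm.mul_apply, Equiv.Perm.mul_apply, hν, hν]
      have e : -(x + P * k) - 1 = -x - 1 + P * (-k) := by ring
      rw [e, hC]
      ring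
    · rw [Equiv.Perm.mul_apply, hν]
      constructor
      · intro hn
        by_contra hlt
        exact h0 ((hpos (-n - 1) (by omega)).1 hn)
      · intro hn
        exact (hneg (-n - 1) (by omega)).2 h1
    · rw [hconj, mul_inv_rev, hνi]
      have e : h * ν * ν * (g : Equiv.Perm ℤ) * ν * (ν * h⁻¹) =
          h * (ν * ν) * (g : Equiv.Perm ℤ) * (ν * ν) * h⁻¹ := by group
      rw [e, hνν]
      group

lemma closure_eq : Subgroup.closure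
        {σ : Equiv.Perm ℤ | ∃ r₁ m₁ r₂ m₂ : ℤ,
          0 ≤ r₁ ∧ r₁ < m₁ ∧ 0 ≤ r₂ ∧ r₂ < m₂ ∧
          (¬ ∃ n : ℤ, n % m₁ = r₁ ∧ n % m₂ = r₂) ∧
          (∀ k : ℤ, σ (r₁ + k * m₁) = r₂ + k * m₂ ∧ σ (r₂ + k * m₂) = r₁ + k * m₁) ∧
          (∀ n : ℤ, n % m₁ ≠ r₁ → n % m₂ ≠ r₂ → σ n = n)} = CT := by
  unfold CT
  congr 1
  ext σ
  constructor
  · rintro ⟨r₁, m₁, r₂, m₂, h1, h2, h3, h4, h5, h6, h7⟩
    have e1 : ∀ n : ℤ, Int.ModEq m₁ n r₁ ↔ n % m₁ = r₁ := fun n => by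
      unfold Int.ModEq
      rw [Int.emod_eq_of_lt h1 h2]
    have e2 : ∀ n : ℤ, Int.ModEq m₂ n r₂ ↔ n % m₂ = r₂ := fun n => by
      unfold Int.ModEq
      rw [Int.emod_eq_of_lt h3 h4]
    refine ⟨r₁, m₁, r₂, m₂, h1, h2, h3, h4, ?_, ?_, ?_⟩
    · rintro n ⟨hn1, hn2⟩
      exact h5 ⟨n, (e1 n).1 hn1, (e2 n).1 hn2⟩
    · intro k
      have := h6 k
      rw [mul_comm k, mul_comm k] at this
      exact this
    · intro n hn1 hn2
      exact h7 n (fun h => hn1 ((e1 n).2 h)) (fun h => hn2 ((e2 n).2 h))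
  · rintro ⟨r₁, m₁, r₂, m₂, h1, h2, h3, h4, h5, h6, h7⟩
    have e1 : ∀ n : ℤ, Int.ModEq m₁ n r₁ ↔ n % m₁ = r₁ := fun n => by
      unfold Int.ModEq
      rw [Int.emod_eq_of_lt h1 h2]
    have e2 : ∀ n : ℤ, Int.ModEq m₂ n r₂ ↔ n % m₂ = r₂ := fun n => by
      unfold Int.ModEq
      rw [Int.emod_eq_of_lt h3 h4]
    refine ⟨r₁, m₁, r₂, m₂, h1, h2, h3, h4, ?_, ?_, ?_⟩
    · rintro ⟨n, hn1, hn2⟩
      exact h5 n ⟨(e1 n).2 hn1, (e2 n).2 hn2⟩
    · intro k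
      have := h6 k
      rw [mul_comm m₁, mul_comm m₂] at this
      exact this
    · intro n hn1 hn2
      exact h7 n (fun h => hn1 ((e1 n).1 h)) (fun h => hn2 ((e2 n).1 h))

theorem main :
    ∀ ν : Equiv.Perm ℤ, (∀ n : ℤ, ν n = -n - 1) →
    ∀ G : Subgroup (Equiv.Perm ℤ),
      G = Subgroup.closure
        {σ : Equiv.Perm ℤ | ∃ r₁ m₁ r₂ m₂ : ℤ,
          0 ≤ r₁ ∧ r₁ < m₁ ∧ 0 ≤ r₂ ∧ r₂ < m₂ ∧
          (¬ ∃ n : ℤ, n % m₁ = r₁ ∧ n % m₂ = r₂) ∧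
          (∀ k : ℤ, σ (r₁ + k * m₁) = r₂ + k * m₂ ∧ σ (r₂ + k * m₂) = r₁ + k * m₁) ∧
          (∀ n : ℤ, n % m₁ ≠ r₁ → n % m₂ ≠ r₂ → σ n = n)} →
      (∀ g ∈ G, ν * g * ν⁻¹ ∈ G) ∧
      (∀ φ : G ≃* G, ∃ h ∈ G,
          (∀ g : G, ((φ g : G) : Equiv.Perm ℤ) = h * (g : Equiv.Perm ℤ) * h⁻¹) ∨
          (∀ g : G, ((φ g : G) : Equiv.Perm ℤ) = h * ν * (g : Equiv.Perm ℤ) * ν⁻¹ * h⁻¹)) ∧
      (¬ ∃ h ∈ G, ∀ g ∈ G, ν * g * ν⁻¹ = h * g * h⁻¹) := by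
  intro ν hν G hG
  rw [closure_eq] at hG
  subst hG
  have hνν : ν * ν = 1 := by
    ext n
    rw [Equiv.Perm.mul_apply, hν, hν, Equiv.Perm.one_apply]
    ring
  have hνi : ν⁻¹ = ν := inv_eq_of_mul_eq_one_left hνν
  refine ⟨?_, aut_main ν hν, ?_⟩
  · intro g hg
    obtain ⟨⟨m, hm, hA⟩, hP⟩ := mem_iff.1 hg
    rw [hνi, mem_iff]
    refine ⟨⟨m, hm, fun x => ?_⟩, fun n => ?_⟩
    · obtain ⟨C, hC⟩ := hA (-x - 1)
      refine ⟨C, fun k => ?_⟩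
      rw [Equiv.Perm.mul_apply, Equiv.Perm.mul_apply, Equiv.Perm.mul_apply, Equiv.Perm.mul_apply,
        hν (x + m * k), hν x]
      have e : -(x + m * k) - 1 = -x - 1 + m * (-k) := by ring
      rw [e, hC, hν, hν]
      ring
    · rw [Equiv.Perm.mul_apply, Equiv.Perm.mul_apply, hν, hν]
      have := hP (-n - 1)
      constructor
      · intro h1
        by_contra h2
        have := this.2 (by omega)
        omega
      · intro h1
        by_contra h2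
        have := this.1 (by omega)
        omega
  · rintro ⟨h, hh, hcon⟩
    have hk : h⁻¹ * ν = 1 := by
      apply central
      intro g hg
      have := hcon g hg
      have e : ν * g = h * g * h⁻¹ * ν := by rw [← this]; group
      calc h⁻¹ * ν * g = h⁻¹ * (ν * g) := by group
        _ = h⁻¹ * (h * g * h⁻¹ * ν) := by rw [e]
        _ = g * (h⁻¹ * ν) := by group
    have hνh : ν = h := by
      have := congrArg (fun f => h * f) hk
      simpa using this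
    obtain ⟨-, hP⟩ := mem_iff.1 hh
    have := hP 0
    rw [← hνh, hν] at this
    omega

end Pool.Agent.H26.Out
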