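import Mathlib

set_option autoImplicit false

namespace Pool.Agent.H26.OutDefs

/-- `σ` is a class transposition: it swaps `r₁ + k m₁` and `r₂ + k m₂` for every `k ∈ ℤ`, where the
residue classes `r₁(m₁)` and `r₂(m₂)` (`0 ≤ rᵢ < mᵢ`) are disjoint, and fixes all other integers. -/
def IsClassTransposition (σ : Equiv.Perm ℤ) : Prop := ∃ r₁ m₁ r₂ m₂ : ℤ,
  0 ≤ r₁ ∧ r₁ < m₁ ∧ 0 ≤ r₂ ∧ r₂ < m₂ ∧
  (¬ ∃ n : ℤ, n % m₁ = r₁ ∧ n % m₂ = r₂) ∧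
  (∀ k : ℤ, σ (r₁ + k * m₁) = r₂ + k * m₂ ∧ σ (r₂ + k * m₂) = r₁ + k * m₁) ∧
  (∀ n : ℤ, n % m₁ ≠ r₁ → n % m₂ ≠ r₂ → σ n = n)

/-- The group `CT(ℤ)` generated by all class transpositions. -/
def CTZ : Subgroup (Equiv.Perm ℤ) := Subgroup.closure {σ | IsClassTransposition σ}

/-- The reflection `ν(n) = -n - 1`. -/
def nu : Equiv.Perm ℤ where
  toFun n := -n - 1
  invFun n := -n - 1
  left_inv n := by ring
  right_inv n := by ring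

/-- The inner automorphisms of `CT(ℤ)`. -/
def Inn : Subgroup (MulAut CTZ) := (MulAut.conj : CTZ →* MulAut CTZ).range

/-- `α` is the map `σ ↦ ν⁻¹ σ ν`. -/
def IsConjNu (α : MulAut CTZ) : Prop :=
  ∀ g : CTZ, ((α g : CTZ) : Equiv.Perm ℤ) = nu⁻¹ * (g : Equiv.Perm ℤ) * nu

end Pool.Agent.H26.OutDefs
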