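import Pool.Agent.H26.Out4
import Pool.Agent.H26.OutDefs

set_option autoImplicit false

namespace Pool.Agent.H26.Out

open Pool.Agent.H26.OutDefs

theorem own :
    ∃ α : MulAut CTZ,
      (∀ g : CTZ, ((α g : CTZ) : Equiv.Perm ℤ) = nu⁻¹ * (g : Equiv.Perm ℤ) * nu) ∧
      α ∉ (MulAut.conj : CTZ →* MulAut CTZ).range ∧
      (∀ φ : MulAut CTZ, φ ∈ (MulAut.conj : CTZ →* MulAut CTZ).range ∨
        ∃ β ∈ (MulAut.conj : CTZ →* MulAut CTZ).range, φ = β * α) ∧
      (MulAut.conj : CTZ →* MulAut CTZ).range.index = 2 := by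
  obtain ⟨h1, h2, h3⟩ := main nu (fun n => rfl) CTZ rfl
  have hνν : nu * nu = 1 := by
    ext n
    change -(-n - 1) - 1 = n
    ring
  have hνi : nu⁻¹ = nu := inv_eq_of_mul_eq_one_left hνν
  have h1' : ∀ g : CTZ, nu⁻¹ * (g : Equiv.Perm ℤ) * nu ∈ CTZ := by
    intro g
    have := h1 g g.2
    rwa [hνi] at this ⊢
  let α : MulAut CTZ :=
    { toFun := fun g => ⟨nu⁻¹ * (g : Equiv.Perm ℤ) * nu, h1' g⟩
      invFun := fun g => ⟨nu⁻¹ * (g : Equiv.Perm ℤ) * nu, h1' g⟩
      left_inv := by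
        intro g
        apply Subtype.ext
        change nu⁻¹ * (nu⁻¹ * (g : Equiv.Perm ℤ) * nu) * nu = g
        rw [hνi]
        have : nu * (nu * (g : Equiv.Perm ℤ) * nu) * nu =
          (nu * nu) * (g : Equiv.Perm ℤ) * (nu * nu) := by group
        rw [this, hνν]
        group
      right_inv := by
        intro g
        apply Subtype.ext
        change nu⁻¹ * (nu⁻¹ * (g : Equiv.Perm ℤ) * nu) * nu = g
        rw [hνi]
        have : nu * (nu * (g : Equiv.Perm ℤ) * nu) * nu =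
          (nu * nu) * (g : Equiv.Perm ℤ) * (nu * nu) := by group
        rw [this, hνν]
        group
      map_mul' := by
        intro g g'
        apply Subtype.ext
        change nu⁻¹ * ((g : Equiv.Perm ℤ) * g') * nu =
          (nu⁻¹ * (g : Equiv.Perm ℤ) * nu) * (nu⁻¹ * (g' : Equiv.Perm ℤ) * nu)
        group }
  have hα : ∀ g : CTZ, ((α g : CTZ) : Equiv.Perm ℤ) = nu⁻¹ * (g : Equiv.Perm ℤ) * nu :=
    fun g => rfl
  have hne : α ∉ (MulAut.conj : CTZ →* MulAut CTZ).range := by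
    rintro ⟨h, hh⟩
    apply h3
    refine ⟨h, h.2, fun g hg => ?_⟩
    have := congrArg (fun f : MulAut CTZ => ((f ⟨g, hg⟩ : CTZ) : Equiv.Perm ℤ)) hh
    simp only [hα] at this
    rw [MulAut.conj_apply] at this
    rw [hνi] at this ⊢
    exact this.symm
  have hall : ∀ φ : MulAut CTZ, φ ∈ (MulAut.conj : CTZ →* MulAut CTZ).range ∨
        ∃ β ∈ (MulAut.conj : CTZ →* MulAut CTZ).range, φ = β * α := by
    intro φ
    obtain ⟨h, hh, h4 | h4⟩ := h2 φ
    · left
      refine ⟨⟨h, hh⟩, ?_⟩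
      ext1 g
      apply Subtype.ext
      rw [MulAut.conj_apply, h4 g]
      rfl
    · right
      refine ⟨MulAut.conj ⟨h, hh⟩, ⟨_, rfl⟩, ?_⟩
      ext1 g
      apply Subtype.ext
      rw [MulAut.mul_apply, MulAut.conj_apply, h4 g]
      change _ = h * (nu⁻¹ * (g : Equiv.Perm ℤ) * nu) * h⁻¹
      rw [hνi]
      group
  refine ⟨α, hα, hne, hall, ?_⟩
  rw [Subgroup.index_eq_two_iff_exists_notMem_and]
  refine ⟨α, hne, fun b => ?_⟩
  rcases hall b with h | ⟨β, hβ, rfl⟩
  · exact Or.inr h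
  · left
    rw [mul_assoc]
    have : α * α = 1 := by
      ext1 g
      apply Subtype.ext
      change nu⁻¹ * (nu⁻¹ * (g : Equiv.Perm ℤ) * nu) * nu = g
      rw [hνi]
      have : nu * (nu * (g : Equiv.Perm ℤ) * nu) * nu =
        (nu * nu) * (g : Equiv.Perm ℤ) * (nu * nu) := by group
      rw [this, hνν]
      group
    rw [this, mul_one]
    exact hβ

end Pool.Agent.H26.Out
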