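import Mathlib

set_option autoImplicit false

namespace Pool.Agent.H26.PSeq

open Filter Topology Set

variable {X : Type} [TopologicalSpace X]

lemma closed_mem {A : Set C(X, ℝ)}
    (hA : @IsClosed C(X, ℝ)
      (TopologicalSpace.induced (fun h : C(X, ℝ) => (h : X → ℝ)) Pi.topologicalSpace) A)
    (g : C(X, ℝ)) (h : ∀ F : Finset X, ∃ f ∈ A, ∀ x ∈ F, f x = g x) : g ∈ A := by
  rw [isClosed_induced_iff] at hA
  obtain ⟨T, hT, rfl⟩ := hA
  by_contra hg
  have hg' : (g : X → ℝ) ∈ Tᶜ := hg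
  obtain ⟨I, u, hu, hsub⟩ := isOpen_pi_iff.1 hT.isOpen_compl _ hg'
  obtain ⟨f, hf, hfe⟩ := h I
  have : (f : X → ℝ) ∈ Tᶜ := by
    apply hsub
    intro x hx
    rw [hfe x hx]
    exact (hu x hx).2
  exact this hf

lemma tendsto_iff (p : Filter ℕ) (f : ℕ → C(X, ℝ)) (g : C(X, ℝ)) :
    Tendsto f p (@nhds C(X, ℝ)
      (TopologicalSpace.induced (fun h : C(X, ℝ) => (h : X → ℝ)) Pi.topologicalSpace) g) ↔
    ∀ x, Tendsto (fun n => f n x) p (𝓝 (g x)) := by
  rw [nhds_induced, tendsto_comap_iff, tendsto_pi_nhds]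
  rfl

lemma exists_fun [T35Space X] (F : Finset X) (U : Set X) (hU : IsOpen U) (hF : (F : Set X) ⊆ U)
    (c : ℝ) : ∃ f : C(X, ℝ), (∀ x ∈ F, f x = 0) ∧ ∀ x, x ∉ U → f x = c := by
  classical
  have h1 : ∀ x : X, ∃ f : X → unitInterval, Continuous f ∧ (x ∈ U → f x = 0) ∧
      ∀ y, y ∉ U → f y = 1 := by
    intro x
    by_cases hx : x ∈ U
    · obtain ⟨f, hf, h0, h1⟩ := CompletelyRegularSpace.completely_regular x Uᶜ hU.isClosed_compl
        (by simpa using hx)
      exact ⟨f, hf, fun _ => h0, fun y hy => h1 hy⟩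
    · exact ⟨fun _ => 1, continuous_const, fun h => absurd h hx, fun _ _ => rfl⟩
  choose f hf h0 h1 using h1
  refine ⟨⟨fun y => c * ∏ x ∈ F, ((f x y : unitInterval) : ℝ), ?_⟩, ?_, ?_⟩
  · refine continuous_const.mul (continuous_finsetProd _ fun x _ => ?_)
    exact continuous_subtype_val.comp (hf x)
  · intro x hx
    simp only [ContinuousMap.coe_mk]
    rw [Finset.prod_eq_zero hx, mul_zero]
    rw [h0 x (hF hx)]; rfl
  · intro y hy
    simp only [ContinuousMap.coe_mk]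
    rw [Finset.prod_eq_one, mul_one]
    intro x _
    rw [h1 x y hy]; rfl

theorem main (p : Ultrafilter ℕ) (X : Type) [TopologicalSpace X] [T35Space X]
    (hp : ∀ A : Set C(X, ℝ),
        (∀ (f : ℕ → C(X, ℝ)) (g : C(X, ℝ)), (∀ n, f n ∈ A) →
          Filter.Tendsto f (p : Filter ℕ)
            (@nhds C(X, ℝ)
              (TopologicalSpace.induced (fun h : C(X, ℝ) => (h : X → ℝ)) Pi.topologicalSpace) g) →
          g ∈ A) →
        @IsClosed C(X, ℝ)
          (TopologicalSpace.induced (fun h : C(X, ℝ) => (h : X → ℝ)) Pi.topologicalSpace) A)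
    (𝒰 : Set (Set X)) (hO : ∀ U ∈ 𝒰, IsOpen U) (huniv : (Set.univ : Set X) ∉ 𝒰)
    (hω : ∀ F : Finset X, ∃ U ∈ 𝒰, (↑F : Set X) ⊆ U) :
    ∃ u : ℕ → Set X, (∀ n, u n ∈ 𝒰) ∧
      ∀ x : X, ∀ᶠ n in (p : Filter ℕ), x ∈ u n := by
  classical
  -- step 1 : countable subcover
  obtain ⟨U, hU𝒰, hUω⟩ : ∃ U : ℕ → Set X, (∀ n, U n ∈ 𝒰) ∧
      ∀ F : Finset X, ∃ n, (↑F : Set X) ⊆ U n := by
    let A : Set C(X, ℝ) := {f | ∃ U ∈ 𝒰, ∀ x, x ∉ U → f x = 1}
    let B : Set C(X, ℝ) := {g | ∃ C : ℕ → C(X, ℝ), (∀ n, C n ∈ A) ∧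
      ∀ F : Finset X, ∀ ε > (0 : ℝ), ∃ n, ∀ x ∈ F, |C n x - g x| < ε}
    have hB := hp B (by
      intro f g hf hlim
      rw [tendsto_iff] at hlim
      choose C hCA hC using hf
      refine ⟨fun k => C k.unpair.1 k.unpair.2, fun k => hCA _ _, ?_⟩
      intro F ε hε
      have hev : ∀ᶠ n in (p : Filter ℕ), ∀ x ∈ F, |f n x - g x| < ε / 2 := by
        rw [Filter.eventually_all_finset]
        intro x _
        have := (hlim x)
        rw [Metric.tendsto_nhds] at this
        exact this (ε / 2) (by positivity)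
      obtain ⟨n, hn⟩ := hev.exists
      obtain ⟨m, hm⟩ := hC n F (ε / 2) (by positivity)
      refine ⟨Nat.pair n m, fun x hx => ?_⟩
      simp only [Nat.unpair_pair]
      have h1 := hn x hx
      have h2 := hm x hx
      calc |C n m x - g x| = |(C n m x - f n x) + (f n x - g x)| := by ring_nf
        _ ≤ |C n m x - f n x| + |f n x - g x| := abs_add_le _ _
        _ < ε := by linarith)
    have h0 : (0 : C(X, ℝ)) ∈ B := by
      apply closed_mem hB
      intro F
      obtain ⟨V, hV, hFV⟩ := hω F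
      obtain ⟨f, hf0, hf1⟩ := exists_fun F V (hO V hV) hFV 1
      refine ⟨f, ⟨fun _ => f, fun _ => ⟨V, hV, hf1⟩, ?_⟩, ?_⟩
      · intro F' ε hε
        exact ⟨0, fun x _ => by simpa using hε⟩
      · intro x hx
        rw [hf0 x hx]; rfl
    obtain ⟨C, hCA, hC⟩ := h0
    choose U hU hU1 using hCA
    refine ⟨U, hU, fun F => ?_⟩
    obtain ⟨n, hn⟩ := hC F 1 one_pos
    refine ⟨n, fun x hx => ?_⟩
    by_contra hxU
    have := hn x hx
    rw [hU1 n x hxU] at this
    simp at this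
  -- step 2
  let A : ℕ → Set C(X, ℝ) := fun n => {f | ∀ x, x ∉ U n → f x = (n : ℝ) + 1}
  have hnot : ¬ ∀ (f : ℕ → C(X, ℝ)) (g : C(X, ℝ)), (∀ n, f n ∈ ⋃ m, A m) →
          Filter.Tendsto f (p : Filter ℕ)
            (@nhds C(X, ℝ)
              (TopologicalSpace.induced (fun h : C(X, ℝ) => (h : X → ℝ)) Pi.topologicalSpace) g) →
          g ∈ ⋃ m, A m := by
    intro hcl
    have hB := hp _ hcl
    have h0 : (0 : C(X, ℝ)) ∈ ⋃ m, A m := by
      apply closed_mem hB
      intro F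
      obtain ⟨n, hn⟩ := hUω F
      obtain ⟨f, hf0, hf1⟩ := exists_fun F (U n) (hO _ (hU𝒰 n)) hn ((n : ℝ) + 1)
      refine ⟨f, mem_iUnion.2 ⟨n, hf1⟩, fun x hx => ?_⟩
      rw [hf0 x hx]; rfl
    obtain ⟨n, hn⟩ := mem_iUnion.1 h0
    have hne : U n ≠ univ := fun h => huniv (h ▸ hU𝒰 n)
    obtain ⟨x, hx⟩ := (ne_univ_iff_exists_notMem _).1 hne
    have := hn x hx
    simp only [ContinuousMap.zero_apply] at this
    have h3 : (0 : ℝ) ≤ (n : ℝ) := Nat.cast_nonneg n
    linarith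
  push Not at hnot
  obtain ⟨a, g, ha, hlim, hg⟩ := hnot
  rw [tendsto_iff] at hlim
  simp only [mem_iUnion] at ha hg
  choose k hk using ha
  push Not at hg
  refine ⟨fun j => U (k j), fun j => hU𝒰 _, fun x => ?_⟩
  have hkbig : ∀ M : ℕ, ∀ᶠ j in (p : Filter ℕ), M < k j := by
    intro M
    have h1 : ∀ m ∈ Finset.range (M + 1), ∀ᶠ j in (p : Filter ℕ), k j ≠ m := by
      intro m _
      by_contra hcon
      have h2 : ∀ᶠ j in (p : Filter ℕ), k j = m := by
        have h3 := Ultrafilter.frequently_iff_eventually.1 (not_eventually.1 hcon)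
        exact h3.mono fun j hj => by simpa using hj
      apply hg m
      intro y hy
      have h4 : Tendsto (fun n => a n y) (p : Filter ℕ) (𝓝 ((m : ℝ) + 1)) := by
        apply Tendsto.congr' _ tendsto_const_nhds
        exact h2.mono fun j hj => by
          have := hk j y (by rw [hj]; exact hy)
          simp only [this, hj]
      exact tendsto_nhds_unique (hlim y) h4
    rw [← Filter.eventually_all_finset] at h1
    exact h1.mono fun j hj => by
      by_contra hlt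
      exact hj (k j) (Finset.mem_range.2 (by omega)) rfl
  obtain ⟨M, hM⟩ := exists_nat_gt (g x + 1)
  have h1 := hkbig M
  have h2 : ∀ᶠ j in (p : Filter ℕ), |a j x - g x| < 1 := by
    have := hlim x
    rw [Metric.tendsto_nhds] at this
    exact this 1 one_pos
  filter_upwards [h1, h2] with j hj1 hj2
  by_contra hx
  have h3 := hk j x hx
  have h4 : (M : ℝ) < (k j : ℝ) := by exact_mod_cast hj1
  have h5 := (abs_lt.1 hj2).2
  linarith

end Pool.Agent.H26.PSeq
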