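import Mathlib

namespace Pool.Agent.H26.Prim

/-- A right module structure of a (possibly non-unital) ring `R` on an abelian group `M`. -/
structure RightMod (R : Type*) [NonUnitalRing R] (M : Type*) [AddCommGroup M] where
  act : M → R → M
  add_act : ∀ m m' r, act (m + m') r = act m r + act m' r
  act_add : ∀ m r s, act m (r + s) = act m r + act m s
  act_mul : ∀ m r s, act m (r * s) = act (act m r) s

/-- `M` is simple: `MR ≠ 0` and `M` has no submodules other than `0` and `M`. -/
def RightMod.Simple {R : Type*} [NonUnitalRing R] {M : Type*} [AddCommGroup M]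
    (ρ : RightMod R M) : Prop :=
  (∃ m r, ρ.act m r ≠ 0) ∧
  ∀ N : AddSubgroup M, (∀ m ∈ N, ∀ r, ρ.act m r ∈ N) → N = ⊥ ∨ N = ⊤

/-- `M` is faithful: `Mr = 0` implies `r = 0`. -/
def RightMod.Faithful {R : Type*} [NonUnitalRing R] {M : Type*} [AddCommGroup M]
    (ρ : RightMod R M) : Prop :=
  ∀ r, (∀ m, ρ.act m r = 0) → r = 0

/-- Right primitive rings: rings with a faithful simple right module. -/
def RightPrimitive.{u, v} (R : Type u) [NonUnitalRing R] : Prop :=
  ∃ (M : Type v) (_ : AddCommGroup M) (ρ : RightMod R M), ρ.Simple ∧ ρ.Faithful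

/-- Subdirectly indecomposable: `S ≠ 0` and the intersection of all nonzero ideals is nonzero. -/
def SubdirectlyIndecomposable (S : Type*) [NonUnitalRing S] : Prop :=
  Nontrivial S ∧ sInf {I : TwoSidedIdeal S | I ≠ ⊥} ≠ ⊥

/-- The homomorphisms `f i : R → S i` represent `R` as a subdirect product of the `S i`. -/
def IsSubdirectProduct {R : Type*} [NonUnitalRing R] {ι : Type*} {S : ι → Type*}
    [∀ i, NonUnitalRing (S i)] (f : ∀ i, R →ₙ+* S i) : Prop :=
  (∀ i, Function.Surjective (f i)) ∧ ∀ r, (∀ i, f i r = 0) → r = 0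

end Pool.Agent.H26.Prim
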