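import Mathlib
import Pool.Agent.H26.PrimDefs

namespace Pool.Agent.H26.Prim

abbrev K := AlgebraicClosure (ZMod 2)

noncomputable def F : AddMonoid.End K := (frobenius K 2).toAddMonoidHom

lemma emul (f g : AddMonoid.End K) (z : K) : (f * g) z = f (g z) := rfl

lemma eadd (f g : AddMonoid.End K) (z : K) : (f + g) z = f z + g z := rfl

lemma F_apply (z : K) : F z = z ^ 2 := rfl

lemma F_pow_apply (n : ℕ) (z : K) : (F ^ n) z = z ^ (2 ^ n) := by
  induction n generalizing z with
  | zero => simp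
  | succ n ih =>
    rw [pow_succ, emul, ih, F_apply, ← pow_mul, pow_succ, mul_comm]

noncomputable def mm (a : K) : AddMonoid.End K := AddMonoidHom.mulLeft a

lemma mm_apply (a z : K) : mm a z = a * z := rfl

noncomputable def Phi : (ℕ →₀ K) →+ AddMonoid.End K :=
  Finsupp.liftAddHom (fun i => 
    { toFun := fun a => mm a * F ^ i
      map_zero' := by ext z; simp [mm_apply]
      map_add' := fun a b => by
        ext z
        rw [eadd, emul, emul, emul, mm_apply, mm_apply, mm_apply, add_mul] })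

lemma Phi_single (i : ℕ) (a : K) : Phi (Finsupp.single i a) = mm a * F ^ i := by
  unfold Phi
  rw [Finsupp.liftAddHom_apply_single]
  rfl

lemma Phi_apply (c : ℕ →₀ K) (z : K) : Phi c z = c.sum (fun i a => a * z ^ (2 ^ i)) := by
  induction c using Finsupp.induction_linear with
  | zero => rw [map_zero, Finsupp.sum_zero_index]; rfl
  | add f g hf hg =>
    rw [map_add, eadd, hf, hg, Finsupp.sum_add_index']
    · simp
    · intros; ring
  | single i a =>
    rw [Phi_single, emul, F_pow_apply, mm_apply, Finsupp.sum_single_index]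
    simp

lemma pow_injective' : Function.Injective (fun i : ℕ => ((powMonoidHom (2 ^ i) : K →* K))) := by
  intro i j hij
  have h : ∀ z : K, z ^ (2 ^ i) = z ^ (2 ^ j) := fun z => DFunLike.congr_fun hij z
  have h2 : (Polynomial.X ^ (2 ^ i) : Polynomial K) = Polynomial.X ^ (2 ^ j) := by
    apply Polynomial.funext
    intro z
    simpa using h z
  have h3 := congrArg Polynomial.natDegree h2
  rw [Polynomial.natDegree_X_pow, Polynomial.natDegree_X_pow] at h3
  exact Nat.pow_right_injective le_rfl h3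

/-- distinct powers of Frobenius are linearly independent -/
lemma Phi_injective : Function.Injective Phi := by
  rw [injective_iff_map_eq_zero]
  intro c hc
  have hli := (linearIndependent_monoidHom K K).comp _ pow_injective'
  rw [linearIndependent_iff] at hli
  apply hli c
  ext z
  have := DFunLike.congr_fun hc z
  rw [Phi_apply] at this
  rw [Finsupp.linearCombination_apply, Finsupp.sum, Finset.sum_apply]
  exact this

lemma F_mul_mm (a : K) : F * mm a = mm (a ^ 2) * F := by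
  ext z
  rw [emul, emul, mm_apply, mm_apply, F_apply, F_apply, mul_pow]

lemma Fpow_mul_mm (n : ℕ) (a : K) : F ^ n * mm a = mm (a ^ 2 ^ n) * F ^ n := by
  ext z
  rw [emul, emul, mm_apply, mm_apply, F_pow_apply, F_pow_apply, mul_pow]

lemma mm_mul (a b : K) : mm a * mm b = mm (a * b) := by
  ext z
  rw [emul, mm_apply, mm_apply, mm_apply, mul_assoc]

lemma single_mul (i j : ℕ) (a b : K) : Phi (Finsupp.single i a) * Phi (Finsupp.single j b) =
    Phi (Finsupp.single (i + j) (a * b ^ 2 ^ i)) := by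
  rw [Phi_single, Phi_single, Phi_single]
  calc mm a * F ^ i * (mm b * F ^ j) = mm a * (F ^ i * mm b) * F ^ j := by
        simp only [mul_assoc]
    _ = _ := by rw [Fpow_mul_mm, ← mul_assoc, mm_mul, mul_assoc, ← pow_add]

/-- the ring of additive polynomial functions on `K` -/
noncomputable def T : Subring (AddMonoid.End K) where
  carrier := Set.range Phi
  mul_mem' := by
    rintro _ _ ⟨c, rfl⟩ ⟨d, rfl⟩
    induction c using Finsupp.induction_linear with
    | zero => exact ⟨0, by simp⟩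
    | add f g hf hg =>
      obtain ⟨u, hu⟩ := hf
      obtain ⟨v, hv⟩ := hg
      exact ⟨u + v, by rw [map_add, map_add, hu, hv, add_mul]⟩
    | single i a =>
      induction d using Finsupp.induction_linear with
      | zero => exact ⟨0, by simp⟩
      | add f g hf hg =>
        obtain ⟨u, hu⟩ := hf
        obtain ⟨v, hv⟩ := hg
        exact ⟨u + v, by rw [map_add, map_add, hu, hv, mul_add]⟩
      | single j b => exact ⟨_, (single_mul i j a b).symm⟩
  one_mem' := ⟨Finsupp.single 0 1, by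
    rw [Phi_single]; ext z; rw [emul, mm_apply]; simp⟩
  add_mem' := by
    rintro _ _ ⟨c, rfl⟩ ⟨d, rfl⟩
    exact ⟨c + d, map_add _ _ _⟩
  zero_mem' := ⟨0, map_zero _⟩
  neg_mem' := by
    rintro _ ⟨c, rfl⟩
    exact ⟨-c, map_neg _ _⟩

lemma mem_T (c : ℕ →₀ K) : Phi c ∈ T := ⟨c, rfl⟩

lemma F_mem : F ∈ T := ⟨Finsupp.single 1 1, by
  rw [Phi_single]; ext z; rw [emul, mm_apply]; simp⟩

/-- `f F = F f'` -/
lemma exists_right (f : AddMonoid.End K) (hf : f ∈ T) : ∃ g ∈ T, f * F = F * g := by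
  obtain ⟨c, rfl⟩ := hf
  induction c using Finsupp.induction_linear with
  | zero => exact ⟨0, T.zero_mem, by simp⟩
  | add f g hf hg =>
    obtain ⟨u, hu, hu'⟩ := hf
    obtain ⟨v, hv, hv'⟩ := hg
    exact ⟨u + v, T.add_mem hu hv, by rw [map_add, add_mul, hu', hv', mul_add]⟩
  | single i a =>
    obtain ⟨z, hz⟩ := IsAlgClosed.exists_pow_nat_eq a (n := 2) (by norm_num)
    refine ⟨Phi (Finsupp.single i z), mem_T _, ?_⟩
    rw [Phi_single, Phi_single, ← mul_assoc, F_mul_mm, hz, mul_assoc, mul_assoc, ← pow_succ,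
      ← pow_succ']

/-- `F f = f' F` -/
lemma exists_left (f : AddMonoid.End K) (hf : f ∈ T) : ∃ g ∈ T, F * f = g * F := by
  obtain ⟨c, rfl⟩ := hf
  induction c using Finsupp.induction_linear with
  | zero => exact ⟨0, T.zero_mem, by simp⟩
  | add f g hf hg =>
    obtain ⟨u, hu, hu'⟩ := hf
    obtain ⟨v, hv, hv'⟩ := hg
    exact ⟨u + v, T.add_mem hu hv, by rw [map_add, mul_add, hu', hv', add_mul]⟩
  | single i a =>
    refine ⟨Phi (Finsupp.single i (a ^ 2)), mem_T _, ?_⟩
    rw [Phi_single, Phi_single, ← mul_assoc, F_mul_mm, mul_assoc, mul_assoc, ← pow_succ,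
      ← pow_succ']

lemma exists_left_pow (n : ℕ) (f : AddMonoid.End K) (hf : f ∈ T) :
    ∃ g ∈ T, F ^ n * f = g * F ^ n := by
  induction n with
  | zero => exact ⟨f, hf, by simp⟩
  | succ n ih =>
    obtain ⟨g, hg, hg'⟩ := ih
    obtain ⟨g2, hg2, hg2'⟩ := exists_left g hg
    refine ⟨g2, hg2, ?_⟩
    rw [pow_succ', mul_assoc, hg', ← mul_assoc, hg2', mul_assoc]

/-- coefficients after right multiplication with `F ^ n` -/
lemma Phi_mul_Fpow (n : ℕ) (c : ℕ →₀ K) :
    Phi c * F ^ n = Phi (c.embDomain ⟨fun i => i + n, fun _ _ h => Nat.add_right_cancel h⟩) := by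
  induction c using Finsupp.induction_linear with
  | zero => simp
  | add f g hf hg => rw [map_add, add_mul, hf, hg, Finsupp.embDomain_add, map_add]
  | single i a =>
    rw [Finsupp.embDomain_single, Phi_single, Phi_single, mul_assoc, ← pow_add]
    rfl

/-- an element divisible by all powers of `F` vanishes -/
lemma eq_zero_of_div (f : AddMonoid.End K) (hf : f ∈ T)
    (h : ∀ n : ℕ, ∃ g ∈ T, f = g * F ^ n) : f = 0 := by
  obtain ⟨c, rfl⟩ := hf
  have : c = 0 := by
    ext i
    obtain ⟨_, ⟨d, rfl⟩, hd⟩ := h (i + 1)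
    rw [Phi_mul_Fpow] at hd
    rw [Phi_injective hd, Finsupp.embDomain_of_notMem_range]
    · rfl
    · rintro ⟨k, hk⟩
      have : k + (i + 1) = i := hk
      omega
  rw [this, map_zero]

/-- A nonzero subset of `T` closed under addition and multiplications contains a power of `F`. -/
lemma exists_pow_mem (I : Set (AddMonoid.End K)) (hadd : ∀ f ∈ I, ∀ g ∈ I, f - g ∈ I)
    (hl : ∀ f ∈ T, ∀ g ∈ I, f * g ∈ I) (hr : ∀ f ∈ T, ∀ g ∈ I, g * f ∈ I)
    (hne : ∃ f ∈ I, f ∈ T ∧ f ≠ 0) : ∃ n : ℕ, F ^ n ∈ I := by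
  have hex : ∃ k : ℕ, ∃ c : ℕ →₀ K, Phi c ∈ I ∧ c ≠ 0 ∧ c.support.card = k := by
    obtain ⟨_, hf, ⟨c, rfl⟩, h0⟩ := hne
    exact ⟨_, c, hf, fun h => h0 (by rw [h, map_zero]), rfl⟩
  classical
  obtain ⟨c, hcI, hc0, hck⟩ := Nat.find_spec hex
  have hmin : ∀ d : ℕ →₀ K, Phi d ∈ I → d ≠ 0 → c.support.card ≤ d.support.card := by
    intro d h1 h2
    rw [hck]
    exact Nat.find_min' hex ⟨d, h1, h2, rfl⟩
  obtain ⟨i, hi⟩ := Finsupp.support_nonempty_iff.2 hc0
  have hsingle : ∀ j ∈ c.support, j = i := by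
    intro j hj
    by_contra hij
    obtain ⟨u, hu⟩ : ∃ u : K, u ^ (2 ^ i) ≠ u ^ (2 ^ j) := by
      by_contra hcon
      push Not at hcon
      exact hij (pow_injective' (by ext z; exact hcon z)).symm
    -- `d = u^(2^j) c - c u`
    have hd0 : ∀ k, c k * (u ^ (2 ^ j) - u ^ (2 ^ k)) ≠ 0 → k ∈ c.support := by
      intro k hk
      rw [Finsupp.mem_support_iff]
      exact left_ne_zero_of_mul hk
    set d : ℕ →₀ K := Finsupp.onFinset c.support
      (fun k => c k * (u ^ (2 ^ j) - u ^ (2 ^ k))) hd0 with hd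
    have hPd : Phi d = mm (u ^ (2 ^ j)) * Phi c - Phi c * mm u := by
      ext z
      have e1 : (mm (u ^ (2 ^ j)) * Phi c - Phi c * mm u) z =
        u ^ (2 ^ j) * Phi c z - Phi c (u * z) := rfl
      rw [e1, Phi_apply, Phi_apply, Phi_apply, hd, Finsupp.onFinset_sum]
      · rw [Finsupp.sum, Finsupp.sum, Finset.mul_sum, ← Finset.sum_sub_distrib]
        apply Finset.sum_congr rfl
        intro k _
        rw [mul_pow]
        ring
      · intro k; simp
    have hmm : ∀ a : K, mm a ∈ T := fun a => ⟨Finsupp.single 0 a, by rw [Phi_single]; simp⟩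
    have hdI : Phi d ∈ I := by
      rw [hPd]
      exact hadd _ (hl _ (hmm _) _ hcI) _ (hr _ (hmm _) _ hcI)
    have hdi : d i ≠ 0 := by
      rw [hd, Finsupp.onFinset_apply]
      exact mul_ne_zero (Finsupp.mem_support_iff.1 hi) (sub_ne_zero.2 hu.symm)
    have hdne : d ≠ 0 := fun h => hdi (by rw [h]; rfl)
    have hsub : d.support ⊆ c.support.erase j := by
      intro k hk
      rw [Finset.mem_erase]
      constructor
      · rintro rfl
        rw [Finsupp.mem_support_iff, hd, Finsupp.onFinset_apply, sub_self, mul_zero] at hk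
        exact hk rfl
      · apply hd0
        rw [Finsupp.mem_support_iff, hd, Finsupp.onFinset_apply] at hk
        exact hk
    have h1 := hmin d hdI hdne
    have h2 := Finset.card_le_card hsub
    have h3 := Finset.card_erase_lt_of_mem hj
    omega
  have hc : c = Finsupp.single i (c i) := by
    ext k
    by_cases hk : k = i
    · subst hk; simp
    · rw [Finsupp.single_eq_of_ne hk]
      by_contra h
      exact hk (hsingle k (Finsupp.mem_support_iff.2 h))
  refine ⟨i, ?_⟩
  have hmm : ∀ a : K, mm a ∈ T := fun a => ⟨Finsupp.single 0 a, by rw [Phi_single]; simp⟩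
  have h1 := hl (mm (c i)⁻¹) (hmm _) _ hcI
  rw [hc, Phi_single, ← mul_assoc, mm_mul] at h1
  have h2 : (Finsupp.single i (c i)) i = c i := by simp
  rw [h2, inv_mul_cancel₀ (Finsupp.mem_support_iff.1 hi)] at h1
  have h3 : mm (1 : K) = 1 := by ext z; rw [mm_apply, one_mul]; rfl
  rw [h3, one_mul] at h1
  exact h1

/-- the counterexample ring -/
abbrev R := (T)ᵐᵒᵖ

noncomputable def xR : R := MulOpposite.op ⟨F, F_mem⟩

noncomputable def modK : RightMod R K where
  act z r := (r.unop : AddMonoid.End K) z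
  add_act _ _ _ := map_add _ _ _
  act_add _ _ _ := rfl
  act_mul _ _ _ := rfl

lemma primitive_R : RightPrimitive.{0, 0} R := by
  refine ⟨K, inferInstance, modK, ⟨⟨1, 1, ?_⟩, ?_⟩, ?_⟩
  · change (1 : K) ≠ 0
    exact one_ne_zero
  · intro N hN
    by_cases h : N = ⊥
    · exact Or.inl h
    · right
      obtain ⟨z, hz, hz0⟩ : ∃ z ∈ N, z ≠ 0 := by
        by_contra hcon
        push Not at hcon
        apply h
        rw [eq_bot_iff]
        intro z hz
        rw [hcon z hz]
        exact AddSubgroup.zero_mem _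
      rw [AddSubgroup.eq_top_iff']
      intro w
      have hmm : mm (w * z⁻¹) ∈ T := ⟨Finsupp.single 0 (w * z⁻¹), by rw [Phi_single]; simp⟩
      have := hN z hz (MulOpposite.op ⟨_, hmm⟩)
      have e : modK.act z (MulOpposite.op ⟨_, hmm⟩) = w * z⁻¹ * z := rfl
      rw [e, mul_assoc, inv_mul_cancel₀ hz0, mul_one] at this
      exact this
  · intro r hr
    have : r.unop = 0 := by
      apply Subtype.ext
      ext z
      exact hr z
    exact MulOpposite.unop_injective this

/-- every nonzero two-sided ideal contains a power of `x` -/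
lemma ideal_pow (I : TwoSidedIdeal R) (hI : I ≠ ⊥) : ∃ n : ℕ, xR ^ n ∈ I := by
  obtain ⟨r, hr, hr0⟩ : ∃ r : R, r ∈ I ∧ r ≠ 0 := by
    by_contra hcon
    push Not at hcon
    apply hI
    rw [eq_bot_iff]
    intro r hr
    rw [hcon r hr]
    exact TwoSidedIdeal.zero_mem _
  have key := exists_pow_mem {f | ∃ hf : f ∈ T, (MulOpposite.op (⟨f, hf⟩ : T) : R) ∈ I}
    (by
      rintro f ⟨hf, hf'⟩ g ⟨hg, hg'⟩
      exact ⟨T.sub_mem hf hg, I.sub_mem hf' hg'⟩)
    (by
      rintro f hf g ⟨hg, hg'⟩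
      exact ⟨T.mul_mem hf hg, I.mul_mem_right _ (MulOpposite.op (⟨f, hf⟩ : T)) hg'⟩)
    (by
      rintro f hf g ⟨hg, hg'⟩
      exact ⟨T.mul_mem hg hf, I.mul_mem_left (MulOpposite.op (⟨f, hf⟩ : T)) _ hg'⟩)
    ⟨r.unop, ⟨r.unop.2, hr⟩, r.unop.2, fun h => hr0 (MulOpposite.unop_injective (Subtype.ext h))⟩
  obtain ⟨n, hn, hn'⟩ := key
  refine ⟨n, ?_⟩
  have : xR ^ n = MulOpposite.op (⟨F ^ n, hn⟩ : T) := by
    apply MulOpposite.unop_injective
    rw [MulOpposite.unop_pow]
    rfl
  rw [this]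
  exact hn'

lemma comm_right (r : R) : ∃ r' : R, xR * r = r' * xR := by
  obtain ⟨g, hg, h⟩ := exists_right r.unop r.unop.2
  exact ⟨MulOpposite.op ⟨g, hg⟩, MulOpposite.unop_injective (Subtype.ext h)⟩

lemma comm_left_pow (n : ℕ) (r : R) : ∃ r' : R, r * xR ^ n = xR ^ n * r' := by
  obtain ⟨g, hg, h⟩ := exists_left_pow n r.unop r.unop.2
  refine ⟨MulOpposite.op ⟨g, hg⟩, MulOpposite.unop_injective (Subtype.ext ?_)⟩
  exact h

lemma eq_zero_of_div' (r : R) (h : ∀ n : ℕ, ∃ r' : R, r = xR ^ n * r') : r = 0 := by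
  apply MulOpposite.unop_injective
  apply Subtype.ext
  apply eq_zero_of_div _ r.unop.2
  intro n
  obtain ⟨r', hr'⟩ := h n
  refine ⟨r'.unop, r'.unop.2, ?_⟩
  rw [hr']
  rfl

lemma x_pow_ne (n : ℕ) : xR ^ n ≠ 0 := by
  intro h
  have h1 : (((xR ^ n).unop : T) : AddMonoid.End K) = F ^ n := rfl
  rw [h] at h1
  have h2 : (F ^ n) 1 = (0 : AddMonoid.End K) 1 := by rw [← h1]; rfl
  rw [F_pow_apply, one_pow] at h2
  exact one_ne_zero h2

section main

variable {S : Type*} [NonUnitalRing S] (f : R →ₙ+* S) (hf : Function.Surjective f)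

include hf

/-- if `f` is not injective and `S` is right primitive then `f x = 0` -/
lemma f_x_eq_zero (hker : ∃ n : ℕ, f (xR ^ n) = 0) (hS : RightPrimitive S) : f xR = 0 := by
  obtain ⟨M, _, ρ, ⟨⟨m0, r0, hm0⟩, hsub⟩, hfaith⟩ := hS
  obtain ⟨n, hn⟩ := hker
  have hact0 : ∀ m, ρ.act m 0 = 0 := by
    intro m
    have := ρ.act_add m 0 0
    rw [add_zero] at this
    exact left_eq_add.1 this
  have hzero_act : ∀ r, ρ.act 0 r = 0 := by
    intro r
    have := ρ.add_act 0 0 r
    rw [add_zero] at this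
    exact left_eq_add.1 this
  set φ : M →+ M := AddMonoidHom.mk' (fun m => ρ.act m (f xR)) (fun a b => ρ.add_act a b _)
    with hφ
  rcases hsub φ.range (by
    rintro _ ⟨m, rfl⟩ s
    obtain ⟨r, rfl⟩ := hf s
    obtain ⟨r', hr'⟩ := comm_right r
    refine ⟨ρ.act m (f r'), ?_⟩
    change ρ.act (ρ.act m (f r')) (f xR) = ρ.act (ρ.act m (f xR)) (f r)
    rw [← ρ.act_mul, ← ρ.act_mul, ← map_mul, ← map_mul, hr']) with h | h
  · apply hfaith
    intro m
    have : φ m ∈ φ.range := ⟨m, rfl⟩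
    rw [h, AddSubgroup.mem_bot] at this
    exact this
  · exfalso
    have hsurj : ∀ m, ∃ m', ρ.act m' (f xR) = m := by
      intro m
      have : m ∈ φ.range := by rw [h]; exact AddSubgroup.mem_top m
      exact this
    have hpow : ∀ k : ℕ, ∀ m, ∃ m', ρ.act m' (f (xR ^ (k + 1))) = m := by
      intro k
      induction k with
      | zero => intro m; rw [zero_add, pow_one]; exact hsurj m
      | succ k ih =>
        intro m
        obtain ⟨m1, h1⟩ := hsurj m
        obtain ⟨m2, h2⟩ := ih m1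
        refine ⟨m2, ?_⟩
        rw [pow_succ, map_mul, ρ.act_mul, h2, h1]
    obtain ⟨m', hm'⟩ := hpow n m0
    rw [pow_succ, map_mul, hn, zero_mul, hact0] at hm'
    rw [← hm', hzero_act] at hm0
    exact hm0 rfl

lemma not_injective (hS : SubdirectlyIndecomposable S) : ∃ r : R, f r = 0 ∧ r ≠ 0 := by
  by_contra hcon
  push Not at hcon
  have hinj : Function.Injective f := by
    rw [injective_iff_map_eq_zero]
    intro r hr
    exact hcon r hr
  obtain ⟨_, hS2⟩ := hS
  apply hS2
  rw [eq_bot_iff]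
  intro s hs
  obtain ⟨r, rfl⟩ := hf s
  have hr : r = 0 := by
    apply eq_zero_of_div'
    intro n
    let J : TwoSidedIdeal S := TwoSidedIdeal.mk' {t | ∃ r' : R, t = f (xR ^ n * r')}
      ⟨0, by simp⟩
      (by
        rintro _ _ ⟨a, rfl⟩ ⟨b, rfl⟩
        exact ⟨a + b, by rw [mul_add, map_add]⟩)
      (by
        rintro _ ⟨a, rfl⟩
        exact ⟨-a, by rw [mul_neg, map_neg]⟩)
      (by
        rintro t _ ⟨a, rfl⟩
        obtain ⟨b, rfl⟩ := hf t
        obtain ⟨c, hc⟩ := comm_left_pow n b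
        exact ⟨c * a, by rw [← map_mul, ← mul_assoc, hc, mul_assoc]⟩)
      (by
        rintro _ t ⟨a, rfl⟩
        obtain ⟨b, rfl⟩ := hf t
        exact ⟨a * b, by rw [← map_mul, mul_assoc]⟩)
    have hJ : J ≠ ⊥ := by
      intro h
      have h1 : f (xR ^ n) ∈ J := by
        rw [TwoSidedIdeal.mem_mk']
        exact ⟨1, by rw [mul_one]⟩
      rw [h, TwoSidedIdeal.mem_bot] at h1
      exact x_pow_ne n (hinj (by rw [h1, map_zero]))
    have h2 : f r ∈ J := by
      rw [TwoSidedIdeal.mem_sInf] at hs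
      exact hs J hJ
    rw [TwoSidedIdeal.mem_mk'] at h2
    obtain ⟨r', hr'⟩ := h2
    exact ⟨r', hinj hr'⟩
  rw [hr, map_zero]
  exact TwoSidedIdeal.zero_mem _

end main

lemma kernel_pow {S : Type*} [NonUnitalRing S] (f : R →ₙ+* S) (h : ∃ r : R, f r = 0 ∧ r ≠ 0) :
    ∃ n : ℕ, f (xR ^ n) = 0 := by
  obtain ⟨r, hr, hr0⟩ := h
  let I : TwoSidedIdeal R := TwoSidedIdeal.mk' {t | f t = 0} (map_zero f)
    (by intro a b ha hb; rw [Set.mem_ofPred_eq] at *; rw [map_add, ha, hb, add_zero])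
    (by intro a ha; rw [Set.mem_ofPred_eq] at *; rw [map_neg, ha, neg_zero])
    (by intro a b hb; rw [Set.mem_ofPred_eq] at *; rw [map_mul, hb, mul_zero])
    (by intro a b hb; rw [Set.mem_ofPred_eq] at *; rw [map_mul, hb, zero_mul])
  have hI : I ≠ ⊥ := by
    intro h
    have h1 : r ∈ I := by
      rw [TwoSidedIdeal.mem_mk']
      exact hr
    rw [h, TwoSidedIdeal.mem_bot] at h1
    exact hr0 h1
  obtain ⟨n, hn⟩ := ideal_pow I hI
  rw [TwoSidedIdeal.mem_mk'] at hn
  exact ⟨n, hn⟩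

theorem main.{u, v, w} : ∃ (R : Type) (_ : NonUnitalRing R), RightPrimitive.{0, 0} R ∧
    ¬ ∃ (ι : Type u) (S : ι → Type v) (_ : ∀ i, NonUnitalRing (S i)) (f : ∀ i, R →ₙ+* S i),
      IsSubdirectProduct f ∧
      ∀ i, RightPrimitive.{v, w} (S i) ∧ SubdirectlyIndecomposable (S i) := by
  refine ⟨R, inferInstance, primitive_R, ?_⟩
  rintro ⟨ι, S, _, f, ⟨hsurj, hinj⟩, hS⟩
  have : xR = 0 := by
    apply hinj
    intro i
    exact f_x_eq_zero (f i) (hsurj i) (kernel_pow (f i) (not_injective (f i) (hsurj i) (hS i).2))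
      (hS i).1
  exact x_pow_ne 1 (by rw [pow_one, this])

end Pool.Agent.H26.Prim
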