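import Pool.Agent.H26.SemDefs

set_option autoImplicit false

namespace Pool.Agent.H26.Sem

theorem nat_mul (V : Submodule ℚ ℝ) (f : ℝ → ℝ)
    (hadd : ∀ x ∈ V, ∀ y ∈ V, 0 < x → 0 < y → f (x + y) = f x + f y)
    (x : ℝ) (hx : x ∈ V) (hx0 : 0 < x) (n : ℕ) (hn : 0 < n) :
    f (n * x) = n * f x := by
  induction n, hn using Nat.le_induction with
  | base => simp
  | succ n hn ih =>
    have h1 : ((n : ℝ) * x) ∈ V := by
      have := V.smul_mem (n : ℚ) hx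
      simpa [Algebra.smul_def] using this
    have h2 : (0 : ℝ) < n * x := mul_pos (by exact_mod_cast hn) hx0
    have e : ((n + 1 : ℕ) : ℝ) * x = n * x + x := by push_cast; ring
    rw [e, hadd _ h1 _ hx h2 hx0, ih]
    push_cast; ring

theorem key_le (V : Submodule ℚ ℝ) (f : ℝ → ℝ)
    (hadd : ∀ x ∈ V, ∀ y ∈ V, 0 < x → 0 < y → f (x + y) = f x + f y)
    (hpos : ∀ x ∈ V, 0 < x → 0 ≤ f x)
    (x : ℝ) (hx : x ∈ V) (y : ℝ) (hy : y ∈ V) (hx0 : 0 < x) (hy0 : 0 < y) :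
    f y * x ≤ f x * y := by
  by_contra hcon
  push Not at hcon
  have hfy : 0 < f y := by
    have h1 : 0 ≤ f x * y := mul_nonneg (hpos x hx hx0) hy0.le
    by_contra h
    have : f y * x ≤ 0 := mul_nonpos_of_nonpos_of_nonneg (not_lt.1 h) hx0.le
    linarith
  have h2 : f x / f y < x / y := by
    rw [div_lt_div_iff₀ hfy hy0]
    linarith
  obtain ⟨q, hq1, hq2⟩ := exists_rat_btwn h2
  have hq0 : (0 : ℝ) < q := lt_of_le_of_lt (div_nonneg (hpos x hx hx0) hfy.le) hq1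
  have hq0' : 0 < q := by exact_mod_cast hq0
  obtain ⟨m, n, hm, hn, rfl⟩ : ∃ m n : ℕ, 0 < m ∧ 0 < n ∧ q = (m : ℚ) / n := by
    refine ⟨q.num.toNat, q.den, ?_, q.den_pos, ?_⟩
    · have := Rat.num_pos.2 hq0'
      omega
    · have h3 : ((q.num.toNat : ℕ) : ℤ) = q.num := Int.toNat_of_nonneg (Rat.num_pos.2 hq0').le
      have h4 : ((q.num.toNat : ℕ) : ℚ) = (q.num : ℚ) := by exact_mod_cast h3
      rw [h4]
      exact (Rat.num_div_den q).symm
  have hn' : (0 : ℝ) < n := by exact_mod_cast hn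
  have hm' : (0 : ℝ) < m := by exact_mod_cast hm
  push_cast at hq1 hq2
  rw [div_lt_div_iff₀ hfy hn'] at hq1
  rw [div_lt_div_iff₀ hn' hy0] at hq2
  -- `f x * n < m * f y`, `m * y < x * n`
  have hmy : ((m : ℝ) * y) ∈ V := by
    have := V.smul_mem (m : ℚ) hy
    simpa [Algebra.smul_def] using this
  have hnx : ((n : ℝ) * x) ∈ V := by
    have := V.smul_mem (n : ℚ) hx
    simpa [Algebra.smul_def] using this
  have hz : (n : ℝ) * x - m * y ∈ V := V.sub_mem hnx hmy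
  have hz0 : 0 < (n : ℝ) * x - m * y := by linarith
  have e1 := hadd _ hmy _ hz (mul_pos hm' hy0) hz0
  have e2 : (m : ℝ) * y + (n * x - m * y) = n * x := by ring
  rw [e2, nat_mul V f hadd x hx hx0 n hn, nat_mul V f hadd y hy hy0 m hm] at e1
  have e3 := hpos _ hz hz0
  linarith

theorem key (V : Submodule ℚ ℝ) (f : ℝ → ℝ)
    (hadd : ∀ x ∈ V, ∀ y ∈ V, 0 < x → 0 < y → f (x + y) = f x + f y)
    (hpos : ∀ x ∈ V, 0 < x → 0 ≤ f x)
    (x : ℝ) (hx : x ∈ V) (y : ℝ) (hy : y ∈ V) (hx0 : 0 < x) (hy0 : 0 < y) :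
    f y * x = f x * y :=
  le_antisymm (key_le V f hadd hpos x hx y hy hx0 hy0) (key_le V f hadd hpos y hy x hx hy0 hx0)

theorem exists_pos (V : Submodule ℚ ℝ) (h1 : (1 : ℝ) ∈ V) (f : ℝ → ℝ)
    (hadd : ∀ x ∈ V, ∀ y ∈ V, 0 < x → 0 < y → f (x + y) = f x + f y)
    (hpos : ∀ x ∈ V, 0 < x → 0 ≤ f x) : ∀ x ∈ V, 0 < x → f x = f 1 * x := by
  intro x hx hx0
  have := key V f hadd hpos 1 h1 x hx one_pos hx0
  linarith

/-- a positive multiplier between positive parts extends to the subspaces -/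
theorem mult_ext (V W : Submodule ℚ ℝ) (_h1 : (1 : ℝ) ∈ V) (r : ℝ)
    (h : ∀ x ∈ V, 0 < x → r * x ∈ W) : ∀ x ∈ V, r * x ∈ W := by
  intro x hx
  rcases lt_trichotomy 0 x with h0 | h0 | h0
  · exact h x hx h0
  · rw [← h0, mul_zero]; exact W.zero_mem
  · have := h (-x) (V.neg_mem hx) (by linarith)
    have h2 := W.neg_mem this
    have e : -(r * -x) = r * x := by ring
    rwa [e] at h2

theorem smul_mem' (V : Submodule ℚ ℝ) (q : ℚ) (x : ℝ) (hx : x ∈ V) : (q : ℝ) * x ∈ V := by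
  have := V.smul_mem q hx
  simpa [Algebra.smul_def] using this

/-- the endomorphism `x ↦ q x` -/
def scal (V : Submodule ℚ ℝ) (q : {q : ℚ // 0 < q}) : AddHom (posPart V) (posPart V) where
  toFun := fun x => ⟨(q.1 : ℝ) * x.1, smul_mem' V q.1 _ x.2.1,
    mul_pos (by exact_mod_cast q.2) x.2.2⟩
  map_add' := fun x y => Subtype.ext (mul_add _ _ _)

theorem end_posPart (V : Submodule ℚ ℝ) (h1 : (1 : ℝ) ∈ V)
    (hV : ∀ r : ℝ, (∀ x ∈ V, r * x ∈ V) → ∃ q : ℚ, r = q) :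
    Nonempty (AddHom (posPart V) (posPart V) ≃+ {q : ℚ // 0 < q}) := by
  classical
  have hbij : Function.Bijective (scal V) := by
    constructor
    · intro p q h
      have := congrArg (fun g : AddHom (posPart V) (posPart V) => ((g ⟨1, h1, one_pos⟩ : posPart V) : ℝ)) h
      change (p.1 : ℝ) * 1 = (q.1 : ℝ) * 1 at this
      apply Subtype.ext
      have h2 : (p.1 : ℝ) = (q.1 : ℝ) := by linarith
      exact_mod_cast h2
    · intro g
      let f : ℝ → ℝ := fun x => if hx : x ∈ V ∧ 0 < x then ((g ⟨x, hx⟩ : posPart V) : ℝ) else 0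
      have hf : ∀ x (hx : x ∈ V ∧ 0 < x), f x = ((g ⟨x, hx⟩ : posPart V) : ℝ) := by
        intro x hx
        exact dif_pos hx
      have hadd : ∀ x ∈ V, ∀ y ∈ V, 0 < x → 0 < y → f (x + y) = f x + f y := by
        intro x hx y hy hx0 hy0
        rw [hf x ⟨hx, hx0⟩, hf y ⟨hy, hy0⟩, hf (x + y) ⟨V.add_mem hx hy, add_pos hx0 hy0⟩]
        have := g.map_add ⟨x, hx, hx0⟩ ⟨y, hy, hy0⟩
        have h2 := congrArg (fun z : posPart V => (z : ℝ)) this
        exact h2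
      have hpos : ∀ x ∈ V, 0 < x → 0 ≤ f x := by
        intro x hx hx0
        rw [hf x ⟨hx, hx0⟩]
        exact (g ⟨x, hx, hx0⟩).2.2.le
      have hlin := exists_pos V h1 f hadd hpos
      have hf1 : 0 < f 1 := by
        rw [hf 1 ⟨h1, one_pos⟩]
        exact (g ⟨1, h1, one_pos⟩).2.2
      obtain ⟨q, hq⟩ := hV (f 1) (mult_ext V V h1 (f 1) (fun x hx hx0 => by
        rw [← hlin x hx hx0, hf x ⟨hx, hx0⟩]
        exact (g ⟨x, hx, hx0⟩).2.1))
      have hq0 : 0 < q := by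
        rw [hq] at hf1
        exact_mod_cast hf1
      refine ⟨⟨q, hq0⟩, ?_⟩
      apply AddHom.ext
      rintro ⟨x, hx⟩
      apply Subtype.ext
      change (q : ℝ) * x = _
      rw [← hq, ← hlin x hx.1 hx.2, hf x hx]
  refine ⟨(AddEquiv.mk' (Equiv.ofBijective (scal V) hbij) ?_).symm⟩
  intro p q
  apply AddHom.ext
  intro x
  apply Subtype.ext
  change (((p + q : {q : ℚ // 0 < q}).1 : ℚ) : ℝ) * x.1 = (p.1 : ℝ) * x.1 + (q.1 : ℝ) * x.1
  rw [← add_mul]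
  congr 1
  push_cast
  rfl

/-- the endomorphism `x ↦ q x` -/
def scal0 (V : Submodule ℚ ℝ) (q : {q : ℚ // 0 ≤ q}) : AddHom (nonnegPart V) (nonnegPart V) where
  toFun := fun x => ⟨(q.1 : ℝ) * x.1, smul_mem' V q.1 _ x.2.1,
    mul_nonneg (by exact_mod_cast q.2) x.2.2⟩
  map_add' := fun x y => Subtype.ext (mul_add _ _ _)

theorem end_nonnegPart (V : Submodule ℚ ℝ) (h1 : (1 : ℝ) ∈ V)
    (hV : ∀ r : ℝ, (∀ x ∈ V, r * x ∈ V) → ∃ q : ℚ, r = q) :
    Nonempty (AddHom (nonnegPart V) (nonnegPart V) ≃+ {q : ℚ // 0 ≤ q}) := by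
  classical
  have hbij : Function.Bijective (scal0 V) := by
    constructor
    · intro p q h
      have := congrArg (fun g : AddHom (nonnegPart V) (nonnegPart V) =>
        ((g ⟨1, h1, zero_le_one⟩ : nonnegPart V) : ℝ)) h
      change (p.1 : ℝ) * 1 = (q.1 : ℝ) * 1 at this
      apply Subtype.ext
      have h2 : (p.1 : ℝ) = (q.1 : ℝ) := by linarith
      exact_mod_cast h2
    · intro g
      let f : ℝ → ℝ := fun x => if hx : x ∈ V ∧ 0 ≤ x then ((g ⟨x, hx⟩ : nonnegPart V) : ℝ) else 0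
      have hf : ∀ x (hx : x ∈ V ∧ 0 ≤ x), f x = ((g ⟨x, hx⟩ : nonnegPart V) : ℝ) := by
        intro x hx
        exact dif_pos hx
      have hadd0 : ∀ x ∈ V, ∀ y ∈ V, 0 ≤ x → 0 ≤ y → f (x + y) = f x + f y := by
        intro x hx y hy hx0 hy0
        rw [hf x ⟨hx, hx0⟩, hf y ⟨hy, hy0⟩, hf (x + y) ⟨V.add_mem hx hy, add_nonneg hx0 hy0⟩]
        have := g.map_add ⟨x, hx, hx0⟩ ⟨y, hy, hy0⟩
        have h2 := congrArg (fun z : nonnegPart V => (z : ℝ)) this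
        exact h2
      have hadd : ∀ x ∈ V, ∀ y ∈ V, 0 < x → 0 < y → f (x + y) = f x + f y :=
        fun x hx y hy hx0 hy0 => hadd0 x hx y hy hx0.le hy0.le
      have hpos : ∀ x ∈ V, 0 < x → 0 ≤ f x := by
        intro x hx hx0
        rw [hf x ⟨hx, hx0.le⟩]
        exact (g ⟨x, hx, hx0.le⟩).2.2
      have hf0 : f 0 = 0 := by
        have := hadd0 0 V.zero_mem 0 V.zero_mem le_rfl le_rfl
        rw [add_zero] at this
        linarith
      have hlin := exists_pos V h1 f hadd hpos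
      have hlin0 : ∀ x ∈ V, 0 ≤ x → f x = f 1 * x := by
        intro x hx hx0
        rcases hx0.eq_or_lt with h | h
        · rw [← h, hf0, mul_zero]
        · exact hlin x hx h
      obtain ⟨q, hq⟩ := hV (f 1) (mult_ext V V h1 (f 1) (fun x hx hx0 => by
        rw [← hlin x hx hx0, hf x ⟨hx, hx0.le⟩]
        exact (g ⟨x, hx, hx0.le⟩).2.1))
      have hq0 : 0 ≤ q := by
        have := hpos 1 h1 one_pos
        rw [hq] at this
        exact_mod_cast this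
      refine ⟨⟨q, hq0⟩, ?_⟩
      apply AddHom.ext
      rintro ⟨x, hx⟩
      apply Subtype.ext
      change (q : ℝ) * x = _
      rw [← hq, ← hlin0 x hx.1 hx.2, hf x hx]
  refine ⟨(AddEquiv.mk' (Equiv.ofBijective (scal0 V) hbij) ?_).symm⟩
  intro p q
  apply AddHom.ext
  intro x
  apply Subtype.ext
  change (((p + q : {q : ℚ // 0 ≤ q}).1 : ℚ) : ℝ) * x.1 = (p.1 : ℝ) * x.1 + (q.1 : ℝ) * x.1
  rw [← add_mul]
  congr 1
  push_cast
  rfl

/-- isomorphic positive parts: multiplier -/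
theorem iso_posPart (V W : Submodule ℚ ℝ) (h1 : (1 : ℝ) ∈ V) (g : posPart V ≃+ posPart W) :
    ∃ r : ℝ, r ≠ 0 ∧ ∀ x ∈ V, r * x ∈ W := by
  classical
  let f : ℝ → ℝ := fun x => if hx : x ∈ V ∧ 0 < x then ((g ⟨x, hx⟩ : posPart W) : ℝ) else 0
  have hf : ∀ x (hx : x ∈ V ∧ 0 < x), f x = ((g ⟨x, hx⟩ : posPart W) : ℝ) := by
    intro x hx
    exact dif_pos hx
  have hadd : ∀ x ∈ V, ∀ y ∈ V, 0 < x → 0 < y → f (x + y) = f x + f y := by
    intro x hx y hy hx0 hy0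
    rw [hf x ⟨hx, hx0⟩, hf y ⟨hy, hy0⟩, hf (x + y) ⟨V.add_mem hx hy, add_pos hx0 hy0⟩]
    have := g.map_add ⟨x, hx, hx0⟩ ⟨y, hy, hy0⟩
    have h2 := congrArg (fun z : posPart W => (z : ℝ)) this
    exact h2
  have hpos : ∀ x ∈ V, 0 < x → 0 ≤ f x := by
    intro x hx hx0
    rw [hf x ⟨hx, hx0⟩]
    exact (g ⟨x, hx, hx0⟩).2.2.le
  have hlin := exists_pos V h1 f hadd hpos
  have hf1 : 0 < f 1 := by
    rw [hf 1 ⟨h1, one_pos⟩]
    exact (g ⟨1, h1, one_pos⟩).2.2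
  refine ⟨f 1, hf1.ne', mult_ext V W h1 (f 1) (fun x hx hx0 => ?_)⟩
  rw [← hlin x hx hx0, hf x ⟨hx, hx0⟩]
  exact (g ⟨x, hx, hx0⟩).2.1

theorem iso_nonnegPart (V W : Submodule ℚ ℝ) (h1 : (1 : ℝ) ∈ V) (g : nonnegPart V ≃+ nonnegPart W) :
    ∃ r : ℝ, r ≠ 0 ∧ ∀ x ∈ V, r * x ∈ W := by
  classical
  let f : ℝ → ℝ := fun x => if hx : x ∈ V ∧ 0 ≤ x then ((g ⟨x, hx⟩ : nonnegPart W) : ℝ) else 0
  have hf : ∀ x (hx : x ∈ V ∧ 0 ≤ x), f x = ((g ⟨x, hx⟩ : nonnegPart W) : ℝ) := by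
    intro x hx
    exact dif_pos hx
  have hadd0 : ∀ x ∈ V, ∀ y ∈ V, 0 ≤ x → 0 ≤ y → f (x + y) = f x + f y := by
    intro x hx y hy hx0 hy0
    rw [hf x ⟨hx, hx0⟩, hf y ⟨hy, hy0⟩, hf (x + y) ⟨V.add_mem hx hy, add_nonneg hx0 hy0⟩]
    have := g.map_add ⟨x, hx, hx0⟩ ⟨y, hy, hy0⟩
    have h2 := congrArg (fun z : nonnegPart W => (z : ℝ)) this
    exact h2
  have hadd : ∀ x ∈ V, ∀ y ∈ V, 0 < x → 0 < y → f (x + y) = f x + f y :=
    fun x hx y hy hx0 hy0 => hadd0 x hx y hy hx0.le hy0.le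
  have hpos : ∀ x ∈ V, 0 < x → 0 ≤ f x := by
    intro x hx hx0
    rw [hf x ⟨hx, hx0.le⟩]
    exact (g ⟨x, hx, hx0.le⟩).2.2
  have hlin := exists_pos V h1 f hadd hpos
  have hf0 : f 0 = 0 := by
    have := hadd0 0 V.zero_mem 0 V.zero_mem le_rfl le_rfl
    rw [add_zero] at this
    linarith
  have hf1 : f 1 ≠ 0 := by
    intro h
    rw [hf 1 ⟨h1, zero_le_one⟩] at h
    rw [hf 0 ⟨V.zero_mem, le_rfl⟩] at hf0
    have h2 : g ⟨1, h1, zero_le_one⟩ = g ⟨0, V.zero_mem, le_rfl⟩ :=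
      Subtype.ext (h.trans hf0.symm)
    have h3 := g.injective h2
    have h4 := congrArg (fun z : nonnegPart V => (z : ℝ)) h3
    exact one_ne_zero h4
  refine ⟨f 1, hf1, mult_ext V W h1 (f 1) (fun x hx hx0 => ?_)⟩
  rw [← hlin x hx hx0, hf x ⟨hx, hx0.le⟩]
  exact (g ⟨x, hx, hx0.le⟩).2.1

end Pool.Agent.H26.Sem
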