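import Pool.Agent.H26.SemA

set_option autoImplicit false

namespace Pool.Agent.H26.Sem

open MvPolynomial

/-- the `ℚ`-span of `1` and of the `x i`, `i ∈ A`, as the image of the polynomials of degree `≤ 1`
in the variables from `A` -/
noncomputable def VV {ι : Type} (x : ι → ℝ) (A : Set ι) : Submodule ℚ ℝ :=
  Submodule.span ℚ ({(1 : ℝ)} ∪ x '' A)

theorem one_mem_VV {ι : Type} (x : ι → ℝ) (A : Set ι) : (1 : ℝ) ∈ VV x A :=
  Submodule.subset_span (Or.inl rfl)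

theorem x_mem_VV {ι : Type} (x : ι → ℝ) (A : Set ι) (i : ι) (hi : i ∈ A) : x i ∈ VV x A :=
  Submodule.subset_span (Or.inr ⟨i, hi, rfl⟩)

theorem VV_poly {ι : Type} (x : ι → ℝ) (A : Set ι) (y : ℝ) (hy : y ∈ VV x A) :
    ∃ p : MvPolynomial ι ℚ, p.totalDegree ≤ 1 ∧
      (∀ j, j ∉ A → p.coeff (Finsupp.single j 1) = 0) ∧ aeval x p = y := by
  classical
  induction hy using Submodule.span_induction with
  | mem y hy =>
    rcases hy with rfl | ⟨i, hi, rfl⟩
    · refine ⟨1, by simp, fun j _ => ?_, by simp⟩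
      rw [coeff_one, if_neg]
      intro h
      have := congrArg (fun m : ι →₀ ℕ => m j) h
      simp at this
    · refine ⟨X i, by simp [totalDegree_X], fun j hj => ?_, by simp⟩
      rw [coeff_X, if_neg]
      intro h
      have := congrArg (fun m : ι →₀ ℕ => m i) h
      simp [Finsupp.single_apply] at this
      exact hj (this ▸ hi)
  | zero => exact ⟨0, by simp, by simp, by simp⟩
  | add a b _ _ iha ihb =>
    obtain ⟨p, hp1, hp2, hp3⟩ := iha
    obtain ⟨q, hq1, hq2, hq3⟩ := ihb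
    refine ⟨p + q, (totalDegree_add p q).trans (max_le hp1 hq1), fun j hj => ?_, ?_⟩
    · rw [coeff_add, hp2 j hj, hq2 j hj, add_zero]
    · rw [map_add, hp3, hq3]
  | smul c a _ iha =>
    obtain ⟨p, hp1, hp2, hp3⟩ := iha
    refine ⟨c • p, (totalDegree_smul_le c p).trans hp1, fun j hj => ?_, ?_⟩
    · rw [coeff_smul, hp2 j hj, smul_zero]
    · rw [map_smul, hp3]

theorem VV_mult {ι : Type} (x : ι → ℝ) (hx : AlgebraicIndependent ℚ x) (A B : Set ι)
    (a : ι) (ha : a ∈ A) (r : ℝ) (hr : r ≠ 0) (h : ∀ y ∈ VV x A, r * y ∈ VV x B) :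
    (∃ q : ℚ, r = q) ∧ A ⊆ B := by
  classical
  obtain ⟨p, hp1, hp2, hp3⟩ := VV_poly x B r (by simpa using h 1 (one_mem_VV x A))
  have hp0 : p ≠ 0 := by
    rintro rfl
    rw [map_zero] at hp3
    exact hr hp3.symm
  have hmul : ∀ j ∈ A, ∃ q : MvPolynomial ι ℚ, q.totalDegree ≤ 1 ∧
      (∀ j, j ∉ B → q.coeff (Finsupp.single j 1) = 0) ∧ p * X j = q := by
    intro j hj
    obtain ⟨q, hq1, hq2, hq3⟩ := VV_poly x B (r * x j) (h _ (x_mem_VV x A j hj))
    refine ⟨q, hq1, hq2, hx ?_⟩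
    change aeval x (p * X j) = aeval x q
    rw [map_mul, hp3, hq3, aeval_X]
  have hdeg : p.totalDegree = 0 := by
    obtain ⟨q, hq1, _, hq3⟩ := hmul a ha
    have : (p * X a).totalDegree = p.totalDegree + 1 := by
      rw [totalDegree_mul_of_isDomain hp0 (X_ne_zero a), totalDegree_X]
    rw [hq3] at this
    omega
  have hpC : p = C (p.coeff 0) := totalDegree_eq_zero_iff_eq_C.1 hdeg
  set c := p.coeff 0 with hc
  have hc0 : c ≠ 0 := by
    intro h0
    rw [h0, C_0] at hpC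
    exact hp0 hpC
  refine ⟨⟨c, ?_⟩, ?_⟩
  · rw [← hp3, hpC, aeval_C]
    rfl
  · intro j hj
    by_contra hjB
    obtain ⟨q, _, hq2, hq3⟩ := hmul j hj
    have h1 := hq2 j hjB
    rw [← hq3, hpC, coeff_C_mul, coeff_X, if_pos rfl, mul_one] at h1
    exact hc0 h1

theorem VV_rat {ι : Type} (x : ι → ℝ) (hx : AlgebraicIndependent ℚ x) (A : Set ι)
    (a : ι) (ha : a ∈ A) (r : ℝ) (h : ∀ y ∈ VV x A, r * y ∈ VV x A) : ∃ q : ℚ, r = q := by
  by_cases hr : r = 0
  · exact ⟨0, by simp [hr]⟩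
  · exact (VV_mult x hx A A a ha r hr h).1

/-- the index sets `{none} ∪ some '' A` -/
def ext (A : Set ℝ) : Set (Option ℝ) := {none} ∪ some '' A

theorem ext_inj {A B : Set ℝ} (h1 : ext A ⊆ ext B) (h2 : ext B ⊆ ext A) : A = B := by
  apply Set.Subset.antisymm
  · intro a ha
    rcases h1 (Or.inr ⟨a, ha, rfl⟩) with h | ⟨b, hb, h⟩
    · simp at h
    · rw [← Option.some_injective _ h]; exact hb
  · intro a ha
    rcases h2 (Or.inr ⟨a, ha, rfl⟩) with h | ⟨b, hb, h⟩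
    · simp at h
    · rw [← Option.some_injective _ h]; exact hb

theorem fam_pos (x : Option ℝ → ℝ) (hx : AlgebraicIndependent ℚ x) :
    ∃ S : Set ℝ → AddSubsemigroup ℝ, (∀ A, ∀ x ∈ S A, 0 < x) ∧
      (∀ A, Nonempty (AddHom (S A) (S A) ≃+ {q : ℚ // 0 < q})) ∧
      ∀ A B, A ≠ B → IsEmpty (S A ≃+ S B) := by
  refine ⟨fun A => posPart (VV x (ext A)), fun A y hy => hy.2, fun A => ?_, fun A B hAB => ⟨fun g => hAB ?_⟩⟩
  · exact end_posPart _ (one_mem_VV x _)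
      (fun r hr => VV_rat x hx (ext A) none (Or.inl rfl) r hr)
  · obtain ⟨r, hr, h1⟩ := iso_posPart _ _ (one_mem_VV x _) g
    obtain ⟨s, hs, h2⟩ := iso_posPart _ _ (one_mem_VV x _) g.symm
    exact ext_inj (VV_mult x hx _ _ none (Or.inl rfl) r hr h1).2
      (VV_mult x hx _ _ none (Or.inl rfl) s hs h2).2

theorem fam_nonneg (x : Option ℝ → ℝ) (hx : AlgebraicIndependent ℚ x) :
    ∃ S : Set ℝ → AddSubsemigroup ℝ, (∀ A, ∀ x ∈ S A, 0 ≤ x) ∧
      (∀ A, Nonempty (AddHom (S A) (S A) ≃+ {q : ℚ // 0 ≤ q})) ∧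
      ∀ A B, A ≠ B → IsEmpty (S A ≃+ S B) := by
  refine ⟨fun A => nonnegPart (VV x (ext A)), fun A y hy => hy.2, fun A => ?_, fun A B hAB => ⟨fun g => hAB ?_⟩⟩
  · exact end_nonnegPart _ (one_mem_VV x _)
      (fun r hr => VV_rat x hx (ext A) none (Or.inl rfl) r hr)
  · obtain ⟨r, hr, h1⟩ := iso_nonnegPart _ _ (one_mem_VV x _) g
    obtain ⟨s, hs, h2⟩ := iso_nonnegPart _ _ (one_mem_VV x _) g.symm
    exact ext_inj (VV_mult x hx _ _ none (Or.inl rfl) r hr h1).2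
      (VV_mult x hx _ _ none (Or.inl rfl) s hs h2).2

end Pool.Agent.H26.Sem
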