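import Pool.Agent.H26.SemP

set_option autoImplicit false

namespace Pool.Agent.H26.Sem

theorem coe_nm0 (n : ℕ) (q : {q : ℚ // 0 ≤ q}) :
    ((nm n q : {q : ℚ // 0 ≤ q}) : ℚ) = (n + 1) * q := by
  induction n with
  | zero => show (q : ℚ) = _; push_cast; ring
  | succ n ih =>
    show ((nm n q + q : {q : ℚ // 0 ≤ q}) : ℚ) = _
    show ((nm n q : {q : ℚ // 0 ≤ q}) : ℚ) + (q : ℚ) = _
    rw [ih]
    push_cast; ring

theorem exists_frac0 (c : {q : ℚ // 0 ≤ q}) (hc : 0 < c.1) :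
    ∃ m n : ℕ, nm m c = nm n (⟨1, zero_le_one⟩ : {q : ℚ // 0 ≤ q}) := by
  obtain ⟨m, n, h⟩ := exists_frac ⟨c.1, hc⟩
  refine ⟨m, n, Subtype.ext ?_⟩
  have h2 := congrArg Subtype.val h
  rw [coe_nm, coe_nm] at h2
  rw [coe_nm0, coe_nm0]
  exact h2

theorem linear_of_add0 (f : AddHom {q : ℚ // 0 ≤ q} {q : ℚ // 0 ≤ q}) (r : {q : ℚ // 0 ≤ q}) :
    (f r : ℚ) = r * (f ⟨1, zero_le_one⟩ : ℚ) := by
  rcases r.2.eq_or_lt with h0 | h0
  · have hr : r = ⟨0, le_rfl⟩ := Subtype.ext h0.symm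
    have h1 : (⟨0, le_rfl⟩ : {q : ℚ // 0 ≤ q}) + ⟨0, le_rfl⟩ = ⟨0, le_rfl⟩ :=
      Subtype.ext (show (0 : ℚ) + 0 = 0 by ring)
    have h2 := f.map_add ⟨0, le_rfl⟩ ⟨0, le_rfl⟩
    rw [h1] at h2
    have h3 := congrArg Subtype.val h2
    have h4 : ((f ⟨0, le_rfl⟩ : {q : ℚ // 0 ≤ q}) : ℚ) =
      (f ⟨0, le_rfl⟩ : {q : ℚ // 0 ≤ q}) + (f ⟨0, le_rfl⟩ : {q : ℚ // 0 ≤ q}) := h3
    rw [hr]
    show ((f ⟨0, le_rfl⟩ : {q : ℚ // 0 ≤ q}) : ℚ) = 0 * _
    linarith
  · obtain ⟨m, n, h⟩ := exists_frac0 r h0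
    have h1 : nm m (f r) = nm n (f ⟨1, zero_le_one⟩) := by
      rw [← map_nm, ← map_nm, h]
    have h2 := congrArg Subtype.val h1
    rw [coe_nm0, coe_nm0] at h2
    have h3 := congrArg Subtype.val h
    rw [coe_nm0, coe_nm0] at h3
    simp only [mul_one] at h3
    have hm : ((m : ℚ) + 1) ≠ 0 := by positivity
    apply mul_left_cancel₀ hm
    rw [h2, ← h3]; ring

theorem iso_of_hom0 {S : Type} [AddCommSemigroup S] (e : AddHom S S ≃+ {q : ℚ // 0 ≤ q})
    (h : AddHom S {q : ℚ // 0 ≤ q}) (hne : ∃ s, h s ≠ 0) :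
    Nonempty (S ≃+ {q : ℚ // 0 ≤ q}) := by
  classical
  obtain ⟨s, hs0⟩ := hne
  have hsv : (h s : ℚ) ≠ 0 := fun h0 => hs0 (Subtype.ext h0)
  have hspos : 0 < (h s : ℚ) := lt_of_le_of_ne (h s).2 (Ne.symm hsv)
  set u : {q : ℚ // 0 ≤ q} := e (AddHom.id S) with hu
  have hu0 : (u : ℚ) ≠ 0 := by
    intro h0
    have h1 : u + u = u := Subtype.ext (show (u : ℚ) + u = u by rw [h0]; ring)
    have h2 : AddHom.id S + AddHom.id S = AddHom.id S := by
      apply e.injective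
      rw [map_add]
      exact h1
    have h3 : s + s = s := congrArg (fun G : AddHom S S => G s) h2
    have h4 := h.map_add s s
    rw [h3] at h4
    have h5 : (h s : ℚ) = (h s : ℚ) + (h s : ℚ) := congrArg Subtype.val h4
    exact hsv (by linarith)
  let φ : AddHom {q : ℚ // 0 ≤ q} (AddHom S S) :=
    { toFun := fun q => e.symm (q * u)
      map_add' := fun p q => by
        rw [← map_add]
        congr 1
        apply Subtype.ext
        show ((p : ℚ) + q) * u = p * u + q * u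
        ring }
  have hφ : ∀ q, φ q = e.symm (q * u) := fun q => rfl
  have h1 : φ ⟨1, zero_le_one⟩ = AddHom.id S := by
    rw [hφ]
    have : (⟨1, zero_le_one⟩ : {q : ℚ // 0 ≤ q}) * u = u := by
      apply Subtype.ext; show (1 : ℚ) * u = u; ring
    rw [this, hu, AddEquiv.symm_apply_apply]
  have hall : ∀ ψ : AddHom S S, ∃ c, ψ = φ c := by
    intro ψ
    refine ⟨⟨(e ψ : ℚ) / u, div_nonneg (e ψ).2 u.2⟩, ?_⟩
    rw [hφ]
    apply e.injective
    rw [AddEquiv.apply_symm_apply]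
    apply Subtype.ext
    show (e ψ : ℚ) = (e ψ : ℚ) / u * u
    field_simp
  have hev : ∀ (n : ℕ) (q : {q : ℚ // 0 ≤ q}) (x : S), φ (nm n q) x = nm n (φ q x) := by
    intro n q x
    induction n with
    | zero => rfl
    | succ n ih =>
      show φ (nm n q + q) x = nm n (φ q x) + φ q x
      rw [map_add, AddHom.add_apply, ih]
  have hinj : ∀ (c : {q : ℚ // 0 ≤ q}), 0 < c.1 → ∀ (x y : S), φ c x = φ c y → x = y := by
    intro c hc x y hxy
    obtain ⟨m, n, hmn⟩ := exists_frac0 c hc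
    have h2 : nm n x = nm n y := by
      have h3 : ∀ z, nm m (φ c z) = nm n z := by
        intro z
        rw [← hev, hmn, hev, h1]; rfl
      rw [← h3, ← h3, hxy]
    have hd : (0 : ℚ) ≤ 1 / (n + 1) := by positivity
    have h4 : nm n (⟨1 / (n + 1), hd⟩ : {q : ℚ // 0 ≤ q}) = ⟨1, zero_le_one⟩ := by
      apply Subtype.ext
      rw [coe_nm0]
      show ((n : ℚ) + 1) * (1 / (n + 1)) = 1
      field_simp
    have h5 : ∀ z : S, φ ⟨1 / (n + 1), hd⟩ (nm n z) = z := by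
      intro z
      rw [map_nm, ← hev, h4, h1]; rfl
    rw [← h5 x, ← h5 y, h2]
  let g : S → AddHom {q : ℚ // 0 ≤ q} {q : ℚ // 0 ≤ q} := fun z =>
    { toFun := fun q => h (φ q z)
      map_add' := fun p q => by
        rw [map_add, AddHom.add_apply, map_add] }
  have hg : ∀ (z : S) (r : {q : ℚ // 0 ≤ q}), (h (φ r z) : ℚ) = r * h z := by
    intro z r
    have hg1 : g z ⟨1, zero_le_one⟩ = h z := by
      show h (φ ⟨1, zero_le_one⟩ z) = h z
      rw [h1]; rfl
    have h2 := linear_of_add0 (g z) r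
    rw [hg1] at h2
    exact h2
  -- the homomorphism `x ↦ φ (h x) s`
  let F : AddHom S S :=
    { toFun := fun x => φ (h x) s
      map_add' := fun x y => by
        rw [map_add, map_add, AddHom.add_apply] }
  obtain ⟨c, hc⟩ := hall F
  have hF : ∀ x, φ (h x) s = φ c x := fun x => by
    have := congrArg (fun G : AddHom S S => G x) hc
    exact this
  have hcpos : 0 < c.1 := by
    have h2 : (h (φ (h s) s) : ℚ) = (h (φ c s) : ℚ) := by rw [hF s]
    rw [hg, hg] at h2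
    have h3 : (h s : ℚ) = c := mul_right_cancel₀ hsv h2
    rw [← h3]
    exact hspos
  have hi : Function.Injective h := by
    intro x y hxy
    apply hinj c hcpos
    rw [← hF, ← hF, hxy]
  have hs : Function.Surjective h := by
    intro t
    refine ⟨φ ⟨(t : ℚ) / h s, div_nonneg t.2 (h s).2⟩ s, ?_⟩
    apply Subtype.ext
    rw [hg]
    show (t : ℚ) / h s * h s = t
    field_simp
  exact ⟨AddEquiv.ofBijective h ⟨hi, hs⟩⟩

end Pool.Agent.H26.Sem
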