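import Pool.Agent.H26.SemB
import Pool.Agent.H26.SemP2

set_option autoImplicit false

namespace Pool.Agent.H26.Sem

theorem nm_mul_pos (n : ℕ) (c u : {q : ℚ // 0 < q}) : nm n c * u = nm n (c * u) := by
  apply Subtype.ext
  show ((nm n c : {q : ℚ // 0 < q}) : ℚ) * (u : ℚ) = ((nm n (c * u) : {q : ℚ // 0 < q}) : ℚ)
  rw [coe_nm, coe_nm]
  show _ = ((n : ℚ) + 1) * ((c : ℚ) * u)
  ring

theorem end_frac {S : Type} [AddCommSemigroup S] (e : AddHom S S ≃+ {q : ℚ // 0 < q})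
    (ψ : AddHom S S) : ∃ m n : ℕ, ∀ x, nm m (ψ x) = nm n x := by
  set u : {q : ℚ // 0 < q} := e (AddHom.id S) with hu
  have hu0 : (u : ℚ) ≠ 0 := u.2.ne'
  obtain ⟨m, n, hmn⟩ := exists_frac ⟨(e ψ : ℚ) / u, div_pos (e ψ).2 u.2⟩
  refine ⟨m, n, fun x => ?_⟩
  have h1 : e (nm m ψ) = e (nm n (AddHom.id S)) := by
    have a1 : e (nm m ψ) = nm m (e ψ) := map_nm (e : AddHom S S ≃+ {q : ℚ // 0 < q}).toAddHom m ψ
    have a2 : e (nm n (AddHom.id S)) = nm n u :=
      map_nm (e : AddHom S S ≃+ {q : ℚ // 0 < q}).toAddHom n (AddHom.id S)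
    rw [a1, a2]
    have h2 := congrArg Subtype.val hmn
    rw [coe_nm, coe_nm] at h2
    apply Subtype.ext
    rw [coe_nm, coe_nm]
    have h3 : ((m : ℚ) + 1) * ((e ψ : ℚ) / u) = (n + 1) * 1 := h2
    field_simp at h3
    linarith
  have h2 := e.injective h1
  have ev : ∀ (k : ℕ) (f : AddHom S S), (nm k f) x = nm k (f x) := by
    intro k f
    induction k with
    | zero => rfl
    | succ k ih =>
      show nm k f x + f x = nm k (f x) + f x
      rw [ih]
  have h3 := congrArg (fun G : AddHom S S => G x) h2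
  have h4 : nm m (ψ x) = nm n ((AddHom.id S) x) := by rw [← ev, ← ev]; exact h3
  exact h4

theorem end_frac0 {S : Type} [AddCommSemigroup S] (e : AddHom S S ≃+ {q : ℚ // 0 ≤ q})
    (ψ : AddHom S S) (hψ : ψ + ψ ≠ ψ) (hid : AddHom.id S + AddHom.id S ≠ AddHom.id S) :
    ∃ m n : ℕ, ∀ x, nm m (ψ x) = nm n x := by
  have hz : ∀ f : AddHom S S, f + f ≠ f → 0 < (e f : ℚ) := by
    intro f hf
    refine lt_of_le_of_ne (e f).2 (fun h0 => hf ?_)
    apply e.injective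
    rw [map_add]
    apply Subtype.ext
    show (e f : ℚ) + (e f : ℚ) = (e f : ℚ)
    rw [← h0]; ring
  set u : {q : ℚ // 0 ≤ q} := e (AddHom.id S) with hu
  have hupos : 0 < (u : ℚ) := hz _ hid
  have hu0 : (u : ℚ) ≠ 0 := hupos.ne'
  have hc : 0 < (e ψ : ℚ) / u := div_pos (hz _ hψ) hupos
  obtain ⟨m, n, hmn⟩ := exists_frac ⟨(e ψ : ℚ) / u, hc⟩
  refine ⟨m, n, fun x => ?_⟩
  have h1 : e (nm m ψ) = e (nm n (AddHom.id S)) := by
    have a1 : e (nm m ψ) = nm m (e ψ) := map_nm (e : AddHom S S ≃+ {q : ℚ // 0 ≤ q}).toAddHom m ψ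
    have a2 : e (nm n (AddHom.id S)) = nm n u :=
      map_nm (e : AddHom S S ≃+ {q : ℚ // 0 ≤ q}).toAddHom n (AddHom.id S)
    rw [a1, a2]
    have h2 := congrArg Subtype.val hmn
    rw [coe_nm, coe_nm] at h2
    apply Subtype.ext
    rw [coe_nm0, coe_nm0]
    have h3 : ((m : ℚ) + 1) * ((e ψ : ℚ) / u) = (n + 1) * 1 := h2
    field_simp at h3
    linarith
  have h2 := e.injective h1
  have ev : ∀ (k : ℕ) (f : AddHom S S), (nm k f) x = nm k (f x) := by
    intro k f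
    induction k with
    | zero => rfl
    | succ k ih =>
      show nm k f x + f x = nm k (f x) + f x
      rw [ih]
  have h3 := congrArg (fun G : AddHom S S => G x) h2
  have h4 : nm m (ψ x) = nm n ((AddHom.id S) x) := by rw [← ev, ← ev]; exact h3
  exact h4

theorem coe_nm_sub (T : AddSubsemigroup ℝ) (n : ℕ) (x : T) :
    ((nm n x : T) : ℝ) = (n + 1) * (x : ℝ) := by
  induction n with
  | zero => show (x : ℝ) = _; push_cast; ring
  | succ n ih =>
    show ((nm n x + x : T) : ℝ) = _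
    show ((nm n x : T) : ℝ) + (x : ℝ) = _
    rw [ih]
    push_cast; ring

theorem rat_of_eq (m n : ℕ) (r : ℝ) (h : ((m : ℝ) + 1) * r = (n + 1) * 1) : ∃ q : ℚ, r = q := by
  refine ⟨((n : ℚ) + 1) / (m + 1), ?_⟩
  push_cast
  have : ((m : ℝ) + 1) ≠ 0 := by positivity
  field_simp
  linarith

theorem solves1_iff (V : Submodule ℚ ℝ) (h1 : (1 : ℝ) ∈ V) :
    Nonempty (AddHom (posPart V) (posPart V) ≃+ {q : ℚ // 0 < q}) ↔
      ∀ r : ℝ, (∀ x ∈ V, r * x ∈ V) → ∃ q : ℚ, r = q := by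
  refine ⟨?_, end_posPart V h1⟩
  rintro ⟨e⟩
  have hp : ∀ r : ℝ, 0 < r → (∀ x ∈ V, r * x ∈ V) → ∃ q : ℚ, r = q := by
    intro r hr h
    let ψ : AddHom (posPart V) (posPart V) :=
      { toFun := fun x => ⟨r * x.1, h _ x.2.1, mul_pos hr x.2.2⟩
        map_add' := fun x y => Subtype.ext (mul_add _ _ _) }
    obtain ⟨m, n, hmn⟩ := end_frac e ψ
    have h2 := congrArg Subtype.val (hmn ⟨1, h1, one_pos⟩)
    rw [coe_nm_sub, coe_nm_sub] at h2
    have h3 : ((m : ℝ) + 1) * (r * 1) = (n + 1) * 1 := h2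
    exact rat_of_eq m n r (by rw [mul_one] at h3; exact h3)
  intro r h
  rcases lt_trichotomy 0 r with h0 | h0 | h0
  · exact hp r h0 h
  · exact ⟨0, by rw [← h0]; simp⟩
  · obtain ⟨q, hq⟩ := hp (-r) (by linarith) (fun x hx => by
      have := V.neg_mem (h x hx)
      rwa [← neg_mul] at this)
    exact ⟨-q, by push_cast; linarith⟩

theorem solves2_iff (V : Submodule ℚ ℝ) (h1 : (1 : ℝ) ∈ V) :
    Nonempty (AddHom (nonnegPart V) (nonnegPart V) ≃+ {q : ℚ // 0 ≤ q}) ↔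
      ∀ r : ℝ, (∀ x ∈ V, r * x ∈ V) → ∃ q : ℚ, r = q := by
  refine ⟨?_, end_nonnegPart V h1⟩
  rintro ⟨e⟩
  have hp : ∀ r : ℝ, 0 < r → (∀ x ∈ V, r * x ∈ V) → ∃ q : ℚ, r = q := by
    intro r hr h
    let ψ : AddHom (nonnegPart V) (nonnegPart V) :=
      { toFun := fun x => ⟨r * x.1, h _ x.2.1, mul_nonneg hr.le x.2.2⟩
        map_add' := fun x y => Subtype.ext (mul_add _ _ _) }
    have hψ : ψ + ψ ≠ ψ := by
      intro h2
      have h3 := congrArg (fun G : AddHom (nonnegPart V) (nonnegPart V) =>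
        ((G ⟨1, h1, zero_le_one⟩ : nonnegPart V) : ℝ)) h2
      have h4 : r * 1 + r * 1 = r * 1 := h3
      linarith
    have hid : AddHom.id (nonnegPart V) + AddHom.id (nonnegPart V) ≠ AddHom.id (nonnegPart V) := by
      intro h2
      have h3 := congrArg (fun G : AddHom (nonnegPart V) (nonnegPart V) =>
        ((G ⟨1, h1, zero_le_one⟩ : nonnegPart V) : ℝ)) h2
      have h4 : (1 : ℝ) + 1 = 1 := h3
      linarith
    obtain ⟨m, n, hmn⟩ := end_frac0 e ψ hψ hid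
    have h2 := congrArg Subtype.val (hmn ⟨1, h1, zero_le_one⟩)
    rw [coe_nm_sub, coe_nm_sub] at h2
    have h3 : ((m : ℝ) + 1) * (r * 1) = (n + 1) * 1 := h2
    exact rat_of_eq m n r (by rw [mul_one] at h3; exact h3)
  intro r h
  rcases lt_trichotomy 0 r with h0 | h0 | h0
  · exact hp r h0 h
  · exact ⟨0, by rw [← h0]; simp⟩
  · obtain ⟨q, hq⟩ := hp (-r) (by linarith) (fun x hx => by
      have := V.neg_mem (h x hx)
      rwa [← neg_mul] at this)
    exact ⟨-q, by push_cast; linarith⟩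

/-- isomorphism criterion for positive parts -/
theorem iso1_iff (V W : Submodule ℚ ℝ) (h1 : (1 : ℝ) ∈ V) :
    Nonempty (posPart V ≃+ posPart W) ↔ ∃ r : ℝ, 0 < r ∧ ∀ x : ℝ, x ∈ V ↔ r * x ∈ W := by
  classical
  constructor
  · rintro ⟨g⟩
    let f : ℝ → ℝ := fun x => if hx : x ∈ V ∧ 0 < x then ((g ⟨x, hx⟩ : posPart W) : ℝ) else 0
    have hf : ∀ x (hx : x ∈ V ∧ 0 < x), f x = ((g ⟨x, hx⟩ : posPart W) : ℝ) := by
      intro x hx
      exact dif_pos hx
    have hadd : ∀ x ∈ V, ∀ y ∈ V, 0 < x → 0 < y → f (x + y) = f x + f y := by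
      intro x hx y hy hx0 hy0
      rw [hf x ⟨hx, hx0⟩, hf y ⟨hy, hy0⟩, hf (x + y) ⟨V.add_mem hx hy, add_pos hx0 hy0⟩]
      have := g.map_add ⟨x, hx, hx0⟩ ⟨y, hy, hy0⟩
      have h2 := congrArg (fun z : posPart W => (z : ℝ)) this
      exact h2
    have hpos : ∀ x ∈ V, 0 < x → 0 ≤ f x := by
      intro x hx hx0
      rw [hf x ⟨hx, hx0⟩]
      exact (g ⟨x, hx, hx0⟩).2.2.le
    have hlin := exists_pos V h1 f hadd hpos
    have hf1 : 0 < f 1 := by
      rw [hf 1 ⟨h1, one_pos⟩]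
      exact (g ⟨1, h1, one_pos⟩).2.2
    have hfor := mult_ext V W h1 (f 1) (fun x hx hx0 => by
      rw [← hlin x hx hx0, hf x ⟨hx, hx0⟩]
      exact (g ⟨x, hx, hx0⟩).2.1)
    have hback : ∀ x, 0 < x → f 1 * x ∈ W → x ∈ V := by
      intro x hx h
      obtain ⟨z, hz⟩ := g.surjective ⟨f 1 * x, h, mul_pos hf1 hx⟩
      have h3 := congrArg Subtype.val hz
      have h4 : ((g z : posPart W) : ℝ) = f 1 * x := h3
      have h5 : f z.1 = f 1 * z.1 := hlin z.1 z.2.1 z.2.2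
      rw [hf z.1 z.2] at h5
      have h6 : f 1 * z.1 = f 1 * x := by rw [← h5, ← h4]
      have h7 := mul_left_cancel₀ hf1.ne' h6
      rw [← h7]
      exact z.2.1
    refine ⟨f 1, hf1, fun x => ⟨hfor x, fun h => ?_⟩⟩
    rcases lt_trichotomy 0 x with h0 | h0 | h0
    · exact hback x h0 h
    · rw [← h0]; exact V.zero_mem
    · have h2 := hback (-x) (by linarith) (by
        have := W.neg_mem h
        rwa [← mul_neg] at this)
      have h3 := V.neg_mem h2
      rwa [neg_neg] at h3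
  · rintro ⟨r, hr, h⟩
    refine ⟨AddEquiv.ofBijective ({ toFun := fun x => ⟨r * x.1, (h _).1 x.2.1, mul_pos hr x.2.2⟩
                                    map_add' := fun x y => Subtype.ext (mul_add _ _ _) } :
      AddHom (posPart V) (posPart W)) ⟨?_, ?_⟩⟩
    · intro x y hxy
      have h2 : r * x.1 = r * y.1 := congrArg Subtype.val hxy
      exact Subtype.ext (mul_left_cancel₀ hr.ne' h2)
    · intro y
      have e1 : r * (y.1 / r) = y.1 := by field_simp
      refine ⟨⟨y.1 / r, (h _).2 (by rw [e1]; exact y.2.1), div_pos y.2.2 hr⟩, Subtype.ext e1⟩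

end Pool.Agent.H26.Sem
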