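import Mathlib

set_option autoImplicit false

namespace Pool.Agent.H26.Sem

/-- the positive part of a `ℚ`-subspace of `ℝ`, a commutative (additively written) semigroup -/
def posPart (V : Submodule ℚ ℝ) : AddSubsemigroup ℝ where
  carrier := {x | x ∈ V ∧ 0 < x}
  add_mem' := fun ha hb => ⟨V.add_mem ha.1 hb.1, add_pos ha.2 hb.2⟩

/-- the nonnegative part of a `ℚ`-subspace of `ℝ` -/
def nonnegPart (V : Submodule ℚ ℝ) : AddSubsemigroup ℝ where
  carrier := {x | x ∈ V ∧ 0 ≤ x}
  add_mem' := fun ha hb => ⟨V.add_mem ha.1 hb.1, add_nonneg ha.2 hb.2⟩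

/-- the positive cone of a totally ordered abelian group, a commutative semigroup -/
def posCone (G : Type) [AddCommGroup G] [LinearOrder G] [IsOrderedAddMonoid G] :
    AddSubsemigroup G where
  carrier := {x | 0 < x}
  add_mem' := fun ha hb => add_pos ha hb

/-- the nonnegative cone of a totally ordered abelian group, a commutative semigroup -/
def nonnegCone (G : Type) [AddCommGroup G] [LinearOrder G] [IsOrderedAddMonoid G] :
    AddSubsemigroup G where
  carrier := {x | 0 ≤ x}
  add_mem' := fun ha hb => add_nonneg ha hb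

/-- `End(S)` with pointwise operation is isomorphic to `(ℚ_{>0}, +)` (`S` written additively) -/
def SolvesQ1 (S : Type) [AddCommSemigroup S] : Prop :=
  Nonempty (AddHom S S ≃+ {q : ℚ // 0 < q})

/-- `End(S)` with pointwise operation is isomorphic to `(ℚ_{≥0}, +)` (`S` written additively) -/
def SolvesQ2 (S : Type) [AddCommSemigroup S] : Prop :=
  Nonempty (AddHom S S ≃+ {q : ℚ // 0 ≤ q})

end Pool.Agent.H26.Sem
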