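import Pool.Agent.H26.SemC
import Pool.Agent.H26.SemDefs

set_option autoImplicit false

namespace Pool.Agent.H26.Sem

/-- transport of `End` along an isomorphism -/
theorem end_congr {S T : Type} [AddCommSemigroup S] [AddCommSemigroup T] (g : S ≃+ T) :
    Nonempty (AddHom S S ≃+ AddHom T T) := by
  refine ⟨{ toFun := fun f => { toFun := fun t => g (f (g.symm t)), map_add' := ?_ }
            invFun := fun f => { toFun := fun s => g.symm (f (g s)), map_add' := ?_ }
            left_inv := ?_, right_inv := ?_, map_add' := ?_ }⟩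
  · intro x y; simp
  · intro x y; simp
  · intro f; apply AddHom.ext; intro x
    show g.symm (g (f (g.symm (g x)))) = f x
    simp
  · intro f; apply AddHom.ext; intro x
    show g (g.symm (f (g (g.symm x)))) = f x
    simp
  · intro f h; apply AddHom.ext; intro x
    show g (f (g.symm x) + h (g.symm x)) = g (f (g.symm x)) + g (h (g.symm x))
    simp

theorem solves1_congr {S T : Type} [AddCommSemigroup S] [AddCommSemigroup T] (g : S ≃+ T)
    (h : SolvesQ1 S) : SolvesQ1 T := by
  obtain ⟨c⟩ := end_congr g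
  obtain ⟨e⟩ := h
  exact ⟨c.symm.trans e⟩

section ordered

variable (G : Type) [AddCommGroup G] [LinearOrder G] [IsOrderedAddMonoid G] [Module ℚ G]

theorem coe_nm_G (n : ℕ) (x : posCone G) : ((nm n x : posCone G) : G) = (n + 1) • (x : G) := by
  induction n with
  | zero => show (x : G) = _; simp
  | succ n ih =>
    show ((nm n x + x : posCone G) : G) = _
    show ((nm n x : posCone G) : G) + (x : G) = _
    rw [ih, add_smul (n + 1) 1, one_smul]

/-- the elements bounded by multiples of `y` -/
def bdd (y : G) (hy : 0 < y) : Submodule ℚ G where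
  carrier := {z | ∃ n : ℕ, |z| ≤ n • y}
  add_mem' := by
    rintro a b ⟨n, hn⟩ ⟨m, hm⟩
    refine ⟨n + m, (abs_add_le a b).trans ?_⟩
    rw [add_smul]
    exact add_le_add hn hm
  zero_mem' := ⟨0, by simp⟩
  smul_mem' := by
    rintro q z ⟨n, hn⟩
    refine ⟨q.num.natAbs * n, ?_⟩
    have h1 : (q.den : ℕ) • (q • z) = q.num • z := by
      have e1 : ((q.den : ℕ) : ℚ) • (q • z) = (q.num : ℚ) • z := by
        rw [smul_smul, mul_comm, Rat.mul_den_eq_num]
      rw [Nat.cast_smul_eq_nsmul, Int.cast_smul_eq_zsmul] at e1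
      exact e1
    have h2 : |q • z| ≤ q.den • |q • z| := by
      have : 1 • |q • z| ≤ q.den • |q • z| := nsmul_le_nsmul_left (abs_nonneg _) q.den_pos
      rwa [one_smul] at this
    have h3 : q.den • |q • z| = |q.num • z| := by
      rw [← h1, abs_nsmul]
    have h4 : |q.num • z| = q.num.natAbs • |z| := by
      rw [abs_zsmul]
      rw [← natCast_zsmul, Int.natCast_natAbs]
    rw [h3, h4] at h2
    refine h2.trans ?_
    rw [mul_smul]
    exact nsmul_le_nsmul_right hn _

theorem arch_of_solves (h : SolvesQ1 (posCone G)) : Archimedean G := by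
  obtain ⟨e⟩ := h
  refine ⟨fun x y hy => ?_⟩
  by_contra hcon
  push Not at hcon
  have hx0 : 0 < x := by simpa using hcon 0
  have hxU : x ∉ bdd G y hy := by
    rintro ⟨n, hn⟩
    rw [abs_of_pos hx0] at hn
    exact absurd hn (not_le.2 (hcon n))
  obtain ⟨φ, hφx, hφU⟩ := Submodule.exists_dual_map_eq_bot_of_notMem hxU inferInstance
  have hφ0 : ∀ z ∈ bdd G y hy, φ z = 0 := by
    intro z hz
    have : φ z ∈ (bdd G y hy).map φ := ⟨z, hz, rfl⟩
    rw [hφU] at this
    simpa using this
  have hyU : y ∈ bdd G y hy := ⟨1, by rw [abs_of_pos hy, one_smul]⟩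
  have hpos : ∀ z : G, 0 < z → 0 < z + φ z • y := by
    intro z hz
    by_cases hzU : z ∈ bdd G y hy
    · rw [hφ0 z hzU, zero_smul, add_zero]; exact hz
    · obtain ⟨n, hn⟩ := (bdd G y hy).smul_mem (φ z) hyU
      have h1 : n • y < z := by
        by_contra h2
        apply hzU
        exact ⟨n, by rw [abs_of_pos hz]; exact not_lt.1 h2⟩
      have h2 := neg_le_of_abs_le hn
      have h3 : -(n • y) + z ≤ φ z • y + z := by
        have := add_le_add_left h2 z
        simpa [add_comm] using this
      have h4 : 0 < -(n • y) + z := by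
        rw [neg_add_eq_sub]; exact sub_pos.2 h1
      rw [add_comm]
      exact lt_of_lt_of_le h4 h3
  let ψ : AddHom (posCone G) (posCone G) :=
    { toFun := fun z => ⟨z.1 + φ z.1 • y, hpos z.1 z.2⟩
      map_add' := fun a b => Subtype.ext (by
        show (a.1 + b.1) + φ (a.1 + b.1) • y = (a.1 + φ a.1 • y) + (b.1 + φ b.1 • y)
        rw [map_add, add_smul]
        abel) }
  obtain ⟨m, n, hmn⟩ := end_frac e ψ
  have hY := congrArg Subtype.val (hmn ⟨y, hy⟩)
  have hX := congrArg Subtype.val (hmn ⟨x, hx0⟩)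
  rw [coe_nm_G, coe_nm_G] at hY hX
  have hY' : (m + 1) • (y + φ y • y) = (n + 1) • y := hY
  have hX' : (m + 1) • (x + φ x • y) = (n + 1) • x := hX
  rw [hφ0 y hyU, zero_smul, add_zero] at hY'
  have hmn' : m + 1 = n + 1 := by
    by_contra hne
    rcases lt_or_gt_of_ne hne with h1 | h1
    · exact absurd hY' (ne_of_lt (nsmul_lt_nsmul_left hy h1))
    · exact absurd hY' (ne_of_gt (nsmul_lt_nsmul_left hy h1))
  rw [hmn', smul_add] at hX'
  have h5 : (n + 1) • (φ x • y) = 0 := by
    have := hX'
    rwa [add_eq_left] at this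
  have h6 : ((n + 1 : ℕ) : ℚ) • (φ x • y) = 0 := by
    rw [Nat.cast_smul_eq_nsmul]; exact h5
  rw [smul_smul, smul_eq_zero] at h6
  rcases h6 with h6 | h6
  · rcases mul_eq_zero.1 h6 with h7 | h7
    · have : ((n + 1 : ℕ) : ℚ) ≠ 0 := by positivity
      exact this h7
    · exact hφx h7
  · exact hy.ne' h6

end ordered

end Pool.Agent.H26.Sem
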