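import Pool.Agent.H26.SemD

set_option autoImplicit false

namespace Pool.Agent.H26.Sem

theorem holder_part (G : Type) [AddCommGroup G] [LinearOrder G] [IsOrderedAddMonoid G]
    [Module ℚ G] [Nontrivial G] [Archimedean G] :
    ∃ V : Submodule ℚ ℝ, (1 : ℝ) ∈ V ∧ Nonempty (posCone G ≃+ posPart V) := by
  obtain ⟨f, hf⟩ := Archimedean.exists_orderAddMonoidHom_real_injective G
  obtain ⟨y, hy⟩ := exists_ne (0 : G)
  obtain ⟨z, hz⟩ : ∃ z : G, 0 < z := ⟨|y|, abs_pos.2 hy⟩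
  have hmono : StrictMono f := f.monotone'.strictMono_of_injective hf
  have hc : 0 < f z := by
    have := hmono hz
    rwa [map_zero] at this
  let L : G →ₗ[ℚ] ℝ := (f.toAddMonoidHom).toRatLinearMap
  have hL : ∀ x, L x = f x := fun x => rfl
  let M : G →ₗ[ℚ] ℝ := (LinearMap.mulRight ℚ ((f z)⁻¹)).comp L
  have hM : ∀ x, M x = f x * (f z)⁻¹ := fun x => rfl
  refine ⟨LinearMap.range M, ⟨z, by rw [hM]; exact mul_inv_cancel₀ hc.ne'⟩, ?_⟩
  have hpos : ∀ x : G, 0 < x ↔ 0 < M x := by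
    intro x
    rw [hM]
    constructor
    · intro hx
      have := hmono hx
      rw [map_zero] at this
      exact mul_pos this (inv_pos.2 hc)
    · intro h
      have h2 : 0 < f x := by
        by_contra h3
        exact absurd h (not_lt.2 (mul_nonpos_of_nonpos_of_nonneg (not_lt.1 h3) (inv_pos.2 hc).le))
      rw [← map_zero f] at h2
      exact hmono.lt_iff_lt.1 h2
  refine ⟨AddEquiv.ofBijective ({ toFun := fun x => ⟨M x.1, ⟨x.1, rfl⟩, (hpos _).1 x.2⟩
                                  map_add' := fun x y => Subtype.ext (map_add M _ _) } :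
      AddHom (posCone G) (posPart (LinearMap.range M))) ⟨?_, ?_⟩⟩
  · intro x y hxy
    have h2 : M x.1 = M y.1 := congrArg Subtype.val hxy
    rw [hM, hM] at h2
    exact Subtype.ext (hf (mul_right_cancel₀ (inv_ne_zero hc.ne') h2))
  · rintro ⟨r, ⟨x, rfl⟩, hx⟩
    exact ⟨⟨x, (hpos x).2 hx⟩, rfl⟩

theorem ordered_iff (G : Type) [AddCommGroup G] [LinearOrder G] [IsOrderedAddMonoid G]
    [Module ℚ G] [Nontrivial G] :
    SolvesQ1 (posCone G) ↔ ∃ V : Submodule ℚ ℝ, (1 : ℝ) ∈ V ∧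
      (∀ r : ℝ, (∀ x ∈ V, r * x ∈ V) → ∃ q : ℚ, r = q) ∧ Nonempty (posCone G ≃+ posPart V) := by
  constructor
  · intro h
    have : Archimedean G := arch_of_solves G h
    obtain ⟨V, hV, ⟨g⟩⟩ := holder_part G
    exact ⟨V, hV, (solves1_iff V hV).1 (solves1_congr g h), ⟨g⟩⟩
  · rintro ⟨V, hV, h, ⟨g⟩⟩
    exact solves1_congr g.symm ((solves1_iff V hV).2 h)

end Pool.Agent.H26.Sem
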