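import Pool.Agent.H26.SemE

set_option autoImplicit false

namespace Pool.Agent.H26.Sem

theorem div_of_solves (G : Type) [AddCommGroup G] [LinearOrder G] [IsOrderedAddMonoid G]
    (h : SolvesQ1 (posCone G)) (n : ℕ) (x : G) (hx : 0 < x) : ∃ y : G, 0 < y ∧ (n + 1) • y = x := by
  obtain ⟨e⟩ := h
  set u : {q : ℚ // 0 < q} := e (AddHom.id (posCone G)) with hu
  have hd : (0 : ℚ) < (u : ℚ) / (n + 1) := div_pos u.2 (by positivity)
  set ψ : AddHom (posCone G) (posCone G) := e.symm ⟨(u : ℚ) / (n + 1), hd⟩ with hψ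
  have h1 : nm n ψ = AddHom.id (posCone G) := by
    apply e.injective
    have a1 : e (nm n ψ) = nm n (e ψ) :=
      map_nm (e : AddHom (posCone G) (posCone G) ≃+ {q : ℚ // 0 < q}).toAddHom n ψ
    rw [a1, ← hu, hψ, AddEquiv.apply_symm_apply]
    apply Subtype.ext
    rw [coe_nm]
    show ((n : ℚ) + 1) * ((u : ℚ) / (n + 1)) = u
    field_simp
  have ev : ∀ (k : ℕ) (f : AddHom (posCone G) (posCone G)) (z : posCone G),
      (nm k f) z = nm k (f z) := by
    intro k f z
    induction k with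
    | zero => rfl
    | succ k ih =>
      show nm k f z + f z = nm k (f z) + f z
      rw [ih]
  have h2 : nm n (ψ ⟨x, hx⟩) = ⟨x, hx⟩ := by
    rw [← ev, h1]; rfl
  refine ⟨(ψ ⟨x, hx⟩).1, (ψ ⟨x, hx⟩).2, ?_⟩
  have h3 := congrArg Subtype.val h2
  have h4 : ∀ (k : ℕ) (z : posCone G), ((nm k z : posCone G) : G) = (k + 1) • (z : G) := by
    intro k z
    induction k with
    | zero => show (z : G) = _; simp
    | succ k ih =>
      show ((nm k z : posCone G) : G) + (z : G) = _
      rw [ih, add_smul (k + 1) 1, one_smul]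
  rw [h4] at h3
  exact h3

theorem hull_iso (G : Type) [AddCommGroup G] [LinearOrder G] [IsOrderedAddMonoid G]
    (hdiv : ∀ (n : ℕ) (x : G), 0 < x → ∃ y : G, 0 < y ∧ (n + 1) • y = x) :
    Nonempty (posCone G ≃+ posCone (DivisibleHull G)) := by
  have hpos : ∀ (m : G) (s : ℕ+), 0 < DivisibleHull.mk m s ↔ 0 < m := by
    intro m s
    rw [← DivisibleHull.mk_zero (M := G) 1, DivisibleHull.mk_lt_mk]
    simp
  refine ⟨AddEquiv.ofBijective ({ toFun := fun x => ⟨(x.1 : DivisibleHull G), (hpos _ _).2 x.2⟩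
                                  map_add' := fun x y => Subtype.ext DivisibleHull.coe_add } :
      AddHom (posCone G) (posCone (DivisibleHull G))) ⟨?_, ?_⟩⟩
  · intro x y hxy
    have h2 : (x.1 : DivisibleHull G) = (y.1 : DivisibleHull G) := congrArg Subtype.val hxy
    exact Subtype.ext (DivisibleHull.coe_injective h2)
  · rintro ⟨z, hz⟩
    induction z with
    | mk m s =>
      have hm : 0 < m := (hpos m s).1 hz
      obtain ⟨y, hy, hys⟩ := hdiv (s.val - 1) m hm
      have hs : s.val - 1 + 1 = s.val := Nat.sub_add_cancel s.2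
      rw [hs] at hys
      refine ⟨⟨y, hy⟩, Subtype.ext ?_⟩
      show (DivisibleHull.mk y 1 : DivisibleHull G) = DivisibleHull.mk m s
      rw [DivisibleHull.mk_eq_mk]
      refine ⟨1, ?_⟩
      simp [hys]

/-- classification of the solutions of Q1 that are positive cones of totally ordered groups -/
theorem ordered_iff' (G : Type) [AddCommGroup G] [LinearOrder G] [IsOrderedAddMonoid G]
    [Nontrivial G] :
    SolvesQ1 (posCone G) ↔ ∃ V : Submodule ℚ ℝ, (1 : ℝ) ∈ V ∧
      (∀ r : ℝ, (∀ x ∈ V, r * x ∈ V) → ∃ q : ℚ, r = q) ∧ Nonempty (posCone G ≃+ posPart V) := by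
  constructor
  · intro h
    obtain ⟨g⟩ := hull_iso G (div_of_solves G h)
    have : Nontrivial (DivisibleHull G) :=
      DivisibleHull.coe_injective.nontrivial
    obtain ⟨V, hV, hr, ⟨k⟩⟩ := (ordered_iff (DivisibleHull G)).1 (solves1_congr g h)
    exact ⟨V, hV, hr, ⟨g.trans k⟩⟩
  · rintro ⟨V, hV, h, ⟨g⟩⟩
    exact solves1_congr g.symm ((solves1_iff V hV).2 h)

end Pool.Agent.H26.Sem
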