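import Pool.Agent.H26.SemF
import Pool.Agent.H26.SemDefs

set_option autoImplicit false

namespace Pool.Agent.H26.Sem

theorem solves2_congr {S T : Type} [AddCommSemigroup S] [AddCommSemigroup T] (g : S ≃+ T)
    (h : SolvesQ2 S) : SolvesQ2 T := by
  obtain ⟨c⟩ := end_congr g
  obtain ⟨e⟩ := h
  exact ⟨c.symm.trans e⟩

section ordered

variable (G : Type) [AddCommGroup G] [LinearOrder G] [IsOrderedAddMonoid G]

theorem coe_nm_G0 (n : ℕ) (x : nonnegCone G) :
    ((nm n x : nonnegCone G) : G) = (n + 1) • (x : G) := by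
  induction n with
  | zero => show (x : G) = _; simp
  | succ n ih =>
    show ((nm n x + x : nonnegCone G) : G) = _
    show ((nm n x : nonnegCone G) : G) + (x : G) = _
    rw [ih, add_smul (n + 1) 1, one_smul]

theorem id_ne (y : G) (hy : 0 < y) :
    AddHom.id (nonnegCone G) + AddHom.id (nonnegCone G) ≠ AddHom.id (nonnegCone G) := by
  intro h2
  have h3 := congrArg (fun F : AddHom (nonnegCone G) (nonnegCone G) =>
    ((F ⟨y, hy.le⟩ : nonnegCone G) : G)) h2
  have h4 : y + y = y := h3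
  rw [add_eq_left] at h4
  exact hy.ne' h4

theorem arch_of_solves2 [Module ℚ G] (h : SolvesQ2 (nonnegCone G)) : Archimedean G := by
  obtain ⟨e⟩ := h
  refine ⟨fun x y hy => ?_⟩
  by_contra hcon
  push Not at hcon
  have hx0 : 0 < x := by simpa using hcon 0
  have hxU : x ∉ bdd G y hy := by
    rintro ⟨n, hn⟩
    rw [abs_of_pos hx0] at hn
    exact absurd hn (not_le.2 (hcon n))
  obtain ⟨φ, hφx, hφU⟩ := Submodule.exists_dual_map_eq_bot_of_notMem hxU inferInstance
  have hφ0 : ∀ z ∈ bdd G y hy, φ z = 0 := by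
    intro z hz
    have : φ z ∈ (bdd G y hy).map φ := ⟨z, hz, rfl⟩
    rw [hφU] at this
    simpa using this
  have hyU : y ∈ bdd G y hy := ⟨1, by rw [abs_of_pos hy, one_smul]⟩
  have hpos : ∀ z : G, 0 < z → 0 < z + φ z • y := by
    intro z hz
    by_cases hzU : z ∈ bdd G y hy
    · rw [hφ0 z hzU, zero_smul, add_zero]; exact hz
    · obtain ⟨n, hn⟩ := (bdd G y hy).smul_mem (φ z) hyU
      have h1 : n • y < z := by
        by_contra h2
        apply hzU
        exact ⟨n, by rw [abs_of_pos hz]; exact not_lt.1 h2⟩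
      have h2 := neg_le_of_abs_le hn
      have h3 : -(n • y) + z ≤ φ z • y + z := by
        have := add_le_add_left h2 z
        simpa [add_comm] using this
      have h4 : 0 < -(n • y) + z := by
        rw [neg_add_eq_sub]; exact sub_pos.2 h1
      rw [add_comm]
      exact lt_of_lt_of_le h4 h3
  have hnn : ∀ z : G, 0 ≤ z → 0 ≤ z + φ z • y := by
    intro z hz
    rcases hz.eq_or_lt with h0 | h0
    · rw [← h0, map_zero, zero_smul, add_zero]
    · exact (hpos z h0).le
  let ψ : AddHom (nonnegCone G) (nonnegCone G) :=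
    { toFun := fun z => ⟨z.1 + φ z.1 • y, hnn z.1 z.2⟩
      map_add' := fun a b => Subtype.ext (by
        show (a.1 + b.1) + φ (a.1 + b.1) • y = (a.1 + φ a.1 • y) + (b.1 + φ b.1 • y)
        rw [map_add, add_smul]
        abel) }
  have hψ : ψ + ψ ≠ ψ := by
    intro h2
    have h3 := congrArg (fun F : AddHom (nonnegCone G) (nonnegCone G) =>
      ((F ⟨y, hy.le⟩ : nonnegCone G) : G)) h2
    have h4 : (y + φ y • y) + (y + φ y • y) = (y + φ y • y) := h3
    rw [add_eq_left] at h4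
    exact (hpos y hy).ne' h4
  obtain ⟨m, n, hmn⟩ := end_frac0 e ψ hψ (id_ne G y hy)
  have hY := congrArg Subtype.val (hmn ⟨y, hy.le⟩)
  have hX := congrArg Subtype.val (hmn ⟨x, hx0.le⟩)
  rw [coe_nm_G0, coe_nm_G0] at hY hX
  have hY' : (m + 1) • (y + φ y • y) = (n + 1) • y := hY
  have hX' : (m + 1) • (x + φ x • y) = (n + 1) • x := hX
  rw [hφ0 y hyU, zero_smul, add_zero] at hY'
  have hmn' : m + 1 = n + 1 := by
    by_contra hne
    rcases lt_or_gt_of_ne hne with h1 | h1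
    · exact absurd hY' (ne_of_lt (nsmul_lt_nsmul_left hy h1))
    · exact absurd hY' (ne_of_gt (nsmul_lt_nsmul_left hy h1))
  rw [hmn', smul_add] at hX'
  have h5 : (n + 1) • (φ x • y) = 0 := by
    have := hX'
    rwa [add_eq_left] at this
  have h6 : ((n + 1 : ℕ) : ℚ) • (φ x • y) = 0 := by
    rw [Nat.cast_smul_eq_nsmul]; exact h5
  rw [smul_smul, smul_eq_zero] at h6
  rcases h6 with h6 | h6
  · rcases mul_eq_zero.1 h6 with h7 | h7
    · have : ((n + 1 : ℕ) : ℚ) ≠ 0 := by positivity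
      exact this h7
    · exact hφx h7
  · exact hy.ne' h6

theorem div_of_solves2 (h : SolvesQ2 (nonnegCone G)) (n : ℕ) (x : G) (hx : 0 < x) :
    ∃ y : G, 0 < y ∧ (n + 1) • y = x := by
  obtain ⟨e⟩ := h
  set u : {q : ℚ // 0 ≤ q} := e (AddHom.id (nonnegCone G)) with hu
  have hd : (0 : ℚ) ≤ (u : ℚ) / (n + 1) := div_nonneg u.2 (by positivity)
  set ψ : AddHom (nonnegCone G) (nonnegCone G) := e.symm ⟨(u : ℚ) / (n + 1), hd⟩ with hψ
  have h1 : nm n ψ = AddHom.id (nonnegCone G) := by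
    apply e.injective
    have a1 : e (nm n ψ) = nm n (e ψ) :=
      map_nm (e : AddHom (nonnegCone G) (nonnegCone G) ≃+ {q : ℚ // 0 ≤ q}).toAddHom n ψ
    rw [a1, ← hu, hψ, AddEquiv.apply_symm_apply]
    apply Subtype.ext
    rw [coe_nm0]
    show ((n : ℚ) + 1) * ((u : ℚ) / (n + 1)) = u
    field_simp
  have ev : ∀ (k : ℕ) (f : AddHom (nonnegCone G) (nonnegCone G)) (z : nonnegCone G),
      (nm k f) z = nm k (f z) := by
    intro k f z
    induction k with
    | zero => rfl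
    | succ k ih =>
      show nm k f z + f z = nm k (f z) + f z
      rw [ih]
  have h2 : nm n (ψ ⟨x, hx.le⟩) = ⟨x, hx.le⟩ := by
    rw [← ev, h1]; rfl
  have h3 := congrArg Subtype.val h2
  rw [coe_nm_G0] at h3
  have h4 : (n + 1) • (ψ ⟨x, hx.le⟩).1 = x := h3
  refine ⟨(ψ ⟨x, hx.le⟩).1, lt_of_le_of_ne (ψ ⟨x, hx.le⟩).2 (fun h0 => ?_), h4⟩
  rw [← h0, smul_zero] at h4
  exact hx.ne h4

end ordered

/-- an isomorphism of positive cones extends to the nonnegative cones -/
theorem ext_zero {G : Type} [AddCommGroup G] [LinearOrder G] [IsOrderedAddMonoid G]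
    (V : Submodule ℚ ℝ) (g : posCone G ≃+ posPart V) : Nonempty (nonnegCone G ≃+ nonnegPart V) := by
  classical
  let F : nonnegCone G → nonnegPart V := fun x =>
    if hx : 0 < x.1 then ⟨(g ⟨x.1, hx⟩).1, (g ⟨x.1, hx⟩).2.1, (g ⟨x.1, hx⟩).2.2.le⟩
    else ⟨0, V.zero_mem, le_rfl⟩
  have Fp : ∀ (x : nonnegCone G) (hx : 0 < x.1), (F x).1 = (g ⟨x.1, hx⟩).1 := by
    intro x hx
    simp only [F, dif_pos hx]
  have F0 : ∀ (x : nonnegCone G), ¬ 0 < x.1 → (F x).1 = 0 := by
    intro x hx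
    simp only [F, dif_neg hx]
  have z0 : ∀ (x : nonnegCone G), ¬ 0 < x.1 → x.1 = 0 := fun x hx =>
    le_antisymm (not_lt.1 hx) x.2
  refine ⟨AddEquiv.ofBijective ({ toFun := F, map_add' := ?_ } :
    AddHom (nonnegCone G) (nonnegPart V)) ⟨?_, ?_⟩⟩
  · intro x y
    apply Subtype.ext
    show (F (x + y)).1 = (F x).1 + (F y).1
    by_cases hx : 0 < x.1
    · by_cases hy : 0 < y.1
      · have hxy : 0 < (x + y).1 := add_pos hx hy
        rw [Fp _ hxy, Fp _ hx, Fp _ hy]
        have := g.map_add ⟨x.1, hx⟩ ⟨y.1, hy⟩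
        exact congrArg Subtype.val this
      · have hxy : x + y = x := Subtype.ext (by
          show x.1 + y.1 = x.1
          rw [z0 y hy, add_zero])
        rw [hxy, F0 y hy, add_zero]
    · have hxy : x + y = y := Subtype.ext (by
        show x.1 + y.1 = y.1
        rw [z0 x hx, zero_add])
      rw [hxy, F0 x hx, zero_add]
  · intro x y hxy
    have h1 : (F x).1 = (F y).1 := congrArg Subtype.val hxy
    by_cases hx : 0 < x.1
    · by_cases hy : 0 < y.1
      · rw [Fp _ hx, Fp _ hy] at h1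
        have := g.injective (Subtype.ext h1)
        have h9 : x.1 = y.1 := congrArg (fun z : posCone G => z.1) this
        exact Subtype.ext h9
      · exfalso
        rw [Fp _ hx, F0 y hy] at h1
        exact (g ⟨x.1, hx⟩).2.2.ne' h1
    · by_cases hy : 0 < y.1
      · exfalso
        rw [Fp _ hy, F0 x hx] at h1
        exact (g ⟨y.1, hy⟩).2.2.ne h1
      · exact Subtype.ext ((z0 x hx).trans (z0 y hy).symm)
  · rintro ⟨r, hr, hr0⟩
    rcases hr0.eq_or_lt with h0 | h0
    · refine ⟨⟨0, le_refl (0 : G)⟩, Subtype.ext ?_⟩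
      show (F ⟨0, le_refl (0 : G)⟩).1 = r
      rw [F0 _ (lt_irrefl (0 : G))]
      exact h0
    · obtain ⟨z, hz⟩ := g.surjective ⟨r, hr, h0⟩
      refine ⟨⟨z.1, le_of_lt z.2⟩, Subtype.ext ?_⟩
      show (F ⟨z.1, le_of_lt z.2⟩).1 = r
      rw [Fp ⟨z.1, le_of_lt z.2⟩ z.2]
      exact congrArg Subtype.val hz

/-- isomorphic positive cones have isomorphic nonnegative cones -/
theorem ext_zero' {G H : Type} [AddCommGroup G] [LinearOrder G] [IsOrderedAddMonoid G]
    [AddCommGroup H] [LinearOrder H] [IsOrderedAddMonoid H]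
    (g : posCone G ≃+ posCone H) : Nonempty (nonnegCone G ≃+ nonnegCone H) := by
  classical
  let F : nonnegCone G → nonnegCone H := fun x =>
    if hx : 0 < x.1 then ⟨(g ⟨x.1, hx⟩).1, le_of_lt (g ⟨x.1, hx⟩).2⟩
    else ⟨0, le_refl (0 : H)⟩
  have Fp : ∀ (x : nonnegCone G) (hx : 0 < x.1), (F x).1 = (g ⟨x.1, hx⟩).1 := by
    intro x hx
    simp only [F, dif_pos hx]
  have F0 : ∀ (x : nonnegCone G), ¬ 0 < x.1 → (F x).1 = 0 := by
    intro x hx
    simp only [F, dif_neg hx]
  have z0 : ∀ (x : nonnegCone G), ¬ 0 < x.1 → x.1 = 0 := fun x hx =>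
    le_antisymm (not_lt.1 hx) x.2
  refine ⟨AddEquiv.ofBijective ({ toFun := F, map_add' := ?_ } :
    AddHom (nonnegCone G) (nonnegCone H)) ⟨?_, ?_⟩⟩
  · intro x y
    apply Subtype.ext
    show (F (x + y)).1 = (F x).1 + (F y).1
    by_cases hx : 0 < x.1
    · by_cases hy : 0 < y.1
      · have hxy : 0 < (x + y).1 := add_pos hx hy
        rw [Fp _ hxy, Fp _ hx, Fp _ hy]
        have := g.map_add ⟨x.1, hx⟩ ⟨y.1, hy⟩
        exact congrArg Subtype.val this
      · have hxy : x + y = x := Subtype.ext (by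
          show x.1 + y.1 = x.1
          rw [z0 y hy, add_zero])
        rw [hxy, F0 y hy, add_zero]
    · have hxy : x + y = y := Subtype.ext (by
        show x.1 + y.1 = y.1
        rw [z0 x hx, zero_add])
      rw [hxy, F0 x hx, zero_add]
  · intro x y hxy
    have h1 : (F x).1 = (F y).1 := congrArg Subtype.val hxy
    by_cases hx : 0 < x.1
    · by_cases hy : 0 < y.1
      · rw [Fp _ hx, Fp _ hy] at h1
        have := g.injective (Subtype.ext h1)
        have h9 : x.1 = y.1 := congrArg (fun z : posCone G => z.1) this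
        exact Subtype.ext h9
      · exfalso
        rw [Fp _ hx, F0 y hy] at h1
        exact (ne_of_gt (g ⟨x.1, hx⟩).2) h1
    · by_cases hy : 0 < y.1
      · exfalso
        rw [Fp _ hy, F0 x hx] at h1
        exact (ne_of_lt (g ⟨y.1, hy⟩).2) h1
      · exact Subtype.ext ((z0 x hx).trans (z0 y hy).symm)
  · rintro ⟨r, hr0⟩
    rcases (show (0 : H) ≤ r from hr0).eq_or_lt with h0 | h0
    · refine ⟨⟨0, le_refl (0 : G)⟩, Subtype.ext ?_⟩
      show (F ⟨0, le_refl (0 : G)⟩).1 = r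
      rw [F0 _ (lt_irrefl (0 : G))]
      exact h0
    · obtain ⟨z, hz⟩ := g.surjective ⟨r, h0⟩
      refine ⟨⟨z.1, le_of_lt z.2⟩, Subtype.ext ?_⟩
      show (F ⟨z.1, le_of_lt z.2⟩).1 = r
      rw [Fp ⟨z.1, le_of_lt z.2⟩ z.2]
      exact congrArg Subtype.val hz

theorem ordered2_iff' (G : Type) [AddCommGroup G] [LinearOrder G] [IsOrderedAddMonoid G]
    [Nontrivial G] :
    SolvesQ2 (nonnegCone G) ↔ ∃ V : Submodule ℚ ℝ, (1 : ℝ) ∈ V ∧
      (∀ r : ℝ, (∀ x ∈ V, r * x ∈ V) → ∃ q : ℚ, r = q) ∧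
        Nonempty (nonnegCone G ≃+ nonnegPart V) := by
  constructor
  · intro h
    obtain ⟨g⟩ := hull_iso G (div_of_solves2 G h)
    obtain ⟨g'⟩ := ext_zero' g
    have : Nontrivial (DivisibleHull G) :=
      DivisibleHull.coe_injective.nontrivial
    have h' : SolvesQ2 (nonnegCone (DivisibleHull G)) := solves2_congr g' h
    have : Archimedean (DivisibleHull G) := arch_of_solves2 _ h'
    obtain ⟨V, hV, ⟨k⟩⟩ := holder_part (DivisibleHull G)
    obtain ⟨k'⟩ := ext_zero V k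
    exact ⟨V, hV, (solves2_iff V hV).1 (solves2_congr k' h'), ⟨g'.trans k'⟩⟩
  · rintro ⟨V, hV, h, ⟨g⟩⟩
    exact solves2_congr g.symm ((solves2_iff V hV).2 h)

end Pool.Agent.H26.Sem
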