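import Mathlib
import Pool.Agent.H26.SemDefs

set_option autoImplicit false

namespace Pool.Agent.H26.Sem

def posCone (G : Type) [AddCommGroup G] [LinearOrder G] [IsOrderedAddMonoid G] :
    AddSubsemigroup G where
  carrier := {x | 0 < x}
  add_mem' := fun ha hb => add_pos ha hb

theorem holder_part (G : Type) [AddCommGroup G] [LinearOrder G] [IsOrderedAddMonoid G]
    [Module ℚ G] [Nontrivial G] [Archimedean G] :
    ∃ V : Submodule ℚ ℝ, (1 : ℝ) ∈ V ∧ Nonempty (posCone G ≃+ posPart V) := by
  classical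
  obtain ⟨f, hf⟩ := Archimedean.exists_orderAddMonoidHom_real_injective G
  have hmono : StrictMono f := f.monotone'.strictMono_of_injective hf
  obtain ⟨y0, hy0⟩ : ∃ y : G, 0 < y := exists_zero_lt
  set c : ℝ := f y0 with hc
  have hc0 : 0 < c := by
    have := hmono hy0
    rwa [map_zero] at this
  let g : G →+ ℝ :=
    { toFun := fun z => f z / c
      map_zero' := by simp
      map_add' := fun a b => by rw [map_add, add_div] }
  have hg : ∀ z, g z = f z / c := fun _ => rfl
  let gl : G →ₗ[ℚ] ℝ := g.toRatLinearMap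
  have hgl : ∀ z, gl z = f z / c := fun _ => rfl
  have hglpos : ∀ z, 0 < gl z ↔ 0 < z := by
    intro z
    rw [hgl, div_pos_iff_of_pos_right hc0]
    have := hmono.lt_iff_lt (a := 0) (b := z)
    rwa [map_zero] at this
  have hginj : Function.Injective gl := by
    intro a b hab
    rw [hgl, hgl] at hab
    apply hf
    field_simp at hab
    exact hab
  refine ⟨LinearMap.range gl, ⟨y0, ?_⟩, ⟨AddEquiv.mk' (Equiv.ofBijective
    (fun z : posCone G => (⟨gl z.1, ⟨z.1, rfl⟩, (hglpos z.1).2 z.2⟩ : posPart (LinearMap.range gl)))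
    ⟨?_, ?_⟩) ?_⟩⟩
  · rw [hgl, ← hc, div_self hc0.ne']
  · intro a b hab
    apply Subtype.ext
    apply hginj
    exact congrArg Subtype.val hab
  · rintro ⟨x, ⟨z, hz⟩, hx⟩
    have hx' : 0 < gl z := by rw [hz]; exact hx
    exact ⟨⟨z, (hglpos z).1 hx'⟩, Subtype.ext hz⟩
  · intro a b
    apply Subtype.ext
    exact map_add gl a.1 b.1

end Pool.Agent.H26.Sem
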