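import Mathlib

/-! Part P for MP_822856_al. -/

set_option autoImplicit false

namespace Pool.Agent.H26.Sem

/-- `(n+1)`-fold sum -/
def nm {T : Type*} [Add T] : ℕ → T → T
  | 0, x => x
  | n + 1, x => nm n x + x

theorem map_nm {S T : Type*} [Add S] [Add T] (f : AddHom S T) (n : ℕ) (x : S) :
    f (nm n x) = nm n (f x) := by
  induction n with
  | zero => rfl
  | succ n ih =>
    show f (nm n x + x) = nm n (f x) + f x
    rw [map_add, ih]

theorem coe_nm (n : ℕ) (q : {q : ℚ // 0 < q}) : ((nm n q : {q : ℚ // 0 < q}) : ℚ) = (n + 1) * q := by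
  induction n with
  | zero => show (q : ℚ) = _; push_cast; ring
  | succ n ih =>
    show ((nm n q + q : {q : ℚ // 0 < q}) : ℚ) = _
    show ((nm n q : {q : ℚ // 0 < q}) : ℚ) + (q : ℚ) = _
    rw [ih]
    push_cast; ring

theorem exists_frac (c : {q : ℚ // 0 < q}) : ∃ m n : ℕ, nm m c = nm n (⟨1, one_pos⟩ : {q : ℚ // 0 < q}) := by
  have hc := c.2
  have h1 : 0 < c.1.num := Rat.num_pos.mpr hc
  have h2 : 0 < c.1.den := c.1.den_pos
  refine ⟨c.1.den - 1, c.1.num.toNat - 1, ?_⟩
  apply Subtype.ext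
  rw [coe_nm, coe_nm]
  have e1 : ((c.1.den - 1 : ℕ) : ℚ) + 1 = (c.1.den : ℚ) := by
    have : (c.1.den - 1) + 1 = c.1.den := by omega
    exact_mod_cast congrArg (fun t : ℕ => (t : ℚ)) this
  have e2 : ((c.1.num.toNat - 1 : ℕ) : ℚ) + 1 = (c.1.num : ℚ) := by
    have h3 : (c.1.num.toNat - 1) + 1 = c.1.num.toNat := by omega
    have h4 : ((c.1.num.toNat : ℤ)) = c.1.num := Int.toNat_of_nonneg h1.le
    have h5 : (((c.1.num.toNat - 1 : ℕ) : ℤ) + 1 : ℤ) = c.1.num := by
      rw [← h4]; exact_mod_cast h3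
    exact_mod_cast congrArg (fun t : ℤ => (t : ℚ)) h5
  rw [e1, e2]
  simp only [mul_one]
  rw [mul_comm]
  exact Rat.mul_den_eq_num _

theorem linear_of_add (f : AddHom {q : ℚ // 0 < q} {q : ℚ // 0 < q}) (r : {q : ℚ // 0 < q}) :
    (f r : ℚ) = r * (f ⟨1, one_pos⟩ : ℚ) := by
  obtain ⟨m, n, h⟩ := exists_frac r
  have h1 : nm m (f r) = nm n (f ⟨1, one_pos⟩) := by
    rw [← map_nm, ← map_nm, h]
  have h2 := congrArg Subtype.val h1
  rw [coe_nm, coe_nm] at h2
  have h3 := congrArg Subtype.val h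
  rw [coe_nm, coe_nm] at h3
  simp only [mul_one] at h3
  have hm : ((m : ℚ) + 1) ≠ 0 := by positivity
  apply mul_left_cancel₀ hm
  rw [h2, ← h3]; ring

theorem iso_of_hom {S : Type} [AddCommSemigroup S] (e : AddHom S S ≃+ {q : ℚ // 0 < q})
    (h : AddHom S {q : ℚ // 0 < q}) : Nonempty (S ≃+ {q : ℚ // 0 < q}) := by
  classical
  have hne : Nonempty S := by
    by_contra hS
    rw [not_nonempty_iff] at hS
    have h1 : ∀ f g : AddHom S S, f = g := fun f g => by
      ext x; exact (hS.false x).elim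
    have h2 := h1 (e.symm ⟨1, by norm_num⟩) (e.symm ⟨2, by norm_num⟩)
    have h3 := e.symm.injective h2
    have h4 := congrArg Subtype.val h3
    norm_num at h4
  obtain ⟨s⟩ := hne
  set u : {q : ℚ // 0 < q} := e (AddHom.id S) with hu
  let φ : AddHom {q : ℚ // 0 < q} (AddHom S S) :=
    { toFun := fun q => e.symm (q * u)
      map_add' := fun p q => by
        rw [← map_add]
        congr 1
        apply Subtype.ext
        show ((p : ℚ) + q) * u = p * u + q * u
        ring }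
  have hφ : ∀ q, φ q = e.symm (q * u) := fun q => rfl
  have h1 : φ ⟨1, one_pos⟩ = AddHom.id S := by
    rw [hφ]
    have : (⟨1, one_pos⟩ : {q : ℚ // 0 < q}) * u = u := by
      apply Subtype.ext; show (1 : ℚ) * u = u; ring
    rw [this, hu, AddEquiv.symm_apply_apply]
  have hall : ∀ ψ : AddHom S S, ∃ c, ψ = φ c := by
    intro ψ
    refine ⟨⟨(e ψ : ℚ) / u, div_pos (e ψ).2 u.2⟩, ?_⟩
    rw [hφ]
    apply e.injective
    rw [AddEquiv.apply_symm_apply]
    apply Subtype.ext
    have hu0 : (u : ℚ) ≠ 0 := u.2.ne'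
    show (e ψ : ℚ) = (e ψ : ℚ) / u * u
    field_simp
  have hev : ∀ (n : ℕ) (q : {q : ℚ // 0 < q}) (x : S), φ (nm n q) x = nm n (φ q x) := by
    intro n q x
    induction n with
    | zero => rfl
    | succ n ih =>
      show φ (nm n q + q) x = nm n (φ q x) + φ q x
      rw [map_add, AddHom.add_apply, ih]
  have hinj : ∀ (c : {q : ℚ // 0 < q}) (x y : S), φ c x = φ c y → x = y := by
    intro c x y hxy
    obtain ⟨m, n, hmn⟩ := exists_frac c
    have h2 : nm n x = nm n y := by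
      have h3 : ∀ z, nm m (φ c z) = nm n z := by
        intro z
        rw [← hev, hmn, hev, h1]; rfl
      rw [← h3, ← h3, hxy]
    have hd : (0 : ℚ) < 1 / (n + 1) := by positivity
    have h4 : nm n (⟨1 / (n + 1), hd⟩ : {q : ℚ // 0 < q}) = ⟨1, one_pos⟩ := by
      apply Subtype.ext
      rw [coe_nm]
      show ((n : ℚ) + 1) * (1 / (n + 1)) = 1
      field_simp
    have h5 : ∀ z : S, φ ⟨1 / (n + 1), hd⟩ (nm n z) = z := by
      intro z
      rw [map_nm, ← hev, h4, h1]; rfl
    rw [← h5 x, ← h5 y, h2]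
  -- the homomorphism `x ↦ φ (h x) s`
  let F : AddHom S S :=
    { toFun := fun x => φ (h x) s
      map_add' := fun x y => by
        rw [map_add, map_add, AddHom.add_apply] }
  obtain ⟨c, hc⟩ := hall F
  have hF : ∀ x, φ (h x) s = φ c x := fun x => by
    have := congrArg (fun G : AddHom S S => G x) hc
    exact this
  have hi : Function.Injective h := by
    intro x y hxy
    apply hinj c
    rw [← hF, ← hF, hxy]
  let g : AddHom {q : ℚ // 0 < q} {q : ℚ // 0 < q} :=
    { toFun := fun q => h (φ q s)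
      map_add' := fun p q => by
        rw [map_add, AddHom.add_apply, map_add] }
  have hs : Function.Surjective h := by
    intro t
    have hg1 : g ⟨1, one_pos⟩ = h s := by
      show h (φ ⟨1, one_pos⟩ s) = h s
      rw [h1]; rfl
    refine ⟨φ ⟨(t : ℚ) / h s, div_pos t.2 (h s).2⟩ s, ?_⟩
    have h2 := linear_of_add g ⟨(t : ℚ) / h s, div_pos t.2 (h s).2⟩
    rw [hg1] at h2
    apply Subtype.ext
    have h3 : (h s : ℚ) ≠ 0 := (h s).2.ne'
    have h4 : ((h (φ ⟨(t : ℚ) / h s, div_pos t.2 (h s).2⟩ s) : {q : ℚ // 0 < q}) : ℚ) =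
        (t : ℚ) / h s * h s := h2
    rw [h4]
    field_simp
  exact ⟨AddEquiv.ofBijective h ⟨hi, hs⟩⟩

end Pool.Agent.H26.Sem
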