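import Mathlib

/-! Part T for MP_822856_al: there are continuum many algebraically independent reals. -/

set_option autoImplicit false

namespace Pool.Agent.H26.Sem

open Cardinal

theorem exists_algInd : ∃ x : Option ℝ → ℝ, AlgebraicIndependent ℚ x := by
  obtain ⟨ι, x, hx⟩ := exists_isTranscendenceBasis' ℚ ℝ
  have halg := hx.isAlgebraic
  have h1 : #ℝ ≤ max (#(Algebra.adjoin ℚ (Set.range x))) ℵ₀ :=
    Algebra.IsAlgebraic.cardinalMk_le_max (Algebra.adjoin ℚ (Set.range x)) ℝ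
  have h2 : #(Algebra.adjoin ℚ (Set.range x)) = #(MvPolynomial ι ℚ) :=
    (Cardinal.mk_congr hx.1.aevalEquiv.toEquiv).symm
  have h3 : #(MvPolynomial ι ℚ) ≤ max (max #ℚ #ι) ℵ₀ := MvPolynomial.cardinalMk_le_max
  have h4 : 𝔠 ≤ #ι := by
    rw [h2, Cardinal.mk_real] at h1
    by_contra hlt
    push Not at hlt
    have : max (#(MvPolynomial ι ℚ)) ℵ₀ < 𝔠 := by
      refine max_lt (lt_of_le_of_lt h3 (max_lt (max_lt ?_ hlt) Cardinal.aleph0_lt_continuum))
        Cardinal.aleph0_lt_continuum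
      rw [Cardinal.mkRat]; exact Cardinal.aleph0_lt_continuum
    exact absurd h1 (not_le.mpr this)
  have h5 : #(Option ℝ) ≤ #ι := by
    rw [Cardinal.mk_option, Cardinal.mk_real]
    have : (𝔠 : Cardinal.{0}) + 1 = 𝔠 := Cardinal.add_one_eq Cardinal.aleph0_le_continuum
    rw [this]; exact h4
  obtain ⟨e⟩ := Cardinal.le_def _ _ |>.mp h5
  exact ⟨x ∘ e, hx.1.comp e e.injective⟩

end Pool.Agent.H26.Sem
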